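import Pool.Agent.Lib.MP_a54f13_nt.Dyn.Spec1
import Pool.Agent.Lib.MP_a54f13_nt.X

/-!
Uniform bounds for the second moments of Hecke–Maass forms on compact sets and near the
fundamental domain.
-/

set_option autoImplicit false

namespace Pool.Agent.A54.Dyn

open MeasureTheory Filter Topology Set
open scoped ComplexConjugate UpperHalfPlane MatrixGroups ENNReal ContDiff
open Pool.Agent.A54.Half (H0 qq ff hh)

noncomputable section

namespace LBM

/-- the matrices with bounded entries -/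
lemma finite_bdd (B : ℤ) : {γ : SL(2, ℤ) | ∀ i j, |γ i j| ≤ B}.Finite := by
  have h1 : {M : Matrix (Fin 2) (Fin 2) ℤ | ∀ i j, |M i j| ≤ B}.Finite := by
    have h2 : (Set.pi univ (fun _ : Fin 2 => Set.pi univ (fun _ : Fin 2 => Set.Icc (-B) B)) :
        Set (Fin 2 → Fin 2 → ℤ)).Finite :=
      Set.Finite.pi fun _ => Set.Finite.pi fun _ => Set.finite_Icc _ _
    refine h2.subset ?_
    intro M hM i _ j _
    exact abs_le.mp (hM i j)
  exact h1.preimage Subtype.val_injective.injOn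

/-- inequalities for the entries -/
lemma real_bound {a b c d x y u v R y0 : ℝ} (hR : 0 ≤ R) (hy0 : 0 < y0) (hx : |x| ≤ R)
    (hy : y0 ≤ y) (hu : |u| ≤ 1 / 2) (hv : 1 / 2 ≤ v) (_hdet : a * d - b * c = 1)
    (hc : c = 0 ∧ |a| ≤ 1 ∧ |d| ≤ 1 ∨ 1 ≤ |c|)
    (h1 : v * ((c * x + d) ^ 2 + (c * y) ^ 2) = y)
    (h2 : y * ((a - c * u) ^ 2 + (c * v) ^ 2) = v)
    (h3 : u * (c * x + d) - v * (c * y) = a * x + b) :
    |a| ≤ 2 / y0 + 2 * R / y0 + R + 3 ∧ |b| ≤ 2 / y0 + 2 * R / y0 + R + 3 ∧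
      |c| ≤ 2 / y0 + 2 * R / y0 + R + 3 ∧ |d| ≤ 2 / y0 + 2 * R / y0 + R + 3 := by
  have e1 : 0 < 2 / y0 := by positivity
  have e2 : 0 ≤ 2 * R / y0 := by positivity
  have hypos : 0 < y := by linarith
  have hvpos : 0 < v := by linarith
  rcases hc with ⟨hc0, ha, hd⟩ | hc1
  · have hb : |b| ≤ 1 / 2 + R := by
      have h4 : b = u * d - a * x := by
        rw [hc0] at h3
        linarith
      rw [h4]
      calc |u * d - a * x| ≤ |u * d| + |a * x| := abs_sub _ _
        _ = |u| * |d| + |a| * |x| := by rw [abs_mul, abs_mul]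
        _ ≤ 1 / 2 * 1 + 1 * R := by
            gcongr
        _ = 1 / 2 + R := by ring
    refine ⟨by linarith, by linarith, ?_, by linarith⟩
    rw [hc0, abs_zero]
    linarith
  · have hc2 : 1 ≤ c ^ 2 := by
      rw [← sq_abs]
      nlinarith
    -- `c² y v ≤ 1`
    have k1 : c ^ 2 * y * v ≤ 1 := by
      have h4 : v * (c * y) ^ 2 ≤ y := by
        have := mul_nonneg hvpos.le (sq_nonneg (c * x + d))
        linarith
      have h5 : (c ^ 2 * y * v) * y ≤ 1 * y := by linarith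
      exact le_of_mul_le_mul_right h5 hypos
    have k2 : c ^ 2 * y ≤ 2 := by
      have : c ^ 2 * y * (1 / 2) ≤ c ^ 2 * y * v :=
        mul_le_mul_of_nonneg_left hv (by positivity)
      linarith
    have k3 : y ≤ 2 := by nlinarith
    have kc : |c| ≤ 2 / y0 := by
      rw [le_div_iff₀ hy0]
      have h5 : |c| * y0 ≤ c ^ 2 * y := by
        rw [← sq_abs c]
        have h6 : |c| ≤ |c| ^ 2 := by nlinarith
        exact mul_le_mul h6 hy hy0.le (by positivity)
      linarith
    have kd1 : |c * x + d| ≤ 2 := by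
      have h4 : v * (c * x + d) ^ 2 ≤ y := by
        have := mul_nonneg hvpos.le (sq_nonneg (c * y))
        linarith
      have h5 : (c * x + d) ^ 2 ≤ 2 ^ 2 := by nlinarith [sq_nonneg (c * x + d)]
      exact abs_le_of_sq_le_sq h5 (by norm_num)
    have kcx : |c * x| ≤ 2 * R / y0 := by
      rw [abs_mul]
      calc |c| * |x| ≤ 2 / y0 * R := mul_le_mul kc hx (abs_nonneg _) (by positivity)
        _ = 2 * R / y0 := by ring
    have kd : |d| ≤ 2 + 2 * R / y0 := by
      have h4 : d = (c * x + d) - c * x := by ring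
      rw [h4]
      exact (abs_sub _ _).trans (add_le_add kd1 kcx)
    have kv : v ≤ 1 / y0 := by
      rw [le_div_iff₀ hy0]
      have h4 : v * y0 ≤ c ^ 2 * y * v := by
        have h5 : y0 ≤ c ^ 2 * y := by nlinarith
        nlinarith
      linarith
    have ka1 : |a - c * u| ≤ 1 / y0 := by
      have h4 : y * (a - c * u) ^ 2 ≤ v := by
        have := mul_nonneg hypos.le (sq_nonneg (c * v))
        linarith
      have h5 : y0 * (a - c * u) ^ 2 ≤ 1 / y0 := by
        have := mul_le_mul_of_nonneg_right hy (sq_nonneg (a - c * u))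
        linarith
      have h6 : (a - c * u) ^ 2 ≤ (1 / y0) ^ 2 := by
        rw [mul_comm, ← le_div_iff₀ hy0] at h5
        calc (a - c * u) ^ 2 ≤ 1 / y0 / y0 := h5
          _ = (1 / y0) ^ 2 := by field_simp
      exact abs_le_of_sq_le_sq h6 (by positivity)
    have ka : |a| ≤ 2 / y0 := by
      have h4 : a = (a - c * u) + c * u := by ring
      have h5 : |c * u| ≤ 1 / y0 := by
        rw [abs_mul]
        calc |c| * |u| ≤ 2 / y0 * (1 / 2) := mul_le_mul kc hu (abs_nonneg _) (by positivity)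
          _ = 1 / y0 := by ring
      rw [h4]
      calc |(a - c * u) + c * u| ≤ |a - c * u| + |c * u| := abs_add_le _ _
        _ ≤ 1 / y0 + 1 / y0 := add_le_add ka1 h5
        _ = 2 / y0 := by ring
    have kb1 : |v * (c * y)| ≤ 1 := by
      rw [abs_mul, abs_mul, abs_of_pos hvpos, abs_of_pos hypos]
      have h4 : v * (|c| * y) ≤ c ^ 2 * y * v := by
        rw [← sq_abs c]
        have h6 : |c| ≤ |c| ^ 2 := by nlinarith
        have h7 : |c| * y ≤ |c| ^ 2 * y := mul_le_mul_of_nonneg_right h6 hypos.le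
        have h8 := mul_le_mul_of_nonneg_left h7 hvpos.le
        linarith
      linarith
    have kb : |b| ≤ 2 + 2 * R / y0 := by
      have h4 : b = u * (c * x + d) - v * (c * y) - a * x := by linarith
      have h5 : |u * (c * x + d)| ≤ 1 := by
        rw [abs_mul]
        calc |u| * |c * x + d| ≤ 1 / 2 * 2 := mul_le_mul hu kd1 (abs_nonneg _) (by norm_num)
          _ = 1 := by norm_num
      have h6 : |a * x| ≤ 2 * R / y0 := by
        rw [abs_mul]
        calc |a| * |x| ≤ 2 / y0 * R := mul_le_mul ka hx (abs_nonneg _) (by positivity)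
          _ = 2 * R / y0 := by ring
      rw [h4]
      calc |u * (c * x + d) - v * (c * y) - a * x|
          ≤ |u * (c * x + d) - v * (c * y)| + |a * x| := abs_sub _ _
        _ ≤ (|u * (c * x + d)| + |v * (c * y)|) + |a * x| := by
            have := abs_sub (u * (c * x + d)) (v * (c * y))
            linarith
        _ ≤ 2 + 2 * R / y0 := by linarith
    exact ⟨by linarith, by linarith, by linarith, by linarith⟩

/-- the entries of the elements which move a point of a strip to the fundamental domain -/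
lemma entries (R y0 : ℝ) (hR : 0 ≤ R) (hy0 : 0 < y0) (γ : SL(2, ℤ)) (z : ℍ) (hx : |z.re| ≤ R)
    (hy : y0 ≤ z.im) (hγ : γ • z ∈ ModularGroup.fd) (i j : Fin 2) :
    |((γ i j : ℤ) : ℝ)| ≤ 2 / y0 + 2 * R / y0 + R + 3 := by
  have hdet : (γ 0 0 : ℤ) * γ 1 1 - γ 0 1 * γ 1 0 = 1 := by
    have := γ.det_coe
    rw [Matrix.det_fin_two] at this
    exact this
  have hdetR : ((γ 0 0 : ℤ) : ℝ) * (γ 1 1 : ℤ) - (γ 0 1 : ℤ) * (γ 1 0 : ℤ) = 1 := by
    exact_mod_cast hdet
  have hv := ModularGroup.three_le_four_mul_im_sq_of_mem_fd hγ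
  have hvpos := (γ • z).im_pos
  have hv2 : 1 / 2 ≤ (γ • z).im := by nlinarith
  have hu : |(γ • z).re| ≤ 1 / 2 := hγ.2
  have hc : ((γ 1 0 : ℤ) : ℝ) = 0 ∧ |((γ 0 0 : ℤ) : ℝ)| ≤ 1 ∧ |((γ 1 1 : ℤ) : ℝ)| ≤ 1 ∨
      1 ≤ |((γ 1 0 : ℤ) : ℝ)| := by
    by_cases h : γ 1 0 = 0
    · left
      rw [h, mul_zero, sub_zero] at hdet
      rcases Int.mul_eq_one_iff_eq_one_or_neg_one.mp hdet with ⟨h5, h6⟩ | ⟨h5, h6⟩
      · rw [h, h5, h6]
        norm_num
      · rw [h, h5, h6]
        norm_num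
    · right
      have : 1 ≤ |γ 1 0| := Int.one_le_abs h
      exact_mod_cast this
  -- the imaginary part of the image
  have hden : Complex.normSq (((γ 1 0 : ℤ) : ℂ) * z + ((γ 1 1 : ℤ) : ℂ)) =
      (((γ 1 0 : ℤ) : ℝ) * z.re + (γ 1 1 : ℤ)) ^ 2 + (((γ 1 0 : ℤ) : ℝ) * z.im) ^ 2 := by
    rw [Complex.normSq_apply]
    simp
    ring
  have hdne : (((γ 1 0 : ℤ) : ℂ) * z + ((γ 1 1 : ℤ) : ℂ)) ≠ 0 := by
    have := UpperHalfPlane.denom_ne_zero (γ : GL (Fin 2) ℝ) z
    rwa [ModularGroup.denom_apply] at this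
  have h1 : (γ • z).im * ((((γ 1 0 : ℤ) : ℝ) * z.re + (γ 1 1 : ℤ)) ^ 2 +
      (((γ 1 0 : ℤ) : ℝ) * z.im) ^ 2) = z.im := by
    have e := ModularGroup.im_smul_eq_div_normSq γ z
    rw [ModularGroup.denom_apply] at e
    rw [← hden, e, div_mul_cancel₀]
    exact (Complex.normSq_pos.mpr hdne).ne'
  -- the same for the inverse
  have hinv : (γ⁻¹ : SL(2, ℤ)) • (γ • z) = z := inv_smul_smul γ z
  have hi10 : (γ⁻¹ : SL(2, ℤ)) 1 0 = -γ 1 0 := by
    rw [Matrix.SpecialLinearGroup.SL2_inv_expl]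
    rfl
  have hi11 : (γ⁻¹ : SL(2, ℤ)) 1 1 = γ 0 0 := by
    rw [Matrix.SpecialLinearGroup.SL2_inv_expl]
    rfl
  have h2 : z.im * ((((γ 0 0 : ℤ) : ℝ) - (γ 1 0 : ℤ) * (γ • z).re) ^ 2 +
      (((γ 1 0 : ℤ) : ℝ) * (γ • z).im) ^ 2) = (γ • z).im := by
    have e := ModularGroup.im_smul_eq_div_normSq γ⁻¹ (γ • z)
    have hd := UpperHalfPlane.denom_ne_zero ((γ⁻¹ : SL(2, ℤ)) : GL (Fin 2) ℝ) (γ • z)
    rw [ModularGroup.denom_apply, hi10, hi11] at e hd
    rw [hinv] at e
    have hden2 : Complex.normSq (((-γ 1 0 : ℤ) : ℂ) * (γ • z : ℍ) + ((γ 0 0 : ℤ) : ℂ)) =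
        (((γ 0 0 : ℤ) : ℝ) - (γ 1 0 : ℤ) * (γ • z).re) ^ 2 +
          (((γ 1 0 : ℤ) : ℝ) * (γ • z).im) ^ 2 := by
      rw [Complex.normSq_apply]
      simp
      ring
    rw [← hden2, e, div_mul_cancel₀]
    exact (Complex.normSq_pos.mpr hd).ne'
  -- the real part
  have h3 : (γ • z).re * (((γ 1 0 : ℤ) : ℝ) * z.re + (γ 1 1 : ℤ)) -
      (γ • z).im * (((γ 1 0 : ℤ) : ℝ) * z.im) = ((γ 0 0 : ℤ) : ℝ) * z.re + (γ 0 1 : ℤ) := by
    have e := UpperHalfPlane.coe_specialLinearGroup_apply γ z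
    have e2 : ((γ • z : ℍ) : ℂ) * (((γ 1 0 : ℤ) : ℂ) * z + ((γ 1 1 : ℤ) : ℂ)) =
        ((γ 0 0 : ℤ) : ℂ) * z + ((γ 0 1 : ℤ) : ℂ) := by
      rw [e]
      simp only [algebraMap_int_eq, Int.coe_castRingHom, Complex.ofReal_intCast]
      rw [div_mul_cancel₀ _ hdne]
    have e3 := congrArg Complex.re e2
    simp only [Complex.mul_re, Complex.add_re, Complex.intCast_re, Complex.intCast_im,
      Complex.add_im, Complex.mul_im, UpperHalfPlane.coe_re, UpperHalfPlane.coe_im] at e3
    linarith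
  obtain ⟨ka, kb, kc, kd⟩ := real_bound hR hy0 hx hy hu hv2 hdetR hc h1 h2 h3
  fin_cases i <;> fin_cases j
  · exact ka
  · exact kb
  · exact kc
  · exact kd

/-- finitely many translates of the fundamental domain cover a half strip -/
lemma cover (R y0 : ℝ) (hR : 0 ≤ R) (hy0 : 0 < y0) : ∃ s : Finset SL(2, ℤ),
    ∀ z : ℍ, |z.re| ≤ R → y0 ≤ z.im → ∃ γ ∈ s, γ • z ∈ ModularGroup.fd := by
  obtain ⟨B, hB⟩ := exists_int_gt (2 / y0 + 2 * R / y0 + R + 3)
  refine ⟨(finite_bdd B).toFinset, fun z h1 h2 => ?_⟩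
  obtain ⟨γ, hγ⟩ := ModularGroup.exists_smul_mem_fd z
  refine ⟨γ, ?_, hγ⟩
  rw [Set.Finite.mem_toFinset]
  intro i j
  have h3 := (entries R y0 hR hy0 γ z h1 h2 hγ i j).trans_lt hB
  have h4 : |γ i j| < B := by exact_mod_cast h3
  exact h4.le

/-- the boundary of the fundamental domain is a null set -/
lemma null : volume (ModularGroup.fd \ ModularGroup.fdo : Set ℍ) = 0 := by
  have hac : (volume : Measure ℍ) ≪ (volume : Measure ℂ).comap UpperHalfPlane.coe := by
    rw [UpperHalfPlane.volume_def]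
    exact withDensity_absolutelyContinuous _ _
  apply hac
  rw [UpperHalfPlane.measurableEmbedding_coe.comap_apply]
  have h1 : (volume : Measure ℂ) (Metric.sphere 0 1) = 0 := Measure.addHaar_sphere _ _ _
  have h2 : (volume : Measure ℂ) {z : ℂ | z.re = 1 / 2} = 0 := by
    have h3 : Convex ℝ {z : ℂ | z.re ≤ 1 / 2} := convex_halfSpace_re_le _
    have h4 := h3.addHaar_frontier (volume : Measure ℂ)
    rwa [Complex.frontier_setOfPred_re_le] at h4
  have h5 : (volume : Measure ℂ) {z : ℂ | z.re = -(1 / 2)} = 0 := by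
    have h3 : Convex ℝ {z : ℂ | z.re ≤ -(1 / 2)} := convex_halfSpace_re_le _
    have h4 := h3.addHaar_frontier (volume : Measure ℂ)
    rwa [Complex.frontier_setOfPred_re_le] at h4
  refine measure_mono_null ?_ (measure_union_null h1 (measure_union_null h2 h5))
  rintro _ ⟨z, hz, rfl⟩
  by_cases h6 : 1 < Complex.normSq (z : ℂ)
  · right
    have h7 : ¬ |z.re| < 1 / 2 := fun h => hz.2 ⟨h6, h⟩
    have h8 : |z.re| = 1 / 2 := le_antisymm hz.1.2 (not_lt.mp h7)
    rcases (abs_eq (by norm_num)).mp h8 with h9 | h9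
    · left
      exact h9
    · right
      exact h9
  · left
    have h7 : Complex.normSq (z : ℂ) = 1 := le_antisymm (not_lt.mp h6) hz.1.1
    rw [mem_sphere_zero_iff_norm]
    rw [Complex.normSq_eq_norm_sq] at h7
    have h8 := norm_nonneg (z : ℂ)
    nlinarith

/-- integrals over the closed and the open fundamental domain -/
lemma lint_fd (F : ℍ → ℝ≥0∞) :
    ∫⁻ z in ModularGroup.fd, F z = ∫⁻ z in ModularGroup.fdo, F z := by
  apply setLIntegral_congr
  rw [ae_eq_set]
  refine ⟨null, ?_⟩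
  rw [Set.sdiff_eq_empty.mpr ModularGroup.fdo_subset_fd]
  exact measure_empty

/-- the bound from a finite covering -/
lemma lint_le {F : ℍ → ℝ≥0∞} (hF : Measurable F) (hinv : ∀ (γ : SL(2, ℤ)) (z : ℍ), F (γ • z) = F z)
    (s : Finset SL(2, ℤ)) {S : Set ℍ} (hSm : MeasurableSet S)
    (hS : ∀ z ∈ S, ∃ γ ∈ s, γ • z ∈ ModularGroup.fd) :
    ∫⁻ z in S, F z ≤ s.card * ∫⁻ z in ModularGroup.fd, F z := by
  have hfdm : MeasurableSet (ModularGroup.fd : Set ℍ) := ModularGroup.isClosed_fd.measurableSet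
  have hGm : Measurable (ModularGroup.fd.indicator F) := hF.indicator hfdm
  have h1 : ∀ γ : SL(2, ℤ), ∫⁻ z : ℍ, ModularGroup.fd.indicator F (γ • z) =
      ∫⁻ z in ModularGroup.fd, F z := by
    intro γ
    have h2 := (measurePreserving_smul (γ : GL (Fin 2) ℝ) (volume : Measure ℍ)).lintegral_comp hGm
    rw [lintegral_indicator hfdm] at h2
    exact h2
  have h3 : ∀ γ : SL(2, ℤ), Measurable (fun z : ℍ => ModularGroup.fd.indicator F (γ • z)) := by
    intro γ
    exact hGm.comp (measurePreserving_smul (γ : GL (Fin 2) ℝ) (volume : Measure ℍ)).measurable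
  calc ∫⁻ z in S, F z ≤ ∫⁻ z in S, ∑ γ ∈ s, ModularGroup.fd.indicator F (γ • z) := by
        refine setLIntegral_mono' hSm fun z hz => ?_
        obtain ⟨γ, hγ, hz2⟩ := hS z hz
        have h4 : ModularGroup.fd.indicator F (γ • z) = F z := by
          rw [indicator_of_mem hz2, hinv]
        rw [← h4]
        exact Finset.single_le_sum (f := fun γ : SL(2, ℤ) => ModularGroup.fd.indicator F (γ • z))
          (fun _ _ => zero_le) hγ
    _ ≤ ∫⁻ z : ℍ, ∑ γ ∈ s, ModularGroup.fd.indicator F (γ • z) := setLIntegral_le_lintegral _ _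
    _ = ∑ γ ∈ s, ∫⁻ z : ℍ, ModularGroup.fd.indicator F (γ • z) :=
        lintegral_finsetSum _ fun γ _ => h3 γ
    _ = s.card * ∫⁻ z in ModularGroup.fd, F z := by
        rw [Finset.sum_congr rfl fun γ _ => h1 γ, Finset.sum_const, nsmul_eq_mul]

lemma cont {f : ℍ → ℝ} {t : ℝ} (hf : IsHeckeMaass f t) : Continuous f :=
  X.continuous_of_ext hf.smooth

lemma lint_fdo {f : ℍ → ℝ} {t : ℝ} (hf : IsHeckeMaass f t) :
    ∫⁻ z in ModularGroup.fdo, ENNReal.ofReal (f z ^ 2) = ENNReal.ofReal (Real.pi / 3) := by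
  have hint : IntegrableOn (fun z : ℍ => f z ^ 2) ModularGroup.fdo := by
    by_contra hn
    have h2 := hf.normalised
    rw [integral_undef hn] at h2
    have h3 : 0 < Real.pi / 3 := by positivity
    rw [← h2] at h3
    exact lt_irrefl _ h3
  rw [← hf.normalised]
  exact (ofReal_integral_eq_lintegral_ofReal hint
    (Eventually.of_forall fun z => sq_nonneg _)).symm

/-- the uniform bound on half strips -/
lemma strip (R y0 : ℝ) (hR : 0 ≤ R) (hy0 : 0 < y0) : ∃ C : ℝ, 0 ≤ C ∧ ∀ (f : ℍ → ℝ) (t : ℝ),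
    IsHeckeMaass f t → ∫⁻ z in {z : ℍ | |z.re| ≤ R ∧ y0 ≤ z.im}, ENNReal.ofReal (f z ^ 2) ≤
      ENNReal.ofReal C := by
  obtain ⟨s, hs⟩ := cover R y0 hR hy0
  refine ⟨s.card * (Real.pi / 3), by positivity, fun f t hf => ?_⟩
  have hSm : MeasurableSet {z : ℍ | |z.re| ≤ R ∧ y0 ≤ z.im} := by
    have h1 : IsClosed {z : ℍ | |z.re| ≤ R ∧ y0 ≤ z.im} :=
      (isClosed_le (continuous_abs.comp UpperHalfPlane.continuous_re) continuous_const).inter
        (isClosed_le continuous_const UpperHalfPlane.continuous_im)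
    exact h1.measurableSet
  have h1 := lint_le (F := fun z => ENNReal.ofReal (f z ^ 2))
    (((cont hf).pow 2).measurable.ennreal_ofReal) (fun γ z => by rw [hf.invariant γ z]) s hSm
    (fun z hz => hs z hz.1 hz.2)
  refine h1.trans (le_of_eq ?_)
  rw [lint_fd, lint_fdo hf, ENNReal.ofReal_mul (by positivity), ENNReal.ofReal_natCast]

lemma compact_bound {K : Set ℍ} (hK : IsCompact K) : ∃ C : ℝ, ∀ (f : ℍ → ℝ) (t : ℝ),
    IsHeckeMaass f t → ∫ z in K, f z ^ 2 ≤ C := by
  obtain ⟨R, hR⟩ := hK.exists_bound_of_continuousOn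
    (UpperHalfPlane.continuous_re.continuousOn (s := K))
  obtain ⟨M, hM⟩ := hK.exists_bound_of_continuousOn (f := fun z : ℍ => (z.im)⁻¹)
    ((UpperHalfPlane.continuous_im.inv₀ fun z => z.im_ne_zero).continuousOn)
  obtain ⟨C, hC0, hC⟩ := strip (max R 0) (1 / (max M 0 + 1)) (le_max_right _ _) (by
    have : 0 ≤ max M 0 := le_max_right _ _
    positivity)
  refine ⟨C, fun f t hf => ?_⟩
  have hKm : MeasurableSet K := hK.isClosed.measurableSet
  have hsub : K ⊆ {z : ℍ | |z.re| ≤ max R 0 ∧ 1 / (max M 0 + 1) ≤ z.im} := by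
    intro z hz
    refine ⟨?_, ?_⟩
    · have := hR z hz
      rw [Real.norm_eq_abs] at this
      exact this.trans (le_max_left _ _)
    · have h1 := hM z hz
      have h2 := z.im_pos
      rw [norm_inv, Real.norm_eq_abs, abs_of_pos h2] at h1
      have h3 : 0 ≤ max M 0 := le_max_right _ _
      have h4 : (z.im)⁻¹ ≤ max M 0 + 1 := by
        have := le_max_left M 0
        linarith
      rw [one_div]
      exact inv_le_of_inv_le₀ h2 h4
  have hint : IntegrableOn (fun z : ℍ => f z ^ 2) K :=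
    ((cont hf).pow 2).continuousOn.integrableOn_compact hK
  have h1 : ENNReal.ofReal (∫ z in K, f z ^ 2) ≤ ENNReal.ofReal C := by
    rw [ofReal_integral_eq_lintegral_ofReal hint (Eventually.of_forall fun z => sq_nonneg _)]
    exact (lintegral_mono_set hsub).trans (hC f t hf)
  exact (ENNReal.ofReal_le_ofReal_iff hC0).mp h1

end LBM

theorem stmtLB (hI : StmtInt) : StmtLB := by
  refine ⟨fun K hK => LBM.compact_bound hK, ?_, ?_⟩
  · obtain ⟨C, _, hC⟩ := LBM.strip 1 (1 / 2) (by norm_num) (by norm_num)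
    refine ⟨C, fun f t hf => le_trans (lintegral_mono_set ?_) (hC f t hf)⟩
    intro z hz
    exact ⟨hz.1.le, hz.2.le⟩
  · intro χ V hχ hV hVH h1 f t hf ζ hζ
    have hwc : Continuous (fun z : ℂ => ζ z ^ 2 * z.im ^ 2) :=
      (hζ.smooth.continuous.pow 2).mul (Complex.continuous_im.pow 2)
    have hws : HasCompactSupport (fun z : ℂ => ζ z ^ 2 * z.im ^ 2) := by
      have h4 : HasCompactSupport (fun z : ℂ => ζ z ^ 2) := by
        have := hζ.cpt.comp_left (g := fun x : ℝ => x ^ 2) (by simp)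
        exact this
      exact h4.mul_right
    obtain ⟨M, hM⟩ := hws.exists_bound_of_continuous hwc
    have hM0 : 0 ≤ M := (norm_nonneg _).trans (hM 0)
    have hKc : IsCompact (UpperHalfPlane.coe ⁻¹' tsupport ζ) :=
      Half2.isCompact_pre hζ.cpt.isCompact (hζ.sub.trans hVH)
    obtain ⟨C, hC⟩ := LBM.compact_bound hKc
    have hKm : MeasurableSet (UpperHalfPlane.coe ⁻¹' tsupport ζ) := hKc.isClosed.measurableSet
    refine ⟨M * C, fun i => ?_⟩
    have hint : IntegrableOn (fun z : ℍ => f i z ^ 2) (UpperHalfPlane.coe ⁻¹' tsupport ζ) :=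
      ((LBM.cont (hf i)).pow 2).continuousOn.integrableOn_compact hKc
    have h0 : ∀ z : ℂ, z.im ≤ 0 → (ζ z ^ 2 * z.im ^ 2) * ext (f i) z ^ 2 = 0 := by
      intro z hz
      rw [hζ.eq_zero (fun h => (not_lt.mpr hz) (hVH h))]
      simp
    have e1 := hI.1 _ h0
    have e2 : ∫ z : ℂ, ζ z ^ 2 * ff χ (f i) z ^ 2 =
        ∫ z : ℂ, (ζ z ^ 2 * z.im ^ 2) * ext (f i) z ^ 2 / z.im ^ 2 := by
      apply integral_congr_ae
      refine Filter.Eventually.of_forall fun z => ?_
      by_cases hz : z ∈ V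
      · have hne : z.im ≠ 0 := ne_of_gt (hVH hz)
        simp only [ff, h1 z hz, one_mul]
        field_simp
      · simp [hζ.eq_zero hz]
    calc ∫ z : ℂ, ζ z ^ 2 * ff χ (f i) z ^ 2
        = ∫ z : ℍ, (ζ z ^ 2 * (z : ℂ).im ^ 2) * ext (f i) z ^ 2 := by rw [e2, e1]
      _ ≤ ∫ z : ℍ, (UpperHalfPlane.coe ⁻¹' tsupport ζ).indicator (fun z => M * f i z ^ 2) z := by
          apply integral_mono_of_nonneg
          · refine Filter.Eventually.of_forall fun z => ?_
            simp only [Pi.zero_apply]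
            positivity
          · rw [integrable_indicator_iff hKm]
            exact hint.const_mul M
          · refine Filter.Eventually.of_forall fun z => ?_
            simp only [Half.ext_coe]
            by_cases hz : z ∈ (UpperHalfPlane.coe ⁻¹' tsupport ζ)
            · rw [Set.indicator_of_mem hz]
              have hb := hM (z : ℂ)
              have hb' : ζ z ^ 2 * (z : ℂ).im ^ 2 ≤ M := (Real.le_norm_self _).trans hb
              exact mul_le_mul_of_nonneg_right hb' (by positivity)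
            · rw [Set.indicator_of_notMem hz]
              have h5 : ζ (z : ℂ) = 0 := image_eq_zero_of_notMem_tsupport hz
              rw [h5]
              simp
      _ = M * ∫ z in (UpperHalfPlane.coe ⁻¹' tsupport ζ), f i z ^ 2 := by
          rw [integral_indicator hKm, integral_const_mul]
      _ ≤ M * C := mul_le_mul_of_nonneg_left (hC (f i) (t i) (hf i)) hM0

end

end Pool.Agent.A54.Dyn
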