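import Pool.Agent.Lib.MP_a54f13_nt.Dyn.Spec3

/-!
From the flat setting to the half-plane, without ergodicity.
-/

set_option autoImplicit false

namespace Pool.Agent.A54.Dyn

open MeasureTheory Filter Topology Set
open scoped ComplexConjugate UpperHalfPlane MatrixGroups ENNReal ContDiff
open Pool.Agent.A54.Half (H0 qq ff hh)

noncomputable section

namespace Half3M

/-- the absence of atoms, for all subsequences -/
lemma naloc (hNA : StmtNAf) {f : ℕ → ℍ → ℝ} {t : ℕ → ℝ} (hm : HM f t) {χ : ℂ → ℝ}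
    (hχ : TestR H0 χ) {V : Set ℂ} (hVH : V ⊆ H0) (h1 : ∀ z ∈ V, χ z = 1) (N : ℕ) :
    NAloc V (qq χ) (fun i => hh (t (i + N))) (fun i => ff χ (f (i + N))) := by
  intro V' τ r hV' hτ hS w hw hw0
  have hm' : HM (fun i => f (τ i + N)) (fun i => t (τ i + N)) := by
    refine ⟨fun i => hm.form (τ i + N), ?_⟩
    exact hm.lim.comp ((tendsto_add_atTop_nat N).comp hτ.tendsto_atTop)
  exact hNA _ _ hm' χ V' hχ (hV'.trans hVH) (fun z hz => h1 z (hV' hz)) r hS w hw hw0

end Half3M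

theorem stmtHalf3 (hI : StmtInt) (hL : StmtLap) : StmtHalf3 := by
  intro hR hC hNA f t hm
  obtain ⟨N, hN⟩ := Half.exists_N hm.lim
  constructor
  · intro φ hφ hφ0 ε hε
    obtain ⟨χ, V, hχ, h01, hV, hVO, h1, hsub⟩ := Half2.setupU Half2.isOpen_Ofd Half2.Ofd_sub hφ
    have hVH : V ⊆ H0 := hVO.trans Half2.Ofd_sub
    have hφV : TestR V φ := ⟨hφ.smooth, hφ.cpt, hsub⟩
    have hS := Half2.seq hL hχ h01 hV hVH h1 hm.form hm.lim hN
    have hb : L2Bdd V (fun i => ff χ (f (i + N))) :=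
      Half2.l2 hI hVO h1 (fun i => hm.form (i + N))
    have h := hR V _ _ _ hS hb (Half3M.naloc hNA hm hχ hVH h1 N) (fun z => φ z * (z.im)⁻¹ ^ 2)
      (Half.testR_weight hVH hφV) (fun z => mul_nonneg (hφ0 z) (sq_nonneg _)) ε hε
    refine Half.ev_shift N ?_
    filter_upwards [h] with i hi
    rw [Half.int_eq_one hI hVH hφV, Half.int_eq hI hVH h1 hφV, Half.int_eq hI hVH h1 hφV]
    exact hi
  · intro hK φ hφ
    obtain ⟨χ, V, hχ, h01, hV, hVH, h1, hsub⟩ := Half.setup hφ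
    have hφV : TestR V φ := ⟨hφ.smooth, hφ.cpt, hsub⟩
    have hS := Half2.seq hL hχ h01 hV hVH h1 hm.form hm.lim hN
    have hb : L4Bdd V (fun i => ff χ (f (i + N))) :=
      Half.l4 hI hVH h1 (fun i => hm.form (i + N)) (fun K hKc => by
        obtain ⟨C, hC'⟩ := hK K hKc
        exact ⟨C, fun i => hC' (i + N)⟩)
    have h := hC V _ _ _ hS hb (Half3M.naloc hNA hm hχ hVH h1 N) (fun z => φ z * (z.im)⁻¹ ^ 2)
      (Half.testR_weight hVH hφV)
    rw [← tendsto_add_atTop_iff_nat N]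
    refine h.congr fun i => ?_
    rw [Half.int_eq hI hVH h1 hφV]

end

end Pool.Agent.A54.Dyn
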