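import Pool.Agent.Lib.MP_a54f13_nt.Dyn.Spec

/-!
Volumes of balls and of boxes in the upper half-plane.
-/

set_option autoImplicit false

namespace Pool.Agent.A54.Dyn.VolM

open MeasureTheory Filter Topology Set
open scoped ComplexConjugate UpperHalfPlane MatrixGroups ENNReal NNReal

noncomputable section

lemma weight_eq (y : ℝ) : (((1 / ‖y‖₊) ^ 2 : ℝ≥0) : ℝ≥0∞) = ENNReal.ofReal (1 / y ^ 2) := by
  have h : ((1 / ‖y‖₊) ^ 2 : ℝ≥0) = Real.toNNReal (1 / y ^ 2) := by
    apply NNReal.coe_injective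
    rw [Real.coe_toNNReal _ (by positivity)]
    push_cast
    rw [div_pow, one_pow]
    simp
  rw [h]
  rfl

lemma vol_ball (z : ℍ) (r : ℝ) : volume (Metric.closedBall z r) =
    ∫⁻ w : ℂ in Metric.closedBall (z.center r : ℂ) (z.im * Real.sinh r),
      ENNReal.ofReal (1 / w.im ^ 2) := by
  rw [UpperHalfPlane.volume_eq_lintegral, UpperHalfPlane.image_coe_closedBall]
  simp_rw [weight_eq]

lemma ball_im {z : ℍ} {r : ℝ} {w : ℂ}
    (hw : w ∈ Metric.closedBall (z.center r : ℂ) (z.im * Real.sinh r)) :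
    z.im * Real.exp (-r) ≤ w.im ∧ w.im ≤ z.im * Real.exp r := by
  rw [← UpperHalfPlane.image_coe_closedBall] at hw
  obtain ⟨v, hv, rfl⟩ := hw
  rw [Metric.mem_closedBall] at hv
  have hz := z.im_pos
  have hvp := v.im_pos
  refine ⟨?_, ?_⟩
  · have h1 := UpperHalfPlane.im_le_im_mul_exp_dist z v
    rw [dist_comm] at h1
    rw [UpperHalfPlane.coe_im]
    have h2 : v.im * Real.exp (dist v z) ≤ v.im * Real.exp r :=
      mul_le_mul_of_nonneg_left (Real.exp_le_exp.mpr hv) hvp.le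
    have h3 : z.im ≤ v.im * Real.exp r := h1.trans h2
    calc z.im * Real.exp (-r) ≤ v.im * Real.exp r * Real.exp (-r) :=
          mul_le_mul_of_nonneg_right h3 (Real.exp_pos _).le
      _ = v.im := by rw [mul_assoc, ← Real.exp_add]; simp
  · have h1 := UpperHalfPlane.im_le_im_mul_exp_dist v z
    rw [UpperHalfPlane.coe_im]
    exact h1.trans (mul_le_mul_of_nonneg_left (Real.exp_le_exp.mpr hv) hz.le)

lemma sinh_le {r : ℝ} (h0 : 0 < r) (h1 : r ≤ 1) : Real.sinh r ≤ 3 / 2 * r := by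
  have e1 := Real.abs_exp_sub_one_sub_id_le (x := r) (by rw [abs_of_pos h0]; exact h1)
  have e2 := Real.add_one_le_exp (-r)
  have e3 := (abs_le.mp e1).2
  rw [Real.sinh_eq]
  nlinarith

lemma exp_two_le : Real.exp 2 ≤ 8 := by
  have h := Real.exp_one_lt_d9
  have h2 : Real.exp 2 = Real.exp 1 * Real.exp 1 := by rw [← Real.exp_add]; norm_num
  rw [h2]
  have h0 := Real.exp_pos 1
  nlinarith

lemma up (z : ℍ) {r : ℝ} (h0 : 0 < r) (h1 : r ≤ 1) :
    volume (Metric.closedBall z r) ≤ ENNReal.ofReal (100 * r ^ 2) := by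
  have hz := z.im_pos
  have hs : 0 < Real.sinh r := Real.sinh_pos_iff.mpr h0
  rw [vol_ball]
  have hle : ∫⁻ w : ℂ in Metric.closedBall (z.center r : ℂ) (z.im * Real.sinh r),
      ENNReal.ofReal (1 / w.im ^ 2) ≤
      ∫⁻ _w : ℂ in Metric.closedBall (z.center r : ℂ) (z.im * Real.sinh r),
      ENNReal.ofReal (1 / (z.im * Real.exp (-r)) ^ 2) := by
    apply setLIntegral_mono' Metric.isClosed_closedBall.measurableSet
    intro w hw
    apply ENNReal.ofReal_le_ofReal
    have := (ball_im hw).1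
    have hp : 0 < z.im * Real.exp (-r) := by positivity
    apply one_div_le_one_div_of_le (by positivity)
    exact pow_le_pow_left₀ hp.le this 2
  refine hle.trans ?_
  rw [setLIntegral_const, Complex.volume_closedBall, ← ENNReal.ofReal_pow (by positivity),
    show (NNReal.pi : ℝ≥0∞) = ENNReal.ofReal Real.pi by
      rw [← NNReal.coe_real_pi, ENNReal.ofReal_coe_nnreal],
    ← ENNReal.ofReal_mul (by positivity), ← ENNReal.ofReal_mul (by positivity)]
  apply ENNReal.ofReal_le_ofReal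
  have hpi := Real.pi_lt_d2
  have hsl := sinh_le h0 h1
  have he : Real.exp (-r) ^ 2 ≥ 1 / 8 := by
    rw [← Real.exp_nat_mul, ge_iff_le, one_div]
    have h2 : Real.exp ((2 : ℕ) * -r) = (Real.exp (2 * r))⁻¹ := by
      rw [← Real.exp_neg]; congr 1; push_cast; ring
    rw [h2]
    apply inv_anti₀ (Real.exp_pos _)
    exact (Real.exp_le_exp.mpr (by linarith)).trans exp_two_le
  have heq : 1 / (z.im * Real.exp (-r)) ^ 2 * ((z.im * Real.sinh r) ^ 2 * Real.pi) =
      Real.sinh r ^ 2 * Real.pi / (Real.exp (-r) ^ 2) := by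
    have := Real.exp_pos (-r)
    field_simp
  rw [heq, div_le_iff₀ (by positivity)]
  have hs2 : Real.sinh r ^ 2 ≤ 9 / 4 * r ^ 2 := by nlinarith
  have hr2 : 0 < r ^ 2 := by positivity
  calc Real.sinh r ^ 2 * Real.pi ≤ 9 / 4 * r ^ 2 * (4 : ℝ) := by
        apply mul_le_mul hs2 (by linarith) Real.pi_pos.le (by positivity)
    _ ≤ 100 * r ^ 2 * (1 / 8) := by nlinarith
    _ ≤ 100 * r ^ 2 * Real.exp (-r) ^ 2 := by
        apply mul_le_mul_of_nonneg_left he (by positivity)

lemma low (z : ℍ) {r : ℝ} (h0 : 0 < r) (h1 : r ≤ 1) :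
    ENNReal.ofReal (r ^ 2 / 100) ≤ volume (Metric.closedBall z r) := by
  have hz := z.im_pos
  have hs : 0 < Real.sinh r := Real.sinh_pos_iff.mpr h0
  rw [vol_ball]
  have hle : ∫⁻ _w : ℂ in Metric.closedBall (z.center r : ℂ) (z.im * Real.sinh r),
      ENNReal.ofReal (1 / (z.im * Real.exp r) ^ 2) ≤
      ∫⁻ w : ℂ in Metric.closedBall (z.center r : ℂ) (z.im * Real.sinh r),
      ENNReal.ofReal (1 / w.im ^ 2) := by
    apply setLIntegral_mono' Metric.isClosed_closedBall.measurableSet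
    intro w hw
    apply ENNReal.ofReal_le_ofReal
    have h2 := ball_im hw
    have hp : 0 < z.im * Real.exp (-r) := by positivity
    have hw0 : 0 < w.im := hp.trans_le h2.1
    apply one_div_le_one_div_of_le (by positivity)
    exact pow_le_pow_left₀ hw0.le h2.2 2
  refine le_trans ?_ hle
  rw [setLIntegral_const, Complex.volume_closedBall, ← ENNReal.ofReal_pow (by positivity),
    show (NNReal.pi : ℝ≥0∞) = ENNReal.ofReal Real.pi by
      rw [← NNReal.coe_real_pi, ENNReal.ofReal_coe_nnreal],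
    ← ENNReal.ofReal_mul (by positivity), ← ENNReal.ofReal_mul (by positivity)]
  apply ENNReal.ofReal_le_ofReal
  have hpi := Real.pi_gt_three
  have hsl : r ≤ Real.sinh r := Real.self_le_sinh_iff.mpr h0.le
  have he : Real.exp r ^ 2 ≤ 8 := by
    rw [← Real.exp_nat_mul]
    exact (Real.exp_le_exp.mpr (by push_cast; linarith)).trans exp_two_le
  have heq : 1 / (z.im * Real.exp r) ^ 2 * ((z.im * Real.sinh r) ^ 2 * Real.pi) =
      Real.sinh r ^ 2 * Real.pi / (Real.exp r ^ 2) := by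
    have := Real.exp_pos r
    field_simp
  have hs2 : r ^ 2 ≤ Real.sinh r ^ 2 := by nlinarith
  have hr2 : 0 < r ^ 2 := by positivity
  rw [heq, div_le_div_iff₀ (by norm_num) (by positivity)]
  calc r ^ 2 * Real.exp r ^ 2 ≤ r ^ 2 * 8 := mul_le_mul_of_nonneg_left he hr2.le
    _ ≤ r ^ 2 * 3 * 100 := by nlinarith
    _ ≤ Real.sinh r ^ 2 * Real.pi * 100 := by
        apply mul_le_mul_of_nonneg_right _ (by norm_num)
        exact mul_le_mul hs2 hpi.le (by norm_num) (by positivity)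

lemma int_inv_sq {c d : ℝ} (hc : 0 < c) (hcd : c ≤ d) :
    ∫⁻ y in Ico c d, ENNReal.ofReal (1 / y ^ 2) = ENNReal.ofReal (1 / c - 1 / d) := by
  have hd : 0 < d := hc.trans_le hcd
  have hcont : ContinuousOn (fun y : ℝ => 1 / y ^ 2) (Icc c d) := by
    apply ContinuousOn.div continuousOn_const (by fun_prop)
    intro y hy
    have : 0 < y := hc.trans_le hy.1
    positivity
  have hint : IntegrableOn (fun y : ℝ => 1 / y ^ 2) (Ico c d) :=
    (hcont.integrableOn_Icc).mono_set Ico_subset_Icc_self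
  rw [← ofReal_integral_eq_lintegral_ofReal hint (ae_of_all _ fun y => by positivity)]
  congr 1
  rw [integral_Ico_eq_integral_Ioc, ← intervalIntegral.integral_of_le hcd]
  have hderiv : ∀ x ∈ uIcc c d, HasDerivAt (fun y : ℝ => -(1 / y)) (1 / x ^ 2) x := by
    intro x hx
    rw [uIcc_of_le hcd] at hx
    have hx0 : x ≠ 0 := (hc.trans_le hx.1).ne'
    have h1 : HasDerivAt (fun y : ℝ => -(y⁻¹)) (-(-(x ^ 2)⁻¹)) x := (hasDerivAt_inv hx0).fun_neg
    have h2 : (fun y : ℝ => -(1 / y)) = fun y : ℝ => -(y⁻¹) := by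
      funext y
      rw [one_div]
    rw [h2, one_div]
    rwa [neg_neg] at h1
  rw [intervalIntegral.integral_eq_sub_of_hasDerivAt hderiv]
  · ring
  · rw [intervalIntegrable_iff_integrableOn_Ioc_of_le hcd]
    exact (hcont.integrableOn_Icc).mono_set Ioc_subset_Icc_self

lemma image_box (a b α β : ℝ) :
    ((↑) '' {z : ℍ | a ≤ z.re ∧ z.re < b ∧ α ≤ Real.log z.im ∧ Real.log z.im < β} : Set ℂ) =
      Complex.measurableEquivRealProd ⁻¹' (Ico a b ×ˢ Ico (Real.exp α) (Real.exp β)) := by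
  ext w
  constructor
  · rintro ⟨z, ⟨h1, h2, h3, h4⟩, rfl⟩
    refine ⟨⟨h1, h2⟩, ?_, ?_⟩
    · exact (Real.le_log_iff_exp_le z.im_pos).mp h3
    · exact (Real.log_lt_iff_lt_exp z.im_pos).mp h4
  · rintro ⟨⟨h1, h2⟩, h3, h4⟩
    have h1 : a ≤ w.re := h1
    have h2 : w.re < b := h2
    have h3 : Real.exp α ≤ w.im := h3
    have h4 : w.im < Real.exp β := h4
    have hw : 0 < w.im := (Real.exp_pos _).trans_le h3
    refine ⟨⟨w, hw⟩, ⟨h1, h2, ?_, ?_⟩, rfl⟩
    · exact (Real.le_log_iff_exp_le hw).mpr h3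
    · exact (Real.log_lt_iff_lt_exp hw).mpr h4

end

end Pool.Agent.A54.Dyn.VolM

namespace Pool.Agent.A54.Dyn

open MeasureTheory Filter Topology Set
open scoped ComplexConjugate UpperHalfPlane MatrixGroups ENNReal NNReal

theorem stmtBall : StmtBall :=
  ⟨100, by norm_num, fun z _r h0 h1 => ⟨VolM.up z h0 h1, VolM.low z h0 h1⟩⟩

theorem stmtVol : StmtVol := by
  intro a b α β hab hαβ
  rw [UpperHalfPlane.volume_eq_lintegral, VolM.image_box]
  simp_rw [VolM.weight_eq]
  have hpre := Complex.volume_preserving_equiv_real_prod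
  have key := hpre.setLIntegral_comp_preimage_emb
    Complex.measurableEquivRealProd.measurableEmbedding
    (fun p : ℝ × ℝ => ENNReal.ofReal (1 / p.2 ^ 2))
    (Ico a b ×ˢ Ico (Real.exp α) (Real.exp β))
  have e1 : (∫⁻ z : ℂ in Complex.measurableEquivRealProd ⁻¹'
      (Ico a b ×ˢ Ico (Real.exp α) (Real.exp β)), ENNReal.ofReal (1 / z.im ^ 2)) =
      ∫⁻ p in Ico a b ×ˢ Ico (Real.exp α) (Real.exp β), ENNReal.ofReal (1 / p.2 ^ 2) := key
  rw [e1, Measure.volume_eq_prod, setLIntegral_prod]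
  · simp only [VolM.int_inv_sq (Real.exp_pos α) (Real.exp_le_exp.mpr hαβ)]
    rw [setLIntegral_const, Real.volume_Ico, mul_comm, ← ENNReal.ofReal_mul (by linarith)]
    congr 1
    rw [Real.exp_neg, Real.exp_neg]
    ring
  · apply Measurable.aemeasurable
    fun_prop

end Pool.Agent.A54.Dyn
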