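import Pool.Agent.Lib.MP_a54f13_nt.Dyn.Spec1

/-!
Asymptotic relations between the products of the derivatives of Hecke–Maass forms.
-/

set_option autoImplicit false

namespace Pool.Agent.A54.Dyn

open MeasureTheory Filter Topology Set
open scoped ComplexConjugate UpperHalfPlane MatrixGroups ENNReal ContDiff
open Pool.Agent.A54.Half (H0 qq ff hh)

noncomputable section

namespace A1M

/-- everything needed around a complex valued test function -/
lemma setupC {φ : ℂ → ℂ} (hφ : Test H0 φ) : ∃ (χ : ℂ → ℝ) (V : Set ℂ), TestR H0 χ ∧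
    (∀ z, 0 ≤ χ z ∧ χ z ≤ 1) ∧ IsOpen V ∧ V ⊆ H0 ∧ (∀ z ∈ V, χ z = 1) ∧ Test V φ := by
  obtain ⟨χ, hχ, h01, hev⟩ := exists_cutoff hφ.cpt.isCompact Half.isOpen_H0 hφ.sub
  have hi : tsupport φ ⊆ interior {z | χ z = 1} := by
    intro z hz
    rw [mem_interior_iff_mem_nhds]
    exact (mem_nhdsSet_iff_forall.mp hev) z hz
  refine ⟨χ, interior {z | χ z = 1}, hχ, h01, isOpen_interior, ?_, ?_, ⟨hφ.smooth, hφ.cpt, hi⟩⟩
  · intro z hz
    have h1' : z ∈ {z | χ z = 1} := interior_subset hz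
    have h1 : χ z = 1 := h1'
    by_contra hz0
    rw [hχ.eq_zero hz0] at h1
    exact zero_ne_one h1
  · intro z hz
    have h1' : z ∈ {z | χ z = 1} := interior_subset hz
    exact h1'

/-- the extension of `sg` to the plane -/
def sgC (f : ℍ → ℝ) (t : ℝ) (n : ℕ) (z : ℂ) : ℂ :=
  ((Real.sqrt (1 / 4 + t ^ 2) : ℝ) : ℂ)⁻¹ ^ n *
    ((z.im : ℂ) ^ n * (dz^[n] (fun w => (ext f w : ℂ))) z)

lemma sg_eq (f : ℍ → ℝ) (t : ℝ) (n : ℕ) (z : ℍ) : sg f t n z = sgC f t n z := by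
  unfold sg sgC
  rw [UpperHalfPlane.coe_im]

/-- `sg` in terms of the localised forms -/
lemma sgC_eq {χ : ℂ → ℝ} (hχ : TestR H0 χ) {V : Set ℂ} (hV : IsOpen V)
    (h1 : ∀ z ∈ V, χ z = 1) {f : ℍ → ℝ} {t : ℝ} (hf : IsHeckeMaass f t) (n : ℕ) {z : ℂ}
    (hz : z ∈ V) : sgC f t n z = (z.im : ℂ) ^ n * gg (hh t) (ff χ f) n z := by
  have hs := Half.ff_smooth hχ hf.smooth
  have hc : ∀ w ∈ V, (ff χ f w : ℂ) = (ext f w : ℂ) := by
    intro w hw
    unfold ff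
    rw [h1 w hw, one_mul]
  rw [Half.gg_eq hs, Half.iter_congr hV hc n z hz]
  unfold sgC hh
  push_cast
  ring

lemma ss_neg_nat (q : ℂ → ℝ) (h : ℝ) (f : ℂ → ℝ) (j : ℕ) (z : ℂ) :
    ss q h f (-(j : ℤ)) z = (-1) ^ j * conj (gg h f j z) / (q z : ℂ) ^ j := by
  cases j with
  | zero =>
    change gg h f 0 z = _
    rw [gg_zero]
    simp
  | succ n => rfl

/-- the weight -/
def wt (φ : ℂ → ℂ) (k j : ℕ) (z : ℂ) : ℂ := φ z * (((z.im) ^ k * ((z.im)⁻¹) ^ (j + 2) : ℝ) : ℂ)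

lemma test_wt {V : Set ℂ} (hVH : V ⊆ H0) {φ : ℂ → ℂ} (hφ : Test V φ) (k j : ℕ) :
    Test V (wt φ k j) :=
  Half.test_mul Half.isOpen_H0 hφ (hφ.sub.trans hVH) (Half.contDiffOn_weightC k (j + 2))

lemma int_prod (hI : StmtInt) {χ : ℂ → ℝ} (hχ : TestR H0 χ) {V : Set ℂ} (hV : IsOpen V)
    (hVH : V ⊆ H0) (h1 : ∀ z ∈ V, χ z = 1) {f : ℍ → ℝ} {t : ℝ} (hf : IsHeckeMaass f t)
    {φ : ℂ → ℂ} (hφ : Test V φ) (k j : ℕ) :
    ∫ z : ℍ, φ z * (sg f t k z * conj (sg f t j z)) =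
      (-1) ^ j * ∫ z, wt φ k j z * (ss (qq χ) (hh t) (ff χ f) k z *
        ss (qq χ) (hh t) (ff χ f) (-(j : ℤ)) z) := by
  have h0 : ∀ z : ℂ, z.im ≤ 0 → φ z * (sgC f t k z * conj (sgC f t j z)) = 0 := by
    intro z hz
    rw [hφ.eq_zero (fun h => (not_lt.mpr hz) (hVH h)), zero_mul]
  have e1 := hI.2 _ h0
  have e2 : ∫ z : ℍ, φ z * (sg f t k z * conj (sg f t j z)) =
      ∫ z : ℍ, φ z * (sgC f t k z * conj (sgC f t j z)) := by
    apply integral_congr_ae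
    refine Filter.Eventually.of_forall fun z => ?_
    simp only [sg_eq]
  rw [e2, e1, ← integral_const_mul]
  apply integral_congr_ae
  refine Filter.Eventually.of_forall fun z => ?_
  by_cases hz : z ∈ V
  · have hzim : 0 < z.im := hVH hz
    have hne : (z.im : ℂ) ≠ 0 := by
      exact_mod_cast hzim.ne'
    have e7 : (qq χ z : ℂ) = ((z.im : ℂ)⁻¹) ^ 2 := by
      unfold qq
      rw [h1 z hz]
      push_cast
      ring
    have e8 : ss (qq χ) (hh t) (ff χ f) (k : ℤ) z = gg (hh t) (ff χ f) k z := rfl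
    simp only
    rw [sgC_eq hχ hV h1 hf k hz, sgC_eq hχ hV h1 hf j hz, ss_neg_nat, e7, e8, wt, map_mul,
      map_pow, Complex.conj_ofReal]
    push_cast
    have e9 : ((-1 : ℂ) ^ j) * (-1) ^ j = 1 := by
      rw [← mul_pow]
      norm_num
    have e10 : (((z.im : ℂ)⁻¹) ^ 2) ^ j = ((z.im : ℂ)⁻¹) ^ j * ((z.im : ℂ)⁻¹) ^ j := by
      rw [← pow_mul, mul_comm, pow_mul, ← mul_pow, ← pow_two, ← pow_mul, ← pow_mul, mul_comm]
    rw [e10, pow_add]
    generalize gg (hh t) (ff χ f) k z = A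
    generalize (starRingEnd ℂ) (gg (hh t) (ff χ f) j z) = B
    simp only [inv_pow]
    have hk : (z.im : ℂ) ^ k ≠ 0 := pow_ne_zero _ hne
    have hj : (z.im : ℂ) ^ j ≠ 0 := pow_ne_zero _ hne
    generalize (z.im : ℂ) ^ k = Yk at hk
    generalize (z.im : ℂ) ^ j = Yj at hj
    have e11 : (-1 : ℂ) ^ j * (φ z * (Yk * (Yj⁻¹ * ((z.im : ℂ) ^ 2)⁻¹)) *
        (A * ((-1) ^ j * B / (Yj⁻¹ * Yj⁻¹)))) = ((-1 : ℂ) ^ j * (-1) ^ j) *
        (φ z * (Yk * (Yj⁻¹ * ((z.im : ℂ) ^ 2)⁻¹)) * (A * (B / (Yj⁻¹ * Yj⁻¹)))) := by ring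
    rw [e11, e9]
    field_simp
  · have hz0 : φ z = 0 := hφ.eq_zero hz
    simp only [wt, hz0, zero_mul, zero_div, mul_zero]

/-- moving `m` derivatives -/
lemma move_iter {V : Set ℂ} {q : ℂ → ℝ} {h : ℕ → ℝ} {f : ℕ → ℂ → ℝ}
    (hm : ∀ (a b : ℤ) (φ : ℂ → ℂ), Test V φ →
    Tendsto (fun i => (∫ z, φ z * (ss q (h i) (f i) (a + 1) z * ss q (h i) (f i) b z)) +
      ∫ z, φ z * (ss q (h i) (f i) a z * ss q (h i) (f i) (b + 1) z)) atTop (𝓝 0))
    {φ : ℂ → ℂ} (hφ : Test V φ) (n : ℤ) (m : ℕ) :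
    Tendsto (fun i => (∫ z, φ z * (ss q (h i) (f i) n z * ss q (h i) (f i) 0 z)) -
      (-1) ^ m * ∫ z, φ z * (ss q (h i) (f i) (n - m) z * ss q (h i) (f i) m z)) atTop (𝓝 0) := by
  induction m with
  | zero => simp
  | succ m ih =>
    have h1 := (hm (n - m - 1) m φ hφ).const_mul ((-1 : ℂ) ^ m)
    have h2 := ih.add h1
    rw [mul_zero, add_zero] at h2
    refine h2.congr fun i => ?_
    have e1 : n - m - 1 + 1 = n - m := by ring
    have e2 : n - ((m + 1 : ℕ) : ℤ) = n - m - 1 := by push_cast; ring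
    have e3 : ((m + 1 : ℕ) : ℤ) = (m : ℤ) + 1 := by push_cast; ring
    rw [e1, e2, e3]
    ring

end A1M

theorem stmtA1 (hI : StmtInt) (hL : StmtLap) (hM : StmtMove) (hLB : StmtLB) : StmtA1 := by
  intro f t hft φ hφ
  obtain ⟨N, hN⟩ := Half.exists_N hft.lim
  obtain ⟨χ, V, hχ, h01, hV, hVH, h1, hφV⟩ := A1M.setupC hφ
  have hS := Half2.seq hL hχ h01 hV hVH h1 hft.form hft.lim hN
  have hb : L2Bdd V (fun i => ff χ (f (i + N))) :=
    hLB.2.2 χ V hχ hV hVH h1 (fun i => f (i + N)) (fun i => t (i + N)) (fun i => hft.form (i + N))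
  have hm := (hM V _ _ _ hS hb).1
  constructor
  · intro k j
    rw [← tendsto_add_atTop_iff_nat N]
    have hw := A1M.test_wt hVH hφV k j
    have key := (hm k (-((j + 1 : ℕ) : ℤ)) _ hw).const_mul ((-1 : ℂ) ^ (j + 1))
    rw [mul_zero] at key
    refine key.congr fun i => ?_
    rw [A1M.int_prod hI hχ hV hVH h1 (hft.form (i + N)) hφV (k + 1) (j + 1),
      A1M.int_prod hI hχ hV hVH h1 (hft.form (i + N)) hφV k j]
    have e1 : -((j + 1 : ℕ) : ℤ) + 1 = -(j : ℤ) := by push_cast; ring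
    have e2 : ((k + 1 : ℕ) : ℤ) = (k : ℤ) + 1 := by push_cast; ring
    have e3 : ∀ z : ℂ, z ∈ V → A1M.wt φ (k + 1) (j + 1) z = A1M.wt φ k j z := by
      intro z hz
      have hzim : 0 < z.im := hVH hz
      unfold A1M.wt
      congr 2
      rw [pow_succ, show j + 1 + 2 = (j + 2) + 1 by ring, pow_succ]
      field_simp
    have e4 : ∀ z : ℂ, A1M.wt φ (k + 1) (j + 1) z = A1M.wt φ k j z := by
      intro z
      by_cases hz : z ∈ V
      · exact e3 z hz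
      · unfold A1M.wt
        rw [hφV.eq_zero hz, zero_mul, zero_mul]
    simp only [e4]
    rw [e1, e2]
    ring
  · intro n hn
    rw [← tendsto_add_atTop_iff_nat N]
    have hw := A1M.test_wt hVH hφV n 0
    have key := (A1M.move_iter hm hw (n : ℤ) n).const_mul (1 / 2 : ℂ)
    rw [mul_zero] at key
    refine key.congr fun i => ?_
    have e1 : ∫ z : ℍ, φ z * (f (i + N) z * sg (f (i + N)) (t (i + N)) n z) =
        ∫ z : ℍ, φ z * (sg (f (i + N)) (t (i + N)) n z * conj (sg (f (i + N)) (t (i + N)) 0 z)) := by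
      apply integral_congr_ae
      refine Filter.Eventually.of_forall fun z => ?_
      have : conj (sg (f (i + N)) (t (i + N)) 0 z) = (f (i + N) z : ℂ) := by
        unfold sg
        simp [Half.ext_coe]
      simp only [this]
      ring
    rw [e1, A1M.int_prod hI hχ hV hVH h1 (hft.form (i + N)) hφV n 0]
    rw [hn.neg_one_pow]
    have e2 : ∫ z, A1M.wt φ n 0 z * (ss (qq χ) (hh (t (i + N))) (ff χ (f (i + N))) (n - n) z *
        ss (qq χ) (hh (t (i + N))) (ff χ (f (i + N))) n z) =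
        ∫ z, A1M.wt φ n 0 z * (ss (qq χ) (hh (t (i + N))) (ff χ (f (i + N))) n z *
        ss (qq χ) (hh (t (i + N))) (ff χ (f (i + N))) 0 z) := by
      apply integral_congr_ae
      refine Filter.Eventually.of_forall fun z => ?_
      simp only [sub_self]
      ring
    rw [e2]
    simp only [pow_zero, one_mul, Nat.cast_zero, neg_zero]
    ring

end

end Pool.Agent.A54.Dyn
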