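import Pool.Agent.Lib.MP_a54f13_nt.Dyn.Spec1

/-!
The transport equation on the half-plane.
-/

set_option autoImplicit false

namespace Pool.Agent.A54.Dyn

open MeasureTheory Filter Topology Set
open scoped ComplexConjugate UpperHalfPlane MatrixGroups ENNReal ContDiff
open Pool.Agent.A54.Half (H0 qq ff hh)

noncomputable section

namespace A2M

/-- everything needed around a complex valued test function -/
lemma setupC {φ : ℂ → ℂ} (hφ : Test H0 φ) : ∃ (χ : ℂ → ℝ) (V : Set ℂ), TestR H0 χ ∧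
    (∀ z, 0 ≤ χ z ∧ χ z ≤ 1) ∧ IsOpen V ∧ V ⊆ H0 ∧ (∀ z ∈ V, χ z = 1) ∧ tsupport φ ⊆ V := by
  obtain ⟨χ, hχ, h01, hev⟩ := exists_cutoff hφ.cpt.isCompact Half.isOpen_H0 hφ.sub
  have hi : tsupport φ ⊆ interior {z | χ z = 1} := by
    intro z hz
    rw [mem_interior_iff_mem_nhds]
    exact (mem_nhdsSet_iff_forall.mp hev) z hz
  refine ⟨χ, interior {z | χ z = 1}, hχ, h01, isOpen_interior, ?_, ?_, hi⟩
  · intro z hz
    have h1' : z ∈ {z | χ z = 1} := interior_subset hz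
    have h1 : χ z = 1 := h1'
    by_contra hz0
    rw [hχ.eq_zero hz0] at h1
    exact zero_ne_one h1
  · intro z hz
    have h1' : z ∈ {z | χ z = 1} := interior_subset hz
    exact h1'

/-- derivatives of functions of the height -/
lemma dd_im {g : ℝ → ℝ} {g' : ℝ} {z : ℂ} (hg : HasDerivAt g g' z.im) :
    dz (fun w : ℂ => ((g w.im : ℝ) : ℂ)) z = -Complex.I * g' ∧
    dzb (fun w : ℂ => ((g w.im : ℝ) : ℂ)) z = Complex.I * g' := by
  have h1 : HasFDerivAt (fun w : ℂ => w.im) Complex.imCLM z := Complex.imCLM.hasFDerivAt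
  have h2 : HasFDerivAt (fun w : ℂ => g w.im) (g' • Complex.imCLM) z := hg.comp_hasFDerivAt z h1
  have h3 : HasFDerivAt (fun w : ℂ => ((g w.im : ℝ) : ℂ))
      (Complex.ofRealCLM.comp (g' • Complex.imCLM)) z :=
    Complex.ofRealCLM.hasFDerivAt.comp z h2
  constructor
  · unfold dz
    rw [h3.fderiv]
    simp
  · unfold dzb
    rw [h3.fderiv]
    simp

/-- the weight -/
def wt (n : ℕ) (z : ℂ) : ℂ := Complex.I * ((z.im ^ (n + 1) : ℝ) : ℂ)

lemma wt_smooth (n : ℕ) : ContDiff ℝ ∞ (wt n) :=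
  contDiff_const.mul (contDiff_ofReal (Half.contDiff_im.pow (n + 1)))

lemma dz_wt (n : ℕ) (z : ℂ) : dz (wt n) z = (n + 1) * (z.im : ℂ) ^ n := by
  have h := (dd_im (z := z) (hasDerivAt_pow (n + 1) z.im)).1
  unfold wt
  rw [dz_const_mul _ (contDiff_ofReal (Half.contDiff_im.pow (n + 1))), h]
  push_cast
  ring_nf
  rw [Complex.I_sq]
  ring

lemma dzb_wt (n : ℕ) (z : ℂ) : dzb (wt n) z = -((n + 1) * (z.im : ℂ) ^ n) := by
  have h := (dd_im (z := z) (hasDerivAt_pow (n + 1) z.im)).2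
  unfold wt
  rw [dzb_const_mul _ (contDiff_ofReal (Half.contDiff_im.pow (n + 1))), h]
  push_cast
  ring_nf
  rw [Complex.I_sq]
  ring

lemma dz_qq {χ : ℂ → ℝ} {V : Set ℂ} (hV : IsOpen V) (hVH : V ⊆ H0) (h1 : ∀ z ∈ V, χ z = 1)
    {z : ℂ} (hz : z ∈ V) :
    dz (fun w => (qq χ w : ℂ)) z = 2 * Complex.I * ((z.im : ℂ) ^ 3)⁻¹ := by
  have hzim : 0 < z.im := hVH hz
  have e1 : ∀ w ∈ V, (qq χ w : ℂ) = (((fun y : ℝ => (y ^ 2)⁻¹) w.im : ℝ) : ℂ) := by
    intro w hw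
    unfold qq
    rw [h1 w hw]
    congr 1
    simp only [inv_pow]
    ring
  rw [dz_congr hV e1 hz]
  have hd : HasDerivAt (fun y : ℝ => (y ^ 2)⁻¹) (-(2 * z.im) / (z.im ^ 2) ^ 2) z.im := by
    have h2 : HasDerivAt (fun y : ℝ => y ^ 2) (2 * z.im) z.im := by
      simpa using hasDerivAt_pow 2 z.im
    exact h2.fun_inv (by positivity)
  rw [(dd_im hd).1]
  have hne : (z.im : ℂ) ≠ 0 := by exact_mod_cast hzim.ne'
  push_cast
  field_simp

/-- the localised form and the form -/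
lemma gg_ff {χ : ℂ → ℝ} (hχ : TestR H0 χ) {V : Set ℂ} (hV : IsOpen V)
    (h1 : ∀ z ∈ V, χ z = 1) {f : ℍ → ℝ} {t : ℝ} (hf : IsHeckeMaass f t)
    (n : ℕ) {z : ℂ} (hz : z ∈ V) :
    (z.im : ℂ) ^ n * gg (hh t) (ff χ f) n z =
      ((Real.sqrt (1 / 4 + t ^ 2) : ℝ) : ℂ)⁻¹ ^ n *
        ((z.im : ℂ) ^ n * (dz^[n] (fun w => (ext f w : ℂ))) z) := by
  have hs := Half.ff_smooth hχ hf.smooth
  have hc : ∀ w ∈ V, (ff χ f w : ℂ) = (ext f w : ℂ) := by
    intro w hw
    unfold ff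
    rw [h1 w hw, one_mul]
  have e3 := Half.iter_congr hV hc n z hz
  rw [Half.gg_eq hs, e3]
  simp only [hh]
  push_cast
  ring

end A2M

open A2M in
/-- the transport equation on the half-plane -/
theorem stmtA2 (hI : StmtInt) (hL : StmtLap) (hF : StmtFT) (hLB : StmtLB) : StmtA2 := by
  intro f t hHM n φ hφ
  obtain ⟨N, hN⟩ := Half.exists_N hHM.lim
  obtain ⟨χ, V, hχ, h01, hV, hVH, h1, hsub⟩ := setupC hφ
  have hφV : Test V φ := ⟨hφ.smooth, hφ.cpt, hsub⟩
  have hS := Half2.seq hL hχ h01 hV hVH h1 hHM.form hHM.lim hN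
  have hb : L2Bdd V (fun i => ff χ (f (i + N))) :=
    hLB.2.2 χ V hχ hV hVH h1 (fun i => f (i + N)) (fun i => t (i + N)) (fun i => hHM.form _)
  have hΦ : Test V (fun z => wt n z * φ z) := hφV.mul_left (wt_smooth n)
  have key := hF V (qq χ) (fun i => hh (t (i + N))) (fun i => ff χ (f (i + N))) hS hb n _ hΦ
  rw [← tendsto_add_atTop_iff_nat N]
  refine key.congr fun i => ?_
  set F : ℍ → ℝ := f (i + N) with hFdef
  set T : ℝ := t (i + N) with hTdef
  have hform : IsHeckeMaass F T := hHM.form _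
  set S : ℕ → ℂ → ℂ := fun m z => ((Real.sqrt (1 / 4 + T ^ 2) : ℝ) : ℂ)⁻¹ ^ m *
        ((z.im : ℂ) ^ m * (dz^[m] (fun w => (ext F w : ℂ))) z) with hSdef
  set P : ℂ → ℂ := fun z =>
    (Complex.I * z.im * dz φ z - (n + 1) * φ z) * (ext F z * S n z) +
      (-(Complex.I * z.im * dzb φ z) + (n + 1) * φ z) * (ext F z * S (n + 2) z) with hP
  have hz0 : ∀ z : ℂ, z ∉ V → φ z = 0 ∧ dz φ z = 0 ∧ dzb φ z = 0 := fun z hz =>
    ⟨hφV.eq_zero hz, hφV.dz.eq_zero hz, hφV.dzb.eq_zero hz⟩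
  have hP0 : ∀ z : ℂ, z ∉ V → P z = 0 := by
    intro z hz
    obtain ⟨a, b, c⟩ := hz0 z hz
    simp only [hP, a, b, c]
    ring
  have e1 := hI.2 P (fun z hz => hP0 z (fun h => (not_lt.mpr hz) (hVH h)))
  have e2 : (∫ z : ℍ,
    ((Complex.I * z.im * dz φ z - (n + 1) * φ z) * (F z * sg F T n z) +
      (-(Complex.I * z.im * dzb φ z) + (n + 1) * φ z) * (F z * sg F T (n + 2) z))) =
      ∫ z : ℍ, P z := by
    apply integral_congr_ae
    refine Filter.Eventually.of_forall fun z => ?_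
    simp only [hP, hSdef, sg, Half.ext_coe, UpperHalfPlane.coe_im]
  rw [e2, e1]
  apply integral_congr_ae
  refine Filter.Eventually.of_forall fun z => ?_
  by_cases hz : z ∈ V
  · have hzim : 0 < z.im := hVH hz
    have hne : (z.im : ℂ) ≠ 0 := by
      exact_mod_cast hzim.ne'
    have hff : (ff χ F z : ℂ) = (ext F z : ℂ) := by
      unfold ff
      rw [h1 z hz, one_mul]
    have g1 := gg_ff hχ hV h1 hform n hz
    have g2 := gg_ff hχ hV h1 hform (n + 2) hz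
    have hq : (qq χ z : ℂ) = ((z.im : ℂ) ^ 2)⁻¹ := by
      unfold qq
      rw [h1 z hz]
      push_cast
      simp only [inv_pow]
      ring
    have d1 : dz (fun z => wt n z * φ z) z = (n + 1) * (z.im : ℂ) ^ n * φ z +
        Complex.I * (z.im : ℂ) ^ (n + 1) * dz φ z := by
      rw [dz_mul (wt_smooth n) hφ.smooth, dz_wt]
      unfold wt
      push_cast
      ring
    have d2 : dzb (fun z => wt n z * φ z) z = -((n + 1) * (z.im : ℂ) ^ n * φ z) +
        Complex.I * (z.im : ℂ) ^ (n + 1) * dzb φ z := by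
      rw [dzb_mul (wt_smooth n) hφ.smooth, dzb_wt]
      unfold wt
      push_cast
      ring
    have d3 := dz_qq hV hVH h1 hz
    simp only
    rw [d1, d2, d3, hff, hq]
    simp only [hP, hSdef]
    rw [← g1, ← g2]
    unfold wt
    push_cast
    have hI2 : Complex.I ^ 2 = -1 := Complex.I_sq
    field_simp
    ring_nf
    rw [hI2]
    ring
  · obtain ⟨a, b, c⟩ := hz0 z hz
    have a' : wt n z * φ z = 0 := by rw [a, mul_zero]
    have b' : dz (fun z => wt n z * φ z) z = 0 := hΦ.dz.eq_zero hz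
    have c' : dzb (fun z => wt n z * φ z) z = 0 := hΦ.dzb.eq_zero hz
    simp only [hP0 z hz, b', c', a']
    ring

end

end Pool.Agent.A54.Dyn
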