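import Pool.Agent.Lib.MP_a54f13_nt.Dyn.Spec1

/-!
Left quasi-invariance: `StmtA3`.  For MP_a54f13_nt.
-/

set_option autoImplicit false

namespace Pool.Agent.A54.Dyn

open MeasureTheory Filter Topology Set
open scoped ComplexConjugate UpperHalfPlane MatrixGroups ENNReal ContDiff
open Pool.Agent.A54.Half (H0 qq ff hh)

noncomputable section

namespace A3M

/-! ### The operator `∂` at a point -/

lemma dz_mul' {a b : ℂ → ℂ} {z : ℂ} (ha : DifferentiableAt ℝ a z) (hb : DifferentiableAt ℝ b z) :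
    dz (fun w => a w * b w) z = dz a z * b z + a z * dz b z := by
  unfold dz
  have h : fderiv ℝ (fun w => a w * b w) z = a z • fderiv ℝ b z + b z • fderiv ℝ a z :=
    fderiv_mul ha hb
  rw [h]
  simp only [ContinuousLinearMap.add_apply, ContinuousLinearMap.smul_apply, smul_eq_mul]
  ring

lemma dz_sum' {ι : Type*} (s : Finset ι) {a : ι → ℂ → ℂ} {z : ℂ}
    (ha : ∀ i ∈ s, DifferentiableAt ℝ (a i) z) :
    dz (fun w => ∑ i ∈ s, a i w) z = ∑ i ∈ s, dz (a i) z := by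
  unfold dz
  have h : fderiv ℝ (fun w => ∑ i ∈ s, a i w) z = ∑ i ∈ s, fderiv ℝ (a i) z :=
    fderiv_fun_sum ha
  rw [h]
  simp only [ContinuousLinearMap.sum_apply, Finset.mul_sum, Finset.sum_sub_distrib]

lemma real_linear (A : ℂ →L[ℝ] ℂ) (c : ℂ) :
    A c - Complex.I * A (Complex.I * c) = c * (A 1 - Complex.I * A Complex.I) := by
  have h1 : c = (c.re : ℝ) • (1 : ℂ) + (c.im : ℝ) • Complex.I := by
    rw [Complex.real_smul, Complex.real_smul, mul_one]
    exact (Complex.re_add_im c).symm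
  have h2 : Complex.I * c = (-c.im : ℝ) • (1 : ℂ) + (c.re : ℝ) • Complex.I := by
    apply Complex.ext <;> simp
  have h3 : A c = (c.re : ℂ) * A 1 + (c.im : ℂ) * A Complex.I := by
    conv_lhs => rw [h1, map_add, map_smul, map_smul, Complex.real_smul, Complex.real_smul]
  have h4 : A (Complex.I * c) = -(c.im : ℂ) * A 1 + (c.re : ℂ) * A Complex.I := by
    rw [h2, map_add, map_smul, map_smul, Complex.real_smul, Complex.real_smul]
    push_cast
    ring
  rw [h3, h4]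
  have h5 : c = (c.re : ℂ) + (c.im : ℂ) * Complex.I := (Complex.re_add_im c).symm
  conv_rhs => rw [h5]
  have h6 := Complex.I_mul_I
  linear_combination ((c.im : ℂ) * A Complex.I) * h6

lemma dz_comp {g m : ℂ → ℂ} {z m' : ℂ} (hg : DifferentiableAt ℝ g (m z))
    (hm : HasDerivAt m m' z) : dz (fun w => g (m w)) z = m' * dz g (m z) := by
  have h1 := hm.hasFDerivAt.restrictScalars ℝ
  have h2 : HasFDerivAt (fun w => g (m w)) _ z := hg.hasFDerivAt.comp z h1
  unfold dz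
  rw [h2.fderiv]
  simp only [ContinuousLinearMap.comp_apply, ContinuousLinearMap.coe_restrictScalars',
    ContinuousLinearMap.toSpanSingleton_apply, smul_eq_mul, one_mul]
  exact real_linear _ _

lemma contDiffAt_dz {g : ℂ → ℂ} {z : ℂ} (h : ContDiffAt ℝ ∞ g z) : ContDiffAt ℝ ∞ (dz g) z := by
  have h1 : ContDiffAt ℝ ∞ (fderiv ℝ g) z := h.fderiv_right (by simp)
  unfold dz
  exact (h1.clm_apply contDiffAt_const).sub
    (contDiffAt_const.mul (h1.clm_apply contDiffAt_const))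

lemma contDiffAt_iter {g : ℂ → ℂ} (h : ∀ z ∈ H0, ContDiffAt ℝ ∞ g z) (n : ℕ) :
    ∀ z ∈ H0, ContDiffAt ℝ ∞ (dz^[n] g) z := by
  induction n with
  | zero => exact h
  | succ n ih =>
    intro z hz
    rw [Function.iterate_succ_apply']
    exact contDiffAt_dz (ih z hz)

/-! ### Moebius transformations -/

variable (γ : SL(2, ℤ))

/-- denominators -/
def jj (z : ℂ) : ℂ := (γ 1 0 : ℂ) * z + (γ 1 1 : ℂ)

/-- the transformation -/
def mo (z : ℂ) : ℂ := ((γ 0 0 : ℂ) * z + (γ 0 1 : ℂ)) / jj γ z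

lemma det_c : (γ 0 0 : ℂ) * γ 1 1 - γ 0 1 * γ 1 0 = 1 := by
  have h := γ.det_coe
  rw [Matrix.det_fin_two] at h
  exact_mod_cast h

lemma coe_smul (z : ℍ) : ((γ • z : ℍ) : ℂ) = mo γ z := by
  rw [UpperHalfPlane.coe_specialLinearGroup_apply]
  simp [mo, jj]

lemma jj_ne' (z : ℍ) : jj γ z ≠ 0 := by
  have h := denom_ne (io γ) z
  have h0 : ((io γ) 1 0 : ℝ) = ((γ 1 0 : ℤ) : ℝ) := rfl
  have h1 : ((io γ) 1 1 : ℝ) = ((γ 1 1 : ℤ) : ℝ) := rfl
  rw [h0, h1] at h
  unfold jj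
  exact_mod_cast h

lemma jj_ne {z : ℂ} (hz : z ∈ H0) : jj γ z ≠ 0 := jj_ne' γ ⟨z, hz⟩

lemma mo_mem {z : ℂ} (hz : z ∈ H0) : mo γ z ∈ H0 := by
  have h := coe_smul γ ⟨z, hz⟩
  have h1 : 0 < (((γ • (⟨z, hz⟩ : ℍ) : ℍ) : ℂ)).im := (γ • (⟨z, hz⟩ : ℍ)).im_pos
  rw [h] at h1
  exact h1

lemma im_smul' (z : ℍ) : (γ • z : ℍ).im = z.im / Complex.normSq (jj γ z) := by
  have h := im_smul (io γ) z
  have h0 : ((io γ) 1 0 : ℝ) = ((γ 1 0 : ℤ) : ℝ) := rfl
  have h1 : ((io γ) 1 1 : ℝ) = ((γ 1 1 : ℤ) : ℝ) := rfl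
  rw [h0, h1] at h
  have h2 : jj γ z = (((γ 1 0 : ℤ) : ℝ) : ℂ) * z + (((γ 1 1 : ℤ) : ℝ) : ℂ) := by
    unfold jj
    push_cast
    rfl
  rw [h2]
  exact h

lemma contDiff_jj : ContDiff ℝ ∞ (jj γ) := by
  unfold jj
  exact (contDiff_const.mul contDiff_id).add contDiff_const

lemma hasDerivAt_mo {z : ℂ} (hz : z ∈ H0) : HasDerivAt (mo γ) ((jj γ z)⁻¹ ^ 2) z := by
  have hj := jj_ne γ hz
  have h1 : HasDerivAt (fun w : ℂ => (γ 0 0 : ℂ) * w + (γ 0 1 : ℂ)) (γ 0 0 : ℂ) z := by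
    simpa using ((hasDerivAt_id z).const_mul (γ 0 0 : ℂ)).add_const (γ 0 1 : ℂ)
  have h2 : HasDerivAt (jj γ) (γ 1 0 : ℂ) z := by
    unfold jj
    simpa using ((hasDerivAt_id z).const_mul (γ 1 0 : ℂ)).add_const (γ 1 1 : ℂ)
  have h3 := h1.div h2 hj
  have h4 : (((γ 0 0 : ℂ) * jj γ z - ((γ 0 0 : ℂ) * z + (γ 0 1 : ℂ)) * (γ 1 0 : ℂ)) /
      jj γ z ^ 2) = (jj γ z)⁻¹ ^ 2 := by
    have h5 := det_c γ
    have h6 : (γ 0 0 : ℂ) * jj γ z - ((γ 0 0 : ℂ) * z + (γ 0 1 : ℂ)) * (γ 1 0 : ℂ) = 1 := by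
      unfold jj
      linear_combination h5
    rw [h6, inv_pow, one_div]
  rw [h4] at h3
  exact h3

/-- coefficients -/
def bb : ℕ → ℕ → ℂ → ℂ
  | 0, 0 => fun _ => 1
  | 0, _ + 1 => fun _ => 0
  | n + 1, 0 => fun z => jj γ z ^ 2 * dz (bb n 0) z
  | n + 1, k + 1 => fun z => jj γ z ^ 2 * (dz (bb n (k + 1)) z + bb n k z)

lemma contDiff_bb (n k : ℕ) : ContDiff ℝ ∞ (bb γ n k) := by
  induction n generalizing k with
  | zero =>
    cases k with
    | zero => exact contDiff_const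
    | succ k => exact contDiff_const
  | succ n ih =>
    cases k with
    | zero => exact ((contDiff_jj γ).pow 2).mul (contDiff_dz (ih 0))
    | succ k => exact ((contDiff_jj γ).pow 2).mul ((contDiff_dz (ih (k + 1))).add (ih k))

lemma bb_zero {n k : ℕ} (h : n < k) : bb γ n k = fun _ => 0 := by
  induction n generalizing k with
  | zero =>
    cases k with
    | zero => omega
    | succ k => rfl
  | succ n ih =>
    cases k with
    | zero => omega
    | succ k =>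
      funext z
      change jj γ z ^ 2 * (dz (bb γ n (k + 1)) z + bb γ n k z) = 0
      rw [ih (by omega), ih (k := k) (by omega), dz_const]
      ring

lemma bb_diag (n : ℕ) (z : ℂ) : bb γ n n z = jj γ z ^ (2 * n) := by
  induction n with
  | zero => simp [bb]
  | succ n ih =>
    change jj γ z ^ 2 * (dz (bb γ n (n + 1)) z + bb γ n n z) = _
    rw [bb_zero γ (Nat.lt_succ_self n), dz_const, ih]
    ring

theorem iter_mo {F : ℂ → ℂ} (hF : ∀ z ∈ H0, ContDiffAt ℝ ∞ F z)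
    (hinv : ∀ z ∈ H0, F (mo γ z) = F z) (n : ℕ) :
    ∀ z ∈ H0, (dz^[n] F) (mo γ z) =
      ∑ k ∈ Finset.range (n + 1), bb γ n k z * (dz^[k] F) z := by
  induction n with
  | zero =>
    intro z hz
    simp [bb, hinv z hz]
  | succ n ih =>
    intro z hz
    have hj := jj_ne γ hz
    have hG := contDiffAt_iter hF
    have h1 : dz (fun w => (dz^[n] F) (mo γ w)) z =
        (jj γ z)⁻¹ ^ 2 * dz (dz^[n] F) (mo γ z) :=
      dz_comp ((hG n _ (mo_mem γ hz)).differentiableAt (by simp)) (hasDerivAt_mo γ hz)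
    have h2 : (dz^[n + 1] F) (mo γ z) = jj γ z ^ 2 * dz (fun w => (dz^[n] F) (mo γ w)) z := by
      rw [h1, Function.iterate_succ_apply', inv_pow, ← mul_assoc, mul_inv_cancel₀ (pow_ne_zero 2 hj),
        one_mul]
    have h3 : dz (fun w => (dz^[n] F) (mo γ w)) z =
        dz (fun w => ∑ k ∈ Finset.range (n + 1), bb γ n k w * (dz^[k] F) w) z :=
      dz_congr Half.isOpen_H0 ih hz
    have hd : ∀ k, DifferentiableAt ℝ (bb γ n k) z := fun k =>
      (contDiff_bb γ n k).contDiffAt.differentiableAt (by simp)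
    have hd' : ∀ k, DifferentiableAt ℝ (dz^[k] F) z := fun k =>
      (hG k z hz).differentiableAt (by simp)
    have h4 : dz (fun w => ∑ k ∈ Finset.range (n + 1), bb γ n k w * (dz^[k] F) w) z =
        ∑ k ∈ Finset.range (n + 1), (dz (bb γ n k) z * (dz^[k] F) z +
          bb γ n k z * (dz^[k + 1] F) z) := by
      have hdm : ∀ k ∈ Finset.range (n + 1),
          DifferentiableAt ℝ (fun w => bb γ n k w * (dz^[k] F) w) z :=
        fun k _ => (hd k).mul (hd' k)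
      rw [dz_sum' _ hdm]
      refine Finset.sum_congr rfl fun k _ => ?_
      rw [dz_mul' (hd k) (hd' k), Function.iterate_succ_apply']
    rw [h2, h3, h4, Finset.sum_range_succ' _ (n + 1)]
    have h5 : ∀ k, bb γ (n + 1) (k + 1) z = jj γ z ^ 2 * (dz (bb γ n (k + 1)) z + bb γ n k z) :=
      fun k => rfl
    have h6 : bb γ (n + 1) 0 z = jj γ z ^ 2 * dz (bb γ n 0) z := rfl
    simp only [h5, h6]
    have h7 : ∑ k ∈ Finset.range (n + 1), dz (bb γ n k) z * (dz^[k] F) z =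
        (∑ k ∈ Finset.range (n + 1), dz (bb γ n (k + 1)) z * (dz^[k + 1] F) z) +
          dz (bb γ n 0) z * (dz^[0] F) z := by
      rw [← Finset.sum_range_succ' (fun k => dz (bb γ n k) z * (dz^[k] F) z) (n + 1),
        Finset.sum_range_succ _ (n + 1), bb_zero γ (Nat.lt_succ_self n), dz_const, zero_mul,
        add_zero]
    have h8 : ∑ k ∈ Finset.range (n + 1), jj γ z ^ 2 * (dz (bb γ n (k + 1)) z + bb γ n k z) *
        (dz^[k + 1] F) z = jj γ z ^ 2 * ((∑ k ∈ Finset.range (n + 1),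
          dz (bb γ n (k + 1)) z * (dz^[k + 1] F) z) +
            ∑ k ∈ Finset.range (n + 1), bb γ n k z * (dz^[k + 1] F) z) := by
      rw [← Finset.sum_add_distrib, Finset.mul_sum]
      refine Finset.sum_congr rfl fun k _ => ?_
      ring
    rw [h8, Finset.sum_add_distrib, h7]
    ring

/-! ### The functions `sg` -/

/-- coefficients -/
def aa (n k : ℕ) (z : ℍ) : ℂ :=
  (z.im : ℂ) ^ (n - k) * ((Complex.normSq (jj γ z) : ℝ) : ℂ)⁻¹ ^ n * bb γ n k z

lemma continuous_jj : Continuous (fun z : ℍ => jj γ z) :=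
  (contDiff_jj γ).continuous.comp UpperHalfPlane.continuous_coe

lemma continuous_aa (n k : ℕ) : Continuous (aa γ n k) := by
  unfold aa
  have h1 : Continuous (fun z : ℍ => ((z.im : ℝ) : ℂ)) :=
    Complex.continuous_ofReal.comp UpperHalfPlane.continuous_im
  have h2 : Continuous (fun z : ℍ => ((Complex.normSq (jj γ z) : ℝ) : ℂ)) :=
    Complex.continuous_ofReal.comp (Complex.continuous_normSq.comp (continuous_jj γ))
  have h3 : Continuous (fun z : ℍ => ((Complex.normSq (jj γ z) : ℝ) : ℂ)⁻¹) :=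
    h2.inv₀ fun z => by
      have := Complex.normSq_pos.mpr (jj_ne' γ z)
      exact_mod_cast this.ne'
  exact ((h1.pow _).mul (h3.pow _)).mul
    ((contDiff_bb γ n k).continuous.comp UpperHalfPlane.continuous_coe)

lemma aa_diag (n : ℕ) (z : ℍ) : aa γ n n z = (((γ 1 0 : ℂ) * z + (γ 1 1 : ℂ)) /
    ((γ 1 0 : ℂ) * conj (z : ℂ) + (γ 1 1 : ℂ))) ^ n := by
  have hj := jj_ne' γ z
  have h1 : (γ 1 0 : ℂ) * conj (z : ℂ) + (γ 1 1 : ℂ) = conj (jj γ z) := by
    unfold jj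
    simp
  have h2 : (γ 1 0 : ℂ) * z + (γ 1 1 : ℂ) = jj γ z := rfl
  have hj' : conj (jj γ z) ≠ 0 := (map_ne_zero _).mpr hj
  rw [h1, h2]
  unfold aa
  rw [bb_diag, Nat.sub_self, pow_zero, one_mul, ← Complex.mul_conj, mul_comm 2 n, pow_mul,
    ← pow_mul, mul_comm n 2, pow_mul, ← mul_pow]
  congr 1
  field_simp

lemma sg_zero (f : ℍ → ℝ) (t : ℝ) (z : ℍ) : sg f t 0 z = (f z : ℂ) := by
  unfold sg
  simp only [pow_zero, one_mul, Function.iterate_zero, id_eq]
  rw [Half.ext_coe]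

theorem sg_smul {f : ℍ → ℝ} {t : ℝ} (hf : IsHeckeMaass f t) (n : ℕ) (z : ℍ) :
    sg f t n (γ • z) = ∑ k ∈ Finset.range (n + 1),
      ((hh t : ℝ) : ℂ) ^ (n - k) * (aa γ n k z * sg f t k z) := by
  set F : ℂ → ℂ := fun w => (ext f w : ℂ) with hF
  have hFs : ∀ z ∈ H0, ContDiffAt ℝ ∞ F z := fun z hz =>
    Complex.ofRealCLM.contDiff.contDiffAt.comp z
      (hf.smooth.contDiffAt (Half.isOpen_H0.mem_nhds hz))
  have hFi : ∀ z ∈ H0, F (mo γ z) = F z := by
    intro z hz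
    have h1 := hf.invariant γ ⟨z, hz⟩
    have h2 := Half.ext_coe f (γ • (⟨z, hz⟩ : ℍ))
    rw [coe_smul] at h2
    have h3 := Half.ext_coe f ⟨z, hz⟩
    have h4 : ext f (mo γ z) = ext f z := by
      have h5 : ext f (mo γ ((⟨z, hz⟩ : ℍ) : ℂ)) = ext f ((⟨z, hz⟩ : ℍ) : ℂ) := by
        rw [h2, h3, h1]
      exact h5
    change ((ext f (mo γ z) : ℝ) : ℂ) = ((ext f z : ℝ) : ℂ)
    rw [h4]
  have h1 := iter_mo γ hFs hFi n (z : ℂ) z.im_pos
  have hH : (((Real.sqrt (1 / 4 + t ^ 2) : ℝ) : ℂ)⁻¹) = ((hh t : ℝ) : ℂ) := by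
    unfold hh
    push_cast
    rfl
  unfold sg
  rw [hH, im_smul', coe_smul, ← hF, h1, Finset.mul_sum, Finset.mul_sum]
  refine Finset.sum_congr rfl fun k hk => ?_
  have hk' : k ≤ n := Nat.lt_succ_iff.mp (Finset.mem_range.mp hk)
  unfold aa
  have e1 : (hh t : ℂ) ^ n = (hh t : ℂ) ^ (n - k) * (hh t : ℂ) ^ k := by
    rw [← pow_add, Nat.sub_add_cancel hk']
  have e2 : (z.im : ℂ) ^ n = (z.im : ℂ) ^ (n - k) * (z.im : ℂ) ^ k := by
    rw [← pow_add, Nat.sub_add_cancel hk']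
  rw [e1]
  push_cast
  rw [div_eq_mul_inv, mul_pow, e2]
  ring

end A3M

open A3M

theorem stmtA3 (hS : StmtSgB) : StmtA3 := by
  intro f t hft γ n φ hφ
  obtain ⟨hcont, hbd⟩ := hS f t hft
  have hγ : Continuous (fun z : ℍ => γ • z) := continuous_const_smul (γ : GL (Fin 2) ℝ)
  have hγ' : Continuous (fun z : ℍ => γ⁻¹ • z) := continuous_const_smul ((γ⁻¹ : SL(2, ℤ)) : GL (Fin 2) ℝ)
  set Φ : ℍ → ℂ := fun z => φ ((γ • z : ℍ) : ℂ) with hΦ
  have hΦc : Continuous Φ := hφ.smooth.continuous.comp (UpperHalfPlane.continuous_coe.comp hγ)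
  -- the compact set
  set K : Set ℍ := (fun z : ℍ => γ⁻¹ • z) '' (UpperHalfPlane.coe ⁻¹' tsupport φ) with hK
  have hKc : IsCompact K := (Half2.isCompact_pre hφ.cpt hφ.sub).image hγ'
  have hΦ0 : ∀ z, z ∉ K → Φ z = 0 := by
    intro z hz
    by_contra hne
    apply hz
    refine ⟨γ • z, ?_, ?_⟩
    · exact subset_tsupport φ hne
    · change γ⁻¹ • γ • z = z
      rw [inv_smul_smul]
  have hf0 : ∀ i z, (f i z : ℂ) = sg (f i) (t i) 0 z := fun i z => (sg_zero _ _ z).symm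
  -- the integrals
  set I : ℕ → ℕ → ℂ := fun k i => ∫ z : ℍ, Φ z * A3M.aa γ n k z * (f i z * sg (f i) (t i) k z) with hI
  have hint : ∀ k i, Integrable
      (fun z : ℍ => Φ z * A3M.aa γ n k z * (f i z * sg (f i) (t i) k z)) := by
    intro k i
    refine Continuous.integrable_of_hasCompactSupport ?_ ?_
    · simp only [hf0]
      exact (hΦc.mul (continuous_aa γ n k)).mul ((hcont i 0).mul (hcont i k))
    · refine HasCompactSupport.of_support_subset_isCompact hKc ?_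
      intro z hz
      by_contra hzK
      apply hz
      change Φ z * A3M.aa γ n k z * (f i z * sg (f i) (t i) k z) = 0
      rw [hΦ0 z hzK]
      ring
  have hcv : ∀ i, (∫ z : ℍ, φ z * (f i z * sg (f i) (t i) n z)) =
      ∑ k ∈ Finset.range (n + 1), ((hh (t i) : ℝ) : ℂ) ^ (n - k) * I k i := by
    intro i
    have h1 : (∫ z : ℍ, φ z * (f i z * sg (f i) (t i) n z)) =
        ∫ z : ℍ, φ ((γ • z : ℍ) : ℂ) * (f i (γ • z) * sg (f i) (t i) n (γ • z)) :=
      (MeasureTheory.integral_smul_eq_self (μ := (volume : Measure ℍ)) (G := GL (Fin 2) ℝ)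
        (fun z : ℍ => φ z * (f i z * sg (f i) (t i) n z)) (g := (γ : GL (Fin 2) ℝ))).symm
    rw [h1]
    have h2 : ∀ z : ℍ, φ ((γ • z : ℍ) : ℂ) * (f i (γ • z) * sg (f i) (t i) n (γ • z)) =
        ∑ k ∈ Finset.range (n + 1), ((hh (t i) : ℝ) : ℂ) ^ (n - k) *
          (Φ z * A3M.aa γ n k z * (f i z * sg (f i) (t i) k z)) := by
      intro z
      rw [sg_smul γ (hft.form i) n z, (hft.form i).invariant γ z, Finset.mul_sum, Finset.mul_sum]
      refine Finset.sum_congr rfl fun k _ => ?_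
      rw [hΦ]
      ring
    simp only [h2]
    rw [integral_finset_sum _ fun k _ => (hint k i).const_mul _]
    refine Finset.sum_congr rfl fun k _ => ?_
    rw [integral_const_mul]
  have hdiff : ∀ i, (∫ z : ℍ, φ z * (f i z * sg (f i) (t i) n z)) -
      ∫ z : ℍ, φ ((γ • z : ℍ) : ℂ) *
      ((((γ 1 0 : ℂ) * z + (γ 1 1 : ℂ)) / ((γ 1 0 : ℂ) * conj (z : ℂ) + (γ 1 1 : ℂ))) ^ n *
        (f i z * sg (f i) (t i) n z)) =
      ∑ k ∈ Finset.range n, ((hh (t i) : ℝ) : ℂ) ^ (n - k) * I k i := by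
    intro i
    have h1 : (∫ z : ℍ, φ ((γ • z : ℍ) : ℂ) *
      ((((γ 1 0 : ℂ) * z + (γ 1 1 : ℂ)) / ((γ 1 0 : ℂ) * conj (z : ℂ) + (γ 1 1 : ℂ))) ^ n *
        (f i z * sg (f i) (t i) n z))) = I n i := by
      rw [hI]
      refine integral_congr_ae (Filter.Eventually.of_forall fun z => ?_)
      change _ = Φ z * A3M.aa γ n n z * (f i z * sg (f i) (t i) n z)
      rw [aa_diag, hΦ]
      ring
    rw [hcv, h1, Finset.sum_range_succ, Nat.sub_self, pow_zero, one_mul, add_sub_cancel_right]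
  simp only [hdiff]
  -- the bounds
  have hbound : ∀ k, ∃ C : ℝ, ∀ i, ‖I k i‖ ≤ C := by
    intro k
    obtain ⟨C0, hC0⟩ := hbd 0 K hKc
    obtain ⟨Ck, hCk⟩ := hbd k K hKc
    obtain ⟨M, hM⟩ := hKc.exists_bound_of_continuousOn
      ((hΦc.mul (continuous_aa γ n k)).continuousOn (s := K))
    set M' := max M 0 with hM'
    refine ⟨M' * (C0 + Ck), fun i => ?_⟩
    have hg : Integrable (K.indicator fun z =>
        M' * (‖sg (f i) (t i) 0 z‖ ^ 2 + ‖sg (f i) (t i) k z‖ ^ 2)) := by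
      rw [integrable_indicator_iff hKc.isClosed.measurableSet]
      refine ContinuousOn.integrableOn_compact hKc ?_
      exact (continuous_const.mul (((hcont i 0).norm.pow 2).add
        ((hcont i k).norm.pow 2))).continuousOn
    have h1 : ‖I k i‖ ≤ ∫ z : ℍ, K.indicator (fun z =>
        M' * (‖sg (f i) (t i) 0 z‖ ^ 2 + ‖sg (f i) (t i) k z‖ ^ 2)) z := by
      refine norm_integral_le_of_norm_le hg (Filter.Eventually.of_forall fun z => ?_)
      by_cases hz : z ∈ K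
      · rw [Set.indicator_of_mem hz, norm_mul, norm_mul, hf0]
        have h2 : ‖Φ z * A3M.aa γ n k z‖ ≤ M' := (hM z hz).trans (le_max_left _ _)
        have h3 : ‖sg (f i) (t i) 0 z‖ * ‖sg (f i) (t i) k z‖ ≤
            ‖sg (f i) (t i) 0 z‖ ^ 2 + ‖sg (f i) (t i) k z‖ ^ 2 := by
          nlinarith [sq_nonneg (‖sg (f i) (t i) 0 z‖ - ‖sg (f i) (t i) k z‖),
            sq_nonneg (‖sg (f i) (t i) 0 z‖), sq_nonneg (‖sg (f i) (t i) k z‖)]
        rw [norm_mul] at h2 ⊢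
        exact mul_le_mul h2 h3 (by positivity) (le_max_right _ _)
      · rw [Set.indicator_of_notMem hz, hΦ0 z hz]
        simp
    refine h1.trans ?_
    rw [integral_indicator hKc.isClosed.measurableSet, integral_const_mul]
    refine mul_le_mul_of_nonneg_left ?_ (le_max_right _ _)
    rw [integral_add]
    · exact add_le_add (hC0 i) (hCk i)
    · exact ContinuousOn.integrableOn_compact hKc ((hcont i 0).norm.pow 2).continuousOn
    · exact ContinuousOn.integrableOn_compact hKc ((hcont i k).norm.pow 2).continuousOn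
  have h0 : (0 : ℂ) = ∑ k ∈ Finset.range n, (0 : ℂ) := by simp
  rw [h0]
  refine tendsto_finset_sum _ fun k hk => ?_
  obtain ⟨C, hC⟩ := hbound k
  have hkn : n - k ≠ 0 := by
    have := Finset.mem_range.mp hk
    omega
  have h2 : Tendsto (fun i => ((hh (t i) : ℝ) : ℂ) ^ (n - k)) atTop (𝓝 0) := by
    have h3 : Tendsto (fun i => ((hh (t i) : ℝ) : ℂ)) atTop (𝓝 ((0 : ℝ) : ℂ)) :=
      (Complex.continuous_ofReal.tendsto 0).comp (Half.hh_lim hft.lim)
    have h4 := h3.pow (n - k)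
    rw [Complex.ofReal_zero, zero_pow hkn] at h4
    exact h4
  exact h2.zero_mul_isBoundedUnder_le ⟨C, Filter.eventually_map.mpr
    (Filter.Eventually.of_forall fun i => hC i)⟩

end

end Pool.Agent.A54.Dyn
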