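import Pool.Agent.Lib.MP_a54f13_nt.Dyn.Spec

/-!
Continuity of averages in `L²` (for MP_a54f13_nt, package 2).
-/

set_option autoImplicit false

namespace Pool.Agent.A54.Dyn

open MeasureTheory Filter Topology Set
open scoped ComplexConjugate UpperHalfPlane MatrixGroups ENNReal

namespace AvgM

lemma amgm (x y : ℂ) {t : ℝ} (ht : 0 < t) : ‖x‖ₑ * ‖y‖ₑ ≤
    ENNReal.ofReal t * ‖x‖ₑ ^ 2 + ENNReal.ofReal (1 / t) * ‖y‖ₑ ^ 2 := by
  rw [← ofReal_norm, ← ofReal_norm, ← ENNReal.ofReal_pow (norm_nonneg _),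
    ← ENNReal.ofReal_pow (norm_nonneg _), ← ENNReal.ofReal_mul (norm_nonneg _),
    ← ENNReal.ofReal_mul ht.le, ← ENNReal.ofReal_mul (by positivity),
    ← ENNReal.ofReal_add (by positivity) (by positivity)]
  apply ENNReal.ofReal_le_ofReal
  have h1 : 0 ≤ (t * ‖x‖ - ‖y‖) ^ 2 / t := by positivity
  have h2 : (t * ‖x‖ - ‖y‖) ^ 2 / t = t * ‖x‖ ^ 2 - 2 * (‖x‖ * ‖y‖) + 1 / t * ‖y‖ ^ 2 := by
    field_simp
    ring
  have h3 : 0 ≤ ‖x‖ * ‖y‖ := by positivity
  linarith

lemma le_one_add_sq (x : ℂ) : ‖x‖ₑ ≤ 1 + ‖x‖ₑ ^ 2 := by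
  rw [← ofReal_norm, ← ENNReal.ofReal_pow (norm_nonneg _), ← ENNReal.ofReal_one,
    ← ENNReal.ofReal_add (by norm_num) (by positivity)]
  apply ENNReal.ofReal_le_ofReal
  nlinarith [norm_nonneg x, sq_nonneg (‖x‖ - 1)]

lemma lint_sq {α : Type*} [MeasurableSpace α] (f : α → ℂ) (μ : Measure α) :
    ∫⁻ x, ‖f x‖ₑ ^ 2 ∂μ = (eLpNorm f 2 μ) ^ 2 := by
  rw [eLpNorm_eq_lintegral_rpow_enorm_toReal (by norm_num) (by norm_num)]
  rw [ENNReal.toReal_ofNat, ← ENNReal.rpow_natCast, ← ENNReal.rpow_mul]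
  norm_num

lemma fin_eq {a t ω A B e u : ℝ} (ha : 0 ≤ a) (ht : 0 ≤ t) (hω : 0 ≤ ω) (hA : 0 ≤ A) (hB : 0 ≤ B)
    (he : 0 ≤ e) (hu : 0 ≤ u) :
    (2 * ENNReal.ofReal a * ENNReal.ofReal t + ENNReal.ofReal ω * ENNReal.ofReal a) *
      ENNReal.ofReal A + ENNReal.ofReal u * ENNReal.ofReal a * ENNReal.ofReal e +
      ENNReal.ofReal ω * ENNReal.ofReal a * ENNReal.ofReal B +
      ENNReal.ofReal u * (ENNReal.ofReal a * ENNReal.ofReal e) =
    ENNReal.ofReal ((2 * a * t + ω * a) * A + u * a * e + ω * a * B + u * (a * e)) := by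
  lift a to NNReal using ha
  lift t to NNReal using ht
  lift ω to NNReal using hω
  lift A to NNReal using hA
  lift B to NNReal using hB
  lift e to NNReal using he
  lift u to NNReal using hu
  have h : (2 * (a : ℝ) * t + ω * a) * A + u * a * e + ω * a * B + u * (a * e) =
      (((2 * a * t + ω * a) * A + u * a * e + ω * a * B + u * (a * e) : NNReal) : ℝ) := by
    push_cast
    ring
  rw [h]
  simp only [ENNReal.ofReal_coe_nnreal]
  push_cast
  ring

/-- Tonelli and the measure of balls -/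
lemma swap {K K' : Set ℍ} {r : ℝ} (V : ℝ≥0∞)
    (hV : ∀ z : ℍ, volume (Metric.closedBall z r) ≤ V)
    (hKK' : ∀ z ∈ K, ∀ z', dist z' z ≤ r → z' ∈ K') (hK : MeasurableSet K)
    (hK' : MeasurableSet K') (F : ℍ → ℝ≥0∞) (hF : Measurable F) :
    ∫⁻ z in K, ∫⁻ z' in Metric.closedBall z r, F z' ≤ V * ∫⁻ z' in K', F z' := by
  classical
  have hm : Measurable (Function.uncurry (fun (z z' : ℍ) =>
      (Metric.closedBall z r).indicator F z')) := by
    have h1 : (Function.uncurry (fun (z z' : ℍ) => (Metric.closedBall z r).indicator F z')) =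
        {x : ℍ × ℍ | dist x.2 x.1 ≤ r}.indicator (fun x => F x.2) := by
      funext x
      simp only [Function.uncurry, Set.indicator, Metric.mem_closedBall, Set.mem_ofPred_eq]
    rw [h1]
    apply Measurable.indicator (hF.comp measurable_snd)
    exact (isClosed_le (by fun_prop) continuous_const).measurableSet
  calc ∫⁻ z in K, ∫⁻ z' in Metric.closedBall z r, F z'
      = ∫⁻ z in K, ∫⁻ z', (Metric.closedBall z r).indicator F z' := by
        apply lintegral_congr
        intro z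
        rw [lintegral_indicator measurableSet_closedBall]
    _ = ∫⁻ z', ∫⁻ z in K, (Metric.closedBall z r).indicator F z' :=
        lintegral_lintegral_swap hm.aemeasurable
    _ ≤ ∫⁻ z', K'.indicator (fun z' => V * F z') z' := by
        apply lintegral_mono
        intro z'
        by_cases hz' : z' ∈ K'
        · simp only [Set.indicator_of_mem hz']
          calc ∫⁻ z in K, (Metric.closedBall z r).indicator F z'
              ≤ ∫⁻ z, (Metric.closedBall z r).indicator F z' :=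
                lintegral_mono' Measure.restrict_le_self le_rfl
            _ = ∫⁻ z, (Metric.closedBall z' r).indicator (fun _ => F z') z := by
                apply lintegral_congr
                intro z
                simp only [Set.indicator, Metric.mem_closedBall]
                rw [dist_comm]
            _ = F z' * volume (Metric.closedBall z' r) := by
                rw [lintegral_indicator measurableSet_closedBall, setLIntegral_const]
            _ ≤ V * F z' := by
                rw [mul_comm]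
                gcongr
                exact hV z'
        · simp only [Set.indicator_of_notMem hz']
          rw [nonpos_iff_eq_zero]
          have h1 : ∫⁻ z in K, (Metric.closedBall z r).indicator F z' = ∫⁻ _z in K, 0 := by
            apply setLIntegral_congr_fun hK
            intro z hz
            apply Set.indicator_of_notMem
            intro hmem
            exact hz' (hKK' z hz z' (Metric.mem_closedBall.mp hmem))
          rw [h1, lintegral_zero]
    _ = V * ∫⁻ z' in K', F z' := by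
        rw [lintegral_indicator hK', lintegral_const_mul _ hF]

lemma main (hB : StmtBall) (V : Set ℍ) (hVo : IsOpen V) (p q : ℍ → ℂ) (hp : Measurable p)
    (hq : Measurable q) (hL : ∀ K : Set ℍ, IsCompact K → K ⊆ V →
      MemLp p 2 (volume.restrict K) ∧ MemLp q 2 (volume.restrict K))
    (K : Set ℍ) (hK : IsCompact K) (hKV : K ⊆ V) (ε : ℝ) (hε : 0 < ε) :
    ∃ r₁ : ℝ, 0 < r₁ ∧ ∀ r : ℝ, 0 < r → r < r₁ →
      ∫⁻ z in K, ‖p z‖ₑ * ∫⁻ z' in Metric.closedBall z r, ‖q z' - q z‖ₑ ≤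
        ENNReal.ofReal (ε * r ^ 2) := by
  obtain ⟨C, hC, hball⟩ := hB
  obtain ⟨δ₀, hδ₀, hδV⟩ := hK.exists_cthickening_subset_open hVo hKV
  set K' := Metric.cthickening δ₀ K with hK'
  have hK'c : IsCompact K' := hK.cthickening
  have hKK' : K ⊆ K' := Metric.self_subset_cthickening K
  -- the L² norm of p
  set A : ℝ := (∫⁻ z in K, ‖p z‖ₑ ^ 2).toReal with hA
  have hAfin : ∫⁻ z in K, ‖p z‖ₑ ^ 2 ≠ ⊤ := by
    rw [lint_sq]
    exact ENNReal.pow_ne_top (hL K hK hKV).1.eLpNorm_ne_top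
  have hA' : ∫⁻ z in K, ‖p z‖ₑ ^ 2 = ENNReal.ofReal A := (ENNReal.ofReal_toReal hAfin).symm
  have hA0 : 0 ≤ A := ENNReal.toReal_nonneg
  set B : ℝ := (volume K).toReal with hBdef
  have hBfin : volume K ≠ ⊤ := hK.measure_lt_top.ne
  have hB' : volume K = ENNReal.ofReal B := (ENNReal.ofReal_toReal hBfin).symm
  have hB0 : 0 ≤ B := ENNReal.toReal_nonneg
  -- parameters
  set t : ℝ := ε / (8 * C * (A + 1)) with ht
  have ht0 : 0 < t := by positivity
  set η : ℝ := Real.sqrt (ε * t / (8 * C)) with hη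
  have hη0 : 0 < η := by positivity
  have hη2 : η ^ 2 = ε * t / (8 * C) := Real.sq_sqrt (by positivity)
  set ω : ℝ := ε / (4 * C * (B + A + 1)) with hω
  have hω0 : 0 < ω := by positivity
  -- approximation of q
  obtain ⟨g, hgc, hgn, hgcont, -⟩ := (hL K' hK'c hδV).2.exists_hasCompactSupport_eLpNorm_sub_le
    (p := 2) (by norm_num) (ε := ENNReal.ofReal η) (by simpa using hη0)
  have hgu : UniformContinuous g := hgc.uniformContinuous_of_continuous hgcont
  obtain ⟨ρ, hρ0, hρ⟩ := Metric.uniformContinuous_iff.mp hgu ω hω0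
  have hgm : Measurable g := hgcont.measurable
  set e : ℍ → ℂ := fun z => q z - g z with he
  have hem : Measurable e := hq.sub hgm
  have hE : ∫⁻ z in K', ‖e z‖ₑ ^ 2 ≤ ENNReal.ofReal (η ^ 2) := by
    rw [lint_sq, ENNReal.ofReal_pow hη0.le]
    gcongr
    exact hgn
  have hEK : ∫⁻ z in K, ‖e z‖ₑ ^ 2 ≤ ENNReal.ofReal (η ^ 2) :=
    (lintegral_mono_set hKK').trans hE
  refine ⟨min (min δ₀ ρ) 1, by positivity, fun r hr0 hr => ?_⟩
  have hr1 : r ≤ 1 := (hr.trans_le (min_le_right _ _)).le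
  have hrδ : r ≤ δ₀ := (hr.trans_le ((min_le_left _ _).trans (min_le_left _ _))).le
  have hrρ : r < ρ := hr.trans_le ((min_le_left _ _).trans (min_le_right _ _))
  set W : ℝ≥0∞ := ENNReal.ofReal (C * r ^ 2) with hW
  have hVb : ∀ z : ℍ, volume (Metric.closedBall z r) ≤ W := fun z => (hball z r hr0 hr1).1
  have hnear : ∀ z ∈ K, ∀ z' : ℍ, dist z' z ≤ r → z' ∈ K' := by
    intro z hz z' hz'
    exact Metric.mem_cthickening_of_dist_le z' z δ₀ K hz (hz'.trans hrδ)
  -- pointwise bound of the inner integral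
  have hinner : ∀ z ∈ K, ‖p z‖ₑ * ∫⁻ z' in Metric.closedBall z r, ‖q z' - q z‖ₑ ≤
      (2 * W * ENNReal.ofReal t + ENNReal.ofReal ω * W) * ‖p z‖ₑ ^ 2 +
        ENNReal.ofReal (1 / t) * W * ‖e z‖ₑ ^ 2 + ENNReal.ofReal ω * W +
        ENNReal.ofReal (1 / t) * ∫⁻ z' in Metric.closedBall z r, ‖e z'‖ₑ ^ 2 := by
    intro z hz
    have h1 : ∫⁻ z' in Metric.closedBall z r, ‖q z' - q z‖ₑ ≤
        ∫⁻ z' in Metric.closedBall z r, (‖e z'‖ₑ + (ENNReal.ofReal ω + ‖e z‖ₑ)) := by
      apply setLIntegral_mono' measurableSet_closedBall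
      intro z' hz'
      have h2 : q z' - q z = e z' + ((g z' - g z) + -e z) := by
        simp only [he]; ring
      have h3 : ‖g z' - g z‖ₑ ≤ ENNReal.ofReal ω := by
        rw [← ofReal_norm]
        apply ENNReal.ofReal_le_ofReal
        rw [← dist_eq_norm]
        exact (hρ ((Metric.mem_closedBall.mp hz').trans_lt hrρ)).le
      rw [h2]
      refine (enorm_add_le _ _).trans ?_
      gcongr
      refine (enorm_add_le _ _).trans ?_
      rw [enorm_neg]
      gcongr
    have h2 : ∫⁻ z' in Metric.closedBall z r, (‖e z'‖ₑ + (ENNReal.ofReal ω + ‖e z‖ₑ)) =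
        (∫⁻ z' in Metric.closedBall z r, ‖e z'‖ₑ) +
          (ENNReal.ofReal ω + ‖e z‖ₑ) * volume (Metric.closedBall z r) := by
      rw [lintegral_add_right _ measurable_const, setLIntegral_const]
    have h3 : ‖p z‖ₑ * ∫⁻ z' in Metric.closedBall z r, ‖e z'‖ₑ ≤
        ENNReal.ofReal t * ‖p z‖ₑ ^ 2 * W +
          ENNReal.ofReal (1 / t) * ∫⁻ z' in Metric.closedBall z r, ‖e z'‖ₑ ^ 2 := by
      rw [← lintegral_const_mul _ hem.enorm]
      calc ∫⁻ z' in Metric.closedBall z r, ‖p z‖ₑ * ‖e z'‖ₑ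
          ≤ ∫⁻ z' in Metric.closedBall z r, (ENNReal.ofReal t * ‖p z‖ₑ ^ 2 +
              ENNReal.ofReal (1 / t) * ‖e z'‖ₑ ^ 2) := lintegral_mono fun z' => amgm _ _ ht0
        _ = ENNReal.ofReal t * ‖p z‖ₑ ^ 2 * volume (Metric.closedBall z r) +
              ENNReal.ofReal (1 / t) * ∫⁻ z' in Metric.closedBall z r, ‖e z'‖ₑ ^ 2 := by
            rw [lintegral_add_left measurable_const, setLIntegral_const,
              lintegral_const_mul _ (hem.enorm.pow_const 2)]
        _ ≤ _ := by gcongr; exact hVb z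
    calc ‖p z‖ₑ * ∫⁻ z' in Metric.closedBall z r, ‖q z' - q z‖ₑ
        ≤ ‖p z‖ₑ * ((∫⁻ z' in Metric.closedBall z r, ‖e z'‖ₑ) +
          (ENNReal.ofReal ω + ‖e z‖ₑ) * volume (Metric.closedBall z r)) := by
          rw [← h2]; gcongr
      _ ≤ ‖p z‖ₑ * (∫⁻ z' in Metric.closedBall z r, ‖e z'‖ₑ) +
          (ENNReal.ofReal ω * ‖p z‖ₑ + ‖p z‖ₑ * ‖e z‖ₑ) * W := by
          rw [mul_add]
          refine add_le_add le_rfl ?_
          rw [← mul_assoc]
          calc ‖p z‖ₑ * (ENNReal.ofReal ω + ‖e z‖ₑ) * volume (Metric.closedBall z r)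
              ≤ ‖p z‖ₑ * (ENNReal.ofReal ω + ‖e z‖ₑ) * W := by gcongr; exact hVb z
            _ = _ := by ring
      _ ≤ (ENNReal.ofReal t * ‖p z‖ₑ ^ 2 * W +
          ENNReal.ofReal (1 / t) * ∫⁻ z' in Metric.closedBall z r, ‖e z'‖ₑ ^ 2) +
          (ENNReal.ofReal ω * (1 + ‖p z‖ₑ ^ 2) + (ENNReal.ofReal t * ‖p z‖ₑ ^ 2 +
            ENNReal.ofReal (1 / t) * ‖e z‖ₑ ^ 2)) * W := by
          gcongr
          · exact le_one_add_sq _
          · exact amgm _ _ ht0
      _ = _ := by ring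
  have hpm : Measurable (fun z => ‖p z‖ₑ ^ 2) := hp.enorm.pow_const 2
  have hem2 : Measurable (fun z => ‖e z‖ₑ ^ 2) := hem.enorm.pow_const 2
  calc ∫⁻ z in K, ‖p z‖ₑ * ∫⁻ z' in Metric.closedBall z r, ‖q z' - q z‖ₑ
      ≤ ∫⁻ z in K, ((2 * W * ENNReal.ofReal t + ENNReal.ofReal ω * W) * ‖p z‖ₑ ^ 2 +
        ENNReal.ofReal (1 / t) * W * ‖e z‖ₑ ^ 2 + ENNReal.ofReal ω * W +
        ENNReal.ofReal (1 / t) * ∫⁻ z' in Metric.closedBall z r, ‖e z'‖ₑ ^ 2) :=
        setLIntegral_mono' hK.measurableSet hinner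
    _ = (2 * W * ENNReal.ofReal t + ENNReal.ofReal ω * W) * (∫⁻ z in K, ‖p z‖ₑ ^ 2) +
        ENNReal.ofReal (1 / t) * W * (∫⁻ z in K, ‖e z‖ₑ ^ 2) + ENNReal.ofReal ω * W * volume K +
        ENNReal.ofReal (1 / t) *
          (∫⁻ z in K, ∫⁻ z' in Metric.closedBall z r, ‖e z'‖ₑ ^ 2) := by
        rw [lintegral_add_left (by fun_prop), lintegral_add_left (by fun_prop),
          lintegral_add_left (by fun_prop), lintegral_const_mul _ hpm, lintegral_const_mul _ hem2,
          setLIntegral_const, lintegral_const_mul' _ _ ENNReal.ofReal_ne_top]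
    _ ≤ (2 * W * ENNReal.ofReal t + ENNReal.ofReal ω * W) * ENNReal.ofReal A +
        ENNReal.ofReal (1 / t) * W * ENNReal.ofReal (η ^ 2) +
        ENNReal.ofReal ω * W * ENNReal.ofReal B +
        ENNReal.ofReal (1 / t) * (W * ENNReal.ofReal (η ^ 2)) := by
        rw [hA', hB']
        gcongr
        exact (swap W hVb hnear hK.measurableSet hK'c.measurableSet _ hem2).trans (by gcongr)
    _ = ENNReal.ofReal ((2 * (C * r ^ 2) * t + ω * (C * r ^ 2)) * A +
        1 / t * (C * r ^ 2) * η ^ 2 + ω * (C * r ^ 2) * B + 1 / t * ((C * r ^ 2) * η ^ 2)) := by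
        rw [hW]
        exact fin_eq (by positivity) ht0.le hω0.le hA0 hB0 (by positivity) (by positivity)
    _ ≤ ENNReal.ofReal (ε * r ^ 2) := by
        apply ENNReal.ofReal_le_ofReal
        rw [hη2]
        have h1 : 1 / t * (C * r ^ 2) * (ε * t / (8 * C)) = ε * r ^ 2 / 8 := by
          field_simp
        have h2 : 1 / t * ((C * r ^ 2) * (ε * t / (8 * C))) = ε * r ^ 2 / 8 := by
          field_simp
        rw [h1, h2]
        have h3 : 2 * (C * r ^ 2) * t * A ≤ ε * r ^ 2 / 4 := by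
          have : 2 * (C * r ^ 2) * t * A = ε * r ^ 2 / 4 * (A / (A + 1)) := by
            rw [ht]; field_simp; ring
          rw [this]
          have h4 : A / (A + 1) ≤ 1 := by
            rw [div_le_one (by positivity)]; linarith
          have h5 : 0 ≤ ε * r ^ 2 / 4 := by positivity
          nlinarith
        have h4 : ω * (C * r ^ 2) * A + ω * (C * r ^ 2) * B ≤ ε * r ^ 2 / 4 := by
          have : ω * (C * r ^ 2) * A + ω * (C * r ^ 2) * B =
              ε * r ^ 2 / 4 * ((B + A) / (B + A + 1)) := by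
            rw [hω]; field_simp; ring
          rw [this]
          have h4 : (B + A) / (B + A + 1) ≤ 1 := by
            rw [div_le_one (by positivity)]; linarith
          have h5 : 0 ≤ ε * r ^ 2 / 4 := by positivity
          nlinarith
        have h5 : 0 ≤ ε * r ^ 2 := by positivity
        nlinarith

end AvgM

theorem stmtAvg (hB : StmtBall) : StmtAvg :=
  fun V hV p q hp hq hL K hK hKV ε hε => AvgM.main hB V hV p q hp hq hL K hK hKV ε hε

end Pool.Agent.A54.Dyn
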