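import Pool.Agent.Lib.MP_a54f13_nt.Dyn.Spec

/-!
MP_a54f13_nt: `StmtBin` (binomial coefficients near the centre) and `StmtCes` (Cesaro means of the
Fourier modes tend to zero if there are no atoms).
-/

set_option autoImplicit false

namespace Pool.Agent.A54.Dyn.BinCesM

open MeasureTheory Filter Topology Set
open scoped ComplexConjugate UpperHalfPlane MatrixGroups ENNReal

lemma central (m : ℕ) (hm : 1 ≤ m) : (16 : ℝ) ^ m ≤ 4 * m * (Nat.centralBinom m : ℝ) ^ 2 := by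
  induction m, hm using Nat.le_induction with
  | base => norm_num [Nat.centralBinom_eq_two_mul_choose, Nat.choose]
  | succ m hm ih =>
    have h1 := Nat.succ_mul_centralBinom_succ m
    have h2 : ((m : ℝ) + 1) * (Nat.centralBinom (m + 1) : ℝ) =
        2 * (2 * m + 1) * (Nat.centralBinom m : ℝ) := by exact_mod_cast h1
    have hm' : (0 : ℝ) < (m : ℝ) + 1 := by positivity
    have h3 : (Nat.centralBinom (m + 1) : ℝ) = 2 * (2 * m + 1) * (Nat.centralBinom m : ℝ) / (m + 1) := by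
      rw [eq_div_iff hm'.ne', ← h2]; ring
    rw [h3, pow_succ]
    push_cast
    have h4 : 4 * ((m : ℝ) + 1) * (2 * (2 * m + 1) * (Nat.centralBinom m : ℝ) / (m + 1)) ^ 2 =
        16 * ((2 * m + 1) ^ 2 / (m + 1)) * (Nat.centralBinom m : ℝ) ^ 2 := by
      field_simp; ring
    rw [h4]
    have h5 : 4 * (m : ℝ) ≤ (2 * m + 1) ^ 2 / (m + 1) := by
      rw [le_div_iff₀ hm']; nlinarith
    have h6 : 4 * (m : ℝ) * (Nat.centralBinom m : ℝ) ^ 2 ≤
        (2 * m + 1) ^ 2 / (m + 1) * (Nat.centralBinom m : ℝ) ^ 2 :=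
      mul_le_mul_of_nonneg_right h5 (by positivity)
    linarith

lemma step (m j : ℕ) (hj : (j + 1) ^ 2 ≤ m) :
    (Nat.choose (2 * m) (m + j) : ℝ) * Real.exp (-((4 * j + 2) / m)) ≤
      (Nat.choose (2 * m) (m + (j + 1)) : ℝ) := by
  have hjm : j ≤ m := by nlinarith
  have h1 := Nat.choose_succ_right_eq (2 * m) (m + j)
  have h2 : (2 * m - (m + j) : ℕ) = m - j := by omega
  rw [h2] at h1
  have h3 : (Nat.choose (2 * m) (m + (j + 1)) : ℝ) * (m + j + 1) =
      (Nat.choose (2 * m) (m + j) : ℝ) * (m - j) := by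
    have := congrArg (Nat.cast (R := ℝ)) h1
    push_cast [Nat.cast_sub hjm] at this
    rw [← add_assoc]
    exact this
  have hjr : ((j : ℝ) + 1) ^ 2 ≤ m := by exact_mod_cast hj
  have hm0 : (0 : ℝ) < m := by nlinarith [(Nat.cast_nonneg j : (0 : ℝ) ≤ j)]
  have hmj : (m : ℝ) / 2 ≤ m - j := by nlinarith [(Nat.cast_nonneg j : (0 : ℝ) ≤ j)]
  have hmj0 : (0 : ℝ) < m - j := by linarith
  have h4 : (m + j + 1 : ℝ) / (m - j) ≤ Real.exp ((4 * j + 2) / m) := by
    have h5 : (m + j + 1 : ℝ) / (m - j) = (2 * j + 1) / (m - j) + 1 := by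
      field_simp; ring
    have h6 : (2 * j + 1 : ℝ) / (m - j) ≤ (4 * j + 2) / m := by
      rw [div_le_div_iff₀ hmj0 hm0]
      nlinarith [(Nat.cast_nonneg j : (0 : ℝ) ≤ j)]
    calc (m + j + 1 : ℝ) / (m - j) = (2 * j + 1) / (m - j) + 1 := h5
      _ ≤ (4 * j + 2) / m + 1 := by linarith
      _ ≤ _ := Real.add_one_le_exp _
  have hp : (0 : ℝ) < m + j + 1 := by positivity
  rw [Real.exp_neg]
  have h7 : (Nat.choose (2 * m) (m + (j + 1)) : ℝ) =
      (Nat.choose (2 * m) (m + j) : ℝ) * ((m - j) / (m + j + 1)) := by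
    rw [← mul_div_assoc, eq_div_iff hp.ne']; exact h3
  rw [h7]
  apply mul_le_mul_of_nonneg_left _ (Nat.cast_nonneg _)
  rw [inv_le_comm₀ (Real.exp_pos _) (by positivity), inv_div]
  exact h4

lemma chain (m : ℕ) (k : ℕ) (hk : k ^ 2 ≤ m) :
    (Nat.centralBinom m : ℝ) * Real.exp (-(2 * k ^ 2 / m)) ≤ (Nat.choose (2 * m) (m + k) : ℝ) := by
  induction k with
  | zero => simp [Nat.centralBinom_eq_two_mul_choose]
  | succ k ih =>
    have h1 : k ^ 2 ≤ m := le_trans (Nat.pow_le_pow_left (Nat.le_succ k) 2) hk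
    have h2 := ih h1
    have h3 := step m k hk
    refine le_trans ?_ h3
    have h4 : Real.exp (-(2 * ((k + 1 : ℕ) : ℝ) ^ 2 / m)) =
        Real.exp (-(2 * k ^ 2 / m)) * Real.exp (-((4 * k + 2) / m)) := by
      rw [← Real.exp_add]; congr 1; push_cast; ring
    rw [h4, ← mul_assoc]
    exact mul_le_mul_of_nonneg_right h2 (Real.exp_pos _).le

theorem bin : ∃ c : ℝ, 0 < c ∧ ∀ m k : ℕ, 1 ≤ m → k ^ 2 ≤ m →
  c / Real.sqrt m ≤ (Nat.choose (2 * m) (m + k) : ℝ) / 4 ^ m := by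
  refine ⟨Real.exp (-2) / 2, by positivity, fun m k hm hk => ?_⟩
  have hm0 : (0 : ℝ) < m := by exact_mod_cast hm
  have h1 := chain m k hk
  have h2 := central m hm
  have hs := Real.sqrt_pos.mpr hm0
  have h3 : (4 : ℝ) ^ m ≤ 2 * Real.sqrt m * Nat.centralBinom m := by
    apply (sq_le_sq₀ (by positivity) (by positivity)).mp
    have : (2 * Real.sqrt m * (Nat.centralBinom m : ℝ)) ^ 2 = 4 * m * (Nat.centralBinom m : ℝ) ^ 2 := by
      rw [mul_pow, mul_pow, Real.sq_sqrt hm0.le]; ring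
    rw [this]
    calc ((4 : ℝ) ^ m) ^ 2 = 16 ^ m := by rw [← pow_mul, mul_comm m 2, pow_mul]; norm_num
      _ ≤ _ := h2
  have h4 : Real.exp (-2) ≤ Real.exp (-(2 * k ^ 2 / m)) := by
    apply Real.exp_le_exp.mpr
    have h5 : (k : ℝ) ^ 2 ≤ m := by exact_mod_cast hk
    have h6 : 2 * (k : ℝ) ^ 2 / m ≤ 2 := by
      rw [div_le_iff₀ hm0]; linarith
    linarith
  rw [div_le_div_iff₀ hs (by positivity)]
  have h7 : (Nat.centralBinom m : ℝ) * Real.exp (-2) ≤ (Nat.choose (2 * m) (m + k) : ℝ) :=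
    le_trans (mul_le_mul_of_nonneg_left h4 (Nat.cast_nonneg _)) h1
  calc Real.exp (-2) / 2 * 4 ^ m ≤ Real.exp (-2) / 2 * (2 * Real.sqrt m * Nat.centralBinom m) :=
        mul_le_mul_of_nonneg_left h3 (by positivity)
    _ = (Nat.centralBinom m : ℝ) * Real.exp (-2) * Real.sqrt m := by ring
    _ ≤ _ := mul_le_mul_of_nonneg_right h7 hs.le


/-- the term of `HH` of frequency `n` -/
lemma term {V : Set ℍ} {ρ : ℤ → ℍ → ℂ} {μ : Measure G} (hM : Mod V ρ μ) (hX : Ext V ρ μ)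
    {K : Set ℍ} (hK : IsCompact K) (hKV : K ⊆ V) (n : ℤ) :
    Integrable (fun v => ze v ^ n * ρ n (base v)) (μ.restrict (base ⁻¹' K)) ∧
      ∫ v in base ⁻¹' K, ze v ^ n * ρ n (base v) ∂μ = ((∫ z in K, ‖ρ n z‖ ^ 2 : ℝ) : ℂ) := by
  have hKm : MeasurableSet K := hK.measurableSet
  have hbK : MeasurableSet (base ⁻¹' K) := measurable_base hKm
  have hL : MemLp (K.indicator (ρ n)) 2 volume :=
    (memLp_indicator_iff_restrict hKm).mpr (hM.loc n K hK hKV)
  obtain ⟨h1, h2, h3⟩ := hX.int (-n) K (K.indicator (ρ n)) hK hKV ((hM.meas n).indicator hKm)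
    (fun z hz => indicator_of_notMem hz _) hL
  rw [neg_neg] at h1 h3
  have e1 : (fun g => K.indicator (ρ n) (base g) * ze g ^ n) =
      (base ⁻¹' K).indicator (fun v => ze v ^ n * ρ n (base v)) := by
    funext g
    by_cases hg : base g ∈ K
    · rw [indicator_of_mem hg, indicator_of_mem (show g ∈ base ⁻¹' K from hg), mul_comm]
    · rw [indicator_of_notMem hg, indicator_of_notMem (show g ∉ base ⁻¹' K from hg), zero_mul]
  rw [e1] at h1 h3
  refine ⟨(integrable_indicator_iff hbK).mp h1, ?_⟩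
  rw [integral_indicator hbK] at h3
  rw [h3]
  have e2 : (fun z => K.indicator (ρ n) z * ρ (-n) z) =
      K.indicator (fun z => ρ n z * ρ (-n) z) := by
    funext z
    by_cases hz : z ∈ K
    · rw [indicator_of_mem hz, indicator_of_mem hz]
    · rw [indicator_of_notMem hz, indicator_of_notMem hz, zero_mul]
  rw [e2, integral_indicator hKm, ← integral_complex_ofReal]
  apply integral_congr_ae
  have h4 := ae_mono (Measure.restrict_mono hKV le_rfl) (hX.cj n)
  filter_upwards [h4] with z hz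
  rw [hz, Complex.mul_conj, Complex.normSq_eq_norm_sq]

lemma int_HH {V : Set ℍ} {ρ : ℤ → ℍ → ℂ} {μ : Measure G} (hM : Mod V ρ μ) (hX : Ext V ρ μ)
    {K : Set ℍ} (hK : IsCompact K) (hKV : K ⊆ V) (m : ℕ) :
    Integrable (fun v => HH ρ m v) (μ.restrict (base ⁻¹' K)) ∧
      ∫ v in base ⁻¹' K, HH ρ m v ∂μ = ∑ j ∈ Finset.range (2 * m + 1),
        ((Nat.choose (2 * m) j : ℝ) / 4 ^ m) * ∫ z in K, ‖ρ ((j : ℤ) - m) z‖ ^ 2 := by
  have hF : ∀ j ∈ Finset.range (2 * m + 1), Integrable (fun v => ((Nat.choose (2 * m) j : ℂ) / 4 ^ m) *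
      (ze v ^ ((j : ℤ) - m) * ρ ((j : ℤ) - m) (base v))) (μ.restrict (base ⁻¹' K)) :=
    fun j _ => (term hM hX hK hKV ((j : ℤ) - m)).1.const_mul _
  have hS := integrable_finsetSum _ hF
  have e : (fun v => HH ρ m v) = fun v => RCLike.re (∑ j ∈ Finset.range (2 * m + 1),
      ((Nat.choose (2 * m) j : ℂ) / 4 ^ m) * (ze v ^ ((j : ℤ) - m) * ρ ((j : ℤ) - m) (base v))) := by
    funext v
    unfold HH
    simp only [mul_assoc]
    rfl
  rw [e]
  refine ⟨hS.re, ?_⟩
  rw [integral_re hS, integral_finsetSum _ hF]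
  have e2 : ∀ j ∈ Finset.range (2 * m + 1), ∫ v in base ⁻¹' K, ((Nat.choose (2 * m) j : ℂ) / 4 ^ m) *
      (ze v ^ ((j : ℤ) - m) * ρ ((j : ℤ) - m) (base v)) ∂μ =
      ((((Nat.choose (2 * m) j : ℝ) / 4 ^ m) * ∫ z in K, ‖ρ ((j : ℤ) - m) z‖ ^ 2 : ℝ) : ℂ) := by
    intro j _
    rw [integral_const_mul, (term hM hX hK hKV ((j : ℤ) - m)).2]
    push_cast
    rfl
  rw [Finset.sum_congr rfl e2, ← Complex.ofReal_sum]
  exact Complex.ofReal_re _

end Pool.Agent.A54.Dyn.BinCesM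

namespace Pool.Agent.A54.Dyn

open MeasureTheory Filter Topology Set
open scoped ComplexConjugate UpperHalfPlane MatrixGroups ENNReal

theorem stmtBin : StmtBin := BinCesM.bin

theorem stmtCes (hE : StmtExt) (hH : StmtHH) (hB : StmtBin) : StmtCes := by
  intro V ρ μ hI hM hA K hK hKV
  obtain ⟨c, hc, hbin⟩ := hB
  have hX := hE V ρ μ hI hM
  obtain ⟨hHm, ham, _, _, hfin⟩ := hH V ρ μ hI hM
  obtain ⟨_, hlim⟩ := hfin K hK hKV
  have hKm : MeasurableSet K := hK.measurableSet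
  -- the `L¹` norms tend to zero
  have h0 : ∀ m, ∫⁻ v in base ⁻¹' K, ‖HH ρ m v - 2 * aa ρ v‖ₑ ∂μ =
      ∫⁻ v in base ⁻¹' K, ‖HH ρ m v‖ₑ ∂μ := by
    intro m
    apply lintegral_congr_ae
    have h1 := ae_mono (Measure.restrict_mono (preimage_mono hKV) le_rfl) hA
    filter_upwards [h1] with v hv
    rw [hv, mul_zero, sub_zero]
  simp only [h0] at hlim
  have hlim2 : Tendsto (fun m => ∫ v in base ⁻¹' K, ‖HH ρ m v‖ ∂μ) atTop (𝓝 0) := by
    have h1 := (ENNReal.tendsto_toReal ENNReal.zero_ne_top).comp hlim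
    rw [ENNReal.toReal_zero] at h1
    refine h1.congr (fun m => ?_)
    rw [integral_norm_eq_lintegral_enorm (BinCesM.int_HH hM hX hK hKV m).1.1]
    rfl
  have hsq : Tendsto (fun N : ℕ => N ^ 2) atTop atTop := tendsto_pow_atTop (by norm_num)
  have hlim3 := (hlim2.comp hsq).const_mul c⁻¹
  rw [mul_zero] at hlim3
  refine squeeze_zero' (Eventually.of_forall fun N => ?_) ?_ hlim3
  · apply div_nonneg _ (Nat.cast_nonneg _)
    exact Finset.sum_nonneg fun n _ => integral_nonneg fun z => by positivity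
  · filter_upwards [eventually_ge_atTop 1] with N hN
    have hNr : (0 : ℝ) < N := by exact_mod_cast hN
    set m := N ^ 2 with hm
    have hm1 : 1 ≤ m := Nat.one_le_pow _ _ hN
    have hNm : N ≤ m := by rw [hm]; nlinarith
    obtain ⟨hi, hint⟩ := BinCesM.int_HH hM hX hK hKV m
    have hnn : ∀ n : ℤ, 0 ≤ ∫ z in K, ‖ρ n z‖ ^ 2 := fun n => integral_nonneg fun z => by positivity
    have hsqrt : Real.sqrt m = N := by
      rw [hm]; push_cast; exact Real.sqrt_sq hNr.le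
    have h1 : c / N * ∑ n ∈ Finset.range N, ∫ z in K, ‖ρ n z‖ ^ 2 ≤
        ∫ v in base ⁻¹' K, HH ρ m v ∂μ := by
      rw [hint, Finset.mul_sum]
      have h2 : ∑ n ∈ Finset.range N, c / N * ∫ z in K, ‖ρ n z‖ ^ 2 ≤
          ∑ n ∈ Finset.range N, ((Nat.choose (2 * m) (m + n) : ℝ) / 4 ^ m) *
            ∫ z in K, ‖ρ (((m + n : ℕ) : ℤ) - m) z‖ ^ 2 := by
        apply Finset.sum_le_sum
        intro n hn
        have hn' : n < N := Finset.mem_range.mp hn
        have e1 : ((m + n : ℕ) : ℤ) - m = n := by push_cast; ring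
        rw [e1]
        apply mul_le_mul_of_nonneg_right _ (hnn n)
        have := hbin m n hm1 (by rw [hm]; exact Nat.pow_le_pow_left hn'.le 2)
        rwa [hsqrt] at this
      refine h2.trans ?_
      have h3 : ∑ n ∈ Finset.range N, ((Nat.choose (2 * m) (m + n) : ℝ) / 4 ^ m) *
            ∫ z in K, ‖ρ (((m + n : ℕ) : ℤ) - m) z‖ ^ 2 =
          ∑ j ∈ (Finset.range N).map (addLeftEmbedding m), ((Nat.choose (2 * m) j : ℝ) / 4 ^ m) *
            ∫ z in K, ‖ρ ((j : ℤ) - m) z‖ ^ 2 := by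
        rw [Finset.sum_map]; rfl
      rw [h3]
      apply Finset.sum_le_sum_of_subset_of_nonneg
      · intro j hj
        rw [Finset.mem_map] at hj
        obtain ⟨n, hn, rfl⟩ := hj
        have hn' : n < N := Finset.mem_range.mp hn
        rw [Finset.mem_range]
        change m + n < 2 * m + 1
        omega
      · intro j _ _
        exact mul_nonneg (by positivity) (hnn _)
    have h4 : ∫ v in base ⁻¹' K, HH ρ m v ∂μ ≤ ∫ v in base ⁻¹' K, ‖HH ρ m v‖ ∂μ :=
      integral_mono hi hi.norm fun v => Real.le_norm_self _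
    have h5 := h1.trans h4
    change _ ≤ c⁻¹ * ∫ v in base ⁻¹' K, ‖HH ρ m v‖ ∂μ
    rw [← div_eq_inv_mul, le_div_iff₀ hc]
    calc _ = c / N * ∑ n ∈ Finset.range N, ∫ z in K, ‖ρ n z‖ ^ 2 := by ring
      _ ≤ _ := h5

end Pool.Agent.A54.Dyn
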