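import Pool.Agent.Lib.MP_a54f13_nt.Dyn.Spec

/-!
Proof of `StmtCross`: hyperbolic coordinates near the anti-diagonal in the plane.

On `N = {x y < 0}` put `S = √(-xy)` (invariant under `ph t`) and `w = log |y/x|` (shifted by `2 t`).
Averaging over the flow shows `∫_D (1/S) dJ₁ < ∞` for `D = N ∩ {|w| ≤ h} ∩ Sc (1/32)`, and
`J₀ {|w| ≤ k(S), S ∈ Q} ≤ (2/h) ∫_{D, S ∈ Q} k(S) dJ₁`.
-/

set_option autoImplicit false

namespace Pool.Agent.A54.Dyn.CrossM

open MeasureTheory Filter Topology Set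
open scoped ENNReal

noncomputable section

/-- the geometric mean of the absolute values of the coordinates -/
def S (p : ℝ × ℝ) : ℝ := Real.exp ((Real.log p.1 + Real.log p.2) / 2)

/-- the logarithm of the slope -/
def w (p : ℝ × ℝ) : ℝ := Real.log p.2 - Real.log p.1

/-- points with coordinates of opposite signs -/
def N : Set (ℝ × ℝ) := {p | p.1 * p.2 < 0}

lemma S_pos (p : ℝ × ℝ) : 0 < S p := Real.exp_pos _

lemma measurable_S : Measurable S := by
  unfold S
  exact Real.measurable_exp.comp (((Real.measurable_log.comp measurable_fst).add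
    (Real.measurable_log.comp measurable_snd)).div_const 2)

lemma measurable_w : Measurable w :=
  (Real.measurable_log.comp measurable_snd).sub (Real.measurable_log.comp measurable_fst)

lemma measurableSet_N : MeasurableSet N :=
  measurableSet_lt (measurable_fst.mul measurable_snd) measurable_const

lemma measurableSet_Sc (L : ℝ) : MeasurableSet (Sc L) :=
  (measurableSet_le (measurable_fst.abs) measurable_const).inter
    (measurableSet_le (measurable_snd.abs) measurable_const)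

lemma measurable_ph2 : Measurable (fun x : ℝ × (ℝ × ℝ) => ph x.1 x.2) := by
  unfold ph
  fun_prop

lemma N_ne {p : ℝ × ℝ} (hp : p ∈ N) : p.1 ≠ 0 ∧ p.2 ≠ 0 := by
  have h : p.1 * p.2 < 0 := hp
  constructor
  · intro h0; rw [h0] at h; simp at h
  · intro h0; rw [h0] at h; simp at h

lemma N_ph {t : ℝ} {p : ℝ × ℝ} : ph t p ∈ N ↔ p ∈ N := by
  have h : (ph t p).1 * (ph t p).2 = p.1 * p.2 := by
    have h1 : Real.exp (-t) * Real.exp t = 1 := by rw [← Real.exp_add]; simp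
    change (Real.exp (-t) * p.1) * (Real.exp t * p.2) = _
    linear_combination (p.1 * p.2) * h1
  change (ph t p).1 * (ph t p).2 < 0 ↔ p.1 * p.2 < 0
  rw [h]

lemma log1_ph {t : ℝ} {p : ℝ × ℝ} (hp : p ∈ N) : Real.log (ph t p).1 = -t + Real.log p.1 := by
  change Real.log (Real.exp (-t) * p.1) = _
  rw [Real.log_mul (Real.exp_pos _).ne' (N_ne hp).1, Real.log_exp]

lemma log2_ph {t : ℝ} {p : ℝ × ℝ} (hp : p ∈ N) : Real.log (ph t p).2 = t + Real.log p.2 := by
  change Real.log (Real.exp t * p.2) = _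
  rw [Real.log_mul (Real.exp_pos _).ne' (N_ne hp).2, Real.log_exp]

lemma S_ph {t : ℝ} {p : ℝ × ℝ} (hp : p ∈ N) : S (ph t p) = S p := by
  unfold S
  rw [log1_ph hp, log2_ph hp]
  congr 1
  ring

lemma w_ph {t : ℝ} {p : ℝ × ℝ} (hp : p ∈ N) : w (ph t p) = w p + 2 * t := by
  unfold w
  rw [log1_ph hp, log2_ph hp]
  ring

lemma ph_ph (t : ℝ) (p : ℝ × ℝ) : ph (-t) (ph t p) = p := by
  have h1 : Real.exp (-t) * Real.exp t = 1 := by rw [← Real.exp_add]; simp
  ext
  · change Real.exp (- -t) * (Real.exp (-t) * p.1) = p.1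
    rw [neg_neg]
    linear_combination p.1 * h1
  · change Real.exp (-t) * (Real.exp t * p.2) = p.2
    linear_combination p.2 * h1

lemma S_exp_p {p : ℝ × ℝ} (hp : p ∈ N) : S p * Real.exp (w p / 2) = |p.2| := by
  unfold S w
  rw [← Real.exp_add, ← Real.exp_log (abs_pos.2 (N_ne hp).2), Real.log_abs]
  congr 1
  ring

lemma S_exp_m {p : ℝ × ℝ} (hp : p ∈ N) : S p * Real.exp (-(w p / 2)) = |p.1| := by
  unfold S w
  rw [← Real.exp_add, ← Real.exp_log (abs_pos.2 (N_ne hp).1), Real.log_abs]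
  congr 1
  ring

lemma S_sq {p : ℝ × ℝ} (hp : p ∈ N) : S p ^ 2 = -(p.1 * p.2) := by
  have h1 := S_exp_p hp
  have h2 := S_exp_m hp
  have h3 : Real.exp (w p / 2) * Real.exp (-(w p / 2)) = 1 := by rw [← Real.exp_add]; simp
  have h4 : |p.1| * |p.2| = -(p.1 * p.2) := by
    rw [← abs_mul, abs_of_neg hp]
  rw [← h4, ← h1, ← h2]
  linear_combination (-(S p ^ 2)) * h3

lemma abs_add_eq {p : ℝ × ℝ} (hp : p ∈ N) : |p.1 + p.2| = |(|p.2| - |p.1|)| := by
  have h : p.1 * p.2 < 0 := hp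
  rcases mul_neg_iff.1 h with ⟨h1, h2⟩ | ⟨h1, h2⟩
  · rw [abs_of_pos h1, abs_of_neg h2, ← abs_neg]
    congr 1; ring
  · rw [abs_of_neg h1, abs_of_pos h2]
    congr 1; ring

lemma abs_sub_eq {p : ℝ × ℝ} (hp : p ∈ N) : |p.1 - p.2| = |p.1| + |p.2| := by
  have h : p.1 * p.2 < 0 := hp
  rcases mul_neg_iff.1 h with ⟨h1, h2⟩ | ⟨h1, h2⟩
  · rw [abs_of_pos h1, abs_of_neg h2, abs_of_pos (by linarith)]
    ring
  · rw [abs_of_neg h1, abs_of_pos h2, abs_of_neg (by linarith)]
    ring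

lemma sum_eq {p : ℝ × ℝ} (hp : p ∈ N) : |p.1 + p.2| = 2 * S p * |Real.sinh (w p / 2)| := by
  rw [abs_add_eq hp, ← S_exp_p hp, ← S_exp_m hp, ← mul_sub, abs_mul, abs_of_pos (S_pos p),
    Real.sinh_eq, abs_div, abs_of_pos (by norm_num : (0 : ℝ) < 2)]
  ring

lemma le_sum {p : ℝ × ℝ} (hp : p ∈ N) : S p * |w p| ≤ |p.1 + p.2| := by
  rw [sum_eq hp, Real.abs_sinh]
  have h1 : |w p / 2| ≤ Real.sinh |w p / 2| := Real.self_le_sinh_iff.2 (abs_nonneg _)
  have h2 : |w p / 2| = |w p| / 2 := by rw [abs_div, abs_of_pos (by norm_num : (0 : ℝ) < 2)]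
  rw [h2] at h1 ⊢
  have h3 := S_pos p
  nlinarith

lemma sum_le {p : ℝ × ℝ} (hp : p ∈ N) (hw : |w p| ≤ 1) : |p.1 + p.2| ≤ 2 * (S p * |w p|) := by
  have h2 : |w p / 2| = |w p| / 2 := by rw [abs_div, abs_of_pos (by norm_num : (0 : ℝ) < 2)]
  have h1 : |w p / 2| ≤ 1 := by rw [h2]; linarith
  have h3 := Real.abs_exp_sub_one_le h1
  have h4 := Real.abs_exp_sub_one_le (x := -(w p / 2)) (by rwa [abs_neg])
  rw [abs_neg] at h4
  rw [abs_add_eq hp, ← S_exp_p hp, ← S_exp_m hp, ← mul_sub, abs_mul, abs_of_pos (S_pos p)]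
  have h5 : |Real.exp (w p / 2) - Real.exp (-(w p / 2))| ≤ 2 * |w p| := by
    have : Real.exp (w p / 2) - Real.exp (-(w p / 2)) =
      (Real.exp (w p / 2) - 1) - (Real.exp (-(w p / 2)) - 1) := by ring
    rw [this]
    refine (abs_sub _ _).trans ?_
    rw [h2] at h3 h4
    linarith
  have h6 := S_pos p
  nlinarith

/-- Fubini for the flow -/
lemma fub (J : Measure (ℝ × ℝ)) [SFinite J] (B : Set (ℝ × ℝ)) (hB : MeasurableSet B) (a : ℝ)
    (e : ℝ → ℝ) (he : Measurable e) :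
    ∫⁻ t in Icc (-a) a, J (ph (e t) ⁻¹' B) = ∫⁻ p, volume ({t | ph (e t) p ∈ B} ∩ Icc (-a) a) ∂J := by
  have hm : Measurable (fun x : ℝ × (ℝ × ℝ) => ph (e x.1) x.2) :=
    measurable_ph2.comp ((he.comp measurable_fst).prodMk measurable_snd)
  have hE : MeasurableSet ((fun x : ℝ × (ℝ × ℝ) => ph (e x.1) x.2) ⁻¹' B) := hm hB
  have h1 := Measure.prod_apply (μ := volume.restrict (Icc (-a) a)) (ν := J) hE
  have h2 := Measure.prod_apply_symm (μ := volume.restrict (Icc (-a) a)) (ν := J) hE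
  rw [h1] at h2
  refine h2.trans ?_
  refine lintegral_congr fun p => ?_
  rw [Measure.restrict_apply' measurableSet_Icc]
  rfl

/-- the domain of integration -/
def D (h : ℝ) : Set (ℝ × ℝ) := {p | p ∈ N ∧ |w p| ≤ h ∧ p ∈ Sc (1 / 32)}

lemma measurableSet_D (h : ℝ) : MeasurableSet (D h) :=
  measurableSet_N.inter ((measurableSet_le measurable_w.abs measurable_const).inter
    (measurableSet_Sc _))

lemma exp_half_le {t : ℝ} (ht : |t| ≤ 1 / 2) : Real.exp t ≤ 2 := by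
  have h1 : Real.exp t ≤ Real.exp (1 / 2) := Real.exp_le_exp.2 ((le_abs_self t).trans ht)
  have h2 : Real.exp (1 / 2) * Real.exp (1 / 2) = Real.exp 1 := by
    rw [← Real.exp_add]; norm_num
  have h3 := Real.exp_one_lt_d9
  have h4 := Real.exp_pos (1 / 2)
  nlinarith

lemma ph_Sc {t L : ℝ} {p : ℝ × ℝ} (ht : |t| ≤ 1 / 2) (hp : p ∈ Sc L) : ph t p ∈ Sc (2 * L) := by
  obtain ⟨h1, h2⟩ := hp
  have e1 := exp_half_le ht
  have e2 := exp_half_le (t := -t) (by rwa [abs_neg])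
  constructor
  · change |Real.exp (-t) * p.1| ≤ _
    rw [abs_mul, abs_of_pos (Real.exp_pos _)]
    exact mul_le_mul e2 h1 (abs_nonneg _) (by norm_num)
  · change |Real.exp t * p.2| ≤ _
    rw [abs_mul, abs_of_pos (Real.exp_pos _)]
    exact mul_le_mul e1 h2 (abs_nonneg _) (by norm_num)

lemma ph_Sc' {t L : ℝ} {p : ℝ × ℝ} (ht : |t| ≤ 1 / 2) (hp : ph t p ∈ Sc L) : p ∈ Sc (2 * L) := by
  have := ph_Sc (t := -t) (by rwa [abs_neg]) hp
  rwa [ph_ph] at this

/-- the weighted measure -/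
def nu (J : Measure (ℝ × ℝ)) : Measure (ℝ × ℝ) := J.withDensity fun p => ENNReal.ofReal (S p)⁻¹

lemma nu_apply (J : Measure (ℝ × ℝ)) {E : Set (ℝ × ℝ)} (hE : MeasurableSet E) :
    nu J E = ∫⁻ p in E, ENNReal.ofReal (S p)⁻¹ ∂J := withDensity_apply _ hE

lemma key1a {J₁ J₂ : Measure (ℝ × ℝ)} [SFinite J₁] {t₀ C r h : ℝ} (hh : 0 < h) (hh1 : h ≤ 1 / 2)
    (hht : h ≤ t₀) (hr : 0 < r)
    (hA : ∀ t : ℝ, |t| ≤ t₀ → ∀ R : Set (ℝ × ℝ), MeasurableSet R → R ⊆ Sc (1 / 8) →
      ph t ⁻¹' R ⊆ Sc (1 / 8) → J₁ (ph t ⁻¹' R) ≤ J₂ R)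
    (hB : J₂ ({p | |p.1 + p.2| < r} ∩ Sc (1 / 8)) ≤ ENNReal.ofReal (C * r)) :
    nu J₁ (D h ∩ {p | r / 4 ≤ h * S p}) ≤ ENNReal.ofReal (8 * h * C) := by
  set A : Set (ℝ × ℝ) := {p | p ∈ N ∧ S p * |w p| ≤ r / 4 ∧ r / 4 ≤ h * S p ∧ p ∈ Sc (1 / 16)}
    with hAd
  have hAm : MeasurableSet A :=
    measurableSet_N.inter ((measurableSet_le (measurable_S.mul measurable_w.abs)
      measurable_const).inter ((measurableSet_le measurable_const
        (measurable_const.mul measurable_S)).inter (measurableSet_Sc _)))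
  have hA1 : A ⊆ {p | |p.1 + p.2| < r} ∩ Sc (1 / 8) := by
    rintro p ⟨h1, h2, h3, h4⟩
    have hS := S_pos p
    have hw : |w p| ≤ h := by
      by_contra hc
      push Not at hc
      nlinarith
    refine ⟨?_, h4.1.trans (by norm_num), h4.2.trans (by norm_num)⟩
    have := sum_le h1 (hw.trans (by linarith))
    change |p.1 + p.2| < r
    linarith
  have hA2 : ∀ t : ℝ, |t| ≤ h → J₁ (ph t ⁻¹' A) ≤ ENNReal.ofReal (C * r) := by
    intro t ht
    refine (hA t (ht.trans hht) A hAm (hA1.trans inter_subset_right) ?_).trans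
      ((measure_mono hA1).trans hB)
    intro p hp
    have := ph_Sc' (ht.trans hh1) (hp.2.2.2)
    norm_num at this
    exact this
  have h1 : ∫⁻ t in Icc (-h) h, J₁ (ph t ⁻¹' A) ≤ ENNReal.ofReal (C * r) * ENNReal.ofReal (2 * h) := by
    calc ∫⁻ t in Icc (-h) h, J₁ (ph t ⁻¹' A) ≤ ∫⁻ t in Icc (-h) h, ENNReal.ofReal (C * r) := by
          refine setLIntegral_mono measurable_const fun t ht => hA2 t (abs_le.2 ht)
      _ = ENNReal.ofReal (C * r) * ENNReal.ofReal (2 * h) := by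
          rw [setLIntegral_const, Real.volume_Icc]
          congr 2
          ring
  have h2 := fub J₁ A hAm h id measurable_id
  simp only [id] at h2
  rw [h2] at h1
  have h3 : ∫⁻ p in D h ∩ {p | r / 4 ≤ h * S p}, ENNReal.ofReal (r / 4) * ENNReal.ofReal (S p)⁻¹ ∂J₁ ≤
      ∫⁻ p, volume ({t | ph t p ∈ A} ∩ Icc (-h) h) ∂J₁ := by
    have hDm : MeasurableSet (D h ∩ {p | r / 4 ≤ h * S p}) :=
      (measurableSet_D h).inter (measurableSet_le measurable_const
        (measurable_const.mul measurable_S))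
    rw [← lintegral_indicator hDm]
    refine lintegral_mono fun p => ?_
    by_cases hp : p ∈ D h ∩ {p | r / 4 ≤ h * S p}
    · rw [indicator_of_mem hp]
      obtain ⟨⟨hN, hw, hSc⟩, hS⟩ := hp
      have hS' : r / 4 ≤ h * S p := hS
      have hSp := S_pos p
      have hk : r / 4 * (S p)⁻¹ ≤ h := by
        rw [← div_eq_mul_inv, div_le_iff₀ hSp]
        exact hS'
      have hk0 : 0 < r / 4 * (S p)⁻¹ := by positivity
      have hsub : Icc ((-w p - r / 4 * (S p)⁻¹) / 2) ((-w p + r / 4 * (S p)⁻¹) / 2) ⊆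
          {t | ph t p ∈ A} ∩ Icc (-h) h := by
        intro t ht
        obtain ⟨ht1, ht2⟩ := ht
        obtain ⟨hw1, hw2⟩ := abs_le.1 hw
        have htI : t ∈ Icc (-h) h := ⟨by linarith, by linarith⟩
        refine ⟨⟨N_ph.2 hN, ?_, ?_, ?_⟩, htI⟩
        · rw [S_ph hN, w_ph hN]
          have : |w p + 2 * t| ≤ r / 4 * (S p)⁻¹ := abs_le.2 ⟨by linarith, by linarith⟩
          calc S p * |w p + 2 * t| ≤ S p * (r / 4 * (S p)⁻¹) :=
                mul_le_mul_of_nonneg_left this hSp.le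
            _ = r / 4 := by field_simp
        · rw [S_ph hN]; exact hS'
        · have := ph_Sc ((abs_le.2 htI).trans hh1) hSc
          norm_num at this
          exact this
      rw [← ENNReal.ofReal_mul (by positivity)]
      refine le_trans (le_of_eq ?_) (measure_mono hsub)
      rw [Real.volume_Icc]
      congr 1
      ring
    · rw [indicator_of_notMem hp]
      exact zero_le
  rw [lintegral_const_mul _ (by exact ENNReal.measurable_ofReal.comp measurable_S.inv)] at h3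
  have h4 := h3.trans h1
  have hDm : MeasurableSet (D h ∩ {p | r / 4 ≤ h * S p}) :=
    (measurableSet_D h).inter (measurableSet_le measurable_const
      (measurable_const.mul measurable_S))
  rw [← nu_apply J₁ hDm, ← ENNReal.ofReal_mul' (by positivity)] at h4
  have h5 : ENNReal.ofReal (C * r * (2 * h)) = ENNReal.ofReal (r / 4) * ENNReal.ofReal (8 * h * C) := by
    rw [← ENNReal.ofReal_mul (by positivity)]
    congr 1
    ring
  rw [h5] at h4
  exact (ENNReal.mul_le_mul_iff_right (by simpa using hr) ENNReal.ofReal_ne_top).1 h4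

lemma key1 {J₁ J₂ : Measure (ℝ × ℝ)} [SFinite J₁] {t₀ C r₀ h : ℝ} (hh : 0 < h) (hh1 : h ≤ 1 / 2)
    (hht : h ≤ t₀) (hr₀ : 0 < r₀)
    (hA : ∀ t : ℝ, |t| ≤ t₀ → ∀ R : Set (ℝ × ℝ), MeasurableSet R → R ⊆ Sc (1 / 8) →
      ph t ⁻¹' R ⊆ Sc (1 / 8) → J₁ (ph t ⁻¹' R) ≤ J₂ R)
    (hB : ∀ r : ℝ, 0 < r → r < r₀ →
      J₂ ({p | |p.1 + p.2| < r} ∩ Sc (1 / 8)) ≤ ENNReal.ofReal (C * r)) :
    nu J₁ (D h) ≤ ENNReal.ofReal (8 * h * C) := by
  have hU : D h = ⋃ n : ℕ, (D h ∩ {p | (r₀ / (n + 2)) / 4 ≤ h * S p}) := by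
    rw [← inter_iUnion]
    refine (inter_eq_left.2 fun p _ => ?_).symm
    rw [mem_iUnion]
    obtain ⟨n, hn⟩ := exists_nat_gt (r₀ / (4 * (h * S p)))
    refine ⟨n, ?_⟩
    change (r₀ / (n + 2)) / 4 ≤ h * S p
    have hSp := S_pos p
    rw [div_lt_iff₀ (by positivity)] at hn
    rw [div_div, div_le_iff₀ (by positivity)]
    nlinarith [mul_pos hh hSp]
  have hmono : Monotone fun n : ℕ => (D h ∩ {p | (r₀ / (n + 2)) / 4 ≤ h * S p}) := by
    intro m n hmn
    refine inter_subset_inter_right _ fun p hp => ?_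
    have hp' : (r₀ / (m + 2)) / 4 ≤ h * S p := hp
    refine le_trans ?_ hp'
    have : (m : ℝ) ≤ n := by exact_mod_cast hmn
    gcongr
  rw [hU, hmono.measure_iUnion]
  refine iSup_le fun n => ?_
  refine key1a hh hh1 hht (by positivity) hA (hB _ (by positivity) ?_)
  rw [div_lt_iff₀ (by positivity)]
  nlinarith [(Nat.cast_nonneg n : (0 : ℝ) ≤ n)]

lemma key2 {J₀ J₁ : Measure (ℝ × ℝ)} [SFinite J₁] {t₀ h κ : ℝ} (hh : 0 < h) (hh1 : h ≤ 1 / 2)
    (hht : h ≤ t₀)
    (hA : ∀ t : ℝ, |t| ≤ t₀ → ∀ R : Set (ℝ × ℝ), MeasurableSet R → R ⊆ Sc (1 / 8) →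
      ph t ⁻¹' R ⊆ Sc (1 / 8) → J₀ (ph t ⁻¹' R) ≤ J₁ R)
    (k : ℝ → ℝ) (hk : Measurable k) (Q : Set ℝ) (hQ : MeasurableSet Q)
    (hkQ : ∀ s ∈ Q, k s ≤ h / 2) (hκ : 0 ≤ κ) (hkκ : ∀ s ∈ Q, 0 < s → k s ≤ κ * s⁻¹) :
    J₀ {p | p ∈ N ∧ |w p| ≤ k (S p) ∧ S p ∈ Q ∧ p ∈ Sc (1 / 64)} ≤
      ENNReal.ofReal (2 / h * κ) * nu J₁ (D h ∩ {p | S p ∈ Q}) := by
  set B : Set (ℝ × ℝ) := {p | p ∈ N ∧ |w p| ≤ k (S p) ∧ S p ∈ Q ∧ p ∈ Sc (1 / 64)} with hBd
  have hBm : MeasurableSet B :=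
    measurableSet_N.inter ((measurableSet_le measurable_w.abs (hk.comp measurable_S)).inter
      ((measurable_S hQ).inter (measurableSet_Sc _)))
  have hDm : MeasurableSet (D h ∩ {p | S p ∈ Q}) := (measurableSet_D h).inter (measurable_S hQ)
  have h1 : ∀ t : ℝ, |t| ≤ h / 4 → J₀ B ≤ J₁ (ph (-t) ⁻¹' B) := by
    intro t ht
    have ht' : |t| ≤ t₀ := by linarith
    have h2 : ph t ⁻¹' (ph (-t) ⁻¹' B) = B := by
      ext p
      simp only [mem_preimage, ph_ph]
    have h3 := hA t ht' (ph (-t) ⁻¹' B) ?_ ?_ ?_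
    · rwa [h2] at h3
    · exact (measurable_ph2.comp (measurable_const.prodMk measurable_id)) hBm
    · intro p hp
      have := ph_Sc' (t := -t) (by rw [abs_neg]; linarith) (hp.2.2.2)
      exact ⟨this.1.trans (by norm_num), this.2.trans (by norm_num)⟩
    · rw [h2]
      intro p hp
      exact ⟨hp.2.2.2.1.trans (by norm_num), hp.2.2.2.2.trans (by norm_num)⟩
  have h2 : J₀ B * ENNReal.ofReal (h / 2) ≤ ∫⁻ t in Icc (-(h / 4)) (h / 4), J₁ (ph (-t) ⁻¹' B) := by
    calc J₀ B * ENNReal.ofReal (h / 2) = ∫⁻ t in Icc (-(h / 4)) (h / 4), J₀ B := by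
          rw [setLIntegral_const, Real.volume_Icc]
          congr 2
          ring
      _ ≤ _ := setLIntegral_mono' measurableSet_Icc fun t ht => h1 t (abs_le.2 ht)
  rw [fub J₁ B hBm (h / 4) (fun t => -t) measurable_neg] at h2
  have h3 : ∫⁻ p, volume ({t | ph (-t) p ∈ B} ∩ Icc (-(h / 4)) (h / 4)) ∂J₁ ≤
      ∫⁻ p in D h ∩ {p | S p ∈ Q}, ENNReal.ofReal κ * ENNReal.ofReal (S p)⁻¹ ∂J₁ := by
    rw [← lintegral_indicator hDm]
    refine lintegral_mono fun p => ?_
    by_cases hp : p ∈ D h ∩ {p | S p ∈ Q}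
    · rw [indicator_of_mem hp]
      obtain ⟨⟨hN, hw, hSc⟩, hS⟩ := hp
      have hSQ : S p ∈ Q := hS
      have hsub : {t | ph (-t) p ∈ B} ∩ Icc (-(h / 4)) (h / 4) ⊆
          Icc ((w p - κ * (S p)⁻¹) / 2) ((w p + κ * (S p)⁻¹) / 2) := by
        rintro t ⟨⟨_, ht, _, _⟩, _⟩
        rw [S_ph hN, w_ph hN] at ht
        obtain ⟨ht1, ht2⟩ := abs_le.1 (ht.trans (hkκ _ hSQ (S_pos p)))
        exact ⟨by linarith, by linarith⟩
      refine (measure_mono hsub).trans (le_of_eq ?_)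
      rw [Real.volume_Icc, ← ENNReal.ofReal_mul hκ]
      congr 1
      ring
    · rw [indicator_of_notMem hp]
      refine le_of_eq ?_
      have : {t | ph (-t) p ∈ B} ∩ Icc (-(h / 4)) (h / 4) = ∅ := by
        rw [eq_empty_iff_forall_notMem]
        rintro t ⟨⟨ht0, ht1, ht2, ht3⟩, ht4⟩
        apply hp
        have hN : p ∈ N := N_ph.1 ht0
        rw [S_ph hN] at ht1 ht2
        rw [w_ph hN] at ht1
        have ht5 := abs_le.2 ht4
        have ht6 := ht1.trans (hkQ _ ht2)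
        refine ⟨⟨hN, ?_, ?_⟩, ht2⟩
        · obtain ⟨h6, h7⟩ := abs_le.1 ht6
          obtain ⟨h8, h9⟩ := ht4
          exact abs_le.2 ⟨by linarith, by linarith⟩
        · have := ph_Sc' (t := -t) (by rw [abs_neg]; linarith) ht3
          norm_num at this
          exact this
      rw [this, measure_empty]
  rw [lintegral_const_mul _ (by exact ENNReal.measurable_ofReal.comp measurable_S.inv),
    ← nu_apply J₁ hDm] at h3
  have h4 := h2.trans h3
  have h5 : ENNReal.ofReal (2 / h) * ENNReal.ofReal (h / 2) = 1 := by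
    rw [← ENNReal.ofReal_mul (by positivity)]
    have : 2 / h * (h / 2) = 1 := by field_simp
    rw [this, ENNReal.ofReal_one]
  calc J₀ B = ENNReal.ofReal (2 / h) * (J₀ B * ENNReal.ofReal (h / 2)) := by
        rw [mul_comm (J₀ B), ← mul_assoc, h5, one_mul]
    _ ≤ ENNReal.ofReal (2 / h) * (ENNReal.ofReal κ * nu J₁ (D h ∩ {p | S p ∈ Q})) := by gcongr
    _ = _ := by rw [← mul_assoc, ← ENNReal.ofReal_mul (by positivity)]

lemma tail_small {J : Measure (ℝ × ℝ)} {h : ℝ} (hfin : nu J (D h) < ⊤) {ε : ℝ} (hε : 0 < ε) :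
    ∃ δ : ℝ, 0 < δ ∧ nu J (D h ∩ {p | S p ≤ δ}) ≤ ENNReal.ofReal ε := by
  have hm : ∀ n : ℕ, MeasurableSet (D h ∩ {p | S p ≤ 1 / ((n : ℝ) + 1)}) := fun n =>
    (measurableSet_D h).inter (measurableSet_le measurable_S measurable_const)
  have hanti : Antitone fun n : ℕ => (D h ∩ {p | S p ≤ 1 / ((n : ℝ) + 1)}) := by
    intro m n hmn
    refine inter_subset_inter_right _ fun p hp => ?_
    have hp' : S p ≤ 1 / ((n : ℝ) + 1) := hp
    refine le_trans hp' ?_
    have : (m : ℝ) ≤ n := by exact_mod_cast hmn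
    gcongr
  have ht := tendsto_measure_iInter_atTop (μ := nu J) (fun n => (hm n).nullMeasurableSet) hanti
    ⟨0, ((measure_mono inter_subset_left).trans_lt hfin).ne⟩
  have hI : ⋂ n : ℕ, (D h ∩ {p | S p ≤ 1 / ((n : ℝ) + 1)}) = ∅ := by
    rw [eq_empty_iff_forall_notMem]
    intro p hp
    rw [mem_iInter] at hp
    obtain ⟨n, hn⟩ := exists_nat_one_div_lt (S_pos p)
    exact absurd (hp n).2 (not_le.2 hn)
  rw [hI, measure_empty] at ht
  obtain ⟨n, hn⟩ := (ht.eventually (gt_mem_nhds (ENNReal.ofReal_pos.2 hε))).exists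
  exact ⟨1 / ((n : ℝ) + 1), by positivity, hn.le⟩

end

end Pool.Agent.A54.Dyn.CrossM

namespace Pool.Agent.A54.Dyn

open MeasureTheory Filter Topology Set CrossM
open scoped ENNReal

theorem stmtCross : StmtCross := by
  intro J₀ J₁ J₂ t₀ C r₀ ht₀ hC hr₀ hJ₀ hJ₁ hJ₂ hA hB
  have : IsFiniteMeasure J₁ := ⟨hJ₁⟩
  set h : ℝ := min t₀ (1 / 2) with hhd
  have hh : 0 < h := lt_min ht₀ (by norm_num)
  have hh1 : h ≤ 1 / 2 := min_le_right _ _
  have hht : h ≤ t₀ := min_le_left _ _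
  have hfin : nu J₁ (D h) < ⊤ :=
    (key1 hh hh1 hht hr₀ (fun t ht R h1 h2 h3 => (hA t ht R h1 h2 h3).2) hB).trans_lt
      ENNReal.ofReal_lt_top
  have hA0 : ∀ t : ℝ, |t| ≤ t₀ → ∀ R : Set (ℝ × ℝ), MeasurableSet R → R ⊆ Sc (1 / 8) →
      ph t ⁻¹' R ⊆ Sc (1 / 8) → J₀ (ph t ⁻¹' R) ≤ J₁ R :=
    fun t ht R h1 h2 h3 => (hA t ht R h1 h2 h3).1
  constructor
  · refine ⟨1 + 4 / h, by positivity, fun ε hε => ?_⟩
    obtain ⟨δ, hδ, hδ'⟩ := tail_small hfin (ε := ε * h / 2) (by positivity)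
    refine ⟨min δ (1 / 64), min δ (1 / 64), by positivity, by positivity, fun r hr hr1 => ?_⟩
    have hrδ : r < δ := hr1.trans_le (min_le_left _ _)
    have hr64 : r < 1 / 64 := hr1.trans_le (min_le_right _ _)
    have hk2 := key2 (κ := r) hh hh1 hht hA0 (fun s => r * s⁻¹)
      (measurable_const.mul measurable_inv) {s | 0 < s ∧ r * s⁻¹ ≤ h / 2 ∧ s ≤ δ}
      ((measurableSet_lt measurable_const measurable_id).inter
        ((measurableSet_le (measurable_const.mul measurable_inv) measurable_const).inter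
          (measurableSet_le measurable_id measurable_const)))
      (fun s hs => hs.2.1) hr.le (fun s _ _ => le_rfl)
    refine le_trans (measure_mono ?_) (hk2.trans ?_)
    · rintro p ⟨h1, h2, h3⟩
      have h3a : |p.1 - p.2| ≤ δ := h3.trans (min_le_left _ _)
      have h3b : |p.1 - p.2| ≤ 1 / 64 := h3.trans (min_le_right _ _)
      have h4 : 4 / h * r > 0 := by positivity
      have hlt : |p.1 + p.2| < |p.1 - p.2| := by nlinarith
      have hsq : (p.1 + p.2) ^ 2 < (p.1 - p.2) ^ 2 := sq_lt_sq.2 hlt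
      have hN : p ∈ N := by
        change p.1 * p.2 < 0
        nlinarith
      have hSp := S_pos p
      have hS2 := S_sq hN
      have hSw := le_sum hN
      have hSlow : 2 * r ≤ h * S p := by
        have h5 : (p.1 + p.2) ^ 2 ≤ r ^ 2 := by
          rw [← sq_abs]
          exact pow_le_pow_left₀ (abs_nonneg _) h1.le 2
        have h6 : ((1 + 4 / h) * r) ^ 2 ≤ (p.1 - p.2) ^ 2 := by
          rw [← sq_abs (p.1 - p.2)]
          exact pow_le_pow_left₀ (by positivity) h2 2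
        have h7 : 4 * S p ^ 2 ≥ ((1 + 4 / h) * r) ^ 2 - r ^ 2 := by nlinarith
        have h8 : ((1 + 4 / h) * r) ^ 2 - r ^ 2 ≥ (4 / h * r) ^ 2 := by
          have : 0 < 4 / h * r * r := by positivity
          nlinarith
        have h9 : (2 / h * r) ^ 2 ≤ S p ^ 2 := by
          have : (4 / h * r) ^ 2 = 4 * (2 / h * r) ^ 2 := by ring
          nlinarith
        have h10 : 2 / h * r ≤ S p := le_of_sq_le_sq h9 hSp.le
        calc 2 * r = h * (2 / h * r) := by field_simp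
          _ ≤ h * S p := by gcongr
      have hSup : S p ≤ δ := by
        have h5 : 4 * S p ^ 2 ≤ (p.1 - p.2) ^ 2 := by nlinarith
        have h6 : (p.1 - p.2) ^ 2 ≤ δ ^ 2 := by
          rw [← sq_abs]
          exact pow_le_pow_left₀ (abs_nonneg _) h3a 2
        have h7 : S p ^ 2 ≤ δ ^ 2 := by nlinarith
        exact le_of_sq_le_sq h7 hδ.le
      have habs := abs_sub_eq hN
      refine ⟨hN, ?_, ⟨hSp, ?_, hSup⟩, ?_, ?_⟩
      · rw [← div_eq_mul_inv, le_div_iff₀ hSp]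
        nlinarith
      · rw [← div_eq_mul_inv, div_le_iff₀ hSp]
        linarith
      · linarith [abs_nonneg p.2]
      · linarith [abs_nonneg p.1]
    · calc ENNReal.ofReal (2 / h * r) *
            nu J₁ (D h ∩ {p | S p ∈ {s | 0 < s ∧ r * s⁻¹ ≤ h / 2 ∧ s ≤ δ}})
          ≤ ENNReal.ofReal (2 / h * r) * ENNReal.ofReal (ε * h / 2) := by
            gcongr
            exact (measure_mono (inter_subset_inter_right _ fun p hp => hp.2.2)).trans hδ'
        _ = ENNReal.ofReal (ε * r) := by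
            rw [← ENNReal.ofReal_mul (by positivity)]
            congr 1
            field_simp
  · refine ⟨Real.exp (h / 2), by rw [← Real.exp_zero]; exact Real.exp_lt_exp.2 (by positivity),
      fun ε hε => ?_⟩
    obtain ⟨δ, hδ, hδ'⟩ := tail_small hfin hε
    refine ⟨min δ (1 / 64), by positivity, fun r hr hr1 => ?_⟩
    have hrδ : r < δ := hr1.trans_le (min_le_left _ _)
    have hr64 : r < 1 / 64 := hr1.trans_le (min_le_right _ _)
    have hk2 := key2 (κ := h / 2 * r) hh hh1 hht hA0 (fun s => h / 2)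
      measurable_const {s | s ≤ r} (measurableSet_le measurable_id measurable_const)
      (fun s hs => le_rfl) (by positivity) (fun s hs hs0 => by
        have hs' : s ≤ r := hs
        rw [← div_eq_mul_inv, le_div_iff₀ hs0]
        gcongr)
    refine le_trans (measure_mono ?_) (hk2.trans ?_)
    · rintro p ⟨⟨h1, h2, h3⟩, h4, h5⟩
      have hN : p ∈ N := h1
      have hne := N_ne hN
      refine ⟨hN, ?_, ?_, ?_, ?_⟩
      · unfold w
        rw [abs_le]
        have e1 : Real.log p.1 ≤ h / 2 + Real.log p.2 := by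
          have := Real.log_le_log (abs_pos.2 hne.1) h2
          rwa [Real.log_mul (Real.exp_pos _).ne' (abs_pos.2 hne.2).ne', Real.log_exp,
            Real.log_abs, Real.log_abs] at this
        have e2 : Real.log p.2 ≤ h / 2 + Real.log p.1 := by
          have := Real.log_le_log (abs_pos.2 hne.2) h3
          rwa [Real.log_mul (Real.exp_pos _).ne' (abs_pos.2 hne.1).ne', Real.log_exp,
            Real.log_abs, Real.log_abs] at this
        exact ⟨by linarith, by linarith⟩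
      · change S p ≤ r
        have h6 : S p ^ 2 ≤ r ^ 2 := by
          rw [S_sq hN, ← abs_of_neg (a := p.1 * p.2) hN, abs_mul, sq]
          exact mul_le_mul h4 h5 (abs_nonneg _) hr.le
        exact le_of_sq_le_sq h6 hr.le
      · exact h4.trans hr64.le
      · exact h5.trans hr64.le
    · calc ENNReal.ofReal (2 / h * (h / 2 * r)) * nu J₁ (D h ∩ {p | S p ∈ {s | s ≤ r}})
          ≤ ENNReal.ofReal (2 / h * (h / 2 * r)) * ENNReal.ofReal ε := by
            gcongr
            refine (measure_mono (inter_subset_inter_right _ fun p hp => ?_)).trans hδ'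
            have hp' : S p ≤ r := hp
            exact hp'.trans hrδ.le
        _ = ENNReal.ofReal (ε * r) := by
            rw [← ENNReal.ofReal_mul (by positivity)]
            congr 1
            field_simp

end Pool.Agent.A54.Dyn
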