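import Pool.Agent.Lib.MP_a54f13_nt.Dyn.Spec3
import Pool.Agent.Lib.MP_a54f13_nt.Loc
import Pool.Agent.Lib.MP_a54f13_nt.Ratio

/-!
Third moment, local version, with no ergodicity assumption.
-/

set_option autoImplicit false

namespace Pool.Agent.A54.Dyn.CubeSM

open MeasureTheory Filter Topology Set
open scoped ContDiff ComplexConjugate
open Pool.Agent.A54.Rel Pool.Agent.A54.LocGen Pool.Agent.A54.Loc

noncomputable section

variable {V : Set ℂ} {q : ℂ → ℝ} {h : ℕ → ℝ} {f : ℕ → ℂ → ℝ} {r : ℕ → ℂ → ℂ}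

/-- cubic moments in terms of the third moment -/
lemma cube_mom (hC : StmtCubicS) (hS : Seq V q h f) (hB : L4Bdd V f) (n : ℕ) {φ : ℂ → ℝ}
    (hφ : TestR V φ) :
    Tendsto (fun i => (∫ z, φ z * (f i z * nn q (h i) (f i) n z)) -
      cc n * ∫ z, φ z * f i z ^ 3) atTop (𝓝 0) := by
  have h1 := hC V q h f hS hB n _ hφ.toTest
  have h2 := ((Complex.continuous_re.tendsto _).comp h1).const_mul ((-1 : ℝ) ^ n)
  simp only [Complex.zero_re, mul_zero] at h2
  refine h2.congr fun i => ?_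
  have e1 : ∫ z, (φ z : ℂ) * (ss q (h i) (f i) 0 z * ss q (h i) (f i) n z *
      ss q (h i) (f i) (-n) z) =
      (((-1) ^ n * ∫ z, φ z * (f i z * nn q (h i) (f i) n z) : ℝ) : ℂ) := by
    rw [← integral_const_mul, ← integral_complex_ofReal]
    congr 1; funext z
    rw [mul_assoc (ss q (h i) (f i) 0 z), ss_mul_neg hS.pot n]
    change (φ z : ℂ) * ((f i z : ℂ) * _) = _
    push_cast; ring
  have e2 : ∫ z, (φ z : ℂ) * (f i z : ℂ) ^ 3 = ((∫ z, φ z * f i z ^ 3 : ℝ) : ℂ) := by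
    rw [← integral_complex_ofReal]
    congr 1; funext z; push_cast; ring
  have e3 : (if 3 ∣ n then 1 else -(1 / 2 : ℂ)) = ((kap n : ℝ) : ℂ) := by
    unfold kap
    split_ifs <;> push_cast <;> ring
  simp only [Function.comp_apply]
  rw [e1, e2, e3, ← Complex.ofReal_mul, ← Complex.ofReal_sub, Complex.ofReal_re, mul_sub,
    ← mul_assoc, ← mul_assoc, ← mul_pow]
  unfold cc
  simp

lemma cube_XX (hC : StmtCubicS) (hS : Seq V q h f) (hB : L4Bdd V f) (N : ℕ) {φ : ℂ → ℝ}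
    (hφ : TestR V φ) :
    Tendsto (fun i => (∫ z, φ z * (f i z * XX q (h i) (f i) cc N z)) -
      (∑ n ∈ Finset.Icc 1 N, cc n * cc n) * ∫ z, φ z * f i z ^ 3) atTop (𝓝 0) := by
  have h1 : Tendsto (fun i => ∑ n ∈ Finset.Icc 1 N, cc n *
      ((∫ z, φ z * (f i z * nn q (h i) (f i) n z)) - cc n * ∫ z, φ z * f i z ^ 3)) atTop
      (𝓝 (∑ n ∈ Finset.Icc 1 N, cc n * 0)) :=
    tendsto_finsetSum _ fun n _ => (cube_mom hC hS hB n hφ).const_mul _
  simp only [mul_zero, Finset.sum_const_zero] at h1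
  refine h1.congr fun i => ?_
  have hint : ∀ n, Integrable (fun z => cc n * (φ z * (f i z * nn q (h i) (f i) n z))) := fun n =>
    (integrable_testR hφ ((hS.sol i).smooth.continuous.mul
      (continuous_nn hS.pot (hS.sol i).smooth _ n))).const_mul _
  have e : ∀ z, φ z * (f i z * XX q (h i) (f i) cc N z) =
      ∑ n ∈ Finset.Icc 1 N, cc n * (φ z * (f i z * nn q (h i) (f i) n z)) := by
    intro z
    unfold XX
    rw [Finset.mul_sum, Finset.mul_sum]
    refine Finset.sum_congr rfl fun n _ => ?_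
    ring
  simp_rw [e]
  rw [integral_finsetSum _ fun n _ => hint n, Finset.sum_mul, ← Finset.sum_sub_distrib]
  refine Finset.sum_congr rfl fun n _ => ?_
  rw [integral_const_mul]
  ring

lemma cube_core {b m ε : ℝ} (hm : 0 < m) (hε : 0 < ε) (hb : b < (m * ε / 2) ^ 2)
    {A B F : ℕ → ℝ} (hA : ∀ i, A i ^ 2 ≤ B i) (hB : Tendsto B atTop (𝓝 b))
    (hAF : Tendsto (fun i => A i - m * F i) atTop (𝓝 0)) : ∀ᶠ i in atTop, |F i| < ε := by
  have h1 := hB.eventually (gt_mem_nhds hb)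
  have h2 : ∀ᶠ i in atTop, |A i - m * F i| < m * ε / 2 := by
    have := hAF.eventually (Metric.ball_mem_nhds (0 : ℝ) (show 0 < m * ε / 2 by positivity))
    filter_upwards [this] with i hi
    rw [Real.dist_eq, sub_zero] at hi
    exact hi
  filter_upwards [h1, h2] with i hi1 hi2
  have h3 : |A i| < m * ε / 2 := by
    apply abs_lt_of_sq_lt_sq _ (by positivity)
    exact (hA i).trans_lt hi1
  have h4 : m * |F i| < m * ε := by
    have e : m * |F i| = |m * F i| := by rw [abs_mul, abs_of_pos hm]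
    rw [e]
    have e2 : m * F i = A i - (A i - m * F i) := by ring
    rw [e2]
    refine (abs_sub _ _).trans_lt ?_
    linarith
  exact lt_of_mul_lt_mul_left h4 hm.le

lemma abs_cc_le (n : ℕ) : |cc n| ≤ 1 := by
  unfold cc kap
  rw [abs_mul, abs_pow, abs_neg, abs_one, one_pow, one_mul]
  split_ifs
  · simp
  · rw [abs_neg, abs_of_pos] <;> norm_num

/-- sums over `m ≤ N` of `P (n + m)` -/
lemma sum_add_le {P : ℕ → ℝ} (hP : ∀ k, 0 ≤ P k) {N n : ℕ} (hn : n ∈ Finset.Icc 1 N) :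
    ∑ m ∈ Finset.Icc 1 N, P (n + m) ≤ ∑ k ∈ Finset.range (2 * N + 1), P k := by
  have h1 : ∑ m ∈ Finset.Icc 1 N, P (n + m) = ∑ k ∈ (Finset.Icc 1 N).image (fun m => n + m), P k := by
    rw [Finset.sum_image]
    intro a _ b _ hab
    simpa using hab
  rw [h1]
  refine Finset.sum_le_sum_of_subset_of_nonneg ?_ fun k _ _ => hP k
  intro k hk
  rw [Finset.mem_image] at hk
  obtain ⟨m, hm, rfl⟩ := hk
  rw [Finset.mem_Icc] at hm hn
  rw [Finset.mem_range]
  omega

lemma sum_sub_le {P : ℕ → ℝ} (hP : ∀ k, 0 ≤ P k) {N n : ℕ} (hn : n ∈ Finset.Icc 1 N) :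
    ∑ m ∈ Finset.Icc 1 N, P ((n : ℤ) - m).natAbs ≤ 2 * ∑ k ∈ Finset.range (2 * N + 1), P k := by
  have h0 : ∀ s : Finset ℕ, (∀ a ∈ s, ∀ b ∈ s, ((n : ℤ) - a).natAbs = ((n : ℤ) - b).natAbs → a = b) →
      s ⊆ Finset.Icc 1 N →
      ∑ m ∈ s, P ((n : ℤ) - m).natAbs ≤ ∑ k ∈ Finset.range (2 * N + 1), P k := by
    intro s hinj hs
    have h1 : ∑ m ∈ s, P ((n : ℤ) - m).natAbs =
        ∑ k ∈ s.image (fun m : ℕ => ((n : ℤ) - m).natAbs), P k := by
      rw [Finset.sum_image]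
      intro a ha b hb hab
      exact hinj a ha b hb hab
    rw [h1]
    refine Finset.sum_le_sum_of_subset_of_nonneg ?_ fun k _ _ => hP k
    intro k hk
    rw [Finset.mem_image] at hk
    obtain ⟨m, hm, rfl⟩ := hk
    have hm' := hs hm
    rw [Finset.mem_Icc] at hm' hn
    rw [Finset.mem_range]
    omega
  have e := Finset.sum_filter_add_sum_filter_not (Finset.Icc 1 N) (fun m => m ≤ n)
    (fun m : ℕ => P ((n : ℤ) - m).natAbs)
  have h1 := h0 ((Finset.Icc 1 N).filter (fun m => m ≤ n)) (by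
    intro a ha b hb hab
    rw [Finset.mem_filter] at ha hb
    omega) (Finset.filter_subset _ _)
  have h2 := h0 ((Finset.Icc 1 N).filter (fun m => ¬ m ≤ n)) (by
    intro a ha b hb hab
    rw [Finset.mem_filter] at ha hb
    omega) (Finset.filter_subset _ _)
  linarith

/-- the quadratic form -/
lemma sum_LL_le {P : ℕ → ℝ} (hP : ∀ k, 0 ≤ P k) (M : ℕ) :
    ∑ n ∈ Finset.Icc 1 (6 * M), ∑ m ∈ Finset.Icc 1 (6 * M), cc n * cc m * LL P n m ≤
      18 * M * ∑ k ∈ Finset.range (12 * M + 1), P k := by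
  set S := ∑ k ∈ Finset.range (12 * M + 1), P k with hS
  have hS' : ∑ k ∈ Finset.range (2 * (6 * M) + 1), P k = S := by
    rw [show 2 * (6 * M) = 12 * M by ring]
  have h1 : ∀ n ∈ Finset.Icc 1 (6 * M), ∑ m ∈ Finset.Icc 1 (6 * M), cc n * cc m * LL P n m ≤
      3 * S := by
    intro n hn
    have e : ∀ m, cc n * cc m * LL P n m =
        cc n * cc m * (if n % 2 = m % 2 then P (n + m) + P ((n : ℤ) - m).natAbs else 0) -
          cc n * (cc m * (if n % 2 = m % 2 then 2 * P 0 else 0)) := by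
      intro m
      unfold LL
      split_ifs <;> ring
    simp_rw [e]
    rw [Finset.sum_sub_distrib, ← Finset.mul_sum, sum_cc, mul_zero, sub_zero]
    have h2 : ∑ m ∈ Finset.Icc 1 (6 * M), cc n * cc m *
        (if n % 2 = m % 2 then P (n + m) + P ((n : ℤ) - m).natAbs else 0) ≤
        ∑ m ∈ Finset.Icc 1 (6 * M), (P (n + m) + P ((n : ℤ) - m).natAbs) := by
      refine Finset.sum_le_sum fun m _ => ?_
      have h3 : cc n * cc m ≤ 1 := by
        refine (le_abs_self _).trans ?_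
        rw [abs_mul]
        exact mul_le_one₀ (abs_cc_le n) (abs_nonneg _) (abs_cc_le m)
      have h4 : 0 ≤ P (n + m) + P ((n : ℤ) - m).natAbs := add_nonneg (hP _) (hP _)
      split_ifs
      · calc _ ≤ 1 * (P (n + m) + P ((n : ℤ) - m).natAbs) := mul_le_mul_of_nonneg_right h3 h4
          _ = _ := one_mul _
      · rw [mul_zero]; exact h4
    refine h2.trans ?_
    rw [Finset.sum_add_distrib]
    have h5 := sum_add_le hP hn
    have h6 := sum_sub_le hP hn
    rw [hS'] at h5 h6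
    linarith
  calc _ ≤ ∑ n ∈ Finset.Icc 1 (6 * M), 3 * S := Finset.sum_le_sum h1
    _ = _ := by
      rw [Finset.sum_const, Nat.card_Icc]
      simp only [Nat.add_sub_cancel, nsmul_eq_mul]
      push_cast
      ring

lemma PP_nonneg (hq : Pot V q) {φ : ℂ → ℝ} (hφ0 : ∀ z, 0 ≤ φ z) (n : ℕ) : 0 ≤ PP q r φ n := by
  refine integral_nonneg fun z => mul_nonneg (hφ0 z) ?_
  have := hq.pos z
  unfold pp
  positivity

/-- choice of `M` -/
lemma exists_M {P : ℕ → ℝ} (hP : Tendsto (fun N : ℕ => (∑ n ∈ Finset.range N, P n) / N) atTop (𝓝 0))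
    {c ε : ℝ} (hc : 0 ≤ c) (hε : 0 < ε) : ∃ M : ℕ, 1 ≤ M ∧
    c * (18 * M * ∑ k ∈ Finset.range (12 * M + 1), P k) < (3 * (M : ℝ) * ε / 2) ^ 2 := by
  have h1 : Tendsto (fun M : ℕ => 12 * M + 1) atTop atTop := by
    apply tendsto_atTop_mono (f := fun M => M) _ tendsto_id
    intro M; omega
  have h2 := hP.comp h1
  have h3 := h2.const_mul (c * 18 * 13)
  rw [mul_zero] at h3
  obtain ⟨M, hM1, hM2⟩ := ((h3.eventually (gt_mem_nhds (show 0 < (3 * ε / 2) ^ 2 by positivity))).and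
    (eventually_ge_atTop 1)).exists
  refine ⟨M, hM2, ?_⟩
  simp only [Function.comp_apply] at hM1
  set S := ∑ k ∈ Finset.range (12 * M + 1), P k with hS
  have hMr : (1 : ℝ) ≤ M := by exact_mod_cast hM2
  have hpos : (0 : ℝ) < ((12 * M + 1 : ℕ) : ℝ) := by positivity
  have h4 : c * 18 * 13 * S < (3 * ε / 2) ^ 2 * ((12 * M + 1 : ℕ) : ℝ) := by
    rw [← mul_div_assoc, div_lt_iff₀ hpos] at hM1
    exact hM1
  push_cast at h4
  have h5 : (3 * ε / 2) ^ 2 * (12 * (M : ℝ) + 1) ≤ (3 * ε / 2) ^ 2 * (13 * M) :=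
    mul_le_mul_of_nonneg_left (by linarith) (by positivity)
  have h6 : c * 18 * S < (3 * ε / 2) ^ 2 * M := by nlinarith
  calc c * (18 * M * S) = M * (c * 18 * S) := by ring
    _ < M * ((3 * ε / 2) ^ 2 * M) := mul_lt_mul_of_pos_left h6 (by linarith)
    _ = _ := by ring

lemma cube_nonneg (hRel : StmtRel) (hOdd : StmtOdd) (hOL : StmtOddLim) (hC : StmtCubicS)
    (hI : StmtIneq) (hS : Sm V q h f r) (hB : L4Bdd V f) {φ : ℂ → ℝ} (hφ : TestR V φ)
    (hφ0 : ∀ z, 0 ≤ φ z)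
    (hN : Tendsto (fun N : ℕ => (∑ n ∈ Finset.range N, ∫ z, φ z * pp q r n z) / N) atTop (𝓝 0)) :
    Tendsto (fun i => ∫ z, φ z * f i z ^ 3) atTop (𝓝 0) := by
  rw [Metric.tendsto_nhds]
  intro ε hε
  simp_rw [Real.dist_eq, sub_zero]
  have h3 := Ratio.second_lim hI hS hφ
  have hc : 0 ≤ ∫ z, φ z * rho r z := by
    refine ge_of_tendsto' h3 fun i => integral_nonneg fun z => mul_nonneg (hφ0 z) (by positivity)
  obtain ⟨M, hM1, hM⟩ := exists_M (P := PP q r φ) hN hc hε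
  have hMpos : (0 : ℝ) < 3 * (M : ℝ) := by
    have : (1 : ℝ) ≤ M := by exact_mod_cast hM1
    linarith
  have h1 := quad_lim hRel hOdd hOL hS hB hφ cc (6 * M)
  rw [sum_cc_tt] at h1
  simp only [zero_mul, sub_zero] at h1
  have h2 := cube_XX hC hS.toSeq hB (6 * M) hφ
  rw [sum_cc_sq] at h2
  have hle := mul_le_mul_of_nonneg_left
    (sum_LL_le (fun k => PP_nonneg hS.pot (r := r) hφ0 k) M) hc
  refine cube_core hMpos hε (b := (∫ z, φ z * rho r z) * ∑ n ∈ Finset.Icc 1 (6 * M),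
    ∑ m ∈ Finset.Icc 1 (6 * M), cc n * cc m * LL (PP q r φ) n m) ?_
    (A := fun i => ∫ z, φ z * (f i z * XX q (h i) (f i) cc (6 * M) z))
    (B := fun i => (∫ z, φ z * f i z ^ 2) *
      ∫ z, φ z * XX q (h i) (f i) cc (6 * M) z ^ 2) ?_ ?_ h2
  · exact lt_of_le_of_lt hle hM
  · intro i
    have cf := (hS.sol i).smooth.continuous
    have cX := continuous_XX hS.pot (hS.sol i).smooth (h i) cc (6 * M)
    exact cs hφ0 (integrable_testR hφ (cf.pow 2)) (integrable_testR hφ (cX.pow 2))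
      (integrable_testR hφ (cf.mul cX))
  · exact h3.mul h1

lemma L4Bdd.comp (hB : L4Bdd V f) (σ : ℕ → ℕ) : L4Bdd V (fun i => f (σ i)) := by
  intro ζ hζ
  obtain ⟨C, hC⟩ := hB ζ hζ
  exact ⟨C, fun i => hC (σ i)⟩

/-- nonnegative test functions -/
lemma cube_seq (hRel : StmtRel) (hOdd : StmtOdd) (hOL : StmtOddLim) (hC : StmtCubicS)
    (hComp : StmtComp) (hI : StmtIneq) (hS : Seq V q h f) (hB : L4Bdd V f)
    (hN : NAloc V q h f) {φ : ℂ → ℝ} (hφ : TestR V φ) (hφ0 : ∀ z, 0 ≤ φ z) :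
    Tendsto (fun i => ∫ z, φ z * f i z ^ 3) atTop (𝓝 0) := by
  by_contra hcon
  rw [Metric.tendsto_nhds] at hcon
  push Not at hcon
  obtain ⟨ε, hε, hfr⟩ := hcon
  have hfr' : ∃ᶠ i in atTop, ¬ (|∫ z, φ z * f i z ^ 3| < ε) := by
    refine hfr.mono fun i hi => ?_
    rw [Real.dist_eq, sub_zero] at hi
    exact not_lt.mpr hi
  obtain ⟨σ, hσ, hσ'⟩ := Filter.extraction_of_frequently_atTop hfr'
  have hS' : Seq V q (fun i => h (σ i)) (fun i => f (σ i)) :=
    Seq.sub hS hS.pot.isOpen subset_rfl hσ.tendsto_atTop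
  have hB' := L4Bdd.comp hB σ
  obtain ⟨τ, r, hτ, hSm⟩ := hComp V q _ _ hS' hB'
  have hB'' := L4Bdd.comp hB (fun i => σ (τ i))
  have hlim := cube_nonneg hRel hOdd hOL hC hI hSm hB'' hφ hφ0
    (hN V (fun i => σ (τ i)) r subset_rfl (hσ.comp hτ) hSm φ hφ hφ0)
  rw [Metric.tendsto_nhds] at hlim
  obtain ⟨j, hj⟩ := (hlim ε hε).exists
  rw [Real.dist_eq, sub_zero] at hj
  exact hσ' (τ j) hj

theorem _root_.Pool.Agent.A54.Dyn.stmtCubeS (hRel : StmtRel) (hOdd : StmtOdd) (hOL : StmtOddLim)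
    (hC : StmtCubicS) (hComp : StmtComp) (hI : StmtIneq) : StmtCubeS := by
  intro V q h f hS hB hN φ hφ
  obtain ⟨χ, hχ, hχ01, hχ1⟩ := exists_cutoff hφ.cpt.isCompact hS.pot.isOpen hφ.sub
  obtain ⟨Z, hZ0, hZ⟩ := test_bdd hφ
  have hψ : TestR V (fun z => φ z + Z * χ z) := by
    refine ⟨hφ.smooth.add (contDiff_const.mul hχ.smooth), hφ.cpt.add hχ.cpt.mul_left, ?_⟩
    refine (tsupport_add φ (fun z => Z * χ z)).trans (union_subset hφ.sub ?_)
    exact (tsupport_mul_subset_right (f := fun _ => Z) (g := χ)).trans hχ.sub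
  have hψ0 : ∀ z, 0 ≤ φ z + Z * χ z := by
    intro z
    by_cases hz : z ∈ tsupport φ
    · have e1 : χ z = 1 := hχ1.self_of_nhdsSet z hz
      rw [e1]
      have := (abs_le.mp (hZ z)).1
      linarith
    · rw [image_eq_zero_of_notMem_tsupport hz, zero_add]
      exact mul_nonneg hZ0 (hχ01 z).1
  have h1 := cube_seq hRel hOdd hOL hC hComp hI hS hB hN hψ hψ0
  have h2 := (cube_seq hRel hOdd hOL hC hComp hI hS hB hN hχ (fun z => (hχ01 z).1)).const_mul Z
  have h3 := h1.sub h2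
  rw [mul_zero, sub_zero] at h3
  refine h3.congr fun i => ?_
  have c3 : Continuous (fun z => f i z ^ 3) := (hS.sol i).smooth.continuous.pow 3
  rw [← integral_const_mul, ← integral_sub (integrable_testR hψ c3)
    ((integrable_testR hχ c3).const_mul Z)]
  congr 1; funext z; ring

end

end Pool.Agent.A54.Dyn.CubeSM
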