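import Pool.Agent.Lib.MP_a54f13_nt.Dyn.Spec

/-!
Deterministic comparison between the masses of strips (transversal measure) and of small boxes in the
half-plane (`StmtDet`).
-/

set_option autoImplicit false

namespace Pool.Agent.A54.Dyn.DetM

open MeasureTheory Filter Topology Set
open scoped ComplexConjugate UpperHalfPlane MatrixGroups ENNReal

noncomputable section

/-! ### Signs -/

lemma mul_neg' (v g : G) : v * -g = -(v * g) := by
  apply G_ext
  · change (v * -g) 0 0 = -((v * g) 0 0)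
    rw [mul_00, mul_00]
    change v 0 0 * -(g 0 0) + v 0 1 * -(g 1 0) = _
    ring
  · change (v * -g) 0 1 = -((v * g) 0 1)
    rw [mul_01, mul_01]
    change v 0 0 * -(g 0 1) + v 0 1 * -(g 1 1) = _
    ring
  · change (v * -g) 1 0 = -((v * g) 1 0)
    rw [mul_10, mul_10]
    change v 1 0 * -(g 0 0) + v 1 1 * -(g 1 0) = _
    ring
  · change (v * -g) 1 1 = -((v * g) 1 1)
    rw [mul_11, mul_11]
    change v 1 0 * -(g 0 1) + v 1 1 * -(g 1 1) = _
    ring

lemma io_neg_one_mul (g : G) : io (-1) * g = -g := by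
  have e00 : (io (-1)) 0 0 = -1 := by simp [io]
  have e01 : (io (-1)) 0 1 = 0 := by simp [io]
  have e10 : (io (-1)) 1 0 = 0 := by simp [io]
  have e11 : (io (-1)) 1 1 = -1 := by simp [io]
  apply G_ext
  · change (io (-1) * g) 0 0 = -(g 0 0)
    rw [mul_00, e00, e01]; ring
  · change (io (-1) * g) 0 1 = -(g 0 1)
    rw [mul_01, e00, e01]; ring
  · change (io (-1) * g) 1 0 = -(g 1 0)
    rw [mul_10, e10, e11]; ring
  · change (io (-1) * g) 1 1 = -(g 1 1)
    rw [mul_11, e10, e11]; ring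

lemma continuous_neg' : Continuous (fun g : G => -g) := by
  have : (fun g : G => -g) = fun g => io (-1) * g := by
    funext g; rw [io_neg_one_mul]
  rw [this]
  exact continuous_const.mul continuous_id

lemma map_neg {μ : Measure G} (h : Inv μ) : μ.map (fun g => -g) = μ := by
  have h1 := h.left (-1)
  have : (fun g : G => -g) = fun g => io (-1) * g := by
    funext g; rw [io_neg_one_mul]
  rw [this]
  exact h1

/-! ### Measurability -/

lemma meas_entry (i j : Fin 2) : Measurable (fun g : G => g i j) :=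
  (continuous_entry i j).measurable

lemma meas_dom : MeasurableSet dom := by
  have h1 : MeasurableSet {g : G | 0 < g 0 0} := measurableSet_lt measurable_const (meas_entry 0 0)
  have h2 : MeasurableSet {g : G | 0 < g 1 1} := measurableSet_lt measurable_const (meas_entry 1 1)
  exact h1.inter h2

lemma meas_cX : Measurable cX := (meas_entry 0 1).div (meas_entry 1 1)

lemma meas_cY : Measurable cY := (meas_entry 1 0).div (meas_entry 0 0)

lemma meas_cU : Measurable cU := ((meas_entry 0 0).div (meas_entry 1 1)).log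

lemma meas_cP : Measurable cP := meas_cX.prodMk meas_cY

lemma meas_left (v : G) : Measurable (fun g : G => v⁻¹ * g) :=
  (continuous_const.mul continuous_id).measurable

/-- box, positive sign -/
def P1 (v : G) (R : Set (ℝ × ℝ)) (s : ℝ) : Set G :=
  {g | v⁻¹ * g ∈ dom ∧ cP (v⁻¹ * g) ∈ R ∧ |cU (v⁻¹ * g)| < s}

/-- box, both signs -/
def B (v : G) (R : Set (ℝ × ℝ)) (s : ℝ) : Set G :=
  P1 v R s ∪ (fun g => -g) ⁻¹' P1 v R s

lemma meas_P1 (v : G) {R : Set (ℝ × ℝ)} (hR : MeasurableSet R) (s : ℝ) :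
    MeasurableSet (P1 v R s) := by
  have h1 : MeasurableSet ((fun g : G => v⁻¹ * g) ⁻¹' dom) := meas_left v meas_dom
  have h2 : MeasurableSet ((fun g : G => cP (v⁻¹ * g)) ⁻¹' R) := (meas_cP.comp (meas_left v)) hR
  have h3 : MeasurableSet {g : G | |cU (v⁻¹ * g)| < s} :=
    measurableSet_lt ((meas_cU.comp (meas_left v)).abs) measurable_const
  exact h1.inter (h2.inter h3)

lemma meas_B (v : G) {R : Set (ℝ × ℝ)} (hR : MeasurableSet R) (s : ℝ) :
    MeasurableSet (B v R s) :=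
  (meas_P1 v hR s).union (continuous_neg'.measurable (meas_P1 v hR s))

lemma mem_B {v : G} {R : Set (ℝ × ℝ)} {s : ℝ} {g : G} : g ∈ B v R s ↔
    ∃ g' : G, (g' = v⁻¹ * g ∨ g' = -(v⁻¹ * g)) ∧ g' ∈ dom ∧ cP g' ∈ R ∧ |cU g'| < s := by
  constructor
  · rintro (h | h)
    · exact ⟨_, Or.inl rfl, h⟩
    · have h' : v⁻¹ * -g ∈ dom ∧ cP (v⁻¹ * -g) ∈ R ∧ |cU (v⁻¹ * -g)| < s := h
      rw [mul_neg'] at h'
      exact ⟨_, Or.inr rfl, h'⟩
  · rintro ⟨g', h | h, h1⟩
    · left
      rw [h] at h1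
      exact h1
    · right
      change v⁻¹ * -g ∈ dom ∧ cP (v⁻¹ * -g) ∈ R ∧ |cU (v⁻¹ * -g)| < s
      rw [mul_neg', ← h]
      exact h1

/-- the mass of a box -/
lemma mu_B (hP : StmtProd) (hT : StmtTau) {μ : Measure G} (hμ : Inv μ) (v : G)
    {R : Set (ℝ × ℝ)} (hR : MeasurableSet R) (hR2 : R ⊆ Sc (1 / 2)) {s : ℝ} (hs : 0 < s) :
    μ (B v R s) = ENNReal.ofReal (4 * s) * tau μ v R := by
  have hfin : IsFiniteMeasure (tau μ v) := ⟨(hT μ hμ).fin v⟩
  have h1 : μ (P1 v R s) = ENNReal.ofReal (2 * s) * tau μ v R := by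
    have h2 := hP μ hμ v (R ×ˢ Ioo (-s) s) (hR.prod measurableSet_Ioo)
      (fun p hp => hR2 hp.1)
    rw [Measure.prod_prod, Real.volume_Ioo] at h2
    have e : P1 v R s = {g | v⁻¹ * g ∈ dom ∧ (cP (v⁻¹ * g), cU (v⁻¹ * g)) ∈ R ×ˢ Ioo (-s) s} := by
      ext g
      simp only [P1, mem_ofPred_eq, mem_prod, mem_Ioo, abs_lt]
    rw [e, h2, mul_comm]
    congr 2
    ring
  have h3 : μ ((fun g => -g) ⁻¹' P1 v R s) = μ (P1 v R s) := by
    rw [← Measure.map_apply continuous_neg'.measurable (meas_P1 v hR s), map_neg hμ]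
  have h4 : Disjoint (P1 v R s) ((fun g => -g) ⁻¹' P1 v R s) := by
    rw [Set.disjoint_left]
    intro g hg hg'
    have a1 : 0 < (v⁻¹ * g) 0 0 := hg.1.1
    have a2 : v⁻¹ * -g ∈ dom := hg'.1
    rw [mul_neg'] at a2
    have a3 : 0 < -((v⁻¹ * g) 0 0) := a2.1
    linarith
  unfold B
  rw [measure_union h4 (continuous_neg'.measurable (meas_P1 v hR s)), h3, h1, ← add_mul,
    ← ENNReal.ofReal_add (by positivity) (by positivity)]
  congr 2
  ring

/-! ### Geometry -/

/-- the two real equations for the base point -/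
lemma base_eqs (g : G) : (base g).re * g 1 1 - (base g).im * g 1 0 = g 0 1 ∧
    (base g).re * g 1 0 + (base g).im * g 1 1 = g 0 0 := by
  have h := base_coe g
  have hd : (g 1 0 : ℂ) * Complex.I + g 1 1 ≠ 0 := denom_ne g UpperHalfPlane.I
  rw [eq_div_iff hd] at h
  have h1 := congrArg Complex.re h
  have h2 := congrArg Complex.im h
  simp at h1 h2
  constructor <;> linarith

lemma exp_cU_mul {g : G} (hg : g ∈ dom) :
    Real.exp (cU g) * (1 - cY g * (base g).re) = (base g).im := by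
  have h0 := hg.1
  have h1 := hg.2
  have h2 := (base_eqs g).2
  rw [exp_cU hg]
  unfold cY
  field_simp
  linarith

lemma abs_log_one_sub {x : ℝ} (hx : |x| ≤ 1 / 2) : |Real.log (1 - x)| ≤ 2 * |x| := by
  have h1 := abs_le.mp hx
  have hp : 0 < 1 - x := by linarith
  rw [abs_le]
  constructor
  · have h2 := Real.log_le_sub_one_of_pos (inv_pos.mpr hp)
    rw [Real.log_inv] at h2
    have h3 : (1 - x)⁻¹ - 1 ≤ 2 * |x| := by
      have h4 : (1 - x)⁻¹ - 1 = x / (1 - x) := by field_simp; ring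
      rw [h4, div_le_iff₀ hp]
      have h5 := le_abs_self x
      have h6 := abs_nonneg x
      nlinarith
    linarith
  · have h2 := Real.log_le_sub_one_of_pos hp
    have h5 := neg_abs_le x
    have h6 := abs_nonneg x
    linarith

lemma cU_bound {g : G} (hg : g ∈ dom) (h : |cY g * (base g).re| ≤ 1 / 2) :
    |cU g| ≤ |Real.log (base g).im| + 2 * |cY g * (base g).re| := by
  have h1 := exp_cU_mul hg
  have h2 := abs_le.mp h
  have hp : 0 < 1 - cY g * (base g).re := by linarith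
  have h3 : Real.log (base g).im = cU g + Real.log (1 - cY g * (base g).re) := by
    rw [← h1, Real.log_mul (Real.exp_pos _).ne' hp.ne', Real.log_exp]
  have h4 := abs_log_one_sub h
  have h5 : cU g = Real.log (base g).im - Real.log (1 - cY g * (base g).re) := by linarith
  rw [h5]
  exact (abs_sub _ _).trans (by linarith)

lemma dist_I_le {z : ℍ} {a r : ℝ} (hr1 : r ≤ 1) (h1 : |z.re| ≤ a)
    (h2 : |Real.log z.im| < r) : dist z UpperHalfPlane.I ≤ 2 * (a + 2 * r) := by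
  have h3 := UpperHalfPlane.dist_le_dist_coe_div_sqrt z UpperHalfPlane.I
  have him := z.im_pos
  have h4 : |z.im - 1| ≤ 2 * r := by
    have h5 := Real.abs_exp_sub_one_le (x := Real.log z.im) (by linarith)
    rw [Real.exp_log him] at h5
    linarith
  have h6 : 1 / 4 ≤ z.im := by
    have h7 : Real.exp (-1) ≤ z.im := by
      rw [← Real.exp_log him]
      apply Real.exp_le_exp.mpr
      have := (abs_lt.mp h2).1
      linarith
    have h8 : (1 : ℝ) / 4 ≤ Real.exp (-1) := by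
      rw [Real.exp_neg, one_div]
      apply inv_anti₀ (Real.exp_pos _)
      have := Real.exp_one_lt_d9
      linarith
    linarith
  have h9 : dist (z : ℂ) (UpperHalfPlane.I : ℍ) ≤ a + 2 * r := by
    rw [dist_eq_norm]
    refine (Complex.norm_le_abs_re_add_abs_im _).trans ?_
    have e1 : ((z : ℂ) - (UpperHalfPlane.I : ℍ)).re = z.re := by simp
    have e2 : ((z : ℂ) - (UpperHalfPlane.I : ℍ)).im = z.im - 1 := by simp
    rw [e1, e2]
    linarith
  have h10 : 1 / 2 ≤ Real.sqrt (z.im * UpperHalfPlane.I.im) := by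
    apply Real.le_sqrt_of_sq_le
    rw [UpperHalfPlane.I_im]
    linarith
  have ha : 0 ≤ a + 2 * r := le_trans dist_nonneg h9
  refine h3.trans ?_
  rw [div_le_iff₀ (by linarith)]
  nlinarith

/-- the strip of the square -/
def RR (i₁ i₂ L r : ℝ) : Set (ℝ × ℝ) :=
  {p | r * i₁ ≤ p.1 + p.2 ∧ p.1 + p.2 < r * i₂} ∩ Sq2 (L * r)

/-- conclusion of `StmtGeo4` -/
def Geo4 (C₄ c₄ : ℝ) : Prop := ∀ (g : G) (δ : ℝ), g ∈ dom → |cX g| ≤ δ →
  |cY g| ≤ δ → |cU g| ≤ δ → δ ≤ c₄ →
    |(base g).re - (cX g + cY g)| ≤ C₄ * δ ^ 2 ∧ |Real.log (base g).im - cU g| ≤ C₄ * δ ^ 2 ∧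
      ‖ze g - 1‖ ≤ C₄ * δ ∧ dist (base g) UpperHalfPlane.I ≤ C₄ * δ

lemma claimA {C₄ c₄ : ℝ} (h4 : Geo4 C₄ c₄) {i₁ i₂ L C r : ℝ} (hC : C₄ ≤ C) (hL : 1 ≤ L)
    (hr : 0 < r) (hLr : L * r ≤ c₄) {g : G} (hg : g ∈ dom) (hR : cP g ∈ RR i₁ i₂ L r)
    (hU : |cU g| < r) : base g ∈ NN i₁ i₂ L C r ∨ base g ∈ SS i₁ i₂ r := by
  have hrL : r ≤ L * r := by nlinarith
  obtain ⟨⟨ha, hb⟩, hX, hY⟩ := hR
  change r * i₁ ≤ cX g + cY g at ha
  change cX g + cY g < r * i₂ at hb
  change |cX g| < L * r at hX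
  change |cY g| < L * r at hY
  obtain ⟨q1, q2, _, q4⟩ := h4 g (L * r) hg hX.le hY.le (by linarith) hLr
  have hLr0 : 0 < L * r := by positivity
  have k1 : C₄ * (L * r) ^ 2 ≤ C * L ^ 2 * r ^ 2 := by
    have : 0 ≤ (L * r) ^ 2 := by positivity
    nlinarith
  have k2 : C₄ * (L * r) ≤ C * L * r := by nlinarith
  have q1' := abs_le.mp q1
  have q2' := abs_le.mp q2
  by_cases hS : base g ∈ SS i₁ i₂ r
  · exact Or.inr hS
  · left
    refine ⟨by linarith, ?_⟩
    by_cases s1 : r * i₁ ≤ (base g).re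
    · by_cases s2 : (base g).re < r * i₂
      · right; right
        have s3 : ¬ |Real.log (base g).im| < r := fun h => hS ⟨s1, s2, h⟩
        push Not at s3
        have s4 : |Real.log (base g).im| ≤ |cU g| + C₄ * (L * r) ^ 2 := by
          have := abs_sub_abs_le_abs_sub (Real.log (base g).im) (cU g)
          linarith
        rw [abs_le]
        constructor <;> linarith
      · right; left
        push Not at s2
        rw [abs_le]
        constructor <;> linarith
    · left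
      push Not at s1
      rw [abs_le]
      constructor <;> linarith

lemma claimB {C₄ c₄ : ℝ} (h4 : Geo4 C₄ c₄) {i₁ i₂ L C r : ℝ} (hC : C₄ ≤ C) (hL : 2 ≤ L)
    (hr : 0 < r) (hLr : L * r ≤ c₄) (hLMr : 2 * L * (1 + |i₁| + |i₂|) * r ≤ 1) {g : G}
    (hg : g ∈ dom) (hQ : cP g ∈ Sq2 (L * r)) (hS : base g ∈ SS i₁ i₂ r) :
    base g ∈ NN i₁ i₂ L C r ∨ (cP g ∈ RR i₁ i₂ L r ∧ |cU g| < r) := by
  set M := 1 + |i₁| + |i₂| with hM
  have hM1 : 1 ≤ M := by
    have := abs_nonneg i₁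
    have := abs_nonneg i₂
    linarith
  have hQ' := hQ
  obtain ⟨hX, hY⟩ := hQ'
  change |cX g| < L * r at hX
  change |cY g| < L * r at hY
  obtain ⟨s1, s2, s3⟩ := hS
  have hre : |(base g).re| ≤ M * r := by
    have b1 := neg_abs_le i₁
    have b2 := le_abs_self i₂
    have b3 := abs_nonneg i₁
    have b4 := abs_nonneg i₂
    rw [abs_le]
    constructor <;> nlinarith
  have hprod : |cY g * (base g).re| ≤ L * r * (M * r) := by
    rw [abs_mul]
    exact mul_le_mul hY.le hre (abs_nonneg _) (by positivity)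
  have hLM : 1 ≤ L * M := by nlinarith
  have hr1 : r ≤ 1 := by nlinarith
  have hp2 : L * r * (M * r) ≤ r / 2 := by nlinarith
  have hU := cU_bound hg (by linarith)
  have hUd : |cU g| ≤ L * r := by nlinarith
  obtain ⟨q1, q2, _, q4⟩ := h4 g (L * r) hg hX.le hY.le hUd hLr
  have hLr0 : 0 < L * r := by positivity
  have k1 : C₄ * (L * r) ^ 2 ≤ C * L ^ 2 * r ^ 2 := by
    have : 0 ≤ (L * r) ^ 2 := by positivity
    nlinarith
  have k2 : C₄ * (L * r) ≤ C * L * r := by nlinarith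
  have q1' := abs_le.mp q1
  have q2' := abs_le.mp q2
  by_cases t1 : r * i₁ ≤ cX g + cY g
  · by_cases t2 : cX g + cY g < r * i₂
    · by_cases t3 : |cU g| < r
      · right
        exact ⟨⟨⟨t1, t2⟩, hQ⟩, t3⟩
      · left
        push Not at t3
        refine ⟨by linarith, Or.inr (Or.inr ?_)⟩
        have s4 : |cU g| ≤ |Real.log (base g).im| + C₄ * (L * r) ^ 2 := by
          have := abs_sub_abs_le_abs_sub (cU g) (Real.log (base g).im)
          rw [abs_sub_comm] at this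
          linarith
        rw [abs_le]
        constructor <;> linarith
    · left
      push Not at t2
      refine ⟨by linarith, Or.inr (Or.inl ?_)⟩
      rw [abs_le]
      constructor <;> linarith
  · left
    push Not at t1
    refine ⟨by linarith, Or.inl ?_⟩
    rw [abs_le]
    constructor <;> linarith


/-! ### The peak function -/

lemma FF_eq (m : ℕ) (v v' : G) : FF m v v' = (1 + -(‖ze v' - ze v‖ ^ 2 / 4)) ^ m := by
  unfold FF
  congr 1
  have h := parallelogram_law_with_norm ℝ (ze v) (ze v')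
  rw [norm_ze, norm_ze, norm_sub_rev] at h
  linarith

lemma dist_ze_le (v v' : G) : ‖ze v' - ze v‖ ^ 2 / 4 ≤ 1 := by
  have h := norm_sub_le (ze v') (ze v)
  rw [norm_ze, norm_ze] at h
  have h0 := norm_nonneg (ze v' - ze v)
  nlinarith

lemma FF_nonneg (m : ℕ) (v v' : G) : 0 ≤ FF m v v' := by
  unfold FF
  positivity

lemma FF_le_one (m : ℕ) (v v' : G) : FF m v v' ≤ 1 := by
  rw [FF_eq]
  have h1 := dist_ze_le v v'
  have h2 : 0 ≤ ‖ze v' - ze v‖ ^ 2 / 4 := by positivity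
  exact pow_le_one₀ (by linarith) (by linarith)

lemma FF_ge (m : ℕ) (v v' : G) : 1 - m * (‖ze v' - ze v‖ ^ 2 / 4) ≤ FF m v v' := by
  rw [FF_eq]
  have h1 := dist_ze_le v v'
  have h3 := one_add_mul_le_pow (a := -(‖ze v' - ze v‖ ^ 2 / 4)) (by linarith) m
  linarith

lemma FF_far (m : ℕ) (v v' : G) {δ : ℝ} (hδ : 0 < δ) (h : δ < ‖ze v' - ze v‖) :
    FF m v v' ≤ (1 - δ ^ 2 / 4) ^ m := by
  rw [FF_eq]
  have h1 := dist_ze_le v v'
  apply pow_le_pow_left₀ (by linarith)
  nlinarith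

lemma meas_FF (m : ℕ) (v : G) : Measurable (FF m v) := by
  unfold FF
  exact ((((continuous_const.add continuous_ze).norm.pow 2).div_const 4).pow m).measurable

/-- conclusion of `StmtGeo2` -/
def Geo2 (C₂ c₂ : ℝ) : Prop := ∀ (v g : G), dist (base g) UpperHalfPlane.I ≤ c₂ →
    |‖ze (v * g) - ze v‖ - ‖ze g - 1‖| ≤ C₂ * dist (base g) UpperHalfPlane.I

/-- conclusion of `StmtGeo3` -/
def Geo3 (C₃ c₃ : ℝ) : Prop := ∀ (g : G) (ρ δ : ℝ),
  dist (base g) UpperHalfPlane.I ≤ ρ → ρ ≤ c₃ → ‖ze g - 1‖ ≤ δ → δ ≤ c₃ →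
    ∃ g' : G, (g' = g ∨ g' = -g) ∧ g' ∈ dom ∧ |cX g' + cY g'| ≤ C₃ * ρ ∧ |cU g'| ≤ C₃ * ρ ∧
      |cX g'| ≤ C₃ * (ρ + δ) ∧ |cY g'| ≤ C₃ * (ρ + δ)

lemma ze_pm {g g' : G} (h : g' = g ∨ g' = -g) : ze g' = ze g := by
  rcases h with h | h
  · rw [h]
  · rw [h, ze_neg]

lemma base_pm {g g' : G} (h : g' = g ∨ g' = -g) : base g' = base g := by
  rcases h with h | h
  · rw [h]
  · rw [h, base_neg]

lemma near {C₂ c₂ C₄ c₄ : ℝ} (h2 : Geo2 C₂ c₂) (h4 : Geo4 C₄ c₄) (hC2 : 0 < C₂) {L r : ℝ}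
    (hL : 1 ≤ L) (hr : 0 < r) (hLr : L * r ≤ c₄) (hLr2 : C₄ * L * r ≤ c₂) {v v' g : G}
    (hgv : g = v⁻¹ * v' ∨ g = -(v⁻¹ * v')) (hg : g ∈ dom) (hQ : cP g ∈ Sq2 (L * r))
    (hU : |cU g| < r) (m : ℕ) :
    1 - ((1 + C₂) * C₄) ^ 2 * m * L ^ 2 * r ^ 2 ≤ FF m v v' := by
  obtain ⟨hX, hY⟩ := hQ
  change |cX g| < L * r at hX
  change |cY g| < L * r at hY
  have hrL : r ≤ L * r := by nlinarith
  obtain ⟨_, _, q3, q4⟩ := h4 g (L * r) hg hX.le hY.le (by linarith) hLr
  rw [ze_pm hgv] at q3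
  rw [base_pm hgv] at q4
  have h5 := h2 v (v⁻¹ * v') (by linarith)
  rw [mul_inv_cancel_left] at h5
  have h6 := (abs_le.mp h5).2
  have h7 : ‖ze v' - ze v‖ ≤ (1 + C₂) * C₄ * (L * r) := by nlinarith
  have h8 := FF_ge m v v'
  have h9 : ‖ze v' - ze v‖ ^ 2 ≤ ((1 + C₂) * C₄ * (L * r)) ^ 2 :=
    pow_le_pow_left₀ (norm_nonneg _) h7 2
  have hm : (0 : ℝ) ≤ m := Nat.cast_nonneg m
  have h10 : (m : ℝ) * (‖ze v' - ze v‖ ^ 2 / 4) ≤ ((1 + C₂) * C₄) ^ 2 * m * L ^ 2 * r ^ 2 := by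
    have h11 : (m : ℝ) * (‖ze v' - ze v‖ ^ 2 / 4) ≤ m * ((1 + C₂) * C₄ * (L * r)) ^ 2 := by
      apply mul_le_mul_of_nonneg_left _ hm
      have : 0 ≤ ‖ze v' - ze v‖ ^ 2 := by positivity
      linarith
    calc (m : ℝ) * (‖ze v' - ze v‖ ^ 2 / 4) ≤ m * ((1 + C₂) * C₄ * (L * r)) ^ 2 := h11
      _ = ((1 + C₂) * C₄) ^ 2 * m * L ^ 2 * r ^ 2 := by ring
  linarith

lemma claimC {C₂ c₂ C₃ c₃ : ℝ} (h2 : Geo2 C₂ c₂) (h3 : Geo3 C₃ c₃) (hC2 : 0 < C₂) (hC3 : 0 < C₃)
    {i₁ i₂ L C r δ₀ : ℝ} (hC : 12 * C₃ < C) (hL : C * (1 + |i₁| + |i₂|) ≤ L) (hδ : 0 < δ₀)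
    (hδC : C * δ₀ ≤ 1) (hδ3 : 2 * δ₀ ≤ c₃)
    (hr : 0 < r) (hr1 : r ≤ 1) (hr2 : 6 * (1 + |i₁| + |i₂|) * r ≤ c₂)
    (hr3 : 6 * (1 + |i₁| + |i₂|) * r ≤ c₃) (hr4 : 6 * (1 + |i₁| + |i₂|) * r ≤ δ₀)
    (hr5 : C₂ * (6 * (1 + |i₁| + |i₂|) * r) ≤ δ₀) {v v' : G}
    (hS : base (v⁻¹ * v') ∈ SS i₁ i₂ r) (hd : ‖ze v' - ze v‖ ≤ δ₀)
    (hQ : ∀ g : G, (g = v⁻¹ * v' ∨ g = -(v⁻¹ * v')) → g ∈ dom → cP g ∉ Sq2 (L * r)) :
    v' ∈ B v ({p | |p.1 + p.2| < C * (1 + |i₁| + |i₂|) * r ∧ L * r ≤ |p.1 - p.2| ∧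
        |p.1 - p.2| ≤ C * δ₀} ∩ Sc (1 / 2)) (C * (1 + |i₁| + |i₂|) * r) := by
  set M := 1 + |i₁| + |i₂| with hM
  have hM1 : 1 ≤ M := by
    have := abs_nonneg i₁
    have := abs_nonneg i₂
    linarith
  obtain ⟨s1, s2, s3⟩ := hS
  have hMr : 0 < M * r := by positivity
  have hre : |(base (v⁻¹ * v')).re| ≤ (M - 1) * r := by
    have b1 := mul_le_mul_of_nonneg_left (neg_abs_le i₁) hr.le
    have b2 := mul_le_mul_of_nonneg_left (le_abs_self i₂) hr.le
    have b3 := mul_nonneg hr.le (abs_nonneg i₁)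
    have b4 := mul_nonneg hr.le (abs_nonneg i₂)
    have e : (M - 1) * r = r * |i₁| + r * |i₂| := by rw [hM]; ring
    rw [abs_le, e]
    constructor <;> linarith
  have hdist : dist (base (v⁻¹ * v')) UpperHalfPlane.I ≤ 6 * M * r := by
    have h1 := dist_I_le hr1 hre s3
    have h2 : r ≤ M * r := by nlinarith
    linarith
  have h5 := h2 v (v⁻¹ * v') (by linarith)
  rw [mul_inv_cancel_left] at h5
  have h6 := (abs_le.mp h5).1
  have h7 : ‖ze (v⁻¹ * v') - 1‖ ≤ 2 * δ₀ := by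
    have := mul_le_mul_of_nonneg_left hdist hC2.le
    linarith
  obtain ⟨g, hgv, hg, a1, a2, a3, a4⟩ := h3 (v⁻¹ * v') (6 * M * r) (2 * δ₀) hdist hr3 h7 hδ3
  have hQ' := hQ g hgv hg
  rw [mem_B]
  have k1 : C₃ * (6 * M * r) < C * M * r := by
    have t1 := mul_lt_mul_of_pos_right hC hMr
    have t2 := mul_pos hC3 hMr
    linarith
  have k2 : C₃ * (6 * M * r + 2 * δ₀) ≤ C₃ * (3 * δ₀) :=
    mul_le_mul_of_nonneg_left (by linarith) hC3.le
  have k3 : C₃ * (3 * δ₀) ≤ C * δ₀ / 4 := by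
    have t1 := mul_lt_mul_of_pos_right hC hδ
    linarith
  have k4 : C * M * r ≤ L * r := mul_le_mul_of_nonneg_right hL hr.le
  have b3 : |cX g| ≤ C * δ₀ / 4 := by linarith
  have b4 : |cY g| ≤ C * δ₀ / 4 := by linarith
  have c1 := abs_le.mp a1
  have c3 := abs_le.mp b3
  have c4 := abs_le.mp b4
  refine ⟨g, hgv, hg, ⟨⟨?_, ?_, ?_⟩, ?_, ?_⟩, ?_⟩
  · change |cX g + cY g| < C * M * r
    linarith
  · change L * r ≤ |cX g - cY g|
    by_contra hlt
    push Not at hlt
    apply hQ'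
    have c5 := abs_lt.mp hlt
    refine ⟨?_, ?_⟩
    · change |cX g| < L * r
      rw [abs_lt]
      constructor <;> linarith
    · change |cY g| < L * r
      rw [abs_lt]
      constructor <;> linarith
  · change |cX g - cY g| ≤ C * δ₀
    rw [abs_le]
    constructor <;> linarith
  · change |cX g| ≤ 1 / 2
    linarith
  · change |cY g| ≤ 1 / 2
    linarith
  · linarith

/-! ### Comparison -/

lemma compare {μ : Measure G} {E N P W : Set G} (hE : MeasurableSet E) (hN : MeasurableSet N)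
    (hP : MeasurableSet P) (hW : MeasurableSet W) (fE : μ E ≠ ⊤) (fN : μ N ≠ ⊤) (fP : μ P ≠ ⊤)
    (fW : μ W ≠ ⊤) {f : G → ℝ} (hf : Measurable f) (h0 : ∀ x, 0 ≤ f x) (h1 : ∀ x, f x ≤ 1)
    {K K' : ℝ} (hK : 0 ≤ K) (hK' : 0 ≤ K') (up : ∀ x ∈ P, x ∈ N ∨ (x ∈ E ∧ 1 - K ≤ f x))
    (low : ∀ x ∈ E, x ∈ P ∨ x ∈ N ∨ x ∈ W ∨ f x ≤ K') :
    |(μ P).toReal - ∫ x in E, f x ∂μ| ≤
      (μ N).toReal + (K + K') * (μ E).toReal + (μ W).toReal := by
  have iE : ∀ c : ℝ, Integrable (E.indicator (fun _ => c)) μ := fun c =>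
    (integrable_indicator_iff hE).mpr (integrableOn_const fE)
  have iN : Integrable (N.indicator (fun _ => (1 : ℝ))) μ :=
    (integrable_indicator_iff hN).mpr (integrableOn_const fN)
  have iP : Integrable (P.indicator (fun _ => (1 : ℝ))) μ :=
    (integrable_indicator_iff hP).mpr (integrableOn_const fP)
  have iW : Integrable (W.indicator (fun _ => (1 : ℝ))) μ :=
    (integrable_indicator_iff hW).mpr (integrableOn_const fW)
  have iF : Integrable (E.indicator f) μ := by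
    refine (iE 1).mono' (hf.indicator hE).aestronglyMeasurable (ae_of_all _ fun x => ?_)
    by_cases hx : x ∈ E
    · rw [indicator_of_mem hx, indicator_of_mem hx, Real.norm_of_nonneg (h0 x)]
      exact h1 x
    · rw [indicator_of_notMem hx, indicator_of_notMem hx, norm_zero]
  have eE : ∀ c : ℝ, ∫ x, E.indicator (fun _ => c) x ∂μ = c * (μ E).toReal := fun c => by
    rw [integral_indicator hE, setIntegral_const, smul_eq_mul, mul_comm]; rfl
  have eN : ∫ x, N.indicator (fun _ => (1 : ℝ)) x ∂μ = (μ N).toReal := by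
    rw [integral_indicator hN, setIntegral_const, smul_eq_mul, mul_one]; rfl
  have eP : ∫ x, P.indicator (fun _ => (1 : ℝ)) x ∂μ = (μ P).toReal := by
    rw [integral_indicator hP, setIntegral_const, smul_eq_mul, mul_one]; rfl
  have eW : ∫ x, W.indicator (fun _ => (1 : ℝ)) x ∂μ = (μ W).toReal := by
    rw [integral_indicator hW, setIntegral_const, smul_eq_mul, mul_one]; rfl
  have eF : ∫ x, E.indicator f x ∂μ = ∫ x in E, f x ∂μ := integral_indicator hE
  have nn : ∀ (S : Set G) (c : ℝ) (x : G), 0 ≤ c → 0 ≤ S.indicator (fun _ => c) x := by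
    intro S c x hc
    by_cases hx : x ∈ S
    · rw [indicator_of_mem hx]; exact hc
    · rw [indicator_of_notMem hx]
  have nF : ∀ x, 0 ≤ E.indicator f x := by
    intro x
    by_cases hx : x ∈ E
    · rw [indicator_of_mem hx]; exact h0 x
    · rw [indicator_of_notMem hx]
  have up' : (μ P).toReal ≤ (∫ x in E, f x ∂μ) + (μ N).toReal + K * (μ E).toReal := by
    have i1 : Integrable (fun x => E.indicator f x + N.indicator (fun _ => (1 : ℝ)) x) μ :=
      iF.add iN
    have e1 : ∫ x, (E.indicator f x + N.indicator (fun _ => (1 : ℝ)) x +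
        E.indicator (fun _ => K) x) ∂μ =
        (∫ x in E, f x ∂μ) + (μ N).toReal + K * (μ E).toReal := by
      rw [integral_add i1 (iE K), integral_add iF iN, eF, eN, eE]
    rw [← eP, ← e1]
    refine integral_mono iP (i1.add (iE K)) fun x => ?_
    change P.indicator (fun _ => (1 : ℝ)) x ≤
      E.indicator f x + N.indicator (fun _ => (1 : ℝ)) x + E.indicator (fun _ => K) x
    by_cases hx : x ∈ P
    · rw [indicator_of_mem hx]
      rcases up x hx with h | ⟨h, h'⟩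
      · rw [indicator_of_mem h]
        have := nF x
        have := nn E K x hK
        linarith
      · rw [indicator_of_mem h, indicator_of_mem h]
        have := nn N 1 x zero_le_one
        linarith
    · rw [indicator_of_notMem hx]
      have := nF x
      have := nn E K x hK
      have := nn N 1 x zero_le_one
      linarith
  have low' : ∫ x in E, f x ∂μ ≤
      (μ P).toReal + (μ N).toReal + (μ W).toReal + K' * (μ E).toReal := by
    have i1 : Integrable (fun x => P.indicator (fun _ => (1 : ℝ)) x +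
        N.indicator (fun _ => (1 : ℝ)) x) μ := iP.add iN
    have i2 : Integrable (fun x => P.indicator (fun _ => (1 : ℝ)) x +
        N.indicator (fun _ => (1 : ℝ)) x + W.indicator (fun _ => (1 : ℝ)) x) μ := i1.add iW
    have e1 : ∫ x, (P.indicator (fun _ => (1 : ℝ)) x + N.indicator (fun _ => (1 : ℝ)) x +
        W.indicator (fun _ => (1 : ℝ)) x + E.indicator (fun _ => K') x) ∂μ =
        (μ P).toReal + (μ N).toReal + (μ W).toReal + K' * (μ E).toReal := by
      rw [integral_add i2 (iE K'), integral_add i1 iW, integral_add iP iN, eP, eN, eW, eE]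
    rw [← eF, ← e1]
    refine integral_mono iF (i2.add (iE K')) fun x => ?_
    change E.indicator f x ≤ P.indicator (fun _ => (1 : ℝ)) x + N.indicator (fun _ => (1 : ℝ)) x +
      W.indicator (fun _ => (1 : ℝ)) x + E.indicator (fun _ => K') x
    have n1 := nn P 1 x zero_le_one
    have n2 := nn N 1 x zero_le_one
    have n3 := nn W 1 x zero_le_one
    have n4 := nn E K' x hK'
    have n5 := h1 x
    by_cases hx : x ∈ E
    · have e1 : E.indicator f x = f x := indicator_of_mem hx _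
      rw [e1]
      rcases low x hx with h | h | h | h
      · rw [indicator_of_mem h]; linarith
      · rw [indicator_of_mem h]; linarith
      · rw [indicator_of_mem h]; linarith
      · rw [indicator_of_mem hx (fun _ => K')]; linarith
    · have e1 : E.indicator f x = 0 := indicator_of_notMem hx _
      rw [e1]
      linarith
  have hEn : 0 ≤ (μ E).toReal := ENNReal.toReal_nonneg
  have hWn : 0 ≤ (μ W).toReal := ENNReal.toReal_nonneg
  have hNn : 0 ≤ (μ N).toReal := ENNReal.toReal_nonneg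
  rw [abs_le]
  constructor <;> nlinarith

lemma meas_SS (i₁ i₂ r : ℝ) : MeasurableSet (SS i₁ i₂ r) := by
  have hre : Measurable (fun z : ℍ => z.re) := UpperHalfPlane.continuous_re.measurable
  have him : Measurable (fun z : ℍ => Real.log z.im) := UpperHalfPlane.continuous_im.measurable.log
  exact (measurableSet_le measurable_const hre).inter
    ((measurableSet_lt hre measurable_const).inter (measurableSet_lt him.abs measurable_const))

lemma meas_NN (i₁ i₂ L C r : ℝ) : MeasurableSet (NN i₁ i₂ L C r) := by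
  have hre : Measurable (fun z : ℍ => z.re) := UpperHalfPlane.continuous_re.measurable
  have him : Measurable (fun z : ℍ => Real.log z.im) := UpperHalfPlane.continuous_im.measurable.log
  have hd : Measurable (fun z : ℍ => dist z UpperHalfPlane.I) :=
    (continuous_id.dist continuous_const).measurable
  refine (measurableSet_le hd measurable_const).inter (MeasurableSet.union ?_
    (MeasurableSet.union ?_ ?_))
  · exact measurableSet_le (hre.sub measurable_const).abs measurable_const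
  · exact measurableSet_le (hre.sub measurable_const).abs measurable_const
  · exact measurableSet_le (him.abs.sub measurable_const).abs measurable_const

lemma meas_pre (v : G) {S : Set ℍ} (hS : MeasurableSet S) :
    MeasurableSet {v' | base (v⁻¹ * v') ∈ S} :=
  (measurable_base.comp (meas_left v)) hS

lemma fin_pre {μ : Measure G} (hμ : Inv μ) (v : G) {S : Set ℍ} {a : ℝ}
    (hS : ∀ z ∈ S, dist z UpperHalfPlane.I ≤ a) : μ {v' | base (v⁻¹ * v') ∈ S} ≠ ⊤ := by
  have := hμ.fin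
  have hK : IsCompact (Metric.closedBall UpperHalfPlane.I a) := isCompact_closedBall _ _
  have h1 : IsCompact ((Homeomorph.mulLeft v⁻¹) ⁻¹'
      (base ⁻¹' Metric.closedBall UpperHalfPlane.I a)) :=
    (Homeomorph.mulLeft v⁻¹).isCompact_preimage.mpr (isCompact_base hK)
  refine ne_top_of_le_ne_top h1.measure_lt_top.ne (measure_mono ?_)
  intro v' hv'
  exact hS _ hv'

lemma small (K : ℝ) {b : ℝ} (hb : 0 < b) : ∃ r₁ : ℝ, 0 < r₁ ∧ ∀ r : ℝ, 0 < r → r < r₁ →
    K * r ≤ b := by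
  refine ⟨b / (|K| + 1), by positivity, fun r hr h => ?_⟩
  rw [lt_div_iff₀ (by positivity)] at h
  have := le_abs_self K
  nlinarith

lemma meas_RR (i₁ i₂ L r : ℝ) : MeasurableSet (RR i₁ i₂ L r) := by
  have h1 : Measurable (fun p : ℝ × ℝ => p.1 + p.2) := measurable_fst.add measurable_snd
  exact ((measurableSet_le measurable_const h1).inter (measurableSet_lt h1 measurable_const)).inter
    ((measurableSet_lt measurable_fst.abs measurable_const).inter
      (measurableSet_lt measurable_snd.abs measurable_const))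

lemma meas_R' (a b c d : ℝ) : MeasurableSet ({p : ℝ × ℝ | |p.1 + p.2| < a ∧ b ≤ |p.1 - p.2| ∧
    |p.1 - p.2| ≤ c} ∩ Sc d) := by
  have h1 : Measurable (fun p : ℝ × ℝ => p.1 + p.2) := measurable_fst.add measurable_snd
  have h2 : Measurable (fun p : ℝ × ℝ => p.1 - p.2) := measurable_fst.sub measurable_snd
  exact ((measurableSet_lt h1.abs measurable_const).inter
    ((measurableSet_le measurable_const h2.abs).inter
      (measurableSet_le h2.abs measurable_const))).inter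
    ((measurableSet_le measurable_fst.abs measurable_const).inter
      (measurableSet_le measurable_snd.abs measurable_const))

end

end Pool.Agent.A54.Dyn.DetM

namespace Pool.Agent.A54.Dyn

open MeasureTheory Filter Topology Set
open scoped ComplexConjugate UpperHalfPlane MatrixGroups ENNReal

open DetM in
/-- deterministic comparison -/
theorem stmtDet (hP : StmtProd) (hT : StmtTau) (hG2 : StmtGeo2) (hG3 : StmtGeo3)
    (hG4 : StmtGeo4) : StmtDet := by
  obtain ⟨C₂, c₂, hC2, hc2, h2⟩ := hG2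
  obtain ⟨C₃, c₃, hC3, hc3, h3⟩ := hG3
  obtain ⟨C₄, c₄, hC4, hc4, h4⟩ := hG4
  have g2 : Geo2 C₂ c₂ := h2
  have g3 : Geo3 C₃ c₃ := h3
  have g4 : Geo4 C₄ c₄ := h4
  obtain ⟨C, hC⟩ : ∃ C : ℝ, C = 2 + C₄ + 13 * C₃ + 2 / c₃ + ((1 + C₂) * C₄) ^ 2 := ⟨_, rfl⟩
  have p1 : 0 < 2 / c₃ := by positivity
  have p2 : 0 ≤ ((1 + C₂) * C₄) ^ 2 := by positivity
  have hCa : 2 ≤ C := by linarith
  have hCb : C₄ ≤ C := by linarith
  have hCc : 12 * C₃ < C := by linarith
  have hCd : 2 / c₃ ≤ C := by linarith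
  have hCe : ((1 + C₂) * C₄) ^ 2 ≤ C := by linarith
  refine ⟨C, by linarith, ?_⟩
  intro μ hμ i₁ i₂ L δ₀ hi hL hδ hδC
  obtain ⟨M, hM⟩ : ∃ M : ℝ, M = 1 + |i₁| + |i₂| := ⟨_, rfl⟩
  have hM1 : 1 ≤ M := by
    have := abs_nonneg i₁
    have := abs_nonneg i₂
    linarith
  have hC0 : 0 < C := by linarith
  have hδC' : C * δ₀ ≤ 1 := by
    rw [le_div_iff₀ hC0] at hδC
    linarith
  have hδ3 : 2 * δ₀ ≤ c₃ := by
    rw [div_le_iff₀ hc3] at hCd
    have h5 : C * (2 * δ₀) ≤ C * c₃ := by linarith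
    exact le_of_mul_le_mul_left h5 hC0
  have hδ1 : δ₀ ≤ 1 := by nlinarith
  have hL2 : 2 ≤ L := by
    rw [← hM] at hL
    nlinarith
  obtain ⟨a1, b1, k1⟩ := small 1 (b := 1) one_pos
  obtain ⟨a2, b2, k2⟩ := small L hc4
  obtain ⟨a3, b3, k3⟩ := small L (b := 1 / 2) (by norm_num)
  obtain ⟨a4, b4, k4⟩ := small (C₄ * L) hc2
  obtain ⟨a5, b5, k5⟩ := small (6 * M) hc2
  obtain ⟨a6, b6, k6⟩ := small (6 * M) hc3
  obtain ⟨a7, b7, k7⟩ := small (6 * M) hδ
  obtain ⟨a8, b8, k8⟩ := small (C₂ * (6 * M)) hδ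
  obtain ⟨a9, b9, k9⟩ := small (2 * L * M) (b := 1) one_pos
  refine ⟨min a1 (min a2 (min a3 (min a4 (min a5 (min a6 (min a7 (min a8 a9))))))),
    by positivity, ?_⟩
  intro r hr hrm m v
  simp only [lt_min_iff] at hrm
  obtain ⟨l1, l2, l3, l4, l5, l6, l7, l8, l9⟩ := hrm
  have r1 : r ≤ 1 := by
    have := k1 r hr l1
    linarith
  have r2 := k2 r hr l2
  have r3 := k3 r hr l3
  have r4 := k4 r hr l4
  have r5 := k5 r hr l5
  have r6 := k6 r hr l6
  have r7 := k7 r hr l7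
  have r8 : C₂ * (6 * M * r) ≤ δ₀ := by
    have := k8 r hr l8
    linarith
  have r9 := k9 r hr l9
  rw [hM] at r5 r6 r7 r8 r9
  have hMr : 0 < C * (1 + |i₁| + |i₂|) * r := by
    rw [← hM]
    positivity
  -- the sets
  have hRR : RR i₁ i₂ L r ⊆ Sc (1 / 2) := by
    rintro p ⟨_, q1, q2⟩
    exact ⟨by linarith, by linarith⟩
  have mP := mu_B hP hT hμ v (meas_RR i₁ i₂ L r) hRR hr
  have mW := mu_B hP hT hμ v (meas_R' (C * (1 + |i₁| + |i₂|) * r) (L * r) (C * δ₀) (1 / 2))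
    inter_subset_right hMr
  have hfin : ∀ R, tau μ v R ≠ ⊤ := fun R =>
    ne_top_of_le_ne_top ((hT μ hμ).fin v).ne (measure_mono (subset_univ _))
  have key := compare (μ := μ) (E := {v' | base (v⁻¹ * v') ∈ SS i₁ i₂ r})
    (N := {v' | base (v⁻¹ * v') ∈ NN i₁ i₂ L C r}) (P := B v (RR i₁ i₂ L r) r)
    (W := B v ({p | |p.1 + p.2| < C * (1 + |i₁| + |i₂|) * r ∧ L * r ≤ |p.1 - p.2| ∧
        |p.1 - p.2| ≤ C * δ₀} ∩ Sc (1 / 2)) (C * (1 + |i₁| + |i₂|) * r))
    (meas_pre v (meas_SS _ _ _)) (meas_pre v (meas_NN _ _ _ _ _)) (meas_B v (meas_RR _ _ _ _) _)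
    (meas_B v (meas_R' _ _ _ _) _)
    (fin_pre hμ v (a := 2 * ((|i₁| + |i₂|) * r + 2 * r)) (by
      rintro z ⟨s1, s2, s3⟩
      apply dist_I_le r1 _ s3
      have b1 := mul_le_mul_of_nonneg_left (neg_abs_le i₁) hr.le
      have b2 := mul_le_mul_of_nonneg_left (le_abs_self i₂) hr.le
      have b3 := mul_nonneg hr.le (abs_nonneg i₁)
      have b4 := mul_nonneg hr.le (abs_nonneg i₂)
      rw [abs_le]
      constructor <;> linarith))
    (fin_pre hμ v (a := C * L * r) (fun z hz => hz.1))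
    (by rw [mP]; exact ENNReal.mul_ne_top ENNReal.ofReal_ne_top (hfin _))
    (by rw [mW]; exact ENNReal.mul_ne_top ENNReal.ofReal_ne_top (hfin _))
    (meas_FF m v) (FF_nonneg m v) (FF_le_one m v)
    (K := C * m * L ^ 2 * r ^ 2) (K' := (1 - δ₀ ^ 2 / 4) ^ m) (by positivity)
    (pow_nonneg (by nlinarith) m)
    (by
      intro v' hv'
      obtain ⟨g, hgv, hg, hR, hU⟩ := mem_B.mp hv'
      rcases claimA g4 hCb (by linarith) hr r2 hg hR hU with h | h
      · left
        rw [base_pm hgv] at h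
        exact h
      · right
        rw [base_pm hgv] at h
        refine ⟨h, ?_⟩
        have h5 := near g2 g4 hC2 (by linarith) hr r2 r4 hgv hg hR.2 hU m
        have h6 : ((1 + C₂) * C₄) ^ 2 * m * L ^ 2 * r ^ 2 ≤ C * m * L ^ 2 * r ^ 2 := by
          have h7 : 0 ≤ (m : ℝ) * L ^ 2 * r ^ 2 := by positivity
          have h8 := mul_le_mul_of_nonneg_right hCe h7
          linarith
        linarith)
    (by
      intro v' hv'
      by_cases hQ : ∃ g : G, (g = v⁻¹ * v' ∨ g = -(v⁻¹ * v')) ∧ g ∈ dom ∧ cP g ∈ Sq2 (L * r)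
      · obtain ⟨g, hgv, hg, hQ⟩ := hQ
        have hS : base g ∈ SS i₁ i₂ r := by
          rw [base_pm hgv]
          exact hv'
        rcases claimB g4 hCb hL2 hr r2 r9 hg hQ hS with h | h
        · right; left
          rw [base_pm hgv] at h
          exact h
        · left
          exact mem_B.mpr ⟨g, hgv, hg, h⟩
      · by_cases hd : ‖ze v' - ze v‖ ≤ δ₀
        · right; right; left
          refine claimC g2 g3 hC2 hC3 hCc hL hδ hδC' hδ3 hr r1 r5 r6 r7 r8 hv' hd ?_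
          intro g hgv hg hq
          exact hQ ⟨g, hgv, hg, hq⟩
        · right; right; right
          push Not at hd
          exact FF_far m v v' hδ hd)
  rw [mP, mW, ENNReal.toReal_mul, ENNReal.toReal_mul, ENNReal.toReal_ofReal (by positivity),
    ENNReal.toReal_ofReal (by positivity)] at key
  refine key.trans ?_
  have h5 : (tau μ v ({p | |p.1 + p.2| < C * (1 + |i₁| + |i₂|) * r ∧ L * r ≤ |p.1 - p.2| ∧
        |p.1 - p.2| ≤ C * δ₀} ∩ Sc (1 / 2))).toReal ≤
      (tau μ v {p | |p.1 + p.2| < C * (1 + |i₁| + |i₂|) * r ∧ L * r ≤ |p.1 - p.2| ∧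
        |p.1 - p.2| ≤ C * δ₀}).toReal :=
    ENNReal.toReal_mono (hfin _) (measure_mono inter_subset_left)
  have h6 := mul_le_mul_of_nonneg_left h5 (by positivity : 0 ≤ 4 * (C * (1 + |i₁| + |i₂|) * r))
  have h7 : ∀ x : ℝ, 4 * (C * (1 + |i₁| + |i₂|) * r) * x = 4 * C * (1 + |i₁| + |i₂|) * r * x :=
    fun x => by ring
  rw [h7, h7] at h6
  rw [h7]
  linarith

end Pool.Agent.A54.Dyn
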