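import Pool.Agent.Lib.MP_a54f13_nt.Dyn.Spec

/-!
`StmtE`: no mass of the transversal measures in cones, from `StmtL2up`, `StmtTau`, `StmtCross`.
-/

set_option autoImplicit false

namespace Pool.Agent.A54.Dyn

open MeasureTheory Filter Topology Set
open scoped ComplexConjugate UpperHalfPlane MatrixGroups ENNReal ContDiff Pointwise

noncomputable section

namespace EM

lemma isClosed_Sc (L : ℝ) : IsClosed (Sc L) := by
  have h1 : IsClosed {p : ℝ × ℝ | |p.1| ≤ L} := isClosed_le (by fun_prop) continuous_const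
  have h2 : IsClosed {p : ℝ × ℝ | |p.2| ≤ L} := isClosed_le (by fun_prop) continuous_const
  exact h1.inter h2

lemma Sc_mono {a b : ℝ} (h : a ≤ b) : Sc a ⊆ Sc b := fun _ hp => ⟨hp.1.trans h, hp.2.trans h⟩

/-- matrices with bounded entries -/
def Bd (B : ℝ) : Set G := {g | ∀ i j, |g i j| ≤ B}

lemma isCompact_Bd (B : ℝ) : IsCompact (Bd B) := by
  have h1 : IsCompact {M : Matrix (Fin 2) (Fin 2) ℝ | ∀ i j, |M i j| ≤ B} := by
    have h2 : IsCompact (Set.pi univ (fun _ : Fin 2 => Set.pi univ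
        (fun _ : Fin 2 => Metric.closedBall (0 : ℝ) B))) :=
      isCompact_univ_pi (fun _ => isCompact_univ_pi (fun _ => isCompact_closedBall _ _))
    have h3 : {M : Matrix (Fin 2) (Fin 2) ℝ | ∀ i j, |M i j| ≤ B} =
        (Set.pi univ (fun _ : Fin 2 => Set.pi univ
        (fun _ : Fin 2 => Metric.closedBall (0 : ℝ) B)) : Set (Fin 2 → Fin 2 → ℝ)) := by
      ext M
      constructor
      · intro h i _ j _
        rw [mem_closedBall_zero_iff]
        exact h i j
      · intro h i j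
        have := h i (mem_univ i) j (mem_univ j)
        rw [mem_closedBall_zero_iff] at this
        exact this
    rw [h3]
    exact h2
  exact Matrix.SpecialLinearGroup.isClosedEmbedding_val.isCompact_preimage h1

lemma box_sub : {g : G | g ∈ dom ∧ cP g ∈ Sc (1 / 2) ∧ cU g ∈ Ico (0 : ℝ) 1} ⊆ Bd 2 := by
  rintro g ⟨hg, hP, hU⟩
  have hx : |cX g| ≤ 1 / 2 := hP.1
  have hy : |cY g| ≤ 1 / 2 := hP.2
  have hxy : cX g * cY g ≤ 1 / 4 := by
    have h1 : |cX g * cY g| ≤ 1 / 2 * (1 / 2) := by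
      rw [abs_mul]; exact mul_le_mul hx hy (abs_nonneg _) (by norm_num)
    have := (abs_le.mp h1).2
    linarith
  have h3 : (3 : ℝ) / 4 ≤ 1 - cX g * cY g := by linarith
  have hu : Real.exp (cU g) ≤ 3 := by
    have h1 : Real.exp (cU g) ≤ Real.exp 1 := Real.exp_le_exp.mpr hU.2.le
    have h2 := Real.exp_one_lt_d9
    linarith
  have hu' : Real.exp (-cU g) ≤ 1 := by
    rw [Real.exp_le_one_iff]; linarith [hU.1]
  have h00 : g 0 0 ≤ 2 := by
    have h1 := sq_00 hg
    have h2 : Real.exp (cU g) / (1 - cX g * cY g) ≤ 4 := by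
      rw [div_le_iff₀ (by linarith)]; nlinarith
    nlinarith [hg.1]
  have h11 : g 1 1 ≤ 2 := by
    have h1 := sq_11 hg
    have h2 : Real.exp (-cU g) / (1 - cX g * cY g) ≤ 4 := by
      rw [div_le_iff₀ (by linarith)]; nlinarith
    nlinarith [hg.2]
  have h01 : |g 0 1| ≤ 2 := by
    have h1 : g 0 1 = cX g * g 1 1 := by
      unfold cX; rw [div_mul_cancel₀ _ hg.2.ne']
    rw [h1, abs_mul, abs_of_pos hg.2]
    nlinarith [hg.2, abs_nonneg (cX g)]
  have h10 : |g 1 0| ≤ 2 := by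
    have h1 : g 1 0 = cY g * g 0 0 := by
      unfold cY; rw [div_mul_cancel₀ _ hg.1.ne']
    rw [h1, abs_mul, abs_of_pos hg.1]
    nlinarith [hg.1, abs_nonneg (cY g)]
  intro i j
  fin_cases i <;> fin_cases j
  · exact (abs_of_pos hg.1).trans_le h00
  · exact h01
  · exact h10
  · exact (abs_of_pos hg.2).trans_le h11

/-- uniform bound for the total mass of the transversal measures over a compact set -/
lemma tau_bound {μ : Measure G} (hμ : Inv μ) {C : Set G} (hC : IsCompact C) :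
    ∃ B : ℝ≥0∞, B < ⊤ ∧ ∀ v ∈ C, tau μ v univ ≤ B := by
  have := hμ.fin
  have hK : IsCompact (C * Bd 2) := hC.mul (isCompact_Bd 2)
  refine ⟨μ (C * Bd 2), hK.measure_lt_top, ?_⟩
  intro v hv
  unfold tau
  by_cases hm : AEMeasurable cP ((μ.map (fun g => v⁻¹ * g)).restrict
    {g | g ∈ dom ∧ cP g ∈ Sc (1 / 2) ∧ cU g ∈ Ico (0 : ℝ) 1})
  · rw [Measure.map_apply_of_aemeasurable hm MeasurableSet.univ, preimage_univ,
      Measure.restrict_apply_univ]
    refine (measure_mono box_sub).trans ?_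
    have h1 : Measurable (fun g : G => v⁻¹ * g) := (continuous_const.mul continuous_id).measurable
    rw [Measure.map_apply h1 (isCompact_Bd 2).isClosed.measurableSet]
    refine measure_mono ?_
    intro g hg
    exact ⟨v, hv, v⁻¹ * g, hg, by simp⟩
  · rw [Measure.map_of_not_aemeasurable hm]
    simp

/-- averages of the transversal measures -/
def J (μ : Measure G) (K : Set ℍ) : Measure (ℝ × ℝ) :=
  Measure.bind (μ.restrict (base ⁻¹' K)) (tau μ)

lemma J_apply {μ : Measure G} (hT : TauP μ) (K : Set ℍ) {S : Set (ℝ × ℝ)} (hS : MeasurableSet S) :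
    J μ K S = ∫⁻ v in base ⁻¹' K, tau μ v S ∂μ :=
  Measure.bind_apply hS hT.meas.aemeasurable

lemma J_fin {μ : Measure G} (hμ : Inv μ) (hT : TauP μ) {K : Set ℍ} (hK : IsCompact K) :
    J μ K univ < ⊤ := by
  have := hμ.fin
  rw [J_apply hT K MeasurableSet.univ]
  have hC := isCompact_base hK
  obtain ⟨B, hB, hB'⟩ := tau_bound hμ hC
  calc ∫⁻ v in base ⁻¹' K, tau μ v univ ∂μ ≤ ∫⁻ _ in base ⁻¹' K, B ∂μ :=
        setLIntegral_mono' (measurable_base hK.isClosed.measurableSet) hB'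
    _ = B * μ (base ⁻¹' K) := by rw [setLIntegral_const]
    _ < ⊤ := ENNReal.mul_lt_top hB hC.measure_lt_top

lemma measurable_ph (t : ℝ) : Measurable (ph t) := by
  unfold ph; fun_prop

lemma J_shift {μ : Measure G} (hμ : Inv μ) (hT : TauP μ) {K K' : Set ℍ} (hK : IsClosed K)
    (hK' : IsClosed K') {t₀ : ℝ} (hsub : ∀ z ∈ K, ∀ w, dist w z ≤ t₀ → w ∈ K') {t : ℝ}
    (ht : |t| ≤ t₀) {R : Set (ℝ × ℝ)} (hR : MeasurableSet R) (hR1 : R ⊆ Sc (1 / 8))
    (hR2 : ph t ⁻¹' R ⊆ Sc (1 / 8)) : J μ K (ph t ⁻¹' R) ≤ J μ K' R := by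
  rw [J_apply hT K (measurable_ph t hR), J_apply hT K' hR]
  have hm : Measurable (fun g : G => g * fl t) := (continuous_id.mul continuous_const).measurable
  have hKm : MeasurableSet (base ⁻¹' K) := measurable_base hK.measurableSet
  have hKm' : MeasurableSet (base ⁻¹' K') := measurable_base hK'.measurableSet
  have hfm : Measurable (fun v => tau μ v R) := (Measure.measurable_coe hR).comp hT.meas
  calc ∫⁻ v in base ⁻¹' K, tau μ v (ph t ⁻¹' R) ∂μ
      = ∫⁻ v in base ⁻¹' K, tau μ (v * fl t) R ∂μ := by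
        refine lintegral_congr (fun v => ?_)
        exact (hT.flow v t R hR (hR1.trans (Sc_mono (by norm_num)))
          (hR2.trans (Sc_mono (by norm_num)))).symm
    _ = ∫⁻ v, (base ⁻¹' K).indicator (fun v => tau μ (v * fl t) R) v ∂μ := by
        rw [lintegral_indicator hKm]
    _ ≤ ∫⁻ v, (base ⁻¹' K').indicator (fun v => tau μ v R) (v * fl t) ∂μ := by
        refine lintegral_mono (fun v => ?_)
        by_cases hv : v ∈ base ⁻¹' K
        · have hv' : v * fl t ∈ base ⁻¹' K' := by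
            refine hsub (base v) hv _ ?_
            rw [dist_base_fl]; exact ht
          rw [indicator_of_mem hv, indicator_of_mem hv']
        · rw [indicator_of_notMem hv]; exact zero_le
    _ = ∫⁻ v, (base ⁻¹' K').indicator (fun v => tau μ v R) v ∂(μ.map (fun g => g * fl t)) := by
        rw [lintegral_map (hfm.indicator hKm') hm]
    _ = ∫⁻ v in base ⁻¹' K', tau μ v R ∂μ := by
        rw [hμ.right t, lintegral_indicator hKm']

end EM

open EM in
theorem stmtE (hL : StmtL2up) (hT : StmtTau) (hC : StmtCross) : StmtE := by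
  intro V ρ μ hμ hM K hK hKV
  have hTau := hT μ hμ
  obtain ⟨δ, hδ, hδV⟩ := hK.exists_cthickening_subset_open hM.isOpen hKV
  set t₀ : ℝ := δ / 2 with ht₀
  have ht₀' : 0 < t₀ := by positivity
  have hK1 : IsCompact (Metric.cthickening t₀ K) := hK.cthickening
  have hK2 : IsCompact (Metric.cthickening t₀ (Metric.cthickening t₀ K)) := hK1.cthickening
  have hK2V : Metric.cthickening t₀ (Metric.cthickening t₀ K) ⊆ V := by
    refine (Metric.cthickening_cthickening_subset ht₀'.le ht₀'.le K).trans ?_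
    have : t₀ + t₀ = δ := by rw [ht₀]; ring
    rw [this]; exact hδV
  have hs : ∀ K' : Set ℍ, ∀ z ∈ K', ∀ w, dist w z ≤ t₀ → w ∈ Metric.cthickening t₀ K' :=
    fun K' z hz w hw => Metric.mem_cthickening_of_dist_le w z t₀ K' hz hw
  obtain ⟨C, r₁, hC0, hr₁, hLup⟩ := hL V ρ μ hμ hM _ hK2 hK2V
  have hstrip : ∀ r : ℝ, MeasurableSet ({p : ℝ × ℝ | |p.1 + p.2| < r} ∩ Sc (1 / 8)) := fun r =>
    (measurableSet_lt (by fun_prop) measurable_const).inter (isClosed_Sc _).measurableSet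
  obtain ⟨⟨L₁, hL₁, h1⟩, ⟨Λ, hΛ, h2⟩⟩ := hC (J μ K) (J μ (Metric.cthickening t₀ K))
    (J μ (Metric.cthickening t₀ (Metric.cthickening t₀ K))) t₀ C r₁ ht₀' hC0 hr₁
    (J_fin hμ hTau hK) (J_fin hμ hTau hK1) (J_fin hμ hTau hK2)
    (fun t ht R hR hR1 hR2 =>
      ⟨J_shift hμ hTau hK.isClosed hK1.isClosed (hs _) ht hR hR1 hR2,
        J_shift hμ hTau hK1.isClosed hK2.isClosed (hs _) ht hR hR1 hR2⟩)
    (fun r hr hr' => by
      rw [J_apply hTau _ (hstrip r)]
      exact hLup r hr hr')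
  refine ⟨⟨L₁, hL₁, fun ε hε => ?_⟩, ⟨Λ, hΛ, fun ε hε => ?_⟩⟩
  · obtain ⟨η, r₂, hη, hr₂, h3⟩ := h1 ε hε
    refine ⟨η, r₂, hη, hr₂, fun r hr hr' => ?_⟩
    have hm : MeasurableSet {p : ℝ × ℝ | |p.1 + p.2| < r ∧ L₁ * r ≤ |p.1 - p.2| ∧
        |p.1 - p.2| ≤ η} := by
      have m1 : MeasurableSet {p : ℝ × ℝ | |p.1 + p.2| < r} :=
        measurableSet_lt (by fun_prop) measurable_const
      have m2 : MeasurableSet {p : ℝ × ℝ | L₁ * r ≤ |p.1 - p.2|} :=
        measurableSet_le measurable_const (by fun_prop)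
      have m3 : MeasurableSet {p : ℝ × ℝ | |p.1 - p.2| ≤ η} :=
        measurableSet_le (by fun_prop) measurable_const
      exact m1.inter (m2.inter m3)
    rw [← J_apply hTau K hm]
    exact h3 r hr hr'
  · obtain ⟨r₂, hr₂, h3⟩ := h2 ε hε
    refine ⟨r₂, hr₂, fun r hr hr' => ?_⟩
    have hm : MeasurableSet (Cone Λ ∩ Sc r) := by
      refine MeasurableSet.inter ?_ (isClosed_Sc _).measurableSet
      have m1 : MeasurableSet {p : ℝ × ℝ | p.1 * p.2 < 0} :=
        measurableSet_lt (by fun_prop) measurable_const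
      have m2 : MeasurableSet {p : ℝ × ℝ | |p.1| ≤ Λ * |p.2|} :=
        measurableSet_le (by fun_prop) (by fun_prop)
      have m3 : MeasurableSet {p : ℝ × ℝ | |p.2| ≤ Λ * |p.1|} :=
        measurableSet_le (by fun_prop) (by fun_prop)
      exact m1.inter (m2.inter m3)
    rw [← J_apply hTau K hm]
    exact h3 r hr hr'

end

end Pool.Agent.A54.Dyn
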