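import Pool.Agent.Lib.MP_a54f13_nt.Dyn.Spec1
import Pool.Agent.Lib.MP_a54f13_nt.Err

/-!
The second order error term: `h ∂̄ g_{n+2} = - q g_{n+1} - (n+1) h (∂q) g_n + O(h²)`.
-/

set_option autoImplicit false

namespace Pool.Agent.A54.Dyn

open MeasureTheory Filter Topology Set
open scoped ContDiff ComplexConjugate
open Pool.Agent.A54.Err

noncomputable section

namespace Err2M

lemma main2 (V : Set ℂ) (q : ℂ → ℝ) (hq : Pot V q) (n : ℕ) :
    ∃ d : ℕ → ℝ → ℂ → ℂ, (∀ j, Good (d j)) ∧ ∀ (h : ℝ) (f : ℂ → ℝ), Sol V q h f → ∀ z ∈ V,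
      (h : ℂ) * dzb (gg h f (n + 2)) z = -(q z : ℂ) * gg h f (n + 1) z +
        -((h : ℂ) * ((n + 1 : ℂ) * (A54.dz (fun w => (q w : ℂ)) z * gg h f n z))) +
        (h : ℂ) ^ 2 * ∑ j ∈ Finset.range (n + 1), d j h z * gg h f j z := by
  have hQ : ContDiff ℝ ∞ (fun w => (q w : ℂ)) := contDiff_ofReal hq.smooth
  have hQ1 : ContDiff ℝ ∞ (A54.dz (fun w => (q w : ℂ))) := contDiff_dz hQ
  have hstep : ∀ (h : ℝ) (f : ℂ → ℝ) (m : ℕ) (z : ℂ), Sol V q h f →
      (h : ℂ) * dzb (gg h f (m + 1)) z =
        (h : ℂ) * A54.dz (fun w => (h : ℂ) * dzb (gg h f m) w) z := by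
    intro h f m z hf
    have hg : ∀ m, ContDiff ℝ ∞ (gg h f m) := contDiff_gg hf.smooth h
    have : gg h f (m + 1) = fun w => (h : ℂ) * A54.dz (gg h f m) w := rfl
    rw [this, dzb_const_mul _ (contDiff_dz (hg m)), ← dz_dzb_comm (hg m),
      dz_const_mul _ (contDiff_dzb (hg m))]
  induction n with
  | zero =>
    refine ⟨fun _ _ _ => 0, fun _ => Good.const _ contDiff_const, fun h f hf z hz => ?_⟩
    have hg : ∀ m, ContDiff ℝ ∞ (gg h f m) := contDiff_gg hf.smooth h
    have e2 : A54.dz (fun w => (h : ℂ) * dzb (gg h f 1) w) z =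
        A54.dz (fun w => -(q w : ℂ) * gg h f 0 w) z :=
      dz_congr hq.isOpen (fun w hw => by
        rw [hf.eq w hw, gg_zero]; ring) hz
    rw [hstep h f 1 z hf, e2, dz_mul hQ.neg (hg 0), dz_neg hQ]
    simp only [gg_succ]
    simp
    ring
  | succ n ih =>
    obtain ⟨d, hd, hmain⟩ := ih
    refine ⟨fun j h z => ((if j = n + 1 then 0 else (h : ℂ) * A54.dz (d j h) z) +
        (if j = n then -((n + 1 : ℂ) * A54.dz (A54.dz (fun w => (q w : ℂ))) z) else 0)) +
        (if j = 0 then 0 else d (j - 1) h z), fun j => ?_, fun h f hf z hz => ?_⟩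
    · apply Good.add
      · apply Good.add
        · by_cases hj : j = n + 1
          · simp only [hj, if_true]
            exact Good.const _ contDiff_const
          · simp only [hj, if_false]
            exact Good.hmul _ (hd j).dz
        · by_cases hj : j = n
          · simp only [hj, if_true]
            exact Good.const _ (contDiff_const.mul (contDiff_dz hQ1)).neg
          · simp only [hj, if_false]
            exact Good.const _ contDiff_const
      · by_cases hj : j = 0
        · simp only [hj, if_true]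
          exact Good.const _ contDiff_const
        · simp only [hj, if_false]
          exact hd (j - 1)
    · have hg : ∀ m, ContDiff ℝ ∞ (gg h f m) := contDiff_gg hf.smooth h
      have hF : ∀ j, ContDiff ℝ ∞ (fun w => d j h w * gg h f j w) := fun j =>
        ((hd j).smooth h).mul (hg j)
      have e2 : A54.dz (fun w => (h : ℂ) * dzb (gg h f (n + 2)) w) z =
          A54.dz (fun w => (-(q w : ℂ) * gg h f (n + 1) w +
            -((h : ℂ) * ((n + 1 : ℂ) * (A54.dz (fun w => (q w : ℂ)) w * gg h f n w)))) +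
            (h : ℂ) ^ 2 * ∑ j ∈ Finset.range (n + 1), d j h w * gg h f j w) z :=
        dz_congr hq.isOpen (fun w hw => hmain h f hf w hw) hz
      have hA : ContDiff ℝ ∞ (fun w => -(q w : ℂ) * gg h f (n + 1) w) := hQ.neg.mul (hg (n + 1))
      have hB0 : ContDiff ℝ ∞ (fun w => A54.dz (fun w => (q w : ℂ)) w * gg h f n w) :=
        hQ1.mul (hg n)
      have hB1 : ContDiff ℝ ∞ (fun w => (n + 1 : ℂ) *
          (A54.dz (fun w => (q w : ℂ)) w * gg h f n w)) := contDiff_const.mul hB0
      have hB2 : ContDiff ℝ ∞ (fun w => (h : ℂ) * ((n + 1 : ℂ) *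
          (A54.dz (fun w => (q w : ℂ)) w * gg h f n w))) := contDiff_const.mul hB1
      have hC : ContDiff ℝ ∞ (fun w => (h : ℂ) ^ 2 *
          ∑ j ∈ Finset.range (n + 1), d j h w * gg h f j w) :=
        contDiff_const.mul (dz_sum (n + 1) _ hF z).1
      have e3 : A54.dz (fun w => (-(q w : ℂ) * gg h f (n + 1) w +
            -((h : ℂ) * ((n + 1 : ℂ) * (A54.dz (fun w => (q w : ℂ)) w * gg h f n w)))) +
            (h : ℂ) ^ 2 * ∑ j ∈ Finset.range (n + 1), d j h w * gg h f j w) z =
          ((-A54.dz (fun w => (q w : ℂ)) z * gg h f (n + 1) z +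
            -(q z : ℂ) * A54.dz (gg h f (n + 1)) z) +
          -((h : ℂ) * ((n + 1 : ℂ) * (A54.dz (A54.dz (fun w => (q w : ℂ))) z * gg h f n z +
            A54.dz (fun w => (q w : ℂ)) z * A54.dz (gg h f n) z)))) +
          (h : ℂ) ^ 2 * ∑ j ∈ Finset.range (n + 1), (A54.dz (d j h) z * gg h f j z +
            d j h z * A54.dz (gg h f j) z) := by
        rw [dz_add (hA.add hB2.neg) hC, dz_add hA hB2.neg, dz_mul hQ.neg (hg (n + 1)), dz_neg hQ,
          dz_neg hB2, dz_const_mul _ hB1, dz_const_mul _ hB0, dz_mul hQ1 (hg n),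
          dz_const_mul _ (dz_sum (n + 1) _ hF z).1, (dz_sum (n + 1) _ hF z).2]
        congr 2
        refine Finset.sum_congr rfl fun j _ => ?_
        exact dz_mul ((hd j).smooth h) (hg j)
      rw [show n + 1 + 2 = (n + 2) + 1 from rfl, hstep h f (n + 2) z hf, e2, e3]
      have e4 : ∑ j ∈ Finset.range (n + 1 + 1), (((if j = n + 1 then 0
            else (h : ℂ) * A54.dz (d j h) z) +
          (if j = n then -((n + 1 : ℂ) * A54.dz (A54.dz (fun w => (q w : ℂ))) z) else 0)) +
          (if j = 0 then 0 else d (j - 1) h z)) * gg h f j z =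
          ∑ j ∈ Finset.range (n + 1), (h : ℂ) * A54.dz (d j h) z * gg h f j z +
            -((n + 1 : ℂ) * A54.dz (A54.dz (fun w => (q w : ℂ))) z) * gg h f n z +
            ∑ j ∈ Finset.range (n + 1), d j h z * gg h f (j + 1) z := by
        simp only [add_mul, Finset.sum_add_distrib]
        congr 1
        · congr 1
          · rw [Finset.sum_range_succ, if_pos rfl, zero_mul, add_zero]
            refine Finset.sum_congr rfl fun j hj => ?_
            rw [if_neg (Finset.mem_range.1 hj).ne]
          · rw [Finset.sum_eq_single n]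
            · rw [if_pos rfl]
            · intro j _ hj
              rw [if_neg hj, zero_mul]
            · intro hn
              exfalso
              apply hn
              rw [Finset.mem_range]
              omega
        · rw [Finset.sum_range_succ']
          simp
      rw [e4]
      simp only [gg_succ, Finset.sum_add_distrib, mul_add, Finset.mul_sum]
      have e5 : ∀ j ∈ Finset.range (n + 1),
          (h : ℂ) ^ 2 * ((h : ℂ) * A54.dz (d j h) z * gg h f j z) =
          (h : ℂ) * ((h : ℂ) ^ 2 * (A54.dz (d j h) z * gg h f j z)) := fun j _ => by ring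
      have e6 : ∀ j ∈ Finset.range (n + 1),
          (h : ℂ) ^ 2 * (d j h z * ((h : ℂ) * A54.dz (gg h f j) z)) =
          (h : ℂ) * ((h : ℂ) ^ 2 * (d j h z * A54.dz (gg h f j) z)) := fun j _ => by ring
      rw [Finset.sum_congr rfl e5, Finset.sum_congr rfl e6]
      push_cast
      ring

end Err2M

theorem stmtErr2 : StmtErr2 := by
  intro V q hq n K hK hKV
  obtain ⟨c, hc, hmain⟩ := Err2M.main2 V q hq n
  choose C hC0 hC using fun j => (hc j).bound hK
  refine ⟨∑ j ∈ Finset.range (n + 1), C j, Finset.sum_nonneg fun j _ => hC0 j,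
    fun h f hf z hz => ?_⟩
  have e : (h : ℂ) * dzb (gg h f (n + 2)) z + (q z : ℂ) * gg h f (n + 1) z +
      (h : ℂ) * (n + 1) * dz (fun w => (q w : ℂ)) z * gg h f n z =
      (h : ℂ) ^ 2 * ∑ j ∈ Finset.range (n + 1), c j h z * gg h f j z := by
    rw [hmain h f hf z (hKV hz)]
    ring
  rw [e, norm_mul, norm_pow, Complex.norm_real, Real.norm_of_nonneg hf.hpos.le]
  refine mul_le_mul_of_nonneg_left ?_ (by positivity)
  refine (norm_sum_le _ _).trans ?_
  rw [Finset.mul_sum]
  refine Finset.sum_le_sum fun j hj => ?_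
  rw [norm_mul]
  refine mul_le_mul_of_nonneg_right ?_ (norm_nonneg _)
  exact (hC j h hf.hpos hf.hle z hz).trans
    (Finset.single_le_sum (f := C) (fun i _ => hC0 i) hj)

end

end Pool.Agent.A54.Dyn
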