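import Pool.Agent.Lib.MP_a54f13_nt.Dyn.Spec

/-!
Consequences of the mode formula (`StmtExt`).
-/

set_option autoImplicit false

namespace Pool.Agent.A54.Dyn.ExtMM

open MeasureTheory Filter Topology Set
open scoped ComplexConjugate UpperHalfPlane MatrixGroups ENNReal ContDiff

noncomputable section

/-- Smooth functions on the plane are dense in `L¹` of a finite measure on the half-plane. -/
lemma dense (m : Measure ℍ) [IsFiniteMeasure m] {ψ : ℍ → ℂ} (hψ : MemLp ψ 1 m) {ε : ℝ}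
    (hε : 0 < ε) : ∃ φ : ℂ → ℂ, ContDiff ℝ ∞ φ ∧ HasCompactSupport φ ∧
      ∫⁻ z, ‖ψ z - φ z‖ₑ ∂m ≤ ENNReal.ofReal ε := by
  have he := UpperHalfPlane.measurableEmbedding_coe
  have hfin : IsFiniteMeasure (m.map UpperHalfPlane.coe) :=
    Measure.isFiniteMeasure_map m UpperHalfPlane.coe
  have hcomp : (Function.extend UpperHalfPlane.coe ψ 0) ∘ UpperHalfPlane.coe = ψ := by
    funext z
    exact he.injective.extend_apply ψ 0 z
  have h1 : MemLp (Function.extend UpperHalfPlane.coe ψ 0) 1 (m.map UpperHalfPlane.coe) := by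
    rw [he.memLp_map_measure_iff, hcomp]
    exact hψ
  obtain ⟨φ, hφc, hφs, hφ⟩ := h1.exist_eLpNorm_sub_le (by simp) le_rfl hε
  refine ⟨φ, hφs, hφc, ?_⟩
  rw [eLpNorm_one_eq_lintegral_enorm, he.lintegral_map] at hφ
  refine le_trans (le_of_eq (lintegral_congr fun z => ?_)) hφ
  rw [Pi.sub_apply, he.injective.extend_apply ψ 0 z]

/-- Cutoff functions on the half-plane. -/
lemma cutoff {V K : Set ℍ} (hV : IsOpen V) (hK : IsCompact K) (hKV : K ⊆ V) :
    ∃ (χ : ℂ → ℝ) (K' : Set ℍ), TestR (UpperHalfPlane.coe '' V) χ ∧ (∀ z, 0 ≤ χ z ∧ χ z ≤ 1) ∧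
      (∀ z ∈ K, χ (z : ℂ) = 1) ∧ IsCompact K' ∧ K' ⊆ V ∧ ∀ z : ℍ, z ∉ K' → χ (z : ℂ) = 0 := by
  have hV' : IsOpen (UpperHalfPlane.coe '' V) := UpperHalfPlane.isOpenEmbedding_coe.isOpenMap V hV
  have hK' : IsCompact (UpperHalfPlane.coe '' K) := hK.image UpperHalfPlane.continuous_coe
  obtain ⟨χ, h1, h2, h3⟩ := exists_cutoff hK' hV' (image_mono hKV)
  refine ⟨χ, UpperHalfPlane.coe ⁻¹' tsupport χ, h1, h2, ?_, ?_, ?_, ?_⟩
  · intro z hz
    exact h3.self_of_nhdsSet _ (mem_image_of_mem _ hz)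
  · refine UpperHalfPlane.isOpenEmbedding_coe.isInducing.isCompact_preimage' h1.cpt.isCompact ?_
    exact h1.sub.trans (image_subset_range _ _)
  · intro z hz
    obtain ⟨w, hw, hwz⟩ := h1.sub hz
    rw [← UpperHalfPlane.isOpenEmbedding_coe.injective hwz]
    exact hw
  · intro z hz
    exact image_eq_zero_of_notMem_tsupport hz

lemma norm_zez (g : G) (n : ℤ) : ‖ze g ^ n‖ = 1 := by
  rw [norm_zpow, norm_ze, one_zpow]

lemma enorm_zez (g : G) (n : ℤ) : ‖ze g ^ n‖ₑ = 1 := by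
  rw [← ofReal_norm, norm_zez, ENNReal.ofReal_one]

lemma measurable_zpow (n : ℤ) : Measurable (fun g : G => ze g ^ n) :=
  (continuous_ze.zpow₀ n (fun g => Or.inl (ze_ne g))).measurable

lemma base_lt_top {μ : Measure G} (hμ : Inv μ) {K : Set ℍ} (hK : IsCompact K) :
    μ (base ⁻¹' K) < ⊤ :=
  haveI := hμ.fin
  (isCompact_base hK).measure_lt_top

lemma integrableOn_mode {V : Set ℍ} {ρ : ℤ → ℍ → ℂ} {μ : Measure G} (hM : Mod V ρ μ) (n : ℤ)
    {K : Set ℍ} (hK : IsCompact K) (hKV : K ⊆ V) : IntegrableOn (ρ n) K := by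
  have hfin : IsFiniteMeasure ((volume : Measure ℍ).restrict K) :=
    ⟨by rw [Measure.restrict_apply_univ]; exact hK.measure_lt_top⟩
  exact (hM.loc n K hK hKV).integrable (by norm_num)

lemma norm_integral_sub {α : Type*} [MeasurableSpace α] {m : Measure α} {f g : α → ℂ}
    (hf : Integrable f m) (hg : Integrable g m) {ε : ℝ} (hε : 0 ≤ ε)
    (h : ∫⁻ x, ‖f x - g x‖ₑ ∂m ≤ ENNReal.ofReal ε) : ‖∫ x, f x ∂m - ∫ x, g x ∂m‖ ≤ ε := by
  rw [← integral_sub hf hg]
  have h1 := (enorm_integral_le_lintegral_enorm (fun x => f x - g x)).trans h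
  rw [← ofReal_norm] at h1
  exact (ENNReal.ofReal_le_ofReal_iff hε).1 h1

/-- The mode formula for integrable functions with compact support. -/
lemma formula {V : Set ℍ} {ρ : ℤ → ℍ → ℂ} {μ : Measure G} (hμ : Inv μ) (hM : Mod V ρ μ) (n : ℤ)
    {K : Set ℍ} (hK : IsCompact K) (hKV : K ⊆ V) {ψ : ℍ → ℂ} (hψ : Measurable ψ)
    (h0 : ∀ z, z ∉ K → ψ z = 0) (h1 : Integrable (fun g => ψ (base g)) μ)
    (h2 : Integrable (fun z => ψ z * ρ n z)) :
    ∫ g, ψ (base g) * ze g ^ (-n) ∂μ = ∫ z, ψ z * ρ n z := by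
  obtain ⟨χ, K', hχ, hχ01, hχ1, hK'c, hK'V, hχ0⟩ := cutoff hM.isOpen hK hKV
  have hK'm : MeasurableSet K' := hK'c.isClosed.measurableSet
  obtain ⟨m, hm⟩ : ∃ m : Measure ℍ, m = (μ.map base +
    (volume : Measure ℍ).withDensity (fun z => ‖ρ n z‖ₑ)).restrict K' := ⟨_, rfl⟩
  have hρm : Measurable (fun z => ‖ρ n z‖ₑ) := (hM.meas n).enorm
  have hfin : IsFiniteMeasure m := by
    refine ⟨?_⟩
    rw [hm, Measure.restrict_apply_univ, Measure.add_apply, ENNReal.add_lt_top]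
    constructor
    · rw [Measure.map_apply measurable_base hK'm]
      exact base_lt_top hμ hK'c
    · rw [withDensity_apply _ hK'm]
      exact (integrableOn_mode hM n hK'c hK'V).2
  have hψm : MemLp ψ 1 m := by
    refine ⟨hψ.aestronglyMeasurable, ?_⟩
    rw [eLpNorm_one_eq_lintegral_enorm, hm]
    refine (lintegral_mono' Measure.restrict_le_self le_rfl).trans_lt ?_
    rw [lintegral_add_measure, ENNReal.add_lt_top]
    constructor
    · rw [lintegral_map hψ.enorm measurable_base]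
      exact h1.2
    · rw [lintegral_withDensity_eq_lintegral_mul _ hρm hψ.enorm]
      have h3 : ∫⁻ z, ‖ψ z * ρ n z‖ₑ < ⊤ := h2.2
      refine lt_of_le_of_lt (le_of_eq (lintegral_congr fun z => ?_)) h3
      rw [Pi.mul_apply, enorm_mul, mul_comm]
  refine eq_of_forall_dist_le fun ε hε => ?_
  obtain ⟨φ, hφs, hφc, hφ⟩ := dense m hψm (half_pos hε)
  have hε2 : (0 : ℝ) ≤ ε / 2 := (half_pos hε).le
  obtain ⟨φ', hφ'⟩ : ∃ φ' : ℂ → ℂ, φ' = fun z => (χ z : ℂ) * φ z := ⟨_, rfl⟩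
  have hT : Test (UpperHalfPlane.coe '' V) φ' := by
    rw [hφ']
    exact hχ.toTest.mul_right hφs
  have hφ'm : Measurable (fun z : ℍ => φ' z) :=
    hT.smooth.continuous.measurable.comp UpperHalfPlane.measurable_coe
  have hmode := hM.mode n φ' hT
  have hsub : Measurable (fun z : ℍ => ‖ψ z - φ' z‖ₑ) := (hψ.sub hφ'm).enorm
  have hpt : ∀ z : ℍ, ‖ψ z - φ' z‖ₑ ≤ K'.indicator (fun z : ℍ => ‖ψ z - φ z‖ₑ) z := by
    intro z
    have h3 : ψ z - φ' z = (χ z : ℂ) * (ψ z - φ z) := by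
      rw [hφ', mul_sub]
      congr 1
      by_cases hz : z ∈ K
      · rw [hχ1 z hz, Complex.ofReal_one, one_mul]
      · rw [h0 z hz, mul_zero]
    by_cases hz : z ∈ K'
    · rw [indicator_of_mem hz, h3, enorm_mul]
      have h4 : ‖(χ z : ℂ)‖ₑ ≤ 1 := by
        rw [← ofReal_norm, Complex.norm_real, Real.norm_eq_abs, abs_of_nonneg (hχ01 _).1]
        exact ENNReal.ofReal_le_one.2 (hχ01 _).2
      exact mul_le_of_le_one_left zero_le h4
    · rw [h3, hχ0 z hz, Complex.ofReal_zero, zero_mul, enorm_zero]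
      exact zero_le
  -- the left side
  have hL : ∫⁻ g, ‖ψ (base g) - φ' (base g)‖ₑ ∂μ ≤ ENNReal.ofReal (ε / 2) := by
    rw [← lintegral_map (f := fun z : ℍ => ‖ψ z - φ' z‖ₑ) hsub measurable_base]
    refine (lintegral_mono hpt).trans ?_
    rw [lintegral_indicator hK'm]
    refine (lintegral_mono' ?_ le_rfl).trans hφ
    rw [hm]
    exact Measure.restrict_mono_measure (Measure.le_add_right le_rfl) K'
  have hR : ∫⁻ z : ℍ, ‖ψ z - φ' z‖ₑ * ‖ρ n z‖ₑ ≤ ENNReal.ofReal (ε / 2) := by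
    have h3 : ∫⁻ z : ℍ, ‖ψ z - φ' z‖ₑ * ‖ρ n z‖ₑ
        = ∫⁻ z : ℍ, ‖ψ z - φ' z‖ₑ ∂((volume : Measure ℍ).withDensity (fun z => ‖ρ n z‖ₑ)) := by
      rw [lintegral_withDensity_eq_lintegral_mul _ hρm hsub]
      refine lintegral_congr fun z => ?_
      rw [Pi.mul_apply, mul_comm]
    rw [h3]
    refine (lintegral_mono hpt).trans ?_
    rw [lintegral_indicator hK'm]
    refine (lintegral_mono' ?_ le_rfl).trans hφ
    rw [hm]
    exact Measure.restrict_mono_measure (Measure.le_add_left le_rfl) K'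
  have hzm := measurable_zpow (-n)
  have hψb : Measurable (fun g => ψ (base g)) := hψ.comp measurable_base
  have hφb : Measurable (fun g => φ' (base g)) := hφ'm.comp measurable_base
  have hI1 : Integrable (fun g => ψ (base g) * ze g ^ (-n)) μ := by
    refine ⟨(hψb.mul hzm).aestronglyMeasurable, ?_⟩
    refine lt_of_le_of_lt (le_of_eq (lintegral_congr fun g => ?_)) h1.2
    rw [enorm_mul, enorm_zez, mul_one]
  have hI2 : Integrable (fun g => φ' (base g) * ze g ^ (-n)) μ := by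
    refine ⟨(hφb.mul hzm).aestronglyMeasurable, ?_⟩
    have h3 : ∫⁻ g, ‖φ' (base g) * ze g ^ (-n)‖ₑ ∂μ
        ≤ ∫⁻ g, (‖ψ (base g)‖ₑ + ‖ψ (base g) - φ' (base g)‖ₑ) ∂μ := by
      refine lintegral_mono fun g => ?_
      rw [enorm_mul, enorm_zez, mul_one]
      have h4 : φ' (base g) = ψ (base g) - (ψ (base g) - φ' (base g)) := by ring
      conv_lhs => rw [h4]
      exact enorm_sub_le
    refine h3.trans_lt ?_
    rw [lintegral_add_left hψb.enorm, ENNReal.add_lt_top]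
    exact ⟨h1.2, hL.trans_lt ENNReal.ofReal_lt_top⟩
  have hI3 : Integrable (fun z : ℍ => φ' z * ρ n z) := by
    refine ⟨(hφ'm.mul (hM.meas n)).aestronglyMeasurable, ?_⟩
    have h3 : ∫⁻ z : ℍ, ‖φ' z * ρ n z‖ₑ
        ≤ ∫⁻ z : ℍ, (‖ψ z * ρ n z‖ₑ + ‖ψ z - φ' z‖ₑ * ‖ρ n z‖ₑ) := by
      refine lintegral_mono fun z => ?_
      rw [← enorm_mul]
      have h4 : φ' z * ρ n z = ψ z * ρ n z - (ψ z - φ' z) * ρ n z := by ring
      conv_lhs => rw [h4]
      exact enorm_sub_le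
    refine h3.trans_lt ?_
    have h5 : Measurable (fun z => ‖ψ z * ρ n z‖ₑ) := (hψ.mul (hM.meas n)).enorm
    rw [lintegral_add_left h5, ENNReal.add_lt_top]
    exact ⟨h2.2, hR.trans_lt ENNReal.ofReal_lt_top⟩
  have hd1 : ‖∫ g, ψ (base g) * ze g ^ (-n) ∂μ - ∫ g, φ' (base g) * ze g ^ (-n) ∂μ‖ ≤ ε / 2 := by
    refine norm_integral_sub hI1 hI2 hε2 (le_trans (le_of_eq (lintegral_congr fun g => ?_)) hL)
    rw [← sub_mul, enorm_mul, enorm_zez, mul_one]
  have hd2 : ‖(∫ z, ψ z * ρ n z) - (∫ z : ℍ, φ' z * ρ n z)‖ ≤ ε / 2 := by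
    refine norm_integral_sub h2 hI3 hε2 (le_trans (le_of_eq (lintegral_congr fun z => ?_)) hR)
    rw [← sub_mul, enorm_mul]
  rw [dist_eq_norm]
  have h5 : ∫ g, ψ (base g) * ze g ^ (-n) ∂μ - ∫ z, ψ z * ρ n z
      = (∫ g, ψ (base g) * ze g ^ (-n) ∂μ - ∫ g, φ' (base g) * ze g ^ (-n) ∂μ)
        - ((∫ z, ψ z * ρ n z) - (∫ z : ℍ, φ' z * ρ n z)) := by
    rw [hmode]
    ring
  rw [h5]
  refine (norm_sub_le _ _).trans ?_
  linarith

/-- The mode formula for bounded functions with compact support. -/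
lemma formula_bdd {V : Set ℍ} {ρ : ℤ → ℍ → ℂ} {μ : Measure G} (hμ : Inv μ) (hM : Mod V ρ μ)
    (n : ℤ) {K : Set ℍ} (hK : IsCompact K) (hKV : K ⊆ V) {ψ : ℍ → ℂ} (hψ : Measurable ψ)
    (h0 : ∀ z, z ∉ K → ψ z = 0) (h1 : ∀ z, ‖ψ z‖ ≤ 1) :
    ∫ g, ψ (base g) * ze g ^ (-n) ∂μ = ∫ z, ψ z * ρ n z := by
  have hKm : MeasurableSet K := hK.isClosed.measurableSet
  refine formula hμ hM n hK hKV hψ h0 ?_ ?_
  · have h2 : IntegrableOn (fun g => ψ (base g)) (base ⁻¹' K) μ := by
      refine Measure.integrableOn_of_bounded (M := 1) (base_lt_top hμ hK).ne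
        (hψ.comp measurable_base).aestronglyMeasurable ?_
      exact ae_of_all _ fun g => h1 (base g)
    refine h2.integrable_of_forall_notMem_eq_zero fun g hg => ?_
    exact h0 _ hg
  · have h2 : IntegrableOn (fun z => ψ z * ρ n z) K :=
      (integrableOn_mode hM n hK hKV).bdd_mul hψ.aestronglyMeasurable (c := 1)
        (ae_of_all _ h1)
    refine h2.integrable_of_forall_notMem_eq_zero fun z hz => ?_
    rw [h0 z hz, zero_mul]

/-- The mode formula for sets. -/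
lemma formula_set {V : Set ℍ} {ρ : ℤ → ℍ → ℂ} {μ : Measure G} (hμ : Inv μ) (hM : Mod V ρ μ)
    (n : ℤ) {K : Set ℍ} (hK : IsCompact K) (hKV : K ⊆ V) {S : Set ℍ} (hS : MeasurableSet S)
    (hSK : S ⊆ K) : ∫ g in base ⁻¹' S, ze g ^ (-n) ∂μ = ∫ z in S, ρ n z := by
  have h := formula_bdd hμ hM n hK hKV (ψ := S.indicator fun _ => (1 : ℂ))
    (measurable_const.indicator hS) (fun z hz => indicator_of_notMem (fun h => hz (hSK h)) _)
    (fun z => by
      by_cases hz : z ∈ S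
      · rw [indicator_of_mem hz, norm_one]
      · rw [indicator_of_notMem hz, norm_zero]
        exact zero_le_one)
  rw [← integral_indicator hS, ← integral_indicator (measurable_base hS)]
  have e1 : ∀ g, (base ⁻¹' S).indicator (fun g => ze g ^ (-n)) g
      = (S.indicator (fun _ => (1 : ℂ)) (base g)) * ze g ^ (-n) := by
    intro g
    by_cases hg : base g ∈ S
    · rw [indicator_of_mem hg, indicator_of_mem (show g ∈ base ⁻¹' S from hg), one_mul]
    · rw [indicator_of_notMem hg, indicator_of_notMem (show g ∉ base ⁻¹' S from hg), zero_mul]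
  have e2 : ∀ z, S.indicator (ρ n) z = (S.indicator (fun _ => (1 : ℂ)) z) * ρ n z := by
    intro z
    by_cases hz : z ∈ S
    · rw [indicator_of_mem hz, indicator_of_mem hz, one_mul]
    · rw [indicator_of_notMem hz, indicator_of_notMem hz, zero_mul]
  rw [integral_congr_ae (ae_of_all _ e1), integral_congr_ae (ae_of_all _ e2)]
  exact h

lemma formula_zero {V : Set ℍ} {ρ : ℤ → ℍ → ℂ} {μ : Measure G} (hμ : Inv μ) (hM : Mod V ρ μ)
    {K : Set ℍ} (hK : IsCompact K) (hKV : K ⊆ V) {S : Set ℍ} (hS : MeasurableSet S)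
    (hSK : S ⊆ K) : ∫ z in S, ρ 0 z = ((μ (base ⁻¹' S)).toReal : ℂ) := by
  rw [← formula_set hμ hM 0 hK hKV hS hSK]
  simp [Measure.real]

lemma integral_re {V : Set ℍ} {ρ : ℤ → ℍ → ℂ} {μ : Measure G} (hμ : Inv μ) (hM : Mod V ρ μ)
    {K : Set ℍ} (hK : IsCompact K) (hKV : K ⊆ V) {S : Set ℍ} (hS : MeasurableSet S)
    (hSK : S ⊆ K) : ∫ z in S, (ρ 0 z).re = (μ (base ⁻¹' S)).toReal := by
  have h1 : IntegrableOn (ρ 0) S := (integrableOn_mode hM 0 hK hKV).mono_set hSK
  have h3 : ∫ z in S, Complex.reCLM (ρ 0 z) = Complex.reCLM (∫ z in S, ρ 0 z) :=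
    Complex.reCLM.integral_comp_comm h1
  rw [formula_zero hμ hM hK hKV hS hSK] at h3
  exact h3

lemma restrict_set {K S : Set ℍ} (hS : MeasurableSet S) :
    ((volume : Measure ℍ).restrict K).restrict S = (volume : Measure ℍ).restrict (S ∩ K) :=
  Measure.restrict_restrict hS

lemma real_on {V : Set ℍ} {ρ : ℤ → ℍ → ℂ} {μ : Measure G} (hμ : Inv μ) (hM : Mod V ρ μ)
    {K : Set ℍ} (hK : IsCompact K) (hKV : K ⊆ V) :
    ∀ᵐ z ∂((volume : Measure ℍ).restrict K), ρ 0 z = ((ρ 0 z).re : ℂ) ∧ 0 ≤ (ρ 0 z).re := by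
  have hKm : MeasurableSet K := hK.isClosed.measurableSet
  have hI := integrableOn_mode hM 0 hK hKV
  have hIre : Integrable (fun z => (ρ 0 z).re) ((volume : Measure ℍ).restrict K) := hI.re
  have h1 : (ρ 0) =ᵐ[(volume : Measure ℍ).restrict K] fun z => ((ρ 0 z).re : ℂ) := by
    refine Integrable.ae_eq_of_forall_setIntegral_eq _ _ hI hIre.ofReal ?_
    intro S hS _
    rw [restrict_set hS, formula_zero hμ hM hK hKV (hS.inter hKm) inter_subset_right,
      integral_complex_ofReal, integral_re hμ hM hK hKV (hS.inter hKm) inter_subset_right]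
  have h2 : 0 ≤ᵐ[(volume : Measure ℍ).restrict K] fun z => (ρ 0 z).re := by
    refine ae_nonneg_of_forall_setIntegral_nonneg hIre ?_
    intro S hS _
    rw [restrict_set hS, integral_re hμ hM hK hKV (hS.inter hKm) inter_subset_right]
    exact ENNReal.toReal_nonneg
  filter_upwards [h1, h2] with z hz1 hz2
  exact ⟨hz1, hz2⟩

lemma bound_on {V : Set ℍ} {ρ : ℤ → ℍ → ℂ} {μ : Measure G} (hμ : Inv μ) (hM : Mod V ρ μ) (n : ℤ)
    {K : Set ℍ} (hK : IsCompact K) (hKV : K ⊆ V) :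
    ∀ᵐ z ∂((volume : Measure ℍ).restrict K), ‖ρ n z‖ ≤ (ρ 0 z).re := by
  have hKm : MeasurableSet K := hK.isClosed.measurableSet
  have hI := integrableOn_mode hM 0 hK hKV
  have hIn := integrableOn_mode hM n hK hKV
  have hIre : Integrable (fun z => (ρ 0 z).re) ((volume : Measure ℍ).restrict K) := hI.re
  refine ae_le_of_forall_setIntegral_le hIn.norm hIre ?_
  intro S hS _
  have hT : MeasurableSet (S ∩ K) := hS.inter hKm
  rw [restrict_set hS, integral_re hμ hM hK hKV hT inter_subset_right]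
  obtain ⟨T, hTS⟩ : ∃ T, T = S ∩ K := ⟨_, rfl⟩
  have hTK : T ⊆ K := by rw [hTS]; exact inter_subset_right
  rw [← hTS] at hT ⊢
  have hn := hM.meas n
  obtain ⟨c, hc⟩ : ∃ c : ℍ → ℂ, c = fun z => conj (ρ n z) * ((‖ρ n z‖⁻¹ : ℝ) : ℂ) := ⟨_, rfl⟩
  have hcm : Measurable c := by
    rw [hc]
    exact (Complex.continuous_conj.measurable.comp hn).mul
      (Complex.measurable_ofReal.comp hn.norm.inv)
  have hc1 : ∀ z, ‖c z‖ ≤ 1 := by
    intro z
    rw [hc]
    show ‖conj (ρ n z) * ((‖ρ n z‖⁻¹ : ℝ) : ℂ)‖ ≤ 1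
    rw [norm_mul, RCLike.norm_conj, Complex.norm_real, norm_inv, norm_norm]
    exact mul_inv_le_one
  have hcρ : ∀ z, c z * ρ n z = ((‖ρ n z‖ : ℝ) : ℂ) := by
    intro z
    rw [hc]
    show conj (ρ n z) * ((‖ρ n z‖⁻¹ : ℝ) : ℂ) * ρ n z = _
    by_cases h0 : ρ n z = 0
    · rw [h0]
      simp
    · have h1 : (‖ρ n z‖ : ℝ) ≠ 0 := norm_ne_zero_iff.2 h0
      have h2 : conj (ρ n z) * ρ n z = ((‖ρ n z‖ ^ 2 : ℝ) : ℂ) := by
        rw [mul_comm, Complex.mul_conj, Complex.normSq_eq_norm_sq]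
      have h3 : conj (ρ n z) * ((‖ρ n z‖⁻¹ : ℝ) : ℂ) * ρ n z
          = (conj (ρ n z) * ρ n z) * ((‖ρ n z‖⁻¹ : ℝ) : ℂ) := by ring
      rw [h3, h2, ← Complex.ofReal_mul]
      congr 1
      field_simp
  have hf := formula_bdd hμ hM n hK hKV (ψ := T.indicator c) (hcm.indicator hT)
    (fun z hz => indicator_of_notMem (fun h => hz (hTK h)) _)
    (fun z => by
      by_cases hz : z ∈ T
      · rw [indicator_of_mem hz]
        exact hc1 z
      · rw [indicator_of_notMem hz, norm_zero]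
        exact zero_le_one)
  have e1 : ∫ z, T.indicator c z * ρ n z = ((∫ z in T, ‖ρ n z‖ : ℝ) : ℂ) := by
    rw [← integral_complex_ofReal, ← integral_indicator hT]
    refine integral_congr_ae (ae_of_all _ fun z => ?_)
    show T.indicator c z * ρ n z = T.indicator (fun z => ((‖ρ n z‖ : ℝ) : ℂ)) z
    by_cases hz : z ∈ T
    · rw [indicator_of_mem hz, indicator_of_mem hz, hcρ]
    · rw [indicator_of_notMem hz, indicator_of_notMem hz, zero_mul]
  have e2 : ‖∫ g, T.indicator c (base g) * ze g ^ (-n) ∂μ‖ ≤ (μ (base ⁻¹' T)).toReal := by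
    have e3 : ∫ g, T.indicator c (base g) * ze g ^ (-n) ∂μ
        = ∫ g in base ⁻¹' T, c (base g) * ze g ^ (-n) ∂μ := by
      rw [← integral_indicator (measurable_base hT)]
      refine integral_congr_ae (ae_of_all _ fun g => ?_)
      show T.indicator c (base g) * ze g ^ (-n)
        = (base ⁻¹' T).indicator (fun g => c (base g) * ze g ^ (-n)) g
      by_cases hg : base g ∈ T
      · rw [indicator_of_mem hg, indicator_of_mem (show g ∈ base ⁻¹' T from hg)]
      · rw [indicator_of_notMem hg, indicator_of_notMem (show g ∉ base ⁻¹' T from hg), zero_mul]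
    rw [e3]
    have hlt : μ (base ⁻¹' T) < ⊤ :=
      (measure_mono (preimage_mono hTK)).trans_lt (base_lt_top hμ hK)
    have e4 := norm_setIntegral_le_of_norm_le_const (μ := μ) (s := base ⁻¹' T) (C := 1)
      (f := fun g => c (base g) * ze g ^ (-n)) hlt (fun g _ => by
        rw [norm_mul, norm_zez, mul_one]
        exact hc1 _)
    rw [one_mul] at e4
    exact e4
  rw [hf, e1, Complex.norm_real, Real.norm_eq_abs] at e2
  exact (le_abs_self _).trans e2

lemma cj_on {V : Set ℍ} {ρ : ℤ → ℍ → ℂ} {μ : Measure G} (hμ : Inv μ) (hM : Mod V ρ μ) (n : ℤ)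
    {K : Set ℍ} (hK : IsCompact K) (hKV : K ⊆ V) :
    ∀ᵐ z ∂((volume : Measure ℍ).restrict K), ρ (-n) z = conj (ρ n z) := by
  have hKm : MeasurableSet K := hK.isClosed.measurableSet
  have hI := integrableOn_mode hM (-n) hK hKV
  have hIn := integrableOn_mode hM n hK hKV
  have hIc : Integrable (fun z => conj (ρ n z)) ((volume : Measure ℍ).restrict K) := by
    refine ⟨(Complex.continuous_conj.measurable.comp (hM.meas n)).aestronglyMeasurable, ?_⟩
    refine lt_of_le_of_lt (le_of_eq (lintegral_congr fun z => ?_)) hIn.2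
    rw [← ofReal_norm, ← ofReal_norm, RCLike.norm_conj]
  refine Integrable.ae_eq_of_forall_setIntegral_eq _ _ hI hIc ?_
  intro S hS _
  have hT : MeasurableSet (S ∩ K) := hS.inter hKm
  rw [restrict_set hS, integral_conj, ← formula_set hμ hM (-n) hK hKV hT inter_subset_right,
    ← formula_set hμ hM n hK hKV hT inter_subset_right, ← integral_conj]
  refine integral_congr_ae (ae_of_all _ fun g => ?_)
  show ze g ^ (-(-n)) = conj (ze g ^ (-n))
  have h1 : conj (ze g) = (ze g)⁻¹ := by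
    rw [Complex.inv_def, Complex.normSq_eq_norm_sq, norm_ze]
    simp
  rw [map_zpow₀, h1, inv_zpow, ← zpow_neg]

/-- Open sets are countable unions of compact sets. -/
lemma exhaust {V : Set ℍ} (hV : IsOpen V) :
    ∃ K : ℕ → Set ℍ, (∀ j, IsCompact (K j)) ∧ (∀ j, K j ⊆ V) ∧ V = ⋃ j, K j := by
  have h1 : LocallyCompactSpace V := hV.locallyCompactSpace
  have h2 : SigmaCompactSpace V := inferInstance
  refine ⟨fun j => Subtype.val '' compactCovering V j,
    fun j => (isCompact_compactCovering V j).image continuous_subtype_val, ?_, ?_⟩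
  · rintro j _ ⟨z, _, rfl⟩
    exact z.2
  · ext z
    rw [mem_iUnion]
    constructor
    · intro hz
      have h3 : (⟨z, hz⟩ : V) ∈ ⋃ j, compactCovering V j := by
        rw [iUnion_compactCovering]
        exact mem_univ _
      obtain ⟨j, hj⟩ := mem_iUnion.1 h3
      exact ⟨j, ⟨z, hz⟩, hj, rfl⟩
    · rintro ⟨j, w, _, rfl⟩
      exact w.2

lemma ae_of_compact {V : Set ℍ} (hV : IsOpen V) {p : ℍ → Prop}
    (h : ∀ K : Set ℍ, IsCompact K → K ⊆ V → ∀ᵐ z ∂((volume : Measure ℍ).restrict K), p z) :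
    ∀ᵐ z ∂((volume : Measure ℍ).restrict V), p z := by
  obtain ⟨K, hK, hKV, hVK⟩ := exhaust hV
  rw [hVK, ae_restrict_iUnion_iff]
  exact fun j => h (K j) (hK j) (hKV j)

lemma restrict_eq {V : Set ℍ} {ρ : ℤ → ℍ → ℂ} {μ : Measure G} (hμ : Inv μ) (hM : Mod V ρ μ) :
    (μ.map base).restrict V
      = ((volume : Measure ℍ).withDensity (fun z => ENNReal.ofReal (ρ 0 z).re)).restrict V := by
  obtain ⟨K, hK, hKV, hVK⟩ := exhaust hM.isOpen
  rw [hVK, Measure.restrict_iUnion_congr]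
  intro j
  have hKm : MeasurableSet (K j) := (hK j).isClosed.measurableSet
  ext S hS
  have hT : MeasurableSet (S ∩ K j) := hS.inter hKm
  rw [Measure.restrict_apply hS, Measure.restrict_apply hS,
    Measure.map_apply measurable_base hT, withDensity_apply _ hT]
  have h1 := integral_re hμ hM (hK j) (hKV j) hT inter_subset_right
  have hlt : μ (base ⁻¹' (S ∩ K j)) ≠ ⊤ :=
    ((measure_mono (preimage_mono inter_subset_right)).trans_lt (base_lt_top hμ (hK j))).ne
  have hI : Integrable (fun z => (ρ 0 z).re) ((volume : Measure ℍ).restrict (S ∩ K j)) :=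
    ((integrableOn_mode hM 0 (hK j) (hKV j)).mono_set inter_subset_right).re
  have hnn : 0 ≤ᵐ[(volume : Measure ℍ).restrict (S ∩ K j)] fun z => (ρ 0 z).re := by
    have h2 := ae_restrict_of_ae_restrict_of_subset inter_subset_right
      (real_on hμ hM (hK j) (hKV j)) (s := S ∩ K j)
    filter_upwards [h2] with z hz
    exact hz.2
  rw [← ofReal_integral_eq_lintegral_ofReal hI hnn, h1, ENNReal.ofReal_toReal hlt]

lemma proj_of {V : Set ℍ} {ρ : ℤ → ℍ → ℂ} {μ : Measure G} (hμ : Inv μ) (hM : Mod V ρ μ)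
    {S : Set ℍ} (hS : MeasurableSet S) (hSV : S ⊆ V) :
    μ (base ⁻¹' S) = ∫⁻ z in S, ENNReal.ofReal (ρ 0 z).re := by
  have h := congrArg (fun m : Measure ℍ => m S) (restrict_eq hμ hM)
  rw [Measure.restrict_apply hS, Measure.restrict_apply hS, inter_eq_left.2 hSV,
    Measure.map_apply measurable_base hS, withDensity_apply _ hS] at h
  exact h

lemma int_of {V : Set ℍ} {ρ : ℤ → ℍ → ℂ} {μ : Measure G} (hμ : Inv μ) (hM : Mod V ρ μ) (n : ℤ)
    {K : Set ℍ} {ψ : ℍ → ℂ} (hK : IsCompact K) (hKV : K ⊆ V) (hψ : Measurable ψ)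
    (h0 : ∀ z, z ∉ K → ψ z = 0) (h2 : MemLp ψ 2 volume) :
    Integrable (fun g => ψ (base g) * ze g ^ (-n)) μ ∧ Integrable (fun z => ψ z * ρ n z) ∧
      ∫ g, ψ (base g) * ze g ^ (-n) ∂μ = ∫ z, ψ z * ρ n z := by
  have hmul : ∀ k : ℤ, Integrable (fun z => ψ z * ρ k z) := by
    intro k
    have h3 : IntegrableOn (fun z => ψ z * ρ k z) K :=
      (h2.restrict K).integrable_mul (hM.loc k K hK hKV)
    refine h3.integrable_of_forall_notMem_eq_zero fun z hz => ?_
    rw [h0 z hz, zero_mul]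
  have hb : Integrable (fun g => ψ (base g)) μ := by
    refine ⟨(hψ.comp measurable_base).aestronglyMeasurable, ?_⟩
    show ∫⁻ g, ‖ψ (base g)‖ₑ ∂μ < ⊤
    rw [← lintegral_map (f := fun z => ‖ψ z‖ₑ) hψ.enorm measurable_base]
    have h3 : ∫⁻ z, ‖ψ z‖ₑ ∂(μ.map base) = ∫⁻ z in V, ‖ψ z‖ₑ ∂(μ.map base) := by
      rw [← lintegral_indicator hM.isOpen.measurableSet]
      refine lintegral_congr fun z => ?_
      by_cases hz : z ∈ V
      · rw [indicator_of_mem hz]
      · rw [indicator_of_notMem hz, h0 z (fun h => hz (hKV h)), enorm_zero]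
    have hρm : Measurable (fun z => ENNReal.ofReal (ρ 0 z).re) :=
      ENNReal.measurable_ofReal.comp (Complex.measurable_re.comp (hM.meas 0))
    rw [h3, restrict_eq hμ hM]
    refine (lintegral_mono' Measure.restrict_le_self le_rfl).trans_lt ?_
    rw [lintegral_withDensity_eq_lintegral_mul _ hρm hψ.enorm]
    refine lt_of_le_of_lt (lintegral_mono fun z => ?_) (hmul 0).2
    rw [Pi.mul_apply, enorm_mul, mul_comm]
    gcongr
    rw [← ofReal_norm]
    exact ENNReal.ofReal_le_ofReal (Complex.re_le_norm _)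
  refine ⟨?_, hmul n, formula hμ hM n hK hKV hψ h0 hb (hmul n)⟩
  refine ⟨((hψ.comp measurable_base).mul (measurable_zpow (-n))).aestronglyMeasurable, ?_⟩
  refine lt_of_le_of_lt (le_of_eq (lintegral_congr fun g => ?_)) hb.2
  rw [enorm_mul, enorm_zez, mul_one]

end

end Pool.Agent.A54.Dyn.ExtMM

namespace Pool.Agent.A54.Dyn

open ExtMM

theorem stmtExt : StmtExt := by
  intro V ρ μ hμ hM
  exact
    { real := ae_of_compact hM.isOpen fun K hK hKV => real_on hμ hM hK hKV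
      bound := fun n => ae_of_compact hM.isOpen fun K hK hKV => bound_on hμ hM n hK hKV
      cj := fun n => ae_of_compact hM.isOpen fun K hK hKV => cj_on hμ hM n hK hKV
      proj := fun S hS hSV => proj_of hμ hM hS hSV
      int := fun n K ψ hK hKV hψ h0 h2 => int_of hμ hM n hK hKV hψ h0 h2 }

end Pool.Agent.A54.Dyn
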