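import Pool.Agent.Lib.MP_a54f13_nt.Dyn.Spec

set_option autoImplicit false

namespace Pool.Agent.A54.Dyn

open MeasureTheory Filter Topology Set
open scoped ComplexConjugate UpperHalfPlane MatrixGroups ENNReal ContDiff

noncomputable section

namespace F1M

lemma dist_I_le (z : ℍ) {a b : ℝ} (ha : |z.re| ≤ a) (hb : |Real.log z.im| ≤ b) (hb1 : b ≤ 1) :
    dist z UpperHalfPlane.I ≤ 2 * (a + 2 * b) := by
  have him := z.im_pos
  have h1 := UpperHalfPlane.dist_le_dist_coe_div_sqrt z UpperHalfPlane.I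
  rw [UpperHalfPlane.I_im, mul_one] at h1
  have h2 : dist (z : ℂ) (UpperHalfPlane.I : ℍ) ≤ |z.re| + |z.im - 1| := by
    rw [Complex.dist_eq]
    refine (Complex.norm_le_abs_re_add_abs_im _).trans (le_of_eq ?_)
    simp
  have h3 : |z.im - 1| ≤ 2 * b := by
    have := Real.abs_exp_sub_one_le (x := Real.log z.im) (hb.trans hb1)
    rw [Real.exp_log him] at this
    linarith
  have h4 : (1 : ℝ) / 2 ≤ √z.im := by
    apply Real.le_sqrt_of_sq_le
    have h5 : Real.exp (-1) ≤ z.im := by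
      rw [← Real.exp_log him]
      apply Real.exp_le_exp.2
      linarith [(abs_le.1 hb).1]
    have h6 : (1 : ℝ) / 4 ≤ Real.exp (-1) := by
      rw [Real.exp_neg, one_div]
      apply inv_anti₀ (Real.exp_pos _)
      linarith [Real.exp_one_lt_d9]
    norm_num
    linarith
  have hs : 0 < √z.im := by linarith
  refine h1.trans ?_
  rw [div_le_iff₀ hs]
  have hb0 : 0 ≤ b := (abs_nonneg _).trans hb
  have ha0 : 0 ≤ a := (abs_nonneg _).trans ha
  calc dist (z : ℂ) (UpperHalfPlane.I : ℍ) ≤ a + 2 * b := by linarith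
    _ = 2 * (a + 2 * b) * (1 / 2) := by ring
    _ ≤ 2 * (a + 2 * b) * √z.im := by gcongr

lemma of_dist_I (z : ℍ) {R : ℝ} (h : dist z UpperHalfPlane.I ≤ R) (hR : R ≤ 1) :
    |z.re| ≤ 2 * R ∧ |Real.log z.im| ≤ R := by
  constructor
  · have h1 := UpperHalfPlane.dist_coe_le z UpperHalfPlane.I
    rw [UpperHalfPlane.I_im, one_mul] at h1
    have h2 : |z.re| ≤ dist (z : ℂ) (UpperHalfPlane.I : ℍ) := by
      rw [Complex.dist_eq]
      have := Complex.abs_re_le_norm ((z : ℂ) - (UpperHalfPlane.I : ℍ))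
      simpa using this
    have h0 : 0 ≤ dist z UpperHalfPlane.I := dist_nonneg
    have h3 := Real.abs_exp_sub_one_le (x := dist z UpperHalfPlane.I) (by
      rw [abs_of_nonneg h0]; linarith)
    rw [abs_of_nonneg h0] at h3
    linarith [le_abs_self (Real.exp (dist z UpperHalfPlane.I) - 1)]
  · have h1 := UpperHalfPlane.dist_log_im_le z UpperHalfPlane.I
    rw [UpperHalfPlane.I_im, Real.log_one, Real.dist_eq, sub_zero] at h1
    exact h1.trans h

lemma measurable_re : Measurable (fun z : ℍ => z.re) := UpperHalfPlane.continuous_re.measurable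

lemma measurable_logim : Measurable (fun z : ℍ => Real.log z.im) :=
  Real.measurable_log.comp UpperHalfPlane.continuous_im.measurable

lemma measurableSet_SS (i₁ i₂ r : ℝ) : MeasurableSet (SS i₁ i₂ r) := by
  have h1 : MeasurableSet {z : ℍ | r * i₁ ≤ z.re} := measurableSet_le measurable_const measurable_re
  have h2 : MeasurableSet {z : ℍ | z.re < r * i₂} := measurableSet_lt measurable_re measurable_const
  have h3 : MeasurableSet {z : ℍ | |Real.log z.im| < r} :=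
    measurableSet_lt (measurable_logim.abs) measurable_const
  exact h1.inter (h2.inter h3)

lemma measurableSet_NN (i₁ i₂ L C r : ℝ) : MeasurableSet (NN i₁ i₂ L C r) := by
  have h0 : MeasurableSet {z : ℍ | dist z UpperHalfPlane.I ≤ C * L * r} :=
    measurableSet_le (measurable_id.dist measurable_const) measurable_const
  have h1 : MeasurableSet {z : ℍ | |z.re - r * i₁| ≤ C * L ^ 2 * r ^ 2} :=
    measurableSet_le ((measurable_re.sub_const _).abs) measurable_const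
  have h2 : MeasurableSet {z : ℍ | |z.re - r * i₂| ≤ C * L ^ 2 * r ^ 2} :=
    measurableSet_le ((measurable_re.sub_const _).abs) measurable_const
  have h3 : MeasurableSet {z : ℍ | |(|Real.log z.im|) - r| ≤ C * L ^ 2 * r ^ 2} :=
    measurableSet_le (((measurable_logim.abs).sub_const _).abs) measurable_const
  exact h0.inter (h1.union (h2.union h3))

lemma SS_subset (i₁ i₂ r : ℝ) (hr : 0 < r) (hr1 : r ≤ 1) :
    SS i₁ i₂ r ⊆ Metric.closedBall UpperHalfPlane.I (6 * (1 + |i₁| + |i₂|) * r) := by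
  rintro z ⟨h1, h2, h3⟩
  rw [Metric.mem_closedBall]
  have ha : |z.re| ≤ r * (|i₁| + |i₂|) := by
    rw [abs_le]
    constructor
    · have : -|i₁| ≤ i₁ := neg_abs_le _
      have h4 : 0 ≤ |i₂| := abs_nonneg _
      nlinarith
    · have : i₂ ≤ |i₂| := le_abs_self _
      have h4 : 0 ≤ |i₁| := abs_nonneg _
      nlinarith
  refine (dist_I_le z ha h3.le hr1).trans ?_
  have := abs_nonneg i₁
  have := abs_nonneg i₂
  nlinarith [mul_nonneg hr.le (abs_nonneg i₁), mul_nonneg hr.le (abs_nonneg i₂)]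

/-- volume of boxes, upper bound -/
lemma vol_box_le (hV : StmtVol) (a b α β : ℝ) (hab : a < b) (hαβ : α < β) (h1 : -1 ≤ α) :
    volume {z : ℍ | a ≤ z.re ∧ z.re ≤ b ∧ α ≤ Real.log z.im ∧ Real.log z.im ≤ β} ≤
      ENNReal.ofReal (12 * (b - a) * (β - α)) := by
  have h2 := hV a (2 * b - a) α (2 * β - α) (by linarith) (by linarith)
  refine (measure_mono ?_).trans (h2.le.trans ?_)
  · rintro z ⟨h3, h4, h5, h6⟩
    exact ⟨h3, by linarith, h5, by linarith⟩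
  · apply ENNReal.ofReal_le_ofReal
    have e1 : Real.exp (-(2 * β - α)) = Real.exp (-α) * Real.exp (-(2 * (β - α))) := by
      rw [← Real.exp_add]; congr 1; ring
    have e2 : 1 - 2 * (β - α) ≤ Real.exp (-(2 * (β - α))) := by
      have := Real.add_one_le_exp (-(2 * (β - α)))
      linarith
    have e3 : Real.exp (-α) ≤ 3 := by
      have : Real.exp (-α) ≤ Real.exp 1 := Real.exp_le_exp.2 (by linarith)
      linarith [Real.exp_one_lt_d9]
    have e4 : Real.exp (-α) - Real.exp (-(2 * β - α)) ≤ 3 * (2 * (β - α)) := by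
      rw [e1]
      have h5 : Real.exp (-α) - Real.exp (-α) * Real.exp (-(2 * (β - α))) =
        Real.exp (-α) * (1 - Real.exp (-(2 * (β - α)))) := by ring
      rw [h5]
      have h6 : 0 < Real.exp (-α) := Real.exp_pos _
      calc Real.exp (-α) * (1 - Real.exp (-(2 * (β - α)))) ≤ Real.exp (-α) * (2 * (β - α)) := by
            gcongr; linarith
        _ ≤ 3 * (2 * (β - α)) := by
            gcongr
    calc (2 * b - a - a) * (Real.exp (-α) - Real.exp (-(2 * β - α)))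
        ≤ (2 * b - a - a) * (3 * (2 * (β - α))) := by
          gcongr
          linarith
      _ = 12 * (b - a) * (β - α) := by ring

/-- volume of the boundary zone -/
lemma vol_NN_le (hV : StmtVol) (i₁ i₂ L C r : ℝ) (hL : 0 < L) (hC : 0 < C) (hr : 0 < r)
    (hr1 : r ≤ 1 / 4) (hR : C * L * r ≤ 1 / 4) (hκ : C * L ^ 2 * r ^ 2 ≤ 1 / 4) :
    volume (NN i₁ i₂ L C r) ≤ ENNReal.ofReal (400 * C ^ 2 * L ^ 3 * r ^ 3) := by
  set R := C * L * r with hRdef
  set κ := C * L ^ 2 * r ^ 2 with hκdef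
  have hR0 : 0 < R := by positivity
  have hκ0 : 0 < κ := by positivity
  have hsub : NN i₁ i₂ L C r ⊆
      {z : ℍ | r * i₁ - κ ≤ z.re ∧ z.re ≤ r * i₁ + κ ∧ -R ≤ Real.log z.im ∧ Real.log z.im ≤ R} ∪
      ({z : ℍ | r * i₂ - κ ≤ z.re ∧ z.re ≤ r * i₂ + κ ∧ -R ≤ Real.log z.im ∧ Real.log z.im ≤ R} ∪
      ({z : ℍ | -(2 * R) ≤ z.re ∧ z.re ≤ 2 * R ∧ r - κ ≤ Real.log z.im ∧ Real.log z.im ≤ r + κ} ∪
      {z : ℍ | -(2 * R) ≤ z.re ∧ z.re ≤ 2 * R ∧ -r - κ ≤ Real.log z.im ∧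
        Real.log z.im ≤ -r + κ})) := by
    rintro z ⟨h1, h2⟩
    obtain ⟨h3, h4⟩ := of_dist_I z h1 (by linarith)
    rw [abs_le] at h3 h4
    rcases h2 with h2 | h2 | h2
    · rw [abs_le] at h2
      left
      exact ⟨by linarith, by linarith, h4.1, h4.2⟩
    · rw [abs_le] at h2
      right; left
      exact ⟨by linarith, by linarith, h4.1, h4.2⟩
    · rw [abs_le] at h2
      rcases abs_cases (Real.log z.im) with ⟨h5, _⟩ | ⟨h5, _⟩
      · right; right; left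
        rw [h5] at h2
        exact ⟨h3.1, h3.2, by linarith, by linarith⟩
      · right; right; right
        rw [h5] at h2
        exact ⟨h3.1, h3.2, by linarith, by linarith⟩
  have v1 := vol_box_le hV (r * i₁ - κ) (r * i₁ + κ) (-R) R (by linarith) (by linarith) (by linarith)
  have v2 := vol_box_le hV (r * i₂ - κ) (r * i₂ + κ) (-R) R (by linarith) (by linarith) (by linarith)
  have v3 := vol_box_le hV (-(2 * R)) (2 * R) (r - κ) (r + κ) (by linarith) (by linarith)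
    (by linarith)
  have v4 := vol_box_le hV (-(2 * R)) (2 * R) (-r - κ) (-r + κ) (by linarith) (by linarith)
    (by linarith)
  refine (measure_mono hsub).trans ((measure_union_le _ _).trans ?_)
  refine (add_le_add v1 ((measure_union_le _ _).trans (add_le_add v2
    ((measure_union_le _ _).trans (add_le_add v3 v4))))).trans ?_
  have hp : 0 < R * κ := by positivity
  have x1 : (0:ℝ) ≤ 12 * (r * i₁ + κ - (r * i₁ - κ)) * (R - -R) := by nlinarith
  have x2 : (0:ℝ) ≤ 12 * (r * i₂ + κ - (r * i₂ - κ)) * (R - -R) := by nlinarith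
  have x3 : (0:ℝ) ≤ 12 * (2 * R - -(2 * R)) * (r + κ - (r - κ)) := by nlinarith
  have x4 : (0:ℝ) ≤ 12 * (2 * R - -(2 * R)) * (-r + κ - (-r - κ)) := by nlinarith
  rw [← ENNReal.ofReal_add x3 x4, ← ENNReal.ofReal_add x2 (by linarith),
    ← ENNReal.ofReal_add x1 (by linarith)]
  apply ENNReal.ofReal_le_ofReal
  have e : 12 * (r * i₁ + κ - (r * i₁ - κ)) * (R - -R) +
      (12 * (r * i₂ + κ - (r * i₂ - κ)) * (R - -R) +
      (12 * (2 * R - -(2 * R)) * (r + κ - (r - κ)) +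
      12 * (2 * R - -(2 * R)) * (-r + κ - (-r - κ)))) = 288 * (R * κ) := by ring
  rw [e]
  have e2 : R * κ = C ^ 2 * L ^ 3 * r ^ 3 := by rw [hRdef, hκdef]; ring
  rw [e2]
  have : 0 < C ^ 2 * L ^ 3 * r ^ 3 := by positivity
  linarith

/-- volume of the small box -/
lemma vol_SS (hV : StmtVol) (i₁ i₂ r : ℝ) (hi : i₁ < i₂) (hr : 0 < r) (hr1 : r ≤ 1 / 4) :
    volume (SS i₁ i₂ r) = ENNReal.ofReal (r * (i₂ - i₁) * (Real.exp r - Real.exp (-r))) := by
  have h0 := hV (r * i₁) (r * i₂) (-r) r (by nlinarith) (by linarith)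
  have hsub : SS i₁ i₂ r ⊆ {z : ℍ | r * i₁ ≤ z.re ∧ z.re < r * i₂ ∧ -r ≤ Real.log z.im ∧
      Real.log z.im < r} := by
    rintro z ⟨h1, h2, h3⟩
    rw [abs_lt] at h3
    exact ⟨h1, h2, h3.1.le, h3.2⟩
  have e0 : (r * i₂ - r * i₁) * (Real.exp (- -r) - Real.exp (-r)) =
      r * (i₂ - i₁) * (Real.exp r - Real.exp (-r)) := by rw [neg_neg]; ring
  rw [e0] at h0
  apply le_antisymm ((measure_mono hsub).trans h0.le)
  rw [← h0]
  have hex : {z : ℍ | r * i₁ ≤ z.re ∧ z.re < r * i₂ ∧ -r ≤ Real.log z.im ∧ Real.log z.im < r} ⊆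
      SS i₁ i₂ r ∪ {z : ℍ | r * i₁ ≤ z.re ∧ z.re ≤ r * i₂ ∧ Real.log z.im = -r} := by
    rintro z ⟨h1, h2, h3, h4⟩
    rcases h3.eq_or_lt with h | h
    · right; exact ⟨h1, h2.le, h.symm⟩
    · left; exact ⟨h1, h2, abs_lt.2 ⟨h, h4⟩⟩
  have hz : volume {z : ℍ | r * i₁ ≤ z.re ∧ z.re ≤ r * i₂ ∧ Real.log z.im = -r} = 0 := by
    apply le_antisymm _ (zero_le)
    have h5 : ∀ s : ℝ, 0 < s → volume {z : ℍ | r * i₁ ≤ z.re ∧ z.re ≤ r * i₂ ∧ Real.log z.im = -r} ≤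
        ENNReal.ofReal (12 * (r * i₂ - r * i₁) * s) := by
      intro s hs
      have h6 := vol_box_le hV (r * i₁) (r * i₂) (-r) (-r + s) (by nlinarith) (by linarith)
        (by linarith)
      have e6 : -r + s - -r = s := by ring
      rw [e6] at h6
      refine (measure_mono ?_).trans h6
      rintro z ⟨h1, h2, h3⟩
      exact ⟨h1, h2, by linarith, by linarith⟩
    have h7 : Tendsto (fun s : ℝ => ENNReal.ofReal (12 * (r * i₂ - r * i₁) * s)) (𝓝[>] 0) (𝓝 0) := by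
      have : Tendsto (fun s : ℝ => ENNReal.ofReal (12 * (r * i₂ - r * i₁) * s)) (𝓝 0)
          (𝓝 (ENNReal.ofReal (12 * (r * i₂ - r * i₁) * 0))) :=
        ENNReal.tendsto_ofReal (tendsto_const_nhds.mul tendsto_id)
      rw [mul_zero, ENNReal.ofReal_zero] at this
      exact this.mono_left nhdsWithin_le_nhds
    apply ge_of_tendsto h7
    filter_upwards [self_mem_nhdsWithin] with s hs
    exact h5 s hs
  calc _ ≤ volume (SS i₁ i₂ r ∪ {z : ℍ | r * i₁ ≤ z.re ∧ z.re ≤ r * i₂ ∧ Real.log z.im = -r}) :=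
        measure_mono hex
    _ ≤ volume (SS i₁ i₂ r) + 0 := by rw [← hz]; exact measure_union_le _ _
    _ = volume (SS i₁ i₂ r) := add_zero _

lemma vol_SS_toReal (hV : StmtVol) (i₁ i₂ r : ℝ) (hi : i₁ < i₂) (hr : 0 < r) (hr1 : r ≤ 1 / 4) :
    0 ≤ (volume (SS i₁ i₂ r)).toReal ∧ (volume (SS i₁ i₂ r)).toReal ≤ 4 * r ^ 2 * (i₂ - i₁) ∧
    |(volume (SS i₁ i₂ r)).toReal - 2 * r ^ 2 * (i₂ - i₁)| ≤ 2 * r ^ 3 * (i₂ - i₁) := by
  rw [vol_SS hV i₁ i₂ r hi hr hr1]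
  have h1 : 0 < i₂ - i₁ := by linarith
  have h2 := Real.abs_exp_sub_one_sub_id_le (x := r) (by rw [abs_of_pos hr]; linarith)
  have h3 := Real.abs_exp_sub_one_sub_id_le (x := -r) (by rw [abs_neg, abs_of_pos hr]; linarith)
  rw [abs_le] at h2 h3
  have h4 : |Real.exp r - Real.exp (-r) - 2 * r| ≤ 2 * r ^ 2 := by
    rw [abs_le]; constructor <;> nlinarith
  rw [abs_le] at h4
  have h5 : 0 ≤ Real.exp r - Real.exp (-r) := by
    have : Real.exp (-r) ≤ Real.exp r := Real.exp_le_exp.2 (by linarith)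
    linarith
  rw [ENNReal.toReal_ofReal (by positivity)]
  refine ⟨by positivity, ?_, ?_⟩
  · have h6 : Real.exp r - Real.exp (-r) ≤ 4 * r := by nlinarith
    calc r * (i₂ - i₁) * (Real.exp r - Real.exp (-r)) ≤ r * (i₂ - i₁) * (4 * r) := by gcongr
      _ = 4 * r ^ 2 * (i₂ - i₁) := by ring
  · have e : r * (i₂ - i₁) * (Real.exp r - Real.exp (-r)) - 2 * r ^ 2 * (i₂ - i₁) =
      (r * (i₂ - i₁)) * (Real.exp r - Real.exp (-r) - 2 * r) := by ring
    rw [e, abs_mul, abs_of_pos (by positivity : 0 < r * (i₂ - i₁))]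
    calc r * (i₂ - i₁) * |Real.exp r - Real.exp (-r) - 2 * r| ≤ r * (i₂ - i₁) * (2 * r ^ 2) := by
          gcongr
          rw [abs_le]; exact h4
      _ = 2 * r ^ 3 * (i₂ - i₁) := by ring


lemma FF_zero (v v' : G) : FF 0 v v' = 1 := by unfold FF; simp

lemma HH_zero (ρ : ℤ → ℍ → ℂ) (v : G) : HH ρ 0 v = (ρ 0 (base v)).re := by
  unfold HH; simp

lemma measurable_sect (μ : Measure G) (hμ : Inv μ) (m : ℕ) (S : Set ℍ) (hS : MeasurableSet S) :
    Measurable (fun v => ∫ v' in {v' | base (v⁻¹ * v') ∈ S}, FF m v v' ∂μ) := by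
  have := hμ.fin
  have hc : Continuous (fun p : G × G => base (p.1⁻¹ * p.2)) :=
    continuous_base.comp ((continuous_fst.inv).mul continuous_snd)
  have hE : MeasurableSet {p : G × G | base (p.1⁻¹ * p.2) ∈ S} := hc.measurable hS
  have hF : Continuous (fun p : G × G => FF m p.1 p.2) := by
    unfold FF
    exact ((((continuous_ze.comp continuous_fst).add (continuous_ze.comp continuous_snd)).norm.pow
      2).div_const 4).pow m
  have h1 : StronglyMeasurable (fun p : G × G =>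
      ({p : G × G | base (p.1⁻¹ * p.2) ∈ S}).indicator (fun p => FF m p.1 p.2) p) :=
    (hF.stronglyMeasurable).indicator hE
  have h2 := (h1.integral_prod_right' (ν := μ)).measurable
  have h3 : (fun v => ∫ v' in {v' | base (v⁻¹ * v') ∈ S}, FF m v v' ∂μ) =
      fun v => ∫ v', ({p : G × G | base (p.1⁻¹ * p.2) ∈ S}).indicator
        (fun p => FF m p.1 p.2) (v, v') ∂μ := by
    funext v
    have hSv : MeasurableSet {v' | base (v⁻¹ * v') ∈ S} :=
      (continuous_base.comp (continuous_const.mul continuous_id)).measurable hS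
    rw [← integral_indicator hSv]
    rfl
  rw [h3]
  exact h2

lemma sect_zero (μ : Measure G) (S : Set ℍ) (v : G) :
    ∫ v' in {v' | base (v⁻¹ * v') ∈ S}, FF 0 v v' ∂μ = (μ {v' | base (v⁻¹ * v') ∈ S}).toReal := by
  simp only [FF_zero]
  rw [setIntegral_const, smul_eq_mul, mul_one]
  rfl

/-- the average mass of a small set, from `StmtWin` with `m = 0` -/
lemma sect_mass {V : Set ℍ} {ρ : ℤ → ℍ → ℂ} {μ : Measure G} (hμ : Inv μ) (hH : StmtHH)
    (hM : Mod V ρ μ) {K : Set ℍ} (S : Set ℍ) (hS : MeasurableSet S) {e A : ℝ}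
    (hA : ∫⁻ v in base ⁻¹' K, ‖(ρ 0 (base v)).re‖ₑ ∂μ ≤ ENNReal.ofReal A)
    {w : ℝ} (hw0 : 0 ≤ w) (hw : volume S ≤ ENNReal.ofReal w)
    (h : ∫⁻ v in base ⁻¹' K, ‖(∫ v' in {v' | base (v⁻¹ * v') ∈ S}, FF 0 v v' ∂μ) -
      HH ρ 0 v * (volume S).toReal‖ₑ ∂μ ≤ ENNReal.ofReal e) :
    ∫⁻ v in base ⁻¹' K, ‖∫ v' in {v' | base (v⁻¹ * v') ∈ S}, FF 0 v v' ∂μ‖ₑ ∂μ ≤
      ENNReal.ofReal e + ENNReal.ofReal (A * w) := by
  obtain ⟨hHm, -, -⟩ := hH V ρ μ hμ hM
  have hwr : (volume S).toReal ≤ w := by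
    have := ENNReal.toReal_mono ENNReal.ofReal_ne_top hw
    rwa [ENNReal.toReal_ofReal hw0] at this
  have hm1 := measurable_sect μ hμ 0 S hS
  have hm2 : Measurable (fun v => (∫ v' in {v' | base (v⁻¹ * v') ∈ S}, FF 0 v v' ∂μ) -
      HH ρ 0 v * (volume S).toReal) := hm1.sub ((hHm 0).mul_const _)
  calc ∫⁻ v in base ⁻¹' K, ‖∫ v' in {v' | base (v⁻¹ * v') ∈ S}, FF 0 v v' ∂μ‖ₑ ∂μ
      ≤ ∫⁻ v in base ⁻¹' K, (‖(∫ v' in {v' | base (v⁻¹ * v') ∈ S}, FF 0 v v' ∂μ) -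
      HH ρ 0 v * (volume S).toReal‖ₑ + ENNReal.ofReal w * ‖(ρ 0 (base v)).re‖ₑ) ∂μ := by
        apply lintegral_mono
        intro v
        have h1 : (∫ v' in {v' | base (v⁻¹ * v') ∈ S}, FF 0 v v' ∂μ) =
          ((∫ v' in {v' | base (v⁻¹ * v') ∈ S}, FF 0 v v' ∂μ) -
            HH ρ 0 v * (volume S).toReal) + HH ρ 0 v * (volume S).toReal := by ring
        have h2 : ‖HH ρ 0 v * (volume S).toReal‖ₑ ≤ ENNReal.ofReal w * ‖(ρ 0 (base v)).re‖ₑ := by
          rw [HH_zero, enorm_mul, mul_comm, Real.enorm_of_nonneg ENNReal.toReal_nonneg]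
          exact mul_le_mul_left (ENNReal.ofReal_le_ofReal hwr) _
        calc ‖∫ v' in {v' | base (v⁻¹ * v') ∈ S}, FF 0 v v' ∂μ‖ₑ
            = ‖((∫ v' in {v' | base (v⁻¹ * v') ∈ S}, FF 0 v v' ∂μ) -
            HH ρ 0 v * (volume S).toReal) + HH ρ 0 v * (volume S).toReal‖ₑ := by rw [← h1]
          _ ≤ _ := (enorm_add_le _ _).trans (add_le_add le_rfl h2)
    _ = (∫⁻ v in base ⁻¹' K, ‖(∫ v' in {v' | base (v⁻¹ * v') ∈ S}, FF 0 v v' ∂μ) -
      HH ρ 0 v * (volume S).toReal‖ₑ ∂μ) +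
        ∫⁻ v in base ⁻¹' K, ENNReal.ofReal w * ‖(ρ 0 (base v)).re‖ₑ ∂μ :=
        lintegral_add_left hm2.enorm _
    _ = (∫⁻ v in base ⁻¹' K, ‖(∫ v' in {v' | base (v⁻¹ * v') ∈ S}, FF 0 v v' ∂μ) -
      HH ρ 0 v * (volume S).toReal‖ₑ ∂μ) +
        ENNReal.ofReal w * ∫⁻ v in base ⁻¹' K, ‖(ρ 0 (base v)).re‖ₑ ∂μ := by
        rw [lintegral_const_mul' _ _ ENNReal.ofReal_ne_top]
    _ ≤ ENNReal.ofReal e + ENNReal.ofReal w * ENNReal.ofReal A := by gcongr
    _ = ENNReal.ofReal e + ENNReal.ofReal (A * w) := by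
        rw [← ENNReal.ofReal_mul hw0, mul_comm]

/-- the main estimate with all error terms of size `e` -/
lemma assemble {V : Set ℍ} {ρ : ℤ → ℍ → ℂ} {μ : Measure G} (hμ : Inv μ) (hH : StmtHH)
    (hT : TauP μ) (hM : Mod V ρ μ) {K : Set ℍ} (hK : IsCompact K) (hKV : K ⊆ V)
    (SSs NNs : Set ℍ) (hSS : MeasurableSet SSs) (hNN : MeasurableSet NNs)
    (R RT : Set (ℝ × ℝ)) (hRT : MeasurableSet RT) (r c₁ c₂ w D e : ℝ)
    (m : ℕ) (hr : 0 < r) (hc₁ : 0 ≤ c₁) (hc₂ : 0 ≤ c₂) (hw : w = (volume SSs).toReal)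
    (hw1 : w ≤ 4 * r ^ 2 * D) (hw2 : |w - 2 * r ^ 2 * D| ≤ 2 * r ^ 3 * D) (hD : 0 < D) (he : 0 < e)
    (hdet : ∀ v : G, |4 * r * (tau μ v R).toReal -
      ∫ v' in {v' | base (v⁻¹ * v') ∈ SSs}, FF m v v' ∂μ| ≤
      (μ {v' | base (v⁻¹ * v') ∈ NNs}).toReal + c₁ * (μ {v' | base (v⁻¹ * v') ∈ SSs}).toReal +
        c₂ * (tau μ v RT).toReal)
    (t1 : ∫⁻ v in base ⁻¹' K, ‖∫ v' in {v' | base (v⁻¹ * v') ∈ NNs}, FF 0 v v' ∂μ‖ₑ ∂μ ≤
      ENNReal.ofReal e)
    (t2 : ENNReal.ofReal c₁ * ∫⁻ v in base ⁻¹' K,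
      ‖∫ v' in {v' | base (v⁻¹ * v') ∈ SSs}, FF 0 v v' ∂μ‖ₑ ∂μ ≤ ENNReal.ofReal e)
    (t3 : ENNReal.ofReal c₂ * ∫⁻ v in base ⁻¹' K, tau μ v RT ∂μ ≤ ENNReal.ofReal e)
    (t4 : ∫⁻ v in base ⁻¹' K, ‖(∫ v' in {v' | base (v⁻¹ * v') ∈ SSs}, FF m v v' ∂μ) -
      HH ρ m v * (volume SSs).toReal‖ₑ ∂μ ≤ ENNReal.ofReal e)
    (t5 : ENNReal.ofReal (4 * r ^ 2 * D) * ∫⁻ v in base ⁻¹' K, ‖HH ρ m v - 2 * aa ρ v‖ₑ ∂μ ≤
      ENNReal.ofReal e)
    (t6 : ENNReal.ofReal (4 * r ^ 3 * D) * ∫⁻ v in base ⁻¹' K, ‖(ρ 0 (base v)).re‖ₑ ∂μ ≤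
      ENNReal.ofReal e) :
    ENNReal.ofReal (4 * r) * ∫⁻ v in base ⁻¹' K, ‖(tau μ v R).toReal - aa ρ v * (r * D)‖ₑ ∂μ ≤
      ENNReal.ofReal (6 * e) := by
  obtain ⟨hHm, ham, -, haa, -⟩ := hH V ρ μ hμ hM
  have hKm : MeasurableSet (base ⁻¹' K) := measurable_base hK.isClosed.measurableSet
  have haaK : ∀ᵐ v ∂(μ.restrict (base ⁻¹' K)), 0 ≤ aa ρ v ∧ aa ρ v ≤ (ρ 0 (base v)).re := by
    have hle : μ.restrict (base ⁻¹' K) ≤ μ.restrict (base ⁻¹' V) :=
      Measure.restrict_mono (preimage_mono hKV) le_rfl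
    filter_upwards [ae_mono hle haa] with v hv
    exact ⟨hv.1, hv.2.1⟩
  have hmN := measurable_sect μ hμ 0 NNs hNN
  have hmS := measurable_sect μ hμ 0 SSs hSS
  have hmm := measurable_sect μ hμ m SSs hSS
  have hmT : Measurable (fun v => tau μ v RT) := (Measure.measurable_coe hRT).comp hT.meas
  have hmW : Measurable (fun v => (∫ v' in {v' | base (v⁻¹ * v') ∈ SSs}, FF m v v' ∂μ) -
      HH ρ m v * (volume SSs).toReal) := hmm.sub ((hHm m).mul_const _)
  have hmH : Measurable (fun v => HH ρ m v - 2 * aa ρ v) := (hHm m).sub (ham.const_mul 2)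
  have hpt : ∀ᵐ v ∂(μ.restrict (base ⁻¹' K)),
      ENNReal.ofReal (4 * r) * ‖(tau μ v R).toReal - aa ρ v * (r * D)‖ₑ ≤
      ‖∫ v' in {v' | base (v⁻¹ * v') ∈ NNs}, FF 0 v v' ∂μ‖ₑ +
      (ENNReal.ofReal c₁ * ‖∫ v' in {v' | base (v⁻¹ * v') ∈ SSs}, FF 0 v v' ∂μ‖ₑ +
      (ENNReal.ofReal c₂ * tau μ v RT +
      (‖(∫ v' in {v' | base (v⁻¹ * v') ∈ SSs}, FF m v v' ∂μ) -
        HH ρ m v * (volume SSs).toReal‖ₑ +
      (ENNReal.ofReal (4 * r ^ 2 * D) * ‖HH ρ m v - 2 * aa ρ v‖ₑ +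
      ENNReal.ofReal (4 * r ^ 3 * D) * ‖(ρ 0 (base v)).re‖ₑ)))) := by
    filter_upwards [haaK] with v hv
    obtain ⟨ha0, ha1⟩ := hv
    have hd := hdet v
    rw [← sect_zero μ NNs v, ← sect_zero μ SSs v] at hd
    have hN0 : 0 ≤ ∫ v' in {v' | base (v⁻¹ * v') ∈ NNs}, FF 0 v v' ∂μ := by
      rw [sect_zero]; exact ENNReal.toReal_nonneg
    have hS0 : 0 ≤ ∫ v' in {v' | base (v⁻¹ * v') ∈ SSs}, FF 0 v v' ∂μ := by
      rw [sect_zero]; exact ENNReal.toReal_nonneg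
    set N := ∫ v' in {v' | base (v⁻¹ * v') ∈ NNs}, FF 0 v v' ∂μ with hNdef
    set S := ∫ v' in {v' | base (v⁻¹ * v') ∈ SSs}, FF 0 v v' ∂μ with hSdef
    set F := ∫ v' in {v' | base (v⁻¹ * v') ∈ SSs}, FF m v v' ∂μ with hFdef
    have hρ0 : 0 ≤ (ρ 0 (base v)).re := ha0.trans ha1
    have hTle : ENNReal.ofReal (tau μ v RT).toReal ≤ tau μ v RT := ENNReal.ofReal_toReal_le
    have hT0 : 0 ≤ (tau μ v RT).toReal := ENNReal.toReal_nonneg
    rw [← hw]
    have key : 4 * r * |(tau μ v R).toReal - aa ρ v * (r * D)| ≤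
        N + (c₁ * S + (c₂ * (tau μ v RT).toReal + (|F - HH ρ m v * w| +
          (4 * r ^ 2 * D * |HH ρ m v - 2 * aa ρ v| + 4 * r ^ 3 * D * (ρ 0 (base v)).re)))) := by
      have e1 : 4 * r * |(tau μ v R).toReal - aa ρ v * (r * D)| =
          |4 * r * ((tau μ v R).toReal - aa ρ v * (r * D))| := by
        rw [abs_mul, abs_of_pos (by positivity : 0 < 4 * r)]
      have e2 : 4 * r * ((tau μ v R).toReal - aa ρ v * (r * D)) =
          (4 * r * (tau μ v R).toReal - F) + (F - HH ρ m v * w) +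
          w * (HH ρ m v - 2 * aa ρ v) + 2 * aa ρ v * (w - 2 * r ^ 2 * D) := by ring
      have e3 : |w * (HH ρ m v - 2 * aa ρ v)| ≤ 4 * r ^ 2 * D * |HH ρ m v - 2 * aa ρ v| := by
        have hw0 : 0 ≤ w := by rw [hw]; exact ENNReal.toReal_nonneg
        rw [abs_mul, abs_of_nonneg hw0]
        gcongr
      have e4 : |2 * aa ρ v * (w - 2 * r ^ 2 * D)| ≤ 4 * r ^ 3 * D * (ρ 0 (base v)).re := by
        rw [abs_mul, abs_of_nonneg (by positivity : 0 ≤ 2 * aa ρ v)]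
        calc 2 * aa ρ v * |w - 2 * r ^ 2 * D| ≤ 2 * (ρ 0 (base v)).re * (2 * r ^ 3 * D) := by
              gcongr
          _ = _ := by ring
      rw [e1, e2]
      have a1 := abs_add_le ((4 * r * (tau μ v R).toReal - F) + (F - HH ρ m v * w) +
          w * (HH ρ m v - 2 * aa ρ v)) (2 * aa ρ v * (w - 2 * r ^ 2 * D))
      have a2 := abs_add_le ((4 * r * (tau μ v R).toReal - F) + (F - HH ρ m v * w))
          (w * (HH ρ m v - 2 * aa ρ v))
      have a3 := abs_add_le (4 * r * (tau μ v R).toReal - F) (F - HH ρ m v * w)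
      linarith
    have l1 : ENNReal.ofReal (4 * r) * ‖(tau μ v R).toReal - aa ρ v * (r * D)‖ₑ =
        ENNReal.ofReal (4 * r * |(tau μ v R).toReal - aa ρ v * (r * D)|) := by
      rw [ENNReal.ofReal_mul (by positivity : 0 ≤ 4 * r), Real.enorm_eq_ofReal_abs]
    rw [l1]
    refine (ENNReal.ofReal_le_ofReal key).trans ?_
    rw [ENNReal.ofReal_add hN0 (by positivity), ENNReal.ofReal_add (by positivity) (by positivity),
      ENNReal.ofReal_add (by positivity) (by positivity),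
      ENNReal.ofReal_add (by positivity) (by positivity),
      ENNReal.ofReal_add (by positivity) (by positivity)]
    rw [ENNReal.ofReal_mul hc₁, ENNReal.ofReal_mul hc₂,
      ENNReal.ofReal_mul (by positivity : 0 ≤ 4 * r ^ 2 * D),
      ENNReal.ofReal_mul (by positivity : 0 ≤ 4 * r ^ 3 * D),
      Real.enorm_of_nonneg hN0, Real.enorm_of_nonneg hS0, Real.enorm_of_nonneg hρ0,
      Real.enorm_eq_ofReal_abs, Real.enorm_eq_ofReal_abs]
    gcongr
  rw [← lintegral_const_mul' _ _ ENNReal.ofReal_ne_top]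
  refine (lintegral_mono_ae hpt).trans ?_
  rw [lintegral_add_left hmN.enorm, lintegral_add_left (hmS.enorm.const_mul _),
    lintegral_add_left (hmT.const_mul _), lintegral_add_left hmW.enorm,
    lintegral_add_left (hmH.enorm.const_mul _), lintegral_const_mul' _ _ ENNReal.ofReal_ne_top,
    lintegral_const_mul' _ _ ENNReal.ofReal_ne_top, lintegral_const_mul' _ _ ENNReal.ofReal_ne_top,
    lintegral_const_mul' _ _ ENNReal.ofReal_ne_top]
  refine (add_le_add t1 (add_le_add t2 (add_le_add t3 (add_le_add t4 (add_le_add t5 t6))))).trans ?_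
  rw [← ENNReal.ofReal_add he.le he.le, ← ENNReal.ofReal_add he.le (by positivity),
    ← ENNReal.ofReal_add he.le (by positivity), ← ENNReal.ofReal_add he.le (by positivity),
    ← ENNReal.ofReal_add he.le (by positivity)]
  apply ENNReal.ofReal_le_ofReal
  linarith


lemma measurableSet_RT (a b c : ℝ) :
    MeasurableSet {p : ℝ × ℝ | |p.1 + p.2| < a ∧ b ≤ |p.1 - p.2| ∧ |p.1 - p.2| ≤ c} := by
  have h1 : MeasurableSet {p : ℝ × ℝ | |p.1 + p.2| < a} :=
    measurableSet_lt ((measurable_fst.add measurable_snd).abs) measurable_const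
  have h2 : MeasurableSet {p : ℝ × ℝ | b ≤ |p.1 - p.2|} :=
    measurableSet_le measurable_const ((measurable_fst.sub measurable_snd).abs)
  have h3 : MeasurableSet {p : ℝ × ℝ | |p.1 - p.2| ≤ c} :=
    measurableSet_le ((measurable_fst.sub measurable_snd).abs) measurable_const
  exact h1.inter (h2.inter h3)

lemma ev_small (c : ℝ) : ∀ᶠ r : ℝ in 𝓝[>] 0, r * c < 1 := by
  have h : Tendsto (fun r : ℝ => r * c) (𝓝 0) (𝓝 (0 * c)) := tendsto_id.mul_const c
  rw [zero_mul] at h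
  exact (h.mono_left nhdsWithin_le_nhds).eventually_lt_const one_pos

end F1M

open F1M in
theorem stmtF1 (hV : StmtVol) (hE : StmtExt) (hW : StmtWin) (hH : StmtHH) (hO : StmtE)
    (hD : StmtDet) (hT : StmtTau) : StmtF1 := by
  have _ := hE
  intro V ρ μ hμ hM K hK hKV
  obtain ⟨C, hC1, hdet⟩ := hD
  obtain ⟨L₁, hL₁, hOE⟩ := (hO V ρ μ hμ hM K hK hKV).1
  have hTP := hT μ hμ
  obtain ⟨-, -, -, haa, hfin⟩ := hH V ρ μ hμ hM
  obtain ⟨hA, hlim⟩ := hfin K hK hKV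
  have hC0 : 0 < C := by linarith
  refine ⟨C + L₁ * C, by nlinarith [mul_pos hL₁ hC0], fun i₁ i₂ L hi hL ε hε => ?_⟩
  set M := 1 + |i₁| + |i₂| with hMdef
  have hM1 : 1 ≤ M := by
    have := abs_nonneg i₁
    have := abs_nonneg i₂
    linarith
  have hM0 : 0 < M := by linarith
  set D := i₂ - i₁ with hDdef
  have hD0 : 0 < D := by rw [hDdef]; linarith
  have hLC : C * M ≤ L := by nlinarith [mul_pos (mul_pos hL₁ hC0) hM0]
  have hLL : L₁ * (C * M) ≤ L := by nlinarith [mul_pos hC0 hM0]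
  have hL0 : 0 < L := lt_of_lt_of_le (mul_pos hC0 hM0) hLC
  -- the size of `ρ 0`
  have hKm : MeasurableSet (base ⁻¹' K) := measurable_base hK.isClosed.measurableSet
  set A : ℝ := (∫⁻ v in base ⁻¹' K, ENNReal.ofReal (ρ 0 (base v)).re ∂μ).toReal with hAdef
  have hA0 : 0 ≤ A := ENNReal.toReal_nonneg
  have hA' : ∫⁻ v in base ⁻¹' K, ‖(ρ 0 (base v)).re‖ₑ ∂μ ≤ ENNReal.ofReal A := by
    rw [hAdef, ENNReal.ofReal_toReal hA.ne]
    apply lintegral_mono_ae
    have hle : μ.restrict (base ⁻¹' K) ≤ μ.restrict (base ⁻¹' V) :=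
      Measure.restrict_mono (preimage_mono hKV) le_rfl
    filter_upwards [ae_mono hle haa] with v hv
    rw [Real.enorm_of_nonneg (hv.1.trans hv.2.1)]
  -- the choice of the constants
  set e := ε / 2 with he
  have he0 : 0 < e := by positivity
  obtain ⟨η, r₁, hη, hr₁, hOE'⟩ := hOE (e / (4 * C ^ 2 * M ^ 2)) (by positivity)
  set δ₀ := min (1 / C) (min 1 (η / C)) with hδ₀def
  have hδ₀ : 0 < δ₀ := by positivity
  have hδ₀C : δ₀ ≤ 1 / C := min_le_left _ _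
  have hδ₀1 : δ₀ ≤ 1 := (min_le_right _ _).trans (min_le_left _ _)
  have hδ₀η : C * δ₀ ≤ η := by
    have : δ₀ ≤ η / C := (min_le_right _ _).trans (min_le_right _ _)
    rw [le_div_iff₀ hC0] at this
    linarith
  obtain ⟨r₂, hr₂, hdet'⟩ := hdet μ hμ i₁ i₂ L δ₀ hi hLC hδ₀ hδ₀C
  -- the mass of SS
  set B := 4 * D * A + 1 with hBdef
  have hB0 : 0 < B := by positivity
  -- choice of m
  have hq : Tendsto (fun m : ℕ => (1 - δ₀ ^ 2 / 4) ^ m) atTop (𝓝 0) := by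
    apply tendsto_pow_atTop_nhds_zero_of_lt_one
    · nlinarith
    · have : 0 < δ₀ ^ 2 := by positivity
      linarith
  have hm1 : ∀ᶠ m : ℕ in atTop, (1 - δ₀ ^ 2 / 4) ^ m < e / (2 * B) :=
    hq.eventually_lt_const (by positivity)
  have hm2 : ∀ᶠ m : ℕ in atTop, ∫⁻ v in base ⁻¹' K, ‖HH ρ m v - 2 * aa ρ v‖ₑ ∂μ <
      ENNReal.ofReal (e / (4 * D)) :=
    hlim.eventually_lt_const (by rw [ENNReal.ofReal_pos]; positivity)
  obtain ⟨m, hqm, hmHH⟩ := (hm1.and hm2).exists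
  have hq0 : 0 ≤ (1 - δ₀ ^ 2 / 4) ^ m := by
    apply pow_nonneg
    nlinarith
  -- windows
  obtain ⟨r₃, hr₃, hW1⟩ := hW V ρ μ hμ hM K hK hKV m (e / (36 * M ^ 2)) (by positivity)
  obtain ⟨r₄, hr₄, hW2⟩ := hW V ρ μ hμ hM K hK hKV 0 (1 / (36 * M ^ 2)) (by positivity)
  obtain ⟨r₅, hr₅, hW3⟩ := hW V ρ μ hμ hM K hK hKV 0 (e / (2 * (C * L) ^ 2)) (by positivity)
  have hev : ∀ᶠ r : ℝ in 𝓝[>] 0, r * 4 < 1 ∧ r * (4 * C * L) < 1 ∧ r * (C * L ^ 2 * 4) < 1 ∧
      r * ((C * M) / r₁) < 1 ∧ r * (1 / r₂) < 1 ∧ r * ((6 * M) / r₃) < 1 ∧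
      r * ((6 * M) / r₄) < 1 ∧ r * ((C * L) / r₅) < 1 ∧
      r * (2 * (C * m * L ^ 2 * B) / e) < 1 ∧
      r * (2 * (A * (400 * C ^ 2 * L ^ 3)) / e) < 1 ∧ r * (4 * D * A / e) < 1 := by
    filter_upwards [ev_small 4, ev_small (4 * C * L), ev_small (C * L ^ 2 * 4),
      ev_small ((C * M) / r₁), ev_small (1 / r₂), ev_small ((6 * M) / r₃),
      ev_small ((6 * M) / r₄), ev_small ((C * L) / r₅),
      ev_small (2 * (C * m * L ^ 2 * B) / e), ev_small (2 * (A * (400 * C ^ 2 * L ^ 3)) / e),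
      ev_small (4 * D * A / e)] with r q1 q2 q3 q4 q5 q6 q7 q8 q9 q10 q11
    exact ⟨q1, q2, q3, q4, q5, q6, q7, q8, q9, q10, q11⟩
  obtain ⟨P, hP0, hP⟩ := mem_nhdsGT_iff_exists_Ioo_subset.1 hev
  refine ⟨P, hP0, fun r hr hrP => ?_⟩
  obtain ⟨q1, q2, q3, q4, q5, q6, q7, q8, q9, q10, q11⟩ := hP ⟨hr, hrP⟩
  have hr14 : r ≤ 1 / 4 := by linarith
  have hr1 : r ≤ 1 := by linarith
  have hrr : r ^ 2 ≤ r := by
    calc r ^ 2 = r * r := by ring
      _ ≤ r * 1 := by gcongr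
      _ = r := mul_one r
  have rr₁ : C * M * r < r₁ := by
    rw [mul_div_assoc', div_lt_one hr₁] at q4; linarith only [q4]
  have rr₂ : r < r₂ := by
    rw [mul_one_div, div_lt_one hr₂] at q5; exact q5
  have rr₃ : 6 * M * r < r₃ := by
    rw [mul_div_assoc', div_lt_one hr₃] at q6; linarith only [q6]
  have rr₄ : 6 * M * r < r₄ := by
    rw [mul_div_assoc', div_lt_one hr₄] at q7; linarith only [q7]
  have rr₅ : C * L * r < r₅ := by
    rw [mul_div_assoc', div_lt_one hr₅] at q8; linarith only [q8]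
  have s9 : r * (2 * (C * m * L ^ 2 * B)) < e := by
    rw [mul_div_assoc', div_lt_one he0] at q9; exact q9
  have s10 : r * (2 * (A * (400 * C ^ 2 * L ^ 3))) < e := by
    rw [mul_div_assoc', div_lt_one he0] at q10; exact q10
  have s11 : r * (4 * D * A) < e := by
    rw [mul_div_assoc', div_lt_one he0] at q11; exact q11
  -- volumes
  obtain ⟨hv0, hv1, hv2⟩ := vol_SS_toReal hV i₁ i₂ r hi hr hr14
  have hSSfin : volume (SS i₁ i₂ r) ≠ ⊤ := by
    rw [vol_SS hV i₁ i₂ r hi hr hr14]; exact ENNReal.ofReal_ne_top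
  have hSSle : volume (SS i₁ i₂ r) ≤ ENNReal.ofReal (4 * r ^ 2 * D) := by
    rw [← ENNReal.ofReal_toReal hSSfin]
    exact ENNReal.ofReal_le_ofReal hv1
  have hNNle := vol_NN_le hV i₁ i₂ L C r hL0 hC0 hr hr14 (by linarith only [q2]) (by
    have : C * L ^ 2 * r ^ 2 ≤ C * L ^ 2 * r := by
      gcongr
    linarith only [this, q3])
  have hr2 : 0 < r ^ 2 := by positivity
  -- mass of SS
  have mS := sect_mass hμ hH hM (SS i₁ i₂ r) (measurableSet_SS _ _ _) (e := r ^ 2) hA'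
    (w := 4 * r ^ 2 * D) (by positivity) hSSle (by
      have := hW2 (6 * M * r) (by positivity) rr₄ (SS i₁ i₂ r) (measurableSet_SS _ _ _)
        (SS_subset i₁ i₂ r hr hr1)
      refine this.trans (le_of_eq ?_)
      congr 1
      field_simp
      norm_num)
  have mN := sect_mass hμ hH hM (NN i₁ i₂ L C r) (measurableSet_NN _ _ _ _ _)
    (e := e * r ^ 2 / 2) hA'
    (w := 400 * C ^ 2 * L ^ 3 * r ^ 3) (by positivity) hNNle (by
      have := hW3 (C * L * r) (by positivity) rr₅ (NN i₁ i₂ L C r) (measurableSet_NN _ _ _ _ _)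
        (fun z hz => by rw [Metric.mem_closedBall]; exact hz.1)
      refine this.trans (le_of_eq ?_)
      congr 1
      field_simp)
  have hdd := hdet' r hr rr₂ m
  set R := {p : ℝ × ℝ | r * i₁ ≤ p.1 + p.2 ∧ p.1 + p.2 < r * i₂} ∩ Sq2 (L * r) with hRdef
  set RT := {p : ℝ × ℝ | |p.1 + p.2| < C * M * r ∧ L * r ≤ |p.1 - p.2| ∧ |p.1 - p.2| ≤ C * δ₀}
    with hRTdef
  have hfinal := assemble hμ hH hTP hM hK hKV (SS i₁ i₂ r) (NN i₁ i₂ L C r) (measurableSet_SS _ _ _)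
    (measurableSet_NN _ _ _ _ _) R RT (measurableSet_RT _ _ _) r
    (C * m * L ^ 2 * r ^ 2 + (1 - δ₀ ^ 2 / 4) ^ m) (4 * C * M * r)
    (volume (SS i₁ i₂ r)).toReal D (e * r ^ 2) m hr (by positivity) (by positivity) rfl hv1 hv2
    hD0 (by positivity) hdd ?_ ?_ ?_ ?_ ?_ ?_
  · -- conclusion
    have e1 : 6 * (e * r ^ 2) ≤ (4 * r) * (ε * r) := by
      have x1 : 0 ≤ ε * r ^ 2 := by positivity
      have x2 : (4 * r) * (ε * r) - 6 * (e * r ^ 2) = ε * r ^ 2 := by rw [he]; ring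
      linarith only [x1, x2]
    have h4r : ENNReal.ofReal (4 * r) ≠ 0 := by
      rw [Ne, ENNReal.ofReal_eq_zero, not_le]; positivity
    have h5 : ENNReal.ofReal (4 * r) * ∫⁻ v in base ⁻¹' K, ‖(tau μ v R).toReal -
        aa ρ v * (r * D)‖ₑ ∂μ ≤ ENNReal.ofReal (4 * r) * ENNReal.ofReal (ε * r) := by
      rw [← ENNReal.ofReal_mul (by positivity)]
      exact hfinal.trans (ENNReal.ofReal_le_ofReal e1)
    exact (ENNReal.mul_le_mul_iff_right h4r ENNReal.ofReal_ne_top).1 h5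
  · -- t1
    refine mN.trans ?_
    rw [← ENNReal.ofReal_add (by positivity) (by positivity)]
    apply ENNReal.ofReal_le_ofReal
    have : A * (400 * C ^ 2 * L ^ 3 * r ^ 3) = r ^ 2 * (r * (A * (400 * C ^ 2 * L ^ 3))) := by ring
    rw [this]
    have x3 : r * (A * (400 * C ^ 2 * L ^ 3)) ≤ e / 2 := by linarith only [s10]
    calc e * r ^ 2 / 2 + r ^ 2 * (r * (A * (400 * C ^ 2 * L ^ 3)))
        ≤ e * r ^ 2 / 2 + r ^ 2 * (e / 2) := by gcongr
      _ = e * r ^ 2 := by ring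
  · -- t2
    have h1 : ENNReal.ofReal (r ^ 2) + ENNReal.ofReal (A * (4 * r ^ 2 * D)) =
        ENNReal.ofReal (B * r ^ 2) := by
      rw [← ENNReal.ofReal_add (by positivity) (by positivity), hBdef]
      congr 1; ring
    rw [h1] at mS
    refine (mul_le_mul_right mS _).trans ?_
    rw [← ENNReal.ofReal_mul (by positivity)]
    apply ENNReal.ofReal_le_ofReal
    have h2 : C * m * L ^ 2 * r ^ 2 * B ≤ e / 2 := by
      have : C * m * L ^ 2 * r ^ 2 * B ≤ C * m * L ^ 2 * r * B := by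
        gcongr
      linarith only [this, s9]
    have h3 : (1 - δ₀ ^ 2 / 4) ^ m * B ≤ e / 2 := by
      rw [lt_div_iff₀ (by positivity)] at hqm
      linarith only [hqm]
    calc (C * m * L ^ 2 * r ^ 2 + (1 - δ₀ ^ 2 / 4) ^ m) * (B * r ^ 2)
        = (C * m * L ^ 2 * r ^ 2 * B + (1 - δ₀ ^ 2 / 4) ^ m * B) * r ^ 2 := by ring
      _ ≤ (e / 2 + e / 2) * r ^ 2 := by gcongr
      _ = e * r ^ 2 := by ring
  · -- t3
    have h1 : ∫⁻ v in base ⁻¹' K, tau μ v RT ∂μ ≤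
        ENNReal.ofReal (e / (4 * C ^ 2 * M ^ 2) * (C * M * r)) := by
      refine le_trans (lintegral_mono fun v => measure_mono ?_)
        (hOE' (C * M * r) (by positivity) rr₁)
      rintro p ⟨h2, h3, h4⟩
      refine ⟨h2, ?_, h4.trans hδ₀η⟩
      refine le_trans ?_ h3
      calc L₁ * (C * M * r) = L₁ * (C * M) * r := by ring
        _ ≤ L * r := by gcongr
    refine (mul_le_mul_right h1 _).trans ?_
    rw [← ENNReal.ofReal_mul (by positivity)]
    apply ENNReal.ofReal_le_ofReal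
    apply le_of_eq
    field_simp
  · -- t4
    have := hW1 (6 * M * r) (by positivity) rr₃ (SS i₁ i₂ r) (measurableSet_SS _ _ _)
        (SS_subset i₁ i₂ r hr hr1)
    refine this.trans (le_of_eq ?_)
    congr 1
    field_simp
    norm_num
  · -- t5
    refine (mul_le_mul_right hmHH.le _).trans ?_
    rw [← ENNReal.ofReal_mul (by positivity)]
    apply ENNReal.ofReal_le_ofReal
    apply le_of_eq
    field_simp
  · -- t6
    refine (mul_le_mul_right hA' _).trans ?_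
    rw [← ENNReal.ofReal_mul (by positivity)]
    apply ENNReal.ofReal_le_ofReal
    have : 4 * r ^ 3 * D * A = r ^ 2 * (r * (4 * D * A)) := by ring
    rw [this]
    calc r ^ 2 * (r * (4 * D * A)) ≤ r ^ 2 * e := by gcongr
      _ = e * r ^ 2 := by ring

end

end Pool.Agent.A54.Dyn
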