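import Pool.Agent.Lib.MP_a54f13_nt.Dyn.Spec1
import Pool.Agent.Lib.MP_a54f13_nt.Weak

/-!
Transport equation for the products `f g_n`.
-/

set_option autoImplicit false

namespace Pool.Agent.A54.Dyn.FTM

open MeasureTheory Filter Topology Set
open scoped ContDiff ComplexConjugate
open Pool.Agent.A54.Weak

noncomputable section

variable {V : Set ℂ} {q : ℂ → ℝ}

lemma bd_gg (hM : StmtMove) {h : ℕ → ℝ} {f : ℕ → ℂ → ℝ} (hS : Seq V q h f) (hL : L2Bdd V f)
    (n : ℕ) : Bd V (fun i z => ‖gg (h i) (f i) n z‖) :=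
  ⟨fun i => (contDiff_gg (hS.sol i).smooth (h i) n).continuous.norm,
    fun ζ hζ => (hM V q h f hS hL).2 n ζ hζ⟩

lemma bd_zero {V : Set ℂ} : Bd V (fun _ _ => (0 : ℝ)) :=
  ⟨fun _ => continuous_const, fun ζ _ => ⟨0, fun i => by simp⟩⟩

lemma bd_sum (hM : StmtMove) {h : ℕ → ℝ} {f : ℕ → ℂ → ℝ} (hS : Seq V q h f) (hL : L2Bdd V f)
    (n : ℕ) : Bd V (fun i z => ∑ j ∈ Finset.range n, ‖gg (h i) (f i) j z‖) := by
  induction n with
  | zero => simpa using bd_zero
  | succ n ih =>
    simp_rw [Finset.sum_range_succ]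
    exact ih.add (bd_gg hM hS hL n)

/-- `h² ∂ ∂̄ f = - q f` on `V` -/
lemma dz_dzb_f {h : ℝ} {f : ℂ → ℝ} (hs : Sol V q h f) {z : ℂ} (hz : z ∈ V) :
    (h : ℂ) * ((h : ℂ) * dz (dzb (fun w => (f w : ℂ))) z) = -((q z : ℂ) * (f z : ℂ)) := by
  have h1 := hs.eq z hz
  have hf := contDiff_ofReal hs.smooth
  have e : dzb (gg h f 1) z = (h : ℂ) * dzb (dz (fun w => (f w : ℂ))) z := by
    have e0 : gg h f 1 = fun w => (h : ℂ) * dz (fun w => (f w : ℂ)) w := rfl
    rw [e0, dzb_const_mul _ (contDiff_dz hf)]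
  rw [e, ← dz_dzb_comm hf] at h1
  exact h1

/-- `h ∂̄ f = - q s_{-1}` -/
lemma dzb_f (hq : Pot V q) {h : ℝ} {f : ℂ → ℝ} (hs : Sol V q h f) (z : ℂ) :
    (h : ℂ) * dzb (fun w => (f w : ℂ)) z = -((q z : ℂ) * ss q h f (-1) z) := by
  have hf := contDiff_ofReal hs.smooth
  have e1 : ss q h f (-1) z = (-1) ^ (0 + 1) * conj (gg h f (0 + 1) z) / (q z : ℂ) ^ (0 + 1) := rfl
  have e2 : (fun w : ℂ => (f w : ℂ)) = fun w => conj (f w : ℂ) := by
    funext w; rw [Complex.conj_ofReal]
  have hne : (q z : ℂ) ≠ 0 := by exact_mod_cast (hq.pos z).ne'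
  rw [e1, gg_succ]
  have e3 : dzb (fun w => (f w : ℂ)) z = conj (dz (fun w => (f w : ℂ)) z) := by
    conv_lhs => rw [e2]
    rw [dzb_conj hf]
  have e4 : gg h f 0 = fun w => (f w : ℂ) := rfl
  rw [e3, e4, map_mul, Complex.conj_ofReal]
  field_simp
  ring

theorem _root_.Pool.Agent.A54.Dyn.stmtFT (hE : StmtErr2) (hM : StmtMove) : StmtFT := by
  intro V q h f hS hL n φ hφ
  have hV := hS.pot.isOpen
  have hqs : ContDiff ℝ ∞ (fun z => (q z : ℂ)) := contDiff_ofReal hS.pot.smooth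
  obtain ⟨C, hC, hCE⟩ := hE V q hS.pot n _ hφ.cpt hφ.sub
  -- the main term
  have hψ : Test V (fun z => dz φ z * (q z : ℂ)) := hφ.dz.mul_right hqs
  have h1 := (hM V q h f hS hL).1 (-1) n _ hψ
  -- the error term
  obtain ⟨B, hB⟩ := (bd_gg hM hS hL 0).prod (bd_sum hM hS hL (n + 1)) hV hφ
  have hlim : Tendsto (fun i => h i * (C * B)) atTop (𝓝 0) := by
    simpa using hS.lim.mul_const (C * B)
  set R : ℕ → ℂ := fun i => ∫ z, φ z * ((f i z : ℂ) * ((h i : ℂ)⁻¹ *
    ((h i : ℂ) * dzb (gg (h i) (f i) (n + 2)) z + (q z : ℂ) * gg (h i) (f i) (n + 1) z +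
      (h i : ℂ) * (n + 1) * dz (fun w => (q w : ℂ)) z * gg (h i) (f i) n z))) with hR
  have hR0 : Tendsto R atTop (𝓝 0) := by
    refine squeeze_zero_norm (fun i => ?_) hlim
    have hh := (hS.sol i).hpos
    have hsm := (hS.sol i).smooth
    have cg : ∀ j, Continuous (gg (h i) (f i) j) := fun j => (contDiff_gg hsm (h i) j).continuous
    have cf : Continuous (fun z => (f i z : ℂ)) := (contDiff_ofReal hsm).continuous
    have cd : Continuous (dzb (gg (h i) (f i) (n + 2))) :=
      (contDiff_dzb (contDiff_gg hsm (h i) (n + 2))).continuous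
    have cq : Continuous (fun z => (q z : ℂ)) := hqs.continuous
    have cdq : Continuous (dz (fun w => (q w : ℂ))) := (contDiff_dz hqs).continuous
    have ht : ∀ z, ‖φ z * ((f i z : ℂ) * ((h i : ℂ)⁻¹ *
      ((h i : ℂ) * dzb (gg (h i) (f i) (n + 2)) z + (q z : ℂ) * gg (h i) (f i) (n + 1) z +
      (h i : ℂ) * (n + 1) * dz (fun w => (q w : ℂ)) z * gg (h i) (f i) n z)))‖ ≤
        (h i * C) * (‖φ z‖ * (|‖gg (h i) (f i) 0 z‖| *
          |∑ j ∈ Finset.range (n + 1), ‖gg (h i) (f i) j z‖|)) := by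
      intro z
      by_cases hz : z ∈ tsupport φ
      · have h2 := hCE (h i) (f i) (hS.sol i) z hz
        rw [norm_mul, norm_mul, norm_mul, norm_inv, Complex.norm_real, Complex.norm_real,
          Real.norm_of_nonneg hh.le, abs_of_nonneg (norm_nonneg _),
          abs_of_nonneg (Finset.sum_nonneg fun _ _ => norm_nonneg _), gg_zero, Complex.norm_real]
        have h3 := mul_le_mul_of_nonneg_left h2 (inv_nonneg.mpr hh.le)
        have e : (h i)⁻¹ * (h i ^ 2 * (C * ∑ j ∈ Finset.range (n + 1), ‖gg (h i) (f i) j z‖)) =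
            h i * C * ∑ j ∈ Finset.range (n + 1), ‖gg (h i) (f i) j z‖ := by
          field_simp
        rw [e] at h3
        calc _ ≤ ‖φ z‖ * (‖f i z‖ * (h i * C *
              ∑ j ∈ Finset.range (n + 1), ‖gg (h i) (f i) j z‖)) := by gcongr
          _ = _ := by ring
      · rw [image_eq_zero_of_notMem_tsupport hz]
        simp
    have i1 : Integrable (fun z => ‖φ z‖ * (|‖gg (h i) (f i) 0 z‖| *
          |∑ j ∈ Finset.range (n + 1), ‖gg (h i) (f i) j z‖|)) := by
      apply (hφ.smooth.continuous.norm.mul (((cg 0).norm.abs).mul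
        (continuous_finset_sum _ fun j _ => (cg j).norm).abs)).integrable_of_hasCompactSupport
      exact hφ.cpt.norm.mul_right
    refine (norm_integral_le_of_norm_le (i1.const_mul (h i * C))
      (Eventually.of_forall ht)).trans ?_
    rw [integral_const_mul, mul_assoc]
    exact mul_le_mul_of_nonneg_left (mul_le_mul_of_nonneg_left (hB i) hC) hh.le
  have h2 := h1.add hR0
  rw [add_zero] at h2
  refine h2.congr fun i => ?_
  have hh := (hS.sol i).hpos
  have hhne : (h i : ℂ) ≠ 0 := by exact_mod_cast hh.ne'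
  have hsm := (hS.sol i).smooth
  have hf := contDiff_ofReal hsm
  have sg : ∀ j, ContDiff ℝ ∞ (gg (h i) (f i) j) := fun j => contDiff_gg hsm (h i) j
  have ic : ∀ {g g' : ℂ → ℂ}, Test V g → Continuous g' → Integrable (fun z => g z * g' z) :=
    fun hg hg' => integrable_of_cpt (hg.smooth.continuous.mul hg') hg.cpt.mul_right
  set F : ℂ → ℂ := fun w => (f i w : ℂ) with hF
  -- first identity
  have I1 : ∫ z, (dzb φ z * (F z * gg (h i) (f i) (n + 2) z) +
      φ z * (dzb F z * gg (h i) (f i) (n + 2) z + F z * dzb (gg (h i) (f i) (n + 2)) z)) = 0 := by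
    have e := integral_dzb (g := fun w => φ w * (F w * gg (h i) (f i) (n + 2) w))
      (hφ.smooth.mul (hf.mul (sg _))) hφ.cpt.mul_right
    rw [← e]
    congr 1; funext z
    rw [dzb_mul hφ.smooth (hf.mul (sg _)), dzb_mul hf (sg _)]
  -- second identity
  have I2 : ∫ z, (dz φ z * (dzb F z * gg (h i) (f i) (n + 1) z) +
      φ z * (dz (dzb F) z * gg (h i) (f i) (n + 1) z +
        dzb F z * dz (gg (h i) (f i) (n + 1)) z)) = 0 := by
    have e := integral_dz (g := fun w => φ w * (dzb F w * gg (h i) (f i) (n + 1) w))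
      (hφ.smooth.mul ((contDiff_dzb hf).mul (sg _))) hφ.cpt.mul_right
    rw [← e]
    congr 1; funext z
    rw [dz_mul hφ.smooth ((contDiff_dzb hf).mul (sg _)), dz_mul (contDiff_dzb hf) (sg _)]
  -- continuity
  have c1 := (sg n).continuous
  have c2 := (sg (n + 1)).continuous
  have c3 := (sg (n + 2)).continuous
  have c4 := (contDiff_dzb (sg (n + 2))).continuous
  have c5 := (contDiff_dz (sg (n + 1))).continuous
  have c6 := hf.continuous
  have c7 := (contDiff_dzb hf).continuous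
  have c8 := (contDiff_dz (contDiff_dzb hf)).continuous
  have c9 := hqs.continuous
  have c10 := (contDiff_dz hqs).continuous
  have s1 : Continuous (ss q (h i) (f i) (-1)) := (contDiff_ss hS.pot hsm (h i) (-1)).continuous
  have s2 : Continuous (ss q (h i) (f i) n) := (contDiff_ss hS.pot hsm (h i) n).continuous
  have s3 : Continuous (ss q (h i) (f i) (n + 1)) :=
    (contDiff_ss hS.pot hsm (h i) (n + 1)).continuous
  have s4 : Continuous (ss q (h i) (f i) (-1 + 1)) :=
    (contDiff_ss hS.pot hsm (h i) (-1 + 1)).continuous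
  have I1' : Integrable (fun z => dzb φ z * (F z * gg (h i) (f i) (n + 2) z) +
      φ z * (dzb F z * gg (h i) (f i) (n + 2) z + F z * dzb (gg (h i) (f i) (n + 2)) z)) :=
    (ic hφ.dzb (c6.mul c3)).add (ic hφ ((c7.mul c3).add (c6.mul c4)))
  have I2' : Integrable (fun z => dz φ z * (dzb F z * gg (h i) (f i) (n + 1) z) +
      φ z * (dz (dzb F) z * gg (h i) (f i) (n + 1) z +
        dzb F z * dz (gg (h i) (f i) (n + 1)) z)) :=
    (ic hφ.dz (c7.mul c2)).add (ic hφ ((c8.mul c2).add (c7.mul c5)))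
  have j1 := ic (g' := fun z => ss q (h i) (f i) (-1 + 1) z * ss q (h i) (f i) n z) hψ (s4.mul s2)
  have j2 := ic (g' := fun z => ss q (h i) (f i) (-1) z * ss q (h i) (f i) (n + 1) z) hψ
    (s1.mul s3)
  have j3 := ic (g' := fun z => (f i z : ℂ) * ((h i : ℂ)⁻¹ *
    ((h i : ℂ) * dzb (gg (h i) (f i) (n + 2)) z + (q z : ℂ) * gg (h i) (f i) (n + 1) z +
      (h i : ℂ) * (n + 1) * dz (fun w => (q w : ℂ)) z * gg (h i) (f i) n z))) hφ
    (c6.mul (continuous_const.mul (((continuous_const.mul c4).add (c9.mul c2)).add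
      ((continuous_const.mul c10).mul c1))))
  have key : (∫ z, (dz φ z * (q z : ℂ)) * (ss q (h i) (f i) (-1 + 1) z * ss q (h i) (f i) n z)) +
      (∫ z, (dz φ z * (q z : ℂ)) * (ss q (h i) (f i) (-1) z * ss q (h i) (f i) (n + 1) z)) + R i =
      (∫ z, (-(dzb φ z) * (F z * gg (h i) (f i) (n + 2) z) +
      ((q z : ℂ) * dz φ z + (n + 1) * dz (fun w => (q w : ℂ)) z * φ z) *
        (F z * gg (h i) (f i) n z))) + ((∫ z, (dzb φ z * (F z * gg (h i) (f i) (n + 2) z) +
      φ z * (dzb F z * gg (h i) (f i) (n + 2) z + F z * dzb (gg (h i) (f i) (n + 2)) z))) -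
      (h i : ℂ) * ∫ z, (dz φ z * (dzb F z * gg (h i) (f i) (n + 1) z) +
      φ z * (dz (dzb F) z * gg (h i) (f i) (n + 1) z +
        dzb F z * dz (gg (h i) (f i) (n + 1)) z))) := by
    have k1 : Integrable (fun z => -(dzb φ z) * (F z * gg (h i) (f i) (n + 2) z) +
      ((q z : ℂ) * dz φ z + (n + 1) * dz (fun w => (q w : ℂ)) z * φ z) *
        (F z * gg (h i) (f i) n z)) := by
      have a1 := (ic (g' := fun z => F z * gg (h i) (f i) (n + 2) z) hφ.dzb (c6.mul c3)).neg
      have a2 := ic (g' := fun z => (q z : ℂ) * (F z * gg (h i) (f i) n z)) hφ.dz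
        (c9.mul (c6.mul c1))
      have a3 := ic (g' := fun z => (n + 1) * dz (fun w => (q w : ℂ)) z *
        (F z * gg (h i) (f i) n z)) hφ ((continuous_const.mul c10).mul (c6.mul c1))
      refine (a1.add (a2.add a3)).congr (Eventually.of_forall fun z => ?_)
      simp only [Pi.add_apply, Pi.neg_apply]
      ring
    rw [hR]
    simp only
    rw [← integral_const_mul]
    refine Eq.trans (b := ∫ z, ((dz φ z * (q z : ℂ) *
        (ss q (h i) (f i) (-1 + 1) z * ss q (h i) (f i) n z) +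
      dz φ z * (q z : ℂ) * (ss q (h i) (f i) (-1) z * ss q (h i) (f i) (n + 1) z)) +
      φ z * ((f i z : ℂ) * ((h i : ℂ)⁻¹ *
    ((h i : ℂ) * dzb (gg (h i) (f i) (n + 2)) z + (q z : ℂ) * gg (h i) (f i) (n + 1) z +
      (h i : ℂ) * (n + 1) * dz (fun w => (q w : ℂ)) z * gg (h i) (f i) n z))))) ?_ ?_
    · have j12 : Integrable (fun z => dz φ z * (q z : ℂ) *
          (ss q (h i) (f i) (-1 + 1) z * ss q (h i) (f i) n z) +
        dz φ z * (q z : ℂ) * (ss q (h i) (f i) (-1) z * ss q (h i) (f i) (n + 1) z)) :=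
        j1.add j2
      rw [integral_add j12 j3, integral_add j1 j2]
    have k2 := I2'.const_mul (h i : ℂ)
    have k3 : Integrable (fun z => (dzb φ z * (F z * gg (h i) (f i) (n + 2) z) +
      φ z * (dzb F z * gg (h i) (f i) (n + 2) z + F z * dzb (gg (h i) (f i) (n + 2)) z)) -
      (h i : ℂ) * (dz φ z * (dzb F z * gg (h i) (f i) (n + 1) z) +
      φ z * (dz (dzb F) z * gg (h i) (f i) (n + 1) z +
        dzb F z * dz (gg (h i) (f i) (n + 1)) z))) := I1'.sub k2
    rw [← integral_sub I1' k2, ← integral_add k1 k3]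
    congr 1; funext z
    by_cases hz : z ∈ tsupport φ
    · have hzV := hφ.sub hz
      have e1 := dz_dzb_f (hS.sol i) hzV
      have e2 := dzb_f hS.pot (hS.sol i) z
      have e3 : ss q (h i) (f i) (-1 + 1) z = F z := rfl
      have e4 : ss q (h i) (f i) n z = gg (h i) (f i) n z := rfl
      have e5 : ss q (h i) (f i) (n + 1) z = gg (h i) (f i) (n + 1) z := rfl
      have e6 : gg (h i) (f i) (n + 2) z = (h i : ℂ) * dz (gg (h i) (f i) (n + 1)) z := rfl
      rw [e3, e4, e5]
      have e7 : dz (dzb F) z = -((h i : ℂ)⁻¹ * ((h i : ℂ)⁻¹ * ((q z : ℂ) * (f i z : ℂ)))) := by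
        field_simp
        field_simp at e1
        linear_combination e1
      rw [e7]
      have e8 : (q z : ℂ) * ss q (h i) (f i) (-1) z = -((h i : ℂ) * dzb F z) := by
        rw [e2]; ring
      have e9 : dz φ z * (q z : ℂ) * (ss q (h i) (f i) (-1) z * gg (h i) (f i) (n + 1) z) =
          dz φ z * ((q z : ℂ) * ss q (h i) (f i) (-1) z) * gg (h i) (f i) (n + 1) z := by ring
      rw [e9, e8, e6]
      simp only [hF]
      field_simp
      ring
    · have hz1 : φ z = 0 := image_eq_zero_of_notMem_tsupport hz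
      have hz2 : dz φ z = 0 := dz_eq_zero_of_notMem hz
      have hz3 : dzb φ z = 0 := dzb_eq_zero_of_notMem hz
      rw [hz1, hz2, hz3]
      ring
  rw [I1, I2, mul_zero, sub_zero, add_zero] at key
  exact key

end

end Pool.Agent.A54.Dyn.FTM
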