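import Pool.Agent.Lib.MP_a54f13_nt.Dyn.Spec1

/-!
`StmtFej`: smooth functions of the entries are approximated, together with the derivative along the
flow, by trigonometric polynomials in the direction (kernel `cos^{2m}` instead of Fejér's).
-/

set_option autoImplicit false

namespace Pool.Agent.A54.Dyn

open MeasureTheory Filter Topology Set
open scoped ComplexConjugate UpperHalfPlane MatrixGroups ENNReal ContDiff
open Pool.Agent.A54.Half (H0 qq ff hh)

noncomputable section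

namespace FejM

/-- `ℝ⁴` -/
abbrev E4 := Fin 2 → Fin 2 → ℝ

/-- the interval of integration -/
def II : Set ℝ := Icc (-(Real.pi / 2)) (Real.pi / 2)

lemma isCompact_II : IsCompact II := isCompact_Icc

lemma measurableSet_II : MeasurableSet II := measurableSet_Icc

/-! ### Smoothness of parametric integrals -/

lemma contDiff_param {H : ℂ → ℝ → ℂ} (hH : ContDiff ℝ ∞ (Function.uncurry H)) :
    ContDiff ℝ ∞ (fun p => ∫ θ in II, H p θ) := by
  have hpi := Real.pi_pos
  let χ : ContDiffBump (0 : ℝ) := ⟨Real.pi / 2, Real.pi / 2 + 1, by positivity, by linarith⟩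
  let f : ℝ → ℝ := II.indicator (fun _ => (1 : ℝ))
  let g : ℂ → ℝ → ℂ := fun p x => χ x • H p (-x)
  have hf : LocallyIntegrable f volume := by
    have h1 : Integrable f volume := by
      refine (integrable_indicator_iff measurableSet_II).mpr ?_
      exact integrableOn_const (by exact isCompact_II.measure_lt_top.ne)
    exact h1.locallyIntegrable
  have hg : ContDiffOn ℝ ((⊤ : ℕ∞) : WithTop ℕ∞) (Function.uncurry g)
      ((univ : Set ℂ) ×ˢ (univ : Set ℝ)) := by
    have h2 : ContDiff ℝ ∞ (fun q : ℂ × ℝ => χ q.2) := χ.contDiff.comp contDiff_snd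
    have h3 : ContDiff ℝ ∞ (fun q : ℂ × ℝ => Function.uncurry H (q.1, -q.2)) :=
      hH.comp (contDiff_fst.prodMk contDiff_snd.neg)
    exact (h2.smul h3).contDiffOn
  have key := contDiffOn_convolution_right_with_param_comp (μ := (volume : Measure ℝ))
    (ContinuousLinearMap.lsmul ℝ ℝ : ℝ →L[ℝ] ℂ →L[ℝ] ℂ) (s := univ) (v := fun _ : ℂ => (0 : ℝ))
    (f := f) (g := g) (n := ⊤) (k := Metric.closedBall 0 (Real.pi / 2 + 1))
    contDiffOn_const isOpen_univ (isCompact_closedBall _ _)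
    (fun p x _ hx => by
      have : χ x = 0 := χ.zero_of_le_dist (by
        rw [Metric.mem_closedBall, not_le] at hx
        exact hx.le)
      change χ x • H p (-x) = 0
      rw [this, zero_smul]) hf hg
  rw [contDiffOn_univ] at key
  have e : (fun p => ∫ θ in II, H p θ) = fun x => (MeasureTheory.convolution f (g x)
      (ContinuousLinearMap.lsmul ℝ ℝ : ℝ →L[ℝ] ℂ →L[ℝ] ℂ) volume) 0 := by
    funext p
    unfold MeasureTheory.convolution
    rw [← integral_indicator measurableSet_II]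
    congr 1
    funext t
    by_cases ht : t ∈ II
    · have h1 : f t = 1 := by simp only [f]; rw [indicator_of_mem ht]
      have h2 : χ (0 - t) = 1 := χ.one_of_mem_closedBall (by
        rw [Metric.mem_closedBall, dist_zero_right, Real.norm_eq_abs, zero_sub, abs_neg]
        exact abs_le.mpr ht)
      rw [indicator_of_mem ht, h1]
      change H p t = (1 : ℝ) • (χ (0 - t) • H p (-(0 - t)))
      rw [h2, one_smul, one_smul]
      congr 1
      ring
    · have h1 : f t = 0 := by simp only [f]; rw [indicator_of_notMem ht]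
      rw [indicator_of_notMem ht, h1]
      simp
  rw [e]
  exact key

/-! ### Rotations -/

/-- right multiplication by a rotation -/
def Rt (θ : ℝ) (M : E4) : E4 := fun i j =>
  if j = 0 then M i 0 * Real.cos θ - M i 1 * Real.sin θ
  else M i 0 * Real.sin θ + M i 1 * Real.cos θ

/-- generator of the flow -/
def Xl (M : E4) : E4 := fun i j => if j = 0 then M i 0 / 2 else -(M i 1) / 2

/-- right multiplication by `fl t` -/
def Fl (t : ℝ) (M : E4) : E4 := fun i j =>
  if j = 0 then M i 0 * Real.exp (t / 2) else M i 1 * Real.exp (-t / 2)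

/-- rotations in the group -/
def kk (θ : ℝ) : G := mk4 (Real.cos θ) (Real.sin θ) (-Real.sin θ) (Real.cos θ) (by
  nlinarith [Real.sin_sq_add_cos_sq θ])

lemma xd_eq (g : G) : xd g = Xl (ent g) := rfl

lemma ent_mul_kk (g : G) (θ : ℝ) : ent (g * kk θ) = Rt θ (ent g) := by
  funext i j
  fin_cases i <;> fin_cases j
  · change (g * kk θ) 0 0 = g 0 0 * Real.cos θ - g 0 1 * Real.sin θ
    rw [mul_00]; change g 0 0 * Real.cos θ + g 0 1 * -Real.sin θ = _; ring
  · change (g * kk θ) 0 1 = g 0 0 * Real.sin θ + g 0 1 * Real.cos θ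
    rw [mul_01]; rfl
  · change (g * kk θ) 1 0 = g 1 0 * Real.cos θ - g 1 1 * Real.sin θ
    rw [mul_10]; change g 1 0 * Real.cos θ + g 1 1 * -Real.sin θ = _; ring
  · change (g * kk θ) 1 1 = g 1 0 * Real.sin θ + g 1 1 * Real.cos θ
    rw [mul_11]; rfl

lemma ent_mul_fl (g : G) (t : ℝ) : ent (g * fl t) = Fl t (ent g) := by
  funext i j
  fin_cases i <;> fin_cases j
  · change (g * fl t) 0 0 = g 0 0 * Real.exp (t / 2)
    rw [mul_00, fl_00, fl_10]; ring
  · change (g * fl t) 0 1 = g 0 1 * Real.exp (-t / 2)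
    rw [mul_01, fl_01, fl_11]; ring
  · change (g * fl t) 1 0 = g 1 0 * Real.exp (t / 2)
    rw [mul_10, fl_00, fl_10]; ring
  · change (g * fl t) 1 1 = g 1 1 * Real.exp (-t / 2)
    rw [mul_11, fl_01, fl_11]; ring

lemma Rt_zero (M : E4) : Rt 0 M = M := by
  funext i j
  fin_cases j <;> simp [Rt]

lemma Rt_add (θ α : ℝ) (M : E4) : Rt θ (Rt α M) = Rt (θ + α) M := by
  funext i j
  unfold Rt
  fin_cases j
  · simp only [Fin.zero_eta, ↓reduceIte, Fin.isValue, one_ne_zero]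
    rw [Real.cos_add, Real.sin_add]; ring
  · simp only [Fin.mk_one, Fin.isValue, one_ne_zero, ↓reduceIte]
    rw [Real.cos_add, Real.sin_add]; ring

lemma Rt_pi (θ : ℝ) (M : E4) : Rt (θ + Real.pi) M = -Rt θ M := by
  funext i j
  unfold Rt
  fin_cases j
  · simp only [Fin.zero_eta, ↓reduceIte, Fin.isValue, Pi.neg_apply, Real.cos_add_pi,
      Real.sin_add_pi]
    ring
  · simp only [Fin.mk_one, Fin.isValue, one_ne_zero, ↓reduceIte, Pi.neg_apply, Real.cos_add_pi,
      Real.sin_add_pi]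
    ring

lemma Rt_smooth : ContDiff ℝ ∞ (fun q : E4 × ℝ => Rt q.2 q.1) := by
  rw [contDiff_pi]; intro i
  rw [contDiff_pi]; intro j
  have h0 : ContDiff ℝ ∞ (fun q : E4 × ℝ => q.1 i 0) :=
    (contDiff_pi.mp (contDiff_pi.mp contDiff_fst i) 0)
  have h1 : ContDiff ℝ ∞ (fun q : E4 × ℝ => q.1 i 1) :=
    (contDiff_pi.mp (contDiff_pi.mp contDiff_fst i) 1)
  have hc : ContDiff ℝ ∞ (fun q : E4 × ℝ => Real.cos q.2) := Real.contDiff_cos.comp contDiff_snd
  have hs : ContDiff ℝ ∞ (fun q : E4 × ℝ => Real.sin q.2) := Real.contDiff_sin.comp contDiff_snd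
  fin_cases j
  · exact (h0.mul hc).sub (h1.mul hs)
  · exact (h0.mul hs).add (h1.mul hc)

lemma Xl_smooth : ContDiff ℝ ∞ (fun M : E4 => Xl M) := by
  rw [contDiff_pi]; intro i
  rw [contDiff_pi]; intro j
  have h0 : ContDiff ℝ ∞ (fun q : E4 => q i 0) :=
    (contDiff_pi.mp (contDiff_pi.mp contDiff_id i) 0)
  have h1 : ContDiff ℝ ∞ (fun q : E4 => q i 1) :=
    (contDiff_pi.mp (contDiff_pi.mp contDiff_id i) 1)
  fin_cases j
  · exact h0.div_const 2
  · exact h1.neg.div_const 2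

lemma norm_Rt (θ : ℝ) (M : E4) : ‖M‖ ≤ 2 * ‖Rt θ M‖ := by
  have h : ∀ i j, |Rt θ M i j| ≤ ‖Rt θ M‖ := fun i j =>
    (norm_le_pi_norm (Rt θ M i) j).trans (norm_le_pi_norm (Rt θ M) i)
  have hc := Real.abs_cos_le_one θ
  have hs := Real.abs_sin_le_one θ
  have h2 : M = Rt (-θ) (Rt θ M) := by rw [Rt_add, neg_add_cancel, Rt_zero]
  rw [pi_norm_le_iff_of_nonneg (by positivity)]
  intro i
  rw [pi_norm_le_iff_of_nonneg (by positivity)]
  intro j
  have e0 : M i 0 = Rt θ M i 0 * Real.cos θ + Rt θ M i 1 * Real.sin θ := by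
    conv_lhs => rw [h2]
    change Rt θ M i 0 * Real.cos (-θ) - Rt θ M i 1 * Real.sin (-θ) = _
    rw [Real.cos_neg, Real.sin_neg]; ring
  have e1 : M i 1 = -(Rt θ M i 0 * Real.sin θ) + Rt θ M i 1 * Real.cos θ := by
    conv_lhs => rw [h2]
    change Rt θ M i 0 * Real.sin (-θ) + Rt θ M i 1 * Real.cos (-θ) = _
    rw [Real.cos_neg, Real.sin_neg]; ring
  have b : ∀ a b c d : ℝ, |b| ≤ 1 → |d| ≤ 1 → |a| ≤ ‖Rt θ M‖ → |c| ≤ ‖Rt θ M‖ →
      |a * b| + |c * d| ≤ 2 * ‖Rt θ M‖ := by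
    intro a b c d hb hd ha hc
    rw [abs_mul, abs_mul]
    nlinarith [abs_nonneg a, abs_nonneg c, abs_nonneg b, abs_nonneg d]
  fin_cases j
  · change |M i 0| ≤ _
    rw [e0]
    exact (abs_add_le _ _).trans (b _ _ _ _ hc hs (h i 0) (h i 1))
  · change |M i 1| ≤ _
    rw [e1]
    refine (abs_add_le _ _).trans ?_
    rw [abs_neg]
    exact (b _ _ _ _ hs hc (h i 0) (h i 1))

/-! ### The even part and its derivative -/

/-- even part of `Φ`, rotated -/
def PP (Φ : E4 → ℝ) (M : E4) (θ : ℝ) : ℝ := (Φ (Rt θ M) + Φ (-(Rt θ M))) / 2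

/-- derivative along the flow -/
def DD (Φ : E4 → ℝ) (M : E4) (θ : ℝ) : ℝ :=
  (fderiv ℝ Φ (Rt θ M) (Rt θ (Xl M)) + fderiv ℝ Φ (-(Rt θ M)) (-(Rt θ (Xl M)))) / 2

lemma PP_smooth {Φ : E4 → ℝ} (hΦ : ContDiff ℝ ∞ Φ) :
    ContDiff ℝ ∞ (fun q : E4 × ℝ => PP Φ q.1 q.2) := by
  unfold PP
  exact ((hΦ.comp Rt_smooth).add (hΦ.comp Rt_smooth.neg)).div_const 2

lemma DD_cont {Φ : E4 → ℝ} (hΦ : ContDiff ℝ ∞ Φ) :
    Continuous (fun q : E4 × ℝ => DD Φ q.1 q.2) := by
  unfold DD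
  have hd : Continuous (fderiv ℝ Φ) := hΦ.continuous_fderiv (by simp)
  have h1 := Rt_smooth.continuous
  have h2 : Continuous (fun q : E4 × ℝ => Rt q.2 (Xl q.1)) :=
    h1.comp ((Xl_smooth.continuous.comp continuous_fst).prodMk continuous_snd)
  exact (((hd.comp h1).clm_apply h2).add ((hd.comp h1.neg).clm_apply h2.neg)).div_const 2

lemma PP_pi (Φ : E4 → ℝ) (M : E4) (θ : ℝ) : PP Φ M (θ + Real.pi) = PP Φ M θ := by
  unfold PP
  rw [Rt_pi, neg_neg, add_comm]

lemma PP_Rt (Φ : E4 → ℝ) (M : E4) (θ α : ℝ) : PP Φ (Rt α M) θ = PP Φ M (θ + α) := by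
  unfold PP
  rw [Rt_add]

/-- bound for the support -/
lemma exists_bound {Φ : E4 → ℝ} (hc : HasCompactSupport Φ) :
    ∃ B : ℝ, 0 < B ∧ ∀ M, B ≤ ‖M‖ → Φ M = 0 ∧ fderiv ℝ Φ M = 0 := by
  obtain ⟨B, hB⟩ := hc.isCompact.isBounded.subset_closedBall (0 : E4)
  refine ⟨|B| + 1, by positivity, fun M hM => ?_⟩
  have h1 : M ∉ tsupport Φ := by
    intro h
    have := hB h
    rw [mem_closedBall_zero_iff] at this
    have := le_abs_self B
    linarith
  refine ⟨image_eq_zero_of_notMem_tsupport h1, ?_⟩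
  by_contra h2
  exact h1 (support_fderiv_subset ℝ h2)

lemma PP_zero {Φ : E4 → ℝ} {B : ℝ} (hB : ∀ M, B ≤ ‖M‖ → Φ M = 0 ∧ fderiv ℝ Φ M = 0) (M : E4)
    (θ : ℝ) (hM : 2 * B ≤ ‖M‖) : PP Φ M θ = 0 := by
  have h1 := norm_Rt θ M
  have h2 : B ≤ ‖Rt θ M‖ := by linarith
  unfold PP
  rw [(hB _ h2).1, (hB (-(Rt θ M)) (by rw [norm_neg]; exact h2)).1]
  simp

lemma DD_zero {Φ : E4 → ℝ} {B : ℝ} (hB : ∀ M, B ≤ ‖M‖ → Φ M = 0 ∧ fderiv ℝ Φ M = 0) (M : E4)
    (θ : ℝ) (hM : 2 * B ≤ ‖M‖) : DD Φ M θ = 0 := by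
  have h1 := norm_Rt θ M
  have h2 : B ≤ ‖Rt θ M‖ := by linarith
  unfold DD
  rw [(hB _ h2).2, (hB (-(Rt θ M)) (by rw [norm_neg]; exact h2)).2]
  simp

lemma hasDerivAt_Rt_Fl (θ t : ℝ) (M : E4) :
    HasDerivAt (fun s => Rt θ (Fl s M)) (Rt θ (Xl (Fl t M))) t := by
  have e0 : HasDerivAt (fun s : ℝ => Real.exp (s / 2)) (Real.exp (t / 2) / 2) t := by
    have := ((hasDerivAt_id t).div_const 2).exp
    convert! this using 1
    simp only [id]; ring
  have e1 : HasDerivAt (fun s : ℝ => Real.exp (-s / 2)) (-Real.exp (-t / 2) / 2) t := by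
    have := ((hasDerivAt_id t).neg.div_const 2).exp
    convert! this using 1
    simp only [id, Pi.neg_apply]; ring
  rw [hasDerivAt_pi]; intro i
  rw [hasDerivAt_pi]; intro j
  have h0 : HasDerivAt (fun s : ℝ => M i 0 * Real.exp (s / 2)) (M i 0 * Real.exp (t / 2) / 2) t := by
    convert! e0.const_mul (M i 0) using 1; ring
  have h1 : HasDerivAt (fun s : ℝ => M i 1 * Real.exp (-s / 2))
      (-(M i 1 * Real.exp (-t / 2)) / 2) t := by
    convert! e1.const_mul (M i 1) using 1; ring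
  fin_cases j
  · exact (h0.mul_const (Real.cos θ)).sub (h1.mul_const (Real.sin θ))
  · exact (h0.mul_const (Real.sin θ)).add (h1.mul_const (Real.cos θ))

lemma hasDerivAt_PP {Φ : E4 → ℝ} (hΦ : ContDiff ℝ ∞ Φ) (θ t : ℝ) (M : E4) :
    HasDerivAt (fun s => PP Φ (Fl s M) θ) (DD Φ (Fl t M) θ) t := by
  have hd : ∀ N, HasFDerivAt Φ (fderiv ℝ Φ N) N := fun N =>
    (hΦ.differentiable (by simp) N).hasFDerivAt
  have h := hasDerivAt_Rt_Fl θ t M
  have h1 := (hd (Rt θ (Fl t M))).comp_hasDerivAt t h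
  have h2 := (hd (-(Rt θ (Fl t M)))).comp_hasDerivAt t h.neg
  exact (h1.add h2).div_const 2

/-! ### The kernel -/

/-- the kernel -/
def cc (θ : ℝ) : ℝ := Real.cos θ ^ 2

/-- averages against the kernel -/
def Av (m : ℕ) (f : ℝ → ℝ) : ℝ := (∫ θ in II, cc θ ^ m)⁻¹ * ∫ θ in II, cc θ ^ m * f θ

lemma cc_cont : Continuous cc := Real.continuous_cos.pow 2

lemma peak (P : E4 → ℝ → ℝ) (hP : Continuous (fun q : E4 × ℝ => P q.1 q.2)) (B : ℝ)
    (hB : ∀ M θ, B ≤ ‖M‖ → P M θ = 0) (ε : ℝ) (hε : 0 < ε) :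
    ∀ᶠ m : ℕ in atTop, ∀ M, |Av m (P M) - P M 0| ≤ ε := by
  have hpi := Real.pi_pos
  let C : Set E4 := Metric.closedBall 0 B
  have hC : CompactSpace C := isCompact_iff_compactSpace.mp (isCompact_closedBall _ _)
  let F : C(ℝ × C, ℝ) := ⟨fun q => P q.2.1 q.1, hP.comp
    ((continuous_subtype_val.comp continuous_snd).prodMk continuous_fst)⟩
  let g : C(ℝ, C(C, ℝ)) := F.curry
  have key := tendsto_setIntegral_pow_smul_of_unique_maximum_of_isCompact_of_continuousOn
    (μ := (volume : Measure ℝ)) (s := II) (x₀ := 0) (c := cc) (g := fun θ => g θ) isCompact_II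
    cc_cont.continuousOn (by
      intro y hy hy0
      unfold cc
      rw [Real.cos_zero, one_pow]
      have h1 : Real.cos y ^ 2 = 1 - Real.sin y ^ 2 := by
        have := Real.sin_sq_add_cos_sq y; linarith
      rw [h1]
      have h2 : Real.sin y ≠ 0 := by
        intro h
        rw [Real.sin_eq_zero_iff_of_lt_of_lt (by linarith [hy.1]) (by linarith [hy.2])] at h
        exact hy0 h
      have := sq_pos_of_ne_zero h2
      linarith) (fun x _ => sq_nonneg _) (by unfold cc; simp)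
    (by
      unfold II
      rw [interior_Icc, closure_Ioo (by linarith)]
      constructor <;> linarith) g.continuous.continuousOn
  filter_upwards [key.eventually (Metric.closedBall_mem_nhds _ hε)] with m hm M
  by_cases hM : M ∈ C
  · rw [dist_eq_norm] at hm
    have h1 := ((((∫ x in II, cc x ^ m)⁻¹ • ∫ x in II, cc x ^ m • g x) - g 0).norm_coe_le_norm
      ⟨M, hM⟩).trans hm
    have hint : IntegrableOn (fun x => cc x ^ m • g x) II volume :=
      (((cc_cont.pow m).smul g.continuous).continuousOn).integrableOn_compact isCompact_II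
    have h2 : (∫ x in II, cc x ^ m • g x) ⟨M, hM⟩ = ∫ x in II, cc x ^ m * P M x := by
      have := (ContinuousMap.evalCLM ℝ (⟨M, hM⟩ : C) : C(C, ℝ) →L[ℝ] ℝ).integral_comp_comm hint
      change (ContinuousMap.evalCLM ℝ (⟨M, hM⟩ : C) : C(C, ℝ) →L[ℝ] ℝ)
        (∫ x in II, cc x ^ m • g x) = _
      rw [← this]
      rfl
    rw [Real.norm_eq_abs] at h1
    have h3 : ((((∫ x in II, cc x ^ m)⁻¹ • ∫ x in II, cc x ^ m • g x) - g 0) : C(C, ℝ)) ⟨M, hM⟩ =
        Av m (P M) - P M 0 := by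
      change (∫ x in II, cc x ^ m)⁻¹ * (∫ x in II, cc x ^ m • g x) ⟨M, hM⟩ - P M 0 = _
      rw [h2]
      rfl
    rw [← h3]
    exact h1
  · have hM' : B ≤ ‖M‖ := by
      by_contra h
      apply hM
      rw [mem_closedBall_zero_iff]
      exact (not_le.mp h).le
    have h1 : ∀ θ, P M θ = 0 := fun θ => hB M θ hM'
    have h2 : Av m (P M) = 0 := by
      unfold Av
      simp [h1]
    rw [h2, h1]
    simpa using hε.le

/-- differentiation of averages along the flow -/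
lemma hasDerivAt_Av {Φ : E4 → ℝ} (hΦ : ContDiff ℝ ∞ Φ) {B : ℝ}
    (hB : ∀ M, B ≤ ‖M‖ → Φ M = 0 ∧ fderiv ℝ Φ M = 0) (m : ℕ) (M : E4) :
    HasDerivAt (fun s => Av m (PP Φ (Fl s M))) (Av m (DD Φ M)) 0 := by
  have hD := DD_cont hΦ
  have hP := (PP_smooth hΦ).continuous
  have hFl0 : Fl 0 M = M := by
    funext i j
    unfold Fl
    fin_cases j <;> simp
  have hcomp : IsCompact (Metric.closedBall (0 : E4) (2 * B) ×ˢ II) :=
    (isCompact_closedBall _ _).prod isCompact_II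
  obtain ⟨C, hC⟩ := hcomp.exists_bound_of_continuousOn hD.continuousOn
  have hbd : ∀ N θ, θ ∈ II → ‖DD Φ N θ‖ ≤ |C| := by
    intro N θ hθ
    by_cases hN : 2 * B ≤ ‖N‖
    · rw [DD_zero hB N θ hN, norm_zero]; exact abs_nonneg _
    · refine (hC (N, θ) ⟨?_, hθ⟩).trans (le_abs_self _)
      rw [mem_closedBall_zero_iff]
      exact (not_le.mp hN).le
  have hcc : ∀ θ, ‖cc θ ^ m‖ ≤ 1 := by
    intro θ
    rw [Real.norm_eq_abs, abs_pow]
    refine pow_le_one₀ (abs_nonneg _) ?_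
    unfold cc
    rw [abs_of_nonneg (sq_nonneg _)]
    have := Real.sin_sq_add_cos_sq θ
    nlinarith [sq_nonneg (Real.sin θ)]
  have hc : ∀ N : E4, Continuous (fun θ => cc θ ^ m * PP Φ N θ) := fun N =>
    (cc_cont.pow m).mul (hP.comp (continuous_const.prodMk continuous_id))
  have hc' : ∀ N : E4, Continuous (fun θ => cc θ ^ m * DD Φ N θ) := fun N =>
    (cc_cont.pow m).mul (hD.comp (continuous_const.prodMk continuous_id))
  have key := hasDerivAt_integral_of_dominated_loc_of_deriv_le (μ := volume.restrict II)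
    (F := fun s θ => cc θ ^ m * PP Φ (Fl s M) θ) (F' := fun s θ => cc θ ^ m * DD Φ (Fl s M) θ)
    (x₀ := (0 : ℝ)) (s := univ) (bound := fun _ => |C|) univ_mem
    (Eventually.of_forall fun s => (hc (Fl s M)).aestronglyMeasurable)
    ((hc (Fl 0 M)).continuousOn.integrableOn_compact isCompact_II)
    (hc' (Fl 0 M)).aestronglyMeasurable
    (by
      refine (ae_restrict_iff' measurableSet_II).mpr (Eventually.of_forall fun θ hθ s _ => ?_)
      rw [norm_mul]
      have h1 := hbd (Fl s M) θ hθ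
      have h2 := hcc θ
      calc ‖cc θ ^ m‖ * ‖DD Φ (Fl s M) θ‖ ≤ 1 * |C| :=
            mul_le_mul h2 h1 (norm_nonneg _) (by norm_num)
        _ = |C| := one_mul _)
    (integrableOn_const (by exact isCompact_II.measure_lt_top.ne))
    (Eventually.of_forall fun θ s _ => (hasDerivAt_PP hΦ θ s M).const_mul _)
  have h2 := key.2.const_mul ((∫ θ in II, cc θ ^ m)⁻¹)
  rw [hFl0] at h2
  exact h2

/-! ### Iwasawa decomposition -/

lemma kk_neg (α : ℝ) : kk (-α) * kk α = 1 := by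
  have h := Real.sin_sq_add_cos_sq α
  apply G_ext
  · rw [mul_00]
    change Real.cos (-α) * Real.cos α + Real.sin (-α) * -Real.sin α = 1
    rw [Real.cos_neg, Real.sin_neg]; linarith
  · rw [mul_01]
    change Real.cos (-α) * Real.sin α + Real.sin (-α) * Real.cos α = 0
    rw [Real.cos_neg, Real.sin_neg]; ring
  · rw [mul_10]
    change -Real.sin (-α) * Real.cos α + Real.cos (-α) * -Real.sin α = 0
    rw [Real.cos_neg, Real.sin_neg]; ring
  · rw [mul_11]
    change -Real.sin (-α) * Real.sin α + Real.cos (-α) * Real.cos α = 1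
    rw [Real.cos_neg, Real.sin_neg]; linarith

lemma base_kk (g : G) (α : ℝ) : base (g * kk α) = base g := by
  rw [base_mul]
  change g • base (kk α) = g • UpperHalfPlane.I
  congr 1
  apply UpperHalfPlane.ext
  rw [base_coe]
  have h := denom_ne (kk α) UpperHalfPlane.I
  have h' : (kk α 1 0 : ℂ) * Complex.I + kk α 1 1 ≠ 0 := h
  rw [div_eq_iff h']
  change (Real.cos α : ℂ) * Complex.I + (Real.sin α : ℂ) =
    Complex.I * (((-Real.sin α : ℝ) : ℂ) * Complex.I + (Real.cos α : ℂ))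
  push_cast
  linear_combination (Complex.sin α) * Complex.I_sq

lemma exp_two (α : ℝ) : (Real.cos α : ℂ) + Complex.I * Real.sin α = Complex.exp (α * Complex.I) := by
  rw [Complex.exp_mul_I, Complex.ofReal_cos, Complex.ofReal_sin]; ring

lemma ze_kk (g : G) (α : ℝ) : ze (g * kk α) = ze g * Complex.exp (2 * α * Complex.I) := by
  have e1 : ((g * kk α) 1 1 : ℂ) + Complex.I * ((g * kk α) 1 0 : ℂ) =
      ((g 1 1 : ℂ) + Complex.I * g 1 0) * Complex.exp (-(α * Complex.I)) := by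
    rw [mul_11, mul_10]
    change ((g 1 0 * Real.sin α + g 1 1 * Real.cos α : ℝ) : ℂ) +
      Complex.I * ((g 1 0 * Real.cos α + g 1 1 * -Real.sin α : ℝ) : ℂ) = _
    rw [show -(α * Complex.I) = ((-α : ℝ) : ℂ) * Complex.I by push_cast; ring, ← exp_two,
      Real.cos_neg, Real.sin_neg]
    push_cast
    linear_combination (-(g 1 0 : ℂ) * Complex.sin α * (-1)) * Complex.I_sq
  have e2 : ((g * kk α) 1 1 : ℂ) - Complex.I * ((g * kk α) 1 0 : ℂ) =
      ((g 1 1 : ℂ) - Complex.I * g 1 0) * Complex.exp (α * Complex.I) := by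
    rw [mul_11, mul_10]
    change ((g 1 0 * Real.sin α + g 1 1 * Real.cos α : ℝ) : ℂ) -
      Complex.I * ((g 1 0 * Real.cos α + g 1 1 * -Real.sin α : ℝ) : ℂ) = _
    rw [← exp_two]
    push_cast
    linear_combination ((g 1 0 : ℂ) * Complex.sin α) * Complex.I_sq
  unfold ze
  rw [e1, e2]
  have h1 := denI_ne g
  have h2 : Complex.exp (2 * α * Complex.I) = Complex.exp (α * Complex.I) /
      Complex.exp (-(α * Complex.I)) := by
    rw [← Complex.exp_sub]; ring_nf
  rw [h2]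
  have h3 := Complex.exp_ne_zero (-(α * Complex.I))
  field_simp

/-- Iwasawa decomposition -/
lemma iwa (g : G) : ∃ (h : G) (α : ℝ), h 1 0 = 0 ∧ 0 < h 1 1 ∧ g = h * kk α := by
  set w : ℂ := (g 1 1 : ℂ) + Complex.I * g 1 0 with hw
  have hw0 : w ≠ 0 := denI_ne g
  have hre : w.re = g 1 1 := by rw [hw]; simp
  have him : w.im = g 1 0 := by rw [hw]; simp
  have h1 : ‖w‖ * Real.cos w.arg = g 1 1 := by
    rw [← hre]; exact Complex.norm_mul_cos_arg w
  have h2 : ‖w‖ * Real.sin w.arg = g 1 0 := by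
    rw [← him]; exact Complex.norm_mul_sin_arg w
  have hpos : 0 < ‖w‖ := norm_pos_iff.mpr hw0
  have hs := Real.sin_sq_add_cos_sq w.arg
  refine ⟨g * kk w.arg, -w.arg, ?_, ?_, ?_⟩
  · rw [mul_10]
    change g 1 0 * Real.cos w.arg + g 1 1 * -Real.sin w.arg = 0
    rw [← h1, ← h2]; ring
  · rw [mul_11]
    change 0 < g 1 0 * Real.sin w.arg + g 1 1 * Real.cos w.arg
    rw [← h1, ← h2]
    have : ‖w‖ * Real.sin w.arg * Real.sin w.arg + ‖w‖ * Real.cos w.arg * Real.cos w.arg = ‖w‖ := by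
      linear_combination ‖w‖ * hs
    rw [this]; exact hpos
  · have := kk_neg (-w.arg)
    rw [neg_neg] at this
    rw [mul_assoc, this, mul_one]

/-- the section -/
def Ss (z : ℂ) : E4 := fun i j =>
  if i = 0 then (if j = 0 then Real.sqrt z.im else z.re / Real.sqrt z.im)
  else (if j = 0 then 0 else 1 / Real.sqrt z.im)

lemma ent_tri {h : G} (h10 : h 1 0 = 0) (h11 : 0 < h 1 1) : ent h = Ss (base h) := by
  have hd := det_eq h
  rw [h10, mul_zero, sub_zero] at hd
  have h00 : h 0 0 = 1 / h 1 1 := by field_simp; linarith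
  have hb : ((base h : ℍ) : ℂ) = ((h 0 0 / h 1 1 : ℝ) : ℂ) * Complex.I + ((h 0 1 / h 1 1 : ℝ) : ℂ) := by
    rw [base_coe, h10]
    push_cast
    rw [zero_mul, zero_add]
    ring
  have him : ((base h : ℍ) : ℂ).im = (1 / h 1 1) ^ 2 := by
    rw [hb, h00]
    simp
    ring
  have hre : ((base h : ℍ) : ℂ).re = h 0 1 / h 1 1 := by
    rw [hb]; simp
  have hsq : Real.sqrt ((base h : ℍ) : ℂ).im = 1 / h 1 1 := by
    rw [him]; exact Real.sqrt_sq (by positivity)
  funext i j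
  unfold Ss
  rw [hsq, hre]
  fin_cases i <;> fin_cases j
  · exact h00
  · change h 0 1 = h 0 1 / h 1 1 / (1 / h 1 1)
    field_simp
  · exact h10
  · change h 1 1 = 1 / (1 / h 1 1)
    field_simp

lemma ze_tri {h : G} (h10 : h 1 0 = 0) (h11 : 0 < h 1 1) : ze h = 1 := by
  unfold ze
  rw [h10]
  have : (h 1 1 : ℂ) ≠ 0 := by exact_mod_cast h11.ne'
  simp [this]

lemma Ss_smooth : ContDiffOn ℝ ∞ Ss H0 := by
  rw [contDiffOn_pi]; intro i
  rw [contDiffOn_pi]; intro j
  have hre : ContDiffOn ℝ ∞ (fun z : ℂ => z.re) H0 := Complex.reCLM.contDiff.contDiffOn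
  have him : ContDiffOn ℝ ∞ (fun z : ℂ => z.im) H0 := Complex.imCLM.contDiff.contDiffOn
  have hs : ContDiffOn ℝ ∞ (fun z : ℂ => Real.sqrt z.im) H0 := him.sqrt (fun z hz => by
    have : 0 < z.im := hz
    exact this.ne')
  have h0 : ∀ z ∈ H0, Real.sqrt z.im ≠ 0 := fun z hz => (Real.sqrt_pos.mpr hz).ne'
  fin_cases i <;> fin_cases j
  · exact hs
  · exact hre.div hs h0
  · exact contDiffOn_const
  · exact contDiffOn_const.div hs h0

/-! ### The modes -/

/-- the integrand of the modes -/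
def Hn (Φ : E4 → ℝ) (n : ℤ) (z : ℂ) (θ : ℝ) : ℂ :=
  if 0 < z.im then (PP Φ (Ss z) θ : ℂ) * Complex.exp (-(2 * n * θ * Complex.I)) else 0

/-- the compact set -/
def KK (B : ℝ) : Set ℍ := base '' (ent ⁻¹' Metric.closedBall 0 B)

lemma continuous_ent : Continuous ent := by
  apply continuous_pi; intro i
  apply continuous_pi; intro j
  exact continuous_entry i j

lemma isCompact_KK (B : ℝ) : IsCompact (KK B) := by
  refine IsCompact.image ?_ continuous_base
  have h1 : IsClosedEmbedding (ent) := Matrix.SpecialLinearGroup.isClosedEmbedding_val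
  exact h1.isCompact_preimage (isCompact_closedBall _ _)

lemma PP_KK {Φ : E4 → ℝ} {B : ℝ} (hB : ∀ M, B ≤ ‖M‖ → Φ M = 0 ∧ fderiv ℝ Φ M = 0) (g : G)
    (θ : ℝ) (hg : base g ∉ KK (2 * B)) : PP Φ (ent g) θ = 0 := by
  apply PP_zero hB
  by_contra h
  apply hg
  refine ⟨g, ?_, rfl⟩
  rw [mem_preimage, mem_closedBall_zero_iff]
  exact (not_le.mp h).le

/-- every point is the base point of an upper triangular element -/
lemma exists_tri (z : ℍ) : ∃ h : G, h 1 0 = 0 ∧ 0 < h 1 1 ∧ base h = z := by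
  obtain ⟨g, hg⟩ : ∃ g : G, base g = z := by
    unfold base
    exact MulAction.exists_smul_eq G UpperHalfPlane.I z
  obtain ⟨h, α, h1, h2, h3⟩ := iwa g
  refine ⟨h, h1, h2, ?_⟩
  rw [← base_kk h α, ← h3, hg]

lemma Hn_zero {Φ : E4 → ℝ} {B : ℝ} (hB : ∀ M, B ≤ ‖M‖ → Φ M = 0 ∧ fderiv ℝ Φ M = 0) (n : ℤ) (z : ℂ)
    (θ : ℝ) (hz : z ∉ UpperHalfPlane.coe '' KK (2 * B)) : Hn Φ n z θ = 0 := by
  unfold Hn
  split_ifs with h
  · obtain ⟨g, h1, h2, h3⟩ := exists_tri ⟨z, h⟩
    have h4 : ent g = Ss z := by rw [ent_tri h1 h2, h3]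
    have h5 : base g ∉ KK (2 * B) := by
      intro h6
      apply hz
      exact ⟨base g, h6, by rw [h3]⟩
    rw [← h4, PP_KK hB g θ h5]
    simp
  · rfl

lemma isCompact_coe_KK (B : ℝ) : IsCompact (UpperHalfPlane.coe '' KK B) :=
  (isCompact_KK B).image UpperHalfPlane.continuous_coe

lemma Hn_smooth {Φ : E4 → ℝ} (hΦ : ContDiff ℝ ∞ Φ) {B : ℝ}
    (hB : ∀ M, B ≤ ‖M‖ → Φ M = 0 ∧ fderiv ℝ Φ M = 0) (n : ℤ) :
    ContDiff ℝ ∞ (Function.uncurry (Hn Φ n)) := by
  rw [contDiff_iff_contDiffAt]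
  rintro ⟨z, θ⟩
  by_cases hz : 0 < z.im
  · have hopen : IsOpen (H0 ×ˢ (univ : Set ℝ)) := Half.isOpen_H0.prod isOpen_univ
    have h1 : ContDiffOn ℝ ∞ (fun q : ℂ × ℝ => PP Φ (Ss q.1) q.2) (H0 ×ˢ (univ : Set ℝ)) := by
      have h2 : ContDiffOn ℝ ∞ (fun q : ℂ × ℝ => (Ss q.1, q.2)) (H0 ×ˢ (univ : Set ℝ)) :=
        (Ss_smooth.comp contDiffOn_fst (fun q hq => hq.1)).prodMk contDiffOn_snd
      exact (PP_smooth hΦ).comp_contDiffOn h2
    have h3 : ContDiffOn ℝ ∞ (fun q : ℂ × ℝ => (PP Φ (Ss q.1) q.2 : ℂ) *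
        Complex.exp (-(2 * n * q.2 * Complex.I))) (H0 ×ˢ (univ : Set ℝ)) := by
      refine ContDiffOn.mul ?_ ?_
      · exact Complex.ofRealCLM.contDiff.comp_contDiffOn h1
      · refine ContDiff.contDiffOn ?_
        refine ContDiff.cexp ?_
        have : ContDiff ℝ ∞ (fun q : ℂ × ℝ => (q.2 : ℂ)) :=
          Complex.ofRealCLM.contDiff.comp contDiff_snd
        exact ((contDiff_const.mul this).mul contDiff_const).neg
    have h4 := h3.contDiffAt (hopen.mem_nhds (show (z, θ) ∈ H0 ×ˢ (univ : Set ℝ) from ⟨hz, trivial⟩))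
    refine h4.congr_of_eventuallyEq ?_
    filter_upwards [hopen.mem_nhds (show (z, θ) ∈ H0 ×ˢ (univ : Set ℝ) from ⟨hz, trivial⟩)] with q hq
    have : 0 < q.1.im := hq.1
    simp only [Function.uncurry, Hn, if_pos this]
  · have h1 : z ∉ UpperHalfPlane.coe '' KK (2 * B) := by
      rintro ⟨w, _, rfl⟩
      exact hz w.im_pos
    have hopen : IsOpen ((UpperHalfPlane.coe '' KK (2 * B))ᶜ ×ˢ (univ : Set ℝ)) :=
      (isCompact_coe_KK _).isClosed.isOpen_compl.prod isOpen_univ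
    refine contDiffAt_const (c := (0 : ℂ)) |>.congr_of_eventuallyEq ?_
    filter_upwards [hopen.mem_nhds (show (z, θ) ∈ _ ×ˢ (univ : Set ℝ) from ⟨h1, trivial⟩)] with q hq
    exact Hn_zero hB n q.1 q.2 hq.1

/-- the modes -/
def An (Φ : E4 → ℝ) (n : ℤ) (z : ℂ) : ℂ := ∫ θ in II, Hn Φ n z θ

lemma An_zero {Φ : E4 → ℝ} {B : ℝ} (hB : ∀ M, B ≤ ‖M‖ → Φ M = 0 ∧ fderiv ℝ Φ M = 0) (n : ℤ) (z : ℂ)
    (hz : z ∉ UpperHalfPlane.coe '' KK (2 * B)) : An Φ n z = 0 := by
  unfold An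
  simp [Hn_zero hB n z _ hz]

lemma An_smooth {Φ : E4 → ℝ} (hΦ : ContDiff ℝ ∞ Φ) {B : ℝ}
    (hB : ∀ M, B ≤ ‖M‖ → Φ M = 0 ∧ fderiv ℝ Φ M = 0) (n : ℤ) : ContDiff ℝ ∞ (An Φ n) :=
  contDiff_param (Hn_smooth hΦ hB n)

/-- the mode of an arbitrary element -/
lemma mode_eq (Φ : E4 → ℝ) (n : ℤ) (g : G) :
    ∫ θ in II, (PP Φ (ent g) θ : ℂ) * Complex.exp (-(2 * n * θ * Complex.I)) =
      An Φ n (base g) * ze g ^ n := by
  have hpi := Real.pi_pos
  obtain ⟨h, α, h10, h11, rfl⟩ := iwa g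
  rw [base_kk, ze_kk, ze_tri h10 h11, one_mul, ent_mul_kk]
  set f : ℝ → ℂ := fun x => (PP Φ (ent h) x : ℂ) * Complex.exp (-(2 * n * x * Complex.I)) with hf
  have hper : Function.Periodic f Real.pi := by
    intro x
    rw [hf]
    simp only
    rw [PP_pi]
    congr 1
    have : (-(2 * (n : ℂ) * ((x + Real.pi : ℝ) : ℂ) * Complex.I)) =
        -(2 * n * x * Complex.I) + ((-n : ℤ) : ℂ) * (2 * Real.pi * Complex.I) := by
      push_cast; ring
    rw [this, Complex.exp_add, Complex.exp_int_mul_two_pi_mul_I, mul_one]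
  have h1 : An Φ n (base h) = ∫ θ in II, f θ := by
    unfold An
    refine integral_congr_ae (Eventually.of_forall fun θ => ?_)
    have : 0 < ((base h : ℍ) : ℂ).im := (base h).im_pos
    simp only [Hn, if_pos this, hf]
    rw [ent_tri h10 h11]
  rw [h1]
  have hle : -(Real.pi / 2) ≤ Real.pi / 2 := by linarith
  have e : ∀ F : ℝ → ℂ, ∫ θ in II, F θ = ∫ θ in (-(Real.pi / 2))..(Real.pi / 2), F θ := by
    intro F
    rw [intervalIntegral.integral_of_le hle]
    exact integral_Icc_eq_integral_Ioc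
  rw [e, e]
  have h2 : ∀ θ : ℝ, (PP Φ (Rt α (ent h)) θ : ℂ) * Complex.exp (-(2 * n * θ * Complex.I)) =
      f (θ + α) * Complex.exp (2 * α * Complex.I) ^ n := by
    intro θ
    rw [hf]
    simp only
    rw [PP_Rt, ← Complex.exp_int_mul, mul_assoc ((PP Φ (ent h) (θ + α) : ℝ) : ℂ),
      ← Complex.exp_add]
    congr 2
    push_cast
    ring
  simp_rw [h2]
  rw [intervalIntegral.integral_mul_const, intervalIntegral.integral_comp_add_right]
  congr 1
  have h3 := hper.intervalIntegral_add_eq (-(Real.pi / 2)) (-(Real.pi / 2) + α)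
  have e1 : -(Real.pi / 2) + Real.pi = Real.pi / 2 := by ring
  have e2 : -(Real.pi / 2) + α + Real.pi = Real.pi / 2 + α := by ring
  rw [e1, e2] at h3
  exact h3.symm

/-! ### Expansion of the kernel -/

/-- coefficients of the kernel -/
def cf (m : ℕ) (n : ℤ) : ℂ := (Nat.choose (2 * m) (((m : ℤ) - n).toNat) : ℂ) / 4 ^ m

lemma cc_expand (m : ℕ) (θ : ℝ) : ((cc θ ^ m : ℝ) : ℂ) =
    ∑ n ∈ Finset.Icc (-(m : ℤ)) m, cf m n * Complex.exp (-(2 * n * θ * Complex.I)) := by
  have h1 : ((cc θ ^ m : ℝ) : ℂ) = ∑ j ∈ Finset.range (2 * m + 1),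
      cf m ((m : ℤ) - j) * Complex.exp (-(2 * ((m : ℤ) - j : ℤ) * θ * Complex.I)) := by
    unfold cc
    rw [← pow_mul]
    push_cast
    unfold Complex.cos
    rw [div_pow, pow_mul 2, show (2 : ℂ) ^ 2 = 4 by norm_num, add_pow, Finset.sum_div]
    refine Finset.sum_congr rfl fun j hj => ?_
    have hj' : j ≤ 2 * m := by
      have := Finset.mem_range.mp hj; omega
    unfold cf
    have e1 : ((m : ℤ) - ((m : ℤ) - j)).toNat = j := by simp
    rw [e1, ← Complex.exp_nat_mul, ← Complex.exp_nat_mul, ← Complex.exp_add]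
    rw [Nat.cast_sub hj']
    push_cast
    have e2 : ((j : ℂ) * (θ * Complex.I) + (2 * m - j) * (-θ * Complex.I)) =
        -(2 * ((m : ℂ) - j) * θ * Complex.I) := by ring
    rw [e2]
    ring
  rw [h1]
  refine Finset.sum_nbij' (fun j : ℕ => (m : ℤ) - j) (fun n : ℤ => ((m : ℤ) - n).toNat) ?_ ?_ ?_ ?_ ?_
  · intro j hj
    have := Finset.mem_range.mp hj
    rw [Finset.mem_Icc]; constructor <;> omega
  · intro n hn
    have := Finset.mem_Icc.mp hn
    rw [Finset.mem_range]; omega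
  · intro j hj
    simp
  · intro n hn
    have := Finset.mem_Icc.mp hn
    omega
  · intro j hj
    rfl

end FejM

open FejM in
theorem stmtFej (hX : StmtXd) : StmtFej := by
  intro Φ hΦ hc
  obtain ⟨B, hB0, hB⟩ := exists_bound hc
  refine ⟨KK (2 * B), isCompact_KK _, fun ε hε => ?_⟩
  obtain ⟨m, h1, h2⟩ := ((peak (PP Φ) (PP_smooth hΦ).continuous (2 * B)
    (fun M θ hM => PP_zero hB M θ hM) ε hε).and (peak (DD Φ) (DD_cont hΦ) (2 * B)
    (fun M θ hM => DD_zero hB M θ hM) ε hε)).exists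
  set Z : ℝ := ∫ θ in II, cc θ ^ m with hZ
  set φ : ℤ → ℂ → ℂ := fun n z => cf m n * ((Z⁻¹ : ℝ) : ℂ) * An Φ n z with hφ
  have hφ0 : ∀ (n : ℤ) (z : ℂ), z ∉ UpperHalfPlane.coe '' KK (2 * B) → φ n z = 0 := by
    intro n z hz
    simp only [hφ]
    rw [An_zero hB n z hz, mul_zero]
  have hT : ∀ n, Test H0 (φ n) := by
    intro n
    refine ⟨contDiff_const.mul (An_smooth hΦ hB n), HasCompactSupport.intro
      (isCompact_coe_KK (2 * B)) (hφ0 n), ?_⟩
    have hs : tsupport (φ n) ⊆ UpperHalfPlane.coe '' KK (2 * B) := by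
      refine closure_minimal ?_ (isCompact_coe_KK (2 * B)).isClosed
      intro z hz
      by_contra h
      exact hz (hφ0 n z h)
    refine hs.trans ?_
    rintro _ ⟨w, _, rfl⟩
    exact w.im_pos
  have hsum : ∀ g : G, (∑ n ∈ Finset.Icc (-(m : ℤ)) m, φ n (base g) * ze g ^ n) =
      ((Av m (PP Φ (ent g)) : ℝ) : ℂ) := by
    intro g
    have hcont : ∀ n : ℤ, Continuous (fun θ : ℝ => (PP Φ (ent g) θ : ℂ) *
        Complex.exp (-(2 * n * θ * Complex.I))) := by
      intro n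
      refine Continuous.mul ?_ (by fun_prop)
      exact Complex.continuous_ofReal.comp ((PP_smooth hΦ).continuous.comp
        (continuous_const.prodMk continuous_id))
    have e1 : ∀ n ∈ Finset.Icc (-(m : ℤ)) m, φ n (base g) * ze g ^ n =
        ((Z⁻¹ : ℝ) : ℂ) * ∫ θ in II, cf m n * ((PP Φ (ent g) θ : ℂ) *
          Complex.exp (-(2 * n * θ * Complex.I))) := by
      intro n _
      rw [integral_const_mul, mode_eq]
      simp only [hφ]
      ring
    rw [Finset.sum_congr rfl e1, ← Finset.mul_sum, ← integral_finsetSum]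
    · unfold Av
      rw [Complex.ofReal_mul, ← hZ]
      congr 1
      rw [← integral_complex_ofReal]
      refine integral_congr_ae (Eventually.of_forall fun θ => ?_)
      simp only
      rw [Complex.ofReal_mul, cc_expand, Finset.sum_mul]
      refine Finset.sum_congr rfl fun n _ => ?_
      ring
    · intro n _
      exact (continuous_const.mul (hcont n)).continuousOn.integrableOn_compact isCompact_II
  refine ⟨m, φ, hT, ?_, ?_⟩
  · intro n z hz
    refine hφ0 n z ?_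
    rintro ⟨w, hw, hwz⟩
    apply hz
    rwa [UpperHalfPlane.ext hwz] at hw
  · intro g
    constructor
    · rw [hsum g, ← Complex.ofReal_sub, Complex.norm_real, Real.norm_eq_abs]
      have h3 := h1 (ent g)
      unfold PP at h3
      rw [Rt_zero] at h3
      exact h3
    · have hd1 : HasDerivAt (fun t : ℝ => ∑ n ∈ Finset.Icc (-(m : ℤ)) m,
          φ n (base (g * fl t)) * ze (g * fl t) ^ n)
          (∑ n ∈ Finset.Icc (-(m : ℤ)) m, Xf (φ n) n g) 0 :=
        HasDerivAt.fun_sum (fun n _ => hX (φ n) n g (hT n).smooth)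
      have hd2 := (hasDerivAt_Av hΦ hB m (ent g)).ofReal_comp
      have e2 : (fun t : ℝ => ∑ n ∈ Finset.Icc (-(m : ℤ)) m,
          φ n (base (g * fl t)) * ze (g * fl t) ^ n) =
          fun t : ℝ => ((Av m (PP Φ (Fl t (ent g))) : ℝ) : ℂ) := by
        funext t
        rw [hsum, ent_mul_fl]
      rw [e2] at hd1
      rw [hd1.unique hd2, ← Complex.ofReal_sub, Complex.norm_real, Real.norm_eq_abs]
      have h3 := h2 (ent g)
      unfold DD at h3
      rw [Rt_zero, Rt_zero] at h3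
      exact h3

end

end Pool.Agent.A54.Dyn
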