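import Pool.Agent.Lib.MP_a54f13_nt.Dyn.Spec1

/-!
Invariance of the limiting measure under the flow and on the left, from the formulas for the modes.
-/

set_option autoImplicit false

namespace Pool.Agent.A54.Dyn

open MeasureTheory Filter Topology Set
open scoped ComplexConjugate UpperHalfPlane MatrixGroups ENNReal ContDiff
open Pool.Agent.A54.Half (H0 qq ff hh)

noncomputable section

namespace FlowLeftM

/-! ### Entries -/

lemma continuous_ent : Continuous ent :=
  continuous_pi fun i => continuous_pi fun j => continuous_entry i j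

lemma isCompact_ent {S : Set (Fin 2 → Fin 2 → ℝ)} (hS : IsCompact S) : IsCompact (ent ⁻¹' S) := by
  have h : Topology.IsClosedEmbedding (Subtype.val : G → Matrix (Fin 2) (Fin 2) ℝ) :=
    Matrix.SpecialLinearGroup.isClosedEmbedding_val
  exact h.isCompact_preimage hS

lemma ent_neg (g : G) : ent (-g) = -ent g := rfl

lemma xd_neg (g : G) : xd (-g) = -xd g := by
  funext i j
  change (if j = 0 then -(g i 0) / 2 else -(-(g i 1)) / 2) =
    -(if j = 0 then g i 0 / 2 else -(g i 1) / 2)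
  split_ifs <;> ring

lemma continuous_xd : Continuous xd := by
  refine continuous_pi fun i => continuous_pi fun j => ?_
  unfold xd
  split_ifs
  · exact (continuous_entry i 0).div_const 2
  · exact (continuous_entry i 1).neg.div_const 2

lemma continuous_neg' : Continuous (fun g : G => -g) := by
  have h : (fun g : G => -g) = fun g => (-1 : G) * g := by
    funext g
    rw [neg_one_mul]
  rw [h]
  exact continuous_const.mul continuous_id

/-! ### The functions `φ(base g) (ze g)^n` and their derivatives -/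

variable {K : Set ℍ} {φ : ℂ → ℂ}

lemma continuous_zpow (n : ℤ) : Continuous (fun g : G => ze g ^ n) :=
  continuous_ze.zpow₀ n fun g => Or.inl (ze_ne g)

lemma continuous_baseC : Continuous (fun g : G => ((base g : ℍ) : ℂ)) :=
  UpperHalfPlane.continuous_coe.comp continuous_base

lemma continuous_term (hφ : Test H0 φ) (n : ℤ) :
    Continuous (fun g : G => φ (base g) * ze g ^ n) :=
  (hφ.smooth.continuous.comp continuous_baseC).mul (continuous_zpow n)

lemma continuous_Xf (hφ : Test H0 φ) (n : ℤ) : Continuous (Xf φ n) := by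
  have h1 : Continuous (fun g : G => dz φ (base g)) :=
    (contDiff_dz hφ.smooth).continuous.comp continuous_baseC
  have h2 : Continuous (fun g : G => dzb φ (base g)) :=
    (contDiff_dzb hφ.smooth).continuous.comp continuous_baseC
  have h3 : Continuous (fun g : G => φ (base g)) := hφ.smooth.continuous.comp continuous_baseC
  have h4 : Continuous (fun g : G => (((base g).im : ℝ) : ℂ)) :=
    Complex.continuous_ofReal.comp (UpperHalfPlane.continuous_im.comp continuous_base)
  have h5 : Continuous (fun g : G => (ze g)⁻¹) := continuous_ze.inv₀ ze_ne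
  have h6 := continuous_zpow n
  have h7 := continuous_zpow (n + 1)
  have h8 := continuous_zpow (n - 1)
  have h9 := continuous_ze
  unfold Xf
  exact (((continuous_const.mul h4).mul (((continuous_const.mul h9).mul h1).sub
    ((continuous_const.mul h5).mul h2))).mul h6).add
    ((continuous_const.mul h3).mul (h7.sub h8))

lemma term_zero (hK : ∀ z : ℍ, z ∉ K → φ z = 0) (n : ℤ) {g : G} (hg : base g ∉ K) :
    φ (base g) * ze g ^ n = 0 := by
  rw [hK _ hg, zero_mul]

lemma Xf_zero (hKc : IsCompact K) (hK : ∀ z : ℍ, z ∉ K → φ z = 0) (n : ℤ) {g : G}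
    (hg : base g ∉ K) : Xf φ n g = 0 := by
  have hV : IsOpen (UpperHalfPlane.coe '' Kᶜ) :=
    UpperHalfPlane.isOpenEmbedding_coe.isOpenMap _ hKc.isClosed.isOpen_compl
  have hz : ((base g : ℍ) : ℂ) ∈ UpperHalfPlane.coe '' Kᶜ := ⟨base g, hg, rfl⟩
  have h0 : ∀ w ∈ UpperHalfPlane.coe '' Kᶜ, φ w = (fun _ : ℂ => (0 : ℂ)) w := by
    rintro _ ⟨w, hw, rfl⟩
    exact hK w hw
  unfold Xf
  rw [dz_congr hV h0 hz, dzb_congr hV h0 hz, dz_const, dzb_const, hK _ hg]
  ring

/-! ### Integrals -/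

lemma integrable_of_zero {μ : Measure G} [IsFiniteMeasureOnCompacts μ] {E : Type*}
    [NormedAddCommGroup E] {C : Set G} (hC : IsCompact C) {A : G → E} (hA : Continuous A)
    (h : ∀ g, g ∉ C → A g = 0) : Integrable A μ :=
  hA.integrable_of_hasCompactSupport (HasCompactSupport.intro hC h)

lemma norm_sub_le {μ : Measure G} [IsFiniteMeasureOnCompacts μ] {C : Set G}
    (hC : IsCompact C) {A B : G → ℂ} (hA : Continuous A) (hB : Continuous B)
    (hA0 : ∀ g, g ∉ C → A g = 0) (hB0 : ∀ g, g ∉ C → B g = 0) {ε : ℝ}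
    (h : ∀ g, ‖A g - B g‖ ≤ ε) : ‖(∫ g, A g ∂μ) - ∫ g, B g ∂μ‖ ≤ ε * μ.real C := by
  rw [← integral_sub (integrable_of_zero hC hA hA0) (integrable_of_zero hC hB hB0)]
  have hCm : MeasurableSet C := hC.measurableSet
  have hi : Integrable (C.indicator (fun _ => ε)) μ := by
    rw [integrable_indicator_iff hCm]
    exact integrableOn_const hC.measure_lt_top.ne
  have h1 : ‖∫ g, (A g - B g) ∂μ‖ ≤ ∫ g, C.indicator (fun _ => ε) g ∂μ := by
    refine norm_integral_le_of_norm_le hi (Eventually.of_forall fun g => ?_)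
    by_cases hg : g ∈ C
    · rw [indicator_of_mem hg]
      exact h g
    · rw [indicator_of_notMem hg, hA0 g hg, hB0 g hg, sub_zero, norm_zero]
  rw [integral_indicator_const ε hCm] at h1
  calc _ ≤ _ := h1
    _ = ε * μ.real C := by rw [smul_eq_mul, mul_comm]

lemma eq_zero_of_le {z : ℂ} {M : ℝ} (hM : 0 ≤ M) (h : ∀ ε : ℝ, 0 < ε → ‖z‖ ≤ ε * M) : z = 0 := by
  by_contra hz
  have hz' : 0 < ‖z‖ := norm_pos_iff.mpr hz
  have h1 := h (‖z‖ / (2 * (M + 1))) (by positivity)
  have h2 : ‖z‖ / (2 * (M + 1)) * M < ‖z‖ := by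
    rw [div_mul_eq_mul_div, div_lt_iff₀ (by positivity)]
    nlinarith
  linarith

/-! ### Symmetric functions of the entries -/

/-- the symmetric part of `Φ` -/
def sy (Φ : (Fin 2 → Fin 2 → ℝ) → ℝ) (g : G) : ℝ := (Φ (ent g) + Φ (-ent g)) / 2

/-- the derivative of the symmetric part of `Φ` along the flow -/
def dy (Φ : (Fin 2 → Fin 2 → ℝ) → ℝ) (g : G) : ℝ :=
  (fderiv ℝ Φ (ent g) (xd g) + fderiv ℝ Φ (-ent g) (-xd g)) / 2

/-- a compact set containing the supports -/
def cs (K : Set ℍ) (Φ : (Fin 2 → Fin 2 → ℝ) → ℝ) : Set G :=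
  base ⁻¹' K ∪ (ent ⁻¹' (tsupport Φ) ∪ ent ⁻¹' ((fun A => -A) '' (tsupport Φ)))

lemma isCompact_cs (hK : IsCompact K) {Φ : (Fin 2 → Fin 2 → ℝ) → ℝ} (hc : HasCompactSupport Φ) :
    IsCompact (cs K Φ) :=
  (isCompact_base hK).union ((isCompact_ent hc).union
    (isCompact_ent (IsCompact.image hc continuous_neg)))

lemma notMem_cs {Φ : (Fin 2 → Fin 2 → ℝ) → ℝ} {g : G} (hg : g ∉ cs K Φ) :
    base g ∉ K ∧ ent g ∉ tsupport Φ ∧ -ent g ∉ tsupport Φ := by
  unfold cs at hg
  rw [mem_union, mem_union, not_or, not_or] at hg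
  refine ⟨hg.1, hg.2.1, fun h => hg.2.2 ⟨-ent g, h, ?_⟩⟩
  simp

lemma fderiv_zero {Φ : (Fin 2 → Fin 2 → ℝ) → ℝ} {A : Fin 2 → Fin 2 → ℝ} (h : A ∉ tsupport Φ) :
    fderiv ℝ Φ A = 0 := by
  by_contra hne
  exact h (support_fderiv_subset ℝ (Function.mem_support.mpr hne))

lemma sy_zero {Φ : (Fin 2 → Fin 2 → ℝ) → ℝ} {g : G} (hg : g ∉ cs K Φ) : sy Φ g = 0 := by
  obtain ⟨-, h1, h2⟩ := notMem_cs hg
  unfold sy
  rw [image_eq_zero_of_notMem_tsupport h1, image_eq_zero_of_notMem_tsupport h2]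
  simp

lemma dy_zero {Φ : (Fin 2 → Fin 2 → ℝ) → ℝ} {g : G} (hg : g ∉ cs K Φ) : dy Φ g = 0 := by
  obtain ⟨-, h1, h2⟩ := notMem_cs hg
  unfold dy
  rw [fderiv_zero h1, fderiv_zero h2]
  simp

variable {Φ : (Fin 2 → Fin 2 → ℝ) → ℝ}

lemma continuous_sy (hs : ContDiff ℝ ∞ Φ) : Continuous (sy Φ) :=
  ((hs.continuous.comp continuous_ent).add
    (hs.continuous.comp continuous_ent.neg)).div_const 2

lemma continuous_fd (hs : ContDiff ℝ ∞ Φ) : Continuous (fun g : G => fderiv ℝ Φ (ent g) (xd g)) :=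
  ((hs.continuous_fderiv (by simp)).comp continuous_ent).clm_apply continuous_xd

lemma continuous_fd' (hs : ContDiff ℝ ∞ Φ) :
    Continuous (fun g : G => fderiv ℝ Φ (-ent g) (-xd g)) :=
  ((hs.continuous_fderiv (by simp)).comp continuous_ent.neg).clm_apply continuous_xd.neg

lemma continuous_dy (hs : ContDiff ℝ ∞ Φ) : Continuous (dy Φ) :=
  ((continuous_fd hs).add (continuous_fd' hs)).div_const 2

lemma integral_neg_inv {μ : Measure G} (hμ : μ.map (fun g => -g) = μ) {A : G → ℝ}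
    (hA : Continuous A) : ∫ g, A (-g) ∂μ = ∫ g, A g ∂μ := by
  conv_rhs => rw [← hμ]
  rw [integral_map continuous_neg'.measurable.aemeasurable hA.aestronglyMeasurable]

lemma integral_sy {μ : Measure G} [IsFiniteMeasureOnCompacts μ] (hμ : μ.map (fun g => -g) = μ)
    (hs : ContDiff ℝ ∞ Φ) (hc : HasCompactSupport Φ) :
    ∫ g, sy Φ g ∂μ = ∫ g, Φ (ent g) ∂μ := by
  have h1 : Integrable (fun g : G => Φ (ent g)) μ :=
    integrable_of_zero (isCompact_ent hc) (hs.continuous.comp continuous_ent) fun g hg =>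
      image_eq_zero_of_notMem_tsupport hg
  have h2 : Integrable (fun g : G => Φ (-ent g)) μ :=
    integrable_of_zero (isCompact_ent (IsCompact.image hc continuous_neg))
      (hs.continuous.comp continuous_ent.neg) fun g hg =>
        image_eq_zero_of_notMem_tsupport fun h => hg ⟨-ent g, h, by simp⟩
  have h3 := integral_neg_inv hμ (hs.continuous.comp continuous_ent)
  simp only [Function.comp_apply, ent_neg] at h3
  unfold sy
  rw [integral_div, integral_add h1 h2, h3]
  ring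

lemma integral_dy {μ : Measure G} [IsFiniteMeasureOnCompacts μ] (hμ : μ.map (fun g => -g) = μ)
    (hs : ContDiff ℝ ∞ Φ) (hc : HasCompactSupport Φ) :
    ∫ g, dy Φ g ∂μ = ∫ g, fderiv ℝ Φ (ent g) (xd g) ∂μ := by
  have h1 : Integrable (fun g : G => fderiv ℝ Φ (ent g) (xd g)) μ :=
    integrable_of_zero (isCompact_ent hc) (continuous_fd hs) fun g hg => by
      rw [fderiv_zero hg]; simp
  have h2 : Integrable (fun g : G => fderiv ℝ Φ (-ent g) (-xd g)) μ :=
    integrable_of_zero (isCompact_ent (IsCompact.image hc continuous_neg))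
      (continuous_fd' hs) fun g hg => by
        rw [fderiv_zero fun h => hg ⟨-ent g, h, by simp⟩]; simp
  have h3 := integral_neg_inv hμ (continuous_fd hs)
  simp only [ent_neg, xd_neg] at h3
  unfold dy
  rw [integral_div, integral_add h1 h2, h3]
  ring

/-! ### Left invariance -/

lemma left_aux (hF : StmtFej) {μ ν : Measure G} [IsFiniteMeasureOnCompacts μ]
    [IsFiniteMeasureOnCompacts ν]
    (h : ∀ (n : ℤ) (φ : ℂ → ℂ), Test H0 φ →
      ∫ g, φ (base g) * ze g ^ n ∂μ = ∫ g, φ (base g) * ze g ^ n ∂ν)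
    (hs : ContDiff ℝ ∞ Φ) (hc : HasCompactSupport Φ) : ∫ g, sy Φ g ∂μ = ∫ g, sy Φ g ∂ν := by
  obtain ⟨K, hK, hF⟩ := hF Φ hs hc
  have hC := isCompact_cs hK hc
  have key : (((∫ g, sy Φ g ∂μ) - ∫ g, sy Φ g ∂ν : ℝ) : ℂ) = 0 := by
    refine eq_zero_of_le (M := μ.real (cs K Φ) + ν.real (cs K Φ)) (by positivity) fun ε hε => ?_
    obtain ⟨N, φ, hφ, hφK, hb⟩ := hF ε hε
    have hA : Continuous (fun g : G => ∑ n ∈ Finset.Icc (-(N : ℤ)) N, φ n (base g) * ze g ^ n) :=
      continuous_finsetSum _ fun n _ => continuous_term (hφ n) n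
    have hA0 : ∀ g, g ∉ cs K Φ → ∑ n ∈ Finset.Icc (-(N : ℤ)) N, φ n (base g) * ze g ^ n = 0 :=
      fun g hg => Finset.sum_eq_zero fun n _ => term_zero (hφK n) n (notMem_cs hg).1
    have hB : Continuous (fun g : G => ((sy Φ g : ℝ) : ℂ)) :=
      Complex.continuous_ofReal.comp (continuous_sy hs)
    have hB0 : ∀ g, g ∉ cs K Φ → ((sy Φ g : ℝ) : ℂ) = 0 := fun g hg => by
      rw [sy_zero hg, Complex.ofReal_zero]
    have h1 := norm_sub_le (μ := μ) hC hA hB hA0 hB0 fun g => (hb g).1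
    have h2 := norm_sub_le (μ := ν) hC hA hB hA0 hB0 fun g => (hb g).1
    have hint : ∀ (m : Measure G) [IsFiniteMeasureOnCompacts m] (n : ℤ),
        Integrable (fun g : G => φ n (base g) * ze g ^ n) m := fun m _ n =>
      integrable_of_zero (isCompact_base hK) (continuous_term (hφ n) n) fun g hg =>
        term_zero (hφK n) n hg
    rw [integral_finsetSum _ fun n _ => hint μ n] at h1
    rw [integral_finsetSum _ fun n _ => hint ν n,
      ← Finset.sum_congr rfl fun n _ => h n (φ n) (hφ n)] at h2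
    rw [integral_complex_ofReal] at h1 h2
    rw [Complex.ofReal_sub]
    calc ‖((∫ g, sy Φ g ∂μ : ℝ) : ℂ) - ((∫ g, sy Φ g ∂ν : ℝ) : ℂ)‖ =
        ‖((∑ n ∈ Finset.Icc (-(N : ℤ)) N, ∫ g, φ n (base g) * ze g ^ n ∂μ) -
            ((∫ g, sy Φ g ∂ν : ℝ) : ℂ)) -
          ((∑ n ∈ Finset.Icc (-(N : ℤ)) N, ∫ g, φ n (base g) * ze g ^ n ∂μ) -
            ((∫ g, sy Φ g ∂μ : ℝ) : ℂ))‖ := by congr 1; ring
      _ ≤ ε * ν.real (cs K Φ) + ε * μ.real (cs K Φ) :=
        (norm_sub_le' _ _).trans (add_le_add h2 h1)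
      _ = ε * (μ.real (cs K Φ) + ν.real (cs K Φ)) := by ring
  have h3 : (∫ g, sy Φ g ∂μ) - ∫ g, sy Φ g ∂ν = 0 := by exact_mod_cast key
  linarith
where
  norm_sub_le' (a b : ℂ) : ‖a - b‖ ≤ ‖a‖ + ‖b‖ := _root_.norm_sub_le a b

/-! ### The flow -/

/-- scaling of the columns -/
def Mt (t : ℝ) : (Fin 2 → Fin 2 → ℝ) →L[ℝ] (Fin 2 → Fin 2 → ℝ) :=
  ContinuousLinearMap.pi fun i => ContinuousLinearMap.pi fun j =>
    (if j = 0 then Real.exp (t / 2) else Real.exp (-t / 2)) •
      ((ContinuousLinearMap.proj (R := ℝ) (φ := fun _ : Fin 2 => ℝ) j).comp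
        (ContinuousLinearMap.proj (R := ℝ) (φ := fun _ : Fin 2 => (Fin 2 → ℝ)) i))

lemma Mt_apply (t : ℝ) (A : Fin 2 → Fin 2 → ℝ) (i j : Fin 2) :
    Mt t A i j = (if j = 0 then Real.exp (t / 2) else Real.exp (-t / 2)) * A i j := rfl

lemma Mt_neg (t : ℝ) (A : Fin 2 → Fin 2 → ℝ) : Mt (-t) (Mt t A) = A := by
  funext i j
  rw [Mt_apply, Mt_apply, ← mul_assoc]
  have h : (if j = 0 then Real.exp (-t / 2) else Real.exp (- -t / 2)) *
      (if j = 0 then Real.exp (t / 2) else Real.exp (-t / 2)) = 1 := by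
    split_ifs
    · rw [← Real.exp_add, show -t / 2 + t / 2 = 0 by ring, Real.exp_zero]
    · rw [← Real.exp_add, show - -t / 2 + -t / 2 = 0 by ring, Real.exp_zero]
  rw [h, one_mul]

lemma mul_fl_0 (g : G) (t : ℝ) (i : Fin 2) : (g * fl t) i 0 = g i 0 * Real.exp (t / 2) := by
  fin_cases i
  · exact (mul_00 g (fl t)).trans (by rw [fl_00, fl_10]; simp)
  · exact (mul_10 g (fl t)).trans (by rw [fl_00, fl_10]; simp)

lemma mul_fl_1 (g : G) (t : ℝ) (i : Fin 2) : (g * fl t) i 1 = g i 1 * Real.exp (-t / 2) := by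
  fin_cases i
  · exact (mul_01 g (fl t)).trans (by rw [fl_01, fl_11]; simp)
  · exact (mul_11 g (fl t)).trans (by rw [fl_01, fl_11]; simp)

lemma ent_fl (g : G) (t : ℝ) : ent (g * fl t) = Mt t (ent g) := by
  funext i j
  rw [Mt_apply]
  unfold ent
  split_ifs with h
  · rw [h, mul_fl_0, mul_comm]
  · have : j = 1 := by omega
    rw [this, mul_fl_1, mul_comm]

lemma xd_fl (g : G) (t : ℝ) : xd (g * fl t) = Mt t (xd g) := by
  funext i j
  rw [Mt_apply]
  unfold xd
  split_ifs with h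
  · rw [mul_fl_0]; ring
  · rw [mul_fl_1]; ring

lemma hasDerivAt_ent (g : G) (t : ℝ) :
    HasDerivAt (fun s : ℝ => ent (g * fl s)) (xd (g * fl t)) t := by
  rw [hasDerivAt_pi]
  intro i
  rw [hasDerivAt_pi]
  intro j
  by_cases h : j = 0
  · subst h
    have h1 : (fun s : ℝ => ent (g * fl s) i 0) = fun s => g i 0 * Real.exp (s / 2) := by
      funext s
      exact mul_fl_0 g s i
    rw [h1]
    have h2 : xd (g * fl t) i 0 = g i 0 * (Real.exp (t / 2) * (1 / 2)) := by
      unfold xd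
      rw [if_pos rfl, mul_fl_0]
      ring
    rw [h2]
    exact (((hasDerivAt_id t).div_const 2).exp).const_mul _
  · have hj : j = 1 := by omega
    subst hj
    have h1 : (fun s : ℝ => ent (g * fl s) i 1) = fun s => g i 1 * Real.exp (-s / 2) := by
      funext s
      exact mul_fl_1 g s i
    rw [h1]
    have h2 : xd (g * fl t) i 1 = g i 1 * (Real.exp (-t / 2) * (-1 / 2)) := by
      unfold xd
      rw [if_neg h, mul_fl_1]
      ring
    rw [h2]
    exact (((hasDerivAt_neg t).div_const 2).exp).const_mul _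

lemma hasDerivAt_Phi (hs : ContDiff ℝ ∞ Φ) (g : G) (t : ℝ) :
    HasDerivAt (fun s : ℝ => Φ (ent (g * fl s)))
      (fderiv ℝ Φ (ent (g * fl t)) (xd (g * fl t))) t :=
  ((hs.differentiable (by simp)).differentiableAt.hasFDerivAt).comp_hasDerivAt t
    (hasDerivAt_ent g t)

lemma smooth_Mt (hs : ContDiff ℝ ∞ Φ) (t : ℝ) : ContDiff ℝ ∞ (fun A => Φ (Mt t A)) :=
  hs.comp (Mt t).contDiff

lemma cpt_Mt (hc : HasCompactSupport Φ) (t : ℝ) : HasCompactSupport (fun A => Φ (Mt t A)) := by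
  refine HasCompactSupport.intro (K := (Mt (-t)) '' (tsupport Φ))
    (IsCompact.image hc (Mt (-t)).continuous) fun A hA => ?_
  refine image_eq_zero_of_notMem_tsupport fun h => hA ⟨Mt t A, h, Mt_neg t A⟩

lemma fderiv_Mt (hs : ContDiff ℝ ∞ Φ) (t : ℝ) (g : G) :
    fderiv ℝ (fun A => Φ (Mt t A)) (ent g) (xd g) =
      fderiv ℝ Φ (ent (g * fl t)) (xd (g * fl t)) := by
  have h1 : HasFDerivAt (fun A => Φ (Mt t A)) ((fderiv ℝ Φ (Mt t (ent g))).comp (Mt t)) (ent g) :=
    ((hs.differentiable (by simp)).differentiableAt.hasFDerivAt).comp (ent g)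
      (Mt t).hasFDerivAt
  rw [h1.fderiv, ContinuousLinearMap.comp_apply, ent_fl, xd_fl]

lemma deriv_zero (hF : StmtFej) {μ : Measure G} [IsFiniteMeasureOnCompacts μ]
    (hμ : μ.map (fun g => -g) = μ)
    (h : ∀ (n : ℤ) (φ : ℂ → ℂ), Test H0 φ → ∫ g, Xf φ n g ∂μ = 0)
    (hs : ContDiff ℝ ∞ Φ) (hc : HasCompactSupport Φ) :
    ∫ g, fderiv ℝ Φ (ent g) (xd g) ∂μ = 0 := by
  rw [← integral_dy hμ hs hc]
  obtain ⟨K, hK, hF⟩ := hF Φ hs hc
  have hC := isCompact_cs hK hc
  have key : ((∫ g, dy Φ g ∂μ : ℝ) : ℂ) = 0 := by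
    refine eq_zero_of_le (M := μ.real (cs K Φ)) (by positivity) fun ε hε => ?_
    obtain ⟨N, φ, hφ, hφK, hb⟩ := hF ε hε
    have hA : Continuous (fun g : G => ∑ n ∈ Finset.Icc (-(N : ℤ)) N, Xf (φ n) n g) :=
      continuous_finsetSum _ fun n _ => continuous_Xf (hφ n) n
    have hA0 : ∀ g, g ∉ cs K Φ → ∑ n ∈ Finset.Icc (-(N : ℤ)) N, Xf (φ n) n g = 0 :=
      fun g hg => Finset.sum_eq_zero fun n _ => Xf_zero hK (hφK n) n (notMem_cs hg).1
    have hB : Continuous (fun g : G => ((dy Φ g : ℝ) : ℂ)) :=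
      Complex.continuous_ofReal.comp (continuous_dy hs)
    have hB0 : ∀ g, g ∉ cs K Φ → ((dy Φ g : ℝ) : ℂ) = 0 := fun g hg => by
      rw [dy_zero hg, Complex.ofReal_zero]
    have h1 := norm_sub_le (μ := μ) hC hA hB hA0 hB0 fun g => (hb g).2
    have hint : ∀ n : ℤ, Integrable (Xf (φ n) n) μ := fun n =>
      integrable_of_zero (isCompact_base hK) (continuous_Xf (hφ n) n) fun g hg =>
        Xf_zero hK (hφK n) n hg
    rw [integral_finsetSum _ fun n _ => hint n,
      Finset.sum_eq_zero fun n _ => h n (φ n) (hφ n), zero_sub, norm_neg,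
      integral_complex_ofReal] at h1
    exact h1
  exact_mod_cast key

/-- the set of all `g` such that `g * fl s` is in the support for some `s` close to `t` -/
lemma exists_cpt (hc : HasCompactSupport Φ) (t : ℝ) : ∃ C : Set G, IsCompact C ∧
    ∀ s ∈ Icc (t - 1) (t + 1), ∀ g : G, g ∉ C → ent (g * fl s) ∉ tsupport Φ := by
  refine ⟨(fun p : ℝ × G => p.2 * fl (-p.1)) '' (Icc (t - 1) (t + 1) ×ˢ (ent ⁻¹' (tsupport Φ))),
    (isCompact_Icc.prod (isCompact_ent hc)).image
      (continuous_snd.mul (continuous_fl.comp continuous_fst.neg)), fun s hs g hg h => ?_⟩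
  refine hg ⟨(s, g * fl s), ⟨hs, h⟩, ?_⟩
  change g * fl s * fl (-s) = g
  rw [mul_assoc, ← fl_add, add_neg_cancel, fl_zero, mul_one]

lemma continuous_mul_fl : Continuous (fun p : ℝ × G => p.2 * fl p.1) :=
  continuous_snd.mul (continuous_fl.comp continuous_fst)

lemma hasDerivAt_integral {μ : Measure G} [IsFiniteMeasureOnCompacts μ]
    (hs : ContDiff ℝ ∞ Φ) (hc : HasCompactSupport Φ) (t : ℝ) :
    HasDerivAt (fun s : ℝ => ∫ g, Φ (ent (g * fl s)) ∂μ)
      (∫ g, fderiv ℝ Φ (ent (g * fl t)) (xd (g * fl t)) ∂μ) t := by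
  obtain ⟨C, hC, hC0⟩ := exists_cpt hc t
  have hF' : Continuous (fun p : ℝ × G => fderiv ℝ Φ (ent (p.2 * fl p.1)) (xd (p.2 * fl p.1))) :=
    (continuous_fd hs).comp continuous_mul_fl
  have hcF : ∀ s : ℝ, Continuous (fun g : G => Φ (ent (g * fl s))) := fun s =>
    hs.continuous.comp (continuous_ent.comp (continuous_id.mul continuous_const))
  have hcF' : ∀ s : ℝ, Continuous (fun g : G => fderiv ℝ Φ (ent (g * fl s)) (xd (g * fl s))) :=
    fun s => (continuous_fd hs).comp (continuous_id.mul continuous_const)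
  obtain ⟨B, hB⟩ := ((isCompact_Icc (a := t - 1) (b := t + 1)).prod hC).exists_bound_of_continuousOn
    hF'.continuousOn
  have ht : t ∈ Icc (t - 1) (t + 1) := ⟨by linarith, by linarith⟩
  refine (hasDerivAt_integral_of_dominated_loc_of_deriv_le (s := Icc (t - 1) (t + 1))
    (F := fun s g => Φ (ent (g * fl s)))
    (F' := fun s g => fderiv ℝ Φ (ent (g * fl s)) (xd (g * fl s)))
    (bound := C.indicator fun _ => B) (Icc_mem_nhds (by linarith) (by linarith))
    (Eventually.of_forall fun s => (hcF s).aestronglyMeasurable) ?_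
    (hcF' t).aestronglyMeasurable ?_ ?_ ?_).2
  · exact integrable_of_zero hC (hcF t) fun g hg =>
      image_eq_zero_of_notMem_tsupport (hC0 t ht g hg)
  · refine Eventually.of_forall fun g s hs' => ?_
    by_cases hg : g ∈ C
    · rw [indicator_of_mem hg]
      exact hB (s, g) ⟨hs', hg⟩
    · rw [indicator_of_notMem hg, fderiv_zero (hC0 s hs' g hg)]
      simp
  · rw [integrable_indicator_iff hC.measurableSet]
    exact integrableOn_const hC.measure_lt_top.ne
  · exact Eventually.of_forall fun g s _ => hasDerivAt_Phi hs g s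

end FlowLeftM

open FlowLeftM

/-- invariance under the flow -/
theorem stmtFlow (hF : StmtFej) (hD : StmtDens) : StmtFlow := by
  intro μ hfin hμ h t
  have := hfin
  have hemb : MeasurableEmbedding (fun g : G => g * fl t) :=
    (Homeomorph.mulRight (fl t)).measurableEmbedding
  have hfin' : IsFiniteMeasureOnCompacts (μ.map (fun g => g * fl t)) :=
    Measure.IsFiniteMeasureOnCompacts.map μ (Homeomorph.mulRight (fl t))
  refine hD _ _ hfin' hfin fun Φ hs hc => ?_
  rw [hemb.integral_map]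
  have hd : ∀ s : ℝ, HasDerivAt (fun s : ℝ => ∫ g, Φ (ent (g * fl s)) ∂μ) 0 s := by
    intro s
    have h1 := hasDerivAt_integral (μ := μ) hs hc s
    have h2 := deriv_zero hF hμ h (smooth_Mt hs s) (cpt_Mt hc s)
    simp only [fderiv_Mt hs s] at h2
    rwa [h2] at h1
  have h3 := is_const_of_deriv_eq_zero (fun s => (hd s).differentiableAt)
    (fun s => (hd s).deriv) t 0
  simp only [fl_zero, mul_one] at h3
  exact h3

/-- invariance on the left -/
theorem stmtLeft (hF : StmtFej) (hD : StmtDens) : StmtLeft := by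
  intro μ hfin hμ γ h
  have := hfin
  have hemb : MeasurableEmbedding (fun g : G => io γ * g) :=
    (Homeomorph.mulLeft (io γ)).measurableEmbedding
  have hfin' : IsFiniteMeasureOnCompacts (μ.map (fun g => io γ * g)) :=
    Measure.IsFiniteMeasureOnCompacts.map μ (Homeomorph.mulLeft (io γ))
  have hμ' : (μ.map (fun g => io γ * g)).map (fun g => -g) = μ.map (fun g => io γ * g) := by
    conv_rhs => rw [← hμ]
    rw [Measure.map_map continuous_neg'.measurable hemb.measurable,
      Measure.map_map hemb.measurable continuous_neg'.measurable]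
    congr 1
    funext g
    simp
  refine hD _ _ hfin' hfin fun Φ hs hc => ?_
  rw [← integral_sy hμ' hs hc, ← integral_sy hμ hs hc]
  refine left_aux hF (fun n φ hφ => ?_) hs hc
  rw [hemb.integral_map]
  exact h n φ hφ

end

end Pool.Agent.A54.Dyn
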