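import Pool.Agent.Lib.MP_a54f13_nt.Dyn.Spec

/-!
Geometry near the identity, parts (1) and (4).
-/

set_option autoImplicit false

namespace Pool.Agent.A54.Dyn

open MeasureTheory Filter Topology Set
open scoped ComplexConjugate UpperHalfPlane MatrixGroups ENNReal ContDiff

noncomputable section

namespace Geo14M

lemma exp_bound {u : ℝ} (hu : |u| ≤ 1 / 2) : |Real.exp u - 1| ≤ 2 * |u| := by
  have h := Real.abs_exp_sub_one_le (x := u) (by linarith)
  exact h

lemma exp_lower {u : ℝ} (hu : |u| ≤ 1 / 2) : 1 / 2 ≤ Real.exp u := by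
  have h1 := Real.add_one_le_exp u
  have h2 := (abs_le.mp hu).1
  linarith

lemma exp_upper {u : ℝ} (hu : |u| ≤ 1 / 2) : Real.exp u ≤ 2 := by
  have h1 := (abs_le.mp (exp_bound hu)).2
  linarith

lemma exp_sub {u : ℝ} (hu : |u| ≤ 1 / 2) : |Real.exp u - Real.exp (-u)| ≤ 4 * |u| := by
  have h1 := exp_bound hu
  have h2 := exp_bound (u := -u) (by rwa [abs_neg])
  rw [abs_neg] at h2
  have : Real.exp u - Real.exp (-u) = (Real.exp u - 1) - (Real.exp (-u) - 1) := by ring
  rw [this]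
  exact (abs_sub _ _).trans (by linarith)

/-- the denominator -/
def DD (g : G) : ℝ := cY g ^ 2 * Real.exp (cU g) + Real.exp (-cU g)

lemma DD_eq {g : G} (hg : g ∈ dom) :
    g 1 0 ^ 2 + g 1 1 ^ 2 = DD g / (1 - cX g * cY g) := by
  have h0 := hg.1
  have h1 := sq_00 hg
  have h2 := sq_11 hg
  have h3 : g 1 0 = cY g * g 0 0 := by
    unfold cY; field_simp
  rw [h3, mul_pow, h1, h2, DD]
  ring

lemma DD_pos (g : G) : 0 < DD g := by
  unfold DD
  have := Real.exp_pos (cU g)
  have := Real.exp_pos (-cU g)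
  positivity

lemma im_base {g : G} (hg : g ∈ dom) : (base g).im = (1 - cX g * cY g) / DD g := by
  unfold base
  rw [im_smul]
  have h1 : Complex.normSq ((g 1 0 : ℂ) * UpperHalfPlane.I + g 1 1) = g 1 0 ^ 2 + g 1 1 ^ 2 := by
    rw [Complex.normSq_apply]
    simp
    ring
  rw [h1, DD_eq hg, UpperHalfPlane.I_im, one_div, inv_div]

lemma re_base {g : G} (hg : g ∈ dom) : (base g).re =
    (cX g * Real.exp (-cU g) + cY g * Real.exp (cU g)) / DD g := by
  have h0 := hg.1
  have h1 := hg.2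
  have hp := one_sub_pos hg
  have h2 : (base g).re = (g 0 0 * g 1 0 + g 0 1 * g 1 1) / (g 1 0 ^ 2 + g 1 1 ^ 2) := by
    have h3 := congrArg Complex.re (base_coe g)
    rw [UpperHalfPlane.coe_re] at h3
    rw [h3, Complex.div_re]
    have h4 : Complex.normSq ((g 1 0 : ℂ) * Complex.I + g 1 1) = g 1 0 ^ 2 + g 1 1 ^ 2 := by
      rw [Complex.normSq_apply]
      simp
      ring
    rw [h4]
    simp
    ring
  have h3 : g 1 0 = cY g * g 0 0 := by unfold cY; field_simp
  have h4 : g 0 1 = cX g * g 1 1 := by unfold cX; field_simp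
  have h5 : g 0 0 * g 1 0 + g 0 1 * g 1 1 =
      (cX g * Real.exp (-cU g) + cY g * Real.exp (cU g)) / (1 - cX g * cY g) := by
    rw [h3, h4]
    have e1 : g 0 0 * (cY g * g 0 0) + cX g * g 1 1 * g 1 1 =
        cY g * g 0 0 ^ 2 + cX g * g 1 1 ^ 2 := by ring
    rw [e1, sq_00 hg, sq_11 hg]
    ring
  rw [h2, h5, DD_eq hg, div_div_div_cancel_right₀ hp.ne']

lemma dist_I_le {z : ℍ} (hz : 1 / 4 ≤ z.im) :
    dist z UpperHalfPlane.I ≤ 2 * (|z.re| + |z.im - 1|) := by
  have h1 := UpperHalfPlane.sinh_half_dist z UpperHalfPlane.I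
  have h2 : dist z UpperHalfPlane.I / 2 ≤ Real.sinh (dist z UpperHalfPlane.I / 2) :=
    Real.self_le_sinh_iff.mpr (by positivity)
  rw [h1, UpperHalfPlane.I_im, mul_one] at h2
  have h3 : 1 / 2 ≤ Real.sqrt z.im := by
    rw [show (1 / 2 : ℝ) = Real.sqrt (1 / 4) by
      rw [show (1 / 4 : ℝ) = (1 / 2) ^ 2 by norm_num, Real.sqrt_sq (by norm_num)]]
    exact Real.sqrt_le_sqrt hz
  have h4 : dist (z : ℂ) (UpperHalfPlane.I : ℂ) ≤ |z.re| + |z.im - 1| := by
    rw [Complex.dist_eq]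
    refine (Complex.norm_le_abs_re_add_abs_im _).trans (le_of_eq ?_)
    simp
  have h5 : dist (z : ℂ) (UpperHalfPlane.I : ℂ) / (2 * Real.sqrt z.im) ≤
      (|z.re| + |z.im - 1|) / 1 := by
    refine div_le_div₀ (by positivity) h4 one_pos (by linarith)
  linarith

lemma DD_lower {g : G} (hU : |cU g| ≤ 1 / 2) : 1 / 2 ≤ DD g := by
  unfold DD
  have h1 := exp_lower (u := -cU g) (by rwa [abs_neg])
  have := Real.exp_pos (cU g)
  have : 0 ≤ cY g ^ 2 * Real.exp (cU g) := by positivity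
  linarith

end Geo14M

open Geo14M

theorem Geo14M.geo1 (g : G) (ρ : ℝ) (hg : g ∈ dom) (hY : |cY g| ≤ 1 / 8)
    (hρ : ρ ≤ 1 / 8) (hXY : |cX g + cY g| ≤ ρ) (hU : |cU g| ≤ ρ) :
    dist (base g) UpperHalfPlane.I ≤ 24 * ρ := by
  have hρ0 : 0 ≤ ρ := (abs_nonneg _).trans hU
  have hU' : |cU g| ≤ 1 / 2 := by linarith
  have hD := DD_lower hU'
  have hDp := DD_pos g
  have e1 := exp_bound hU'
  have e2 := exp_bound (u := -cU g) (by rwa [abs_neg])
  rw [abs_neg] at e2
  have e3 := exp_upper (u := -cU g) (by rwa [abs_neg])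
  have e4 := exp_sub hU'
  have e5 := Real.exp_pos (-cU g)
  have hre : |(base g).re| ≤ 6 * ρ := by
    rw [re_base hg, abs_div, abs_of_pos hDp, div_le_iff₀ hDp]
    have h1 : cX g * Real.exp (-cU g) + cY g * Real.exp (cU g) =
        (cX g + cY g) * Real.exp (-cU g) + cY g * (Real.exp (cU g) - Real.exp (-cU g)) := by ring
    rw [h1]
    refine (abs_add_le _ _).trans ?_
    rw [abs_mul, abs_mul, abs_of_pos e5]
    have h2 : |cX g + cY g| * Real.exp (-cU g) ≤ ρ * 2 := mul_le_mul hXY e3 e5.le hρ0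
    have h3 : |cY g| * |Real.exp (cU g) - Real.exp (-cU g)| ≤ 1 / 8 * (4 * ρ) :=
      mul_le_mul hY (by linarith) (abs_nonneg _) (by norm_num)
    have h4 : 6 * ρ * (1 / 2) ≤ 6 * ρ * DD g := mul_le_mul_of_nonneg_left hD (by positivity)
    linarith
  have him : |(base g).im - 1| ≤ 6 * ρ := by
    rw [im_base hg, div_sub_one hDp.ne', abs_div, abs_of_pos hDp, div_le_iff₀ hDp]
    have h1 : 1 - cX g * cY g - DD g = -(Real.exp (-cU g) - 1) - cY g * (cX g + cY g) -
        cY g * cY g * (Real.exp (cU g) - 1) := by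
      unfold DD; ring
    rw [h1]
    have h2 : |cY g * (cX g + cY g)| ≤ 1 / 8 * ρ := by
      rw [abs_mul]
      exact mul_le_mul hY hXY (abs_nonneg _) (by norm_num)
    have h3 : |cY g * cY g * (Real.exp (cU g) - 1)| ≤ 1 / 8 * (1 / 8) * (2 * ρ) := by
      rw [abs_mul, abs_mul]
      exact mul_le_mul (mul_le_mul hY hY (abs_nonneg _) (by norm_num)) (by linarith)
        (abs_nonneg _) (by norm_num)
    have h4 : 6 * ρ * (1 / 2) ≤ 6 * ρ * DD g := mul_le_mul_of_nonneg_left hD (by positivity)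
    have h5 := abs_le.mp h2
    have h6 := abs_le.mp h3
    have h7 := abs_le.mp e2
    rw [abs_le]
    constructor <;> linarith
  have him4 : 1 / 4 ≤ (base g).im := by
    have := (abs_le.mp him).1
    linarith
  have := dist_I_le him4
  linarith

theorem stmtGeo1 : StmtGeo1 :=
  ⟨24, 1 / 8, by norm_num, by norm_num, fun g ρ hg _ hY hρ hXY hU =>
    Geo14M.geo1 g ρ hg hY hρ hXY hU⟩

theorem stmtGeo4 : StmtGeo4 := by
  refine ⟨48, 1 / 16, by norm_num, by norm_num, ?_⟩
  intro g δ hg hX hY hU hδ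
  have hδ0 : 0 ≤ δ := (abs_nonneg _).trans hU
  have hU' : |cU g| ≤ 1 / 2 := by linarith
  have hD := DD_lower hU'
  have hDp := DD_pos g
  have e3 := exp_upper hU'
  have e4 := exp_sub hU'
  have e5 := Real.exp_pos (cU g)
  have hYY : cY g ^ 2 ≤ δ ^ 2 := by
    rw [← sq_abs]
    exact pow_le_pow_left₀ (abs_nonneg _) hY 2
  have hδ2 : δ ^ 2 ≤ δ * (1 / 16) := by nlinarith
  refine ⟨?_, ?_, ?_, ?_⟩
  · rw [re_base hg, div_sub' hDp.ne', abs_div, abs_of_pos hDp, div_le_iff₀ hDp]
    have h1 : cX g * Real.exp (-cU g) + cY g * Real.exp (cU g) - DD g * (cX g + cY g) =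
        cY g * (Real.exp (cU g) - Real.exp (-cU g)) -
          (cX g + cY g) * (cY g ^ 2 * Real.exp (cU g)) := by
      unfold DD; ring
    rw [h1]
    have h2 : |cY g * (Real.exp (cU g) - Real.exp (-cU g))| ≤ δ * (4 * δ) := by
      rw [abs_mul]
      exact mul_le_mul hY (by linarith) (abs_nonneg _) hδ0
    have h3 : |(cX g + cY g) * (cY g ^ 2 * Real.exp (cU g))| ≤ (2 * δ) * (δ ^ 2 * 2) := by
      rw [abs_mul]
      refine mul_le_mul ((abs_add_le _ _).trans (by linarith)) ?_ (abs_nonneg _) (by positivity)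
      rw [abs_of_nonneg (by positivity)]
      exact mul_le_mul hYY e3 e5.le (by positivity)
    have h4 : 48 * δ ^ 2 * (1 / 2) ≤ 48 * δ ^ 2 * DD g :=
      mul_le_mul_of_nonneg_left hD (by positivity)
    have h5 := abs_le.mp h2
    have h6 := abs_le.mp h3
    have h7 : (2 * δ) * (δ ^ 2 * 2) ≤ δ ^ 2 := by nlinarith
    rw [abs_le]
    constructor <;> nlinarith
  · have hp := one_sub_pos hg
    have hXY : |cX g * cY g| ≤ δ ^ 2 := by
      rw [abs_mul, sq]
      exact mul_le_mul hX hY (abs_nonneg _) hδ0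
    rw [im_base hg, Real.log_div hp.ne' hDp.ne']
    have h1 : DD g = Real.exp (-cU g) * (1 + cY g ^ 2 * Real.exp (2 * cU g)) := by
      unfold DD
      rw [mul_add, mul_one, mul_left_comm, ← Real.exp_add,
        show -cU g + 2 * cU g = cU g by ring]
      ring
    have h2 : 0 < 1 + cY g ^ 2 * Real.exp (2 * cU g) := by positivity
    rw [h1, Real.log_mul (Real.exp_pos _).ne' h2.ne', Real.log_exp]
    have h3 : Real.log (1 + cY g ^ 2 * Real.exp (2 * cU g)) ≤ cY g ^ 2 * Real.exp (2 * cU g) := by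
      have := Real.log_le_sub_one_of_pos h2
      linarith
    have h4 : 0 ≤ Real.log (1 + cY g ^ 2 * Real.exp (2 * cU g)) :=
      Real.log_nonneg (by have : 0 ≤ cY g ^ 2 * Real.exp (2 * cU g) := by positivity
                          linarith)
    have h5 : Real.exp (2 * cU g) ≤ 2 := by
      apply exp_upper
      rw [abs_mul]
      norm_num
      linarith
    have h6 : cY g ^ 2 * Real.exp (2 * cU g) ≤ δ ^ 2 * 2 :=
      mul_le_mul hYY h5 (Real.exp_pos _).le (by positivity)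
    have h7 := abs_le.mp hXY
    have h8 : Real.log (1 - cX g * cY g) ≤ δ ^ 2 := by
      have := Real.log_le_sub_one_of_pos hp
      linarith
    have h9 : -(2 * δ ^ 2) ≤ Real.log (1 - cX g * cY g) := by
      have h10 : 1 / 2 ≤ 1 - cX g * cY g := by nlinarith
      have h11 := Real.one_sub_inv_le_log_of_pos hp
      have h12 : (1 - cX g * cY g)⁻¹ ≤ 1 + 2 * δ ^ 2 := by
        rw [inv_le_iff_one_le_mul₀ hp]
        nlinarith
      linarith
    rw [abs_le]
    constructor <;> linarith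
  · have hd := denI_ne g
    have h0 := hg.1
    have h1 := hg.2
    have e1 : ze g - 1 = -(2 * Complex.I * (g 1 0 : ℂ)) /
        ((g 1 1 : ℂ) + Complex.I * (g 1 0 : ℂ)) := by
      unfold ze
      rw [div_sub_one hd]
      congr 1
      ring
    have e2 : g 1 1 ≤ ‖(g 1 1 : ℂ) + Complex.I * (g 1 0 : ℂ)‖ := by
      refine le_trans (le_of_eq ?_) ((le_abs_self _).trans (Complex.abs_re_le_norm _))
      simp
    have e6 : |g 1 0| = |cY g| * Real.exp (cU g) * g 1 1 := by
      have h3 : g 1 0 = cY g * Real.exp (cU g) * g 1 1 := by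
        rw [exp_cU hg]; unfold cY; field_simp
      rw [h3, abs_mul, abs_mul, abs_of_pos e5, abs_of_pos h1]
    rw [e1, norm_div, norm_neg, norm_mul, norm_mul, Complex.norm_I, Complex.norm_real,
      Real.norm_eq_abs, div_le_iff₀ (h1.trans_le e2)]
    have e7 : |g 1 0| ≤ 2 * δ * g 1 1 := by
      rw [e6]
      refine mul_le_mul_of_nonneg_right ?_ h1.le
      have := mul_le_mul hY e3 e5.le hδ0
      linarith
    have e8 : 48 * δ * g 1 1 ≤ 48 * δ * ‖(g 1 1 : ℂ) + Complex.I * (g 1 0 : ℂ)‖ :=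
      mul_le_mul_of_nonneg_left e2 (by positivity)
    have e9 : 0 ≤ δ * g 1 1 := by positivity
    norm_num
    linarith
  · have := Geo14M.geo1 g (2 * δ) hg (by linarith) (by linarith)
      ((abs_add_le _ _).trans (by linarith)) (by linarith)
    linarith

end

end Pool.Agent.A54.Dyn
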