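import Pool.Agent.Lib.MP_a54f13_nt.Dyn.Spec

/-!
The atom function `aa`: `StmtHH` from `StmtBall`, `StmtExt`, `StmtWin`.
-/

set_option autoImplicit false

namespace Pool.Agent.A54.Dyn

open MeasureTheory Filter Topology Set
open scoped ComplexConjugate UpperHalfPlane MatrixGroups ENNReal ContDiff

noncomputable section

namespace HHmM

/-! ### The peak function -/

lemma FF_nonneg (m : ℕ) (v v' : G) : 0 ≤ FF m v v' := by
  unfold FF; positivity

lemma FF_arg_le (v v' : G) : ‖ze v + ze v'‖ ^ 2 / 4 ≤ 1 := by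
  have h := norm_add_le (ze v) (ze v')
  rw [norm_ze, norm_ze] at h
  have h0 := norm_nonneg (ze v + ze v')
  nlinarith

lemma FF_le_one (m : ℕ) (v v' : G) : FF m v v' ≤ 1 := by
  unfold FF
  exact pow_le_one₀ (by positivity) (FF_arg_le v v')

lemma FF_succ_le (m : ℕ) (v v' : G) : FF (m + 1) v v' ≤ FF m v v' := by
  unfold FF
  exact pow_le_pow_of_le_one (by positivity) (FF_arg_le v v') (Nat.le_succ m)

lemma continuous_FF (m : ℕ) : Continuous (fun p : G × G => FF m p.1 p.2) := by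
  unfold FF
  have h1 : Continuous (fun p : G × G => ze p.1 + ze p.2) :=
    (continuous_ze.comp continuous_fst).add (continuous_ze.comp continuous_snd)
  exact ((h1.norm.pow 2).div_const 4).pow m

/-! ### The windows -/

/-- the window -/
def Wi (S : Set ℍ) (v : G) : Set G := {v' | base (v⁻¹ * v') ∈ S}

lemma isCompact_Wi {S : Set ℍ} (hS : IsCompact S) (v : G) : IsCompact (Wi S v) := by
  have h := (Homeomorph.mulLeft v⁻¹).isCompact_preimage.mpr (isCompact_base hS)
  exact h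

lemma measurableSet_Wi {S : Set ℍ} (hS : MeasurableSet S) (v : G) : MeasurableSet (Wi S v) := by
  have h : Continuous (fun v' : G => base (v⁻¹ * v')) :=
    continuous_base.comp (continuous_const.mul continuous_id)
  exact h.measurable hS

lemma integrable_FF {μ : Measure G} [IsFiniteMeasureOnCompacts μ] {S : Set ℍ} (hS : IsCompact S)
    (m : ℕ) (v : G) : IntegrableOn (fun v' => FF m v v') (Wi S v) μ := by
  have hc : Continuous (fun v' : G => FF m v v') := by
    unfold FF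
    have h1 : Continuous (fun v' : G => ze v + ze v') := continuous_const.add continuous_ze
    exact ((h1.norm.pow 2).div_const 4).pow m
  exact hc.continuousOn.integrableOn_compact (isCompact_Wi hS v)

lemma measurable_A {μ : Measure G} [SFinite μ] {S : Set ℍ} (hS : MeasurableSet S) (m : ℕ) :
    Measurable (fun v => ∫ v' in Wi S v, FF m v v' ∂μ) := by
  set T : Set (G × G) := {p | base (p.1⁻¹ * p.2) ∈ S} with hT
  have hTm : MeasurableSet T := by
    have h : Continuous (fun p : G × G => base (p.1⁻¹ * p.2)) :=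
      continuous_base.comp (continuous_fst.inv.mul continuous_snd)
    exact h.measurable hS
  have h1 : StronglyMeasurable (T.indicator (fun p : G × G => FF m p.1 p.2)) :=
    ((continuous_FF m).measurable.indicator hTm).stronglyMeasurable
  have h2 := (StronglyMeasurable.integral_prod_right' (ν := μ) h1).measurable
  have h3 : (fun v => ∫ v' in Wi S v, FF m v v' ∂μ) =
      fun v => ∫ v', T.indicator (fun p : G × G => FF m p.1 p.2) (v, v') ∂μ := by
    funext v
    rw [← integral_indicator (measurableSet_Wi hS v)]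
    rfl
  rw [h3]
  exact h2

lemma A_nonneg {μ : Measure G} (S : Set ℍ) (m : ℕ) (v : G) :
    0 ≤ ∫ v' in Wi S v, FF m v v' ∂μ :=
  integral_nonneg (fun v' => FF_nonneg m v v')

lemma A_succ_le {μ : Measure G} [IsFiniteMeasureOnCompacts μ] {S : Set ℍ} (hS : IsCompact S)
    (m : ℕ) (v : G) :
    ∫ v' in Wi S v, FF (m + 1) v v' ∂μ ≤ ∫ v' in Wi S v, FF m v v' ∂μ :=
  integral_mono (integrable_FF hS (m + 1) v) (integrable_FF hS m v)
    (fun v' => FF_succ_le m v v')

/-! ### The modes -/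

lemma measurable_HH {V : Set ℍ} {ρ : ℤ → ℍ → ℂ} {μ : Measure G} (hM : Mod V ρ μ) (m : ℕ) :
    Measurable (HH ρ m) := by
  unfold HH
  apply Complex.measurable_re.comp
  apply Finset.measurable_fun_sum
  intro j _
  have h1 : Continuous (fun v : G => ze v ^ ((j : ℤ) - m)) :=
    continuous_ze.zpow₀ _ (fun v => Or.inl (ze_ne v))
  have h2 : Measurable (fun v : G => ρ ((j : ℤ) - m) (base v)) :=
    (hM.meas _).comp measurable_base
  exact (measurable_const.mul h1.measurable).mul h2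

lemma measurable_aa {V : Set ℍ} {ρ : ℤ → ℍ → ℂ} {μ : Measure G} (hM : Mod V ρ μ) :
    Measurable (aa ρ) := by
  unfold aa
  exact (Measurable.iInf (fun m => measurable_HH hM m)).div_const 2

lemma HH_zero (ρ : ℤ → ℍ → ℂ) (v : G) : HH ρ 0 v = (ρ 0 (base v)).re := by
  unfold HH
  simp

/-! ### Localisation -/

lemma ae_of_compacts {V : Set ℍ} (hV : IsOpen V) {μ : Measure G} {p : G → Prop}
    (h : ∀ K : Set ℍ, IsCompact K → K ⊆ V → ∀ᵐ v ∂(μ.restrict (base ⁻¹' K)), p v) :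
    ∀ᵐ v ∂(μ.restrict (base ⁻¹' V)), p v := by
  rw [ae_restrict_iff' (measurable_base hV.measurableSet), ae_iff]
  apply measure_null_of_locally_null
  intro v hv
  have hvV : base v ∈ V := by
    by_contra hn
    exact hv (fun hh => absurd hh hn)
  obtain ⟨K, hK, hvK, hKV⟩ := exists_compact_subset hV hvV
  refine ⟨{v | ¬(v ∈ base ⁻¹' V → p v)} ∩ base ⁻¹' K, ?_, ?_⟩
  · apply inter_mem_nhdsWithin
    exact continuous_base.continuousAt.preimage_mem_nhds (mem_interior_iff_mem_nhds.mp hvK)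
  · have h1 := h K hK hKV
    rw [ae_restrict_iff' (measurable_base hK.measurableSet), ae_iff] at h1
    refine measure_mono_null ?_ h1
    rintro w ⟨hw1, hw2⟩
    simp only [mem_ofPred_eq, Classical.not_imp] at hw1 ⊢
    exact ⟨hw2, hw1.2⟩

/-! ### Nonnegativity from windows -/

lemma key (hB : StmtBall) {μ : Measure G} {K : Set ℍ} {f : G → ℝ} (hf : Measurable f)
    (h : ∀ ε : ℝ, 0 < ε → ∃ r : ℝ, 0 < r ∧ r ≤ 1 ∧ ∃ B : G → ℝ, (∀ v, 0 ≤ B v) ∧
      ∫⁻ v in base ⁻¹' K, ‖B v - f v *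
        (volume (Metric.closedBall UpperHalfPlane.I r)).toReal‖ₑ ∂μ ≤ ENNReal.ofReal (ε * r ^ 2)) :
    ∀ᵐ v ∂(μ.restrict (base ⁻¹' K)), 0 ≤ f v := by
  obtain ⟨C, hC, hball⟩ := hB
  have hneg : Measurable (fun v => ENNReal.ofReal (-f v)) := hf.neg.ennreal_ofReal
  have hle : ∀ δ : ℝ, 0 < δ →
      ∫⁻ v in base ⁻¹' K, ENNReal.ofReal (-f v) ∂μ ≤ ENNReal.ofReal δ := by
    intro δ hδ
    obtain ⟨r, hr0, hr1, B, hB0, hBint⟩ := h (δ / C) (by positivity)
    set w := (volume (Metric.closedBall UpperHalfPlane.I r)).toReal with hw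
    have hvol : r ^ 2 / C ≤ w := by
      have h1 := (hball UpperHalfPlane.I r hr0 hr1)
      have h2 : volume (Metric.closedBall UpperHalfPlane.I r) ≠ ⊤ :=
        (h1.1.trans_lt ENNReal.ofReal_lt_top).ne
      exact (ENNReal.ofReal_le_iff_le_toReal h2).mp h1.2
    have hrC : 0 < r ^ 2 / C := by positivity
    have h3 : ∫⁻ v in base ⁻¹' K, ENNReal.ofReal (-f v) * ENNReal.ofReal (r ^ 2 / C) ∂μ ≤
        ENNReal.ofReal (δ / C * r ^ 2) := by
      refine le_trans (lintegral_mono ?_) hBint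
      intro v
      show ENNReal.ofReal (-f v) * ENNReal.ofReal (r ^ 2 / C) ≤ ‖B v - f v * w‖ₑ
      rw [← ENNReal.ofReal_mul' hrC.le, Real.enorm_eq_ofReal_abs]
      apply ENNReal.ofReal_le_ofReal
      by_cases hfv : 0 ≤ f v
      · have : -f v * (r ^ 2 / C) ≤ 0 := by nlinarith
        exact this.trans (abs_nonneg _)
      · push Not at hfv
        have h4 : -f v * (r ^ 2 / C) ≤ -f v * w := mul_le_mul_of_nonneg_left hvol (by linarith)
        have h5 := le_abs_self (B v - f v * w)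
        have h6 := hB0 v
        linarith
    rw [lintegral_mul_const _ hneg] at h3
    have h7 : ENNReal.ofReal (δ / C * r ^ 2) = ENNReal.ofReal δ * ENNReal.ofReal (r ^ 2 / C) := by
      rw [← ENNReal.ofReal_mul' hrC.le]
      congr 1
      ring
    rw [h7] at h3
    have h8 : ENNReal.ofReal (r ^ 2 / C) ≠ 0 := by
      rw [Ne, ENNReal.ofReal_eq_zero, not_le]; exact hrC
    exact (ENNReal.mul_le_mul_iff_left h8 ENNReal.ofReal_ne_top).mp h3
  have h0 : ∫⁻ v in base ⁻¹' K, ENNReal.ofReal (-f v) ∂μ = 0 := by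
    by_contra hne
    have hpos : 0 < ∫⁻ v in base ⁻¹' K, ENNReal.ofReal (-f v) ∂μ := pos_iff_ne_zero.mpr hne
    obtain ⟨q, hq0, hq1⟩ := ENNReal.lt_iff_exists_nnreal_btwn.mp hpos
    have hq : (0 : ℝ) < q := by
      have : (0 : NNReal) < q := by exact_mod_cast hq0
      exact_mod_cast this
    have := hle q hq
    rw [ENNReal.ofReal_coe_nnreal] at this
    exact absurd this (not_le.mpr hq1)
  rw [lintegral_eq_zero_iff hneg] at h0
  filter_upwards [h0] with v hv
  have : ENNReal.ofReal (-f v) = 0 := hv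
  rw [ENNReal.ofReal_eq_zero] at this
  linarith

/-! ### Monotonicity of the modes -/

lemma win_nonneg (hB : StmtBall) (hW : StmtWin) {V : Set ℍ} {ρ : ℤ → ℍ → ℂ} {μ : Measure G}
    (hmu : Inv μ) (hM : Mod V ρ μ) {K : Set ℍ} (hK : IsCompact K) (hKV : K ⊆ V) (m : ℕ) :
    ∀ᵐ v ∂(μ.restrict (base ⁻¹' K)), 0 ≤ HH ρ m v := by
  have := hmu.fin
  apply key hB (measurable_HH hM m)
  intro ε hε
  obtain ⟨r₁, hr₁, hr⟩ := hW V ρ μ hmu hM K hK hKV m ε hε
  have h1 : 0 < min (r₁ / 2) 1 := by positivity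
  have h2 : min (r₁ / 2) 1 < r₁ := (min_le_left _ _).trans_lt (by linarith)
  refine ⟨min (r₁ / 2) 1, h1, min_le_right _ _,
    fun v => ∫ v' in Wi (Metric.closedBall UpperHalfPlane.I (min (r₁ / 2) 1)) v, FF m v v' ∂μ,
    fun v => A_nonneg _ m v, ?_⟩
  exact hr _ h1 h2 _ Metric.isClosed_closedBall.measurableSet (Subset.refl _)

lemma win_mono (hB : StmtBall) (hW : StmtWin) {V : Set ℍ} {ρ : ℤ → ℍ → ℂ} {μ : Measure G}
    (hmu : Inv μ) (hM : Mod V ρ μ) {K : Set ℍ} (hK : IsCompact K) (hKV : K ⊆ V) (m : ℕ) :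
    ∀ᵐ v ∂(μ.restrict (base ⁻¹' K)), 0 ≤ HH ρ m v - HH ρ (m + 1) v := by
  have := hmu.fin
  apply key hB ((measurable_HH hM m).sub (measurable_HH hM (m + 1)))
  intro ε hε
  obtain ⟨r₁, hr₁, hr⟩ := hW V ρ μ hmu hM K hK hKV m (ε / 2) (by positivity)
  obtain ⟨r₂, hr₂, hr'⟩ := hW V ρ μ hmu hM K hK hKV (m + 1) (ε / 2) (by positivity)
  set r := min (min (r₁ / 2) (r₂ / 2)) 1 with hrdef
  have h0 : 0 < r := by positivity
  have h1 : r < r₁ := by
    have := (min_le_left (min (r₁ / 2) (r₂ / 2)) 1).trans (min_le_left _ _)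
    linarith
  have h2 : r < r₂ := by
    have := (min_le_left (min (r₁ / 2) (r₂ / 2)) 1).trans (min_le_right _ _)
    linarith
  set S := Metric.closedBall UpperHalfPlane.I r with hS
  have hSc : IsCompact S := isCompact_closedBall _ _
  have hSm : MeasurableSet S := Metric.isClosed_closedBall.measurableSet
  have e1 := hr r h0 h1 S hSm (Subset.refl _)
  have e2 := hr' r h0 h2 S hSm (Subset.refl _)
  refine ⟨r, h0, min_le_right _ _,
    fun v => (∫ v' in Wi S v, FF m v v' ∂μ) - ∫ v' in Wi S v, FF (m + 1) v v' ∂μ,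
    fun v => sub_nonneg.mpr (A_succ_le hSc m v), ?_⟩
  set w := (volume S).toReal with hw
  have hmeas : Measurable (fun v => ‖(∫ v' in Wi S v, FF m v v' ∂μ) - HH ρ m v * w‖ₑ) :=
    ((measurable_A hSm m).sub ((measurable_HH hM m).mul_const w)).enorm
  calc ∫⁻ v in base ⁻¹' K, ‖((∫ v' in Wi S v, FF m v v' ∂μ) -
        ∫ v' in Wi S v, FF (m + 1) v v' ∂μ) - (HH ρ m v - HH ρ (m + 1) v) * w‖ₑ ∂μ
      ≤ ∫⁻ v in base ⁻¹' K, (‖(∫ v' in Wi S v, FF m v v' ∂μ) - HH ρ m v * w‖ₑ +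
        ‖(∫ v' in Wi S v, FF (m + 1) v v' ∂μ) - HH ρ (m + 1) v * w‖ₑ) ∂μ := by
        apply lintegral_mono
        intro v
        have e : ((∫ v' in Wi S v, FF m v v' ∂μ) - ∫ v' in Wi S v, FF (m + 1) v v' ∂μ) -
            (HH ρ m v - HH ρ (m + 1) v) * w =
            ((∫ v' in Wi S v, FF m v v' ∂μ) - HH ρ m v * w) -
            ((∫ v' in Wi S v, FF (m + 1) v v' ∂μ) - HH ρ (m + 1) v * w) := by ring
        show ‖((∫ v' in Wi S v, FF m v v' ∂μ) - ∫ v' in Wi S v, FF (m + 1) v v' ∂μ) -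
            (HH ρ m v - HH ρ (m + 1) v) * w‖ₑ ≤ _
        rw [e]
        exact enorm_sub_le
    _ = (∫⁻ v in base ⁻¹' K, ‖(∫ v' in Wi S v, FF m v v' ∂μ) - HH ρ m v * w‖ₑ ∂μ) +
        ∫⁻ v in base ⁻¹' K, ‖(∫ v' in Wi S v, FF (m + 1) v v' ∂μ) -
          HH ρ (m + 1) v * w‖ₑ ∂μ := lintegral_add_left hmeas _
    _ ≤ ENNReal.ofReal (ε / 2 * r ^ 2) + ENNReal.ofReal (ε / 2 * r ^ 2) := add_le_add e1 e2
    _ = ENNReal.ofReal (ε * r ^ 2) := by
        rw [← ENNReal.ofReal_add (by positivity) (by positivity)]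
        congr 1
        ring

lemma ae_all_m (hB : StmtBall) (hW : StmtWin) {V : Set ℍ} {ρ : ℤ → ℍ → ℂ} {μ : Measure G}
    (hmu : Inv μ) (hM : Mod V ρ μ) : ∀ᵐ v ∂(μ.restrict (base ⁻¹' V)), ∀ m, 0 ≤ HH ρ m v ∧
    HH ρ (m + 1) v ≤ HH ρ m v ∧ HH ρ m v ≤ (ρ 0 (base v)).re := by
  have h1 : ∀ᵐ v ∂(μ.restrict (base ⁻¹' V)), ∀ m, 0 ≤ HH ρ m v := by
    rw [ae_all_iff]
    intro m
    exact ae_of_compacts hM.isOpen (fun K hK hKV => win_nonneg hB hW hmu hM hK hKV m)
  have h2 : ∀ᵐ v ∂(μ.restrict (base ⁻¹' V)), ∀ m, 0 ≤ HH ρ m v - HH ρ (m + 1) v := by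
    rw [ae_all_iff]
    intro m
    exact ae_of_compacts hM.isOpen (fun K hK hKV => win_mono hB hW hmu hM hK hKV m)
  filter_upwards [h1, h2] with v hv1 hv2 m
  refine ⟨hv1 m, by linarith [hv2 m], ?_⟩
  induction m with
  | zero => rw [HH_zero]
  | succ k ih => linarith [hv2 k]

/-! ### Integrability -/

lemma lint_base {V : Set ℍ} {ρ : ℤ → ℍ → ℂ} {μ : Measure G} (hE : Ext V ρ μ)
    (hM : Mod V ρ μ) {K : Set ℍ} (hK : IsCompact K) (hKV : K ⊆ V) {f : ℍ → ℝ≥0∞}
    (hf : Measurable f) :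
    ∫⁻ v in base ⁻¹' K, f (base v) ∂μ = ∫⁻ z in K, ENNReal.ofReal (ρ 0 z).re * f z := by
  have hKm := hK.measurableSet
  have hd : Measurable (fun z => ENNReal.ofReal (ρ 0 z).re) :=
    (Complex.measurable_re.comp (hM.meas 0)).ennreal_ofReal
  have h1 : (μ.map base).restrict K =
      (volume.withDensity (fun z => ENNReal.ofReal (ρ 0 z).re)).restrict K := by
    ext S hS
    rw [Measure.restrict_apply hS, Measure.restrict_apply hS,
      Measure.map_apply measurable_base (hS.inter hKm), withDensity_apply _ (hS.inter hKm),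
      hE.proj _ (hS.inter hKm) (inter_subset_right.trans hKV)]
  calc ∫⁻ v in base ⁻¹' K, f (base v) ∂μ = ∫⁻ z in K, f z ∂(μ.map base) := by
        rw [setLIntegral_map hKm hf measurable_base]
    _ = ∫⁻ z in K, f z ∂(volume.withDensity (fun z => ENNReal.ofReal (ρ 0 z).re)) := by
        rw [h1]
    _ = ∫⁻ z in K, ENNReal.ofReal (ρ 0 z).re * f z := by
        rw [restrict_withDensity hKm, lintegral_withDensity_eq_lintegral_mul _ hd hf]
        rfl

lemma lint_lt_top {V : Set ℍ} {ρ : ℤ → ℍ → ℂ} {μ : Measure G} (hE : Ext V ρ μ)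
    (hM : Mod V ρ μ) {K : Set ℍ} (hK : IsCompact K) (hKV : K ⊆ V) :
    ∫⁻ v in base ⁻¹' K, ENNReal.ofReal (ρ 0 (base v)).re ∂μ < ⊤ := by
  have hd : Measurable (fun z => ENNReal.ofReal (ρ 0 z).re) :=
    (Complex.measurable_re.comp (hM.meas 0)).ennreal_ofReal
  rw [lint_base hE hM hK hKV (f := fun z => ENNReal.ofReal (ρ 0 z).re) hd]
  have h2 := (hM.loc 0 K hK hKV).2
  have h3 := lintegral_rpow_enorm_lt_top_of_eLpNorm_lt_top (by norm_num : (2 : ℝ≥0∞) ≠ 0)
    (by norm_num : (2 : ℝ≥0∞) ≠ ⊤) h2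
  refine lt_of_le_of_lt (lintegral_mono ?_) h3
  intro z
  have h4 : ENNReal.ofReal (ρ 0 z).re ≤ ‖ρ 0 z‖ₑ := by
    rw [← ofReal_norm]
    exact ENNReal.ofReal_le_ofReal (Complex.re_le_norm _)
  calc ENNReal.ofReal (ρ 0 z).re * ENNReal.ofReal (ρ 0 z).re ≤ ‖ρ 0 z‖ₑ * ‖ρ 0 z‖ₑ :=
        mul_le_mul' h4 h4
    _ = ‖ρ 0 z‖ₑ ^ ((2 : ℝ≥0∞).toReal) := by
        rw [ENNReal.toReal_ofNat]
        rw [show (2 : ℝ) = ((2 : ℕ) : ℝ) by norm_num, ENNReal.rpow_natCast, sq]

end HHmM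

open HHmM in
theorem stmtHH (hB : StmtBall) (hE : StmtExt) (hW : StmtWin) : StmtHH := by
  intro V ρ μ hmu hM
  have := hmu.fin
  have hall := ae_all_m hB hW hmu hM
  have hEx := hE V ρ μ hmu hM
  have h4 : ∀ᵐ v ∂(μ.restrict (base ⁻¹' V)), 0 ≤ aa ρ v ∧ aa ρ v ≤ (ρ 0 (base v)).re ∧
      Tendsto (fun m => HH ρ m v) atTop (𝓝 (2 * aa ρ v)) := by
    filter_upwards [hall] with v hv
    have hanti : Antitone (fun m => HH ρ m v) := antitone_nat_of_succ_le (fun m => (hv m).2.1)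
    have hbdd : BddBelow (range (fun m => HH ρ m v)) := by
      refine ⟨0, ?_⟩
      rintro x ⟨m, rfl⟩
      exact (hv m).1
    have hlim := tendsto_atTop_ciInf hanti hbdd
    have h2 : 2 * aa ρ v = ⨅ m, HH ρ m v := by unfold aa; ring
    have h0 : 0 ≤ ⨅ m, HH ρ m v := le_ciInf (fun m => (hv m).1)
    have h1 : ⨅ m, HH ρ m v ≤ HH ρ 0 v := ciInf_le hbdd 0
    have h3 := (hv 0).2.2
    refine ⟨by linarith, by linarith, ?_⟩
    rw [h2]
    exact hlim
  refine ⟨fun m => measurable_HH hM m, measurable_aa hM, ?_, h4, ?_⟩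
  · intro m
    filter_upwards [hall] with v hv
    exact hv m
  · intro K hK hKV
    have hfin := lint_lt_top hEx hM hK hKV
    refine ⟨hfin, ?_⟩
    have hres : μ.restrict (base ⁻¹' K) ≤ μ.restrict (base ⁻¹' V) :=
      Measure.restrict_mono (preimage_mono hKV) le_rfl
    have hallK := ae_mono hres hall
    have h4K := ae_mono hres h4
    have hlim : Tendsto (fun m => ∫⁻ v in base ⁻¹' K, ‖HH ρ m v - 2 * aa ρ v‖ₑ ∂μ) atTop
        (𝓝 (∫⁻ _ in base ⁻¹' K, 0 ∂μ)) := by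
      apply tendsto_lintegral_of_dominated_convergence
        (fun v => ENNReal.ofReal (ρ 0 (base v)).re)
      · intro m
        exact ((measurable_HH hM m).sub ((measurable_aa hM).const_mul 2)).enorm
      · intro m
        filter_upwards [hallK, h4K] with v hv1 hv2
        rw [Real.enorm_eq_ofReal_abs]
        apply ENNReal.ofReal_le_ofReal
        have hanti : Antitone (fun m => HH ρ m v) :=
          antitone_nat_of_succ_le (fun m => (hv1 m).2.1)
        have h5 : 2 * aa ρ v ≤ HH ρ m v := hanti.le_of_tendsto hv2.2.2 m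
        rw [abs_of_nonneg (by linarith)]
        linarith [(hv1 m).2.2, hv2.1]
      · exact hfin.ne
      · filter_upwards [h4K] with v hv
        have h6 : Tendsto (fun m => HH ρ m v - 2 * aa ρ v) atTop (𝓝 0) := by
          have := hv.2.2.sub_const (2 * aa ρ v)
          rwa [sub_self] at this
        have h7 := (continuous_enorm.tendsto (0 : ℝ)).comp h6
        rw [enorm_zero] at h7
        exact h7
    rw [lintegral_zero] at hlim
    exact hlim

end

end Pool.Agent.A54.Dyn
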