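import Pool.Agent.Lib.MP_a54f13_nt.Dyn.Spec

/-!
The mass of strips: upper bound (`StmtL2up`).
-/

set_option autoImplicit false

namespace Pool.Agent.A54.Dyn

open MeasureTheory Filter Topology Set
open scoped ComplexConjugate UpperHalfPlane MatrixGroups ENNReal ContDiff

noncomputable section

namespace L2upM

lemma dist_base_inv (v g : G) : dist (base g) (base v) = dist (base (v⁻¹ * g)) UpperHalfPlane.I := by
  have h1 : base g = v • base (v⁻¹ * g) := by
    rw [← base_mul, mul_inv_cancel_left]
  have h2 : base v = v • UpperHalfPlane.I := rfl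
  rw [h1, h2, dist_smul]

lemma measurableSet_Sc (L : ℝ) : MeasurableSet (Sc L) := by
  unfold Sc
  refine MeasurableSet.inter ?_ ?_
  · exact measurableSet_le (measurable_fst.abs) measurable_const
  · exact measurableSet_le (measurable_snd.abs) measurable_const

lemma measurableSet_strip (r : ℝ) : MeasurableSet {p : ℝ × ℝ | |p.1 + p.2| < r} :=
  measurableSet_lt ((measurable_fst.add measurable_snd).abs) measurable_const

lemma strip_le {μ : Measure G} (hμ : Inv μ) (hP : StmtProd) {C c : ℝ}
    (hG : ∀ (g : G) (ρ : ℝ), g ∈ dom → |cX g| ≤ 1 / 8 →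
      |cY g| ≤ 1 / 8 → ρ ≤ c → |cX g + cY g| ≤ ρ → |cU g| ≤ ρ →
        dist (base g) UpperHalfPlane.I ≤ C * ρ) (v : G) {r : ℝ} (hrc : r ≤ c) :
    tau μ v ({p | |p.1 + p.2| < r} ∩ Sc (1 / 8)) * ENNReal.ofReal (2 * r) ≤
      μ (base ⁻¹' Metric.closedBall (base v) (C * r)) := by
  set R : Set (ℝ × ℝ) := {p | |p.1 + p.2| < r} ∩ Sc (1 / 8) with hR
  have hRm : MeasurableSet R := (measurableSet_strip r).inter (measurableSet_Sc _)
  have hPS := hP μ hμ v (R ×ˢ Ioo (-r) r) (hRm.prod measurableSet_Ioo) (by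
    rintro ⟨p, u⟩ hp
    have h1 : p ∈ Sc (1 / 8) := hp.1.2
    exact ⟨h1.1.trans (by norm_num), h1.2.trans (by norm_num)⟩)
  rw [Measure.prod_prod, Real.volume_Ioo, show r - -r = 2 * r by ring] at hPS
  rw [← hPS]
  refine measure_mono ?_
  rintro g ⟨hd, hg⟩
  have h1 : |cX (v⁻¹ * g) + cY (v⁻¹ * g)| < r := hg.1.1
  have h2 : cP (v⁻¹ * g) ∈ Sc (1 / 8) := hg.1.2
  have h3 : cU (v⁻¹ * g) ∈ Ioo (-r) r := hg.2
  rw [mem_preimage, Metric.mem_closedBall, dist_base_inv]
  exact hG _ r hd h2.1 h2.2 hrc h1.le (abs_le.2 ⟨h3.1.le, h3.2.le⟩)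

lemma lint_base {V : Set ℍ} {ρ : ℤ → ℍ → ℂ} {μ : Measure G} (hMod : Mod V ρ μ)
    (hExt : Ext V ρ μ) {K : Set ℍ} (hK : MeasurableSet K) (hKV : K ⊆ V) {F : ℍ → ℝ≥0∞}
    (hF : Measurable F) :
    ∫⁻ v in base ⁻¹' K, F (base v) ∂μ = ∫⁻ z in K, ENNReal.ofReal (ρ 0 z).re * F z := by
  have hf : Measurable (fun z : ℍ => ENNReal.ofReal (ρ 0 z).re) :=
    (Complex.measurable_re.comp (hMod.meas 0)).ennreal_ofReal
  have h1 : (μ.map base).restrict K =
      (volume.withDensity (fun z : ℍ => ENNReal.ofReal (ρ 0 z).re)).restrict K := by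
    ext s hs
    rw [Measure.restrict_apply hs, Measure.restrict_apply hs,
      Measure.map_apply measurable_base (hs.inter hK), withDensity_apply _ (hs.inter hK)]
    exact hExt.proj _ (hs.inter hK) (inter_subset_right.trans hKV)
  rw [← setLIntegral_map hK hF measurable_base, h1,
    setLIntegral_withDensity_eq_setLIntegral_mul _ hf hF hK]
  rfl

/-- the double integral -/
lemma double_le {CB : ℝ} (hCB : 0 < CB) (hB : ∀ (z : ℍ) (r : ℝ), 0 < r → r ≤ 1 →
    volume (Metric.closedBall z r) ≤ ENNReal.ofReal (CB * r ^ 2)) {f : ℍ → ℝ≥0∞}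
    (hf : Measurable f) {K : Set ℍ} (hK : IsCompact K) {δ R : ℝ} (hR : 0 < R) (hR1 : R ≤ 1)
    (hRδ : R ≤ δ) :
    ∫⁻ z in K, f z * ∫⁻ z' in Metric.closedBall z R, f z' ≤
      ENNReal.ofReal (2 * CB * R ^ 2) * ∫⁻ z in Metric.cthickening δ K, f z ^ 2 := by
  have hKm : MeasurableSet K := hK.measurableSet
  have hTm : MeasurableSet (Metric.cthickening δ K) := Metric.isClosed_cthickening.measurableSet
  have hKT : K ⊆ Metric.cthickening δ K := Metric.self_subset_cthickening K
  have hdist : MeasurableSet {q : ℍ × ℍ | dist q.2 q.1 ≤ R} :=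
    measurableSet_le (measurable_snd.dist measurable_fst) measurable_const
  -- pointwise
  have h1 : ∀ z ∈ K, f z * ∫⁻ z' in Metric.closedBall z R, f z' ≤
      ENNReal.ofReal (CB * R ^ 2) * f z ^ 2 +
        ∫⁻ z' in Metric.cthickening δ K, {q : ℍ × ℍ | dist q.2 q.1 ≤ R}.indicator
          (fun q => f q.2 ^ 2) (z, z') := by
    intro z hz
    have hsub : Metric.closedBall z R ⊆ Metric.cthickening δ K :=
      (Metric.closedBall_subset_closedBall hRδ).trans (Metric.closedBall_subset_cthickening hz δ)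
    calc f z * ∫⁻ z' in Metric.closedBall z R, f z'
        = ∫⁻ z' in Metric.closedBall z R, f z * f z' := (lintegral_const_mul _ hf).symm
      _ ≤ ∫⁻ z' in Metric.closedBall z R, (f z ^ 2 + f z' ^ 2) := by
          refine lintegral_mono fun z' => ?_
          rcases le_total (f z) (f z') with h | h
          · calc f z * f z' ≤ f z' * f z' := mul_le_mul_left h _
              _ = f z' ^ 2 := (sq _).symm
              _ ≤ f z ^ 2 + f z' ^ 2 := le_add_self
          · calc f z * f z' ≤ f z * f z := mul_le_mul_right h _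
              _ = f z ^ 2 := (sq _).symm
              _ ≤ f z ^ 2 + f z' ^ 2 := le_self_add
      _ = f z ^ 2 * volume (Metric.closedBall z R) + ∫⁻ z' in Metric.closedBall z R, f z' ^ 2 := by
          rw [lintegral_add_left measurable_const, setLIntegral_const]
      _ ≤ _ := by
          refine add_le_add ?_ ?_
          · rw [mul_comm]
            exact mul_le_mul_left (hB z R hR hR1) _
          · have h2 : ∫⁻ z' in Metric.cthickening δ K, {q : ℍ × ℍ | dist q.2 q.1 ≤ R}.indicator
                (fun q => f q.2 ^ 2) (z, z') =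
              ∫⁻ z' in Metric.cthickening δ K, (Metric.closedBall z R).indicator
                (fun z' => f z' ^ 2) z' := by
              refine lintegral_congr fun z' => ?_
              by_cases h : dist z' z ≤ R
              · rw [indicator_of_mem (by exact h), indicator_of_mem (by exact h)]
              · rw [indicator_of_notMem (by exact h), indicator_of_notMem (by exact h)]
            rw [h2, setLIntegral_indicator measurableSet_closedBall, inter_eq_left.2 hsub]
  have hind : Measurable ({q : ℍ × ℍ | dist q.2 q.1 ≤ R}.indicator (fun q => f q.2 ^ 2)) :=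
    ((hf.comp measurable_snd).pow_const 2).indicator hdist
  calc ∫⁻ z in K, f z * ∫⁻ z' in Metric.closedBall z R, f z'
      ≤ ∫⁻ z in K, (ENNReal.ofReal (CB * R ^ 2) * f z ^ 2 +
        ∫⁻ z' in Metric.cthickening δ K, {q : ℍ × ℍ | dist q.2 q.1 ≤ R}.indicator
          (fun q => f q.2 ^ 2) (z, z')) := setLIntegral_mono' hKm h1
    _ = ENNReal.ofReal (CB * R ^ 2) * (∫⁻ z in K, f z ^ 2) +
        ∫⁻ z in K, ∫⁻ z' in Metric.cthickening δ K, {q : ℍ × ℍ | dist q.2 q.1 ≤ R}.indicator
          (fun q => f q.2 ^ 2) (z, z') := by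
        rw [lintegral_add_left ((hf.pow_const 2).const_mul _),
          lintegral_const_mul _ (hf.pow_const 2)]
    _ ≤ ENNReal.ofReal (CB * R ^ 2) * (∫⁻ z in Metric.cthickening δ K, f z ^ 2) +
        ENNReal.ofReal (CB * R ^ 2) * (∫⁻ z in Metric.cthickening δ K, f z ^ 2) := by
        refine add_le_add (mul_le_mul_right (lintegral_mono_set hKT) _) ?_
        rw [lintegral_lintegral_swap (f := fun z z' => {q : ℍ × ℍ | dist q.2 q.1 ≤ R}.indicator
          (fun q => f q.2 ^ 2) (z, z')) (by exact hind.aemeasurable),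
          ← lintegral_const_mul _ (hf.pow_const 2)]
        refine lintegral_mono fun z' => ?_
        calc ∫⁻ z in K, {q : ℍ × ℍ | dist q.2 q.1 ≤ R}.indicator (fun q => f q.2 ^ 2) (z, z')
            ≤ ∫⁻ z, (Metric.closedBall z' R).indicator (fun _ => f z' ^ 2) z := by
              refine (setLIntegral_le_lintegral _ _).trans (lintegral_mono fun z => ?_)
              by_cases h : dist z' z ≤ R
              · rw [indicator_of_mem (by exact h), indicator_of_mem (by
                  rw [Metric.mem_closedBall, dist_comm]; exact h)]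
              · rw [indicator_of_notMem (by exact h)]
                exact bot_le
          _ = f z' ^ 2 * volume (Metric.closedBall z' R) := by
              rw [lintegral_indicator measurableSet_closedBall, setLIntegral_const]
          _ ≤ ENNReal.ofReal (CB * R ^ 2) * f z' ^ 2 := by
              rw [mul_comm]
              exact mul_le_mul_left (hB z' R hR hR1) _
    _ = _ := by
        rw [← add_mul, ← ENNReal.ofReal_add (by positivity) (by positivity)]
        congr 2
        ring

end L2upM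

open L2upM in
theorem stmtL2up (hB : StmtBall) (hE : StmtExt) (hP : StmtProd) (hG : StmtGeo1) : StmtL2up := by
  intro V ρ μ hμ hMod K hK hKV
  obtain ⟨CB, hCB, hB⟩ := hB
  obtain ⟨CG, c, hCG, hc, hG⟩ := hG
  have hExt := hE V ρ μ hμ hMod
  obtain ⟨δ, hδ, hδV⟩ := hK.exists_cthickening_subset_open hMod.isOpen hKV
  have hT : IsCompact (Metric.cthickening δ K) := hK.cthickening
  set f : ℍ → ℝ≥0∞ := fun z => ENNReal.ofReal (ρ 0 z).re with hf
  have hfm : Measurable f := (Complex.measurable_re.comp (hMod.meas 0)).ennreal_ofReal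
  -- finiteness
  have hfin : ∫⁻ z in Metric.cthickening δ K, f z ^ 2 < ⊤ := by
    have h1 := (hMod.loc 0 _ hT hδV).eLpNorm_lt_top
    have h2 := lintegral_rpow_enorm_lt_top_of_eLpNorm_lt_top (by norm_num) (by norm_num) h1
    refine lt_of_le_of_lt (lintegral_mono fun z => ?_) h2
    have h3 : f z ≤ ‖ρ 0 z‖ₑ := by
      rw [hf, ← ofReal_norm]
      exact ENNReal.ofReal_le_ofReal (Complex.re_le_norm _)
    calc f z ^ 2 ≤ ‖ρ 0 z‖ₑ ^ 2 := pow_le_pow_left₀ bot_le h3 2
      _ = ‖ρ 0 z‖ₑ ^ ((2 : ℝ≥0∞).toReal) := by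
          rw [ENNReal.toReal_ofNat, ← ENNReal.rpow_natCast]
          norm_num
  set I : ℝ := (∫⁻ z in Metric.cthickening δ K, f z ^ 2).toReal with hI
  have hI0 : 0 ≤ I := ENNReal.toReal_nonneg
  refine ⟨CB * CG ^ 2 * I + 1, min c (min (δ / CG) (1 / CG)), by positivity, by positivity, ?_⟩
  intro r hr hr1
  have hrc : r ≤ c := hr1.le.trans (min_le_left _ _)
  have hrδ : CG * r ≤ δ := by
    have := hr1.le.trans ((min_le_right _ _).trans (min_le_left _ _))
    rw [le_div_iff₀ hCG] at this
    linarith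
  have hr1' : CG * r ≤ 1 := by
    have := hr1.le.trans ((min_le_right _ _).trans (min_le_right _ _))
    rw [le_div_iff₀ hCG] at this
    linarith
  have hR : 0 < CG * r := by positivity
  set J : ℝ≥0∞ := ∫⁻ v in base ⁻¹' K, tau μ v ({p | |p.1 + p.2| < r} ∩ Sc (1 / 8)) ∂μ with hJ
  have h2r : ENNReal.ofReal (2 * r) ≠ 0 := by
    rw [Ne, ENNReal.ofReal_eq_zero, not_le]
    positivity
  -- measurability of the mass of balls
  have hGm : Measurable (fun z : ℍ => ∫⁻ z' in Metric.closedBall z (CG * r), f z') := by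
    have hdist : MeasurableSet {q : ℍ × ℍ | dist q.2 q.1 ≤ CG * r} :=
      measurableSet_le (measurable_snd.dist measurable_fst) measurable_const
    have hind : Measurable ({q : ℍ × ℍ | dist q.2 q.1 ≤ CG * r}.indicator (fun q => f q.2)) :=
      (hfm.comp measurable_snd).indicator hdist
    have h1 : (fun z : ℍ => ∫⁻ z' in Metric.closedBall z (CG * r), f z') =
        fun z => ∫⁻ z', {q : ℍ × ℍ | dist q.2 q.1 ≤ CG * r}.indicator (fun q => f q.2) (z, z') := by
      funext z
      rw [← lintegral_indicator measurableSet_closedBall]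
      refine lintegral_congr fun z' => ?_
      by_cases h : dist z' z ≤ CG * r
      · rw [indicator_of_mem (by exact h), indicator_of_mem (by exact h)]
      · rw [indicator_of_notMem (by exact h), indicator_of_notMem (by exact h)]
    rw [h1]
    exact hind.lintegral_prod_right'
  have hmain : J * ENNReal.ofReal (2 * r) ≤ ENNReal.ofReal (2 * CB * (CG * r) ^ 2) *
      ∫⁻ z in Metric.cthickening δ K, f z ^ 2 := by
    rw [hJ, ← lintegral_mul_const' _ _ ENNReal.ofReal_ne_top]
    calc ∫⁻ v in base ⁻¹' K, tau μ v ({p | |p.1 + p.2| < r} ∩ Sc (1 / 8)) *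
          ENNReal.ofReal (2 * r) ∂μ
        ≤ ∫⁻ v in base ⁻¹' K, (∫⁻ z' in Metric.closedBall (base v) (CG * r), f z') ∂μ := by
          refine setLIntegral_mono' (measurable_base hK.measurableSet) ?_
          intro v hv
          refine (strip_le hμ hP hG v hrc).trans (le_of_eq ?_)
          refine hExt.proj _ measurableSet_closedBall ?_
          exact (Metric.closedBall_subset_closedBall hrδ).trans
            ((Metric.closedBall_subset_cthickening (show base v ∈ K from hv) δ).trans hδV)
      _ = ∫⁻ z in K, f z * ∫⁻ z' in Metric.closedBall z (CG * r), f z' :=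
          lint_base hMod hExt hK.measurableSet hKV hGm
      _ ≤ _ := double_le hCB (fun z r h1 h2 => (hB z r h1 h2).1) hfm hK hR hr1' hrδ
  have hI' : ∫⁻ z in Metric.cthickening δ K, f z ^ 2 = ENNReal.ofReal I := by
    rw [hI, ENNReal.ofReal_toReal hfin.ne]
  rw [hI', ← ENNReal.ofReal_mul (by positivity)] at hmain
  have hfinal : J * ENNReal.ofReal (2 * r) ≤ ENNReal.ofReal ((CB * CG ^ 2 * I + 1) * r) *
      ENNReal.ofReal (2 * r) := by
    refine hmain.trans ?_
    rw [← ENNReal.ofReal_mul (by positivity)]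
    refine ENNReal.ofReal_le_ofReal ?_
    nlinarith [mul_pos hr hr]
  exact (ENNReal.mul_le_mul_iff_left h2r ENNReal.ofReal_ne_top).1 hfinal

end

end Pool.Agent.A54.Dyn
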