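import Pool.Agent.Lib.MP_a54f13_nt.Dyn.Spec1

/-!
Abstract construction of the limiting measure on `SL(2, ℝ)` (`StmtLift`): Fejér type averages
`1/N |∑_{k < N} ζ^k s_{i,k}|²`, an iterated ultrafilter limit and the Riesz–Markov–Kakutani theorem.
-/

set_option autoImplicit false

namespace Pool.Agent.A54.Dyn.LiftM

open MeasureTheory Filter Topology Set
open scoped ComplexConjugate UpperHalfPlane MatrixGroups ENNReal ContDiff CompactlySupported
open Pool.Agent.A54 Pool.Agent.A54.Half Pool.Agent.A54.Dyn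

noncomputable section

/-! ### A general existence theorem -/

section general

variable {ι E : Type*}

lemma exists_lim_real (U : Ultrafilter ι) (f : ι → ℝ) (B : ℝ) (h : ∀ᶠ a in (U : Filter ι), |f a| ≤ B) :
    ∃ L, Tendsto f U (𝓝 L) := by
  have hc : IsCompact (Icc (-B) B) := isCompact_Icc
  have h' : Icc (-B) B ∈ (U.map f : Filter ℝ) := by
    rw [Ultrafilter.coe_map, Filter.mem_map]
    filter_upwards [h] with a ha
    exact abs_le.mp ha
  obtain ⟨L, -, hL⟩ := hc.ultrafilter_le_nhds' (U.map f) h'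
  exact ⟨L, hL⟩

lemma exists_lim_complex (U : Ultrafilter ι) (f : ι → ℂ) (B : ℝ)
    (h : ∀ᶠ a in (U : Filter ι), ‖f a‖ ≤ B) : ∃ L, Tendsto f U (𝓝 L) := by
  have hc : IsCompact (Metric.closedBall (0 : ℂ) B) := isCompact_closedBall _ _
  have h' : Metric.closedBall (0 : ℂ) B ∈ (U.map f : Filter ℂ) := by
    rw [Ultrafilter.coe_map, Filter.mem_map]
    filter_upwards [h] with a ha
    simpa using ha
  obtain ⟨L, -, hL⟩ := hc.ultrafilter_le_nhds' (U.map f) h'
  exact ⟨L, hL⟩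

/-- limits of bounded families of positive functionals are measures -/
lemma exists_measure (U : Ultrafilter ι) (Φ : ι → (C_c(G, ℝ) →ₗ[ℝ] ℝ))
    (hpos : ∀ a F, 0 ≤ F → 0 ≤ Φ a F) (hbd : ∀ F, ∃ B, ∀ᶠ a in (U : Filter ι), |Φ a F| ≤ B) :
    ∃ μ : Measure G, IsFiniteMeasureOnCompacts μ ∧
      ∀ F : C_c(G, ℝ), Tendsto (fun a => Φ a F) U (𝓝 (∫ g, F g ∂μ)) := by
  have hex : ∀ F, ∃ L, Tendsto (fun a => Φ a F) U (𝓝 L) := fun F => by
    obtain ⟨B, hB⟩ := hbd F
    exact exists_lim_real U _ B hB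
  choose L hL using hex
  let Λ0 : C_c(G, ℝ) →ₗ[ℝ] ℝ :=
    { toFun := L
      map_add' := fun F F' => by
        refine tendsto_nhds_unique (hL (F + F')) ?_
        have := (hL F).add (hL F')
        refine this.congr fun a => ?_
        rw [map_add]
      map_smul' := fun c F => by
        refine tendsto_nhds_unique (hL (c • F)) ?_
        have := (hL F).const_mul c
        refine this.congr fun a => ?_
        rw [map_smul]; rfl }
  have hΛ0 : ∀ F, 0 ≤ F → 0 ≤ Λ0 F := fun F hF =>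
    ge_of_tendsto (hL F) (Eventually.of_forall fun a => hpos a F hF)
  let Λ : C_c(G, ℝ) →ₚ[ℝ] ℝ := PositiveLinearMap.mk₀ Λ0 hΛ0
  refine ⟨RealRMK.rieszMeasure Λ, inferInstance, fun F => ?_⟩
  rw [RealRMK.integral_rieszMeasure Λ F]
  exact hL F

end general

/-! ### The iterated ultrafilter -/

/-- first `i → ∞`, then `N → ∞` -/
def UU : Ultrafilter (ℕ × ℕ) :=
  (hyperfilter ℕ).bind (fun N => (hyperfilter ℕ).map (fun i => (N, i)))

lemma eventually_UU (p : ℕ × ℕ → Prop) : (∀ᶠ a in (UU : Filter (ℕ × ℕ)), p a) ↔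
    ∀ᶠ N in (hyperfilter ℕ : Filter ℕ), ∀ᶠ i in (hyperfilter ℕ : Filter ℕ), p (N, i) := by
  have : (UU : Filter (ℕ × ℕ)) = Filter.bind (hyperfilter ℕ : Filter ℕ)
      (fun N => (((hyperfilter ℕ).map (fun i => (N, i)) : Ultrafilter (ℕ × ℕ)) :
        Filter (ℕ × ℕ))) := rfl
  rw [this, Filter.eventually_bind]
  rfl

lemma tendsto_UU {f : ℕ × ℕ → ℂ} {L : ℕ → ℂ} {L' : ℂ}
    (h : ∀ N, Tendsto (fun i => f (N, i)) (hyperfilter ℕ : Filter ℕ) (𝓝 (L N)))
    (h' : Tendsto L atTop (𝓝 L')) : Tendsto f (UU : Filter (ℕ × ℕ)) (𝓝 L') := by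
  rw [Metric.tendsto_nhds]
  intro ε hε
  rw [eventually_UU]
  have h1 := (Metric.tendsto_nhds.mp (h'.mono_left Nat.hyperfilter_le_atTop)) (ε / 2) (half_pos hε)
  filter_upwards [h1] with N hN
  have h2 := (Metric.tendsto_nhds.mp (h N)) (ε / 2) (half_pos hε)
  filter_upwards [h2] with i hi
  calc dist (f (N, i)) L' ≤ dist (f (N, i)) (L N) + dist (L N) L' := dist_triangle _ _ _
    _ < ε := by linarith

/-! ### The section `(z, x) ↦ z.toSL2R * rot x` -/

/-- the circle -/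
abbrev XC := UnitAddCircle

/-- the product of the half-plane and the circle -/
abbrev XX := ℍ × XC

/-- the point of the unit circle -/
def cc (x : XC) : ℂ := (AddCircle.toCircle x : ℂ)

lemma cc_normSq (x : XC) : (cc x).re ^ 2 + (cc x).im ^ 2 = 1 := by
  have h : ‖cc x‖ = 1 := Circle.norm_coe _
  have h2 : Complex.normSq (cc x) = 1 := by rw [Complex.normSq_eq_norm_sq, h]; norm_num
  rw [Complex.normSq_apply] at h2
  linarith [_root_.sq (cc x).re, _root_.sq (cc x).im]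

lemma cc_ne (x : XC) : cc x ≠ 0 := Circle.coe_ne_zero _

lemma cc_conj (x : XC) : conj (cc x) = (cc x)⁻¹ := by
  rw [Complex.inv_def, Complex.normSq_apply, ← _root_.sq, ← _root_.sq, cc_normSq]; simp

lemma continuous_cc : Continuous cc :=
  continuous_subtype_val.comp AddCircle.continuous_toCircle

lemma fourier_cc (n : ℤ) (x : XC) : fourier n x = cc x ^ n := by
  rw [fourier_apply, AddCircle.toCircle_zsmul, Circle.coe_zpow]; rfl

/-- rotations -/
def rot (x : XC) : G := mk4 (cc x).re (cc x).im (-(cc x).im) (cc x).re (by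
  have := cc_normSq x; nlinarith)

lemma continuous_rot : Continuous rot := by
  apply continuous_induced_rng.mpr
  apply continuous_matrix
  intro i j
  fin_cases i <;> fin_cases j
  · exact Complex.continuous_re.comp continuous_cc
  · exact Complex.continuous_im.comp continuous_cc
  · exact (Complex.continuous_im.comp continuous_cc).neg
  · exact Complex.continuous_re.comp continuous_cc

lemma base_rot (x : XC) : base (rot x) = UpperHalfPlane.I := by
  apply UpperHalfPlane.ext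
  rw [base_coe]
  have hd := denom_ne (rot x) UpperHalfPlane.I
  have h2 : ((rot x) 1 0 : ℂ) * Complex.I + (rot x) 1 1 ≠ 0 := hd
  rw [div_eq_iff h2]
  change ((cc x).re : ℂ) * Complex.I + ((cc x).im : ℂ) = Complex.I *
    (((-(cc x).im : ℝ) : ℂ) * Complex.I + ((cc x).re : ℂ))
  push_cast
  linear_combination ((cc x).im : ℂ) * Complex.I_sq

/-- the section -/
def Sct (p : XX) : G := p.1.toSL2R * rot p.2

lemma continuous_Sct : Continuous Sct :=
  (UpperHalfPlane.continuous_toSL2R.comp continuous_fst).mul (continuous_rot.comp continuous_snd)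

lemma base_Sct (p : XX) : base (Sct p) = p.1 := by
  unfold Sct
  rw [base_mul, base_rot, UpperHalfPlane.toSL2R_smul_I]

lemma ze_Sct (p : XX) : ze (Sct p) = cc p.2 ^ 2 := by
  unfold Sct
  rw [ze_mul, base_rot]
  have h10 : p.1.toSL2R 1 0 = 0 := by rw [UpperHalfPlane.coe_toSL2R]; rfl
  have h11 : p.1.toSL2R 1 1 ≠ 0 := by
    have := det_eq p.1.toSL2R
    rw [h10] at this
    intro h
    rw [h] at this
    simp at this
  have h11' : (p.1.toSL2R 1 1 : ℂ) ≠ 0 := by exact_mod_cast h11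
  rw [h10]
  simp only [Complex.ofReal_zero, zero_mul, zero_add]
  rw [div_self h11', mul_one]
  unfold ze
  change (((cc p.2).re : ℂ) - Complex.I * ((-(cc p.2).im : ℝ) : ℂ)) /
    (((cc p.2).re : ℂ) + Complex.I * ((-(cc p.2).im : ℝ) : ℂ)) = cc p.2 ^ 2
  have e1 : ((cc p.2).re : ℂ) - Complex.I * ((-(cc p.2).im : ℝ) : ℂ) = cc p.2 := by
    conv_rhs => rw [← Complex.re_add_im (cc p.2)]
    push_cast; ring
  have e2 : ((cc p.2).re : ℂ) + Complex.I * ((-(cc p.2).im : ℝ) : ℂ) = conj (cc p.2) := by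
    apply Complex.ext <;> simp
  rw [e1, e2, cc_conj]
  field_simp [cc_ne p.2]

/-! ### Integrals over the circle -/

lemma integral_fourier (n : ℤ) : ∫ x : XC, fourier n x ∂AddCircle.haarAddCircle =
    if n = 0 then 1 else 0 := by
  have h := congrFun (fourierCoeff_fourier (T := 1) n) 0
  unfold fourierCoeff at h
  simp only [neg_zero, fourier_zero, one_smul] at h
  rw [h, Pi.single_apply]
  simp only [eq_comm]

/-! ### Weights -/

/-- the measure on the product -/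
def m0 : Measure XX := (volume : Measure ℍ).prod (AddCircle.haarAddCircle : Measure XC)

instance : IsFiniteMeasureOnCompacts m0 := by unfold m0; infer_instance

/-- sums -/
def SS (s : ℕ → ℍ → ℂ) (N : ℕ) (p : XX) : ℂ := ∑ k ∈ Finset.range N, fourier (2 * (k : ℤ)) p.2 * s k p.1

lemma continuous_SS (s : ℕ → ℍ → ℂ) (hs : ∀ k, Continuous (s k)) (N : ℕ) :
    Continuous (SS s N) := by
  unfold SS
  apply continuous_finsetSum
  intro k _
  exact ((fourier (2 * (k : ℤ))).continuous.comp continuous_snd).mul ((hs k).comp continuous_fst)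

/-- the compact set -/
lemma isCompact_Sct {K : Set G} (hK : IsCompact K) : IsCompact (Sct ⁻¹' K) := by
  have h1 : IsCompact ((base '' K) ×ˢ (univ : Set XC)) :=
    (hK.image continuous_base).prod isCompact_univ
  refine h1.of_isClosed_subset (hK.isClosed.preimage continuous_Sct) ?_
  intro p hp
  exact ⟨⟨Sct p, hp, base_Sct p⟩, mem_univ _⟩

lemma hcs_Sct {E : Type*} [TopologicalSpace E] [Zero E] {F : G → E} (hF : HasCompactSupport F) :
    HasCompactSupport (fun p => F (Sct p)) := by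
  refine HasCompactSupport.intro (isCompact_Sct hF) ?_
  intro p hp
  exact image_eq_zero_of_notMem_tsupport hp

lemma integrable_FW (s : ℕ → ℍ → ℂ) (hs : ∀ k, Continuous (s k)) (N : ℕ) (F : G → ℝ)
    (hF : Continuous F) (hFc : HasCompactSupport F) :
    Integrable (fun p => F (Sct p) * ‖SS s N p‖ ^ 2) m0 := by
  apply Continuous.integrable_of_hasCompactSupport
  · exact (hF.comp continuous_Sct).mul ((continuous_SS s hs N).norm.pow 2)
  · exact (hcs_Sct hFc).mul_right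

/-- the functionals -/
def Phi (s : ℕ → ℍ → ℂ) (hs : ∀ k, Continuous (s k)) (N : ℕ) : C_c(G, ℝ) →ₗ[ℝ] ℝ where
  toFun F := (N : ℝ)⁻¹ * ∫ p, F (Sct p) * ‖SS s N p‖ ^ 2 ∂m0
  map_add' F F' := by
    rw [← mul_add, ← integral_add (integrable_FW s hs N F F.continuous F.hasCompactSupport)
      (integrable_FW s hs N F' F'.continuous F'.hasCompactSupport)]
    congr 2
    ext p
    rw [CompactlySupportedContinuousMap.add_apply]; ring
  map_smul' c F := by
    have h : ∫ p, (c • F) (Sct p) * ‖SS s N p‖ ^ 2 ∂m0 =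
        c * ∫ p, F (Sct p) * ‖SS s N p‖ ^ 2 ∂m0 := by
      rw [← integral_const_mul]
      refine integral_congr_ae (Eventually.of_forall fun p => ?_)
      change (c • F) (Sct p) * ‖SS s N p‖ ^ 2 = c * (F (Sct p) * ‖SS s N p‖ ^ 2)
      rw [CompactlySupportedContinuousMap.smul_apply, smul_eq_mul]; ring
    rw [RingHom.id_apply, smul_eq_mul, mul_left_comm, h]

lemma Phi_nonneg (s : ℕ → ℍ → ℂ) (hs : ∀ k, Continuous (s k)) (N : ℕ) (F : C_c(G, ℝ))
    (hF : 0 ≤ F) : 0 ≤ Phi s hs N F := by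
  change 0 ≤ (N : ℝ)⁻¹ * ∫ p, F (Sct p) * ‖SS s N p‖ ^ 2 ∂m0
  have : ∀ p, 0 ≤ F (Sct p) * ‖SS s N p‖ ^ 2 := fun p => mul_nonneg (hF (Sct p)) (by positivity)
  exact mul_nonneg (by positivity) (integral_nonneg this)

/-! ### Test functions -/

lemma test_cont {φ : ℂ → ℂ} (hφ : Test H0 φ) : Continuous (fun z : ℍ => φ z) :=
  hφ.smooth.continuous.comp UpperHalfPlane.continuous_coe

lemma test_hcs {φ : ℂ → ℂ} (hφ : Test H0 φ) : HasCompactSupport (fun z : ℍ => φ z) := by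
  refine HasCompactSupport.intro (Half2.isCompact_pre hφ.cpt.isCompact hφ.sub) ?_
  intro z hz
  exact image_eq_zero_of_notMem_tsupport hz

/-- bilinear integrals -/
def II (φ : ℂ → ℂ) (s : ℕ → ℍ → ℂ) (k j : ℕ) : ℂ := ∫ z : ℍ, φ z * (s k z * conj (s j z))

lemma integrable_phi {φ : ℂ → ℂ} (hφ : Test H0 φ) {a : ℍ → ℂ} (ha : Continuous a) :
    Integrable (fun z : ℍ => φ z * a z) := by
  apply Continuous.integrable_of_hasCompactSupport
  · exact (test_cont hφ).mul ha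
  · exact (test_hcs hφ).mul_right

/-- a mode on the group -/
def md (φ : ℂ → ℂ) (n : ℕ) (g : G) : ℂ := φ (base g) * ze g ^ (-(n : ℤ))

lemma md_cont {φ : ℂ → ℂ} (hφ : Test H0 φ) (n : ℕ) : Continuous (md φ n) := by
  unfold md
  refine ((test_cont hφ).comp continuous_base).mul ?_
  exact continuous_ze.zpow₀ _ (fun g => Or.inl (ze_ne g))

lemma md_hcs {φ : ℂ → ℂ} (hφ : Test H0 φ) (n : ℕ) : HasCompactSupport (md φ n) := by
  refine HasCompactSupport.intro
    (isCompact_base (Half2.isCompact_pre hφ.cpt.isCompact hφ.sub)) ?_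
  intro g hg
  have : φ (base g) = 0 := image_eq_zero_of_notMem_tsupport hg
  unfold md
  rw [this, zero_mul]

lemma pointwise (φ : ℂ → ℂ) (s : ℕ → ℍ → ℂ) (n N : ℕ) (p : XX) :
    md φ n (Sct p) * ((‖SS s N p‖ ^ 2 : ℝ) : ℂ) = ∑ k ∈ Finset.range N, ∑ j ∈ Finset.range N,
      (φ p.1 * (s k p.1 * conj (s j p.1))) * fourier (2 * ((k : ℤ) - j - n)) p.2 := by
  have h1 : ((‖SS s N p‖ ^ 2 : ℝ) : ℂ) = SS s N p * conj (SS s N p) := by
    rw [Complex.mul_conj, Complex.normSq_eq_norm_sq]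
  rw [h1]
  unfold md SS
  rw [base_Sct, ze_Sct, map_sum, Finset.sum_mul_sum, Finset.mul_sum]
  refine Finset.sum_congr rfl fun k _ => ?_
  rw [Finset.mul_sum]
  refine Finset.sum_congr rfl fun j _ => ?_
  rw [map_mul, fourier_cc, fourier_cc, fourier_cc, map_zpow₀, cc_conj, inv_zpow', ← zpow_natCast,
    ← zpow_mul]
  have h2 : (2 * ((k : ℤ) - j - n)) = ((2 : ℕ) : ℤ) * (-(n : ℤ)) + (2 * (k : ℤ)) + (-(2 * (j : ℤ))) := by
    push_cast; ring
  rw [h2, zpow_add₀ (cc_ne _), zpow_add₀ (cc_ne _)]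
  ring

lemma integral_md {φ : ℂ → ℂ} (hφ : Test H0 φ) (s : ℕ → ℍ → ℂ) (hs : ∀ k, Continuous (s k))
    (n N : ℕ) : ∫ p, md φ n (Sct p) * ((‖SS s N p‖ ^ 2 : ℝ) : ℂ) ∂m0 =
      ∑ j ∈ Finset.range (N - n), II φ s (j + n) j := by
  have h1 : ∀ k j : ℕ, Integrable (fun p : XX => (φ p.1 * (s k p.1 * conj (s j p.1))) *
      fourier (2 * ((k : ℤ) - j - n)) p.2) m0 := by
    intro k j
    refine Integrable.mul_prod (f := fun z : ℍ => φ z * (s k z * conj (s j z)))
      (g := fun x : XC => fourier (2 * ((k : ℤ) - j - n)) x)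
      (integrable_phi hφ ((hs k).mul (Complex.continuous_conj.comp (hs j)))) ?_
    exact (ContinuousMap.continuous _).integrable_of_hasCompactSupport
      (HasCompactSupport.of_compactSpace _)
  have h2 : ∀ k j : ℕ, ∫ p : XX, (φ p.1 * (s k p.1 * conj (s j p.1))) *
      fourier (2 * ((k : ℤ) - j - n)) p.2 ∂m0 = if k = j + n then II φ s k j else 0 := by
    intro k j
    unfold m0
    rw [integral_prod_mul (fun z : ℍ => φ z * (s k z * conj (s j z)))
      (fun x : XC => fourier (2 * ((k : ℤ) - j - n)) x), integral_fourier]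
    by_cases h : k = j + n
    · rw [if_pos h, if_pos (by rw [h]; push_cast; ring)]
      rw [mul_one]; rfl
    · rw [if_neg h, if_neg (by omega), mul_zero]
  simp_rw [pointwise]
  rw [integral_finsetSum _ (fun k _ => integrable_finsetSum _ fun j _ => h1 k j)]
  have h3 : ∀ k, ∫ p : XX, ∑ j ∈ Finset.range N, (φ p.1 * (s k p.1 * conj (s j p.1))) *
      fourier (2 * ((k : ℤ) - j - n)) p.2 ∂m0 =
      ∑ j ∈ Finset.range N, if k = j + n then II φ s k j else 0 := by
    intro k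
    rw [integral_finsetSum _ (fun j _ => h1 k j)]
    exact Finset.sum_congr rfl fun j _ => h2 k j
  simp_rw [h3]
  rw [Finset.sum_comm]
  have h4 : ∀ j, ∑ k ∈ Finset.range N, (if k = j + n then II φ s k j else 0) =
      if j + n < N then II φ s (j + n) j else 0 := by
    intro j
    rw [Finset.sum_ite_eq']
    simp only [Finset.mem_range]
  simp_rw [h4]
  rw [← Finset.sum_filter]
  refine Finset.sum_congr ?_ fun j _ => rfl
  ext j
  simp only [Finset.mem_filter, Finset.mem_range]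
  omega

/-! ### Limits -/

lemma bound_II {s : ℕ → ℕ → ℍ → ℂ} (hs : ∀ i k, Continuous (s i k))
    (hB : ∀ (k : ℕ) (K : Set ℍ), IsCompact K → ∃ C : ℝ, ∀ i, ∫ z in K, ‖s i k z‖ ^ 2 ≤ C)
    {φ : ℂ → ℂ} (hφ : Test H0 φ) (n : ℕ) : ∃ C : ℝ, ∀ i, ‖II φ (s i) n 0‖ ≤ C := by
  obtain ⟨M, hM⟩ := (test_cont hφ).bounded_above_of_compact_support (test_hcs hφ)
  set K : Set ℍ := tsupport (fun z : ℍ => φ z) with hK
  have hKc : IsCompact K := test_hcs hφ
  have hM0 : 0 ≤ M := (norm_nonneg _).trans (hM UpperHalfPlane.I)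
  obtain ⟨C1, hC1⟩ := hB n K hKc
  obtain ⟨C2, hC2⟩ := hB 0 K hKc
  refine ⟨M * (C1 + C2), fun i => ?_⟩
  have hi1 : IntegrableOn (fun z => ‖s i n z‖ ^ 2) K :=
    ((hs i n).norm.pow 2).continuousOn.integrableOn_compact hKc
  have hi2 : IntegrableOn (fun z => ‖s i 0 z‖ ^ 2) K :=
    ((hs i 0).norm.pow 2).continuousOn.integrableOn_compact hKc
  have h0 : II φ (s i) n 0 = ∫ z in K, φ z * (s i n z * conj (s i 0 z)) := by
    unfold II
    rw [setIntegral_eq_integral_of_forall_compl_eq_zero]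
    intro z hz
    have : φ z = 0 := image_eq_zero_of_notMem_tsupport (f := fun z : ℍ => φ z) hz
    rw [this, zero_mul]
  rw [h0]
  calc ‖∫ z in K, φ z * (s i n z * conj (s i 0 z))‖
      ≤ ∫ z in K, ‖φ z * (s i n z * conj (s i 0 z))‖ := norm_integral_le_integral_norm _
    _ ≤ ∫ z in K, M * (‖s i n z‖ ^ 2 + ‖s i 0 z‖ ^ 2) := by
        apply setIntegral_mono_on _ _ hKc.measurableSet
        · intro z _
          rw [norm_mul, norm_mul, RCLike.norm_conj]
          have h1 : ‖s i n z‖ * ‖s i 0 z‖ ≤ ‖s i n z‖ ^ 2 + ‖s i 0 z‖ ^ 2 := by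
            nlinarith [sq_nonneg (‖s i n z‖ - ‖s i 0 z‖), sq_nonneg (‖s i n z‖ + ‖s i 0 z‖)]
          exact mul_le_mul (hM z) h1 (by positivity) hM0
        · exact ((test_cont hφ).mul ((hs i n).mul
            (Complex.continuous_conj.comp (hs i 0)))).norm.continuousOn.integrableOn_compact hKc
        · exact (hi1.add hi2).const_mul M
    _ = M * ((∫ z in K, ‖s i n z‖ ^ 2) + ∫ z in K, ‖s i 0 z‖ ^ 2) := by
        rw [integral_const_mul, integral_add hi1 hi2]
    _ ≤ M * (C1 + C2) := mul_le_mul_of_nonneg_left (add_le_add (hC1 i) (hC2 i)) hM0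

lemma exists_M {s : ℕ → ℕ → ℍ → ℂ} (hs : ∀ i k, Continuous (s i k))
    (hB : ∀ (k : ℕ) (K : Set ℍ), IsCompact K → ∃ C : ℝ, ∀ i, ∫ z in K, ‖s i k z‖ ^ 2 ≤ C)
    {φ : ℂ → ℂ} (hφ : Test H0 φ) (n : ℕ) : ∃ M : ℂ,
      Tendsto (fun i => II φ (s i) n 0) (hyperfilter ℕ : Filter ℕ) (𝓝 M) := by
  obtain ⟨C, hC⟩ := bound_II hs hB hφ n
  exact exists_lim_complex _ _ C (Eventually.of_forall hC)

lemma lim_shift {s : ℕ → ℕ → ℍ → ℂ}
    (hA : ∀ (k j : ℕ) (φ : ℂ → ℂ), Test H0 φ → Tendsto (fun i =>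
      (∫ z : ℍ, φ z * (s i (k + 1) z * conj (s i (j + 1) z))) -
      ∫ z : ℍ, φ z * (s i k z * conj (s i j z))) atTop (𝓝 0))
    {φ : ℂ → ℂ} (hφ : Test H0 φ) (n : ℕ) {M : ℂ}
    (hM : Tendsto (fun i => II φ (s i) n 0) (hyperfilter ℕ : Filter ℕ) (𝓝 M)) (j : ℕ) :
    Tendsto (fun i => II φ (s i) (j + n) j) (hyperfilter ℕ : Filter ℕ) (𝓝 M) := by
  induction j with
  | zero => simpa using hM
  | succ j ih =>
    have h1 := (hA (j + n) j φ hφ).mono_left Nat.hyperfilter_le_atTop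
    have h2 := h1.add ih
    rw [zero_add] at h2
    refine h2.congr fun i => ?_
    unfold II
    rw [show j + 1 + n = j + n + 1 by ring]
    ring

lemma lim_L (n : ℕ) (M : ℂ) : Tendsto (fun N : ℕ => (N : ℂ)⁻¹ * ∑ _j ∈ Finset.range (N - n), M)
    atTop (𝓝 M) := by
  have h1 : Tendsto (fun N : ℕ => (1 - (n : ℂ) / (N : ℂ)) * M) atTop (𝓝 ((1 - 0) * M)) :=
    (tendsto_const_nhds.sub (tendsto_const_div_atTop_nhds_zero_nat (n : ℂ))).mul_const M
  rw [sub_zero, one_mul] at h1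
  refine h1.congr' ?_
  filter_upwards [eventually_ge_atTop (n + 1)] with N hN
  rw [Finset.sum_const, Finset.card_range, nsmul_eq_mul, Nat.cast_sub (by omega)]
  have : (N : ℂ) ≠ 0 := by
    rw [Nat.cast_ne_zero]; omega
  field_simp

lemma tendsto_mode {s : ℕ → ℕ → ℍ → ℂ} (hs : ∀ i k, Continuous (s i k))
    (hA : ∀ (k j : ℕ) (φ : ℂ → ℂ), Test H0 φ → Tendsto (fun i =>
      (∫ z : ℍ, φ z * (s i (k + 1) z * conj (s i (j + 1) z))) -
      ∫ z : ℍ, φ z * (s i k z * conj (s i j z))) atTop (𝓝 0))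
    {φ : ℂ → ℂ} (hφ : Test H0 φ) (n : ℕ) {M : ℂ}
    (hM : Tendsto (fun i => II φ (s i) n 0) (hyperfilter ℕ : Filter ℕ) (𝓝 M)) :
    Tendsto (fun a : ℕ × ℕ => (a.1 : ℂ)⁻¹ *
      ∫ p, md φ n (Sct p) * ((‖SS (s a.2) a.1 p‖ ^ 2 : ℝ) : ℂ) ∂m0) (UU : Filter (ℕ × ℕ))
      (𝓝 M) := by
  refine tendsto_UU (L := fun N : ℕ => (N : ℂ)⁻¹ * ∑ _j ∈ Finset.range (N - n), M) ?_
    (lim_L n M)
  intro N
  simp_rw [integral_md hφ (s _) (hs _) n N]
  refine Tendsto.const_mul _ ?_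
  exact tendsto_finsetSum _ fun j _ => lim_shift hA hφ n hM j

/-- the functionals are bounded along the ultrafilter -/
lemma bounded {s : ℕ → ℕ → ℍ → ℂ} (hs : ∀ i k, Continuous (s i k))
    (hB : ∀ (k : ℕ) (K : Set ℍ), IsCompact K → ∃ C : ℝ, ∀ i, ∫ z in K, ‖s i k z‖ ^ 2 ≤ C)
    (hA : ∀ (k j : ℕ) (φ : ℂ → ℂ), Test H0 φ → Tendsto (fun i =>
      (∫ z : ℍ, φ z * (s i (k + 1) z * conj (s i (j + 1) z))) -
      ∫ z : ℍ, φ z * (s i k z * conj (s i j z))) atTop (𝓝 0))
    (F : C_c(G, ℝ)) : ∃ B : ℝ, ∀ᶠ a in (UU : Filter (ℕ × ℕ)), |Phi (s a.2) (hs a.2) a.1 F| ≤ B := by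
  set K : Set ℂ := UpperHalfPlane.coe '' (base '' tsupport F) with hK
  have hKc : IsCompact K :=
    (F.hasCompactSupport.isCompact.image continuous_base).image UpperHalfPlane.continuous_coe
  have hKH : K ⊆ H0 := by
    rintro z ⟨w, -, rfl⟩
    exact w.im_pos
  obtain ⟨ζ, hζ, h01, hev⟩ := exists_cutoff hKc isOpen_H0 hKH
  have hζK : ∀ z ∈ K, ζ z = 1 := fun z hz => by
    have h1 : {z | ζ z = 1} ∈ 𝓝 z := (mem_nhdsSet_iff_forall.mp hev) z hz
    have h2 : z ∈ {z | ζ z = 1} := mem_of_mem_nhds h1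
    exact h2
  obtain ⟨M, hM⟩ := F.continuous.bounded_above_of_compact_support F.hasCompactSupport
  have hM0 : 0 ≤ M := (norm_nonneg _).trans (hM 1)
  have hφ : Test H0 (fun z => (ζ z : ℂ)) :=
    { smooth := Complex.ofRealCLM.contDiff.comp hζ.smooth
      cpt := hζ.cpt.comp_left (g := fun x : ℝ => (x : ℂ)) (by simp)
      sub := (closure_mono (by
        intro z hz
        rw [Function.mem_support] at hz ⊢
        intro h
        exact hz (by simp [h]))).trans hζ.sub }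
  have hFζ : ∀ g, |F g| ≤ M * ζ (base g) := by
    intro g
    by_cases hg : g ∈ tsupport F
    · rw [hζK _ ⟨base g, ⟨g, hg, rfl⟩, rfl⟩, mul_one]
      exact hM g
    · have : F g = 0 := image_eq_zero_of_notMem_tsupport hg
      rw [this, abs_zero]
      exact mul_nonneg hM0 (h01 _).1
  obtain ⟨L, hL⟩ := exists_M hs hB hφ 0
  have ht := tendsto_mode hs hA hφ 0 hL
  have hev2 : ∀ᶠ a in (UU : Filter (ℕ × ℕ)), ‖(a.1 : ℂ)⁻¹ *
      ∫ p, md (fun z => (ζ z : ℂ)) 0 (Sct p) * ((‖SS (s a.2) a.1 p‖ ^ 2 : ℝ) : ℂ) ∂m0‖ ≤ ‖L‖ + 1 := by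
    have := ht.norm.eventually (Iic_mem_nhds (show ‖L‖ < ‖L‖ + 1 by linarith))
    exact this
  refine ⟨M * (‖L‖ + 1), hev2.mono fun a ha => ?_⟩
  set W : XX → ℝ := fun p => ‖SS (s a.2) a.1 p‖ ^ 2 with hW
  have hW0 : ∀ p, 0 ≤ W p := fun p => by positivity
  have hζi : Integrable (fun p : XX => ζ p.1 * W p) m0 := by
    have h := integrable_FW (s a.2) (hs a.2) a.1 (fun g => ζ (base g))
      (hζ.smooth.continuous.comp (UpperHalfPlane.continuous_coe.comp continuous_base)) (by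
        refine HasCompactSupport.intro
          (isCompact_base (Half2.isCompact_pre hζ.cpt.isCompact hζ.sub)) ?_
        intro g hg
        exact image_eq_zero_of_notMem_tsupport hg)
    simpa only [base_Sct] using h
  have h1 : |Phi (s a.2) (hs a.2) a.1 F| ≤ (a.1 : ℝ)⁻¹ * (M * ∫ p : XX, ζ p.1 * W p ∂m0) := by
    change |(a.1 : ℝ)⁻¹ * ∫ p, F (Sct p) * W p ∂m0| ≤ _
    rw [abs_mul, abs_of_nonneg (by positivity : (0 : ℝ) ≤ (a.1 : ℝ)⁻¹), ← integral_const_mul]
    refine mul_le_mul_of_nonneg_left ?_ (by positivity)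
    refine (abs_integral_le_integral_abs).trans ?_
    refine integral_mono_of_nonneg (Eventually.of_forall fun p => abs_nonneg _)
      (hζi.const_mul M) (Eventually.of_forall fun p => ?_)
    change |F (Sct p) * W p| ≤ M * (ζ p.1 * W p)
    rw [abs_mul, abs_of_nonneg (hW0 p), ← mul_assoc]
    have := hFζ (Sct p)
    rw [base_Sct] at this
    exact mul_le_mul_of_nonneg_right this (hW0 p)
  have h2 : ∫ p, md (fun z => (ζ z : ℂ)) 0 (Sct p) * ((W p : ℝ) : ℂ) ∂m0 =
      ((∫ p : XX, ζ p.1 * W p ∂m0 : ℝ) : ℂ) := by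
    rw [← integral_complex_ofReal]
    refine integral_congr_ae (Eventually.of_forall fun p => ?_)
    change md (fun z => (ζ z : ℂ)) 0 (Sct p) * ((W p : ℝ) : ℂ) = ((ζ p.1 * W p : ℝ) : ℂ)
    unfold md
    rw [base_Sct]
    simp
  rw [h2] at ha
  have h3 : 0 ≤ ∫ p : XX, ζ p.1 * W p ∂m0 :=
    integral_nonneg fun p => mul_nonneg (h01 _).1 (hW0 p)
  have h4 : ‖(a.1 : ℂ)⁻¹ * ((∫ p : XX, ζ p.1 * W p ∂m0 : ℝ) : ℂ)‖ =
      (a.1 : ℝ)⁻¹ * ∫ p : XX, ζ p.1 * W p ∂m0 := by
    rw [norm_mul, norm_inv, Complex.norm_natCast, Complex.norm_real, Real.norm_eq_abs,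
      abs_of_nonneg h3]
  rw [h4] at ha
  calc |Phi (s a.2) (hs a.2) a.1 F| ≤ (a.1 : ℝ)⁻¹ * (M * ∫ p : XX, ζ p.1 * W p ∂m0) := h1
    _ = M * ((a.1 : ℝ)⁻¹ * ∫ p : XX, ζ p.1 * W p ∂m0) := by ring
    _ ≤ M * (‖L‖ + 1) := mul_le_mul_of_nonneg_left ha hM0

/-- real part as a compactly supported function -/
def reC (f : G → ℂ) (hf : Continuous f) (hc : HasCompactSupport f) : C_c(G, ℝ) :=
  ⟨⟨fun g => (f g).re, Complex.continuous_re.comp hf⟩, hc.comp_left (g := Complex.re) rfl⟩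

/-- imaginary part as a compactly supported function -/
def imC (f : G → ℂ) (hf : Continuous f) (hc : HasCompactSupport f) : C_c(G, ℝ) :=
  ⟨⟨fun g => (f g).im, Complex.continuous_im.comp hf⟩, hc.comp_left (g := Complex.im) rfl⟩

lemma Phi_complex (s : ℕ → ℍ → ℂ) (hs : ∀ k, Continuous (s k)) (N : ℕ) (f : G → ℂ)
    (hf : Continuous f) (hc : HasCompactSupport f) :
    (N : ℂ)⁻¹ * ∫ p, f (Sct p) * ((‖SS s N p‖ ^ 2 : ℝ) : ℂ) ∂m0 =
      (Phi s hs N (reC f hf hc) : ℂ) + (Phi s hs N (imC f hf hc) : ℂ) * Complex.I := by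
  have hi : Integrable (fun p => f (Sct p) * ((‖SS s N p‖ ^ 2 : ℝ) : ℂ)) m0 := by
    apply Continuous.integrable_of_hasCompactSupport
    · exact (hf.comp continuous_Sct).mul
        (Complex.continuous_ofReal.comp ((continuous_SS s hs N).norm.pow 2))
    · exact (hcs_Sct hc).mul_right
  have h := integral_re_add_im hi
  have e1 : ∀ p, RCLike.re (f (Sct p) * ((‖SS s N p‖ ^ 2 : ℝ) : ℂ)) =
      (f (Sct p)).re * ‖SS s N p‖ ^ 2 := fun p => Complex.re_mul_ofReal _ _
  have e2 : ∀ p, RCLike.im (f (Sct p) * ((‖SS s N p‖ ^ 2 : ℝ) : ℂ)) =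
      (f (Sct p)).im * ‖SS s N p‖ ^ 2 := fun p => Complex.im_mul_ofReal _ _
  simp_rw [e1, e2] at h
  rw [← h]
  change _ = (((N : ℝ)⁻¹ * ∫ p, (f (Sct p)).re * ‖SS s N p‖ ^ 2 ∂m0 : ℝ) : ℂ) +
    (((N : ℝ)⁻¹ * ∫ p, (f (Sct p)).im * ‖SS s N p‖ ^ 2 ∂m0 : ℝ) : ℂ) * Complex.I
  rw [mul_add]
  push_cast
  rw [← mul_assoc]
  rfl

lemma construct {s : ℕ → ℕ → ℍ → ℂ} (hs : ∀ i k, Continuous (s i k))
    (hB : ∀ (k : ℕ) (K : Set ℍ), IsCompact K → ∃ C : ℝ, ∀ i, ∫ z in K, ‖s i k z‖ ^ 2 ≤ C)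
    (hA : ∀ (k j : ℕ) (φ : ℂ → ℂ), Test H0 φ → Tendsto (fun i =>
      (∫ z : ℍ, φ z * (s i (k + 1) z * conj (s i (j + 1) z))) -
      ∫ z : ℍ, φ z * (s i k z * conj (s i j z))) atTop (𝓝 0)) :
    ∃ μ : Measure G, IsFiniteMeasureOnCompacts μ ∧ ∀ (n : ℕ) (φ : ℂ → ℂ), Test H0 φ →
      Tendsto (fun i => II φ (s i) n 0) (hyperfilter ℕ : Filter ℕ) (𝓝 (∫ g, md φ n g ∂μ)) := by
  obtain ⟨μ, hμ, h⟩ := exists_measure UU (fun a : ℕ × ℕ => Phi (s a.2) (hs a.2) a.1)
    (fun a F hF => Phi_nonneg _ _ _ F hF) (bounded hs hB hA)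
  refine ⟨μ, hμ, fun n φ hφ => ?_⟩
  obtain ⟨M, hM⟩ := exists_M hs hB hφ n
  have ht := tendsto_mode hs hA hφ n hM
  have hc := md_cont hφ n
  have hs' := md_hcs hφ n
  have h1 := (Complex.continuous_ofReal.tendsto _).comp (h (reC (md φ n) hc hs'))
  have h2 := (Complex.continuous_ofReal.tendsto _).comp (h (imC (md φ n) hc hs'))
  have h3 := h1.add (h2.mul_const Complex.I)
  have h4 : ∫ g, md φ n g ∂μ = ((∫ g, (reC (md φ n) hc hs') g ∂μ : ℝ) : ℂ) +
      ((∫ g, (imC (md φ n) hc hs') g ∂μ : ℝ) : ℂ) * Complex.I := by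
    have hi : Integrable (md φ n) μ := hc.integrable_of_hasCompactSupport hs'
    exact (integral_re_add_im hi).symm
  have h5 : M = ∫ g, md φ n g ∂μ := by
    rw [h4]
    refine tendsto_nhds_unique ht (h3.congr fun a => ?_)
    rw [Phi_complex (s a.2) (hs a.2) a.1 (md φ n) hc hs']
    rfl
  rw [← h5]
  exact hM

/-! ### Symmetrization -/

lemma continuous_negG : Continuous (fun g : G => -g) := by
  apply continuous_induced_rng.mpr
  apply continuous_matrix
  intro i j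
  exact (continuous_entry i j).neg

lemma symm_measure (μ : Measure G) (hμ : IsFiniteMeasureOnCompacts μ) :
    ∃ ν : Measure G, IsFiniteMeasureOnCompacts ν ∧ ν.map (fun g => -g) = ν ∧
      ∀ f : G → ℂ, Continuous f → HasCompactSupport f → (∀ g, f (-g) = f g) →
        ∫ g, f g ∂ν = ∫ g, f g ∂μ := by
  have hm : Measurable (fun g : G => -g) := continuous_negG.measurable
  have hcomp : (fun g : G => -g) ∘ (fun g : G => -g) = id := by
    funext g; simp
  have hfin : IsFiniteMeasureOnCompacts (μ.map (fun g : G => -g)) := ⟨fun {K} hK => by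
    rw [Measure.map_apply hm hK.measurableSet]
    have : (fun g : G => -g) ⁻¹' K = (fun g : G => -g) '' K := by
      ext g
      constructor
      · intro hg; exact ⟨-g, hg, by simp⟩
      · rintro ⟨g', hg', rfl⟩
        change - -g' ∈ K
        rwa [neg_neg]
    rw [this]
    exact (hK.image continuous_negG).measure_lt_top⟩
  refine ⟨(2⁻¹ : ℝ≥0∞) • (μ + μ.map (fun g : G => -g)), ⟨fun {K} hK => ?_⟩, ?_, ?_⟩
  · rw [Measure.smul_apply, Measure.add_apply, smul_eq_mul]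
    exact ENNReal.mul_lt_top (by simp) (ENNReal.add_lt_top.mpr
      ⟨hK.measure_lt_top, hfin.lt_top_of_isCompact hK⟩)
  · rw [Measure.map_smul, Measure.map_add _ _ hm, Measure.map_map hm hm, hcomp, Measure.map_id,
      add_comm]
  · intro f hf hc hev
    have h1 : Integrable f μ := hf.integrable_of_hasCompactSupport hc
    have h2 : Integrable f (μ.map (fun g : G => -g)) := hf.integrable_of_hasCompactSupport hc
    rw [integral_smul_measure, integral_add_measure h1 h2,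
      integral_map hm.aemeasurable hf.aestronglyMeasurable]
    simp_rw [hev]
    rw [← two_smul ℝ (∫ g, f g ∂μ), smul_smul]
    simp

end

end Pool.Agent.A54.Dyn.LiftM

namespace Pool.Agent.A54.Dyn

open MeasureTheory Filter Topology Set
open scoped ComplexConjugate UpperHalfPlane MatrixGroups ENNReal ContDiff
open Pool.Agent.A54.Half (H0)

/-- abstract construction of the limiting measure -/
theorem stmtLift : StmtLift := by
  intro s hs hB hA
  obtain ⟨μ, hμ, h⟩ := LiftM.construct hs hB hA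
  obtain ⟨ν, hν, hneg, hint⟩ := LiftM.symm_measure μ hμ
  refine ⟨ν, hν, hneg, fun n φ hφ => ?_⟩
  have h1 := h n φ hφ
  rw [← hint (LiftM.md φ n) (LiftM.md_cont hφ n) (LiftM.md_hcs hφ n) (fun g => by
    unfold LiftM.md
    rw [base_neg, ze_neg])] at h1
  exact h1

end Pool.Agent.A54.Dyn
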