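import Pool.Agent.Lib.MP_a54f13_nt.Dyn.Spec1

/-!
Assembly: the limiting measure of a sequence of Hecke–Maass forms and its properties (`StmtLim`),
for MP_a54f13_nt.
-/

set_option autoImplicit false

namespace Pool.Agent.A54.Dyn

open MeasureTheory Filter Topology Set
open scoped ComplexConjugate UpperHalfPlane MatrixGroups ENNReal ContDiff
open Pool.Agent.A54.Half (H0 qq ff hh)

noncomputable section

namespace LimM

lemma hyper_le : (hyperfilter ℕ : Filter ℕ) ≤ atTop := Nat.hyperfilter_le_atTop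

lemma test_add {V : Set ℂ} {φ ψ : ℂ → ℂ} (h : Test V φ) (h' : Test V ψ) :
    Test V (fun z => φ z + ψ z) where
  smooth := h.smooth.add h'.smooth
  cpt := h.cpt.add h'.cpt
  sub := by
    refine (closure_mono (Function.support_add φ ψ)).trans ?_
    rw [closure_union]
    exact union_subset h.sub h'.sub

lemma test_const_mul {V : Set ℂ} {φ : ℂ → ℂ} (c : ℂ) (h : Test V φ) :
    Test V (fun z => c * φ z) := h.mul_left contDiff_const

lemma test_im {V : Set ℂ} {φ : ℂ → ℂ} (h : Test V φ) :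
    Test V (fun z => (z.im : ℂ) * φ z) :=
  h.mul_left (contDiff_ofReal Half.contDiff_im)

lemma hcs {φ : ℂ → ℂ} (hφ : Test H0 φ) : ∃ K : Set ℍ, IsCompact K ∧ ∀ z : ℍ, z ∉ K → φ z = 0 :=
  ⟨UpperHalfPlane.coe ⁻¹' tsupport φ, Half2.isCompact_pre hφ.cpt.isCompact hφ.sub,
    fun _ hz => image_eq_zero_of_notMem_tsupport hz⟩

lemma continuous_coe_base : Continuous (fun g : G => ((base g : ℍ) : ℂ)) :=
  UpperHalfPlane.continuous_coe.comp continuous_base

lemma integG {μ : Measure G} [IsFiniteMeasureOnCompacts μ] {φ : ℂ → ℂ} (hφ : Test H0 φ) (n : ℤ) :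
    Integrable (fun g => φ (base g) * ze g ^ n) μ := by
  obtain ⟨K, hK, hK0⟩ := hcs hφ
  have hc : Continuous (fun g : G => φ (base g) * ze g ^ n) :=
    (hφ.smooth.continuous.comp continuous_coe_base).mul
      (continuous_ze.zpow₀ _ (fun v => Or.inl (ze_ne v)))
  refine hc.integrable_of_hasCompactSupport ?_
  refine HasCompactSupport.intro (isCompact_base hK) ?_
  intro g hg
  rw [hK0 (base g) hg, zero_mul]

lemma integH {φ : ℂ → ℂ} (hφ : Test H0 φ) {F : ℍ → ℂ} (hF : Continuous F) :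
    Integrable (fun z : ℍ => φ z * F z) := by
  obtain ⟨K, hK, hK0⟩ := hcs hφ
  have hc : Continuous (fun z : ℍ => φ z * F z) :=
    (hφ.smooth.continuous.comp UpperHalfPlane.continuous_coe).mul hF
  refine hc.integrable_of_hasCompactSupport ?_
  refine HasCompactSupport.intro hK ?_
  intro z hz
  rw [hK0 z hz, zero_mul]

lemma conj_ze (g : G) : conj (ze g) = (ze g)⁻¹ := by
  apply eq_inv_of_mul_eq_one_left
  rw [mul_comm, Complex.mul_conj, Complex.normSq_eq_norm_sq, norm_ze]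
  simp

lemma conj_ze_zpow (g : G) (n : ℤ) : conj (ze g ^ n) = ze g ^ (-n) := by
  rw [map_zpow₀, conj_ze, inv_zpow']

lemma conj_int (μ : Measure G) (φ : ℂ → ℂ) (n : ℤ) :
    ∫ g, φ (base g) * ze g ^ n ∂μ = conj (∫ g, conj (φ (base g)) * ze g ^ (-n) ∂μ) := by
  rw [← integral_conj]
  congr 1
  ext g
  rw [map_mul, Complex.conj_conj, conj_ze_zpow, neg_neg]

/-- the two coefficients of `Xf φ n` -/
def p1 (φ : ℂ → ℂ) (n : ℤ) (w : ℂ) : ℂ :=
  Complex.I / 2 * ((w.im : ℂ) * dz φ w) + (n : ℂ) / 2 * φ w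

def p2 (φ : ℂ → ℂ) (n : ℤ) (w : ℂ) : ℂ :=
  -(Complex.I / 2) * ((w.im : ℂ) * dzb φ w) + -((n : ℂ) / 2) * φ w

lemma test_p1 {φ : ℂ → ℂ} (hφ : Test H0 φ) (n : ℤ) : Test H0 (p1 φ n) :=
  test_add (test_const_mul _ (test_im hφ.dz)) (test_const_mul _ hφ)

lemma test_p2 {φ : ℂ → ℂ} (hφ : Test H0 φ) (n : ℤ) : Test H0 (p2 φ n) :=
  test_add (test_const_mul _ (test_im hφ.dzb)) (test_const_mul _ hφ)

lemma Xf_eq (φ : ℂ → ℂ) (n : ℤ) (g : G) : Xf φ n g =
    p1 φ n (base g) * ze g ^ (n + 1) + p2 φ n (base g) * ze g ^ (n - 1) := by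
  have h := ze_ne g
  have e1 : ze g ^ (n + 1) = ze g * ze g ^ n := by rw [zpow_add_one₀ h, mul_comm]
  have e2 : ze g ^ (n - 1) = (ze g)⁻¹ * ze g ^ n := by rw [zpow_sub_one₀ h, mul_comm]
  unfold Xf p1 p2
  rw [e1, e2, UpperHalfPlane.coe_im]
  ring

lemma int_Xf {μ : Measure G} [IsFiniteMeasureOnCompacts μ] {φ : ℂ → ℂ} (hφ : Test H0 φ) (n : ℤ) :
    ∫ g, Xf φ n g ∂μ = (∫ g, p1 φ n (base g) * ze g ^ (n + 1) ∂μ) +
      ∫ g, p2 φ n (base g) * ze g ^ (n - 1) ∂μ := by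
  rw [← integral_add (integG (test_p1 hφ n) _) (integG (test_p2 hφ n) _)]
  congr 1
  ext g
  exact Xf_eq φ n g

lemma conj_Xf {φ : ℂ → ℂ} (hφ : Test H0 φ) (n : ℤ) (g : G) :
    conj (Xf φ n g) = Xf (fun w => conj (φ w)) (-n) g := by
  rw [Xf_eq, Xf_eq, map_add, map_mul, map_mul, conj_ze_zpow, conj_ze_zpow]
  have e1 : -(n + 1) = -n - 1 := by ring
  have e2 : -(n - 1) = -n + 1 := by ring
  have e3 : conj (p1 φ n (base g)) = p2 (fun w => conj (φ w)) (-n) (base g) := by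
    unfold p1 p2
    rw [dzb_conj hφ.smooth]
    simp only [map_add, map_mul, map_div₀, Complex.conj_I, Complex.conj_ofReal, map_intCast,
      map_ofNat, Int.cast_neg]
    ring
  have e4 : conj (p2 φ n (base g)) = p1 (fun w => conj (φ w)) (-n) (base g) := by
    unfold p1 p2
    rw [dz_conj hφ.smooth]
    simp only [map_add, map_mul, map_div₀, map_neg, Complex.conj_I, Complex.conj_ofReal,
      map_intCast, map_ofNat, Int.cast_neg]
    ring
  rw [e1, e2, e3, e4]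
  ring

/-- the modes of `μ` are the limits along the hyperfilter -/
def Md (f : ℕ → ℍ → ℝ) (t : ℕ → ℝ) (μ : Measure G) : Prop :=
  ∀ (n : ℕ) (φ : ℂ → ℂ), Test H0 φ →
    Tendsto (fun i => ∫ z : ℍ, φ z * (f i z * sg (f i) (t i) n z)) (hyperfilter ℕ : Filter ℕ)
      (𝓝 (∫ g, φ (base g) * ze g ^ (-(n : ℤ)) ∂μ))

lemma sg_zero (f : ℍ → ℝ) (t : ℝ) (z : ℍ) : sg f t 0 z = (f z : ℂ) := by
  unfold sg
  simp [Half.ext_coe]

lemma cont_f {f : ℕ → ℍ → ℝ} {t : ℕ → ℝ} (hS : StmtSgB) (hf : HM f t) (i : ℕ) :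
    Continuous (fun z => (f i z : ℂ)) := by
  have h := (hS f t hf).1 i 0
  have e : sg (f i) (t i) 0 = fun z => (f i z : ℂ) := funext (sg_zero _ _)
  rw [← e]
  exact h

lemma cont_fs {f : ℕ → ℍ → ℝ} {t : ℕ → ℝ} (hS : StmtSgB) (hf : HM f t) (i n : ℕ) :
    Continuous (fun z => (f i z : ℂ) * sg (f i) (t i) n z) :=
  (cont_f hS hf i).mul ((hS f t hf).1 i n)

/-- invariance under the flow, negative modes -/
lemma Xf_neg {f : ℕ → ℍ → ℝ} {t : ℕ → ℝ} (hS : StmtSgB) (h2 : StmtA2) (hf : HM f t)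
    {μ : Measure G} [IsFiniteMeasureOnCompacts μ] (hM : Md f t μ) (m : ℕ) {φ : ℂ → ℂ}
    (hφ : Test H0 φ) : ∫ g, Xf φ (-((m : ℤ) + 1)) g ∂μ = 0 := by
  rw [int_Xf hφ]
  have e1 : -((m : ℤ) + 1) + 1 = -(m : ℤ) := by ring
  have e2 : -((m : ℤ) + 1) - 1 = -((m + 2 : ℕ) : ℤ) := by push_cast; ring
  rw [e1, e2]
  have t1 := hM m _ (test_p1 hφ (-((m : ℤ) + 1)))
  have t2 := hM (m + 2) _ (test_p2 hφ (-((m : ℤ) + 1)))
  have t3 := t1.add t2
  have t4 := ((h2 f t hf m φ hφ).mono_left hyper_le).const_mul (1 / 2 : ℂ)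
  rw [mul_zero] at t4
  refine tendsto_nhds_unique t3 (t4.congr ?_)
  intro i
  rw [← integral_add (integH (test_p1 hφ _) (cont_fs hS hf i m))
    (integH (test_p2 hφ _) (cont_fs hS hf i (m + 2))), ← integral_const_mul]
  congr 1
  ext z
  unfold p1 p2
  rw [UpperHalfPlane.coe_im]
  push_cast
  ring

lemma mode_one {f : ℕ → ℍ → ℝ} {t : ℕ → ℝ} (h1 : StmtA1) (hf : HM f t)
    {μ : Measure G} (hM : Md f t μ) {φ : ℂ → ℂ}
    (hφ : Test H0 φ) : ∫ g, φ (base g) * ze g ^ (-1 : ℤ) ∂μ = 0 := by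
  have t1 := hM 1 φ hφ
  have t2 := ((h1 f t hf φ hφ).2 1 odd_one).mono_left hyper_le
  have := tendsto_nhds_unique t1 t2
  simpa using this

lemma mode_one' {f : ℕ → ℍ → ℝ} {t : ℕ → ℝ} (h1 : StmtA1) (hf : HM f t)
    {μ : Measure G} (hM : Md f t μ) {φ : ℂ → ℂ}
    (hφ : Test H0 φ) : ∫ g, φ (base g) * ze g ^ (1 : ℤ) ∂μ = 0 := by
  rw [conj_int, mode_one h1 hf hM hφ.conj, map_zero]

lemma Xf_all {f : ℕ → ℍ → ℝ} {t : ℕ → ℝ} (hS : StmtSgB) (h1 : StmtA1) (h2 : StmtA2) (hf : HM f t)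
    {μ : Measure G} [IsFiniteMeasureOnCompacts μ] (hM : Md f t μ) (n : ℤ) {φ : ℂ → ℂ}
    (hφ : Test H0 φ) : ∫ g, Xf φ n g ∂μ = 0 := by
  rcases lt_trichotomy n 0 with hn | hn | hn
  · obtain ⟨m, hm⟩ := Int.eq_ofNat_of_zero_le (show 0 ≤ -n - 1 by omega)
    have : n = -((m : ℤ) + 1) := by omega
    rw [this]
    exact Xf_neg hS h2 hf hM m hφ
  · rw [hn, int_Xf hφ, zero_add, zero_sub, mode_one' h1 hf hM (test_p1 hφ 0),
      mode_one h1 hf hM (test_p2 hφ 0), add_zero]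
  · obtain ⟨m, hm⟩ := Int.eq_ofNat_of_zero_le (show 0 ≤ n - 1 by omega)
    have hn' : -n = -((m : ℤ) + 1) := by omega
    have h := Xf_neg hS h2 hf hM m hφ.conj
    rw [← hn'] at h
    have e : ∫ g, Xf φ n g ∂μ = conj (∫ g, Xf (fun w => conj (φ w)) (-n) g ∂μ) := by
      rw [← integral_conj]
      congr 1
      ext g
      rw [← conj_Xf hφ, Complex.conj_conj]
    rw [e, h, map_zero]

/-! ### Left invariance -/

lemma io_smul (γ : SL(2, ℤ)) (z : ℍ) : io γ • z = γ • z := by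
  apply UpperHalfPlane.ext
  rw [smul_coe, UpperHalfPlane.coe_specialLinearGroup_apply]
  simp [io]

/-- transported test function -/
def tr (γ : SL(2, ℤ)) (m : ℕ) (φ : ℂ → ℂ) (w : ℂ) : ℂ :=
  if 0 < w.im then φ (((γ 0 0 : ℂ) * w + (γ 0 1 : ℂ)) / ((γ 1 0 : ℂ) * w + (γ 1 1 : ℂ))) *
    (((γ 1 0 : ℂ) * w + (γ 1 1 : ℂ)) / ((γ 1 0 : ℂ) * conj w + (γ 1 1 : ℂ))) ^ m else 0

lemma tr_coe (γ : SL(2, ℤ)) (m : ℕ) (φ : ℂ → ℂ) (z : ℍ) : tr γ m φ z = φ ((γ • z : ℍ) : ℂ) *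
    (((γ 1 0 : ℂ) * z + (γ 1 1 : ℂ)) / ((γ 1 0 : ℂ) * conj (z : ℂ) + (γ 1 1 : ℂ))) ^ m := by
  have h : 0 < (z : ℂ).im := z.im_pos
  unfold tr
  rw [if_pos h, UpperHalfPlane.coe_specialLinearGroup_apply]
  simp

lemma den_ne (γ : SL(2, ℤ)) {w : ℂ} (hw : w ∈ H0) : (γ 1 0 : ℂ) * w + (γ 1 1 : ℂ) ≠ 0 := by
  have h := denom_ne (io γ) ⟨w, hw⟩
  simpa [io] using h

lemma den_ne' (γ : SL(2, ℤ)) {w : ℂ} (hw : w ∈ H0) :
    (γ 1 0 : ℂ) * conj w + (γ 1 1 : ℂ) ≠ 0 := by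
  have h := den_ne γ hw
  have e : (γ 1 0 : ℂ) * conj w + (γ 1 1 : ℂ) = conj ((γ 1 0 : ℂ) * w + (γ 1 1 : ℂ)) := by
    simp
  rw [e]
  exact (map_ne_zero _).mpr h

lemma test_tr (γ : SL(2, ℤ)) (m : ℕ) {φ : ℂ → ℂ} (hφ : Test H0 φ) : Test H0 (tr γ m φ) := by
  set K : Set ℂ := UpperHalfPlane.coe '' ((fun z : ℍ => γ • z) ⁻¹'
    (UpperHalfPlane.coe ⁻¹' tsupport φ)) with hKdef
  have hK : IsCompact K := by
    have h1 := Half2.isCompact_pre hφ.cpt.isCompact hφ.sub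
    have h2 : IsCompact ((fun z : ℍ => γ • z) ⁻¹' (UpperHalfPlane.coe ⁻¹' tsupport φ)) := by
      have e : (fun z : ℍ => γ • z) = fun z => io γ • z := funext fun z => (io_smul γ z).symm
      rw [e]
      exact (Homeomorph.smul (io γ)).isCompact_preimage.mpr h1
    exact h2.image UpperHalfPlane.continuous_coe
  have hKH : K ⊆ H0 := by
    rintro _ ⟨z, _, rfl⟩
    exact z.im_pos
  have h0 : ∀ w, w ∉ K → tr γ m φ w = 0 := by
    intro w hw
    by_cases hw0 : 0 < w.im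
    · have e : w = ((⟨w, hw0⟩ : ℍ) : ℂ) := rfl
      rw [e, tr_coe]
      have : φ ((γ • (⟨w, hw0⟩ : ℍ) : ℍ) : ℂ) = 0 := by
        apply image_eq_zero_of_notMem_tsupport
        intro h
        exact hw ⟨⟨w, hw0⟩, h, rfl⟩
      rw [this, zero_mul]
    · unfold tr
      rw [if_neg hw0]
  have hts : tsupport (tr γ m φ) ⊆ K := by
    apply closure_minimal _ hK.isClosed
    intro w hw
    by_contra h
    exact hw (h0 w h)
  refine ⟨?_, hK.of_isClosed_subset (isClosed_tsupport _) hts, hts.trans hKH⟩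
  rw [contDiff_iff_contDiffAt]
  intro w
  by_cases hw : w ∈ H0
  · have hn := den_ne γ hw
    have hn' := den_ne' γ hw
    have c1 : ContDiffAt ℝ ∞ (fun w : ℂ => (γ 1 0 : ℂ) * w + (γ 1 1 : ℂ)) w :=
      (contDiffAt_const.mul contDiffAt_id).add contDiffAt_const
    have c2 : ContDiffAt ℝ ∞ (fun w : ℂ => (γ 1 0 : ℂ) * conj w + (γ 1 1 : ℂ)) w :=
      (contDiffAt_const.mul (contDiff_conj contDiff_id).contDiffAt).add contDiffAt_const
    have c3 : ContDiffAt ℝ ∞ (fun w : ℂ => (γ 0 0 : ℂ) * w + (γ 0 1 : ℂ)) w :=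
      (contDiffAt_const.mul contDiffAt_id).add contDiffAt_const
    have c4 : ContDiffAt ℝ ∞ (fun w : ℂ =>
        φ (((γ 0 0 : ℂ) * w + (γ 0 1 : ℂ)) / ((γ 1 0 : ℂ) * w + (γ 1 1 : ℂ))) *
        (((γ 1 0 : ℂ) * w + (γ 1 1 : ℂ)) / ((γ 1 0 : ℂ) * conj w + (γ 1 1 : ℂ))) ^ m) w := by
      simp only [div_eq_mul_inv]
      have c5 := c3.mul (c1.inv hn)
      have c6 := ContDiffAt.comp (g := φ) w hφ.smooth.contDiffAt c5
      exact c6.mul ((c1.mul (c2.inv hn')).pow m)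
    refine c4.congr_of_eventuallyEq ?_
    filter_upwards [Half.isOpen_H0.mem_nhds hw] with w' hw'
    have hw'' : 0 < w'.im := hw'
    unfold tr
    rw [if_pos hw'']
  · have hw' : w ∉ K := fun h => hw (hKH h)
    have : tr γ m φ =ᶠ[𝓝 w] fun _ => (0 : ℂ) := by
      filter_upwards [hK.isClosed.isOpen_compl.mem_nhds hw'] with w' hw''
      exact h0 w' hw''
    exact contDiffAt_const.congr_of_eventuallyEq this

lemma tr_base (γ : SL(2, ℤ)) (m : ℕ) (φ : ℂ → ℂ) (g : G) :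
    φ (base (io γ * g)) * ze (io γ * g) ^ (-(m : ℤ)) =
      tr γ m φ (base g) * ze g ^ (-(m : ℤ)) := by
  rw [tr_coe, base_mul, io_smul, ze_mul]
  have h0 : (base g : ℂ) ∈ H0 := (base g).im_pos
  have hn := den_ne γ h0
  have hn' := den_ne' γ h0
  have e1 : ((io γ 1 0 : ℝ) : ℂ) = (γ 1 0 : ℂ) := by simp [io]
  have e2 : ((io γ 1 1 : ℝ) : ℂ) = (γ 1 1 : ℂ) := by simp [io]
  rw [e1, e2, mul_zpow, zpow_neg (((γ 1 0 : ℂ) * conj (base g : ℂ) + (γ 1 1 : ℂ)) / _),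
    zpow_natCast, ← inv_pow, inv_div]
  ring

lemma left_neg {f : ℕ → ℍ → ℝ} {t : ℕ → ℝ} (h3 : StmtA3) (hf : HM f t)
    {μ : Measure G} (hM : Md f t μ) (γ : SL(2, ℤ)) (m : ℕ) {φ : ℂ → ℂ}
    (hφ : Test H0 φ) : ∫ g, φ (base (io γ * g)) * ze (io γ * g) ^ (-(m : ℤ)) ∂μ =
      ∫ g, φ (base g) * ze g ^ (-(m : ℤ)) ∂μ := by
  simp_rw [tr_base]
  have t1 := hM m φ hφ
  have t2 := hM m _ (test_tr γ m hφ)
  have t3 := (h3 f t hf γ m φ hφ).mono_left hyper_le
  have t4 := t1.sub t2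
  have : (∫ g, φ (base g) * ze g ^ (-(m : ℤ)) ∂μ) -
      ∫ g, tr γ m φ (base g) * ze g ^ (-(m : ℤ)) ∂μ = 0 := by
    refine tendsto_nhds_unique t4 (t3.congr ?_)
    intro i
    congr 2
    ext z
    rw [tr_coe, mul_assoc]
  exact (sub_eq_zero.mp this).symm

lemma left_all {f : ℕ → ℍ → ℝ} {t : ℕ → ℝ} (h3 : StmtA3) (hf : HM f t)
    {μ : Measure G} (hM : Md f t μ) (γ : SL(2, ℤ)) (n : ℤ) {φ : ℂ → ℂ}
    (hφ : Test H0 φ) : ∫ g, φ (base (io γ * g)) * ze (io γ * g) ^ n ∂μ =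
      ∫ g, φ (base g) * ze g ^ n ∂μ := by
  rcases le_total n 0 with hn | hn
  · obtain ⟨m, hm⟩ := Int.eq_ofNat_of_zero_le (show 0 ≤ -n by omega)
    have : n = -(m : ℤ) := by omega
    rw [this]
    exact left_neg h3 hf hM γ m hφ
  · obtain ⟨m, hm⟩ := Int.eq_ofNat_of_zero_le hn
    have h := left_neg h3 hf hM γ m hφ.conj
    rw [conj_int μ φ n, hm]
    rw [← h, ← integral_conj]
    congr 1
    ext g
    rw [map_mul, Complex.conj_conj, conj_ze_zpow, neg_neg]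

/-! ### The mass -/

def Us : Set ℂ := {w : ℂ | |w.re| < 1 ∧ 1 / 2 < w.im}

lemma isOpen_Us : IsOpen Us :=
  (isOpen_lt Complex.continuous_re.abs continuous_const).inter
    (isOpen_lt continuous_const Complex.continuous_im)

lemma Us_sub : Us ⊆ H0 := fun w hw => by
  have : 1 / 2 < w.im := hw.2
  have h : 0 < w.im := by linarith
  exact h

lemma isClosed_fd : IsClosed ModularGroup.fd := by
  have h1 : IsClosed {z : ℍ | 1 ≤ Complex.normSq (z : ℂ)} :=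
    isClosed_le continuous_const (Complex.continuous_normSq.comp UpperHalfPlane.continuous_coe)
  have h2 : IsClosed {z : ℍ | |z.re| ≤ 1 / 2} :=
    isClosed_le UpperHalfPlane.continuous_re.abs continuous_const
  exact h1.inter h2

lemma fd_sub {z : ℍ} (hz : z ∈ ModularGroup.fd) : (z : ℂ) ∈ Us := by
  have h1 := ModularGroup.three_le_four_mul_im_sq_of_mem_fd hz
  have h2 : |z.re| ≤ 1 / 2 := hz.2
  refine ⟨?_, ?_⟩
  · have : |(z : ℂ).re| = |z.re| := rfl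
    rw [this]
    linarith
  · have h3 := z.im_pos
    have : (z : ℂ).im = z.im := rfl
    rw [this]
    nlinarith

lemma mass_cpt {f : ℕ → ℍ → ℝ} {t : ℕ → ℝ} (hS : StmtSgB) (hf : HM f t)
    {μ : Measure G} [IsFiniteMeasureOnCompacts μ] (hM : Md f t μ) {C : ℝ}
    (hC : ∀ (f : ℍ → ℝ) (t : ℝ), IsHeckeMaass f t →
    ∫⁻ z in {z : ℍ | |z.re| < 1 ∧ 1 / 2 < z.im}, ENNReal.ofReal (f z ^ 2) ≤ ENNReal.ofReal C)
    {K : Set ℍ} (hK : IsCompact K) (hKf : K ⊆ ModularGroup.fd) :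
    μ (base ⁻¹' K) ≤ ENNReal.ofReal (max C 0) := by
  have hK' : IsCompact (UpperHalfPlane.coe '' K) := hK.image UpperHalfPlane.continuous_coe
  have hKU : UpperHalfPlane.coe '' K ⊆ Us := by
    rintro _ ⟨z, hz, rfl⟩
    exact fd_sub (hKf hz)
  obtain ⟨ζ, hζ, h01, hev⟩ := exists_cutoff hK' isOpen_Us hKU
  have h1 : ∀ z ∈ K, ζ (z : ℂ) = 1 := by
    intro z hz
    have : {w : ℂ | ζ w = 1} ∈ 𝓝 (z : ℂ) := (mem_nhdsSet_iff_forall.mp hev) z ⟨z, hz, rfl⟩
    have h2 : (z : ℂ) ∈ {w : ℂ | ζ w = 1} := mem_of_mem_nhds this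
    exact h2
  have hζ' : Test H0 (fun z => (ζ z : ℂ)) :=
    ⟨hζ.toTest.smooth, hζ.toTest.cpt, hζ.toTest.sub.trans Us_sub⟩
  have hcb : Continuous (fun g : G => ζ (base g)) := hζ.smooth.continuous.comp continuous_coe_base
  have hint : Integrable (fun g : G => ζ (base g)) μ := by
    have := (integG (μ := μ) hζ' 0).re
    refine this.congr (Filter.Eventually.of_forall fun g => ?_)
    simp
  -- the integrals over the half-plane
  have hb : ∀ i, ∫ z : ℍ, ζ z * f i z ^ 2 ≤ max C 0 := by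
    intro i
    have hcf : Continuous (f i) := by
      have := Complex.continuous_re.comp (cont_f hS hf i)
      simpa [Function.comp_def] using this
    have hc : Continuous (fun z : ℍ => ζ z * f i z ^ 2) :=
      (hζ.smooth.continuous.comp UpperHalfPlane.continuous_coe).mul (hcf.pow 2)
    have h0 : 0 ≤ᵐ[volume] (fun z : ℍ => ζ z * f i z ^ 2) :=
      Filter.Eventually.of_forall fun z => mul_nonneg (h01 (z : ℂ)).1 (sq_nonneg (f i z))
    rw [integral_eq_lintegral_of_nonneg_ae h0 hc.aestronglyMeasurable]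
    apply ENNReal.toReal_le_of_le_ofReal (le_max_right _ _)
    have hm : MeasurableSet {z : ℍ | |z.re| < 1 ∧ 1 / 2 < z.im} := by
      have : IsOpen {z : ℍ | |z.re| < 1 ∧ 1 / 2 < z.im} :=
        (isOpen_lt UpperHalfPlane.continuous_re.abs continuous_const).inter
          (isOpen_lt continuous_const UpperHalfPlane.continuous_im)
      exact this.measurableSet
    calc ∫⁻ z : ℍ, ENNReal.ofReal (ζ z * f i z ^ 2)
        ≤ ∫⁻ z : ℍ, ({z : ℍ | |z.re| < 1 ∧ 1 / 2 < z.im}).indicator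
            (fun z => ENNReal.ofReal (f i z ^ 2)) z := by
          apply lintegral_mono
          intro z
          by_cases hz : z ∈ {z : ℍ | |z.re| < 1 ∧ 1 / 2 < z.im}
          · rw [indicator_of_mem hz]
            apply ENNReal.ofReal_le_ofReal
            nlinarith [(h01 (z : ℂ)).1, (h01 (z : ℂ)).2, sq_nonneg (f i z)]
          · have : ζ (z : ℂ) = 0 := hζ.eq_zero (V := Us) (fun h => hz h)
            simp only [this, zero_mul, ENNReal.ofReal_zero]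
            exact zero_le
      _ = ∫⁻ z in {z : ℍ | |z.re| < 1 ∧ 1 / 2 < z.im}, ENNReal.ofReal (f i z ^ 2) :=
          lintegral_indicator hm _
      _ ≤ ENNReal.ofReal C := hC (f i) (t i) (hf.form i)
      _ ≤ _ := ENNReal.ofReal_le_ofReal (le_max_left _ _)
  -- the limit
  have hlim := hM 0 _ hζ'
  have e1 : ∀ i, ∫ z : ℍ, (ζ z : ℂ) * (f i z * sg (f i) (t i) 0 z) =
      ((∫ z : ℍ, ζ z * f i z ^ 2 : ℝ) : ℂ) := by
    intro i
    rw [← integral_complex_ofReal]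
    congr 1
    ext z
    rw [sg_zero]
    push_cast
    ring
  have e2 : ∫ g, (ζ (base g) : ℂ) * ze g ^ (-((0 : ℕ) : ℤ)) ∂μ =
      ((∫ g, ζ (base g) ∂μ : ℝ) : ℂ) := by
    rw [← integral_complex_ofReal]
    congr 1
    ext g
    simp
  rw [e2] at hlim
  simp_rw [e1] at hlim
  have hlim' : Tendsto (fun i => ∫ z : ℍ, ζ z * f i z ^ 2) (hyperfilter ℕ : Filter ℕ)
      (𝓝 (∫ g, ζ (base g) ∂μ)) := by
    have := (Complex.continuous_re.tendsto _).comp hlim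
    simpa [Function.comp_def] using this
  have hle : ∫ g, ζ (base g) ∂μ ≤ max C 0 :=
    le_of_tendsto hlim' (Filter.Eventually.of_forall hb)
  calc μ (base ⁻¹' K) = ∫⁻ g in base ⁻¹' K, 1 ∂μ := (setLIntegral_one _).symm
    _ ≤ ∫⁻ g in base ⁻¹' K, ENNReal.ofReal (ζ (base g)) ∂μ := by
        apply setLIntegral_mono' (measurable_base hK.isClosed.measurableSet)
        intro g hg
        rw [h1 (base g) hg, ENNReal.ofReal_one]
    _ ≤ ∫⁻ g, ENNReal.ofReal (ζ (base g)) ∂μ := setLIntegral_le_lintegral _ _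
    _ = ENNReal.ofReal (∫ g, ζ (base g) ∂μ) := by
        rw [ofReal_integral_eq_lintegral_ofReal hint
          (Filter.Eventually.of_forall fun g => (h01 _).1)]
    _ ≤ _ := ENNReal.ofReal_le_ofReal hle

lemma mass_fd {f : ℕ → ℍ → ℝ} {t : ℕ → ℝ} (hLB : StmtLB) (hS : StmtSgB) (hf : HM f t)
    {μ : Measure G} [IsFiniteMeasureOnCompacts μ] (hM : Md f t μ) :
    μ (base ⁻¹' ModularGroup.fd) < ⊤ := by
  obtain ⟨C, hC⟩ := hLB.2.1
  have e : base ⁻¹' ModularGroup.fd = ⋃ n : ℕ, base ⁻¹' (ModularGroup.fd ∩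
      Metric.closedBall UpperHalfPlane.I n) := by
    ext g
    simp only [mem_preimage, mem_iUnion, mem_inter_iff, Metric.mem_closedBall, exists_and_left]
    constructor
    · intro h
      exact ⟨h, exists_nat_ge _⟩
    · exact fun h => h.1
  have hmono : Monotone (fun n : ℕ => base ⁻¹' (ModularGroup.fd ∩
      Metric.closedBall UpperHalfPlane.I n)) := by
    intro m n hmn
    apply preimage_mono
    apply inter_subset_inter_right
    exact Metric.closedBall_subset_closedBall (by exact_mod_cast hmn)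
  rw [e, hmono.measure_iUnion]
  refine lt_of_le_of_lt (iSup_le fun n => ?_) (ENNReal.ofReal_lt_top (r := max C 0))
  exact mass_cpt hS hf hM hC
    ((isCompact_closedBall UpperHalfPlane.I (n : ℝ)).inter_left isClosed_fd) inter_subset_left

end LimM

open LimM in
theorem stmtLim (hLB : StmtLB) (hS : StmtSgB) (h1 : StmtA1) (h2 : StmtA2) (h3 : StmtA3)
    (hL : StmtLift) (hF : StmtFlow) (hLe : StmtLeft) : StmtLim := by
  intro f t hf
  obtain ⟨μ, hfin, hneg, hmode⟩ := hL (fun i k => sg (f i) (t i) k) (hS f t hf).1 (hS f t hf).2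
    (fun k j φ hφ => (h1 f t hf φ hφ).1 k j)
  have hM : Md f t μ := by
    intro n φ hφ
    refine (hmode n φ hφ).congr ?_
    intro i
    congr 1
    ext z
    simp only [sg_zero, Complex.conj_ofReal]
    ring
  refine ⟨μ, ⟨hfin, ?_, ?_, ?_⟩, hM⟩
  · exact hF μ hfin hneg (fun n φ hφ => Xf_all hS h1 h2 hf hM n hφ)
  · intro γ
    exact hLe μ hfin hneg γ (fun n φ hφ => left_all h3 hf hM γ n hφ)
  · exact mass_fd hLB hS hf hM

end

end Pool.Agent.A54.Dyn
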