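import Pool.Agent.Lib.MP_a54f13_nt.Dyn.Spec1
import Pool.Agent.Lib.MP_a54f13_nt.Weak

/-!
Moving derivatives between the factors, for sequences of solutions that are locally bounded in `L²`.
-/

set_option autoImplicit false

namespace Pool.Agent.A54.Dyn

open MeasureTheory Filter Topology Set
open scoped ContDiff ComplexConjugate

noncomputable section

namespace MoveM

open Weak

variable {V : Set ℂ} {q : ℂ → ℝ}

lemma bd_gg (hC : StmtCacc) {h : ℕ → ℝ} {f : ℕ → ℂ → ℝ} (hS : Seq V q h f) (hL : L2Bdd V f)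
    (n : ℕ) : Bd V (fun i z => ‖gg (h i) (f i) n z‖) := by
  refine ⟨fun i => (contDiff_gg (hS.sol i).smooth (h i) n).continuous.norm, fun ζ hζ => ?_⟩
  obtain ⟨ζ', C, hζ', hC0, hb⟩ := hC V q hS.pot n ζ hζ
  obtain ⟨M, hM⟩ := hL ζ' hζ'
  refine ⟨C * M, fun i => ?_⟩
  have h1 := hb (h i) (f i) (fun _ => 1) (hS.sol i) contDiff_const (fun _ => one_pos)
    (fun z => by simp)
  simp only [one_pow, mul_one] at h1
  exact h1.trans (mul_le_mul_of_nonneg_left (hM i) hC0)

lemma bd_sm (hC : StmtCacc) {h : ℕ → ℝ} {f : ℕ → ℂ → ℝ} (hS : Seq V q h f) (hL : L2Bdd V f) (n : ℕ) :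
    Bd V (fun i z => sm (h i) (f i) n z) := by
  induction n with
  | zero =>
    have : (fun (i : ℕ) z => sm (h i) (f i) 0 z) = fun i z => ‖gg (h i) (f i) 0 z‖ := by
      funext i z; simp [sm]
    rw [this]
    exact bd_gg hC hS hL 0
  | succ n ih =>
    have : (fun (i : ℕ) z => sm (h i) (f i) (n + 1) z) =
        fun i z => sm (h i) (f i) n z + ‖gg (h i) (f i) (n + 1) z‖ := by
      funext i z; simp only [sm]; rw [Finset.sum_range_succ _ (n + 1)]
    rw [this]
    exact ih.add (bd_gg hC hS hL (n + 1))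

lemma bd_ss (hC : StmtCacc) {h : ℕ → ℝ} {f : ℕ → ℂ → ℝ} (hS : Seq V q h f) (hL : L2Bdd V f) (a : ℤ) :
    Bd V (fun i z => ‖ss q (h i) (f i) a z‖) := by
  refine ⟨fun i => (contDiff_ss hS.pot (hS.sol i).smooth (h i) a).continuous.norm,
    fun ζ hζ => ?_⟩
  cases a with
  | ofNat n => exact (bd_gg hC hS hL n).2 ζ hζ
  | negSucc n =>
    obtain ⟨C, h1⟩ := (bd_gg hC hS hL (n + 1)).2 _ (hζ.mul_right (contDiff_qinv hS.pot (n + 1)))
    refine ⟨C, fun i => le_of_eq_of_le ?_ (h1 i)⟩
    congr 1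
    funext z
    have hq := hS.pot.pos z
    simp only
    rw [ss_neg, norm_mul, norm_mul, norm_pow, norm_neg, norm_one, one_pow, one_mul,
      RCLike.norm_conj, Complex.norm_real, Real.norm_of_nonneg (by positivity)]
    ring

/-- one step: moving `h ∂` from one factor to the other one -/
lemma step (hZ : StmtErrZ) (hC : StmtCacc) {h : ℕ → ℝ} {f : ℕ → ℂ → ℝ} (hS : Seq V q h f) (hL : L2Bdd V f)
    (a b : ℤ) {φ : ℂ → ℂ} (hφ : Test V φ) :
    Tendsto (fun i => (∫ z, φ z * (ss q (h i) (f i) (a + 1) z * ss q (h i) (f i) b z)) +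
      ∫ z, φ z * (ss q (h i) (f i) a z * ss q (h i) (f i) (b + 1) z)) atTop (𝓝 0) := by
  have hV := hS.pot.isOpen
  obtain ⟨Ca, hCa, ha⟩ := hZ V q hS.pot a _ hφ.cpt hφ.sub
  obtain ⟨Cb, hCb, hb⟩ := hZ V q hS.pot b _ hφ.cpt hφ.sub
  obtain ⟨M1, hM1⟩ := (bd_sm hC hS hL (a.natAbs + 1)).prod (bd_ss hC hS hL b) hV hφ
  obtain ⟨M2, hM2⟩ := (bd_ss hC hS hL a).prod (bd_sm hC hS hL (b.natAbs + 1)) hV hφ
  obtain ⟨M3, hM3⟩ := (bd_ss hC hS hL a).prod (bd_ss hC hS hL b) hV hφ.dz
  have hlim : Tendsto (fun i => h i * (Ca * M1 + Cb * M2 + M3)) atTop (𝓝 0) := by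
    simpa using hS.lim.mul_const (Ca * M1 + Cb * M2 + M3)
  refine squeeze_zero_norm (fun i => ?_) hlim
  have hh : 0 < h i := (hS.sol i).hpos
  have sA : ∀ c, ContDiff ℝ ∞ (ss q (h i) (f i) c) := fun c =>
    contDiff_ss hS.pot (hS.sol i).smooth (h i) c
  set s := ss q (h i) (f i) with hs
  have hsm0 : ∀ n z, 0 ≤ sm (h i) (f i) n z := fun n z =>
    Finset.sum_nonneg fun _ _ => norm_nonneg _
  have hsmc : ∀ n, Continuous (sm (h i) (f i) n) := fun n => (bd_sm hC hS hL n).1 i
  have ic : ∀ {g : ℂ → ℂ}, Continuous g → Integrable (fun z => φ z * g z) := fun hg =>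
    integrable_of_cpt (hφ.smooth.continuous.mul hg) hφ.cpt.mul_right
  -- the main identity
  have e0 : (∫ z, φ z * (s (a + 1) z * s b z)) + ∫ z, φ z * (s a z * s (b + 1) z) =
      (h i : ℂ) * (∫ z, φ z * dz (fun w => s a w * s b w) z) -
      ∫ z, φ z * (((h i : ℂ) * dz (s a) z - s (a + 1) z) * s b z +
        s a z * ((h i : ℂ) * dz (s b) z - s (b + 1) z)) := by
    have c1 := (sA a).continuous
    have c2 := (sA b).continuous
    have c3 := (sA (a + 1)).continuous
    have c4 := (sA (b + 1)).continuous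
    have c5 := (contDiff_dz (sA a)).continuous
    have c6 := (contDiff_dz (sA b)).continuous
    have c7 := (contDiff_dz ((sA a).mul (sA b))).continuous
    have j1 : Integrable (fun z => φ z * (s (a + 1) z * s b z)) := ic (c3.mul c2)
    have j2 : Integrable (fun z => φ z * (s a z * s (b + 1) z)) := ic (c1.mul c4)
    have j3 : Integrable (fun z => (h i : ℂ) * (φ z * dz (fun w => s a w * s b w) z)) :=
      (ic c7).const_mul _
    have j4 : Integrable (fun z => φ z * (((h i : ℂ) * dz (s a) z - s (a + 1) z) * s b z +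
        s a z * ((h i : ℂ) * dz (s b) z - s (b + 1) z))) :=
      ic (((continuous_const.mul c5).sub c3).mul c2 |>.add
          (c1.mul ((continuous_const.mul c6).sub c4)))
    rw [← integral_const_mul, ← integral_add j1 j2, ← integral_sub j3 j4]
    congr 1
    funext z
    rw [dz_mul (sA a) (sA b)]
    ring
  rw [e0, integral_mul_dz hφ.smooth ((sA a).mul (sA b)) (Or.inl hφ.cpt)]
  have n1 : ‖∫ z, dz φ z * (s a z * s b z)‖ ≤ M3 := by
    refine (norm_integral_le_integral_norm _).trans (le_of_eq_of_le ?_ (hM3 i))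
    congr 1
    funext z
    rw [norm_mul, norm_mul, abs_norm, abs_norm]
  have n2 : ‖∫ z, φ z * (((h i : ℂ) * dz (s a) z - s (a + 1) z) * s b z +
        s a z * ((h i : ℂ) * dz (s b) z - s (b + 1) z))‖ ≤ h i * (Ca * M1 + Cb * M2) := by
    refine (norm_integral_le_integral_norm _).trans ?_
    have i1 : Integrable (fun z => ‖φ z‖ *
        (|sm (h i) (f i) (a.natAbs + 1) z| * |‖s b z‖|)) := by
      apply (hφ.smooth.continuous.norm.mul
        ((hsmc _).abs.mul (sA b).continuous.norm.abs)).integrable_of_hasCompactSupport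
      have hc : HasCompactSupport (fun z => ‖φ z‖) := hφ.cpt.norm
      exact hc.mul_right
    have i2 : Integrable (fun z => ‖φ z‖ *
        (|‖s a z‖| * |sm (h i) (f i) (b.natAbs + 1) z|)) := by
      apply (hφ.smooth.continuous.norm.mul
        ((sA a).continuous.norm.abs.mul (hsmc _).abs)).integrable_of_hasCompactSupport
      have hc : HasCompactSupport (fun z => ‖φ z‖) := hφ.cpt.norm
      exact hc.mul_right
    have e1 : ∫ z, ‖φ z * (((h i : ℂ) * dz (s a) z - s (a + 1) z) * s b z +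
        s a z * ((h i : ℂ) * dz (s b) z - s (b + 1) z))‖ ≤
        ∫ z, (h i * Ca * (‖φ z‖ * (|sm (h i) (f i) (a.natAbs + 1) z| * |‖s b z‖|)) +
          h i * Cb * (‖φ z‖ * (|‖s a z‖| * |sm (h i) (f i) (b.natAbs + 1) z|))) := by
      have c1 := (sA a).continuous
      have c2 := (sA b).continuous
      have c3 := (sA (a + 1)).continuous
      have c4 := (sA (b + 1)).continuous
      have c5 := (contDiff_dz (sA a)).continuous
      have c6 := (contDiff_dz (sA b)).continuous
      refine integral_mono (ic (((continuous_const.mul c5).sub c3).mul c2 |>.add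
          (c1.mul ((continuous_const.mul c6).sub c4)))).norm
          ((i1.const_mul _).add (i2.const_mul _)) fun z => ?_
      simp only [abs_norm, abs_of_nonneg (hsm0 _ _)]
      rw [norm_mul]
      by_cases hz : z ∈ tsupport φ
      · have ha' := (ha (h i) (f i) (hS.sol i) z hz).1
        have hb' := (hb (h i) (f i) (hS.sol i) z hz).1
        have t1 : ‖((h i : ℂ) * dz (s a) z - s (a + 1) z) * s b z +
            s a z * ((h i : ℂ) * dz (s b) z - s (b + 1) z)‖ ≤
            h i * (Ca * sm (h i) (f i) (a.natAbs + 1) z) * ‖s b z‖ +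
            ‖s a z‖ * (h i * (Cb * sm (h i) (f i) (b.natAbs + 1) z)) := by
          refine (norm_add_le _ _).trans ?_
          rw [norm_mul, norm_mul]
          exact add_le_add (mul_le_mul_of_nonneg_right ha' (norm_nonneg _))
            (mul_le_mul_of_nonneg_left hb' (norm_nonneg _))
        calc _ ≤ ‖φ z‖ * (h i * (Ca * sm (h i) (f i) (a.natAbs + 1) z) * ‖s b z‖ +
            ‖s a z‖ * (h i * (Cb * sm (h i) (f i) (b.natAbs + 1) z))) :=
              mul_le_mul_of_nonneg_left t1 (norm_nonneg _)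
          _ = _ := by ring
      · have : φ z = 0 := image_eq_zero_of_notMem_tsupport hz
        simp [this]
    refine e1.trans ?_
    rw [integral_add (i1.const_mul _) (i2.const_mul _), integral_const_mul, integral_const_mul]
    have t1 := mul_le_mul_of_nonneg_left (hM1 i) (mul_nonneg hh.le hCa)
    have t2 := mul_le_mul_of_nonneg_left (hM2 i) (mul_nonneg hh.le hCb)
    calc _ ≤ h i * Ca * M1 + h i * Cb * M2 := add_le_add t1 t2
      _ = _ := by ring
  refine (norm_sub_le _ _).trans ?_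
  rw [norm_mul, norm_neg, Complex.norm_real, Real.norm_of_nonneg hh.le]
  have := mul_le_mul_of_nonneg_left n1 hh.le
  calc _ ≤ h i * M3 + h i * (Ca * M1 + Cb * M2) := add_le_add this n2
    _ = _ := by ring

end MoveM

theorem stmtMove (hZ : StmtErrZ) (hC : StmtCacc) : StmtMove := by
  intro V q h f hS hL
  refine ⟨fun a b φ hφ => MoveM.step hZ hC hS hL a b hφ, fun n ζ hζ => ?_⟩
  exact (MoveM.bd_gg hC hS hL n).2 ζ hζ

end

end Pool.Agent.A54.Dyn
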