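import Pool.Agent.Lib.MP_a54f13_nt.Dyn.Spec

/-!
Fubini for good points.
-/

set_option autoImplicit false

namespace Pool.Agent.A54.Dyn.N3M

open MeasureTheory Filter Topology Set
open scoped ComplexConjugate UpperHalfPlane MatrixGroups ENNReal

noncomputable section

/-- truncation to `[-1/2, 1/2]` -/
def cl (x : ℝ) : ℝ := max (-(1 / 2)) (min x (1 / 2))

lemma continuous_cl : Continuous cl := continuous_const.max (continuous_id.min continuous_const)

lemma abs_cl (x : ℝ) : |cl x| ≤ 1 / 2 := by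
  unfold cl
  rw [abs_le]
  exact ⟨le_max_left _ _, max_le (by norm_num) (min_le_right _ _)⟩

lemma cl_eq {x : ℝ} (hx : |x| ≤ 1 / 2) : cl x = x := by
  unfold cl
  have h := abs_le.mp hx
  rw [min_eq_left h.2, max_eq_right h.1]

lemma mul_lt_one' {a b : ℝ} (ha : |a| ≤ 1 / 2) (hb : |b| ≤ 1 / 2) : a * b < 1 := by
  have h1 : |a| * |b| ≤ 1 / 2 * (1 / 2) := mul_le_mul ha hb (abs_nonneg _) (by norm_num)
  have h2 := le_abs_self (a * b)
  rw [abs_mul] at h2
  linarith

/-- the element with given coordinates, extended to all values of the coordinates -/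
def chT (x : (ℝ × ℝ) × ℝ) : G :=
  ch (cl x.1.1, cl x.1.2) x.2 (mul_lt_one' (abs_cl _) (abs_cl _))

lemma continuous_chT : Continuous chT := by
  have h1 : Continuous fun x : (ℝ × ℝ) × ℝ => cl x.1.1 :=
    continuous_cl.comp (continuous_fst.comp continuous_fst)
  have h2 : Continuous fun x : (ℝ × ℝ) × ℝ => cl x.1.2 :=
    continuous_cl.comp (continuous_snd.comp continuous_fst)
  have h3 : Continuous fun x : (ℝ × ℝ) × ℝ => Real.sqrt (1 - cl x.1.1 * cl x.1.2) :=
    Real.continuous_sqrt.comp (continuous_const.sub (h1.mul h2))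
  have h4 : ∀ x : (ℝ × ℝ) × ℝ, Real.sqrt (1 - cl x.1.1 * cl x.1.2) ≠ 0 := fun x =>
    (Real.sqrt_pos.mpr (by have := mul_lt_one' (abs_cl x.1.1) (abs_cl x.1.2); linarith)).ne'
  have h5 : Continuous fun x : (ℝ × ℝ) × ℝ => Real.exp (x.2 / 2) :=
    Real.continuous_exp.comp (continuous_snd.div_const 2)
  have h6 : Continuous fun x : (ℝ × ℝ) × ℝ => Real.exp (-x.2 / 2) :=
    Real.continuous_exp.comp (continuous_snd.neg.div_const 2)
  apply continuous_induced_rng.mpr
  apply continuous_matrix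
  intro i j
  fin_cases i <;> fin_cases j
  · exact h5.div h3 h4
  · exact h1.mul (h6.div h3 h4)
  · exact h2.mul (h5.div h3 h4)
  · exact h6.div h3 h4

lemma measurable_entry (i j : Fin 2) : Measurable (fun g : G => g i j) :=
  (continuous_entry i j).measurable

lemma measurableSet_Sq2 (L : ℝ) : MeasurableSet (Sq2 L) :=
  ((isOpen_lt (continuous_abs.comp continuous_fst) continuous_const).inter
    (isOpen_lt (continuous_abs.comp continuous_snd) continuous_const)).measurableSet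

end

end Pool.Agent.A54.Dyn.N3M

namespace Pool.Agent.A54.Dyn

open MeasureTheory Set N3M

theorem stmtN3 (hP : StmtProd) : StmtN3 := by
  intro μ hμ w L r 𝒜 hr hL hLr h𝒜
  have hfun : Measurable (fun x : (ℝ × ℝ) × ℝ => w * chT x) :=
    (continuous_const.mul continuous_chT).measurable
  set S : Set ((ℝ × ℝ) × ℝ) := {x | x.1 ∈ Sq2 (L * r) ∧ |x.2| < r ∧ w * chT x ∉ 𝒜} with hSdef
  have hS : MeasurableSet S := by
    refine (measurable_fst (measurableSet_Sq2 _)).inter (MeasurableSet.inter ?_ ?_)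
    · exact (isOpen_lt (continuous_abs.comp continuous_snd) continuous_const).measurableSet
    · exact hfun h𝒜.compl
  have hcl : ∀ p ∈ Sq2 (L * r), |p.1| ≤ 1 / 2 ∧ |p.2| ≤ 1 / 2 := fun p hp =>
    ⟨(hp.1.trans_le hLr).le, (hp.2.trans_le hLr).le⟩
  have hch : ∀ p ∈ Sq2 (L * r), ∀ u : ℝ, chT (p, u) ∈ dom ∧ cP (chT (p, u)) = p ∧
      cU (chT (p, u)) = u := by
    intro p hp u
    refine ⟨ch_mem, ?_, cU_ch⟩
    have e1 : cX (chT (p, u)) = cl p.1 := cX_ch
    have e2 : cY (chT (p, u)) = cl p.2 := cY_ch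
    unfold cP
    rw [e1, e2, cl_eq (hcl p hp).1, cl_eq (hcl p hp).2]
  have hset : {v | w⁻¹ * v ∈ Bx (L * r) r} \ 𝒜 =
      {g | w⁻¹ * g ∈ dom ∧ (cP (w⁻¹ * g), cU (w⁻¹ * g)) ∈ S} := by
    have key : ∀ g : G, w⁻¹ * g ∈ dom → cP (w⁻¹ * g) ∈ Sq2 (L * r) →
        w * chT (cP (w⁻¹ * g), cU (w⁻¹ * g)) = g := by
      intro g h1 h2
      obtain ⟨h3, h4, h5⟩ := hch _ h2 (cU (w⁻¹ * g))
      have h6 : chT (cP (w⁻¹ * g), cU (w⁻¹ * g)) = w⁻¹ * g := by
        refine dom_ext h3 h1 ?_ ?_ h5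
        · exact congrArg Prod.fst h4
        · exact congrArg Prod.snd h4
      rw [h6, mul_inv_cancel_left]
    ext g
    constructor
    · rintro ⟨⟨h1, h2, h3⟩, h4⟩
      refine ⟨h1, h2, h3, ?_⟩
      rw [key g h1 h2]
      exact h4
    · rintro ⟨h1, h2, h3, h4⟩
      refine ⟨⟨h1, h2, h3⟩, ?_⟩
      rw [key g h1 h2] at h4
      exact h4
  have hS2 : ∀ p ∈ S, p.1 ∈ Sc (1 / 2) := fun p hp => hcl _ hp.1
  have hmeas := hP μ hμ w S hS hS2
  have hm : Measurable (fun p : ℝ × ℝ => volume (Prod.mk p ⁻¹' S)) :=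
    measurable_measure_prodMk_left hS
  refine ⟨{p | p ∈ Sq2 (L * r) ∧ ENNReal.ofReal (2 * r) ≤ volume (Prod.mk p ⁻¹' S)},
    (measurableSet_Sq2 _).inter (hm measurableSet_Ici), fun p hp => hp.1, ?_, ?_⟩
  · rw [hset, hmeas, Measure.prod_apply hS]
    refine le_trans ?_ (mul_meas_ge_le_lintegral hm (ENNReal.ofReal (2 * r)))
    gcongr
    exact fun h => h.2
  · rintro p ⟨hp1, hp2⟩
    have h1 : volume (Prod.mk p ⁻¹' S) < ENNReal.ofReal (2 * r) := by
      by_contra h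
      exact hp2 ⟨hp1, not_lt.mp h⟩
    have h2 : ∃ u : ℝ, |u| < r ∧ u ∉ Prod.mk p ⁻¹' S := by
      by_contra h
      push Not at h
      have h3 : Ioo (-r) r ⊆ Prod.mk p ⁻¹' S := fun u hu => h u (abs_lt.mpr hu)
      have h4 := measure_mono (μ := volume) h3
      rw [Real.volume_Ioo, show r - -r = 2 * r by ring] at h4
      exact absurd h1 (not_lt.mpr h4)
    obtain ⟨u, hu1, hu2⟩ := h2
    obtain ⟨h3, h4, h5⟩ := hch p hp1 u
    have h6 : w * chT (p, u) ∈ 𝒜 := by
      by_contra h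
      exact hu2 ⟨hp1, hu1, h⟩
    refine ⟨w * chT (p, u), h6, ?_, ?_, ?_⟩
    · rw [inv_mul_cancel_left]; exact h3
    · rw [inv_mul_cancel_left]; exact h4
    · rw [inv_mul_cancel_left, h5]; exact hu1

end Pool.Agent.A54.Dyn
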