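import Pool.Agent.Lib.MP_a54f13_nt.Dyn.Spec

/-!
No atoms over arbitrary open sets: cover by the translates of the open fundamental domain.
-/

set_option autoImplicit false

namespace Pool.Agent.A54.Dyn.NAM

open MeasureTheory Filter Topology Set
open scoped ComplexConjugate UpperHalfPlane MatrixGroups ENNReal NNReal Modular Pointwise

noncomputable section

/-- the translates of the open fundamental domain -/
def W (γ : SL(2, ℤ)) : Set ℍ := {z | γ • z ∈ ModularGroup.fdo}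

instance instCount : Countable SL(2, ℤ) :=
  have : Countable (Matrix (Fin 2) (Fin 2) ℤ) :=
    inferInstanceAs (Countable (Fin 2 → Fin 2 → ℤ))
  Subtype.countable

lemma isOpen_W (γ : SL(2, ℤ)) : IsOpen (W γ) := by
  have h : Continuous fun z : ℍ => γ • z :=
    continuous_const_smul (γ : GL (Fin 2) ℝ)
  exact ModularGroup.isOpen_fdo.preimage h

lemma inj_W (γ g : SL(2, ℤ)) (z : ℍ) (hz : z ∈ W γ) (hg : g • z ∈ W γ) : g = 1 ∨ g = -1 := by
  have hz' : γ • z ∈ ModularGroup.fdo := hz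
  have hg' : γ • g • z ∈ ModularGroup.fdo := hg
  have h1 : (γ * g * γ⁻¹) • (γ • z) = γ • g • z := by
    simp only [mul_smul, inv_smul_smul]
  rw [← h1] at hg'
  rcases ModularGroup.eq_one_or_neg_one_of_mem_fdo_mem_fdo hz' hg' with h | h
  · left
    have h2 : g = γ⁻¹ * (γ * g * γ⁻¹) * γ := by group
    rw [h2, h]
    group
  · right
    have h2 : g = γ⁻¹ * (γ * g * γ⁻¹) * γ := by group
    rw [h2, h]
    simp

/-- the exceptional set -/
def N0 : Set ℍ := {z | z.re = 1 / 2} ∪ {z | z.re = -(1 / 2)} ∪ {z | ‖(z : ℂ)‖ = 1}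

lemma vol_null (S : Set ℍ) (hS : volume (UpperHalfPlane.coe '' S) = 0) : volume S = 0 := by
  rw [UpperHalfPlane.volume_eq_lintegral]
  exact setLIntegral_measure_zero _ _ hS

lemma vol_re (c : ℝ) : volume {z : ℍ | z.re = c} = 0 := by
  apply vol_null
  have h1 : UpperHalfPlane.coe '' {z : ℍ | z.re = c} ⊆
      Complex.measurableEquivRealProd ⁻¹' ({c} ×ˢ univ) := by
    rintro _ ⟨z, hz, rfl⟩
    exact ⟨hz, trivial⟩
  refine measure_mono_null h1 ?_
  rw [Complex.volume_preserving_equiv_real_prod.measure_preimage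
    ((measurableSet_singleton c).prod MeasurableSet.univ).nullMeasurableSet,
    Measure.volume_eq_prod, Measure.prod_prod]
  simp

lemma vol_sphere : volume {z : ℍ | ‖(z : ℂ)‖ = 1} = 0 := by
  apply vol_null
  have h1 : UpperHalfPlane.coe '' {z : ℍ | ‖(z : ℂ)‖ = 1} ⊆ Metric.sphere (0 : ℂ) 1 := by
    rintro _ ⟨z, hz, rfl⟩
    simpa using hz
  exact measure_mono_null h1 (Measure.addHaar_sphere _ _ _)

lemma vol_N0 : volume N0 = 0 :=
  measure_union_null (measure_union_null (vol_re _) (vol_re _)) vol_sphere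

lemma fd_diff {z : ℍ} (hz : z ∈ ModularGroup.fd) (hz' : z ∉ ModularGroup.fdo) : z ∈ N0 := by
  obtain ⟨h1, h2⟩ := hz
  by_contra hN
  apply hz'
  unfold N0 at hN
  simp only [mem_union, mem_ofPred_eq, not_or] at hN
  obtain ⟨⟨h3, h4⟩, h5⟩ := hN
  refine ⟨?_, ?_⟩
  · rcases lt_or_eq_of_le h1 with h | h
    · exact h
    · exfalso
      apply h5
      rw [Complex.normSq_eq_norm_sq] at h
      have h6 : ‖(z : ℂ)‖ ^ 2 = 1 := h.symm
      have h7 := norm_nonneg (z : ℂ)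
      nlinarith
  · rcases lt_or_eq_of_le h2 with h | h
    · exact h
    · exfalso
      rcases abs_eq (by norm_num : (0 : ℝ) ≤ 1 / 2) |>.mp h with h' | h'
      · exact h3 h'
      · exact h4 h'

lemma vol_smul (γ : SL(2, ℤ)) (S : Set ℍ) (hS : volume S = 0) :
    volume {z : ℍ | γ • z ∈ S} = 0 := by
  have h1 : {z : ℍ | γ • z ∈ S} = {z : ℍ | (γ : GL (Fin 2) ℝ) • z ∈ S} := rfl
  rw [h1]
  have := measure_preimage_smul_null (μ := (volume : Measure ℍ)) hS (γ : GL (Fin 2) ℝ)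
  exact this

lemma vol_compl : volume ((⋃ γ : SL(2, ℤ), W γ)ᶜ) = 0 := by
  have h1 : (⋃ γ : SL(2, ℤ), W γ)ᶜ ⊆ ⋃ γ : SL(2, ℤ), {z : ℍ | γ • z ∈ N0} := by
    intro z hz
    obtain ⟨γ, hγ⟩ := ModularGroup.exists_smul_mem_fd z
    refine mem_iUnion.mpr ⟨γ, fd_diff hγ fun h => hz (mem_iUnion.mpr ⟨γ, h⟩)⟩
  refine measure_mono_null h1 ?_
  rw [measure_iUnion_null_iff]
  intro γ
  exact vol_smul γ N0 vol_N0

lemma mod_inter {V : Set ℍ} {ρ : ℤ → ℍ → ℂ} {μ : Measure G} (h : Mod V ρ μ) {U : Set ℍ}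
    (hU : IsOpen U) : Mod (V ∩ U) ρ μ where
  isOpen := h.isOpen.inter hU
  meas := h.meas
  loc n K hK hKV := h.loc n K hK (hKV.trans inter_subset_left)
  mode n φ hφ := h.mode n φ ⟨hφ.smooth, hφ.cpt, hφ.sub.trans (image_mono inter_subset_left)⟩

lemma ae_zero (hE : StmtExt) (hZ : StmtZero) {V : Set ℍ} {ρ : ℤ → ℍ → ℂ} {μ : Measure G}
    (hI : Inv μ) (hM : Mod V ρ μ) : ∀ᵐ v ∂(μ.restrict (base ⁻¹' V)), aa ρ v = 0 := by
  have hext := hE V ρ μ hI hM
  have hVm : MeasurableSet V := hM.isOpen.measurableSet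
  have h1 : ∀ γ : SL(2, ℤ), ∀ᵐ v ∂(μ.restrict (base ⁻¹' (V ∩ W γ))), aa ρ v = 0 := by
    intro γ
    apply hZ (V ∩ W γ) ρ μ hI (mod_inter hM (isOpen_W γ))
    intro g z hz hg
    exact inj_W γ g z hz.2 hg.2
  have h2 : ∀ᵐ v ∂(μ.restrict (⋃ γ : SL(2, ℤ), base ⁻¹' (V ∩ W γ))), aa ρ v = 0 := by
    rw [ae_restrict_iUnion_iff]
    exact h1
  set N : Set ℍ := V ∩ (⋃ γ : SL(2, ℤ), W γ)ᶜ with hN
  have hNm : MeasurableSet N :=
    hVm.inter (MeasurableSet.iUnion fun γ => (isOpen_W γ).measurableSet).compl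
  have h3 : μ (base ⁻¹' N) = 0 := by
    rw [hext.proj N hNm inter_subset_left]
    apply setLIntegral_measure_zero
    exact measure_mono_null inter_subset_right vol_compl
  have h4 : ∀ᵐ v ∂(μ.restrict (base ⁻¹' N)), aa ρ v = 0 := by
    rw [Measure.restrict_eq_zero.mpr h3]
    simp
  have h5 : base ⁻¹' V = (⋃ γ : SL(2, ℤ), base ⁻¹' (V ∩ W γ)) ∪ base ⁻¹' N := by
    ext v
    simp only [hN, mem_preimage, mem_union, mem_iUnion, mem_inter_iff, mem_compl_iff, not_exists]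
    constructor
    · intro hv
      by_cases h : ∃ γ : SL(2, ℤ), base v ∈ W γ
      · obtain ⟨γ, hγ⟩ := h
        exact Or.inl ⟨γ, hv, hγ⟩
      · exact Or.inr ⟨hv, not_exists.mp h⟩
    · rintro (⟨γ, hv, -⟩ | ⟨hv, -⟩) <;> exact hv
  rw [h5, ae_restrict_union_iff]
  exact ⟨h2, h4⟩

end

end Pool.Agent.A54.Dyn.NAM

namespace Pool.Agent.A54.Dyn

theorem stmtNA (hE : StmtExt) (hZ : StmtZero) (hC : StmtCes) : StmtNA :=
  fun V ρ μ hI hM => hC V ρ μ hI hM (NAM.ae_zero hE hZ hI hM)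

end Pool.Agent.A54.Dyn
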