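import Pool.Agent.Lib.MP_a54f13_nt.Dyn.Spec1

/-!
MP_a54f13_nt: `StmtNAf`, the conclusion for sequences of Hecke-Maass forms in the flat setting.
-/

set_option autoImplicit false

namespace Pool.Agent.A54.Dyn.NAfM

open MeasureTheory Filter Topology Set
open scoped ComplexConjugate UpperHalfPlane MatrixGroups ENNReal NNReal ContDiff
open Pool.Agent.A54.Half (H0 qq ff hh)

noncomputable section

/-- on compact sets the invariant measure is bounded by Lebesgue measure -/
lemma restrict_ge {K : Set ℍ} (hK : IsCompact K) :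
    ∃ c : ℝ≥0∞, c ≠ ⊤ ∧ (volume : Measure ℍ).restrict K ≤
      c • ((volume : Measure ℂ).comap UpperHalfPlane.coe).restrict K := by
  have hcont : ContinuousOn (fun z : ℍ => (1 / z.im) ^ 2) K := by
    refine ContinuousOn.pow (ContinuousOn.div continuousOn_const ?_ ?_) 2
    · exact UpperHalfPlane.continuous_im.continuousOn
    · intro z _
      exact z.im_pos.ne'
  obtain ⟨B, hB⟩ := hK.bddAbove_image hcont
  have hB' : ∀ z ∈ K, (1 / z.im) ^ 2 ≤ max B 0 := fun z hz =>
    (hB (mem_image_of_mem _ hz)).trans (le_max_left _ _)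
  set b : ℝ≥0 := ⟨max B 0, le_max_right _ _⟩ with hb
  refine ⟨(b : ℝ≥0∞), ENNReal.coe_ne_top, ?_⟩
  rw [Measure.le_iff]
  intro s hs
  have hKm : MeasurableSet K := hK.isClosed.measurableSet
  have hsK : MeasurableSet (s ∩ K) := hs.inter hKm
  rw [Measure.restrict_apply hs, Measure.smul_apply, Measure.restrict_apply hs, smul_eq_mul,
    UpperHalfPlane.volume_def, withDensity_apply _ hsK]
  have h1 : (b : ℝ≥0∞) * ((volume : Measure ℂ).comap UpperHalfPlane.coe) (s ∩ K) =
      ∫⁻ _z in s ∩ K, (b : ℝ≥0∞) ∂((volume : Measure ℂ).comap UpperHalfPlane.coe) := by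
    rw [setLIntegral_const]
  rw [h1]
  refine setLIntegral_mono' hsK ?_
  intro z hz
  rw [ENNReal.coe_le_coe, ← NNReal.coe_le_coe]
  push_cast
  exact hB' z hz.2

/-- square integrability on compact sets of the half-plane -/
lemma memLp {V : Set ℂ} {r : ℂ → ℂ} (hr : L2loc V r) (n : ℕ) {K : Set ℍ}
    (hK : IsCompact K) (hKV : K ⊆ UpperHalfPlane.coe ⁻¹' V) :
    MemLp (fun z : ℍ => (z.im : ℂ) ^ n * r z) 2 (volume.restrict K) := by
  have hK' : IsCompact (UpperHalfPlane.coe '' K) := hK.image UpperHalfPlane.continuous_coe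
  have hKV' : UpperHalfPlane.coe '' K ⊆ V := by
    rintro _ ⟨z, hz, rfl⟩
    exact hKV hz
  have h1 := hr _ hK' hKV'
  have hpre : UpperHalfPlane.coe ⁻¹' (UpperHalfPlane.coe '' K) = K :=
    preimage_image_eq K UpperHalfPlane.isOpenEmbedding_coe.injective
  have e : (volume : Measure ℂ).restrict (UpperHalfPlane.coe '' K) = Measure.map UpperHalfPlane.coe
      (((volume : Measure ℂ).comap UpperHalfPlane.coe).restrict K) := by
    have h2 := UpperHalfPlane.measurableEmbedding_coe.restrict_map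
      ((volume : Measure ℂ).comap UpperHalfPlane.coe) (UpperHalfPlane.coe '' K)
    rw [hpre] at h2
    rw [← h2, UpperHalfPlane.measurableEmbedding_coe.map_comap,
      Measure.restrict_restrict hK'.measurableSet, inter_eq_left.mpr]
    exact image_subset_range _ _
  rw [e, UpperHalfPlane.measurableEmbedding_coe.memLp_map_measure_iff] at h1
  obtain ⟨c, hc, hle⟩ := restrict_ge hK
  have h2 : MemLp (r ∘ UpperHalfPlane.coe) 2 ((volume : Measure ℍ).restrict K) :=
    h1.of_measure_le_smul hc hle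
  have hcont : ContinuousOn (fun z : ℍ => (z.im : ℂ) ^ n) K :=
    ((Complex.continuous_ofReal.comp UpperHalfPlane.continuous_im).pow n).continuousOn
  obtain ⟨C, hC⟩ := hK.exists_bound_of_continuousOn hcont
  have hm : Measurable (fun z : ℍ => (z.im : ℂ) ^ n) :=
    ((Complex.continuous_ofReal.comp UpperHalfPlane.continuous_im).pow n).measurable
  refine h2.of_le_mul (c := C) (hm.aestronglyMeasurable.mul h2.1) ?_
  refine ae_restrict_of_forall_mem hK.isClosed.measurableSet ?_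
  intro z hz
  rw [norm_mul]
  exact mul_le_mul_of_nonneg_right (hC z hz) (norm_nonneg _)

lemma image_pre {V : Set ℂ} (hVH : V ⊆ H0) :
    UpperHalfPlane.coe '' (UpperHalfPlane.coe ⁻¹' V) = V := by
  rw [image_preimage_eq_inter_range, inter_eq_left]
  intro z hz
  exact ⟨⟨z, hVH hz⟩, rfl⟩

/-- the modes on the half-plane -/
lemma mode (hI : StmtInt) {χ : ℂ → ℝ} {V : Set ℂ} (hV : IsOpen V)
    (hVH : V ⊆ H0) (h1 : ∀ z ∈ V, χ z = 1) {f : ℕ → ℍ → ℝ} {t : ℕ → ℝ} {r : ℕ → ℂ → ℂ}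
    (hS : Sm V (qq χ) (fun i => hh (t i)) (fun i => ff χ (f i)) r) (n : ℕ)
    (φ : ℂ → ℂ) (hφ : Test V φ) :
    Tendsto (fun i => ∫ z : ℍ, φ z * (f i z * sg (f i) (t i) n z)) atTop
      (𝓝 (∫ z : ℍ, φ z * ((z.im : ℂ) ^ n * r n z))) := by
  set ψ : ℂ → ℂ := fun z => φ z * (((z.im) ^ n * ((z.im)⁻¹) ^ 2 : ℝ) : ℂ) with hψ
  have hψT : Test V ψ :=
    Half.test_mul Half.isOpen_H0 hφ (hφ.sub.trans hVH) (Half.contDiffOn_weightC n 2)
  have key := hS.mode n ψ hψT
  have hlim : ∫ z, ψ z * r n z = ∫ z : ℍ, φ z * ((z.im : ℂ) ^ n * r n z) := by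
    have e0 := hI.2 (fun z => φ z * ((z.im : ℂ) ^ n * r n z))
      (fun z hz => by rw [hφ.eq_zero (fun h => (not_lt.mpr hz) (hVH h)), zero_mul])
    have e1 : ∫ z : ℍ, φ z * ((z.im : ℂ) ^ n * r n z) =
        ∫ z : ℍ, φ z * (((z : ℂ).im : ℂ) ^ n * r n z) := rfl
    rw [e1, e0]
    apply integral_congr_ae
    refine Filter.Eventually.of_forall fun z => ?_
    simp only [hψ]
    push_cast
    ring
  rw [hlim] at key
  refine key.congr fun i => ?_
  have hs : ContDiff ℝ ∞ (ff χ (f i)) := (hS.sol i).smooth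
  have hF0 : ∀ z : ℂ, z.im ≤ 0 → φ z * ((ext (f i) z : ℂ) *
      (((Real.sqrt (1 / 4 + t i ^ 2) : ℝ) : ℂ)⁻¹ ^ n *
      ((z.im : ℂ) ^ n * (dz^[n] (fun w => (ext (f i) w : ℂ))) z))) = 0 := by
    intro z hz
    rw [hφ.eq_zero (fun h => (not_lt.mpr hz) (hVH h)), zero_mul]
  have e1 := hI.2 _ hF0
  have e2 : ∫ z : ℍ, φ z * (f i z * sg (f i) (t i) n z) =
      ∫ z : ℍ, φ z * ((ext (f i) z : ℂ) *
      (((Real.sqrt (1 / 4 + t i ^ 2) : ℝ) : ℂ)⁻¹ ^ n *
      (((z : ℂ).im : ℂ) ^ n * (dz^[n] (fun w => (ext (f i) w : ℂ))) z))) := by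
    apply integral_congr_ae
    refine Filter.Eventually.of_forall fun z => ?_
    simp only [Half.ext_coe, UpperHalfPlane.coe_im, sg]
  rw [e2, e1]
  apply integral_congr_ae
  refine Filter.Eventually.of_forall fun z => ?_
  by_cases hz : z ∈ V
  · have hzim : 0 < z.im := hVH hz
    have hc : ∀ w ∈ V, (ff χ (f i) w : ℂ) = (ext (f i) w : ℂ) := by
      intro w hw
      unfold ff
      rw [h1 w hw, one_mul]
    have e3 := Half.iter_congr hV hc n z hz
    simp only
    rw [Half.gg_eq hs, e3, hc z hz]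
    simp only [hψ, hh]
    push_cast
    ring
  · have hz0 : φ z = 0 := hφ.eq_zero hz
    simp only [hψ, hz0, zero_mul, zero_div]

/-- the densities -/
lemma pp_eq {χ : ℂ → ℝ} {V : Set ℂ} (hVH : V ⊆ H0) (h1 : ∀ z ∈ V, χ z = 1)
    (r : ℕ → ℂ → ℂ) (n : ℕ) {z : ℂ} (hz : z ∈ V) :
    pp (qq χ) r n z = ‖(z.im : ℂ) ^ n * r n z‖ ^ 2 := by
  have hzim : 0 < z.im := hVH hz
  have e7 : qq χ z = (z.im)⁻¹ ^ 2 := by
    unfold qq
    rw [h1 z hz]
    ring
  unfold pp
  rw [e7, norm_mul, norm_pow, Complex.norm_real, Real.norm_eq_abs, abs_of_pos hzim]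
  have hne : z.im ≠ 0 := hzim.ne'
  have h3 : (z.im ^ n) ^ 2 * ((z.im)⁻¹ ^ 2) ^ n = 1 := by
    rw [← pow_mul, ← pow_mul, mul_comm 2 n, ← mul_pow, mul_inv_cancel₀ hne, one_pow]
  rw [div_eq_iff (by positivity), mul_pow]
  linear_combination (-‖r n z‖ ^ 2) * h3

lemma weight (hI : StmtInt) {χ : ℂ → ℝ} {V : Set ℂ}
    (hVH : V ⊆ H0) (h1 : ∀ z ∈ V, χ z = 1) (r : ℕ → ℂ → ℂ) (hr : ∀ n, L2loc V (r n))
    {w : ℂ → ℝ} (hw : TestR V w) (hw0 : ∀ z, 0 ≤ w z) :
    ∃ M : ℝ, 0 ≤ M ∧ ∀ n, ∫ z, w z * pp (qq χ) r n z ≤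
      M * ∫ z in UpperHalfPlane.coe ⁻¹' (tsupport w), ‖(z.im : ℂ) ^ n * r n z‖ ^ 2 := by
  have hwc : Continuous (fun z : ℂ => w z * z.im ^ 2) :=
    hw.smooth.continuous.mul (Complex.continuous_im.pow 2)
  have hws : HasCompactSupport (fun z : ℂ => w z * z.im ^ 2) := hw.cpt.mul_right
  obtain ⟨M, hM⟩ := hws.exists_bound_of_continuous hwc
  have hM0 : 0 ≤ M := (norm_nonneg _).trans (hM 0)
  refine ⟨M, hM0, fun n => ?_⟩
  have hKc : IsCompact (UpperHalfPlane.coe ⁻¹' (tsupport w)) :=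
    Half2.isCompact_pre hw.cpt.isCompact (hw.sub.trans hVH)
  have hKm : MeasurableSet (UpperHalfPlane.coe ⁻¹' (tsupport w)) := hKc.isClosed.measurableSet
  have hmem := memLp (hr n) n hKc (preimage_mono hw.sub)
  have hint : Integrable (fun z : ℍ => ‖(z.im : ℂ) ^ n * r n z‖ ^ 2)
      (volume.restrict (UpperHalfPlane.coe ⁻¹' (tsupport w))) := by
    have := hmem.integrable_norm_pow (by norm_num)
    simpa using this
  have h0 : ∀ z : ℂ, z.im ≤ 0 → (w z * z.im ^ 2) * pp (qq χ) r n z = 0 := by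
    intro z hz
    rw [hw.eq_zero (fun h => (not_lt.mpr hz) (hVH h))]
    simp
  have e1 := hI.1 _ h0
  have e2 : ∫ z : ℂ, w z * pp (qq χ) r n z =
      ∫ z : ℂ, (w z * z.im ^ 2) * pp (qq χ) r n z / z.im ^ 2 := by
    apply integral_congr_ae
    refine Filter.Eventually.of_forall fun z => ?_
    by_cases hz : z ∈ V
    · have hne : z.im ≠ 0 := ne_of_gt (hVH hz)
      simp only
      field_simp
    · simp [hw.eq_zero hz]
  calc ∫ z : ℂ, w z * pp (qq χ) r n z
      = ∫ z : ℍ, (w z * (z : ℂ).im ^ 2) * pp (qq χ) r n z := by rw [e2, e1]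
    _ ≤ ∫ z : ℍ, (UpperHalfPlane.coe ⁻¹' (tsupport w)).indicator
          (fun z : ℍ => M * ‖(z.im : ℂ) ^ n * r n z‖ ^ 2) z := by
        apply integral_mono_of_nonneg
        · refine Filter.Eventually.of_forall fun z => ?_
          simp only [Pi.zero_apply]
          by_cases hz : (z : ℂ) ∈ V
          · rw [pp_eq hVH h1 r n hz]
            have := hw0 z
            positivity
          · rw [hw.eq_zero hz]
            simp
        · rw [integrable_indicator_iff hKm]
          exact hint.const_mul M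
        · refine Filter.Eventually.of_forall fun z => ?_
          simp only
          by_cases hz : z ∈ UpperHalfPlane.coe ⁻¹' (tsupport w)
          · rw [Set.indicator_of_mem hz, pp_eq hVH h1 r n (hw.sub hz)]
            have hb' : w z * (z : ℂ).im ^ 2 ≤ M := (Real.le_norm_self _).trans (hM (z : ℂ))
            exact mul_le_mul_of_nonneg_right hb' (by positivity)
          · rw [Set.indicator_of_notMem hz]
            have : w (z : ℂ) = 0 := image_eq_zero_of_notMem_tsupport hz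
            rw [this]
            simp
    _ = M * ∫ z in UpperHalfPlane.coe ⁻¹' (tsupport w), ‖(z.im : ℂ) ^ n * r n z‖ ^ 2 := by
        rw [integral_indicator hKm, integral_const_mul]

end

end Pool.Agent.A54.Dyn.NAfM

namespace Pool.Agent.A54.Dyn

open MeasureTheory Filter Topology Set
open scoped ComplexConjugate UpperHalfPlane MatrixGroups ENNReal ContDiff
open Pool.Agent.A54.Half (H0 qq ff hh)

theorem stmtNAf (hS : StmtSC) (hN : StmtNA) (hI : StmtInt) : StmtNAf := by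
  intro f t hHM χ V hχ hVH h1 r hSm w hw hw0
  have hV : IsOpen V := hSm.pot.isOpen
  have hV' : IsOpen (UpperHalfPlane.coe ⁻¹' V) := hV.preimage UpperHalfPlane.continuous_coe
  obtain ⟨μ, ρ', hInv, hMod, hρ⟩ := hS f t hHM (UpperHalfPlane.coe ⁻¹' V) hV'
    (fun n z => (z.im : ℂ) ^ n * r n z)
    (fun n K hK hKV => NAfM.memLp (hSm.loc n) n hK hKV)
    (fun n φ hφ => by
      rw [NAfM.image_pre hVH] at hφ
      exact NAfM.mode hI hV hVH h1 hSm n φ hφ)
  have hKc : IsCompact (UpperHalfPlane.coe ⁻¹' (tsupport w)) :=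
    Half2.isCompact_pre hw.cpt.isCompact (hw.sub.trans hVH)
  have hKV : UpperHalfPlane.coe ⁻¹' (tsupport w) ⊆ UpperHalfPlane.coe ⁻¹' V := preimage_mono hw.sub
  have key := hN _ ρ' μ hInv hMod _ hKc hKV
  obtain ⟨M, hM0, hM⟩ := NAfM.weight hI hVH h1 r hSm.loc hw hw0
  have hlim := key.const_mul M
  rw [mul_zero] at hlim
  refine squeeze_zero (fun N => ?_) (fun N => ?_) hlim
  · apply div_nonneg _ (Nat.cast_nonneg _)
    refine Finset.sum_nonneg fun n _ => integral_nonneg fun z => ?_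
    simp only [Pi.zero_apply]
    by_cases hz : z ∈ V
    · rw [NAfM.pp_eq hVH h1 r n hz]
      have := hw0 z
      positivity
    · rw [hw.eq_zero hz, zero_mul]
  · rw [mul_div_assoc', Finset.mul_sum]
    apply div_le_div_of_nonneg_right _ (Nat.cast_nonneg _)
    apply Finset.sum_le_sum
    intro n _
    refine (hM n).trans (le_of_eq ?_)
    congr 1
    apply integral_congr_ae
    have h2 := ae_mono (Measure.restrict_mono hKV le_rfl) (hρ n)
    filter_upwards [h2] with z hz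
    rw [hz]

end Pool.Agent.A54.Dyn
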