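import Pool.Agent.Lib.MP_a54f13_nt.Dyn.Spec

/-!
The local product structure of invariant measures on `SL(2, ℝ)`.
-/

set_option autoImplicit false

namespace Pool.Agent.A54.Dyn.ProdM

open MeasureTheory Filter Topology Set
open scoped ComplexConjugate UpperHalfPlane MatrixGroups ENNReal

noncomputable section

lemma measurable_entry (i j : Fin 2) : Measurable (fun g : G => g i j) :=
  (continuous_entry i j).measurable

lemma isOpen_dom : IsOpen dom :=
  (isOpen_lt continuous_const (continuous_entry 0 0)).inter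
    (isOpen_lt continuous_const (continuous_entry 1 1))

lemma measurableSet_dom : MeasurableSet dom := isOpen_dom.measurableSet

lemma measurable_cX : Measurable cX := (measurable_entry 0 1).div (measurable_entry 1 1)

lemma measurable_cY : Measurable cY := (measurable_entry 1 0).div (measurable_entry 0 0)

lemma measurable_cU : Measurable cU :=
  Real.measurable_log.comp ((measurable_entry 0 0).div (measurable_entry 1 1))

lemma measurable_cP : Measurable cP := measurable_cX.prodMk measurable_cY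

lemma measurable_cPU : Measurable (fun g : G => (cP g, cU g)) := measurable_cP.prodMk measurable_cU

lemma isClosed_Sc (L : ℝ) : IsClosed (Sc L) :=
  (isClosed_le (continuous_abs.comp continuous_fst) continuous_const).inter
    (isClosed_le (continuous_abs.comp continuous_snd) continuous_const)

lemma measurableSet_Sc (L : ℝ) : MeasurableSet (Sc L) := (isClosed_Sc L).measurableSet

lemma measurable_mulLeft (v : G) : Measurable (fun g : G => v * g) :=
  (continuous_const.mul continuous_id).measurable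

lemma measurable_mulRight (v : G) : Measurable (fun g : G => g * v) :=
  (continuous_id.mul continuous_const).measurable

/-- the set of elements with entries bounded by `2` is compact -/
lemma isCompact_bdd : IsCompact {g : G | ∀ i j, |g i j| ≤ 2} := by
  have h1 : IsCompact {A : Matrix (Fin 2) (Fin 2) ℝ | ∀ i j, |A i j| ≤ 2} := by
    have h2 : {A : Matrix (Fin 2) (Fin 2) ℝ | ∀ i j, |A i j| ≤ 2} =
        Set.pi univ (fun _ : Fin 2 => Set.pi univ (fun _ : Fin 2 => Icc (-2 : ℝ) 2)) := by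
      ext A
      rw [mem_ofPred_eq]
      constructor
      · intro h i _ j _
        exact abs_le.mp (h i j)
      · intro h i j
        exact abs_le.mpr (h i (mem_univ i) j (mem_univ j))
    rw [h2]
    exact isCompact_univ_pi fun _ => isCompact_univ_pi fun _ => isCompact_Icc
  have h3 := Matrix.SpecialLinearGroup.isClosedEmbedding_val (n := Fin 2) (R := ℝ)
  exact h3.isCompact_preimage h1

/-- elements with coordinates in `Sc (1/2)`, `[0, 1)` have bounded entries -/
lemma bdd_of_coord {g : G} (hg : g ∈ dom) (hP : cP g ∈ Sc (1 / 2)) (hU : cU g ∈ Ico (0 : ℝ) 1) :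
    ∀ i j, |g i j| ≤ 2 := by
  have hX : |cX g| ≤ 1 / 2 := hP.1
  have hY : |cY g| ≤ 1 / 2 := hP.2
  have h0 := hg.1
  have h1 := hg.2
  have hXY : cX g * cY g ≤ 1 / 4 := by
    have := abs_mul (cX g) (cY g)
    have h2 : |cX g| * |cY g| ≤ 1 / 2 * (1 / 2) :=
      mul_le_mul hX hY (abs_nonneg _) (by norm_num)
    have h3 := le_abs_self (cX g * cY g)
    linarith
  have h34 : 3 / 4 ≤ 1 - cX g * cY g := by linarith
  have e0 : Real.exp (cU g) ≤ 3 := by
    have h4 : Real.exp (cU g) ≤ Real.exp 1 := Real.exp_le_exp.mpr hU.2.le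
    have := Real.exp_one_lt_d9
    linarith
  have e1 : Real.exp (-cU g) ≤ 1 := by
    rw [← Real.exp_zero]
    exact Real.exp_le_exp.mpr (by have := hU.1; linarith)
  have b00 : g 0 0 ≤ 2 := by
    have h5 := sq_00 hg
    have h6 : Real.exp (cU g) / (1 - cX g * cY g) ≤ 4 := by
      rw [div_le_iff₀ (by linarith)]; linarith
    nlinarith
  have b11 : g 1 1 ≤ 2 := by
    have h5 := sq_11 hg
    have h6 : Real.exp (-cU g) / (1 - cX g * cY g) ≤ 4 := by
      rw [div_le_iff₀ (by linarith)]; linarith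
    nlinarith
  have b01 : |g 0 1| ≤ 2 := by
    have h7 : g 0 1 = cX g * g 1 1 := by unfold cX; field_simp
    rw [h7, abs_mul, abs_of_pos h1]
    nlinarith [abs_nonneg (cX g)]
  have b10 : |g 1 0| ≤ 2 := by
    have h7 : g 1 0 = cY g * g 0 0 := by unfold cY; field_simp
    rw [h7, abs_mul, abs_of_pos h0]
    nlinarith [abs_nonneg (cY g)]
  intro i j
  fin_cases i <;> fin_cases j
  · change |g 0 0| ≤ 2
    rw [abs_of_pos h0]; exact b00
  · exact b01
  · exact b10
  · change |g 1 1| ≤ 2
    rw [abs_of_pos h1]; exact b11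

/-- the translated measure -/
def mv (μ : Measure G) (v : G) : Measure G := μ.map (fun g => v⁻¹ * g)

lemma mv_fin {μ : Measure G} (hμ : Inv μ) (v : G) : IsFiniteMeasureOnCompacts (mv μ v) := by
  have := hμ.fin
  exact Measure.IsFiniteMeasureOnCompacts.map μ (Homeomorph.mulLeft v⁻¹)

lemma mv_right {μ : Measure G} (hμ : Inv μ) (v : G) (t : ℝ) :
    (mv μ v).map (fun g => g * fl t) = mv μ v := by
  unfold mv
  rw [Measure.map_map (measurable_mulRight _) (measurable_mulLeft _)]
  have h1 : (fun g : G => g * fl t) ∘ (fun g : G => v⁻¹ * g) =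
      (fun g : G => v⁻¹ * g) ∘ (fun g : G => g * fl t) := by
    funext g
    simp only [Function.comp_apply, mul_assoc]
  rw [h1, ← Measure.map_map (measurable_mulLeft _) (measurable_mulRight _), hμ.right t]

/-- the domain of the coordinates -/
def dd : Set G := {g | g ∈ dom ∧ cP g ∈ Sc (1 / 2)}

lemma measurableSet_dd : MeasurableSet dd :=
  measurableSet_dom.inter (measurable_cP (measurableSet_Sc _))

/-- the measure in coordinates -/
def nu (μ : Measure G) (v : G) : Measure ((ℝ × ℝ) × ℝ) :=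
  ((mv μ v).restrict dd).map (fun g => (cP g, cU g))

lemma nu_apply {μ : Measure G} (v : G) {S : Set ((ℝ × ℝ) × ℝ)} (hS : MeasurableSet S) :
    nu μ v S = mv μ v {g | g ∈ dd ∧ (cP g, cU g) ∈ S} := by
  unfold nu
  rw [Measure.map_apply measurable_cPU hS, Measure.restrict_apply (measurable_cPU hS)]
  congr 1
  ext g
  exact and_comm

lemma tau_apply {μ : Measure G} (v : G) {R : Set (ℝ × ℝ)} (hR : MeasurableSet R) :
    tau μ v R = mv μ v {g | g ∈ dd ∧ (cP g, cU g) ∈ R ×ˢ Ico (0 : ℝ) 1} := by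
  unfold tau
  rw [Measure.map_apply measurable_cP hR, Measure.restrict_apply (measurable_cP hR)]
  unfold mv
  congr 1
  ext g
  constructor
  · rintro ⟨h1, h2, h3, h4⟩
    exact ⟨⟨h2, h3⟩, h1, h4⟩
  · rintro ⟨⟨h1, h2⟩, h3, h4⟩
    exact ⟨h3, h1, h2, h4⟩

lemma tau_univ {μ : Measure G} (hμ : Inv μ) (v : G) : tau μ v univ < ⊤ := by
  rw [tau_apply v MeasurableSet.univ]
  have := mv_fin hμ v
  refine lt_of_le_of_lt (measure_mono ?_) (isCompact_bdd.measure_lt_top (μ := mv μ v))
  rintro g ⟨⟨h1, h2⟩, -, h4⟩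
  exact bdd_of_coord h1 h2 h4

/-- the distribution of the time coordinate over `R` -/
def lam (μ : Measure G) (v : G) (R : Set (ℝ × ℝ)) : Measure ℝ :=
  ((nu μ v).restrict (R ×ˢ univ)).map Prod.snd

lemma lam_apply {μ : Measure G} (v : G) {R : Set (ℝ × ℝ)} (hR : MeasurableSet R) {B : Set ℝ}
    (hB : MeasurableSet B) : lam μ v R B = nu μ v (R ×ˢ B) := by
  unfold lam
  rw [Measure.map_apply measurable_snd hB, Measure.restrict_apply (measurable_snd hB)]
  congr 1
  ext p
  constructor
  · rintro ⟨h1, h2, -⟩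
    exact ⟨h2, h1⟩
  · rintro ⟨h1, h2⟩
    exact ⟨h2, h1, mem_univ _⟩

lemma lam_shift {μ : Measure G} (hμ : Inv μ) (v : G) {R : Set (ℝ × ℝ)} (hR : MeasurableSet R)
    {B : Set ℝ} (hB : MeasurableSet B) (t : ℝ) :
    lam μ v R ((fun x => t + x) ⁻¹' B) = lam μ v R B := by
  have hB' : MeasurableSet ((fun x : ℝ => t + x) ⁻¹' B) := measurable_const_add t hB
  rw [lam_apply v hR hB', lam_apply v hR hB, nu_apply v (hR.prod hB'), nu_apply v (hR.prod hB)]
  have hm : MeasurableSet {g : G | g ∈ dd ∧ (cP g, cU g) ∈ R ×ˢ B} :=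
    measurableSet_dd.inter (measurable_cPU (hR.prod hB))
  conv_rhs => rw [← mv_right hμ v t, Measure.map_apply (measurable_mulRight _) hm]
  congr 1
  ext g
  have e1 : cP (g * fl t) = cP g := by
    unfold cP; rw [cX_mul_fl, cY_mul_fl]
  constructor
  · rintro ⟨⟨h1, h2⟩, h3, h4⟩
    refine ⟨⟨mul_fl_mem.mpr h1, ?_⟩, ?_, ?_⟩
    · rw [e1]; exact h2
    · dsimp only; rw [e1]; exact h3
    · dsimp only; rw [cU_mul_fl h1, add_comm]; exact h4
  · rintro ⟨⟨h1, h2⟩, h3, h4⟩
    have h5 := mul_fl_mem.mp h1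
    rw [e1] at h2
    dsimp only at h3 h4
    rw [e1] at h3
    rw [cU_mul_fl h5, add_comm] at h4
    exact ⟨⟨h5, h2⟩, h3, h4⟩

lemma lam_unit {μ : Measure G} (v : G) {R : Set (ℝ × ℝ)} (hR : MeasurableSet R) :
    lam μ v R (Ico 0 1) = tau μ v R := by
  rw [lam_apply v hR measurableSet_Ico, nu_apply v (hR.prod measurableSet_Ico), tau_apply v hR]

lemma lam_eq {μ : Measure G} (hμ : Inv μ) (v : G) {R : Set (ℝ × ℝ)} (hR : MeasurableSet R) :
    lam μ v R = tau μ v R • volume := by
  have hinv : (lam μ v R).IsAddLeftInvariant := by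
    refine ⟨fun t => Measure.ext fun B hB => ?_⟩
    rw [Measure.map_apply (measurable_const_add t) hB]
    exact lam_shift hμ v hR hB t
  have hfin : tau μ v R < ⊤ := lt_of_le_of_lt (measure_mono (subset_univ _)) (tau_univ hμ v)
  have hloc : IsLocallyFiniteMeasure (lam μ v R) := by
    refine ⟨fun x => ⟨Ioo (x - 1 / 2) (x + 1 / 2), Ioo_mem_nhds (by linarith) (by linarith), ?_⟩⟩
    have h1 : Ioo (x - 1 / 2) (x + 1 / 2) ⊆ (fun y => (1 / 2 - x) + y) ⁻¹' (Ico (0 : ℝ) 1) := by
      rintro y ⟨h2, h3⟩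
      exact ⟨by dsimp only; linarith, by dsimp only; linarith⟩
    refine lt_of_le_of_lt (measure_mono h1) ?_
    rw [lam_shift hμ v hR measurableSet_Ico, lam_unit v hR]
    exact hfin
  have h1 := Measure.isAddLeftInvariant_eq_smul (lam μ v R) (volume : Measure ℝ)
  have h2 : lam μ v R (Ico 0 1) = (Measure.addHaarScalarFactor (lam μ v R) volume •
      (volume : Measure ℝ)) (Ico 0 1) := by rw [← h1]
  rw [lam_unit v hR] at h2
  rw [h1]
  rw [h2]
  ext B hB
  rw [Measure.smul_apply, Measure.smul_apply, Measure.smul_apply, Real.volume_Ico]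
  simp

theorem nu_eq {μ : Measure G} (hμ : Inv μ) (v : G) : (tau μ v).prod volume = nu μ v := by
  have hfin : IsFiniteMeasure (tau μ v) := ⟨tau_univ hμ v⟩
  refine Measure.prod_eq fun R B hR hB => ?_
  rw [← lam_apply v hR hB, lam_eq hμ v hR, Measure.smul_apply, smul_eq_mul]

end

end Pool.Agent.A54.Dyn.ProdM

namespace Pool.Agent.A54.Dyn

open MeasureTheory Set ProdM

theorem stmtProd : StmtProd := by
  intro μ hμ v S hS hS2
  rw [nu_eq hμ v, nu_apply v hS]
  have hm : MeasurableSet {g : G | g ∈ dd ∧ (cP g, cU g) ∈ S} :=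
    measurableSet_dd.inter (measurable_cPU hS)
  unfold mv
  rw [Measure.map_apply (measurable_mulLeft _) hm]
  congr 1
  ext g
  constructor
  · rintro ⟨h1, h2⟩
    exact ⟨⟨h1, hS2 _ h2⟩, h2⟩
  · rintro ⟨⟨h1, -⟩, h2⟩
    exact ⟨h1, h2⟩

end Pool.Agent.A54.Dyn
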