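import Pool.Agent.Lib.MP_a54f13_nt.Dyn.Spec3
import Pool.Agent.Lib.MP_a54f13_nt.Ratio

/-!
The sharp constant: the fourth moment is at least `3` times the square of the second moment.
-/

set_option autoImplicit false

namespace Pool.Agent.A54.Dyn.RatioSM

open MeasureTheory Filter Topology Set
open scoped ContDiff ComplexConjugate
open Pool.Agent.A54.Rel Pool.Agent.A54.LocGen Pool.Agent.A54.Ratio

noncomputable section

variable {V : Set ℂ} {q : ℂ → ℝ} {h : ℕ → ℝ} {f : ℕ → ℂ → ℝ} {r : ℕ → ℂ → ℂ}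

lemma sum_inj_le {p : ℕ → ℝ} (hp : ∀ n, 0 ≤ p n) (s t : Finset ℕ) (g : ℕ → ℕ)
    (hg : Set.InjOn g s) (hst : ∀ m ∈ s, g m ∈ t) : ∑ m ∈ s, p (g m) ≤ ∑ k ∈ t, p k := by
  rw [← Finset.sum_image (f := p) hg]
  apply Finset.sum_le_sum_of_subset_of_nonneg
  · intro k hk
    obtain ⟨m, hm, rfl⟩ := Finset.mem_image.mp hk
    exact hst m hm
  · intro k _ _
    exact hp k

lemma pairSum_le {p : ℕ → ℝ} (hp : ∀ n, 0 ≤ p n) (N : ℕ) :
    pairSum p N ≤ 3 * N * ∑ k ∈ Finset.range (2 * N + 1), p k := by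
  set S := ∑ k ∈ Finset.range (2 * N + 1), p k with hS
  have h1 : ∀ n ∈ Finset.Icc 1 N, (∑ m ∈ Finset.Icc 1 N,
      if n % 2 = m % 2 then p (n + m) + p ((n : ℤ) - m).natAbs else 0) ≤ 3 * S := by
    intro n hn
    rw [Finset.mem_Icc] at hn
    have h2 : (∑ m ∈ Finset.Icc 1 N,
        if n % 2 = m % 2 then p (n + m) + p ((n : ℤ) - m).natAbs else 0) ≤
        ∑ m ∈ Finset.Icc 1 N, p (n + m) + ∑ m ∈ Finset.Icc 1 N, p ((n : ℤ) - m).natAbs := by
      rw [← Finset.sum_add_distrib]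
      refine Finset.sum_le_sum fun m _ => ?_
      split_ifs
      · exact le_rfl
      · exact add_nonneg (hp _) (hp _)
    have h3 : ∑ m ∈ Finset.Icc 1 N, p (n + m) ≤ S := by
      apply sum_inj_le hp (Finset.Icc 1 N) _ (fun m => n + m)
      · intro a _ b _ hab
        simpa using hab
      · intro m hm
        rw [Finset.mem_Icc] at hm
        rw [Finset.mem_range]
        omega
    have h4 : ∑ m ∈ Finset.Icc 1 N, p ((n : ℤ) - m).natAbs ≤ S + S := by
      rw [← Finset.sum_filter_add_sum_filter_not (Finset.Icc 1 N) (fun m => m ≤ n)]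
      apply add_le_add
      · apply sum_inj_le hp _ _ (fun m : ℕ => ((n : ℤ) - m).natAbs)
        · intro a ha b hb hab
          simp only [Finset.coe_filter, Finset.mem_Icc, mem_ofPred_eq] at ha hb hab
          omega
        · intro m hm
          rw [Finset.mem_filter, Finset.mem_Icc] at hm
          rw [Finset.mem_range]
          omega
      · apply sum_inj_le hp _ _ (fun m : ℕ => ((n : ℤ) - m).natAbs)
        · intro a ha b hb hab
          simp only [Finset.coe_filter, Finset.mem_Icc, mem_ofPred_eq] at ha hb hab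
          omega
        · intro m hm
          rw [Finset.mem_filter, Finset.mem_Icc] at hm
          rw [Finset.mem_range]
          omega
    linarith
  unfold pairSum
  calc _ ≤ ∑ n ∈ Finset.Icc 1 N, 3 * S := Finset.sum_le_sum h1
    _ = 3 * N * S := by
      rw [Finset.sum_const, Nat.card_Icc, nsmul_eq_mul]
      push_cast [Nat.add_sub_cancel]
      ring

lemma PP_nonneg (hq : Pot V q) {w : ℂ → ℝ} (hw0 : ∀ z, 0 ≤ w z) (n : ℕ) : 0 ≤ PP q r w n := by
  unfold PP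
  refine integral_nonneg fun z => mul_nonneg (hw0 z) ?_
  unfold pp
  have := hq.pos z
  positivity

/-- the sharp lower bound along the subsequence -/
lemma sharp (hG : StmtLocGen) (hI : StmtIneq) (hS : Sm V q h f r) {w : ℂ → ℝ} (hw : TestR V w)
    (hw0 : ∀ z, 0 ≤ w z)
    (hNA : Tendsto (fun N : ℕ => (∑ n ∈ Finset.range N, ∫ z, w z * pp q r n z) / N) atTop (𝓝 0))
    {ε : ℝ} (hε : 0 < ε) :
    ∀ᶠ i in atTop, 3 * (∫ z, w z * rho r z ^ 2) - ε ≤ ∫ z, w z * f i z ^ 4 := by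
  obtain ⟨_, e0⟩ := integrable_rho_sq hI hS hw
  have h1 := hNA.eventually (gt_mem_nhds (show 0 < ε / 24 by linarith))
  obtain ⟨N₀, hN₀⟩ := eventually_atTop.mp h1
  set M := N₀ + 1 with hM
  have hM1 : 1 ≤ M := by omega
  have h2 := hN₀ (2 * (2 * M) + 1) (by omega)
  have h3 := hG V q h f r hS w hw hw0 M hM1 (ε / 2) (by linarith)
  filter_upwards [h3] with i hi
  refine le_trans ?_ hi
  have e1 : ∫ z, w z * (3 * pp q r 0 z -
        3 / (2 * (2 * M) ^ 2) * pairSum (fun n => pp q r n z) (2 * M)) =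
      3 * PP q r w 0 - 3 / (2 * (2 * M) ^ 2) * pairSum (PP q r w) (2 * M) :=
    (dens_int hS.pot hS.loc hw M).2
  rw [e1, e0]
  have h4 := pairSum_le (p := PP q r w) (PP_nonneg hS.pot hw0) (2 * M)
  have hM0 : (1 : ℝ) ≤ M := by exact_mod_cast hM1
  have h5 : ∑ k ∈ Finset.range (2 * (2 * M) + 1), PP q r w k ≤ ε / 24 * (4 * M + 1) := by
    have h6 : (0 : ℝ) < ((2 * (2 * M) + 1 : ℕ) : ℝ) := by positivity
    rw [div_lt_iff₀ h6] at h2
    push_cast at h2
    have h7 : ∑ k ∈ Finset.range (2 * (2 * M) + 1), PP q r w k =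
      ∑ n ∈ Finset.range (2 * (2 * M) + 1), ∫ z, w z * pp q r n z := rfl
    rw [h7]
    linarith
  have h8 : pairSum (PP q r w) (2 * M) ≤ 3 * (2 * M) * (ε / 24 * (4 * M + 1)) := by
    refine h4.trans ?_
    push_cast
    exact mul_le_mul_of_nonneg_left h5 (by positivity)
  have h9 : 3 / (2 * (2 * (M : ℝ)) ^ 2) * pairSum (PP q r w) (2 * M) ≤ ε / 2 := by
    have h10 : 3 / (2 * (2 * (M : ℝ)) ^ 2) * pairSum (PP q r w) (2 * M) ≤
        3 / (2 * (2 * (M : ℝ)) ^ 2) * (3 * (2 * M) * (ε / 24 * (4 * M + 1))) :=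
      mul_le_mul_of_nonneg_left h8 (by positivity)
    refine h10.trans ?_
    have e2 : 3 / (2 * (2 * (M : ℝ)) ^ 2) * (3 * (2 * M) * (ε / 24 * (4 * M + 1))) =
        3 / 32 * ε * ((4 * M + 1) / M) := by
      have : (M : ℝ) ≠ 0 := by positivity
      field_simp
      ring
    rw [e2]
    have h11 : (4 * (M : ℝ) + 1) / M ≤ 5 := by
      rw [div_le_iff₀ (by positivity)]
      linarith
    nlinarith
  linarith

/-- `3 (∫ w ρ)² ≤ (∫ w) (3 ∫ w ρ²)` -/
lemma rho_cs (hI : StmtIneq) (hS : Sm V q h f r) {w : ℂ → ℝ} (hw : TestR V w)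
    (hw0 : ∀ z, 0 ≤ w z) :
    3 * (∫ z, w z * rho r z) ^ 2 ≤ (∫ z, w z) * (3 * ∫ z, w z * rho r z ^ 2) := by
  obtain ⟨i1, _⟩ := integrable_rho_sq hI hS hw
  have h1 := cs (w := w) (a := fun _ => 1) (b := fun z => rho r z) hw0
    (by simpa using hw.integrable) i1
    (by simpa using integrable_L2loc (L2loc_rho hS) hw continuous_const (F := fun _ => 1))
  simp only [one_mul, one_pow, mul_one] at h1
  linarith

/-- arithmetic core of the contradiction -/
lemma core {ε I0 J B1 η D : ℝ} (hε : 0 < ε) (hI0 : 0 < I0) (hJ : J ≤ I0)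
    (hη : 0 ≤ η) (hηε : 3 * (2 * B1 * η + η ^ 2) < ε / 4) {a b F4 : ℕ → ℝ} {b' : ℝ}
    (hb : Tendsto b atTop (𝓝 b')) (ha0 : ∀ j, 0 ≤ a j)
    (hbB : ∀ j, b j ≤ B1) (hab : ∀ j, a j ≤ b j + η)
    (hF : ∀ j, I0 * F4 j < 3 * a j ^ 2 - ε)
    (hD : ∀ ε' : ℝ, 0 < ε' → ∀ᶠ j in atTop, D - ε' ≤ F4 j) (hD0 : 0 ≤ D)
    (hcs : 3 * b' ^ 2 ≤ J * D) : False := by
  have h1 : Tendsto (fun j => b j ^ 2) atTop (𝓝 (b' ^ 2)) := hb.pow 2
  have h2 := h1.eventually (gt_mem_nhds (lt_add_of_pos_right (b' ^ 2) (show 0 < ε / 8 by linarith)))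
  have h3 := hD (ε / (4 * I0)) (by positivity)
  obtain ⟨j, hj2, hj3⟩ := (h2.and h3).exists
  have h4 : I0 * (D - ε / (4 * I0)) ≤ I0 * F4 j := mul_le_mul_of_nonneg_left hj3 hI0.le
  have h5 : I0 * (D - ε / (4 * I0)) = I0 * D - ε / 4 := by field_simp
  have h6 : J * D ≤ I0 * D := mul_le_mul_of_nonneg_right hJ hD0
  have h7 : a j ^ 2 ≤ b j ^ 2 + (2 * B1 * η + η ^ 2) := by
    have e1 : a j ^ 2 ≤ (b j + η) ^ 2 := pow_le_pow_left₀ (ha0 j) (hab j) 2
    have e2 : b j * η ≤ B1 * η := mul_le_mul_of_nonneg_right (hbB j) hη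
    nlinarith [e1, e2]
  have h8 := hF j
  linarith

theorem _root_.Pool.Agent.A54.Dyn.stmtRatioS (hG : StmtLocGen) (hComp : StmtComp)
    (hI : StmtIneq) : StmtRatioS := by
  intro V q h f hS hB2 hNA φ hφ hφ0 ε hε
  by_contra hcon
  rw [Filter.not_eventually] at hcon
  obtain ⟨σ, hσ, hσ'⟩ := Filter.extraction_of_frequently_atTop hcon
  have hlt : ∀ i, (∫ z, φ z) * ∫ z, φ z * f (σ i) z ^ 4 <
      3 * (∫ z, φ z * f (σ i) z ^ 2) ^ 2 - ε := by
    intro i
    have := hσ' i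
    rw [not_le] at this
    exact this
  have hfc : ∀ i, Continuous (f i) := fun i => (hS.sol i).smooth.continuous
  -- bounds for the second moments
  obtain ⟨ζ, hζ, hζ01, hζ1⟩ := exists_cutoff hφ.cpt.isCompact hS.pot.isOpen hφ.sub
  obtain ⟨B, hB⟩ := hB2 ζ hζ
  have hB0 : 0 ≤ B := (integral_nonneg fun z => by positivity).trans (hB 0)
  have hle : ∀ (w : ℂ → ℝ) (c : ℝ), 0 ≤ c → Continuous w → HasCompactSupport w →
      (∀ z, w z ≤ c * ζ z ^ 2) → ∀ i, ∫ z, w z * f i z ^ 2 ≤ c * B := by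
    intro w c hc hw hwc hwle i
    have j1 : Integrable (fun z => w z * f i z ^ 2) :=
      (hw.mul ((hfc i).pow 2)).integrable_of_hasCompactSupport hwc.mul_right
    have j2 : Integrable (fun z => c * (ζ z ^ 2 * f i z ^ 2)) := by
      have h1 : HasCompactSupport (fun z => ζ z ^ 2) :=
        hζ.cpt.comp_left (g := fun x : ℝ => x ^ 2) (by simp)
      exact (((hζ.smooth.continuous.pow 2).mul ((hfc i).pow 2)).integrable_of_hasCompactSupport
        h1.mul_right).const_mul _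
    calc _ ≤ ∫ z, c * (ζ z ^ 2 * f i z ^ 2) := by
          refine integral_mono j1 j2 fun z => ?_
          calc w z * f i z ^ 2 ≤ c * ζ z ^ 2 * f i z ^ 2 :=
                mul_le_mul_of_nonneg_right (hwle z) (by positivity)
            _ = _ := by ring
      _ = c * ∫ z, ζ z ^ 2 * f i z ^ 2 := integral_const_mul _ _
      _ ≤ _ := mul_le_mul_of_nonneg_left (hB i) hc
  obtain ⟨Z, hZ0, hZ⟩ := test_bdd hφ
  have hφle : ∀ z, φ z ≤ Z * ζ z ^ 2 := by
    intro z
    by_cases hz : z ∈ tsupport φ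
    · have : ζ z = 1 := hζ1.self_of_nhdsSet z hz
      rw [this]
      have := (le_abs_self _).trans (hZ z)
      linarith
    · rw [image_eq_zero_of_notMem_tsupport hz]
      positivity
  have hA := hle φ Z hZ0 hφ.smooth.continuous hφ.cpt hφle
  have hpos2 : ∀ (w : ℂ → ℝ), (∀ z, 0 ≤ w z) → ∀ i, 0 ≤ ∫ z, w z * f i z ^ 2 := fun w hw i =>
    integral_nonneg fun z => mul_nonneg (hw z) (by positivity)
  have hI00 : 0 ≤ ∫ z, φ z := integral_nonneg hφ0
  have hI0 : 0 < ∫ z, φ z := by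
    rcases hI00.eq_or_lt with h0 | h0
    · exfalso
      have h1 := hlt 0
      have h2 := cs_four hφ hφ0 (hfc (σ 0))
      rw [← h0, zero_mul] at h1 h2
      linarith
    · exact h0
  -- the fourth moments are bounded
  have hF4 : ∀ i, ∫ z, φ z * f (σ i) z ^ 4 ≤ 3 * (Z * B) ^ 2 / ∫ z, φ z := by
    intro i
    rw [le_div_iff₀ hI0]
    have h1 := hlt i
    have h2 : (∫ z, φ z * f (σ i) z ^ 2) ^ 2 ≤ (Z * B) ^ 2 :=
      pow_le_pow_left₀ (hpos2 φ hφ0 _) (hA _) 2
    linarith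
  have hB' : L4Bdd {z | 0 < φ z} (fun i => f (σ i)) :=
    L4Bdd_pos hφ hφ0 (fun i => hfc (σ i)) hF4
  obtain ⟨τ, r, hτ, hSm⟩ := hComp {z | 0 < φ z} q (fun i => h (σ i)) (fun i => f (σ i))
    (Seq.sub hS (isOpen_pos hφ) (pos_sub hφ) hσ.tendsto_atTop) hB'
  obtain ⟨χ, hχ, h01, hχ1⟩ := exists_cutoffs hφ
  -- choice of the cutoff
  have hη : Tendsto (fun k : ℕ => 3 * (2 * (Z * B) * (1 / ((k : ℝ) + 1) * B) +
      (1 / ((k : ℝ) + 1) * B) ^ 2)) atTop (𝓝 0) := by
    have h1 : Tendsto (fun k : ℕ => 1 / ((k : ℝ) + 1) * B) atTop (𝓝 0) := by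
      have h0 : Tendsto (fun k : ℕ => 1 / ((k : ℝ) + 1)) atTop (𝓝 0) :=
        tendsto_one_div_add_atTop_nhds_zero_nat
      have := h0.mul_const B
      rw [zero_mul] at this
      exact this
    have h2 := ((h1.const_mul (2 * (Z * B))).add (h1.pow 2)).const_mul 3
    simpa using h2
  obtain ⟨k, hk⟩ := (hη.eventually (gt_mem_nhds (show 0 < ε / 4 by linarith))).exists
  have hw := TestR.mul_cut hφ (hχ k)
  have hw0 : ∀ z, 0 ≤ φ z * χ k z := fun z => mul_nonneg (hφ0 z) (h01 k z).1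
  have hk0 : (0 : ℝ) ≤ 1 / ((k : ℝ) + 1) := by positivity
  have hlim := hNA {z | 0 < φ z} (fun j => σ (τ j)) r (pos_sub hφ) (hσ.comp hτ) hSm
    (fun z => φ z * χ k z) hw hw0
  refine core (ε := ε) (I0 := ∫ z, φ z) (J := ∫ z, φ z * χ k z) (B1 := Z * B)
    (η := 1 / ((k : ℝ) + 1) * B) (D := 3 * ∫ z, φ z * χ k z * rho r z ^ 2)
    (a := fun j => ∫ z, φ z * f (σ (τ j)) z ^ 2)
    (b := fun j => ∫ z, φ z * χ k z * f (σ (τ j)) z ^ 2)
    (F4 := fun j => ∫ z, φ z * χ k z * f (σ (τ j)) z ^ 4)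
    (b' := ∫ z, φ z * χ k z * rho r z) hε hI0 ?_ (by positivity) hk
    (second_lim hI hSm hw) (fun j => hpos2 _ hφ0 _) ?_ ?_ ?_ ?_ ?_
    (rho_cs hI hSm hw hw0)
  · exact integral_mono hw.integrable hφ.integrable fun z =>
      mul_le_of_le_one_right (hφ0 z) (h01 k z).2
  · intro j
    exact (int_cut_le hφ hφ0 (hχ k) (h01 k) (g := fun z => f (σ (τ j)) z ^ 2)
      ((hfc _).pow 2) (fun z => by positivity)).trans (hA _)
  · intro j
    have h1 := hle (fun z => φ z * (1 - χ k z)) (1 / ((k : ℝ) + 1)) hk0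
      (hφ.smooth.continuous.mul (continuous_const.sub (hχ k).smooth.continuous))
      hφ.cpt.mul_right (by
        intro z
        by_cases hz : z ∈ tsupport φ
        · have e1 : ζ z = 1 := hζ1.self_of_nhdsSet z hz
          rw [e1]
          by_cases hz2 : 1 / ((k : ℝ) + 1) ≤ φ z
          · rw [hχ1 k z hz2]
            simpa using hk0
          · rw [not_le] at hz2
            have e2 : φ z * (1 - χ k z) ≤ φ z :=
              mul_le_of_le_one_right (hφ0 z) (by linarith [(h01 k z).1])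
            linarith
        · rw [image_eq_zero_of_notMem_tsupport hz, zero_mul]
          positivity) (σ (τ j))
    have e : ∫ z, φ z * (1 - χ k z) * f (σ (τ j)) z ^ 2 =
        (∫ z, φ z * f (σ (τ j)) z ^ 2) - ∫ z, φ z * χ k z * f (σ (τ j)) z ^ 2 := by
      have c2 : Continuous (fun z => f (σ (τ j)) z ^ 2) := (hfc _).pow 2
      rw [← integral_sub (integrable_testR hφ c2) (integrable_testR hw c2)]
      congr 1; funext z; ring
    rw [e] at h1
    linarith
  · intro j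
    have h1 := hlt (τ j)
    have h2 := int_cut_le hφ hφ0 (hχ k) (h01 k) (g := fun z => f (σ (τ j)) z ^ 4)
      ((hfc _).pow 4) (fun z => by positivity)
    exact (mul_le_mul_of_nonneg_left h2 hI00).trans_lt h1
  · intro ε' hε'
    exact sharp hG hI hSm hw hw0 hlim hε'
  · have h2 : 0 ≤ ∫ z, φ z * χ k z * rho r z ^ 2 :=
      integral_nonneg fun z => mul_nonneg (hw0 z) (sq_nonneg _)
    positivity

end

end Pool.Agent.A54.Dyn.RatioSM
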