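import Pool.Agent.Lib.MP_a54f13_nt.Dyn.Spec

/-!
Poincaré recurrence for measures on `SL(2, ℝ)` invariant under `SL(2, ℤ)` and the geodesic flow.
-/

set_option autoImplicit false

namespace Pool.Agent.A54.Dyn

open MeasureTheory Filter Topology Set
open scoped ComplexConjugate UpperHalfPlane MatrixGroups ENNReal ContDiff

namespace RecM

instance countable_SL : Countable SL(2, ℤ) := by
  have h : Countable (Matrix (Fin 2) (Fin 2) ℤ) := inferInstanceAs (Countable (Fin 2 → Fin 2 → ℤ))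
  exact Function.Injective.countable (f := fun γ : SL(2, ℤ) => (γ : Matrix (Fin 2) (Fin 2) ℤ))
    Subtype.val_injective

lemma io_smul (γ : SL(2, ℤ)) (z : ℍ) : io γ • z = γ • z := rfl

lemma io_mul (γ γ' : SL(2, ℤ)) : io (γ * γ') = io γ * io γ' := by
  unfold io
  rw [map_mul]

lemma io_inv (γ : SL(2, ℤ)) : io γ⁻¹ = (io γ)⁻¹ := by
  unfold io
  rw [map_inv]

lemma base_io_mul (γ : SL(2, ℤ)) (v : G) : base (io γ * v) = γ • base v := by
  rw [base_mul, io_smul]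

lemma measurable_W (γ : SL(2, ℤ)) (t : ℝ) : Measurable (fun g : G => io γ * g * fl t) := by
  have h : Continuous (fun g : G => io γ * g * fl t) :=
    (continuous_const.mul continuous_id).mul continuous_const
  exact h.measurable

lemma measure_W {μ : Measure G} (hμ : Inv μ) (γ : SL(2, ℤ)) (t : ℝ) {S : Set G}
    (hS : MeasurableSet S) : μ {g | io γ * g * fl t ∈ S} = μ S := by
  have hm1 : Measurable (fun g : G => g * fl t) :=
    (continuous_id.mul continuous_const).measurable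
  have hm2 : Measurable (fun g : G => io γ * g) :=
    (continuous_const.mul continuous_id).measurable
  have h1 : μ ((fun g => g * fl t) ⁻¹' S) = μ S := by
    rw [← Measure.map_apply hm1 hS, hμ.right]
  have h2 : μ ((fun g => io γ * g) ⁻¹' ((fun g => g * fl t) ⁻¹' S)) =
      μ ((fun g => g * fl t) ⁻¹' S) := by
    rw [← Measure.map_apply hm2 (hm1 hS), hμ.left]
  rw [← h1, ← h2]
  rfl

/-- families of sets with multiplicity at most two -/
lemma tsum_le_two {μ : Measure G} (S : SL(2, ℤ) → Set G) (hS : ∀ γ, MeasurableSet (S γ))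
    (hmul : ∀ γ γ' g, g ∈ S γ → g ∈ S γ' → γ' = γ ∨ γ' = -γ) :
    ∑' γ, μ (S γ) ≤ 2 * μ (⋃ γ, S γ) := by
  classical
  have h1 : ∀ γ, μ (S γ) = ∫⁻ g, (S γ).indicator (fun _ => (1 : ℝ≥0∞)) g ∂μ := by
    intro γ
    rw [lintegral_indicator (hS γ)]
    simp
  simp_rw [h1]
  rw [← lintegral_tsum (fun γ => (measurable_const.indicator (hS γ)).aemeasurable)]
  have hU : MeasurableSet (⋃ γ, S γ) := MeasurableSet.iUnion hS
  have h2 : 2 * μ (⋃ γ, S γ) = ∫⁻ g, (⋃ γ, S γ).indicator (fun _ => (2 : ℝ≥0∞)) g ∂μ := by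
    rw [lintegral_indicator hU]
    simp
  rw [h2]
  refine lintegral_mono ?_
  intro g
  by_cases hg : g ∈ ⋃ γ, S γ
  · rw [indicator_of_mem hg]
    obtain ⟨γ, hγ⟩ := mem_iUnion.mp hg
    have h3 : ∀ γ' ∉ ({γ, -γ} : Finset SL(2, ℤ)),
        (S γ').indicator (fun _ => (1 : ℝ≥0∞)) g = 0 := by
      intro γ' hγ'
      rw [indicator_of_notMem]
      intro h4
      apply hγ'
      simp only [Finset.mem_insert, Finset.mem_singleton]
      exact hmul γ γ' g hγ h4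
    show ∑' γ', (S γ').indicator (fun _ => (1 : ℝ≥0∞)) g ≤ 2
    rw [tsum_eq_sum h3]
    calc ∑ γ' ∈ ({γ, -γ} : Finset SL(2, ℤ)), (S γ').indicator (fun _ => (1 : ℝ≥0∞)) g
        ≤ ∑ γ' ∈ ({γ, -γ} : Finset SL(2, ℤ)), (1 : ℝ≥0∞) := by
          refine Finset.sum_le_sum ?_
          intro γ' _
          exact indicator_le_self' (fun _ _ => bot_le) g
      _ ≤ 2 := by
          rw [Finset.sum_const, nsmul_eq_mul, mul_one]
          exact_mod_cast Finset.card_le_two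
  · have h3 : ∀ γ', (S γ').indicator (fun _ => (1 : ℝ≥0∞)) g = 0 := by
      intro γ'
      rw [indicator_of_notMem]
      intro h4
      exact hg (mem_iUnion.mpr ⟨γ', h4⟩)
    show ∑' γ', (S γ').indicator (fun _ => (1 : ℝ≥0∞)) g ≤ _
    simp [h3]

/-- translates of subsets of `base ⁻¹' V` have multiplicity at most two -/
lemma mult_two {V : Set ℍ}
    (hV : ∀ (γ : SL(2, ℤ)) (z : ℍ), z ∈ V → γ • z ∈ V → γ = 1 ∨ γ = -1) {A : Set G}
    (hA : A ⊆ base ⁻¹' V) (t : ℝ) (γ γ' : SL(2, ℤ)) (g : G)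
    (h1 : io γ * g * fl t ∈ A) (h2 : io γ' * g * fl t ∈ A) : γ' = γ ∨ γ' = -γ := by
  have h3 := hA h1
  have h4 := hA h2
  have e1 : io γ' * g * fl t = io (γ' * γ⁻¹) * (io γ * g * fl t) := by
    rw [io_mul, io_inv]
    group
  rw [e1] at h4
  have h5 : (γ' * γ⁻¹) • base (io γ * g * fl t) ∈ V := by
    rw [← base_io_mul]
    exact h4
  rcases hV _ _ h3 h5 with h | h
  · left
    exact mul_inv_eq_one.mp h
  · right
    have := mul_inv_eq_iff_eq_mul.mp h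
    rw [this]
    simp

/-- the measure of a subset of `base ⁻¹' V` (moved by the flow) is bounded by the part in the
fundamental domain of its orbit -/
lemma le_two_fd {μ : Measure G} (hμ : Inv μ) {V : Set ℍ}
    (hV : ∀ (γ : SL(2, ℤ)) (z : ℍ), z ∈ V → γ • z ∈ V → γ = 1 ∨ γ = -1) {A : Set G}
    (hAm : MeasurableSet A) (hA : A ⊆ base ⁻¹' V) (t : ℝ) :
    μ A ≤ 2 * μ (base ⁻¹' ModularGroup.fd ∩ {g | ∃ γ : SL(2, ℤ), io γ * g * fl t ∈ A}) := by
  have hfd : MeasurableSet (base ⁻¹' ModularGroup.fd) := by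
    apply measurable_base
    have h1 : IsClosed (ModularGroup.fd) := by
      unfold ModularGroup.fd
      refine IsClosed.inter (s₁ := {z : ℍ | 1 ≤ Complex.normSq (z : ℂ)})
        (s₂ := {z : ℍ | |z.re| ≤ 1 / 2}) ?_ ?_
      · exact isClosed_le continuous_const (Complex.continuous_normSq.comp
          UpperHalfPlane.continuous_coe)
      · exact isClosed_le (UpperHalfPlane.continuous_re.abs) continuous_const
    exact h1.measurableSet
  -- `A fl(-t)` is covered by the sets `{g ∈ A fl(-t), γ g ∈ F}`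
  have h1 : {g : G | io 1 * g * fl t ∈ A} ⊆
      ⋃ γ : SL(2, ℤ), {g | io γ * g * fl 0 ∈ (base ⁻¹' ModularGroup.fd) ∩
        {g | io γ⁻¹ * g * fl t ∈ A}} := by
    intro g hg
    obtain ⟨γ, hγ⟩ := ModularGroup.exists_smul_mem_fd (base g)
    refine mem_iUnion.mpr ⟨γ, ?_, ?_⟩
    · show base (io γ * g * fl 0) ∈ ModularGroup.fd
      rw [fl_zero, mul_one, base_io_mul]
      exact hγ
    · show io γ⁻¹ * (io γ * g * fl 0) * fl t ∈ A
      have hg' : io 1 * g * fl t ∈ A := hg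
      have e : io γ⁻¹ * (io γ * g * fl 0) * fl t = io 1 * g * fl t := by
        rw [fl_zero, mul_one, ← mul_assoc, ← io_mul, inv_mul_cancel]
      rw [e]
      exact hg'
  calc μ A = μ {g : G | io 1 * g * fl t ∈ A} := (measure_W hμ 1 t hAm).symm
    _ ≤ μ (⋃ γ : SL(2, ℤ), {g | io γ * g * fl 0 ∈ (base ⁻¹' ModularGroup.fd) ∩
        {g | io γ⁻¹ * g * fl t ∈ A}}) := measure_mono h1
    _ ≤ ∑' γ : SL(2, ℤ), μ {g | io γ * g * fl 0 ∈ (base ⁻¹' ModularGroup.fd) ∩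
        {g | io γ⁻¹ * g * fl t ∈ A}} := measure_iUnion_le _
    _ = ∑' γ : SL(2, ℤ), μ ((base ⁻¹' ModularGroup.fd) ∩ {g | io γ⁻¹ * g * fl t ∈ A}) := by
        refine tsum_congr ?_
        intro γ
        exact measure_W hμ γ 0 (hfd.inter (measurable_W γ⁻¹ t hAm))
    _ = ∑' γ : SL(2, ℤ), μ ((base ⁻¹' ModularGroup.fd) ∩ {g | io γ * g * fl t ∈ A}) :=
        (Equiv.inv SL(2, ℤ)).tsum_eq
          (fun γ => μ ((base ⁻¹' ModularGroup.fd) ∩ {g | io γ * g * fl t ∈ A}))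
    _ ≤ 2 * μ (⋃ γ : SL(2, ℤ), ((base ⁻¹' ModularGroup.fd) ∩ {g | io γ * g * fl t ∈ A})) := by
        refine tsum_le_two _ (fun γ => hfd.inter (measurable_W γ t hAm)) ?_
        intro γ γ' g h2 h3
        exact mult_two hV hA t γ γ' g h2.2 h3.2
    _ = 2 * μ (base ⁻¹' ModularGroup.fd ∩ {g | ∃ γ : SL(2, ℤ), io γ * g * fl t ∈ A}) := by
        congr 2
        ext g
        simp only [mem_iUnion, mem_inter_iff, mem_ofPred_eq, exists_and_left]

/-- Poincaré recurrence for the unit steps -/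
lemma recur {μ : Measure G} (hμ : Inv μ) {V : Set ℍ}
    (hV : ∀ (γ : SL(2, ℤ)) (z : ℍ), z ∈ V → γ • z ∈ V → γ = 1 ∨ γ = -1) {A : Set G}
    (hAm : MeasurableSet A) (hA : A ⊆ base ⁻¹' V) (T : ℝ) (j₁ : ℕ) (_hj : 1 ≤ j₁) :
    μ {v | v ∈ A ∧ ∀ j : ℕ, j₁ ≤ j → ∀ γ : SL(2, ℤ), io γ * v * fl (j * T) ∉ A} = 0 := by
  set D : Set G := {v | v ∈ A ∧ ∀ j : ℕ, j₁ ≤ j → ∀ γ : SL(2, ℤ), io γ * v * fl (j * T) ∉ A}
    with hD
  have hDm : MeasurableSet D := by
    have e : D = A ∩ ⋂ (j : ℕ), ⋂ (_ : j₁ ≤ j), ⋂ (γ : SL(2, ℤ)),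
        {v | io γ * v * fl (j * T) ∈ A}ᶜ := by
      ext v
      simp only [hD, mem_ofPred_eq, mem_inter_iff, mem_iInter, mem_compl_iff]
    rw [e]
    refine hAm.inter ?_
    refine MeasurableSet.iInter (fun j => MeasurableSet.iInter (fun _ =>
      MeasurableSet.iInter (fun γ => (measurable_W γ (j * T) hAm).compl)))
  have hDA : D ⊆ base ⁻¹' V := fun v hv => hA hv.1
  have hfd : MeasurableSet (base ⁻¹' ModularGroup.fd) := by
    apply measurable_base
    have h1 : IsClosed (ModularGroup.fd) := by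
      unfold ModularGroup.fd
      refine IsClosed.inter (s₁ := {z : ℍ | 1 ≤ Complex.normSq (z : ℂ)})
        (s₂ := {z : ℍ | |z.re| ≤ 1 / 2}) ?_ ?_
      · exact isClosed_le continuous_const (Complex.continuous_normSq.comp
          UpperHalfPlane.continuous_coe)
      · exact isClosed_le (UpperHalfPlane.continuous_re.abs) continuous_const
    exact h1.measurableSet
  -- the disjoint sets
  let E : ℕ → Set G := fun i => base ⁻¹' ModularGroup.fd ∩
    {g | ∃ γ : SL(2, ℤ), io γ * g * fl (-(i * j₁ * T)) ∈ D}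
  have hEm : ∀ i, MeasurableSet (E i) := by
    intro i
    refine hfd.inter ?_
    have e : {g | ∃ γ : SL(2, ℤ), io γ * g * fl (-(i * j₁ * T)) ∈ D} =
        ⋃ γ : SL(2, ℤ), {g | io γ * g * fl (-(i * j₁ * T)) ∈ D} := by
      ext g; simp only [mem_iUnion, mem_ofPred_eq]
    rw [e]
    exact MeasurableSet.iUnion (fun γ => measurable_W γ _ hDm)
  have key : ∀ i k : ℕ, i < k → Disjoint (E i) (E k) := by
    intro i k hik
    rw [Set.disjoint_left]
    rintro g ⟨_, γ, hγ⟩ ⟨_, γ', hγ'⟩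
    -- `γ g = v fl(i j₁ T)`, `γ' g = v' fl(k j₁ T)`
    set v := io γ * g * fl (-(i * j₁ * T)) with hv
    set v' := io γ' * g * fl (-(k * j₁ * T)) with hv'
    have e1 : v = io (γ * γ'⁻¹) * v' * fl (((k - i) * j₁ : ℕ) * T) := by
      have e2 : fl (((k - i) * j₁ : ℕ) * T) = fl (k * j₁ * T) * fl (-(i * j₁ * T)) := by
        rw [← fl_add]
        congr 1
        rw [Nat.cast_mul, Nat.cast_sub hik.le]
        ring
      rw [e2, hv, hv', io_mul, io_inv, fl_neg (k * j₁ * T)]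
      group
    have h1 : 1 ≤ k - i := by omega
    have h2 : j₁ ≤ (k - i) * j₁ := Nat.le_mul_of_pos_left _ h1
    apply hγ'.2 ((k - i) * j₁) h2 (γ * γ'⁻¹)
    rw [← e1]
    exact hγ.1
  have hdis : Pairwise (Function.onFun Disjoint E) := by
    intro i k hik
    rcases lt_or_gt_of_ne hik with h | h
    · exact key i k h
    · exact (key k i h).symm
  have hsum : ∑' i, μ (E i) ≤ μ (base ⁻¹' ModularGroup.fd) := by
    rw [← measure_iUnion hdis hEm]
    exact measure_mono (iUnion_subset (fun i => inter_subset_left))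
  have hlow : ∀ i, μ D ≤ 2 * μ (E i) := fun i => le_two_fd hμ hV hDm hDA _
  by_contra hne
  have hpos : 0 < μ D := pos_iff_ne_zero.mpr hne
  have h3 : ∑' _ : ℕ, μ D ≤ 2 * μ (base ⁻¹' ModularGroup.fd) := by
    calc ∑' _ : ℕ, μ D ≤ ∑' i : ℕ, 2 * μ (E i) := ENNReal.tsum_le_tsum hlow
      _ = 2 * ∑' i : ℕ, μ (E i) := ENNReal.tsum_mul_left
      _ ≤ 2 * μ (base ⁻¹' ModularGroup.fd) := by gcongr
  rw [ENNReal.tsum_const_eq_top_of_ne_zero hne] at h3
  have h4 : 2 * μ (base ⁻¹' ModularGroup.fd) < ⊤ := ENNReal.mul_lt_top (by simp) hμ.mass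
  exact absurd h3 (not_le.mpr h4)

/-- the measure of the set of points of `A` whose orbit at time `t` meets `B ⊆ A` -/
lemma hit_le {μ : Measure G} (hμ : Inv μ) {V : Set ℍ}
    (hV : ∀ (γ : SL(2, ℤ)) (z : ℍ), z ∈ V → γ • z ∈ V → γ = 1 ∨ γ = -1) {A B : Set G}
    (hAm : MeasurableSet A) (hA : A ⊆ base ⁻¹' V) (hBm : MeasurableSet B) (t : ℝ) :
    μ {v | v ∈ A ∧ ∃ γ : SL(2, ℤ), io γ * v * fl t ∈ B} ≤ 2 * μ B := by
  have h1 : {v | v ∈ A ∧ ∃ γ : SL(2, ℤ), io γ * v * fl t ∈ B} ⊆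
      ⋃ γ : SL(2, ℤ), {g | io γ * g * fl t ∈ B ∩ {g | io γ⁻¹ * g * fl (-t) ∈ A}} := by
    rintro v ⟨hv, γ, hγ⟩
    refine mem_iUnion.mpr ⟨γ, hγ, ?_⟩
    show io γ⁻¹ * (io γ * v * fl t) * fl (-t) ∈ A
    have e : io γ⁻¹ * (io γ * v * fl t) * fl (-t) = v := by
      rw [io_inv, fl_neg]
      group
    rw [e]
    exact hv
  calc μ {v | v ∈ A ∧ ∃ γ : SL(2, ℤ), io γ * v * fl t ∈ B}
      ≤ μ (⋃ γ : SL(2, ℤ), {g | io γ * g * fl t ∈ B ∩ {g | io γ⁻¹ * g * fl (-t) ∈ A}}) :=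
        measure_mono h1
    _ ≤ ∑' γ : SL(2, ℤ), μ {g | io γ * g * fl t ∈ B ∩ {g | io γ⁻¹ * g * fl (-t) ∈ A}} :=
        measure_iUnion_le _
    _ = ∑' γ : SL(2, ℤ), μ (B ∩ {g | io γ⁻¹ * g * fl (-t) ∈ A}) := by
        refine tsum_congr ?_
        intro γ
        exact measure_W hμ γ t (hBm.inter (measurable_W γ⁻¹ (-t) hAm))
    _ = ∑' γ : SL(2, ℤ), μ (B ∩ {g | io γ * g * fl (-t) ∈ A}) :=
        (Equiv.inv SL(2, ℤ)).tsum_eq (fun γ => μ (B ∩ {g | io γ * g * fl (-t) ∈ A}))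
    _ ≤ 2 * μ (⋃ γ : SL(2, ℤ), (B ∩ {g | io γ * g * fl (-t) ∈ A})) := by
        refine tsum_le_two _ (fun γ => hBm.inter (measurable_W γ (-t) hAm)) ?_
        intro γ γ' g h2 h3
        exact mult_two hV hA (-t) γ γ' g h2.2 h3.2
    _ ≤ 2 * μ B := by
        gcongr
        exact iUnion_subset (fun γ => inter_subset_left)

end RecM

theorem stmtRec : StmtRec := by
  intro μ hμ V _ hV A hAm hA hfin T j₀ δ hδ
  -- the sets of non-returning points
  let E : ℕ → Set G := fun J => {v | v ∈ A ∧ ∀ j : ℕ, j₀ ≤ j → j ≤ J →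
    ∀ γ : SL(2, ℤ), io γ * v * fl (j * T) ∉ A}
  have hEm : ∀ J, MeasurableSet (E J) := by
    intro J
    have e : E J = A ∩ ⋂ (j : ℕ), ⋂ (_ : j₀ ≤ j), ⋂ (_ : j ≤ J), ⋂ (γ : SL(2, ℤ)),
        {v | io γ * v * fl (j * T) ∈ A}ᶜ := by
      ext v
      simp only [E, mem_ofPred_eq, mem_inter_iff, mem_iInter, mem_compl_iff]
    rw [e]
    refine hAm.inter ?_
    refine MeasurableSet.iInter (fun j => MeasurableSet.iInter (fun _ =>
      MeasurableSet.iInter (fun _ => MeasurableSet.iInter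
        (fun γ => (RecM.measurable_W γ (j * T) hAm).compl))))
  have hanti : Antitone E := by
    intro J J' hJ v hv
    exact ⟨hv.1, fun j h1 h2 γ => hv.2 j h1 (h2.trans hJ) γ⟩
  have hlim := tendsto_measure_iInter_atTop (μ := μ) (s := E)
    (fun J => (hEm J).nullMeasurableSet) hanti
    ⟨0, ((measure_mono (fun v hv => hv.1)).trans_lt hfin).ne⟩
  have hzero : μ (⋂ J, E J) = 0 := by
    refine measure_mono_null ?_ (RecM.recur hμ hV hAm hA T (j₀ + 1) (by omega))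
    intro v hv
    refine ⟨(mem_iInter.mp hv 0).1, ?_⟩
    intro j hj γ
    exact (mem_iInter.mp hv j).2 j (by omega) le_rfl γ
  rw [hzero] at hlim
  have hev : ∀ᶠ J in atTop, μ (E J) ≤ ENNReal.ofReal (δ / 2) :=
    hlim.eventually_le_const (ENNReal.ofReal_pos.mpr (by positivity))
  obtain ⟨J, hJ, hJ₀⟩ := (hev.and (eventually_ge_atTop j₀)).exists
  refine ⟨J, hJ₀, δ / (4 * (J + 1)), by positivity, ?_⟩
  intro D hD
  have hsub : {v | v ∈ A ∧ ¬ ∃ j, j₀ ≤ j ∧ j ≤ J ∧ ∃ γ : SL(2, ℤ),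
      io γ * v * fl (j * T) ∈ D j} ⊆
      E J ∪ ⋃ j ∈ Finset.Icc j₀ J, {v | v ∈ A ∧ ∃ γ : SL(2, ℤ),
        io γ * v * fl (j * T) ∈ A \ D j} := by
    rintro v ⟨hv, hn⟩
    by_cases h : ∃ j, j₀ ≤ j ∧ j ≤ J ∧ ∃ γ : SL(2, ℤ), io γ * v * fl (j * T) ∈ A
    · right
      obtain ⟨j, h1, h2, γ, h3⟩ := h
      refine mem_iUnion₂.mpr ⟨j, Finset.mem_Icc.mpr ⟨h1, h2⟩, hv, γ, h3, ?_⟩
      intro h4
      exact hn ⟨j, h1, h2, γ, h4⟩
    · left
      refine ⟨hv, ?_⟩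
      intro j h1 h2 γ h3
      exact h ⟨j, h1, h2, γ, h3⟩
  have hone : ∀ j ∈ Finset.Icc j₀ J, μ {v | v ∈ A ∧ ∃ γ : SL(2, ℤ),
      io γ * v * fl (j * T) ∈ A \ D j} ≤ ENNReal.ofReal (δ / (2 * (J + 1))) := by
    intro j hj
    obtain ⟨h1, h2⟩ := Finset.mem_Icc.mp hj
    obtain ⟨hDm, _, hDs⟩ := hD j h1 h2
    refine (RecM.hit_le hμ hV hAm hA (hAm.diff hDm) (j * T)).trans ?_
    calc 2 * μ (A \ D j) ≤ 2 * ENNReal.ofReal (δ / (4 * (J + 1))) := by gcongr
      _ = ENNReal.ofReal (δ / (2 * (J + 1))) := by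
        rw [show (2 : ℝ≥0∞) = ENNReal.ofReal 2 by simp, ← ENNReal.ofReal_mul (by norm_num)]
        congr 1
        field_simp
        ring
  calc μ {v | v ∈ A ∧ ¬ ∃ j, j₀ ≤ j ∧ j ≤ J ∧ ∃ γ : SL(2, ℤ), io γ * v * fl (j * T) ∈ D j}
      ≤ μ (E J ∪ ⋃ j ∈ Finset.Icc j₀ J, {v | v ∈ A ∧ ∃ γ : SL(2, ℤ),
        io γ * v * fl (j * T) ∈ A \ D j}) := measure_mono hsub
    _ ≤ μ (E J) + μ (⋃ j ∈ Finset.Icc j₀ J, {v | v ∈ A ∧ ∃ γ : SL(2, ℤ),
        io γ * v * fl (j * T) ∈ A \ D j}) := measure_union_le _ _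
    _ ≤ ENNReal.ofReal (δ / 2) + ∑ j ∈ Finset.Icc j₀ J, ENNReal.ofReal (δ / (2 * (J + 1))) := by
        gcongr
        exact (measure_biUnion_finset_le _ _).trans (Finset.sum_le_sum hone)
    _ ≤ ENNReal.ofReal (δ / 2) + ENNReal.ofReal (δ / 2) := by
        gcongr
        rw [Finset.sum_const, nsmul_eq_mul, ← ENNReal.ofReal_natCast,
          ← ENNReal.ofReal_mul (by positivity)]
        apply ENNReal.ofReal_le_ofReal
        have hc : ((Finset.Icc j₀ J).card : ℝ) ≤ J + 1 := by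
          have : (Finset.Icc j₀ J).card ≤ J + 1 := by
            rw [Nat.card_Icc]; omega
          exact_mod_cast this
        calc ((Finset.Icc j₀ J).card : ℝ) * (δ / (2 * (J + 1)))
            ≤ (J + 1) * (δ / (2 * (J + 1))) := by gcongr
          _ = δ / 2 := by field_simp
    _ = ENNReal.ofReal δ := by
        rw [← ENNReal.ofReal_add (by positivity) (by positivity)]
        congr 1
        ring

end Pool.Agent.A54.Dyn
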