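import Pool.Agent.Lib.MP_a54f13_nt.Dyn.Spec1

/-!
Assembly: modes on `V`.
-/

set_option autoImplicit false

namespace Pool.Agent.A54.Dyn

open MeasureTheory Filter Topology Set
open scoped ComplexConjugate UpperHalfPlane MatrixGroups ENNReal ContDiff
open Pool.Agent.A54.Half (H0 qq ff hh)

noncomputable section

namespace SCM

lemma test_zero {V : Set ℍ} {φ : ℂ → ℂ} (hφ : Test (UpperHalfPlane.coe '' V) φ) {z : ℍ}
    (hz : z ∉ V) : φ z = 0 := by
  by_contra h
  have h1 : (z : ℂ) ∈ tsupport φ := subset_tsupport φ h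
  obtain ⟨w, hw, hwz⟩ := hφ.sub h1
  exact hz (UpperHalfPlane.ext hwz ▸ hw)

lemma test_H0 {V : Set ℍ} {φ : ℂ → ℂ} (hφ : Test (UpperHalfPlane.coe '' V) φ) : Test H0 φ :=
  ⟨hφ.smooth, hφ.cpt, fun z hz => by
    obtain ⟨w, _, rfl⟩ := hφ.sub hz
    exact w.im_pos⟩

lemma test_conj {S : Set ℂ} {φ : ℂ → ℂ} (hφ : Test S φ) : Test S (fun z => conj (φ z)) :=
  ⟨Complex.conjCLE.contDiff.comp hφ.smooth, hφ.cpt.comp_left (map_zero _),
    (closure_mono (by
      intro z hz h
      exact hz (by simp only [h, map_zero]))).trans hφ.sub⟩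

lemma integral_congr_V {V : Set ℍ} {φ : ℂ → ℂ} (hφ : Test (UpperHalfPlane.coe '' V) φ)
    {a b : ℍ → ℂ} (hab : a =ᵐ[volume.restrict V] b) :
    ∫ z : ℍ, φ z * a z = ∫ z : ℍ, φ z * b z := by
  rw [← setIntegral_eq_integral_of_forall_compl_eq_zero (s := V)
      (fun z hz => by rw [test_zero hφ hz, zero_mul]),
    ← setIntegral_eq_integral_of_forall_compl_eq_zero (s := V) (f := fun z : ℍ => φ z * b z)
      (fun z hz => by rw [test_zero hφ hz, zero_mul])]
  refine integral_congr_ae ?_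
  filter_upwards [hab] with z hz
  rw [hz]

lemma aesm {V : Set ℍ} (hV : IsOpen V) {a : ℍ → ℂ}
    (ha : ∀ K : Set ℍ, IsCompact K → K ⊆ V → MemLp a 2 (volume.restrict K)) :
    AEStronglyMeasurable a (volume.restrict V) := by
  obtain ⟨F, hF, hFV, hU, _⟩ := hV.exists_iUnion_isClosed
  have hVU : V = ⋃ p : ℕ × ℕ, (F p.1 ∩ compactCovering ℍ p.2) := by
    ext z
    rw [mem_iUnion]
    constructor
    · intro hz
      rw [← hU, mem_iUnion] at hz
      obtain ⟨i, hi⟩ := hz
      obtain ⟨j, hj⟩ := exists_mem_compactCovering z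
      exact ⟨(i, j), hi, hj⟩
    · rintro ⟨p, hp, _⟩
      exact hFV _ hp
  rw [hVU, aestronglyMeasurable_iUnion_iff]
  intro p
  exact (ha _ ((isCompact_compactCovering ℍ p.2).inter_left (hF p.1))
    (inter_subset_left.trans (hFV p.1))).1

end SCM

open SCM

theorem stmtSC (hL : StmtLim) : StmtSC := by
  intro f t hft V hV ρ hloc hmode
  obtain ⟨μ, hμ, hlim⟩ := hL f t hft
  have hm : ∀ n : ℕ, AEStronglyMeasurable (ρ n) (volume.restrict V) := fun n => aesm hV (hloc n)
  let r : ℕ → ℍ → ℂ := fun n => (hm n).mk (ρ n)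
  have hr : ∀ n, ρ n =ᵐ[volume.restrict V] r n := fun n => (hm n).ae_eq_mk
  have hrm : ∀ n, Measurable (r n) := fun n => (hm n).stronglyMeasurable_mk.measurable
  have hrloc : ∀ (n : ℕ) (K : Set ℍ), IsCompact K → K ⊆ V →
      MemLp (r n) 2 (volume.restrict K) := fun n K hK hKV =>
    (memLp_congr_ae (ae_restrict_of_ae_restrict_of_subset hKV (hr n))).mp (hloc n K hK hKV)
  have hrmode : ∀ (n : ℕ) (φ : ℂ → ℂ), Test (UpperHalfPlane.coe '' V) φ →
      ∫ g, φ (base g) * ze g ^ (-(n : ℤ)) ∂μ = ∫ z : ℍ, φ z * r n z := by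
    intro n φ hφ
    rw [← integral_congr_V hφ (hr n)]
    exact tendsto_nhds_unique (hlim n φ (test_H0 hφ))
      ((hmode n φ hφ).mono_left Nat.hyperfilter_le_atTop)
  let ρ' : ℤ → ℍ → ℂ := fun n => if 0 ≤ n then r n.toNat else fun z => conj (r n.natAbs z)
  refine ⟨μ, ρ', hμ, ⟨hV, ?_, ?_, ?_⟩, ?_⟩
  · intro n
    by_cases hn : 0 ≤ n
    · simp only [ρ', if_pos hn]
      exact hrm _
    · simp only [ρ', if_neg hn]
      exact Complex.continuous_conj.measurable.comp (hrm _)
  · intro n K hK hKV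
    by_cases hn : 0 ≤ n
    · simp only [ρ', if_pos hn]
      exact hrloc _ K hK hKV
    · simp only [ρ', if_neg hn]
      refine (hrloc n.natAbs K hK hKV).congr_norm
        (Complex.continuous_conj.measurable.comp (hrm _)).aestronglyMeasurable ?_
      exact Filter.Eventually.of_forall fun z => (RCLike.norm_conj _).symm
  · intro n φ hφ
    by_cases hn : 0 ≤ n
    · simp only [ρ', if_pos hn]
      rw [← hrmode _ φ hφ, Int.toNat_of_nonneg hn]
    · simp only [ρ', if_neg hn]
      have h := congrArg conj (hrmode n.natAbs _ (test_conj hφ))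
      rw [← integral_conj, ← integral_conj] at h
      simp only [map_mul, Complex.conj_conj] at h
      rw [← h]
      refine integral_congr_ae (Filter.Eventually.of_forall fun g => ?_)
      simp only
      congr 1
      rw [map_zpow₀, ← Complex.inv_eq_conj (norm_ze g), inv_zpow, ← zpow_neg]
      congr 1
      omega
  · intro n
    filter_upwards [hr n] with z hz
    simp only [ρ', Int.natCast_nonneg, if_true, Int.toNat_natCast]
    exact hz.symm

end

end Pool.Agent.A54.Dyn
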