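import Pool.Agent.Lib.MP_a54f13_nt.Dyn.Spec

/-!
Choice of a good point (`StmtSel`), for MP_a54f13_nt.
-/

set_option autoImplicit false

namespace Pool.Agent.A54.Dyn

open MeasureTheory Filter Topology Set
open scoped ComplexConjugate UpperHalfPlane MatrixGroups ENNReal ContDiff

namespace SelM

/-- `∃ r₁ > 0, ∀ 0 < r < r₁` as an eventual statement -/
lemma ev_iff {P : ℝ → Prop} :
    (∃ r₁ : ℝ, 0 < r₁ ∧ ∀ r : ℝ, 0 < r → r < r₁ → P r) ↔ ∀ᶠ r in 𝓝[>] (0 : ℝ), P r := by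
  rw [eventually_nhdsWithin_iff]
  constructor
  · rintro ⟨r₁, h1, h2⟩
    filter_upwards [gt_mem_nhds h1] with r hr hr0
    exact h2 r hr0 hr
  · intro h
    obtain ⟨r₁, h1, h2⟩ := Metric.eventually_nhds_iff.mp h
    refine ⟨r₁, h1, fun r h3 h4 => h2 (y := r) ?_ h3⟩
    rw [Real.dist_eq, sub_zero, abs_of_pos h3]
    exact h4

/-- Chebyshev's inequality -/
lemma cheb {μ : Measure G} {A : Set G} {f : G → ℝ≥0∞} (hf : Measurable f)
    {c s θ : ℝ} (hc : 0 < c) (hs : 0 < s)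
    (h : ∫⁻ w in A, f w ∂μ ≤ ENNReal.ofReal (c * θ * s)) :
    μ ({w | ENNReal.ofReal (c * s) < f w} ∩ A) ≤ ENNReal.ofReal θ := by
  have h1 := mul_meas_ge_le_lintegral₀ (μ := μ.restrict A) hf.aemeasurable (ENNReal.ofReal (c * s))
  have h2 : μ ({w | ENNReal.ofReal (c * s) < f w} ∩ A) ≤
      (μ.restrict A) {w | ENNReal.ofReal (c * s) ≤ f w} := by
    rw [Measure.restrict_apply (measurableSet_le measurable_const hf)]
    apply measure_mono
    rintro w ⟨h3, h4⟩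
    exact ⟨(show ENNReal.ofReal (c * s) < f w from h3).le, h4⟩
  have hcs : 0 < c * s := mul_pos hc hs
  have h0 : ENNReal.ofReal (c * s) ≠ 0 := by
    rw [Ne, ENNReal.ofReal_eq_zero, not_le]; exact hcs
  have h4 : ENNReal.ofReal (c * s) * μ ({w | ENNReal.ofReal (c * s) < f w} ∩ A) ≤
      ENNReal.ofReal (c * s) * ENNReal.ofReal θ := by
    rw [← ENNReal.ofReal_mul hcs.le, show c * s * θ = c * θ * s by ring]
    exact (mul_le_mul_right h2 _).trans (h1.trans h)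
  exact (ENNReal.mul_le_mul_iff_right h0 ENNReal.ofReal_ne_top).mp h4

lemma measurable_entry (i j : Fin 2) : Measurable (fun g : G => g i j) :=
  (continuous_entry i j).measurable

lemma measurable_cX : Measurable cX := (measurable_entry 0 1).div (measurable_entry 1 1)
lemma measurable_cY : Measurable cY := (measurable_entry 1 0).div (measurable_entry 0 0)
lemma measurable_cU : Measurable cU :=
  Real.measurable_log.comp ((measurable_entry 0 0).div (measurable_entry 1 1))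

lemma measurableSet_Bx (L r : ℝ) : MeasurableSet (Bx L r) := by
  have h1 : MeasurableSet {g : G | 0 < g 0 0} :=
    measurableSet_lt measurable_const (measurable_entry 0 0)
  have h2 : MeasurableSet {g : G | 0 < g 1 1} :=
    measurableSet_lt measurable_const (measurable_entry 1 1)
  have h3 : MeasurableSet {g : G | |cX g| < L} :=
    measurableSet_lt measurable_cX.abs measurable_const
  have h4 : MeasurableSet {g : G | |cY g| < L} :=
    measurableSet_lt measurable_cY.abs measurable_const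
  have h5 : MeasurableSet {g : G | |cU g| < r} :=
    measurableSet_lt measurable_cU.abs measurable_const
  exact (h1.inter h2).inter ((h3.inter h4).inter h5)

lemma Bx_mono {L r L' r' : ℝ} (hL : L ≤ L') (hr : r ≤ r') : Bx L r ⊆ Bx L' r' := by
  rintro g ⟨h1, ⟨h2, h3⟩, h4⟩
  exact ⟨h1, ⟨lt_of_lt_of_le h2 hL, lt_of_lt_of_le h3 hL⟩, lt_of_lt_of_le h4 hr⟩

lemma measurable_box {μ : Measure G} [SFinite μ] {S B : Set G} (hS : MeasurableSet S)
    (hB : MeasurableSet B) : Measurable (fun w : G => μ ({v | w⁻¹ * v ∈ S} ∩ B)) := by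
  have h1 : MeasurableSet {p : G × G | p.1⁻¹ * p.2 ∈ S ∧ p.2 ∈ B} := by
    have h2 : Measurable (fun p : G × G => p.1⁻¹ * p.2) := by fun_prop
    exact (h2 hS).inter (measurable_snd hB)
  exact measurable_measure_prodMk_left h1

lemma measurable_HH {V : Set ℍ} {ρ : ℤ → ℍ → ℂ} {μ : Measure G} (h : Mod V ρ μ) (m : ℕ) :
    Measurable (HH ρ m) := by
  unfold HH
  apply Complex.measurable_re.comp
  apply Finset.measurable_sum
  intro j _
  have h1 : Measurable (fun v : G => ze v ^ ((j : ℤ) - m)) :=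
    (continuous_ze.zpow₀ _ (fun v => Or.inl (ze_ne v))).measurable
  exact ((measurable_const.mul h1)).mul ((h.meas _).comp measurable_base)

lemma measurable_aa {V : Set ℍ} {ρ : ℤ → ℍ → ℂ} {μ : Measure G} (h : Mod V ρ μ) :
    Measurable (aa ρ) := by
  unfold aa
  exact (Measurable.iInf (fun m => measurable_HH h m)).div_const 2

lemma measurable_tau {μ : Measure G} (h : TauP μ) {R : Set (ℝ × ℝ)} (hR : MeasurableSet R) :
    Measurable (fun v => tau μ v R) :=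
  (Measure.measurable_coe hR).comp h.meas

lemma measurableSet_Sq2 (L : ℝ) : MeasurableSet (Sq2 L) :=
  (measurableSet_lt measurable_fst.abs measurable_const).inter
    (measurableSet_lt measurable_snd.abs measurable_const)

lemma measurableSet_strip (a b : ℝ) : MeasurableSet {p : ℝ × ℝ | a ≤ p.1 + p.2 ∧ p.1 + p.2 < b} :=
  (measurableSet_le measurable_const (measurable_fst.add measurable_snd)).inter
    (measurableSet_lt (measurable_fst.add measurable_snd) measurable_const)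

/-- a point outside finitely many small sets -/
lemma exists_good {μ : Measure G} {A : Set G} {mA θ : ℝ} (hmA : 0 < mA)
    (hmA' : ENNReal.ofReal mA = μ A) (N : ℕ) (hθ0 : 0 < θ) (hθ : θ * (2 * N + 3) ≤ mA / 2)
    (S₁ : ℤ → Set G) (S₂ S₃ S₄ S₅ : Set G)
    (h1 : ∀ k ∈ Finset.Ico (-(N : ℤ)) N, μ (S₁ k ∩ A) ≤ ENNReal.ofReal θ)
    (h2 : μ (S₂ ∩ A) ≤ ENNReal.ofReal θ) (h3 : μ (S₃ ∩ A) ≤ ENNReal.ofReal (mA / 4))
    (h4 : μ (S₄ ∩ A) ≤ ENNReal.ofReal θ) (h5 : μ (S₅ ∩ A) ≤ ENNReal.ofReal θ) :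
    ∃ w ∈ A, (∀ k ∈ Finset.Ico (-(N : ℤ)) N, w ∉ S₁ k) ∧ w ∉ S₂ ∧ w ∉ S₃ ∧ w ∉ S₄ ∧ w ∉ S₅ := by
  by_contra hcon
  push Not at hcon
  have hsub : A ⊆ (⋃ k ∈ Finset.Ico (-(N : ℤ)) N, S₁ k ∩ A) ∪ ((S₂ ∩ A) ∪ ((S₃ ∩ A) ∪
      ((S₄ ∩ A) ∪ (S₅ ∩ A)))) := by
    intro w hw
    by_cases c1 : ∀ k ∈ Finset.Ico (-(N : ℤ)) N, w ∉ S₁ k
    · right
      by_cases c2 : w ∉ S₂
      · right
        by_cases c3 : w ∉ S₃
        · right
          by_cases c4 : w ∉ S₄
          · right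
            exact ⟨hcon w hw c1 c2 c3 c4, hw⟩
          · left; exact ⟨not_not.mp c4, hw⟩
        · left; exact ⟨not_not.mp c3, hw⟩
      · left; exact ⟨not_not.mp c2, hw⟩
    · left
      push Not at c1
      obtain ⟨k, hk, hk2⟩ := c1
      exact mem_iUnion₂.mpr ⟨k, hk, hk2, hw⟩
  have hcard : (Finset.Ico (-(N : ℤ)) N).card = 2 * N := by
    rw [Int.card_Ico]; omega
  have hm : μ A ≤ ENNReal.ofReal ((2 * N) * θ + (θ + (mA / 4 + (θ + θ)))) := by
    calc μ A ≤ _ := measure_mono hsub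
      _ ≤ μ (⋃ k ∈ Finset.Ico (-(N : ℤ)) N, S₁ k ∩ A) + (μ (S₂ ∩ A) + (μ (S₃ ∩ A) +
          (μ (S₄ ∩ A) + μ (S₅ ∩ A)))) := by
        refine (measure_union_le _ _).trans (add_le_add_right ?_ _)
        refine (measure_union_le _ _).trans (add_le_add_right ?_ _)
        refine (measure_union_le _ _).trans (add_le_add_right ?_ _)
        exact measure_union_le _ _
      _ ≤ (∑ _k ∈ Finset.Ico (-(N : ℤ)) N, ENNReal.ofReal θ) + (ENNReal.ofReal θ +
          (ENNReal.ofReal (mA / 4) + (ENNReal.ofReal θ + ENNReal.ofReal θ))) := by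
        refine add_le_add ((measure_biUnion_finset_le _ _).trans (Finset.sum_le_sum h1)) ?_
        exact add_le_add h2 (add_le_add h3 (add_le_add h4 h5))
      _ = ENNReal.ofReal ((2 * N) * θ + (θ + (mA / 4 + (θ + θ)))) := by
        rw [Finset.sum_const, hcard, nsmul_eq_mul, ENNReal.ofReal_add (by positivity) (by positivity),
          ENNReal.ofReal_add (by positivity) (by positivity),
          ENNReal.ofReal_add (by positivity) (by positivity),
          ENNReal.ofReal_add (by positivity) (by positivity),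
          ENNReal.ofReal_mul (by positivity)]
        congr 2
        rw [ENNReal.ofReal_mul (by norm_num), ENNReal.ofReal_natCast]
        push_cast
        norm_num
  rw [← hmA', ENNReal.ofReal_le_ofReal_iff (by positivity)] at hm
  nlinarith

end SelM

open SelM in
theorem stmtSel (hF : StmtF1) (hZ : StmtZone) (hZb : StmtZbox) (hT : StmtTau) : StmtSel := by
  intro V ρ μ hμ hρ K hK hKV A a₁ a₂ hA hAK hA0 ha₁ haa
  have := hμ.fin
  have hfin : μ A < ⊤ := lt_of_le_of_lt (measure_mono hAK) (isCompact_base hK).measure_lt_top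
  have hTau := hT μ hμ
  obtain ⟨L₀, hL₀, hF1⟩ := hF V ρ μ hμ hρ K hK hKV
  refine ⟨max (L₀ * 3) 1, le_max_right _ _, ?_⟩
  intro L hL κ₆ hκ₆
  have hL1 : 1 ≤ L := (le_max_right _ _).trans hL
  have hL3 : L₀ * 3 ≤ L := (le_max_left _ _).trans hL
  set mA := (μ A).toReal with hmAdef
  have hmA : 0 < mA := ENNReal.toReal_pos hA0.ne' hfin.ne
  have hmA' : ENNReal.ofReal mA = μ A := ENNReal.ofReal_toReal hfin.ne
  obtain ⟨δ, r3, hδ, hr3, hZ3⟩ := hZ V ρ μ hμ hρ K hK hKV (2 * L) (κ₆ / 2 * (mA / 4))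
    (by positivity) (by positivity)
  refine ⟨δ, hδ, ?_⟩
  intro 𝒜 h𝒜 h𝒜δ ℬ hℬ hℬ0 N κ hN hκ
  have hNpos : (0 : ℝ) < N := by exact_mod_cast hN
  set θ := mA / (2 * (2 * N + 3)) with hθdef
  have hθ0 : 0 < θ := by positivity
  have hθ : θ * (2 * N + 3) ≤ mA / 2 := by
    rw [hθdef]; field_simp; exact le_refl _
  set κ' := min κ (κ₆ / 2) with hκ'
  have hκ'0 : 0 < κ' := lt_min hκ (by positivity)
  rw [ev_iff] at h𝒜δ ⊢
  -- measurability
  have mA1 : ∀ (R : Set (ℝ × ℝ)) (c : ℝ), MeasurableSet R →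
      Measurable (fun w => ‖(tau μ w R).toReal - aa ρ w * c‖ₑ) := by
    intro R c hR
    exact (((measurable_tau hTau hR).ennreal_toReal).sub
      ((measurable_aa hρ).mul_const c)).enorm
  -- (1)
  have e1 : ∀ᶠ r in 𝓝[>] (0 : ℝ), ∀ k ∈ Finset.Ico (-(N : ℤ)) N,
      μ ({w | ENNReal.ofReal (κ / N * r) < ‖(tau μ w ({p | r * (k / N) ≤ p.1 + p.2 ∧
        p.1 + p.2 < r * ((k + 1) / N)} ∩ Sq2 (L * r))).toReal -
          aa ρ w * (r * ((k + 1) / N - k / N))‖ₑ} ∩ A) ≤ ENNReal.ofReal θ := by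
    rw [Filter.eventually_all_finset]
    intro k hk
    rw [Finset.mem_Ico] at hk
    have hk1 : (-(N : ℝ)) ≤ k := by exact_mod_cast hk.1
    have hk2 : ((k : ℝ) + 1) ≤ N := by exact_mod_cast hk.2
    have hk3 : |(k : ℝ) / N| ≤ 1 := by
      rw [abs_le]
      constructor
      · rw [le_div_iff₀ hNpos]; linarith
      · rw [div_le_iff₀ hNpos]; linarith
    have hk4 : |((k : ℝ) + 1) / N| ≤ 1 := by
      rw [abs_le]
      constructor
      · rw [le_div_iff₀ hNpos]; linarith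
      · rw [div_le_iff₀ hNpos]; linarith
    have h1 := hF1 ((k : ℝ) / N) (((k : ℝ) + 1) / N) L
      (by rw [div_lt_div_iff_of_pos_right hNpos]; linarith)
      (by nlinarith) (κ / N * θ) (by positivity)
    rw [ev_iff] at h1
    filter_upwards [h1, self_mem_nhdsWithin] with r hr hr0
    have hr0' : (0 : ℝ) < r := hr0
    refine cheb (mA1 _ _ ((measurableSet_strip _ _).inter (measurableSet_Sq2 _)))
      (by positivity) hr0' ?_
    exact (lintegral_mono_set hAK).trans hr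
  -- (2)
  have e2 : ∀ᶠ r in 𝓝[>] (0 : ℝ),
      μ ({w | ENNReal.ofReal (1 * r) < ‖(tau μ w ({p | r * (-(8 * L)) ≤ p.1 + p.2 ∧
        p.1 + p.2 < r * (8 * L)} ∩ Sq2 (max (L₀ * (1 + 8 * L + 8 * L)) (4 * L) * r))).toReal -
          aa ρ w * (r * (8 * L - -(8 * L)))‖ₑ} ∩ A) ≤ ENNReal.ofReal θ := by
    have h1 := hF1 (-(8 * L)) (8 * L) (max (L₀ * (1 + 8 * L + 8 * L)) (4 * L)) (by linarith)
      (by rw [abs_neg, abs_of_pos (by linarith)]; exact le_max_left _ _) (1 * θ) (by positivity)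
    rw [ev_iff] at h1
    filter_upwards [h1, self_mem_nhdsWithin] with r hr hr0
    have hr0' : (0 : ℝ) < r := hr0
    refine cheb (mA1 _ _ ((measurableSet_strip _ _).inter (measurableSet_Sq2 _)))
      one_pos hr0' ?_
    exact (lintegral_mono_set hAK).trans hr
  -- (3)
  have e3 : ∀ᶠ r in 𝓝[>] (0 : ℝ),
      μ ({w | ENNReal.ofReal (κ₆ / 2 * r ^ 2) < μ ({v | w⁻¹ * v ∈ Bx (2 * L * r) (2 * L * r)} ∩
        (A \ 𝒜 r))} ∩ A) ≤ ENNReal.ofReal (mA / 4) := by
    have h1 : ∀ᶠ r in 𝓝[>] (0 : ℝ), r < r3 := by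
      rw [← ev_iff]; exact ⟨r3, hr3, fun r _ h => h⟩
    filter_upwards [h1, h𝒜δ, self_mem_nhdsWithin] with r hr hr1 hr0
    have hr0' : (0 : ℝ) < r := hr0
    have hm : MeasurableSet (A \ 𝒜 r) := hA.diff (h𝒜 r).1
    refine cheb (measurable_box (measurableSet_Bx _ _) hm) (by positivity) (by positivity) ?_
    have h2 := (hZ3 (A \ 𝒜 r) hm (sdiff_subset.trans hAK) hr1 r hr0' hr).2
    refine (lintegral_mono_set hAK).trans (le_trans (le_of_eq ?_) h2)
    congr 1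
    ext w
    rw [inter_comm]
  -- (4)
  obtain ⟨δ4, r4, hδ4, hr4, hZ4⟩ := hZ V ρ μ hμ hρ K hK hKV (2 * L) (κ * θ)
    (by positivity) (by positivity)
  have e4 : ∀ᶠ r in 𝓝[>] (0 : ℝ),
      μ ({w | ENNReal.ofReal (κ * r ^ 2) < μ ({v | w⁻¹ * v ∈ Bx (2 * L * r) (2 * L * r)} ∩
        ℬ r)} ∩ A) ≤ ENNReal.ofReal θ := by
    have h1 : ∀ᶠ r in 𝓝[>] (0 : ℝ), r < r4 := by
      rw [← ev_iff]; exact ⟨r4, hr4, fun r _ h => h⟩
    have h2 : ∀ᶠ r in 𝓝[>] (0 : ℝ), μ (ℬ r) < ENNReal.ofReal δ4 :=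
      (tendsto_order.1 hℬ0).2 _ (ENNReal.ofReal_pos.mpr hδ4)
    filter_upwards [h1, h2, self_mem_nhdsWithin] with r hr hr1 hr0
    have hr0' : (0 : ℝ) < r := hr0
    have hm : MeasurableSet (ℬ r) := (hℬ r).1
    refine cheb (measurable_box (measurableSet_Bx _ _) hm) (by positivity) (by positivity) ?_
    have h2 := (hZ4 (ℬ r) hm ((hℬ r).2.trans hAK) hr1.le r hr0' hr).2
    refine (lintegral_mono_set hAK).trans (le_trans (le_of_eq ?_) h2)
    congr 1
    ext w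
    rw [inter_comm]
  -- (5)
  have e5 : ∀ᶠ r in 𝓝[>] (0 : ℝ),
      μ ({w | ENNReal.ofReal (κ' * r ^ 2) < μ ({v | w⁻¹ * v ∈ Bx (2 * L * r) (2 * L * r)} ∩
        Aᶜ)} ∩ A) ≤ ENNReal.ofReal θ := by
    have h1 := hZb V ρ μ hμ hρ K hK hKV A hA hAK (2 * L) (κ' * θ) (by positivity) (by positivity)
    rw [ev_iff] at h1
    filter_upwards [h1, self_mem_nhdsWithin] with r hr hr0
    have hr0' : (0 : ℝ) < r := hr0
    refine cheb (measurable_box (measurableSet_Bx _ _) hA.compl) hκ'0 (by positivity) ?_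
    exact hr
  filter_upwards [e1, e2, e3, e4, e5, self_mem_nhdsWithin] with r h1 h2 h3 h4 h5 hr0
  have hr0' : (0 : ℝ) < r := hr0
  obtain ⟨w, hwA, g1, g2, g3, g4, g5⟩ := exists_good hmA hmA' N hθ0 hθ _ _ _ _ _ h1 h2 h3 h4 h5
  simp only [mem_ofPred_eq, not_lt] at g1 g2 g3 g4 g5
  have hbox : {v : G | w⁻¹ * v ∈ Bx (2 * L * r) r} ⊆ {v | w⁻¹ * v ∈ Bx (2 * L * r) (2 * L * r)} := by
    intro v hv
    exact Bx_mono le_rfl (by nlinarith) hv
  refine ⟨w, hwA, ?_, ?_, ?_, ?_, ?_⟩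
  · intro k hk1 hk2
    have h := g1 k (Finset.mem_Ico.mpr ⟨hk1, hk2⟩)
    rw [Real.enorm_eq_ofReal_abs, ENNReal.ofReal_le_ofReal_iff (by positivity)] at h
    apply ENNReal.ofReal_le_of_le_toReal
    have h' := (abs_le.mp h).1
    have e : r * ((aa ρ w - κ) / N) = aa ρ w * (r * (((k : ℝ) + 1) / N - k / N)) - κ / N * r := by
      field_simp
      ring
    rw [e]
    linarith
  · rw [Real.enorm_eq_ofReal_abs, ENNReal.ofReal_le_ofReal_iff (by positivity)] at g2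
    have h' := (abs_le.mp g2).2
    have hsub : Sq2 (4 * L * r) ⊆ {p | r * (-(8 * L)) ≤ p.1 + p.2 ∧ p.1 + p.2 < r * (8 * L)} ∩
        Sq2 (max (L₀ * (1 + 8 * L + 8 * L)) (4 * L) * r) := by
      rintro p ⟨hp1, hp2⟩
      have hp1' := abs_lt.mp hp1
      have hp2' := abs_lt.mp hp2
      have hm : 4 * L * r ≤ max (L₀ * (1 + 8 * L + 8 * L)) (4 * L) * r :=
        mul_le_mul_of_nonneg_right (le_max_right _ _) hr0'.le
      refine ⟨⟨by linarith [hp1'.1, hp2'.1], by linarith [hp1'.2, hp2'.2]⟩,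
        lt_of_lt_of_le hp1 hm, lt_of_lt_of_le hp2 hm⟩
    refine (measure_mono hsub).trans ?_
    have hne : tau μ w ({p | r * (-(8 * L)) ≤ p.1 + p.2 ∧ p.1 + p.2 < r * (8 * L)} ∩
        Sq2 (max (L₀ * (1 + 8 * L + 8 * L)) (4 * L) * r)) ≠ ⊤ :=
      ((measure_mono (subset_univ _)).trans_lt (hTau.fin w)).ne
    rw [← ENNReal.ofReal_toReal hne]
    apply ENNReal.ofReal_le_ofReal
    have ha := (haa w hwA).2
    have : aa ρ w * (r * (8 * L - -(8 * L))) ≤ a₂ * (r * (8 * L - -(8 * L))) :=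
      mul_le_mul_of_nonneg_right ha (by nlinarith)
    nlinarith
  · have hs : {v : G | w⁻¹ * v ∈ Bx (2 * L * r) r} \ 𝒜 r ⊆
        ({v | w⁻¹ * v ∈ Bx (2 * L * r) (2 * L * r)} ∩ (A \ 𝒜 r)) ∪
        ({v | w⁻¹ * v ∈ Bx (2 * L * r) (2 * L * r)} ∩ Aᶜ) := by
      rintro v ⟨hv1, hv2⟩
      by_cases hv3 : v ∈ A
      · left; exact ⟨hbox hv1, hv3, hv2⟩
      · right; exact ⟨hbox hv1, hv3⟩
    refine (measure_mono hs).trans ((measure_union_le _ _).trans ((add_le_add g3 g5).trans ?_))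
    rw [← ENNReal.ofReal_add (by positivity) (by positivity)]
    apply ENNReal.ofReal_le_ofReal
    have : κ' * r ^ 2 ≤ κ₆ / 2 * r ^ 2 :=
      mul_le_mul_of_nonneg_right (min_le_right _ _) (by positivity)
    linarith
  · exact (measure_mono (inter_subset_inter_left _ hbox)).trans g4
  · have hs : {v : G | w⁻¹ * v ∈ Bx (2 * L * r) r} \ A ⊆
        ({v | w⁻¹ * v ∈ Bx (2 * L * r) (2 * L * r)} ∩ Aᶜ) := by
      rintro v ⟨hv1, hv2⟩
      exact ⟨hbox hv1, hv2⟩
    refine (measure_mono hs).trans (g5.trans ?_)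
    apply ENNReal.ofReal_le_ofReal
    exact mul_le_mul_of_nonneg_right (min_le_left _ _) (by positivity)

end Pool.Agent.A54.Dyn
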