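import Pool.Agent.Lib.MP_a54f13_nt.Dyn.Spec

/-! Properties of the transversal measures. -/

set_option autoImplicit false

namespace Pool.Agent.A54.Dyn

open MeasureTheory Filter Topology Set
open scoped ComplexConjugate UpperHalfPlane MatrixGroups ENNReal ContDiff

namespace TauM

lemma measurable_entry (i j : Fin 2) : Measurable (fun g : G => g i j) :=
  (continuous_entry i j).measurable

lemma measurable_cX : Measurable cX := by
  unfold cX
  exact (measurable_entry 0 1).div (measurable_entry 1 1)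

lemma measurable_cY : Measurable cY := by
  unfold cY
  exact (measurable_entry 1 0).div (measurable_entry 0 0)

lemma measurable_cU : Measurable cU := by
  unfold cU
  exact Real.measurable_log.comp ((measurable_entry 0 0).div (measurable_entry 1 1))

lemma measurable_cP : Measurable cP := measurable_cX.prodMk measurable_cY

lemma measurableSet_dom : MeasurableSet dom := by
  have h0 : MeasurableSet {g : G | 0 < g 0 0} := measurableSet_lt measurable_const
    (measurable_entry 0 0)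
  have h1 : MeasurableSet {g : G | 0 < g 1 1} := measurableSet_lt measurable_const
    (measurable_entry 1 1)
  exact h0.inter h1

lemma measurableSet_Sc (L : ℝ) : MeasurableSet (Sc L) := by
  have h0 : MeasurableSet {p : ℝ × ℝ | |p.1| ≤ L} :=
    measurableSet_le (by fun_prop) measurable_const
  have h1 : MeasurableSet {p : ℝ × ℝ | |p.2| ≤ L} :=
    measurableSet_le (by fun_prop) measurable_const
  exact h0.inter h1

/-- the set used in the definition of `tau` -/
def QQ : Set G := {g | g ∈ dom ∧ cP g ∈ Sc (1 / 2) ∧ cU g ∈ Ico (0 : ℝ) 1}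

lemma measurableSet_QQ : MeasurableSet QQ := by
  refine measurableSet_dom.inter (MeasurableSet.inter ?_ ?_)
  · exact measurable_cP (measurableSet_Sc _)
  · exact measurable_cU measurableSet_Ico

lemma continuous_lmul (v : G) : Continuous (fun g : G => v⁻¹ * g) := continuous_const.mul continuous_id

lemma measurable_lmul (v : G) : Measurable (fun g : G => v⁻¹ * g) := (continuous_lmul v).measurable

/-- the measure `tau` on measurable sets -/
lemma tau_apply (μ : Measure G) (v : G) {R : Set (ℝ × ℝ)} (hR : MeasurableSet R) :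
    tau μ v R = μ {g | v⁻¹ * g ∈ QQ ∧ cP (v⁻¹ * g) ∈ R} := by
  have h0 : tau μ v = ((μ.map (fun g => v⁻¹ * g)).restrict QQ).map cP := rfl
  rw [h0, Measure.map_apply measurable_cP hR, Measure.restrict_apply (measurable_cP hR),
    Measure.map_apply (measurable_lmul v) ((measurable_cP hR).inter measurableSet_QQ)]
  congr 1
  ext g
  simp only [mem_preimage, mem_inter_iff, mem_ofPred_eq]
  constructor
  · rintro ⟨h1, h2⟩; exact ⟨h2, h1⟩
  · rintro ⟨h1, h2⟩; exact ⟨h2, h1⟩

/-- a compact set -/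
lemma isCompact_bdd (B : ℝ) : IsCompact {g : G | ∀ i j, |g i j| ≤ B} := by
  have h1 : IsCompact {M : Matrix (Fin 2) (Fin 2) ℝ | ∀ i j, |M i j| ≤ B} := by
    have h3 : IsCompact (Set.univ.pi fun _ : Fin 2 => Set.univ.pi fun _ : Fin 2 => Icc (-B) B) :=
      isCompact_univ_pi fun _ => isCompact_univ_pi fun _ => isCompact_Icc
    have h4 : {M : Matrix (Fin 2) (Fin 2) ℝ | ∀ i j, |M i j| ≤ B} =
        (Set.univ.pi fun _ : Fin 2 => Set.univ.pi fun _ : Fin 2 => Icc (-B) B) := by
      ext M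
      simp only [mem_ofPred_eq, abs_le]
      constructor
      · intro h i _ j _
        exact h i j
      · intro h i j
        exact h i (mem_univ _) j (mem_univ _)
    rw [h4]
    exact h3
  have h2 := Matrix.SpecialLinearGroup.isClosedEmbedding_val (n := Fin 2) (R := ℝ)
  exact h2.isCompact_preimage h1

lemma QQ_bdd {g : G} (hg : g ∈ QQ) : ∀ i j, |g i j| ≤ 2 := by
  obtain ⟨hd, hP, hU⟩ := hg
  have hX : |cX g| ≤ 1 / 2 := hP.1
  have hY : |cY g| ≤ 1 / 2 := hP.2
  have hXY : cX g * cY g ≤ 1 / 4 := by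
    calc cX g * cY g ≤ |cX g * cY g| := le_abs_self _
      _ = |cX g| * |cY g| := abs_mul _ _
      _ ≤ (1 / 2) * (1 / 2) := mul_le_mul hX hY (abs_nonneg _) (by norm_num)
      _ = 1 / 4 := by norm_num
  have hden : (3 / 4 : ℝ) ≤ 1 - cX g * cY g := by linarith
  have he1 : Real.exp (cU g) ≤ 3 := by
    have h1 : Real.exp (cU g) ≤ Real.exp 1 := Real.exp_le_exp.mpr hU.2.le
    have := Real.exp_one_lt_d9
    linarith
  have he2 : Real.exp (-cU g) ≤ 1 := by
    rw [Real.exp_le_one_iff]; linarith [hU.1]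
  have h00 : g 0 0 ^ 2 ≤ 4 := by
    rw [sq_00 hd, div_le_iff₀ (by linarith)]
    nlinarith
  have h11 : g 1 1 ^ 2 ≤ 4 := by
    rw [sq_11 hd, div_le_iff₀ (by linarith)]
    nlinarith
  have a00 : |g 0 0| ≤ 2 := abs_le_of_sq_le_sq (by linarith) (by norm_num) |> fun h => h
  have a11 : |g 1 1| ≤ 2 := abs_le_of_sq_le_sq (by linarith) (by norm_num) |> fun h => h
  have e01 : g 0 1 = cX g * g 1 1 := by
    unfold cX; rw [div_mul_cancel₀ _ hd.2.ne']
  have e10 : g 1 0 = cY g * g 0 0 := by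
    unfold cY; rw [div_mul_cancel₀ _ hd.1.ne']
  have a01 : |g 0 1| ≤ 2 := by
    rw [e01, abs_mul]
    nlinarith [abs_nonneg (cX g), abs_nonneg (g 1 1)]
  have a10 : |g 1 0| ≤ 2 := by
    rw [e10, abs_mul]
    nlinarith [abs_nonneg (cY g), abs_nonneg (g 0 0)]
  intro i j
  fin_cases i <;> fin_cases j
  · exact a00
  · exact a01
  · exact a10
  · exact a11

lemma tau_fin {μ : Measure G} (hμ : Inv μ) (v : G) : tau μ v univ < ⊤ := by
  have := hμ.fin
  rw [tau_apply μ v MeasurableSet.univ]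
  have h1 : IsCompact ((fun g : G => v⁻¹ * g) ⁻¹' {g : G | ∀ i j, |g i j| ≤ 2}) :=
    (Homeomorph.mulLeft v⁻¹).isCompact_preimage.mpr (isCompact_bdd 2)
  refine lt_of_le_of_lt (measure_mono ?_) h1.measure_lt_top
  rintro g ⟨hg, _⟩
  exact QQ_bdd hg

lemma tau_sub (μ : Measure G) (v : G) : tau μ v (Sc (1 / 2))ᶜ = 0 := by
  rw [tau_apply μ v (measurableSet_Sc _).compl]
  convert measure_empty (μ := μ)
  ext g
  simp only [mem_ofPred_eq, mem_empty_iff_false, iff_false, not_and]
  intro h1 h2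
  exact h2 h1.2.1

lemma tau_meas {μ : Measure G} (hμ : Inv μ) : Measurable (tau μ) := by
  have := hμ.fin
  refine Measure.measurable_of_measurable_coe _ fun s hs => ?_
  have h1 : MeasurableSet {q : G × G | q.1⁻¹ * q.2 ∈ QQ ∩ cP ⁻¹' s} := by
    have hc : Continuous (fun q : G × G => q.1⁻¹ * q.2) := by fun_prop
    exact hc.measurable (measurableSet_QQ.inter (measurable_cP hs))
  have h2 := measurable_measure_prodMk_left (ν := μ) h1
  convert h2 using 2 with v
  rw [tau_apply μ v hs]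
  rfl

lemma tau_left {μ : Measure G} (hμ : Inv μ) (γ : SL(2, ℤ)) (v : G) :
    tau μ (io γ * v) = tau μ v := by
  unfold tau
  have h1 : μ.map (fun g => (io γ * v)⁻¹ * g) = μ.map (fun g => v⁻¹ * g) := by
    have h2 := hμ.left γ⁻¹
    have h3 : (fun g : G => (io γ * v)⁻¹ * g) = (fun g => v⁻¹ * g) ∘ (fun g => io γ⁻¹ * g) := by
      ext1 g
      have h4 : io γ⁻¹ = (io γ)⁻¹ := by unfold io; exact map_inv _ _
      simp only [Function.comp, h4, mul_inv_rev, mul_assoc]
    have hm : Measurable (fun g : G => io γ⁻¹ * g) :=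
      (continuous_const.mul continuous_id).measurable
    rw [h3, ← Measure.map_map (measurable_lmul v) hm, h2]
  rw [h1]

lemma measurable_ph (t : ℝ) : Measurable (ph t) := by
  unfold ph
  fun_prop

lemma tau_flow (hP : StmtProd) {μ : Measure G} (hμ : Inv μ) (v : G) (t : ℝ) (R : Set (ℝ × ℝ))
    (hR : MeasurableSet R) (hR1 : R ⊆ Sc (1 / 2)) (hR2 : ph t ⁻¹' R ⊆ Sc (1 / 2)) :
    tau μ (v * fl t) R = tau μ v (ph t ⁻¹' R) := by
  rw [tau_apply μ _ hR]
  have hS : MeasurableSet ((ph t ⁻¹' R) ×ˢ Ico t (t + 1)) :=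
    (measurable_ph t hR).prod measurableSet_Ico
  have h1 := hP μ hμ v ((ph t ⁻¹' R) ×ˢ Ico t (t + 1)) hS (fun p hp => hR2 hp.1)
  rw [Measure.prod_prod, Real.volume_Ico] at h1
  have h2 : ENNReal.ofReal (t + 1 - t) = 1 := by simp
  rw [h2, mul_one] at h1
  rw [← h1]
  congr 1
  ext g
  simp only [mem_ofPred_eq, mem_prod, mem_preimage, QQ]
  have e1 : (v * fl t)⁻¹ * g = fl (-t) * (v⁻¹ * g) := by
    rw [fl_neg, mul_inv_rev, mul_assoc]
  rw [e1, fl_mul_mem]
  have e2 : cP (fl (-t) * (v⁻¹ * g)) = ph t (cP (v⁻¹ * g)) := by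
    unfold cP ph
    rw [cX_fl_mul, cY_fl_mul, neg_neg]
  rw [e2]
  constructor
  · rintro ⟨⟨h1, h2, h3⟩, h4⟩
    rw [cU_fl_mul h1] at h3
    exact ⟨h1, h4, by linarith [h3.1], by linarith [h3.2]⟩
  · rintro ⟨h1, h2, h3⟩
    refine ⟨⟨h1, hR1 h2, ?_⟩, h2⟩
    rw [cU_fl_mul h1]
    exact ⟨by linarith [h3.1], by linarith [h3.2]⟩

end TauM

theorem stmtTau (hP : StmtProd) : StmtTau := fun μ hμ =>
  { fin := TauM.tau_fin hμ
    sub := TauM.tau_sub μ
    meas := TauM.tau_meas hμ
    left := TauM.tau_left hμ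
    flow := TauM.tau_flow hP hμ }

end Pool.Agent.A54.Dyn
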