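import Pool.Agent.Lib.MP_a54f13_nt.Dyn.Spec

set_option autoImplicit false

namespace Pool.Agent.A54.Dyn

open MeasureTheory Filter Topology Set
open scoped ComplexConjugate UpperHalfPlane MatrixGroups ENNReal

namespace Tc4M

/-- the comparison of the two scaling factors -/
lemma factor_le {Λ Λ' L r u x y : ℝ} (hΛ : 1 < Λ) (hΛ' : Λ < Λ') (hL : 1 ≤ L) (hr : 0 < r)
    (hr1 : r * (200 * L) ≤ 1) (hr2 : 4 * Λ' * L * r ≤ Λ' - Λ) (hu : |u| < r)
    (hx : |x| ≤ L * r / 50) (hy : |y| ≤ L * r / 50) :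
    Λ * (Real.exp (-u) / (1 - x)) ≤ Λ' * (Real.exp u / (1 - y)) := by
  have hLr : 0 < L * r := by positivity
  have hLr1 : L * r ≤ 1 / 200 := by linarith
  obtain ⟨hx1, hx2⟩ := abs_le.mp hx
  obtain ⟨hy1, hy2⟩ := abs_le.mp hy
  obtain ⟨hu1, hu2⟩ := abs_lt.mp hu
  have hrL : r ≤ L * r := by nlinarith
  have h1x : 0 < 1 - x := by linarith
  have h1y : 0 < 1 - y := by linarith
  have he : 1 - 2 * (L * r) ≤ Real.exp (2 * u) := by
    have := Real.add_one_le_exp (2 * u)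
    linarith
  have he2 : Real.exp u = Real.exp (2 * u) * Real.exp (-u) := by
    rw [← Real.exp_add]; ring_nf
  rw [he2, mul_div_assoc', mul_div_assoc', div_le_div_iff₀ h1x h1y]
  have hpos := Real.exp_pos (-u)
  have key : Λ * (1 - y) ≤ Λ' * Real.exp (2 * u) * (1 - x) := by
    have e1 : Λ * (1 - y) ≤ Λ * (1 + L * r / 50) := by
      apply mul_le_mul_of_nonneg_left _ (by linarith); linarith
    have e2 : (1 - 2 * (L * r)) * (1 - L * r / 50) ≤ Real.exp (2 * u) * (1 - x) := by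
      apply mul_le_mul he (by linarith) (by linarith) (Real.exp_pos _).le
    have e3 : Λ' * ((1 - 2 * (L * r)) * (1 - L * r / 50)) ≤ Λ' * (Real.exp (2 * u) * (1 - x)) :=
      mul_le_mul_of_nonneg_left e2 (by linarith)
    have e4 : 1 - 3 * (L * r) ≤ (1 - 2 * (L * r)) * (1 - L * r / 50) := by nlinarith
    have e5 : Λ' * (1 - 3 * (L * r)) ≤ Λ' * ((1 - 2 * (L * r)) * (1 - L * r / 50)) :=
      mul_le_mul_of_nonneg_left e4 (by linarith)
    have e6 : Λ * (1 + L * r / 50) ≤ Λ' * (1 - 3 * (L * r)) := by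
      have : Λ * (L * r) ≤ Λ' * (L * r) := mul_le_mul_of_nonneg_right hΛ'.le hLr.le
      nlinarith
    calc Λ * (1 - y) ≤ Λ * (1 + L * r / 50) := e1
      _ ≤ Λ' * (1 - 3 * (L * r)) := e6
      _ ≤ _ := e5
      _ ≤ Λ' * (Real.exp (2 * u) * (1 - x)) := e3
      _ = _ := by ring
  calc Λ * Real.exp (-u) * (1 - y) = (Λ * (1 - y)) * Real.exp (-u) := by ring
    _ ≤ (Λ' * Real.exp (2 * u) * (1 - x)) * Real.exp (-u) :=
        mul_le_mul_of_nonneg_right key hpos.le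
    _ = _ := by ring

lemma factor_le_two {L r u x : ℝ} (hL : 1 ≤ L) (hr : 0 < r)
    (hr1 : r * (200 * L) ≤ 1) (hu : |u| < r) (hx : |x| ≤ L * r / 50) :
    Real.exp u / (1 - x) ≤ 2 := by
  have hLr : 0 < L * r := by positivity
  have hLr1 : L * r ≤ 1 / 200 := by linarith
  obtain ⟨hx1, hx2⟩ := abs_le.mp hx
  obtain ⟨hu1, hu2⟩ := abs_lt.mp hu
  have hrL : r ≤ L * r := by nlinarith
  have h1x : 0 < 1 - x := by linarith
  rw [div_le_iff₀ h1x]
  have h1 : Real.exp u * Real.exp (-u) = 1 := by rw [← Real.exp_add]; simp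
  have h2 : 1 / 2 < Real.exp (-u) := by
    have := Real.add_one_le_exp (-u)
    linarith
  have h3 := Real.exp_pos u
  have h4 : 199 / 200 ≤ Real.exp (-u) := by
    have := Real.add_one_le_exp (-u)
    linarith
  have h5 : Real.exp u * (199 / 200) ≤ 1 := by
    calc Real.exp u * (199 / 200) ≤ Real.exp u * Real.exp (-u) :=
          mul_le_mul_of_nonneg_left h4 h3.le
      _ = 1 := h1
  linarith

lemma prod_small {L r a b : ℝ} (hL : 1 ≤ L) (hr : 0 < r) (hr1 : r * (200 * L) ≤ 1)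
    (ha : |a| ≤ 2 * L) (hb : |b| ≤ 2 * L) : |r * a * (r * b)| ≤ L * r / 50 := by
  have h1 : |r * a * (r * b)| = r * r * (|a| * |b|) := by
    rw [abs_mul, abs_mul, abs_mul, abs_of_pos hr]; ring
  rw [h1]
  have h2 : |a| * |b| ≤ (2 * L) * (2 * L) := mul_le_mul ha hb (abs_nonneg _) (by linarith)
  have h3 : r * r * (|a| * |b|) ≤ r * r * ((2 * L) * (2 * L)) :=
    mul_le_mul_of_nonneg_left h2 (by positivity)
  have h4 : r * r * ((2 * L) * (2 * L)) = (r * (200 * L)) * (L * r / 50) := by ring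
  have h5 : (r * (200 * L)) * (L * r / 50) ≤ 1 * (L * r / 50) :=
    mul_le_mul_of_nonneg_right hr1 (by positivity)
  linarith

lemma rel_mem {Λ Λ' L r u a1 a2 b1 b2 : ℝ} (hΛ : 1 < Λ) (hΛ' : Λ < Λ') (hL : 1 ≤ L) (hr : 0 < r)
    (hr1 : r * (200 * L) ≤ 1) (hr2 : 4 * Λ' * L * r ≤ Λ' - Λ) (hu : |u| < r)
    (ha1 : |a1| ≤ 2 * L) (ha2 : |a2| ≤ 2 * L) (hb1 : |b1| ≤ 2 * L) (hb2 : |b2| ≤ 2 * L)
    (hc : ((b1 - a1, b2 - a2) : ℝ × ℝ) ∈ Cone Λ) :
    rel (r * a1, r * a2) u (r * b1, r * b2) ∈ Cone Λ' ∩ Sc (8 * L * r) := by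
  have hx := prod_small hL hr hr1 ha2 hb1
  have hy := prod_small hL hr hr1 ha1 hb2
  set x := r * a2 * (r * b1) with hxd
  set y := r * a1 * (r * b2) with hyd
  have hu' : |-u| < r := by rwa [abs_neg]
  have hLr : 0 < L * r := by positivity
  have hLr1 : L * r ≤ 1 / 200 := by linarith
  have hx' := abs_le.mp hx
  have hy' := abs_le.mp hy
  have h1x : 0 < 1 - x := by linarith
  have h1y : 0 < 1 - y := by linarith
  set A := Real.exp (-u) / (1 - x) with hA
  set B := Real.exp u / (1 - y) with hB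
  have hA0 : 0 < A := div_pos (Real.exp_pos _) h1x
  have hB0 : 0 < B := div_pos (Real.exp_pos _) h1y
  have hAB : Λ * A ≤ Λ' * B := factor_le hΛ hΛ' hL hr hr1 hr2 hu hx hy
  have hBA : Λ * B ≤ Λ' * A := by
    have := factor_le (u := -u) hΛ hΛ' hL hr hr1 hr2 hu' hy hx
    rwa [neg_neg] at this
  have hA2 : A ≤ 2 := factor_le_two hL hr hr1 hu' hx
  have hB2 : B ≤ 2 := factor_le_two hL hr hr1 hu hy
  have e1 : (rel (r * a1, r * a2) u (r * b1, r * b2)).1 = A * (r * (b1 - a1)) := by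
    simp only [rel, hA, hxd]
    ring
  have e2 : (rel (r * a1, r * a2) u (r * b1, r * b2)).2 = B * (r * (b2 - a2)) := by
    simp only [rel, hB, hyd]
    ring
  obtain ⟨c1, c2, c3⟩ := hc
  simp only at c1 c2 c3
  have a1' : |(rel (r * a1, r * a2) u (r * b1, r * b2)).1| = A * (r * |b1 - a1|) := by
    rw [e1, abs_mul, abs_mul, abs_of_pos hA0, abs_of_pos hr]
  have a2' : |(rel (r * a1, r * a2) u (r * b1, r * b2)).2| = B * (r * |b2 - a2|) := by
    rw [e2, abs_mul, abs_mul, abs_of_pos hB0, abs_of_pos hr]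
  have d1 : |b1 - a1| ≤ 4 * L := by
    calc |b1 - a1| ≤ |b1| + |a1| := abs_sub _ _
      _ ≤ _ := by linarith
  have d2 : |b2 - a2| ≤ 4 * L := by
    calc |b2 - a2| ≤ |b2| + |a2| := abs_sub _ _
      _ ≤ _ := by linarith
  refine ⟨⟨?_, ?_, ?_⟩, ?_, ?_⟩
  · rw [e1, e2]
    have : A * (r * (b1 - a1)) * (B * (r * (b2 - a2))) =
        (A * B * r * r) * ((b1 - a1) * (b2 - a2)) := by ring
    rw [this]
    exact mul_neg_of_pos_of_neg (by positivity) c1
  · rw [a1', a2']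
    calc A * (r * |b1 - a1|) ≤ A * (r * (Λ * |b2 - a2|)) := by gcongr
      _ = (Λ * A) * (r * |b2 - a2|) := by ring
      _ ≤ (Λ' * B) * (r * |b2 - a2|) := by gcongr
      _ = _ := by ring
  · rw [a1', a2']
    calc B * (r * |b2 - a2|) ≤ B * (r * (Λ * |b1 - a1|)) := by gcongr
      _ = (Λ * B) * (r * |b1 - a1|) := by ring
      _ ≤ (Λ' * A) * (r * |b1 - a1|) := by gcongr
      _ = _ := by ring
  · rw [a1']
    calc A * (r * |b1 - a1|) ≤ 2 * (r * (4 * L)) := by gcongr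
      _ = _ := by ring
  · rw [a2']
    calc B * (r * |b2 - a2|) ≤ 2 * (r * (4 * L)) := by gcongr
      _ = _ := by ring

lemma cell_bound {N : ℕ} {k l : ℤ} {L : ℝ} (hN : 1 ≤ N) (hL : 1 ≤ L)
    (h : (cell N k l ∩ Sq2 L).Nonempty) : ∀ p ∈ cell N k l, |p.1| < 2 * L ∧ |p.2| < 2 * L := by
  obtain ⟨q, ⟨q1, q2, q3, q4⟩, q5, q6⟩ := h
  rintro p ⟨p1, p2, p3, p4⟩
  have hN0 : (0 : ℝ) < N := by exact_mod_cast hN
  have hN1 : (1 : ℝ) / N ≤ 1 := by
    rw [div_le_one hN0]; exact_mod_cast hN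
  have e1 : ((k : ℝ) + 1) / N = k / N + 1 / N := by ring
  have e2 : ((l : ℝ) + 1) / N = l / N + 1 / N := by ring
  rw [e1] at q2 p2
  rw [e2] at q4 p4
  rw [abs_lt] at q5 q6
  constructor
  · rw [abs_lt]; constructor <;> linarith
  · rw [abs_lt]; constructor <;> linarith

lemma measurableSet_cell (N : ℕ) (k l : ℤ) : MeasurableSet (cell N k l) := by
  have h1 : MeasurableSet {p : ℝ × ℝ | (k : ℝ) / N ≤ p.1} :=
    measurableSet_le measurable_const measurable_fst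
  have h2 : MeasurableSet {p : ℝ × ℝ | p.1 < ((k : ℝ) + 1) / N} :=
    measurableSet_lt measurable_fst measurable_const
  have h3 : MeasurableSet {p : ℝ × ℝ | (l : ℝ) / N ≤ p.2} :=
    measurableSet_le measurable_const measurable_snd
  have h4 : MeasurableSet {p : ℝ × ℝ | p.2 < ((l : ℝ) + 1) / N} :=
    measurableSet_lt measurable_snd measurable_const
  exact h1.inter (h2.inter (h3.inter h4))

lemma measurableSet_scell (r : ℝ) (N : ℕ) (k l : ℤ) : MeasurableSet (scell r N k l) := by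
  have h : Measurable (fun p : ℝ × ℝ => ((p.1 / r, p.2 / r) : ℝ × ℝ)) :=
    (measurable_fst.div_const r).prodMk (measurable_snd.div_const r)
  exact h (measurableSet_cell N k l)

lemma measurableSet_Cone (Λ : ℝ) : MeasurableSet (Cone Λ) := by
  have h1 : MeasurableSet {p : ℝ × ℝ | p.1 * p.2 < 0} :=
    measurableSet_lt (measurable_fst.mul measurable_snd) measurable_const
  have h2 : MeasurableSet {p : ℝ × ℝ | |p.1| ≤ Λ * |p.2|} := by
    apply measurableSet_le <;> fun_prop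
  have h3 : MeasurableSet {p : ℝ × ℝ | |p.2| ≤ Λ * |p.1|} := by
    apply measurableSet_le <;> fun_prop
  exact h1.inter (h2.inter h3)

lemma measurableSet_Sc (L : ℝ) : MeasurableSet (Sc L) := by
  have h2 : MeasurableSet {p : ℝ × ℝ | |p.1| ≤ L} := by
    apply measurableSet_le <;> fun_prop
  have h3 : MeasurableSet {p : ℝ × ℝ | |p.2| ≤ L} := by
    apply measurableSet_le <;> fun_prop
  exact h2.inter h3

end Tc4M

open Tc4M

theorem stmtTc4 (hP : StmtProd) (_hT : StmtTau) (hR : StmtTrans) : StmtTc4 := by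
  intro μ hμ Λ Λ' L κ N hΛ hΛ' hL hκ hN
  have hL0 : 0 < L := by linarith
  have hΛ0 : 0 < Λ' := by linarith
  refine ⟨min (1 / (200 * L)) ((Λ' - Λ) / (4 * Λ' * L)), ?_, ?_⟩
  · apply lt_min
    · positivity
    · apply div_pos (by linarith) (by positivity)
  intro r hr hrr w A hb1 hb2 k l k' l' hne hne' hcone
  have hr1 : r * (200 * L) ≤ 1 := by
    have := (hrr.trans_le (min_le_left _ _)).le
    rwa [le_div_iff₀ (by positivity)] at this
  have hr2 : 4 * Λ' * L * r ≤ Λ' - Λ := by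
    have := (hrr.trans_le (min_le_right _ _)).le
    rw [le_div_iff₀ (by positivity)] at this
    linarith
  have hLr1 : L * r ≤ 1 / 200 := by linarith
  have hrL : r ≤ L * r := by nlinarith
  by_contra hcon
  rw [not_or] at hcon
  obtain ⟨hc1, hc2⟩ := hcon
  rw [not_le] at hc1 hc2
  have hcb := cell_bound hN hL hne
  have hcb' := cell_bound hN hL hne'
  have hscb : ∀ p ∈ scell r N k l, |p.1| < 2 * L * r ∧ |p.2| < 2 * L * r := by
    intro p hp
    have h := hcb _ hp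
    simp only [abs_div, abs_of_pos hr, div_lt_iff₀ hr] at h
    exact h
  -- the set of `v` with `w⁻¹ v` in the box over the heavy cell
  set S : Set ((ℝ × ℝ) × ℝ) := scell r N k l ×ˢ Ioo (-r) r with hS
  have hSm : MeasurableSet S := (measurableSet_scell r N k l).prod measurableSet_Ioo
  have hS1 : ∀ p ∈ S, p.1 ∈ Sc (1 / 2) := by
    rintro p ⟨hp1, _⟩
    have h := hscb _ hp1
    exact ⟨by linarith [h.1], by linarith [h.2]⟩
  have hmass := hP μ hμ w S hSm hS1
  rw [hS, Measure.prod_prod, Real.volume_Ioo] at hmass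
  set E : Set G := {g | w⁻¹ * g ∈ dom ∧ (cP (w⁻¹ * g), cU (w⁻¹ * g)) ∈
    scell r N k l ×ˢ Ioo (-r) r} with hE
  have hEgt : ENNReal.ofReal (κ * r ^ 2) + ENNReal.ofReal (κ * r ^ 2) < μ E := by
    rw [hmass, ← ENNReal.ofReal_add (by positivity) (by positivity)]
    have h1 : ENNReal.ofReal (κ * r ^ 2 + κ * r ^ 2) =
        ENNReal.ofReal (κ * r) * ENNReal.ofReal (r - -r) := by
      rw [← ENNReal.ofReal_mul (by positivity)]
      congr 1
      ring
    rw [h1]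
    refine ENNReal.mul_lt_mul_left ?_ ENNReal.ofReal_ne_top hc1
    rw [Ne, ENNReal.ofReal_eq_zero, not_le]
    linarith
  have hEsub : ∀ g ∈ E, w⁻¹ * g ∈ Bx (2 * L * r) r := by
    rintro g ⟨hg1, hg2, hg3⟩
    have h := hscb _ hg2
    exact ⟨hg1, ⟨h.1, h.2⟩, abs_lt.mpr ⟨hg3.1, hg3.2⟩⟩
  have hex : ∃ v ∈ E, v ∈ A ∧ tau μ v (Cone Λ' ∩ Sc (8 * L * r)) < ENNReal.ofReal (κ * r) := by
    by_contra hno
    push Not at hno
    have hsub : E ⊆ ({v | w⁻¹ * v ∈ Bx (2 * L * r) r} ∩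
      {v | v ∈ A ∧ ENNReal.ofReal (κ * r) ≤ tau μ v (Cone Λ' ∩ Sc (8 * L * r))}) ∪
      ({v | w⁻¹ * v ∈ Bx (2 * L * r) r} \ A) := by
      intro v hv
      by_cases hvA : v ∈ A
      · exact Or.inl ⟨hEsub v hv, hvA, hno v hv hvA⟩
      · exact Or.inr ⟨hEsub v hv, hvA⟩
    have h1 := (measure_mono hsub).trans (measure_union_le (μ := μ) _ _)
    exact absurd (hEgt.trans_le (h1.trans (add_le_add hb1 hb2))) (lt_irrefl _)
  obtain ⟨v, hvE, _, hv⟩ := hex
  obtain ⟨hg1, hg2, hg3⟩ := hvE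
  set g := w⁻¹ * v with hg
  have hvg : v = w * g := by rw [hg]; group
  have hgb := hscb _ hg2
  have htr := hR μ hμ w g (Cone Λ' ∩ Sc (8 * L * r))
    ((measurableSet_Cone Λ').inter (measurableSet_Sc _))
    (fun p hp => ⟨by have := hp.2.1; linarith, by have := hp.2.2; linarith⟩) hg1
    ⟨by linarith [hgb.1], by linarith [hgb.2]⟩
    (by have := abs_lt.mpr ⟨hg3.1, hg3.2⟩; simp only at this; linarith)
  have hsub : scell r N k' l' ⊆
      {p | p ∈ Sc (1 / 2) ∧ rel (cP g) (cU g) p ∈ Cone Λ' ∩ Sc (8 * L * r)} := by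
    intro p hp
    have hpb := hcb' _ hp
    simp only at hpb
    have hga := hcb _ hg2
    simp only at hga
    have hco := hcone _ hg2 _ hp
    simp only at hco
    have hu : |cU g| < r := abs_lt.mpr ⟨hg3.1, hg3.2⟩
    have h1 := rel_mem hΛ hΛ' hL hr hr1 hr2 hu hga.1.le hga.2.le hpb.1.le hpb.2.le hco
    have e1 : ∀ x : ℝ, r * (x / r) = x := fun x => by field_simp
    simp only [e1] at h1
    refine ⟨?_, ?_⟩
    · have h2 := hpb.1
      have h3 := hpb.2
      rw [abs_div, abs_of_pos hr, div_lt_iff₀ hr] at h2 h3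
      exact ⟨by linarith, by linarith⟩
    · exact h1
  have hle : tau μ w (scell r N k' l') ≤ tau μ v (Cone Λ' ∩ Sc (8 * L * r)) := by
    rw [hvg, htr]
    exact measure_mono hsub
  exact absurd (hc2.trans_le (hle.trans hv.le)) (lt_irrefl _)

end Pool.Agent.A54.Dyn
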