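import Pool.Agent.Lib.MP_a54f13_nt.Dyn.Spec

set_option autoImplicit false

namespace Pool.Agent.A54.Dyn

open MeasureTheory Filter Topology Set
open scoped ComplexConjugate UpperHalfPlane MatrixGroups ENNReal

namespace Tc5M

lemma measurable_ph (t : ℝ) : Measurable (ph t) := by
  unfold ph
  fun_prop

lemma measurableSet_Sq2 (L : ℝ) : MeasurableSet (Sq2 L) := by
  unfold Sq2
  have h1 : MeasurableSet {p : ℝ × ℝ | |p.1| < L} :=
    (isOpen_lt (by fun_prop) continuous_const).measurableSet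
  have h2 : MeasurableSet {p : ℝ × ℝ | |p.2| < L} :=
    (isOpen_lt (by fun_prop) continuous_const).measurableSet
  exact h1.inter h2

/-- boxes -/
def Rc (b c : ℝ) : Set (ℝ × ℝ) := {p | |p.1| < b ∧ |p.2| < c}

lemma measurableSet_Rc (b c : ℝ) : MeasurableSet (Rc b c) := by
  unfold Rc
  have h1 : MeasurableSet {p : ℝ × ℝ | |p.1| < b} :=
    (isOpen_lt (by fun_prop) continuous_const).measurableSet
  have h2 : MeasurableSet {p : ℝ × ℝ | |p.2| < c} :=
    (isOpen_lt (by fun_prop) continuous_const).measurableSet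
  exact h1.inter h2

/-- one coordinate of `rel` -/
lemma coord_le {x a b u r L s : ℝ} (hr0 : 0 < r) (hL : 1 ≤ L) (hLr : L * r ≤ 1 / 100)
    (hb : |b| < L * r) (hu : |u| < r) (hx : |x| ≤ 1 / 2) (hs : 0 < s)
    (h : |Real.exp u * (x - a) / (1 - b * x)| < s) : |x - a| < 2 * s := by
  have hbx : |b * x| ≤ 1 / 100 * (1 / 2) := by
    rw [abs_mul]
    exact mul_le_mul (hb.le.trans hLr) hx (abs_nonneg _) (by norm_num)
  have hbx' := abs_le.mp hbx
  have hden : 0 < 1 - b * x := by linarith [hbx'.2]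
  have hr1 : r ≤ 1 / 100 := by nlinarith
  have hexp : Real.exp (-u) ≤ 1.1 := by
    have h1 : -u ≤ 1 / 100 := by
      have := (abs_lt.mp hu).1
      linarith
    have h2 : Real.exp (-u) ≤ Real.exp (1 / 100) := Real.exp_le_exp.mpr h1
    have h3 : Real.exp (1 / 100) ≤ 1.1 := by
      have h4 := Real.exp_bound_div_one_sub_of_interval (x := 1 / 100) (by norm_num) (by norm_num)
      refine h4.trans ?_
      norm_num
    exact h2.trans h3
  have h1 : x - a = (Real.exp u * (x - a) / (1 - b * x)) * ((1 - b * x) * Real.exp (-u)) := by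
    have h2 : Real.exp u * Real.exp (-u) = 1 := by rw [← Real.exp_add]; simp
    have h3 : (Real.exp u * (x - a) / (1 - b * x)) * ((1 - b * x) * Real.exp (-u)) =
        (Real.exp u * Real.exp (-u)) * (x - a) * ((1 - b * x) / (1 - b * x)) := by ring
    rw [h3, h2, div_self hden.ne']
    ring
  rw [h1, abs_mul]
  have h3 : |(1 - b * x) * Real.exp (-u)| ≤ 1.2 := by
    rw [abs_mul, abs_of_pos hden, abs_of_pos (Real.exp_pos _)]
    have h4 : 1 - b * x ≤ 1.01 := by linarith [hbx'.1]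
    calc (1 - b * x) * Real.exp (-u) ≤ 1.01 * 1.1 := by
          apply mul_le_mul h4 hexp (Real.exp_pos _).le (by norm_num)
      _ ≤ 1.2 := by norm_num
  have h5 : |Real.exp u * (x - a) / (1 - b * x)| * |(1 - b * x) * Real.exp (-u)| ≤ s * 1.2 :=
    mul_le_mul h.le h3 (abs_nonneg _) hs.le
  linarith

/-- transfer of a box -/
lemma transfer (hR : StmtTrans) {μ : Measure G} (hμ : Inv μ) {L r : ℝ} (hr0 : 0 < r) (hL : 1 ≤ L)
    (hLr : L * r ≤ 1 / 100) {w v : G} (hd : w⁻¹ * v ∈ dom) (hP : cP (w⁻¹ * v) ∈ Sq2 (L * r))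
    (hU : |cU (w⁻¹ * v)| < r) {b c : ℝ} (hb : 0 < b) (hc : 0 < c) (hb1 : b ≤ 1 / 10)
    (hc1 : c ≤ 1 / 10) :
    tau μ v (Rc b c) ≤ tau μ w {p | |p.1 - cX (w⁻¹ * v)| < 2 * b ∧
      |p.2 - cY (w⁻¹ * v)| < 2 * c} := by
  have hr1 : r ≤ 1 / 100 := by nlinarith
  have hv : v = w * (w⁻¹ * v) := by group
  have h1 := hR μ hμ w (w⁻¹ * v) (Rc b c) (measurableSet_Rc b c)
    (fun p hp => ⟨hp.1.le.trans hb1, hp.2.le.trans hc1⟩) hd
    ⟨hP.1.le.trans hLr, hP.2.le.trans hLr⟩ (hU.le.trans hr1)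
  rw [← hv] at h1
  rw [h1]
  apply measure_mono
  rintro p ⟨hp1, hp2⟩
  have h2 : |Real.exp (-cU (w⁻¹ * v)) * (p.1 - cX (w⁻¹ * v)) / (1 - cY (w⁻¹ * v) * p.1)| < b :=
    hp2.1
  have h3 : |Real.exp (cU (w⁻¹ * v)) * (p.2 - cY (w⁻¹ * v)) / (1 - cX (w⁻¹ * v) * p.2)| < c :=
    hp2.2
  refine ⟨?_, ?_⟩
  · exact coord_le hr0 hL hLr hP.2 (by rw [abs_neg]; exact hU) hp1.1 hb h2
  · exact coord_le hr0 hL hLr hP.1 hU hp1.2 hc h3

end Tc5M

open Tc5M in
theorem stmtTc5 (hT : StmtTau) (hR : StmtTrans) : StmtTc5 := by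
  intro μ hμ L J hL
  have hL0 : 0 < L := by linarith
  refine ⟨1 / (100 * L), by positivity, ?_⟩
  intro r hr0 hr1 w v γ j hj hd hP hU
  have hτ := hT μ hμ
  have hLr : L * r ≤ 1 / 100 := by
    rw [lt_div_iff₀ (by positivity)] at hr1
    linarith
  have hLr0 : 0 < L * r := by positivity
  set e := Real.exp (-(j : ℝ)) with he
  have he0 : 0 < e := Real.exp_pos _
  have he1 : e ≤ 1 := Real.exp_le_one_iff.mpr (by simp)
  have hee : Real.exp (j : ℝ) * e = 1 := by rw [he, ← Real.exp_add]; simp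
  have hej : 0 < Real.exp (j : ℝ) := Real.exp_pos _
  have hsq : e ^ 2 ≤ 1 := by nlinarith
  have hLe : L * (r * e) ≤ L * r := by
    have : r * e ≤ r := by nlinarith
    gcongr
  have hLe2 : L * r * e ^ 2 ≤ L * r := by nlinarith
  have hsub : Sq2 (L * (r * e)) ⊆ Sc (1 / 2) := fun p hp =>
    ⟨by have := hp.1; linarith, by have := hp.2; linarith⟩
  constructor
  · have hpre : ph ((j : ℝ) * 1) ⁻¹' Sq2 (L * (r * e)) = Rc (L * r) (L * r * e ^ 2) := by
      ext p
      simp only [mem_preimage, Sq2, Rc, ph, mem_ofPred_eq, mul_one]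
      rw [abs_mul, abs_mul, abs_of_pos (Real.exp_pos _), abs_of_pos (Real.exp_pos _), ← he]
      constructor
      · rintro ⟨h1, h2⟩
        refine ⟨?_, ?_⟩
        · by_contra hcon
          push Not at hcon
          nlinarith
        · have h3 := mul_lt_mul_of_pos_left h2 he0
          have h4 : e * (Real.exp (j : ℝ) * |p.2|) = |p.2| := by
            rw [← mul_assoc, mul_comm e, hee, one_mul]
          rw [h4] at h3
          calc |p.2| < e * (L * (r * e)) := h3
            _ = L * r * e ^ 2 := by ring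
      · rintro ⟨h1, h2⟩
        refine ⟨?_, ?_⟩
        · have h3 := mul_lt_mul_of_pos_left h1 he0
          calc e * |p.1| < e * (L * r) := h3
            _ = L * (r * e) := by ring
        · have h3 := mul_lt_mul_of_pos_left h2 hej
          have h4 : Real.exp (j : ℝ) * (L * r * e ^ 2) = L * (r * e) := by
            have : Real.exp (j : ℝ) * (L * r * e ^ 2) = (Real.exp (j : ℝ) * e) * (L * (r * e)) := by
              ring
            rw [this, hee, one_mul]
          rwa [h4] at h3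
    have h1 : tau μ (io γ * v * fl (j * 1)) (Sq2 (L * (r * e))) =
        tau μ v (Rc (L * r) (L * r * e ^ 2)) := by
      rw [mul_assoc, hτ.left, hτ.flow v ((j : ℝ) * 1) _ (measurableSet_Sq2 _) hsub (by
        rw [hpre]
        exact fun p hp => ⟨by have := hp.1; linarith, by have := hp.2; linarith⟩), hpre]
    rw [h1]
    have h2 := transfer hR hμ hr0 hL hLr hd hP hU (b := L * r) (c := L * r * e ^ 2) hLr0
      (by positivity) (by linarith) (by linarith)
    have h3 : {p : ℝ × ℝ | |p.1 - cX (w⁻¹ * v)| < 2 * L * r ∧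
        |p.2 - cY (w⁻¹ * v)| < 2 * e ^ 2 * L * r} =
        {p | |p.1 - cX (w⁻¹ * v)| < 2 * (L * r) ∧
        |p.2 - cY (w⁻¹ * v)| < 2 * (L * r * e ^ 2)} := by
      rw [show 2 * (L * r) = 2 * L * r by ring, show 2 * (L * r * e ^ 2) = 2 * e ^ 2 * L * r by ring]
    rw [h3]
    exact h2
  · have hpre : ph ((j : ℝ) * (-1)) ⁻¹' Sq2 (L * (r * e)) = Rc (L * r * e ^ 2) (L * r) := by
      ext p
      simp only [mem_preimage, Sq2, Rc, ph, mem_ofPred_eq, mul_neg, mul_one, neg_neg]
      rw [abs_mul, abs_mul, abs_of_pos (Real.exp_pos _), abs_of_pos (Real.exp_pos _), ← he]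
      constructor
      · rintro ⟨h2, h1⟩
        refine ⟨?_, ?_⟩
        · have h3 := mul_lt_mul_of_pos_left h2 he0
          have h4 : e * (Real.exp (j : ℝ) * |p.1|) = |p.1| := by
            rw [← mul_assoc, mul_comm e, hee, one_mul]
          rw [h4] at h3
          calc |p.1| < e * (L * (r * e)) := h3
            _ = L * r * e ^ 2 := by ring
        · by_contra hcon
          push Not at hcon
          nlinarith
      · rintro ⟨h2, h1⟩
        refine ⟨?_, ?_⟩
        · have h3 := mul_lt_mul_of_pos_left h2 hej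
          have h4 : Real.exp (j : ℝ) * (L * r * e ^ 2) = L * (r * e) := by
            have : Real.exp (j : ℝ) * (L * r * e ^ 2) = (Real.exp (j : ℝ) * e) * (L * (r * e)) := by
              ring
            rw [this, hee, one_mul]
          rwa [h4] at h3
        · have h3 := mul_lt_mul_of_pos_left h1 he0
          calc e * |p.2| < e * (L * r) := h3
            _ = L * (r * e) := by ring
    have h1 : tau μ (io γ * v * fl (j * (-1))) (Sq2 (L * (r * e))) =
        tau μ v (Rc (L * r * e ^ 2) (L * r)) := by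
      rw [mul_assoc, hτ.left, hτ.flow v ((j : ℝ) * (-1)) _ (measurableSet_Sq2 _) hsub (by
        rw [hpre]
        exact fun p hp => ⟨by have := hp.1; linarith, by have := hp.2; linarith⟩), hpre]
    rw [h1]
    have h2 := transfer hR hμ hr0 hL hLr hd hP hU (b := L * r * e ^ 2) (c := L * r)
      (by positivity) hLr0 (by linarith) (by linarith)
    have h3 : {p : ℝ × ℝ | |p.1 - cX (w⁻¹ * v)| < 2 * e ^ 2 * L * r ∧
        |p.2 - cY (w⁻¹ * v)| < 2 * L * r} =
        {p | |p.1 - cX (w⁻¹ * v)| < 2 * (L * r * e ^ 2) ∧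
        |p.2 - cY (w⁻¹ * v)| < 2 * (L * r)} := by
      rw [show 2 * (L * r) = 2 * L * r by ring, show 2 * (L * r * e ^ 2) = 2 * e ^ 2 * L * r by ring]
    rw [h3]
    exact h2

end Pool.Agent.A54.Dyn
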