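import Pool.Agent.Lib.MP_a54f13_nt.Dyn.Spec

/-!
Change of the reference point for the transversal measures.  For MP_a54f13_nt.
-/

set_option autoImplicit false

namespace Pool.Agent.A54.Dyn

open MeasureTheory Filter Topology Set
open scoped ComplexConjugate UpperHalfPlane MatrixGroups ENNReal ContDiff

noncomputable section

namespace TransM

lemma measurable_entry (i j : Fin 2) : Measurable (fun g : G => g i j) :=
  (continuous_entry i j).measurable

lemma measurable_cX : Measurable cX := (measurable_entry 0 1).div (measurable_entry 1 1)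

lemma measurable_cY : Measurable cY := (measurable_entry 1 0).div (measurable_entry 0 0)

lemma measurable_cU : Measurable cU :=
  Real.measurable_log.comp ((measurable_entry 0 0).div (measurable_entry 1 1))

lemma measurable_cP : Measurable cP := measurable_cX.prodMk measurable_cY

lemma measurableSet_dom : MeasurableSet dom :=
  (measurableSet_lt measurable_const (measurable_entry 0 0)).inter
    (measurableSet_lt measurable_const (measurable_entry 1 1))

lemma measurableSet_Sc (L : ℝ) : MeasurableSet (Sc L) :=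
  (measurableSet_le measurable_fst.abs measurable_const).inter
    (measurableSet_le measurable_snd.abs measurable_const)

lemma measurable_left (v : G) : Measurable (fun g : G => v * g) :=
  (continuous_const.mul continuous_id).measurable

/-- the transversal measure as the measure of a set -/
lemma tau_apply (μ : Measure G) (v : G) {R : Set (ℝ × ℝ)} (hR : MeasurableSet R) :
    tau μ v R = μ {g | v⁻¹ * g ∈ dom ∧ cP (v⁻¹ * g) ∈ Sc (1 / 2) ∧
      cU (v⁻¹ * g) ∈ Ico (0 : ℝ) 1 ∧ cP (v⁻¹ * g) ∈ R} := by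
  have hE : MeasurableSet {g : G | g ∈ dom ∧ cP g ∈ Sc (1 / 2) ∧ cU g ∈ Ico (0 : ℝ) 1} :=
    measurableSet_dom.inter ((measurable_cP (measurableSet_Sc _)).inter
      (measurable_cU measurableSet_Ico))
  unfold tau
  rw [Measure.map_apply measurable_cP hR, Measure.restrict_apply (measurable_cP hR),
    Measure.map_apply (measurable_left v⁻¹) ((measurable_cP hR).inter hE)]
  congr 1
  ext g
  simp only [mem_preimage, mem_inter_iff, mem_ofPred_eq]
  tauto

lemma measurable_rel (a : ℝ × ℝ) (u : ℝ) : Measurable (rel a u) := by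
  unfold rel
  fun_prop

lemma exp_le {u : ℝ} (hu : |u| ≤ 1 / 100) : Real.exp u ≤ 102 / 100 := by
  have h1 := Real.abs_exp_sub_one_le (x := u) (by linarith)
  have h2 := (abs_le.mp h1).2
  linarith

lemma one_add_pos {s t w : ℝ} (hs : 0 < s) (hs' : s ≤ 102 / 100) (ht : |t| ≤ 1 / 100)
    (hw : |w| ≤ 1 / 2) : 99 / 100 ≤ 1 + s * t * w := by
  have h1 : |s * t * w| ≤ 102 / 100 * (1 / 100) * (1 / 2) := by
    rw [abs_mul, abs_mul, abs_of_pos hs]
    gcongr
  have := (abs_le.mp h1).1
  linarith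

/-- the translation of the time coordinate -/
def cc (g : G) (p : ℝ × ℝ) : ℝ := -cU g + Real.log ((1 - cX g * p.2) / (1 - cY g * p.1))

lemma measurable_cc (g : G) : Measurable (cc g) := by
  unfold cc
  fun_prop

lemma formula {g h : G} (hg : g ∈ dom) (hgP : cP g ∈ Sc (1 / 100)) (hh : h ∈ dom)
    (hhP : cP h ∈ Sc (1 / 2)) : g⁻¹ * h ∈ dom ∧ cP (g⁻¹ * h) = rel (cP g) (cU g) (cP h) ∧
      cU (g⁻¹ * h) = cU h + cc g (cP h) := by
  have hgX : |cX g| ≤ 1 / 100 := hgP.1
  have hgY : |cY g| ≤ 1 / 100 := hgP.2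
  have hhX : |cX h| ≤ 1 / 2 := hhP.1
  have hhY : |cY h| ≤ 1 / 2 := hhP.2
  have e1 : Real.exp (cU g⁻¹) * cY g⁻¹ = -cY g := by
    rw [cY_inv hg, cU_inv, Real.exp_neg]
    have := (Real.exp_pos (cU g)).ne'
    field_simp
  have e2 : Real.exp (-cU g⁻¹) * cX g⁻¹ = -cX g := by
    rw [cX_inv hg, cU_inv, neg_neg, Real.exp_neg]
    have := (Real.exp_pos (cU g)).ne'
    field_simp
  have p1 : 0 < 1 - cY g * cX h := by
    have := one_add_pos (s := 1) one_pos (by norm_num) (t := -cY g) (by rwa [abs_neg]) hhX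
    linarith
  have p2 : 0 < 1 - cX g * cY h := by
    have := one_add_pos (s := 1) one_pos (by norm_num) (t := -cX g) (by rwa [abs_neg]) hhY
    linarith
  have q1 : 0 < 1 + Real.exp (cU g⁻¹) * cY g⁻¹ * cX h := by rw [e1]; linarith
  have q2 : 0 < 1 + Real.exp (-cU g⁻¹) * cX g⁻¹ * cY h := by rw [e2]; linarith
  have hgi := inv_mem_dom hg
  refine ⟨mul_mem_dom hgi hh q1 q2, ?_, ?_⟩
  · unfold cP rel
    apply Prod.ext
    · rw [cX_mul hgi hh, e1]
      simp only
      rw [cX_inv hg, cU_inv]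
      congr 1
      · ring
      · ring
    · rw [cY_mul hgi hh, e2]
      simp only
      rw [cY_inv hg, cU_inv, neg_neg]
      congr 1
      · ring
      · ring
  · rw [cU_mul hgi hh q1 q2, e1, e2, cU_inv]
    unfold cc cP
    simp only
    have e3 : 1 + -cX g * cY h = 1 - cX g * cY h := by ring
    have e4 : 1 + -cY g * cX h = 1 - cY g * cX h := by ring
    rw [e3, e4]
    ring

lemma key {g h : G} (hg : g ∈ dom) (hgP : cP g ∈ Sc (1 / 100)) (hgU : |cU g| ≤ 1 / 100)
    {R : Set (ℝ × ℝ)} (hR : R ⊆ Sc (1 / 10)) :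
    (g⁻¹ * h ∈ dom ∧ cP (g⁻¹ * h) ∈ Sc (1 / 2) ∧ cU (g⁻¹ * h) ∈ Ico (0 : ℝ) 1 ∧
      cP (g⁻¹ * h) ∈ R) ↔
    (h ∈ dom ∧ cP h ∈ Sc (1 / 2) ∧ rel (cP g) (cU g) (cP h) ∈ R ∧
      cU h + cc g (cP h) ∈ Ico (0 : ℝ) 1) := by
  constructor
  · rintro ⟨h1, h2, h3, h4⟩
    have h5 := hR h4
    set k := g⁻¹ * h with hk
    have hgk : h = g * k := by rw [hk, mul_inv_cancel_left]
    have hgX : |cX g| ≤ 1 / 100 := hgP.1
    have hgY : |cY g| ≤ 1 / 100 := hgP.2
    have hkX : |cX k| ≤ 1 / 10 := h5.1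
    have hkY : |cY k| ≤ 1 / 10 := h5.2
    have E1 := Real.exp_pos (cU g)
    have E2 := Real.exp_pos (-cU g)
    have F1 := exp_le hgU
    have F2 := exp_le (u := -cU g) (by rwa [abs_neg])
    have q1 := one_add_pos (w := cX k) E1 F1 hgY (by linarith)
    have q2 := one_add_pos (w := cY k) E2 F2 hgX (by linarith)
    have q1' : 0 < 1 + Real.exp (cU g) * cY g * cX k := by linarith
    have q2' : 0 < 1 + Real.exp (-cU g) * cX g * cY k := by linarith
    have hhd : h ∈ dom := by rw [hgk]; exact mul_mem_dom hg h1 q1' q2'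
    have hhP : cP h ∈ Sc (1 / 2) := by
      constructor
      · change |cX h| ≤ 1 / 2
        rw [hgk, cX_mul hg h1, abs_div, abs_of_pos q1', div_le_iff₀ q1']
        have : |cX g + Real.exp (cU g) * cX k| ≤ 1 / 100 + 102 / 100 * (1 / 10) := by
          refine (abs_add_le _ _).trans ?_
          rw [abs_mul, abs_of_pos E1]
          gcongr
        linarith
      · change |cY h| ≤ 1 / 2
        rw [hgk, cY_mul hg h1, abs_div, abs_of_pos q2', div_le_iff₀ q2']
        have : |cY g + Real.exp (-cU g) * cY k| ≤ 1 / 100 + 102 / 100 * (1 / 10) := by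
          refine (abs_add_le _ _).trans ?_
          rw [abs_mul, abs_of_pos E2]
          gcongr
        linarith
    obtain ⟨_, f2, f3⟩ := formula hg hgP hhd hhP
    refine ⟨hhd, hhP, ?_, ?_⟩
    · rw [← f2]; exact h4
    · rw [← f3]; exact h3
  · rintro ⟨h1, h2, h3, h4⟩
    obtain ⟨f1, f2, f3⟩ := formula hg hgP h1 h2
    have h5 := hR h3
    refine ⟨f1, ?_, ?_, ?_⟩
    · rw [f2]
      exact ⟨h5.1.trans (by norm_num), h5.2.trans (by norm_num)⟩
    · rw [f3]; exact h4
    · rw [f2]; exact h3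

end TransM

open TransM

theorem stmtTrans (hP : StmtProd) : StmtTrans := by
  intro μ hμ v g R hR hR10 hg hgP hgU
  set S : Set ((ℝ × ℝ) × ℝ) := {q | q.1 ∈ Sc (1 / 2) ∧ rel (cP g) (cU g) q.1 ∈ R ∧
    q.2 + cc g q.1 ∈ Ico (0 : ℝ) 1} with hS
  have hSm : MeasurableSet S := by
    refine (measurable_fst (measurableSet_Sc _)).inter
      ((((measurable_rel _ _).comp measurable_fst) hR).inter ?_)
    exact (measurable_snd.add ((measurable_cc g).comp measurable_fst)) measurableSet_Ico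
  have hE : MeasurableSet {p : ℝ × ℝ | p ∈ Sc (1 / 2) ∧ rel (cP g) (cU g) p ∈ R} :=
    (measurableSet_Sc _).inter (measurable_rel _ _ hR)
  rw [tau_apply μ _ hR]
  have e1 : {h : G | (v * g)⁻¹ * h ∈ dom ∧ cP ((v * g)⁻¹ * h) ∈ Sc (1 / 2) ∧
      cU ((v * g)⁻¹ * h) ∈ Ico (0 : ℝ) 1 ∧ cP ((v * g)⁻¹ * h) ∈ R} =
      {h | v⁻¹ * h ∈ dom ∧ (cP (v⁻¹ * h), cU (v⁻¹ * h)) ∈ S} := by
    ext h
    have e : (v * g)⁻¹ * h = g⁻¹ * (v⁻¹ * h) := by rw [mul_inv_rev, mul_assoc]
    simp only [mem_ofPred_eq, e]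
    rw [key hg hgP hgU hR10]
    rfl
  rw [e1, hP μ hμ v S hSm (fun p hp => hp.1), Measure.prod_apply hSm,
    ← lintegral_indicator_one hE]
  apply lintegral_congr
  intro p
  by_cases hp : p ∈ Sc (1 / 2) ∧ rel (cP g) (cU g) p ∈ R
  · rw [indicator_of_mem (by exact hp)]
    have : Prod.mk p ⁻¹' S = Ico (-cc g p) (1 - cc g p) := by
      ext u
      rw [mem_preimage, hS, mem_ofPred_eq, mem_Ico, mem_Ico]
      constructor
      · rintro ⟨_, _, h3, h4⟩
        simp only at h3 h4
        constructor <;> linarith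
      · rintro ⟨h3, h4⟩
        refine ⟨hp.1, hp.2, ?_, ?_⟩
        · simp only; linarith
        · simp only; linarith
    rw [this, Real.volume_Ico]
    simp
  · rw [indicator_of_notMem (by exact hp)]
    have : Prod.mk p ⁻¹' S = ∅ := by
      ext u
      rw [mem_preimage, hS, mem_ofPred_eq, mem_empty_iff_false, iff_false]
      rintro ⟨h1, h2, _⟩
      exact hp ⟨h1, h2⟩
    rw [this, measure_empty]

end

end Pool.Agent.A54.Dyn
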