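import Pool.Agent.Lib.MP_a54f13_nt.Dyn.Spec

/-! The covering lemma on the line and the discrete path lemma. -/

set_option autoImplicit false

namespace Pool.Agent.A54.Dyn

open MeasureTheory Filter Topology Set
open scoped ENNReal

namespace VitPathM

lemma uIcc_subset (x : ℕ → ℝ) (δ : ℝ) (hδ : 0 ≤ δ) (n : ℕ) :
    (∀ k < n, |x (k + 1) - x k| ≤ δ) →
      uIcc (x 0) (x n) ⊆ ⋃ k ∈ Finset.range (n + 1), Metric.closedBall (x k) δ := by
  induction n with
  | zero =>
    intro _ y hy
    rw [uIcc_self, mem_singleton_iff] at hy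
    rw [mem_iUnion₂]
    exact ⟨0, by simp, by rw [hy]; exact Metric.mem_closedBall_self hδ⟩
  | succ n ih =>
    intro h y hy
    rcases uIcc_subset_uIcc_union_uIcc (b := x n) hy with h1 | h1
    · have h2 := ih (fun k hk => h k (by omega)) h1
      rw [mem_iUnion₂] at h2 ⊢
      obtain ⟨k, hk, hk2⟩ := h2
      exact ⟨k, by rw [Finset.mem_range] at hk ⊢; omega, hk2⟩
    · rw [mem_iUnion₂]
      refine ⟨n, by simp, ?_⟩
      rw [Metric.mem_closedBall, Real.dist_eq]
      exact (abs_sub_left_of_mem_uIcc h1).trans (h n (by omega))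

end VitPathM

theorem stmtPath : StmtPath := by
  intro n x δ T h1 h2
  rcases le_or_gt 0 δ with hδ | hδ
  · have h3 := (VitPathM.uIcc_subset x δ hδ n h1).trans
      (iUnion₂_subset fun k hk => h2 k (by rw [Finset.mem_range] at hk; omega))
    have h4 := measure_mono (μ := volume) h3
    rw [Real.volume_interval] at h4
    exact h4
  · have hn : n = 0 := by
      by_contra hn
      have h3 := h1 0 (by omega)
      have h4 := abs_nonneg (x (0 + 1) - x 0)
      linarith
    subst hn
    simp

theorem stmtVit : StmtVit := by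
  intro L C₀ a₀ s₀ S hL hC₀ ha₀ hs₀ hS ν hν P hP
  choose! s hs1 hs2 hs3 using hP
  obtain ⟨u, hu1, hu2, hu3⟩ := Vitali.exists_disjoint_subfamily_covering_enlargement_closedBall
    (P : Set ℝ) (fun y : ℝ => y) (fun y => 2 * s y * L) (2 * S * L)
    (fun y hy => by
      have := hs2 y hy
      have h2 : s y * L ≤ S * L := mul_le_mul_of_nonneg_right this hL.le
      change 2 * s y * L ≤ 2 * S * L
      linarith) 5 (by norm_num)
  have huf : u.Finite := P.finite_toSet.subset hu1
  set U : Finset ℝ := huf.toFinset with hU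
  have hUP : ∀ y ∈ U, y ∈ P := fun y hy => hu1 (huf.mem_toFinset.mp hy)
  have hsub : (⋃ y ∈ P, Metric.closedBall y (s₀ * L)) ⊆
      ⋃ z ∈ U, Metric.closedBall z (5 * (2 * s z * L)) := by
    refine iUnion₂_subset fun y hy => ?_
    obtain ⟨z, hz, hz2⟩ := hu3 y hy
    refine subset_trans ?_ (subset_iUnion₂_of_subset z (huf.mem_toFinset.mpr hz) subset_rfl)
    refine subset_trans (Metric.closedBall_subset_closedBall ?_) hz2
    have := hs1 y hy
    have h2 : s₀ * L ≤ s y * L := mul_le_mul_of_nonneg_right this hL.le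
    have h3 : 0 ≤ s y * L := mul_nonneg (hs₀.le.trans this) hL.le
    change s₀ * L ≤ 2 * s y * L
    linarith
  have hsum : ∑ z ∈ U, ENNReal.ofReal (a₀ * Real.sqrt (s z)) ≤ ENNReal.ofReal C₀ := by
    refine le_trans (Finset.sum_le_sum fun z hz => hs3 z (hUP z hz)) ?_
    rw [← measure_biUnion_finset (μ := ν) (s := U) (f := fun z => Metric.ball z (2 * s z * L))]
    · exact (measure_mono (subset_univ _)).trans hν
    · intro a ha b hb hab
      have h1 := hu2 (huf.mem_toFinset.mp ha) (huf.mem_toFinset.mp hb) hab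
      exact h1.mono Metric.ball_subset_closedBall Metric.ball_subset_closedBall
    · intro z _
      exact Metric.isOpen_ball.measurableSet
  have hsum2 : a₀ * ∑ z ∈ U, Real.sqrt (s z) ≤ C₀ := by
    rw [← ENNReal.ofReal_sum_of_nonneg (fun z _ => by positivity), ← Finset.mul_sum] at hsum
    exact (ENNReal.ofReal_le_ofReal_iff hC₀.le).mp hsum
  calc volume (⋃ y ∈ P, Metric.closedBall y (s₀ * L)) ≤
      volume (⋃ z ∈ U, Metric.closedBall z (5 * (2 * s z * L))) := measure_mono hsub
    _ ≤ ∑ z ∈ U, volume (Metric.closedBall z (5 * (2 * s z * L))) :=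
      measure_biUnion_finset_le _ _
    _ = ∑ z ∈ U, ENNReal.ofReal (20 * L * s z) := by
      refine Finset.sum_congr rfl fun z _ => ?_
      rw [Real.volume_closedBall]
      congr 1
      ring
    _ ≤ ∑ z ∈ U, ENNReal.ofReal (20 * L * Real.sqrt S * Real.sqrt (s z)) := by
      refine Finset.sum_le_sum fun z hz => ENNReal.ofReal_le_ofReal ?_
      have h1 := hs1 z (hUP z hz)
      have h2 := hs2 z (hUP z hz)
      have h3 : s z = Real.sqrt (s z) * Real.sqrt (s z) :=
        (Real.mul_self_sqrt (hs₀.le.trans h1)).symm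
      have h4 : Real.sqrt (s z) * Real.sqrt (s z) ≤ Real.sqrt S * Real.sqrt (s z) :=
        mul_le_mul_of_nonneg_right (Real.sqrt_le_sqrt h2) (Real.sqrt_nonneg _)
      calc 20 * L * s z = 20 * L * (Real.sqrt (s z) * Real.sqrt (s z)) := by rw [← h3]
        _ ≤ 20 * L * (Real.sqrt S * Real.sqrt (s z)) :=
          mul_le_mul_of_nonneg_left h4 (by positivity)
        _ = 20 * L * Real.sqrt S * Real.sqrt (s z) := by ring
    _ = ENNReal.ofReal (20 * L * Real.sqrt S * ∑ z ∈ U, Real.sqrt (s z)) := by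
      rw [← ENNReal.ofReal_sum_of_nonneg (fun z _ => by positivity), ← Finset.mul_sum]
    _ ≤ ENNReal.ofReal (100 * L * Real.sqrt S * C₀ / a₀) := by
      refine ENNReal.ofReal_le_ofReal ?_
      rw [le_div_iff₀ ha₀]
      have h1 : 0 ≤ 20 * L * Real.sqrt S := by positivity
      have h2 := mul_le_mul_of_nonneg_left hsum2 h1
      have h3 : 0 ≤ L * Real.sqrt S * C₀ := by positivity
      nlinarith

end Pool.Agent.A54.Dyn
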