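import Pool.Agent.Lib.MP_a54f13_nt.Dyn.Spec

/-! Window averages of the peak functions converge to `HH`. -/

set_option autoImplicit false

namespace Pool.Agent.A54.Dyn.WinM

open MeasureTheory Filter Topology Set
open scoped ComplexConjugate UpperHalfPlane MatrixGroups ENNReal ContDiff

noncomputable section

/-- the coefficient -/
def cc (m j : ℕ) : ℂ := (Nat.choose (2 * m) j : ℂ) / 4 ^ m

lemma norm_cc_le (m j : ℕ) : ‖cc m j‖ ≤ 1 := by
  unfold cc
  rw [norm_div, norm_pow, Complex.norm_natCast]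
  have h4 : ‖(4 : ℂ)‖ = 4 := by simp
  rw [h4, div_le_one (by positivity)]
  have h1 : Nat.choose (2 * m) j ≤ 2 ^ (2 * m) := Nat.choose_le_two_pow _ _
  have h2 : (2 : ℕ) ^ (2 * m) = 4 ^ m := by rw [pow_mul]; norm_num
  rw [h2] at h1
  exact_mod_cast h1

lemma conj_ze (v : G) : conj (ze v) = (ze v)⁻¹ := by
  have h := Complex.inv_def (ze v)
  have hn : Complex.normSq (ze v) = 1 := by
    rw [Complex.normSq_eq_norm_sq, norm_ze]; norm_num
  rw [h, hn]
  simp

lemma FF_eq (m : ℕ) (v v' : G) : ((FF m v v' : ℝ) : ℂ) =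
    ∑ j ∈ Finset.range (2 * m + 1), cc m j * ze v ^ ((j : ℤ) - m) *
      ze v' ^ (-((j : ℤ) - m)) := by
  have ha := ze_ne v
  have hb := ze_ne v'
  have h1 : ((‖ze v + ze v'‖ ^ 2 : ℝ) : ℂ) = (ze v + ze v') ^ 2 / (ze v * ze v') := by
    rw [← Complex.normSq_eq_norm_sq, ← Complex.mul_conj, map_add, conj_ze, conj_ze]
    field_simp
    ring
  have h2 : ((FF m v v' : ℝ) : ℂ) = (ze v + ze v') ^ (2 * m) / (4 ^ m * ze v ^ m * ze v' ^ m) := by
    unfold FF
    rw [Complex.ofReal_pow, Complex.ofReal_div, h1]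
    push_cast
    rw [div_pow, div_pow, ← pow_mul, mul_pow, div_div]
    congr 1
    ring
  rw [h2, add_pow, Finset.sum_div]
  apply Finset.sum_congr rfl
  intro j hj
  have hj' : j ≤ 2 * m := by
    have := Finset.mem_range.mp hj
    omega
  unfold cc
  have e1 : ze v ^ ((j : ℤ) - m) = ze v ^ j / ze v ^ m := by
    rw [zpow_sub₀ ha, zpow_natCast, zpow_natCast]
  have e2 : ze v' ^ (-((j : ℤ) - m)) = ze v' ^ m / ze v' ^ j := by
    rw [neg_sub, zpow_sub₀ hb, zpow_natCast, zpow_natCast]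
  have e3 : ze v' ^ (2 * m - j) = ze v' ^ m * ze v' ^ m / ze v' ^ j := by
    rw [eq_div_iff (pow_ne_zero _ hb), ← pow_add, ← pow_add]
    congr 1
    omega
  rw [e1, e2, e3]
  field_simp

/-- translates of a set in the half-plane -/
def TT (v : G) (S : Set ℍ) : Set ℍ := {z | v⁻¹ • z ∈ S}

lemma measurable_smulH (v : G) : Measurable (fun z : ℍ => v • z) :=
  (continuous_const_smul v).measurable

lemma measurableSet_TT (v : G) {S : Set ℍ} (hS : MeasurableSet S) : MeasurableSet (TT v S) :=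
  measurable_smulH v⁻¹ hS

lemma TT_subset (v : G) {S : Set ℍ} {r : ℝ} (hS : S ⊆ Metric.closedBall UpperHalfPlane.I r) :
    TT v S ⊆ Metric.closedBall (base v) r := by
  intro z hz
  have h1 : dist (v⁻¹ • z) UpperHalfPlane.I ≤ r := hS hz
  rw [Metric.mem_closedBall]
  have h2 : dist z (base v) = dist (v⁻¹ • z) UpperHalfPlane.I := by
    unfold base
    rw [← dist_smul v (v⁻¹ • z) UpperHalfPlane.I, smul_inv_smul]
  rw [h2]
  exact h1

lemma volume_TT (v : G) {S : Set ℍ} (hS : MeasurableSet S) : volume (TT v S) = volume S := by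
  have h := measurePreserving_smul ((v⁻¹ : G) : GL (Fin 2) ℝ) (volume : Measure ℍ)
  exact h.measure_preimage hS.nullMeasurableSet

lemma base_mem_TT (v v' : G) (S : Set ℍ) : base (v⁻¹ * v') ∈ S ↔ base v' ∈ TT v S := by
  rw [base_mul]
  rfl

/-- the image of `μ` over a set -/
lemma map_base {V : Set ℍ} {ρ : ℤ → ℍ → ℂ} {μ : Measure G} (hE : Ext V ρ μ)
    {K : Set ℍ} (hKm : MeasurableSet K) (hKV : K ⊆ V) :
    (μ.restrict (base ⁻¹' K)).map base =
      (volume.restrict K).withDensity (fun z => ENNReal.ofReal (ρ 0 z).re) := by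
  ext S hS
  rw [Measure.map_apply measurable_base hS, Measure.restrict_apply (measurable_base hS),
    withDensity_apply _ hS, Measure.restrict_restrict hS]
  have : base ⁻¹' S ∩ base ⁻¹' K = base ⁻¹' (S ∩ K) := rfl
  rw [this, hE.proj (S ∩ K) (hS.inter hKm) (inter_subset_right.trans hKV)]

lemma ofReal_re_le (w : ℂ) : ENNReal.ofReal w.re ≤ ‖w‖ₑ := by
  rw [← ofReal_norm]
  exact ENNReal.ofReal_le_ofReal (Complex.re_le_norm w)

lemma lintegral_base_le {V : Set ℍ} {ρ : ℤ → ℍ → ℂ} {μ : Measure G} (hE : Ext V ρ μ)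
    (hρ : Measurable (ρ 0)) {K : Set ℍ} (hKm : MeasurableSet K) (hKV : K ⊆ V) {Φ : ℍ → ℝ≥0∞}
    (hΦ : Measurable Φ) :
    ∫⁻ v in base ⁻¹' K, Φ (base v) ∂μ ≤ ∫⁻ z in K, ‖ρ 0 z‖ₑ * Φ z := by
  rw [← lintegral_map hΦ measurable_base, map_base hE hKm hKV,
    lintegral_withDensity_eq_lintegral_mul _ _ hΦ]
  · apply lintegral_mono
    intro z
    exact mul_le_mul_left (ofReal_re_le _) _
  · exact (Complex.measurable_re.comp hρ).ennreal_ofReal

/-- the oscillation in balls -/
def Osc (q : ℍ → ℂ) (r : ℝ) (z : ℍ) : ℝ≥0∞ := ∫⁻ z' in Metric.closedBall z r, ‖q z' - q z‖ₑ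

lemma measurable_Osc {q : ℍ → ℂ} (hq : Measurable q) (r : ℝ) : Measurable (Osc q r) := by
  have h1 : Osc q r = fun z => ∫⁻ z', ({p : ℍ × ℍ | dist p.2 p.1 ≤ r}.indicator
      (fun p => ‖q p.2 - q p.1‖ₑ)) (z, z') := by
    funext z
    unfold Osc
    rw [← lintegral_indicator Metric.isClosed_closedBall.measurableSet]
    rfl
  rw [h1]
  apply Measurable.lintegral_prod_right'
  apply Measurable.indicator
  · exact ((hq.comp measurable_snd).sub (hq.comp measurable_fst)).enorm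
  · exact measurableSet_le (by fun_prop) measurable_const

lemma key {V : Set ℍ} {ρ : ℤ → ℍ → ℂ} {μ : Measure G} (hE : Ext V ρ μ) (m : ℕ) (v : G) {r : ℝ}
    (hball : Metric.closedBall (base v) r ⊆ V) {S : Set ℍ} (hS : MeasurableSet S)
    (hSr : S ⊆ Metric.closedBall UpperHalfPlane.I r) :
    ‖(∫ v' in {v' | base (v⁻¹ * v') ∈ S}, FF m v v' ∂μ) - HH ρ m v * (volume S).toReal‖ₑ ≤
      ∑ j ∈ Finset.range (2 * m + 1), Osc (ρ ((j : ℤ) - m)) r (base v) := by
  set T := TT v S with hT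
  have hTm : MeasurableSet T := measurableSet_TT v hS
  have hTb : T ⊆ Metric.closedBall (base v) r := TT_subset v hSr
  have hTv : volume T = volume S := volume_TT v hS
  have hTfin : volume T ≠ ⊤ :=
    ((measure_mono hTb).trans_lt (isCompact_closedBall (base v) r).measure_lt_top).ne
  set ψ : ℍ → ℂ := T.indicator (fun _ => (1 : ℂ)) with hψ
  have hψm : Measurable ψ := measurable_const.indicator hTm
  have hψ0 : ∀ z, z ∉ Metric.closedBall (base v) r → ψ z = 0 := by
    intro z hz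
    exact indicator_of_notMem (fun h => hz (hTb h)) _
  have hψL : MemLp ψ 2 volume := memLp_indicator_const 2 hTm 1 (Or.inr hTfin)
  have hψi : Integrable ψ volume := by
    rw [hψ, integrable_indicator_iff hTm]
    exact integrableOn_const hTfin
  have hint := fun n : ℤ => hE.int n (Metric.closedBall (base v) r) ψ
    (isCompact_closedBall (base v) r) hball hψm hψ0 hψL
  -- step 1
  have hset : {v' | base (v⁻¹ * v') ∈ S} = base ⁻¹' T := by
    ext v'
    exact base_mem_TT v v' S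
  have h1 : ((∫ v' in {v' | base (v⁻¹ * v') ∈ S}, FF m v v' ∂μ : ℝ) : ℂ) =
      ∑ j ∈ Finset.range (2 * m + 1), cc m j * ze v ^ ((j : ℤ) - m) *
        ∫ z, ψ z * ρ ((j : ℤ) - m) z := by
    have h0 : ((∫ v' in {v' | base (v⁻¹ * v') ∈ S}, FF m v v' ∂μ : ℝ) : ℂ) =
        ∫ v' in {v' | base (v⁻¹ * v') ∈ S}, ((FF m v v' : ℝ) : ℂ) ∂μ := integral_ofReal.symm
    rw [h0, hset, ← integral_indicator (measurable_base hTm)]
    have h2 : (base ⁻¹' T).indicator (fun v' => ((FF m v v' : ℝ) : ℂ)) = fun v' =>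
        ∑ j ∈ Finset.range (2 * m + 1), (cc m j * ze v ^ ((j : ℤ) - m)) *
          (ψ (base v') * ze v' ^ (-((j : ℤ) - m))) := by
      funext v'
      by_cases h : v' ∈ base ⁻¹' T
      · rw [indicator_of_mem h, FF_eq]
        have : ψ (base v') = 1 := indicator_of_mem (show base v' ∈ T from h) _
        rw [this]
        apply Finset.sum_congr rfl
        intro j _
        rw [one_mul]
      · rw [indicator_of_notMem h]
        have : ψ (base v') = 0 := indicator_of_notMem (show base v' ∉ T from h) _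
        rw [this]
        simp
    rw [h2]
    refine (integral_finsetSum (Finset.range (2 * m + 1))
      (fun (j : ℕ) _ => ((hint ((j : ℤ) - m)).1).const_mul _)).trans ?_
    apply Finset.sum_congr rfl
    intro j _
    rw [integral_const_mul, (hint ((j : ℤ) - m)).2.2]
  -- step 2
  have h3 : ∀ c : ℂ, ∫ z, ψ z * c = (volume S).toReal * c := by
    intro c
    rw [integral_mul_const, hψ, integral_indicator_const _ hTm, ← hTv]
    simp [Measure.real]
  have h4 : (∫ v' in {v' | base (v⁻¹ * v') ∈ S}, FF m v v' ∂μ) - HH ρ m v * (volume S).toReal =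
      (∑ j ∈ Finset.range (2 * m + 1), cc m j * ze v ^ ((j : ℤ) - m) *
        ∫ z, ψ z * (ρ ((j : ℤ) - m) z - ρ ((j : ℤ) - m) (base v))).re := by
    have e1 : (∫ v' in {v' | base (v⁻¹ * v') ∈ S}, FF m v v' ∂μ) =
        (((∫ v' in {v' | base (v⁻¹ * v') ∈ S}, FF m v v' ∂μ : ℝ)) : ℂ).re := by simp
    have e2 : HH ρ m v * (volume S).toReal = ((∑ j ∈ Finset.range (2 * m + 1), cc m j *
        ze v ^ ((j : ℤ) - m) * ρ ((j : ℤ) - m) (base v)) * ((volume S).toReal : ℂ)).re := by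
      rw [Complex.re_mul_ofReal]
      rfl
    rw [e1, h1, e2, ← Complex.sub_re, Finset.sum_mul, ← Finset.sum_sub_distrib]
    congr 1
    apply Finset.sum_congr rfl
    intro j _
    have e3 : ∫ z, ψ z * (ρ ((j : ℤ) - m) z - ρ ((j : ℤ) - m) (base v)) =
        (∫ z, ψ z * ρ ((j : ℤ) - m) z) - ∫ z, ψ z * ρ ((j : ℤ) - m) (base v) := by
      rw [← integral_sub (hint ((j : ℤ) - m)).2.1 (hψi.mul_const _)]
      apply integral_congr_ae
      filter_upwards with z
      ring
    rw [e3, h3]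
    ring
  rw [h4]
  have h5 : ∀ w : ℂ, ‖w.re‖ₑ ≤ ‖w‖ₑ := by
    intro w
    rw [enorm_le_iff_norm_le]
    exact Complex.abs_re_le_norm w
  refine (h5 _).trans ((enorm_sum_le _ _).trans (Finset.sum_le_sum fun j _ => ?_))
  rw [enorm_mul, enorm_mul]
  have h6 : ‖cc m j‖ₑ ≤ 1 := by
    rw [← ofReal_norm]
    exact ENNReal.ofReal_le_one.mpr (norm_cc_le m j)
  have h7 : ‖ze v ^ ((j : ℤ) - m)‖ₑ = 1 := by
    rw [← ofReal_norm, norm_zpow, norm_ze, one_zpow]
    simp
  rw [h7, mul_one]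
  refine (mul_le_mul' h6 (enorm_integral_le_lintegral_enorm _)).trans ?_
  rw [one_mul]
  unfold Osc
  rw [← lintegral_indicator Metric.isClosed_closedBall.measurableSet]
  apply lintegral_mono
  intro z
  dsimp only
  by_cases h : z ∈ T
  · rw [indicator_of_mem (hTb h), enorm_mul]
    have : ψ z = 1 := indicator_of_mem h _
    rw [this]
    simp
  · have : ψ z = 0 := indicator_of_notMem h _
    rw [this]
    simp

end

end Pool.Agent.A54.Dyn.WinM

namespace Pool.Agent.A54.Dyn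

open MeasureTheory Filter Topology Set
open scoped ComplexConjugate UpperHalfPlane MatrixGroups ENNReal ContDiff
open WinM

theorem stmtWin (_hB : StmtBall) (hE : StmtExt) (hA : StmtAvg) : StmtWin := by
  intro V ρ μ hI hM K hK hKV m ε hε
  have hX := hE V ρ μ hI hM
  have hm : (0 : ℝ) < 2 * m + 1 := by positivity
  have hε' : 0 < ε / (2 * m + 1) := div_pos hε hm
  obtain ⟨δ, hδ, hδV⟩ := hK.exists_cthickening_subset_open hM.isOpen hKV
  have h1 : ∀ n : ℤ, ∀ᶠ r in 𝓝[>] (0 : ℝ), ∫⁻ z in K, ‖ρ 0 z‖ₑ * Osc (ρ n) r z ≤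
      ENNReal.ofReal (ε / (2 * m + 1) * r ^ 2) := by
    intro n
    obtain ⟨r₁, hr₁, h⟩ := hA V hM.isOpen (ρ 0) (ρ n) (hM.meas 0) (hM.meas n)
      (fun K hK hKV => ⟨hM.loc 0 K hK hKV, hM.loc n K hK hKV⟩) K hK hKV _ hε'
    filter_upwards [Ioo_mem_nhdsGT hr₁] with r hr
    exact h r hr.1 hr.2
  have h2 : ∀ᶠ r in 𝓝[>] (0 : ℝ), ∀ j ∈ Finset.range (2 * m + 1),
      ∫⁻ z in K, ‖ρ 0 z‖ₑ * Osc (ρ ((j : ℤ) - m)) r z ≤
        ENNReal.ofReal (ε / (2 * m + 1) * r ^ 2) := by
    rw [Filter.eventually_all_finset]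
    intro j _
    exact h1 _
  have h3 : ∀ᶠ r in 𝓝[>] (0 : ℝ), r < δ :=
    Filter.mem_of_superset (Ioo_mem_nhdsGT hδ) fun r hr => hr.2
  obtain ⟨r₁, hr₁, h4⟩ := (mem_nhdsGT_iff_exists_Ioo_subset).mp (h2.and h3)
  refine ⟨r₁, hr₁, fun r hr hrr S hS hSr => ?_⟩
  obtain ⟨h5, h6⟩ := h4 ⟨hr, hrr⟩
  have hKm := hK.measurableSet
  calc ∫⁻ v in base ⁻¹' K, ‖(∫ v' in {v' | base (v⁻¹ * v') ∈ S}, FF m v v' ∂μ) -
      HH ρ m v * (volume S).toReal‖ₑ ∂μ
      ≤ ∫⁻ v in base ⁻¹' K, ∑ j ∈ Finset.range (2 * m + 1),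
          Osc (ρ ((j : ℤ) - m)) r (base v) ∂μ := by
        apply setLIntegral_mono' (measurable_base hKm)
        intro v hv
        apply key hX m v _ hS hSr
        refine Subset.trans ?_ hδV
        refine Subset.trans (Metric.closedBall_subset_cthickening (show base v ∈ K from hv) r) ?_
        exact Metric.cthickening_mono h6.le K
    _ = ∑ j ∈ Finset.range (2 * m + 1), ∫⁻ v in base ⁻¹' K,
          Osc (ρ ((j : ℤ) - m)) r (base v) ∂μ := by
        apply lintegral_finsetSum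
        intro j _
        exact (measurable_Osc (hM.meas _) r).comp measurable_base
    _ ≤ ∑ j ∈ Finset.range (2 * m + 1), ENNReal.ofReal (ε / (2 * m + 1) * r ^ 2) := by
        apply Finset.sum_le_sum
        intro j hj
        exact (lintegral_base_le hX (hM.meas 0) hKm hKV (measurable_Osc (hM.meas _) r)).trans
          (h5 j hj)
    _ = ENNReal.ofReal (ε * r ^ 2) := by
        rw [Finset.sum_const, Finset.card_range, nsmul_eq_mul, ← ENNReal.ofReal_natCast,
          ← ENNReal.ofReal_mul (by positivity)]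
        congr 1
        push_cast
        field_simp

end Pool.Agent.A54.Dyn
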