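import Pool.Agent.Lib.MP_a54f13_nt.Dyn.Spec3
import Pool.Agent.Lib.MP_a54f13_nt.X2

/-!
From the half-plane to the modular surface: sharp lower bounds for all even moments.
-/

set_option autoImplicit false

namespace Pool.Agent.A54.Dyn

open MeasureTheory Filter Topology Set
open scoped ComplexConjugate UpperHalfPlane MatrixGroups ENNReal ContDiff

noncomputable section

namespace X3M

open Pool.Agent.A54.X Pool.Agent.A54.X2

lemma ratio (f : ℕ → ℍ → ℝ) (t : ℕ → ℝ) (hf : ∀ i, IsHeckeMaass (f i) (t i))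
    (hR : HalfRatioS f) (ψ : ℍ → ℝ) (hψ : TestX ψ) (hψ0 : ∀ z, 0 ≤ ψ z) (ε : ℝ) (hε : 0 < ε) :
    ∀ᶠ i in atTop, 3 * (∫ z in ModularGroup.fdo, ψ z * f i z ^ 2) ^ 2 - ε ≤
      (∫ z in ModularGroup.fdo, ψ z) * ∫ z in ModularGroup.fdo, ψ z * f i z ^ 4 := by
  obtain ⟨Y, hY⟩ := hψ.cusp
  have hψc : Continuous ψ := continuous_of_ext hψ.smooth
  have hYo : ∀ z ∈ ModularGroup.fdo, Y < z.im → ψ z = 0 := fun z hz h =>
    hY z (ModularGroup.fdo_subset_fd hz) h
  have hfc : ∀ i, Continuous (f i) := fun i => continuous_of_ext (hf i).smooth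
  have hψi : IntegrableOn ψ ModularGroup.fdo := integrableOn_fdo hψc hYo
  have hi2 : ∀ i, IntegrableOn (fun z => ψ z * f i z ^ 2) ModularGroup.fdo := fun i =>
    integrableOn_fdo (hψc.mul ((hfc i).pow 2)) (fun z hz h => by rw [hYo z hz h, zero_mul])
  have hi4 : ∀ i, IntegrableOn (fun z => ψ z * f i z ^ 4) ModularGroup.fdo := fun i =>
    integrableOn_fdo (hψc.mul ((hfc i).pow 4)) (fun z hz h => by rw [hYo z hz h, zero_mul])
  set A : ℝ := ∫ z in ModularGroup.fdo, ψ z with hA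
  have hA0 : 0 ≤ A := integral_nonneg hψ0
  rcases hA0.eq_or_lt with hA1 | hA1
  · -- `ψ = 0` almost everywhere
    have h0 : ψ =ᵐ[volume.restrict ModularGroup.fdo] 0 :=
      (integral_eq_zero_iff_of_nonneg hψ0 hψi).mp hA1.symm
    refine Eventually.of_forall fun i => ?_
    have h1 : ∫ z in ModularGroup.fdo, ψ z * f i z ^ 2 = 0 := by
      have : ∫ z in ModularGroup.fdo, ψ z * f i z ^ 2 = ∫ z in ModularGroup.fdo, (0 : ℝ) := by
        apply integral_congr_ae
        filter_upwards [h0] with z hz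
        rw [hz]; simp
      rw [this, integral_zero]
    rw [h1, ← hA1]
    simp only [zero_mul]
    nlinarith
  -- bound for `ψ`
  obtain ⟨B₀, hB₀⟩ := (ModularGroup.isCompact_truncatedFundamentalDomain Y).exists_bound_of_continuousOn
    hψc.continuousOn
  set B : ℝ := max B₀ 0 + 1 with hB
  have hB0 : 0 < B := by
    have := le_max_right B₀ 0
    linarith
  have hψB : ∀ z ∈ ModularGroup.fdo, ψ z ≤ B := by
    intro z hz
    by_cases h : Y < z.im
    · rw [hYo z hz h]; exact hB0.le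
    · have h1 := hB₀ z (fdo_inter_sub Y ⟨hz, not_lt.mp h⟩)
      have h2 := le_max_left B₀ 0
      have h3 := le_abs_self (ψ z)
      rw [Real.norm_eq_abs] at h1
      linarith
  -- the square of a form is integrable
  have hf2 : ∀ i, IntegrableOn (fun z => f i z ^ 2) ModularGroup.fdo := by
    intro i
    by_contra h
    have h1 := (hf i).normalised
    rw [integral_undef h] at h1
    have := Real.pi_pos
    linarith
  set S : ℝ := B * (Real.pi / 3) with hS
  have hS0 : 0 < S := by have := Real.pi_pos; positivity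
  have h2le : ∀ i, ∫ z in ModularGroup.fdo, ψ z * f i z ^ 2 ≤ S := by
    intro i
    rw [hS, ← (hf i).normalised, ← integral_const_mul]
    apply setIntegral_mono_on (hi2 i) ((hf2 i).const_mul B) measurableSet_fdo
    intro z hz
    exact mul_le_mul_of_nonneg_right (hψB z hz) (sq_nonneg _)
  have h2nn : ∀ i, 0 ≤ ∫ z in ModularGroup.fdo, ψ z * f i z ^ 2 := fun i =>
    integral_nonneg fun z => mul_nonneg (hψ0 z) (sq_nonneg _)
  -- parameters
  set e : ℝ := ε / (24 * S) with he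
  have he0 : 0 < e := by positivity
  set C : ℝ := 3 * S ^ 2 / A with hC
  have hC0 : 0 < C := by positivity
  set η : ℝ := e / C with hη
  have hη0 : 0 < η := by positivity
  obtain ⟨K, hK, hKO, hKi⟩ := exists_compact ψ hψi (ε := 4 * η * e) (by positivity)
  obtain ⟨χ, hχ, hχ1, hχK⟩ := exists_cutoff hK isOpen_O hKO
  have hχK' : ∀ z ∈ K, χ z = 1 := fun z hz => hχK.self_of_nhdsSet z hz
  have hχc : Continuous (fun z : ℍ => χ z) := hχ.smooth.continuous.comp UpperHalfPlane.continuous_coe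
  have hφ := testR_cut' hψ.smooth hχ
  have hφ0 : ∀ z, 0 ≤ χ z * ext ψ z := fun z => mul_nonneg (hχ1 z).1 (hψ0 _)
  have hmain := hR _ hφ hφ0 (ε / 2) (by positivity)
  have herr : ∫ z in ModularGroup.fdo, (1 - χ z) * ψ z ≤ 4 * η * e :=
    (cut_error hK hχ1 hχK' hχ.smooth.continuous hψi hψ0).trans hKi.le
  have hint : ∫ z : ℍ, χ z * ext ψ z = ∫ z in ModularGroup.fdo, χ z * ψ z := by
    have := integral_cut hχ ψ (fun _ => 1)
    simpa using this
  have hχψ : IntegrableOn (fun z : ℍ => χ z * ψ z) ModularGroup.fdo :=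
    integrableOn_fdo (hχc.mul hψc) (fun z hz h => by rw [hYo z hz h, mul_zero])
  have hχA : ∫ z in ModularGroup.fdo, χ z * ψ z ≤ A := by
    apply integral_mono hχψ hψi
    intro z
    simp only
    nlinarith [(hχ1 z).2, hψ0 z]
  have hχA0 : 0 ≤ ∫ z in ModularGroup.fdo, χ z * ψ z :=
    integral_nonneg fun z => mul_nonneg (hχ1 z).1 (hψ0 z)
  filter_upwards [hmain] with i hi
  rw [hint, integral_cut hχ ψ (fun z => f i z ^ 2), integral_cut hχ ψ (fun z => f i z ^ 4)] at hi
  have j2 : IntegrableOn (fun z : ℍ => χ z * ψ z * f i z ^ 2) ModularGroup.fdo :=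
    integrableOn_fdo ((hχc.mul hψc).mul ((hfc i).pow 2)) (fun z hz h => by
      rw [hYo z hz h]; ring)
  have j4 : IntegrableOn (fun z : ℍ => χ z * ψ z * f i z ^ 4) ModularGroup.fdo :=
    integrableOn_fdo ((hχc.mul hψc).mul ((hfc i).pow 4)) (fun z hz h => by
      rw [hYo z hz h]; ring)
  set Q : ℝ := ∫ z in ModularGroup.fdo, ψ z * f i z ^ 4 with hQ
  set S' : ℝ := ∫ z in ModularGroup.fdo, ψ z * f i z ^ 2 with hS'
  set T : ℝ := ∫ z in ModularGroup.fdo, χ z * ψ z * f i z ^ 2 with hT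
  set P : ℝ := ∫ z in ModularGroup.fdo, χ z * ψ z * f i z ^ 4 with hP
  have hS'S : S' ≤ S := h2le i
  have hS'0 : 0 ≤ S' := h2nn i
  have hPQ : P ≤ Q := by
    apply integral_mono j4 (hi4 i)
    intro z
    simp only
    have h7 : (0 : ℝ) ≤ f i z ^ 4 := Even.pow_nonneg ⟨2, by ring⟩ _
    have h8 : χ z * ψ z ≤ ψ z := by nlinarith [(hχ1 z).2, hψ0 z]
    exact mul_le_mul_of_nonneg_right h8 h7
  have hP0 : 0 ≤ P := integral_nonneg fun z =>
    mul_nonneg (mul_nonneg (hχ1 z).1 (hψ0 z)) (Even.pow_nonneg ⟨2, by ring⟩ _)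
  have hT0 : 0 ≤ T := integral_nonneg fun z =>
    mul_nonneg (mul_nonneg (hχ1 z).1 (hψ0 z)) (sq_nonneg _)
  have hTS : T ≤ S' := by
    apply integral_mono j2 (hi2 i)
    intro z
    simp only
    have h8 : χ z * ψ z ≤ ψ z := by nlinarith [(hχ1 z).2, hψ0 z]
    exact mul_le_mul_of_nonneg_right h8 (sq_nonneg _)
  have hAP : (∫ z in ModularGroup.fdo, χ z * ψ z) * P ≤ A * Q :=
    mul_le_mul hχA hPQ hP0 hA0
  by_contra hcon
  push Not at hcon
  -- the fourth moment is bounded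
  have hQC : Q ≤ C := by
    rw [hC, le_div_iff₀ hA1]
    have h1 : S' ^ 2 ≤ S ^ 2 := pow_le_pow_left₀ hS'0 hS'S 2
    nlinarith
  -- the error
  have hST : S' - T ≤ 2 * e := by
    have i4 : IntegrableOn (fun z : ℍ => (1 - χ z) * ψ z) ModularGroup.fdo :=
      integrableOn_fdo ((continuous_const.sub hχc).mul hψc) (fun z hz h => by
        rw [hYo z hz h]; simp)
    have i3 : IntegrableOn (fun z : ℍ => η * (ψ z * f i z ^ 4) +
        1 / (4 * η) * ((1 - χ z) * ψ z)) ModularGroup.fdo :=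
      ((hi4 i).const_mul η).add (i4.const_mul _)
    calc S' - T = ∫ z in ModularGroup.fdo, (ψ z * f i z ^ 2 - χ z * ψ z * f i z ^ 2) := by
          rw [integral_sub (hi2 i) j2]
      _ ≤ ∫ z in ModularGroup.fdo, (η * (ψ z * f i z ^ 4) + 1 / (4 * η) * ((1 - χ z) * ψ z)) := by
          apply integral_mono ((hi2 i).sub j2) i3
          intro z
          simp only [Pi.sub_apply]
          have c1 : 0 ≤ 1 - χ z := by linarith [(hχ1 z).2]
          have c2 : 1 - χ z ≤ 1 := by linarith [(hχ1 z).1]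
          have c3 : f i z ^ 2 ≤ η * f i z ^ 4 + 1 / (4 * η) := sq_le hη0
          have c7 : 0 ≤ (1 - χ z) * ψ z := mul_nonneg c1 (hψ0 z)
          have c6 : (0 : ℝ) ≤ f i z ^ 4 := Even.pow_nonneg ⟨2, rfl⟩ _
          have c8 : 0 ≤ η * (ψ z * f i z ^ 4) := mul_nonneg hη0.le (mul_nonneg (hψ0 z) c6)
          have c9 := mul_le_mul_of_nonneg_right c2 c8
          calc ψ z * f i z ^ 2 - χ z * ψ z * f i z ^ 2 = (1 - χ z) * ψ z * f i z ^ 2 := by ring
            _ ≤ (1 - χ z) * ψ z * (η * f i z ^ 4 + 1 / (4 * η)) :=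
                mul_le_mul_of_nonneg_left c3 c7
            _ = (1 - χ z) * (η * (ψ z * f i z ^ 4)) + 1 / (4 * η) * ((1 - χ z) * ψ z) := by ring
            _ ≤ η * (ψ z * f i z ^ 4) + 1 / (4 * η) * ((1 - χ z) * ψ z) := by linarith
      _ = η * Q + 1 / (4 * η) * ∫ z in ModularGroup.fdo, (1 - χ z) * ψ z := by
          rw [integral_add ((hi4 i).const_mul η) (i4.const_mul _), integral_const_mul,
            integral_const_mul]
      _ ≤ η * C + 1 / (4 * η) * (4 * η * e) := by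
          have d1 : η * Q ≤ η * C := mul_le_mul_of_nonneg_left hQC hη0.le
          have d2 : 1 / (4 * η) * (∫ z in ModularGroup.fdo, (1 - χ z) * ψ z) ≤
            1 / (4 * η) * (4 * η * e) := mul_le_mul_of_nonneg_left herr (by positivity)
          linarith
      _ = 2 * e := by
          have e1 : η * C = e := by rw [hη]; field_simp
          have e2 : 1 / (4 * η) * (4 * η * e) = e := by field_simp
          rw [e1, e2]; ring
  have heS : e * S = ε / 24 := by rw [he]; field_simp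
  have hsq : S' ^ 2 - T ^ 2 ≤ 2 * e * (2 * S) := by
    have h1 : S' ^ 2 - T ^ 2 = (S' - T) * (S' + T) := by ring
    rw [h1]
    apply mul_le_mul hST (by linarith) (by linarith) (by positivity)
  nlinarith

/-- the tangent line inequality for powers -/
lemma tang {x r : ℝ} (hx : 0 ≤ x) (hr : 0 ≤ r) (j : ℕ) :
    ((j : ℝ) + 1) * r ^ j * x ≤ x ^ (j + 1) + j * r ^ (j + 1) := by
  induction j with
  | zero => simp
  | succ j ih =>
    have h1 := mul_le_mul_of_nonneg_left ih hx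
    have h2 : 0 ≤ ((j : ℝ) + 1) * r ^ j * (x - r) ^ 2 := by positivity
    push_cast
    have e1 : r ^ (j + 1) = r ^ j * r := pow_succ _ _
    have e2 : r ^ (j + 1 + 1) = r ^ j * r * r := by rw [pow_succ, pow_succ]
    have e3 : x ^ (j + 1 + 1) = x * x ^ (j + 1) := by rw [pow_succ x (j + 1)]; ring
    rw [e2, e3, e1]
    rw [e1] at h1
    nlinarith

/-- the algebra of the moments -/
lemma alg {A S Q M ε ε' B : ℝ} (hA : 0 < A) (hS : 0 ≤ S) (hSB : S ≤ B) (hε : 0 < ε) (j : ℕ)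
    (hε' : ε' = ε / ((j + 1) * (3 * B) ^ j + 1)) (h2 : 3 * S ^ 2 - ε' ≤ A * Q)
    (hM : ((j : ℝ) + 1) * (3 * S / A) ^ j * Q ≤ M + j * (3 * S / A) ^ (j + 1) * S) :
    3 ^ (j + 1) * S ^ (j + 2) - ε ≤ A ^ (j + 1) * M := by
  have hB : 0 ≤ B := hS.trans hSB
  have hd : 0 < ((j : ℝ) + 1) * (3 * B) ^ j + 1 := by positivity
  have hε0 : 0 ≤ ε' := by rw [hε']; positivity
  have h3 : A ^ (j + 1) * (((j : ℝ) + 1) * (3 * S / A) ^ j * Q) ≤
      A ^ (j + 1) * (M + j * (3 * S / A) ^ (j + 1) * S) :=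
    mul_le_mul_of_nonneg_left hM (by positivity)
  have e1 : A ^ (j + 1) * (((j : ℝ) + 1) * (3 * S / A) ^ j * Q) =
      ((j : ℝ) + 1) * (3 * S) ^ j * (A * Q) := by
    rw [div_pow, pow_succ]
    field_simp
  have e2 : A ^ (j + 1) * (M + j * (3 * S / A) ^ (j + 1) * S) =
      A ^ (j + 1) * M + j * (3 * S) ^ (j + 1) * S := by
    rw [div_pow]
    field_simp
  rw [e1, e2] at h3
  have h4 : ((j : ℝ) + 1) * (3 * S) ^ j * (3 * S ^ 2 - ε') ≤
      ((j : ℝ) + 1) * (3 * S) ^ j * (A * Q) := mul_le_mul_of_nonneg_left h2 (by positivity)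
  have h5 : ((j : ℝ) + 1) * (3 * S) ^ j * ε' ≤ ε := by
    have h6 : ((j : ℝ) + 1) * (3 * S) ^ j ≤ ((j : ℝ) + 1) * (3 * B) ^ j + 1 := by
      have : (3 * S) ^ j ≤ (3 * B) ^ j := pow_le_pow_left₀ (by positivity) (by linarith) j
      have h7 := mul_le_mul_of_nonneg_left this (by positivity : (0 : ℝ) ≤ (j : ℝ) + 1)
      linarith
    calc ((j : ℝ) + 1) * (3 * S) ^ j * ε' ≤ (((j : ℝ) + 1) * (3 * B) ^ j + 1) * ε' :=
          mul_le_mul_of_nonneg_right h6 hε0
      _ = ε := by rw [hε']; field_simp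
  have e3 : ((j : ℝ) + 1) * (3 * S) ^ j * (3 * S ^ 2 - ε') =
      j * (3 * S) ^ (j + 1) * S + 3 ^ (j + 1) * S ^ (j + 2) -
        ((j : ℝ) + 1) * (3 * S) ^ j * ε' := by
    rw [mul_pow, mul_pow, pow_succ, pow_succ S j, pow_add S j 2]
    ring
  linarith

lemma sharp (f : ℕ → ℍ → ℝ) (t : ℕ → ℝ) (hf : ∀ i, IsHeckeMaass (f i) (t i))
    (hR : HalfRatioS f) : FinalSharp f := by
  intro ψ hψ hψ0 k hk ε hε
  obtain ⟨j, rfl⟩ : ∃ j, k = j + 2 := ⟨k - 2, by omega⟩
  obtain ⟨Y, hY⟩ := hψ.cusp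
  have hψc : Continuous ψ := continuous_of_ext hψ.smooth
  have hYo : ∀ z ∈ ModularGroup.fdo, Y < z.im → ψ z = 0 := fun z hz h =>
    hY z (ModularGroup.fdo_subset_fd hz) h
  have hfc : ∀ i, Continuous (f i) := fun i => continuous_of_ext (hf i).smooth
  have hψi : IntegrableOn ψ ModularGroup.fdo := integrableOn_fdo hψc hYo
  have him : ∀ i m, IntegrableOn (fun z => ψ z * f i z ^ m) ModularGroup.fdo := fun i m =>
    integrableOn_fdo (hψc.mul ((hfc i).pow m)) (fun z hz h => by rw [hYo z hz h, zero_mul])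
  set A : ℝ := ∫ z in ModularGroup.fdo, ψ z with hA
  have hA0 : 0 ≤ A := integral_nonneg hψ0
  have hk1 : j + 2 - 1 = j + 1 := by omega
  rw [hk1]
  rcases hA0.eq_or_lt with hA1 | hA1
  · have h0 : ψ =ᵐ[volume.restrict ModularGroup.fdo] 0 :=
      (integral_eq_zero_iff_of_nonneg hψ0 hψi).mp hA1.symm
    refine Eventually.of_forall fun i => ?_
    have h1 : ∫ z in ModularGroup.fdo, ψ z * f i z ^ 2 = 0 := by
      have : ∫ z in ModularGroup.fdo, ψ z * f i z ^ 2 = ∫ z in ModularGroup.fdo, (0 : ℝ) := by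
        apply integral_congr_ae
        filter_upwards [h0] with z hz
        rw [hz]; simp
      rw [this, integral_zero]
    rw [h1, ← hA1, zero_pow (by omega), zero_pow (by omega)]
    linarith
  -- bound for `ψ`
  obtain ⟨B₀, hB₀⟩ := (ModularGroup.isCompact_truncatedFundamentalDomain Y).exists_bound_of_continuousOn
    hψc.continuousOn
  set B : ℝ := max B₀ 0 + 1 with hB
  have hB0 : 0 < B := by
    have := le_max_right B₀ 0
    linarith
  have hψB : ∀ z ∈ ModularGroup.fdo, ψ z ≤ B := by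
    intro z hz
    by_cases h : Y < z.im
    · rw [hYo z hz h]; exact hB0.le
    · have h1 := hB₀ z (fdo_inter_sub Y ⟨hz, not_lt.mp h⟩)
      have h2 := le_max_left B₀ 0
      have h3 := le_abs_self (ψ z)
      rw [Real.norm_eq_abs] at h1
      linarith
  have hf2 : ∀ i, IntegrableOn (fun z => f i z ^ 2) ModularGroup.fdo := by
    intro i
    by_contra h
    have h1 := (hf i).normalised
    rw [integral_undef h] at h1
    have := Real.pi_pos
    linarith
  have h2le : ∀ i, ∫ z in ModularGroup.fdo, ψ z * f i z ^ 2 ≤ B * (Real.pi / 3) := by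
    intro i
    rw [← (hf i).normalised, ← integral_const_mul]
    apply setIntegral_mono_on (him i 2) ((hf2 i).const_mul B) measurableSet_fdo
    intro z hz
    exact mul_le_mul_of_nonneg_right (hψB z hz) (sq_nonneg _)
  have h2nn : ∀ i, 0 ≤ ∫ z in ModularGroup.fdo, ψ z * f i z ^ 2 := fun i =>
    integral_nonneg fun z => mul_nonneg (hψ0 z) (sq_nonneg _)
  have hS0 : 0 < B * (Real.pi / 3) := by have := Real.pi_pos; positivity
  have hev := ratio f t hf hR ψ hψ hψ0
    (ε / ((j + 1) * (3 * (B * (Real.pi / 3))) ^ j + 1)) (by positivity)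
  filter_upwards [hev] with i hi
  refine alg hA1 (h2nn i) (h2le i) hε j rfl hi ?_
  set S' : ℝ := ∫ z in ModularGroup.fdo, ψ z * f i z ^ 2 with hS'
  set r : ℝ := 3 * S' / A with hr
  have hr0 : 0 ≤ r := by
    have := h2nn i
    positivity
  have hl : IntegrableOn (fun z => ((j : ℝ) + 1) * r ^ j * (ψ z * f i z ^ 4)) ModularGroup.fdo :=
    (him i 4).const_mul _
  have hrr : IntegrableOn (fun z => ψ z * f i z ^ (2 * (j + 2)) +
      j * r ^ (j + 1) * (ψ z * f i z ^ 2)) ModularGroup.fdo :=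
    (him i _).add ((him i 2).const_mul _)
  have hle : ∫ z in ModularGroup.fdo, ((j : ℝ) + 1) * r ^ j * (ψ z * f i z ^ 4) ≤
      ∫ z in ModularGroup.fdo, (ψ z * f i z ^ (2 * (j + 2)) +
      j * r ^ (j + 1) * (ψ z * f i z ^ 2)) := by
    apply integral_mono hl hrr
    intro z
    simp only
    have h1 := tang (sq_nonneg (f i z)) hr0 j
    have h2 := mul_le_mul_of_nonneg_left h1 (mul_nonneg (hψ0 z) (sq_nonneg (f i z)))
    calc ((j : ℝ) + 1) * r ^ j * (ψ z * f i z ^ 4) =
        ψ z * f i z ^ 2 * (((j : ℝ) + 1) * r ^ j * f i z ^ 2) := by ring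
      _ ≤ ψ z * f i z ^ 2 * ((f i z ^ 2) ^ (j + 1) + j * r ^ (j + 1)) := h2
      _ = ψ z * f i z ^ (2 * (j + 2)) + j * r ^ (j + 1) * (ψ z * f i z ^ 2) := by
        rw [← pow_mul, show 2 * (j + 2) = 2 + 2 * (j + 1) by ring, pow_add]
        ring
  rw [integral_const_mul, integral_add (him i _) ((him i 2).const_mul _),
    integral_const_mul] at hle
  exact hle

end X3M

theorem stmtX3 : StmtX3 := fun f t hf hR => X3M.sharp f t hf hR

end

end Pool.Agent.A54.Dyn
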