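import Pool.Agent.Lib.MP_a54f13_nt.Dyn.Spec1

/-!
Derivative of `φ(base g) (ze g)^n` along the flow (`stmtXd`), and smooth functions of the entries
determine measures on the group (`stmtDens`).
-/

set_option autoImplicit false
set_option linter.unusedSectionVars false

namespace Pool.Agent.A54.Dyn.XdDensM

open MeasureTheory Filter Topology Set
open scoped ComplexConjugate UpperHalfPlane MatrixGroups ENNReal ContDiff

noncomputable section

/-! ### derivative along the flow -/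

lemma hasDerivAt_exp_half : HasDerivAt (fun t : ℝ => (Real.exp (t / 2) : ℂ)) (1 / 2) 0 := by
  have h1 : HasDerivAt (fun t : ℝ => Real.exp (t / 2)) (1 / 2) 0 := by
    have h := ((hasDerivAt_id (0 : ℝ)).div_const 2).exp
    simpa using h
  refine h1.ofReal_comp.congr_deriv ?_
  push_cast; ring

lemma hasDerivAt_exp_neg_half :
    HasDerivAt (fun t : ℝ => (Real.exp (-t / 2) : ℂ)) (-(1 / 2)) 0 := by
  have h1 : HasDerivAt (fun t : ℝ => Real.exp (-t / 2)) (-(1 / 2)) 0 := by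
    have h := ((hasDerivAt_neg (0 : ℝ)).div_const 2).exp
    convert h using 1
    simp; norm_num
  refine h1.ofReal_comp.congr_deriv ?_
  push_cast; ring

/-- combinations of the two exponentials -/
lemma hasDerivAt_comb (a b : ℂ) :
    HasDerivAt (fun t : ℝ => a * (Real.exp (t / 2) : ℂ) + b * (Real.exp (-t / 2) : ℂ))
      ((a - b) / 2) 0 := by
  refine ((hasDerivAt_exp_half.const_mul a).add (hasDerivAt_exp_neg_half.const_mul b)).congr_deriv ?_
  ring

lemma mfl_00 (g : G) (t : ℝ) : (g * fl t) 0 0 = g 0 0 * Real.exp (t / 2) := by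
  rw [mul_00, fl_00, fl_10]; ring
lemma mfl_01 (g : G) (t : ℝ) : (g * fl t) 0 1 = g 0 1 * Real.exp (-t / 2) := by
  rw [mul_01, fl_01, fl_11]; ring
lemma mfl_10 (g : G) (t : ℝ) : (g * fl t) 1 0 = g 1 0 * Real.exp (t / 2) := by
  rw [mul_10, fl_00, fl_10]; ring
lemma mfl_11 (g : G) (t : ℝ) : (g * fl t) 1 1 = g 1 1 * Real.exp (-t / 2) := by
  rw [mul_11, fl_01, fl_11]; ring

lemma im_base (g : G) : ((base g).im : ℂ) =
    1 / (((g 1 1 : ℂ) + Complex.I * (g 1 0 : ℂ)) * ((g 1 1 : ℂ) - Complex.I * (g 1 0 : ℂ))) := by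
  have h : (base g).im = 1 / (g 1 0 ^ 2 + g 1 1 ^ 2) := by
    unfold base
    rw [im_smul]
    have e1 : UpperHalfPlane.I.im = 1 := rfl
    have e2 : ((UpperHalfPlane.I : ℍ) : ℂ) = Complex.I := rfl
    rw [e1, e2]
    congr 1
    rw [Complex.normSq_apply]
    simp
    ring
  rw [h]
  push_cast
  congr 1
  ring_nf
  rw [Complex.I_sq]
  ring

lemma hasDerivAt_base (g : G) : HasDerivAt (fun t : ℝ => ((base (g * fl t) : ℍ) : ℂ))
    (Complex.I * ((base g).im : ℂ) * ze g) 0 := by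
  have hN := hasDerivAt_comb ((g 0 0 : ℂ) * Complex.I) (g 0 1 : ℂ)
  have hD := hasDerivAt_comb ((g 1 0 : ℂ) * Complex.I) (g 1 1 : ℂ)
  have hd := denI_ne g
  have hd' : (g 1 1 : ℂ) - Complex.I * (g 1 0 : ℂ) ≠ 0 := by
    have h : (g 1 1 : ℂ) - Complex.I * (g 1 0 : ℂ) =
        conj ((g 1 1 : ℂ) + Complex.I * (g 1 0 : ℂ)) := by simp [sub_eq_add_neg]
    rw [h]
    exact (map_ne_zero _).mpr hd
  have hD0 : ((g 1 0 : ℂ) * Complex.I) * (Real.exp ((0 : ℝ) / 2) : ℂ) +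
      (g 1 1 : ℂ) * (Real.exp (-(0 : ℝ) / 2) : ℂ) ≠ 0 := by
    have e : ((g 1 0 : ℂ) * Complex.I) * (Real.exp ((0 : ℝ) / 2) : ℂ) +
      (g 1 1 : ℂ) * (Real.exp (-(0 : ℝ) / 2) : ℂ) = (g 1 1 : ℂ) + Complex.I * (g 1 0 : ℂ) := by
      simp; ring
    rw [e]; exact hd
  have h := hN.div hD hD0
  have ef : (fun t : ℝ => ((base (g * fl t) : ℍ) : ℂ)) =
      (fun t : ℝ => ((g 0 0 : ℂ) * Complex.I) * (Real.exp (t / 2) : ℂ) +
        (g 0 1 : ℂ) * (Real.exp (-t / 2) : ℂ)) / (fun t : ℝ => ((g 1 0 : ℂ) * Complex.I) *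
          (Real.exp (t / 2) : ℂ) + (g 1 1 : ℂ) * (Real.exp (-t / 2) : ℂ)) := by
    funext t
    rw [base_coe, mfl_00, mfl_01, mfl_10, mfl_11, Pi.div_apply]
    push_cast
    congr 1 <;> ring
  rw [ef]
  refine h.congr_deriv ?_
  rw [im_base]
  unfold ze
  have hdet : (g 0 0 : ℂ) * (g 1 1 : ℂ) - (g 0 1 : ℂ) * (g 1 0 : ℂ) = 1 := by
    exact_mod_cast det_eq g
  have e0 : (Real.exp ((0 : ℝ) / 2) : ℂ) = 1 := by simp
  have e1 : (Real.exp (-(0 : ℝ) / 2) : ℂ) = 1 := by simp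
  rw [e0, e1]
  have e2 : ((g 1 0 : ℂ) * Complex.I) * 1 + (g 1 1 : ℂ) * 1 =
    (g 1 1 : ℂ) + Complex.I * (g 1 0 : ℂ) := by ring
  rw [e2]
  set D := (g 1 1 : ℂ) + Complex.I * (g 1 0 : ℂ) with hDD
  set D' := (g 1 1 : ℂ) - Complex.I * (g 1 0 : ℂ) with hDD'
  have e3 : ((g 0 0 : ℂ) * Complex.I - (g 0 1 : ℂ)) / 2 * D -
      ((g 0 0 : ℂ) * Complex.I * 1 + (g 0 1 : ℂ) * 1) *
        (((g 1 0 : ℂ) * Complex.I - (g 1 1 : ℂ)) / 2) = Complex.I := by
    rw [hDD]
    linear_combination Complex.I * hdet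
  rw [e3]
  field_simp

lemma hasDerivAt_ze (g : G) : HasDerivAt (fun t : ℝ => ze (g * fl t)) ((ze g ^ 2 - 1) / 2) 0 := by
  have hN := hasDerivAt_comb (-(Complex.I * (g 1 0 : ℂ))) (g 1 1 : ℂ)
  have hD := hasDerivAt_comb (Complex.I * (g 1 0 : ℂ)) (g 1 1 : ℂ)
  have hd := denI_ne g
  have hD0 : (Complex.I * (g 1 0 : ℂ)) * (Real.exp ((0 : ℝ) / 2) : ℂ) +
      (g 1 1 : ℂ) * (Real.exp (-(0 : ℝ) / 2) : ℂ) ≠ 0 := by
    have e : (Complex.I * (g 1 0 : ℂ)) * (Real.exp ((0 : ℝ) / 2) : ℂ) +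
      (g 1 1 : ℂ) * (Real.exp (-(0 : ℝ) / 2) : ℂ) = (g 1 1 : ℂ) + Complex.I * (g 1 0 : ℂ) := by
      simp; ring
    rw [e]; exact hd
  have h := hN.div hD hD0
  have ef : (fun t : ℝ => ze (g * fl t)) =
      (fun t : ℝ => (-(Complex.I * (g 1 0 : ℂ))) * (Real.exp (t / 2) : ℂ) +
        (g 1 1 : ℂ) * (Real.exp (-t / 2) : ℂ)) / (fun t : ℝ => (Complex.I * (g 1 0 : ℂ)) *
          (Real.exp (t / 2) : ℂ) + (g 1 1 : ℂ) * (Real.exp (-t / 2) : ℂ)) := by
    funext t
    unfold ze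
    rw [mfl_10, mfl_11, Pi.div_apply]
    push_cast
    congr 1 <;> ring
  rw [ef]
  refine h.congr_deriv ?_
  unfold ze
  have e0 : (Real.exp ((0 : ℝ) / 2) : ℂ) = 1 := by simp
  have e1 : (Real.exp (-(0 : ℝ) / 2) : ℂ) = 1 := by simp
  rw [e0, e1]
  have e2 : (Complex.I * (g 1 0 : ℂ)) * 1 + (g 1 1 : ℂ) * 1 =
    (g 1 1 : ℂ) + Complex.I * (g 1 0 : ℂ) := by ring
  rw [e2]
  rw [div_pow, div_sub_one (pow_ne_zero 2 hd), div_div,
    div_eq_div_iff (pow_ne_zero 2 hd) (mul_ne_zero (pow_ne_zero 2 hd) two_ne_zero)]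
  ring

/-- the real derivative in terms of `∂` and `∂̄` -/
lemma fderiv_eq (φ : ℂ → ℂ) (w v : ℂ) : fderiv ℝ φ w v =
    1 / 2 * (v * dz φ w + conj v * dzb φ w) := by
  have hv : v = v.re • (1 : ℂ) + v.im • Complex.I := by
    apply Complex.ext <;> simp
  have h1 : fderiv ℝ φ w v = v.re • fderiv ℝ φ w 1 + v.im • fderiv ℝ φ w Complex.I := by
    conv_lhs => rw [hv]
    rw [map_add, map_smul, map_smul]
  rw [h1]
  unfold dz dzb
  have e1 : v = (v.re : ℂ) + (v.im : ℂ) * Complex.I := (Complex.re_add_im v).symm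
  have e2 : conj v = (v.re : ℂ) - (v.im : ℂ) * Complex.I := by
    apply Complex.ext <;> simp
  rw [Complex.real_smul, Complex.real_smul, e2]
  nth_rewrite 3 [e1]
  ring_nf
  rw [Complex.I_sq]
  ring

lemma hasDerivAt_zpow_comp {u : ℝ → ℂ} {u' : ℂ} {t : ℝ} (n : ℤ) (hu : HasDerivAt u u' t)
    (h0 : u t ≠ 0) : HasDerivAt (fun s => u s ^ n) ((n : ℂ) * u t ^ (n - 1) * u') t := by
  have h1 : HasDerivAt (fun x : ℂ => x ^ n) ((n : ℂ) * u t ^ (n - 1)) (u t) :=
    hasDerivAt_zpow n (u t) (Or.inl h0)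
  exact h1.comp t hu

lemma conj_ze (g : G) : conj (ze g) = (ze g)⁻¹ := by
  apply eq_inv_of_mul_eq_one_left
  rw [mul_comm, Complex.mul_conj, Complex.normSq_eq_norm_sq, norm_ze]
  simp

lemma xd_aux (φ : ℂ → ℂ) (n : ℤ) (g : G) (hφ : ContDiff ℝ ∞ φ) :
    HasDerivAt (fun t : ℝ => φ (base (g * fl t)) * ze (g * fl t) ^ n) (Xf φ n g) 0 := by
  have h0 : g * fl 0 = g := by rw [fl_zero, mul_one]
  have hb := hasDerivAt_base g
  have hz := hasDerivAt_ze g
  have hd : DifferentiableAt ℝ φ ((base (g * fl 0) : ℍ) : ℂ) :=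
    (hφ.differentiable (by simp)).differentiableAt
  have h1 := hd.hasFDerivAt.comp_hasDerivAt (0 : ℝ) hb
  have hzn : ze (g * fl 0) ≠ 0 := ze_ne _
  have h2 : HasDerivAt (fun t : ℝ => ze (g * fl t) ^ n)
      ((n : ℂ) * ze (g * fl 0) ^ (n - 1) * ((ze g ^ 2 - 1) / 2)) 0 :=
    hasDerivAt_zpow_comp n hz hzn
  have h3 := h1.mul h2
  refine h3.congr_deriv ?_
  rw [h0]
  simp only [Function.comp, h0]
  rw [fderiv_eq]
  unfold Xf
  have hc : conj (Complex.I * ((base g).im : ℂ) * ze g) =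
      -(Complex.I * ((base g).im : ℂ) * (ze g)⁻¹) := by
    rw [map_mul, map_mul, conj_ze, Complex.conj_I, Complex.conj_ofReal]
    ring
  rw [hc]
  have hz0 := ze_ne g
  rw [zpow_add_one₀ hz0, zpow_sub_one₀ hz0]
  field_simp
  ring

/-! ### smooth functions determine measures -/

section dens

variable {E : Type*} [NormedAddCommGroup E] [NormedSpace ℝ E] [FiniteDimensional ℝ E]
  [MeasurableSpace E] [BorelSpace E]

/-- locally finite measures on a finite dimensional space are determined by the integrals of smooth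
functions with compact support -/
lemma dens_aux (μ ν : Measure E) [IsFiniteMeasureOnCompacts μ] [IsFiniteMeasureOnCompacts ν]
    (h : ∀ Φ : E → ℝ, ContDiff ℝ ∞ Φ → HasCompactSupport Φ → ∫ x, Φ x ∂μ = ∫ x, Φ x ∂ν) :
    μ = ν := by
  have : ProperSpace E := FiniteDimensional.proper_real E
  have : IsFiniteMeasureOnCompacts (μ + ν) := ⟨fun K hK => by
    rw [Measure.add_apply]
    exact ENNReal.add_lt_top.mpr ⟨hK.measure_lt_top, hK.measure_lt_top⟩⟩
  have : IsLocallyFiniteMeasure (μ + ν) := isLocallyFiniteMeasure_of_isFiniteMeasureOnCompacts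
  have hμ : μ ≤ μ + ν := Measure.le_add_right le_rfl
  have hν : ν ≤ μ + ν := Measure.le_add_left le_rfl
  have hμa := Measure.absolutelyContinuous_of_le hμ
  have hνa := Measure.absolutelyContinuous_of_le hν
  have key : ∀ ρ : Measure E, ρ ≤ μ + ν →
      LocallyIntegrable (fun x => (ρ.rnDeriv (μ + ν) x).toReal) (μ + ν) := by
    intro ρ hρ
    have h1 : LocallyIntegrable (fun _ : E => (1 : ℝ)) (μ + ν) := locallyIntegrable_const 1
    refine h1.mono (Measure.measurable_rnDeriv _ _).ennreal_toReal.aestronglyMeasurable ?_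
    filter_upwards [Measure.rnDeriv_le_one_of_le hρ] with x hx
    rw [Real.norm_eq_abs, abs_of_nonneg ENNReal.toReal_nonneg, norm_one]
    exact ENNReal.toReal_le_of_le_ofReal zero_le_one (by simpa using hx)
  have h2 := ae_eq_of_integral_contDiff_smul_eq (key μ hμ) (key ν hν) (by
    intro Φ hΦ hc
    have e := h Φ hΦ hc
    rw [← integral_rnDeriv_smul hμa, ← integral_rnDeriv_smul hνa] at e
    simpa [mul_comm] using e)
  have h3 : μ.rnDeriv (μ + ν) =ᵐ[μ + ν] ν.rnDeriv (μ + ν) := by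
    filter_upwards [h2, Measure.rnDeriv_lt_top μ (μ + ν), Measure.rnDeriv_lt_top ν (μ + ν)]
      with x hx h4 h5
    exact (ENNReal.toReal_eq_toReal_iff' h4.ne h5.ne).mp hx
  calc μ = (μ + ν).withDensity (μ.rnDeriv (μ + ν)) :=
        (Measure.withDensity_rnDeriv_eq μ (μ + ν) hμa).symm
    _ = (μ + ν).withDensity (ν.rnDeriv (μ + ν)) := withDensity_congr_ae h3
    _ = ν := Measure.withDensity_rnDeriv_eq ν (μ + ν) hνa

end dens

lemma isClosedEmbedding_ent : IsClosedEmbedding ent :=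
  Matrix.SpecialLinearGroup.isClosedEmbedding_val

end

end Pool.Agent.A54.Dyn.XdDensM

namespace Pool.Agent.A54.Dyn

open MeasureTheory Filter Topology Set
open scoped ComplexConjugate UpperHalfPlane MatrixGroups ENNReal ContDiff

/-- derivative along the flow -/
theorem stmtXd : StmtXd := fun φ n g hφ => XdDensM.xd_aux φ n g hφ

/-- smooth functions of the entries determine measures on the group -/
theorem stmtDens : StmtDens := by
  intro μ ν hμ hν h
  have he := XdDensM.isClosedEmbedding_ent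
  have hm : MeasurableEmbedding ent := he.measurableEmbedding
  have : IsFiniteMeasureOnCompacts (μ.map ent) := ⟨fun K hK => by
    rw [hm.map_apply]
    exact (he.isCompact_preimage hK).measure_lt_top⟩
  have : IsFiniteMeasureOnCompacts (ν.map ent) := ⟨fun K hK => by
    rw [hm.map_apply]
    exact (he.isCompact_preimage hK).measure_lt_top⟩
  have e : μ.map ent = ν.map ent := by
    apply XdDensM.dens_aux
    intro Φ hΦ hc
    rw [hm.integral_map, hm.integral_map]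
    exact h Φ hΦ hc
  calc μ = (μ.map ent).comap ent := (hm.comap_map μ).symm
    _ = (ν.map ent).comap ent := by rw [e]
    _ = ν := hm.comap_map ν

end Pool.Agent.A54.Dyn
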