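import Pool.Agent.Lib.MP_a54f13_nt.Dyn.Spec

/-!
Density theorem for boxes (module Zbox), from the statement that small sets have small density in
most boxes.
-/

set_option autoImplicit false

namespace Pool.Agent.A54.Dyn

open MeasureTheory Filter Topology Set
open scoped ComplexConjugate UpperHalfPlane MatrixGroups ENNReal ContDiff Pointwise

noncomputable section

namespace ZboxM

/-- the filter generated by the boxes -/
def boxF : Filter G := comap (fun g : G => (cX g, cY g, cU g)) (𝓝 (0, 0, 0)) ⊓ 𝓟 dom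

lemma tendsto_coord : Tendsto (fun g : G => (cX g, cY g, cU g)) boxF (𝓝 (0, 0, 0)) :=
  tendsto_comap.mono_left inf_le_left

lemma eventually_dom : ∀ᶠ g in boxF, g ∈ dom := by
  have h : boxF ≤ 𝓟 dom := inf_le_right
  exact h (mem_principal_self _)

lemma tendsto_00 : Tendsto (fun g : G => g 0 0) boxF (𝓝 1) := by
  have hc : ContinuousAt (fun p : ℝ × ℝ × ℝ => Real.sqrt (Real.exp p.2.2 / (1 - p.1 * p.2.1)))
      (0, 0, 0) := by
    refine Real.continuous_sqrt.continuousAt.comp ?_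
    refine ContinuousAt.div (by fun_prop) (by fun_prop) ?_
    simp
  have h1 := hc.tendsto.comp tendsto_coord
  have h2 : Real.sqrt (Real.exp ((0, 0, 0) : ℝ × ℝ × ℝ).2.2 /
      (1 - ((0, 0, 0) : ℝ × ℝ × ℝ).1 * ((0, 0, 0) : ℝ × ℝ × ℝ).2.1)) = 1 := by
    simp
  rw [h2] at h1
  refine h1.congr' ?_
  filter_upwards [eventually_dom] with g hg
  change Real.sqrt (Real.exp (cU g) / (1 - cX g * cY g)) = g 0 0
  rw [← sq_00 hg, Real.sqrt_sq hg.1.le]

lemma tendsto_11 : Tendsto (fun g : G => g 1 1) boxF (𝓝 1) := by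
  have hc : ContinuousAt (fun p : ℝ × ℝ × ℝ => Real.sqrt (Real.exp (-p.2.2) / (1 - p.1 * p.2.1)))
      (0, 0, 0) := by
    refine Real.continuous_sqrt.continuousAt.comp ?_
    refine ContinuousAt.div (by fun_prop) (by fun_prop) ?_
    simp
  have h1 := hc.tendsto.comp tendsto_coord
  have h2 : Real.sqrt (Real.exp (-((0, 0, 0) : ℝ × ℝ × ℝ).2.2) /
      (1 - ((0, 0, 0) : ℝ × ℝ × ℝ).1 * ((0, 0, 0) : ℝ × ℝ × ℝ).2.1)) = 1 := by
    simp
  rw [h2] at h1
  refine h1.congr' ?_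
  filter_upwards [eventually_dom] with g hg
  change Real.sqrt (Real.exp (-cU g) / (1 - cX g * cY g)) = g 1 1
  rw [← sq_11 hg, Real.sqrt_sq hg.2.le]

lemma tendsto_01 : Tendsto (fun g : G => g 0 1) boxF (𝓝 0) := by
  have h0 : Tendsto (fun g : G => cX g) boxF (𝓝 0) :=
    (continuous_fst.tendsto _).comp tendsto_coord
  have h1 := h0.mul tendsto_11
  rw [zero_mul] at h1
  refine h1.congr' ?_
  filter_upwards [eventually_dom] with g hg
  have := hg.2
  unfold cX
  field_simp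

lemma tendsto_10 : Tendsto (fun g : G => g 1 0) boxF (𝓝 0) := by
  have h0 : Tendsto (fun g : G => cY g) boxF (𝓝 0) :=
    ((continuous_fst.comp continuous_snd).tendsto _).comp tendsto_coord
  have h1 := h0.mul tendsto_00
  rw [zero_mul] at h1
  refine h1.congr' ?_
  filter_upwards [eventually_dom] with g hg
  have := hg.1
  unfold cY
  field_simp

lemma boxF_le : boxF ≤ 𝓝 (1 : G) := by
  have h : Tendsto (fun g : G => g) boxF (𝓝 1) := by
    refine (Matrix.SpecialLinearGroup.isClosedEmbedding_val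
      (n := Fin 2) (R := ℝ)).isEmbedding.tendsto_nhds_iff.2 ?_
    refine tendsto_pi_nhds.2 fun i => tendsto_pi_nhds.2 fun j => ?_
    fin_cases i <;> fin_cases j
    · exact tendsto_00
    · exact tendsto_01
    · exact tendsto_10
    · exact tendsto_11
  exact h

/-- small boxes are contained in a given neighbourhood of the identity -/
lemma bx_small {U : Set G} (hU : U ∈ 𝓝 (1 : G)) : ∃ δ : ℝ, 0 < δ ∧ ∀ r : ℝ, r ≤ δ → Bx r r ⊆ U := by
  have h1 : U ∈ boxF := boxF_le hU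
  rw [boxF, mem_inf_principal, mem_comap] at h1
  obtain ⟨t, ht, htU⟩ := h1
  obtain ⟨δ, hδ, hball⟩ := Metric.mem_nhds_iff.1 ht
  refine ⟨δ, hδ, fun r hr g hg => ?_⟩
  obtain ⟨hg1, ⟨hg2, hg3⟩, hg4⟩ := hg
  refine htU (hball ?_) hg1
  rw [Metric.mem_ball, Prod.dist_eq, Prod.dist_eq, Real.dist_eq, Real.dist_eq, Real.dist_eq,
    sub_zero, sub_zero, sub_zero]
  change |cX g| < r at hg2
  change |cY g| < r at hg3
  exact max_lt (hg2.trans_le hr) (max_lt (hg3.trans_le hr) (hg4.trans_le hr))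

/-- near a compact subset of an open set all boxes are inside -/
lemma box_subset {K O : Set G} (hK : IsCompact K) (hO : IsOpen O) (hKO : K ⊆ O) :
    ∃ δ : ℝ, 0 < δ ∧ ∀ r : ℝ, r ≤ δ → ∀ w ∈ K, {v : G | w⁻¹ * v ∈ Bx r r} ⊆ O := by
  obtain ⟨U, hU, hKU⟩ := compact_open_separated_mul_right hK hO hKO
  obtain ⟨δ, hδ, hbx⟩ := bx_small hU
  refine ⟨δ, hδ, fun r hr w hw v hv => hKU ?_⟩
  have h1 : w * (w⁻¹ * v) ∈ K * U := mul_mem_mul hw (hbx r hr hv)
  rwa [mul_inv_cancel_left] at h1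

end ZboxM

open ZboxM in
/-- the density theorem for boxes -/
theorem stmtZbox (hZ : StmtZone) : StmtZbox := by
  intro V ρ μ hμ hMod K hK hKV A hA hAK M ε hM hε
  have := hμ.fin
  obtain ⟨K', hK', hKK', hK'V⟩ := exists_compact_between hK hMod.isOpen hKV
  obtain ⟨δ, r₁, hδ, hr₁, hZ'⟩ := hZ V ρ μ hμ hMod K' hK' hK'V M (ε / 2) hM (by positivity)
  have hδ' : ENNReal.ofReal δ ≠ 0 := by
    rw [Ne, ENNReal.ofReal_eq_zero, not_le]
    exact hδ
  have hAfin : μ A ≠ ⊤ :=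
    ((measure_mono hAK).trans_lt (isCompact_base hK).measure_lt_top).ne
  obtain ⟨K₁, hK₁A, hK₁, hμK₁⟩ := hA.exists_isCompact_sdiff_lt hAfin hδ'
  obtain ⟨O, hAO, hO, _, hμO⟩ := hA.exists_isOpen_sdiff_lt hAfin hδ'
  set O' : Set G := O ∩ base ⁻¹' (interior K') with hO'
  have hO'o : IsOpen O' := hO.inter (isOpen_interior.preimage continuous_base)
  have hAO' : A ⊆ O' := fun v hv => ⟨hAO hv, hKK' (hAK hv)⟩
  obtain ⟨δ₂, hδ₂, hbox⟩ := box_subset hK₁ hO'o (hK₁A.trans hAO')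
  have hB : MeasurableSet (O' \ A) := hO'o.measurableSet.diff hA
  have hBK : O' \ A ⊆ base ⁻¹' K' := fun v hv =>
    (interior_subset (s := K') (mem_preimage.1 hv.1.2) : base v ∈ K')
  have hμB : μ (O' \ A) ≤ ENNReal.ofReal δ :=
    (measure_mono (sdiff_subset_sdiff_left inter_subset_left)).trans hμO.le
  have hAK' : A ⊆ base ⁻¹' K' := fun v hv =>
    (interior_subset (s := K') (hKK' (hAK hv)) : base v ∈ K')
  have hC : MeasurableSet (A \ K₁) := hA.diff hK₁.isClosed.measurableSet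
  refine ⟨min r₁ (δ₂ / M), lt_min hr₁ (by positivity), fun r hr hrr => ?_⟩
  have hr1 : r < r₁ := hrr.trans_le (min_le_left _ _)
  have hr2 : M * r ≤ δ₂ := by
    have := (hrr.trans_le (min_le_right _ _)).le
    rw [le_div_iff₀ hM] at this
    linarith
  have h1 := (hZ' (A \ K₁) hC (sdiff_subset.trans hAK') hμK₁.le r hr hr1).1
  have h2 := (hZ' (O' \ A) hB hBK hμB r hr hr1).2
  have hsplit : ∫⁻ w in A, μ ({v | w⁻¹ * v ∈ Bx (M * r) (M * r)} \ A) ∂μ =
      ∫⁻ w in A ∩ K₁, μ ({v | w⁻¹ * v ∈ Bx (M * r) (M * r)} \ A) ∂μ +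
        ∫⁻ w in A \ K₁, μ ({v | w⁻¹ * v ∈ Bx (M * r) (M * r)} \ A) ∂μ :=
    (lintegral_inter_add_sdiff _ _ hK₁.isClosed.measurableSet).symm
  have h3 : ∫⁻ w in A \ K₁, μ ({v | w⁻¹ * v ∈ Bx (M * r) (M * r)} \ A) ∂μ ≤
      ENNReal.ofReal (ε / 2 * r ^ 2) :=
    (lintegral_mono fun w => measure_mono sdiff_subset).trans h1
  have h4 : ∫⁻ w in A ∩ K₁, μ ({v | w⁻¹ * v ∈ Bx (M * r) (M * r)} \ A) ∂μ ≤
      ENNReal.ofReal (ε / 2 * r ^ 2) := by
    refine le_trans ?_ h2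
    refine le_trans (setLIntegral_mono' (hA.inter hK₁.isClosed.measurableSet) fun w hw => ?_)
      (lintegral_mono_set (inter_subset_left.trans hAK'))
    refine measure_mono fun v hv => ?_
    exact ⟨⟨hbox (M * r) hr2 w hw.2 hv.1, hv.2⟩, hv.1⟩
  rw [hsplit]
  refine (add_le_add h4 h3).trans (le_of_eq ?_)
  rw [← ENNReal.ofReal_add (by positivity) (by positivity)]
  congr 1
  ring

end

end Pool.Agent.A54.Dyn
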