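import Pool.Agent.Lib.MP_a54f13_nt.Dyn.Spec

/-!
No atoms over sets `V` on which the quotient map is injective: assembly.
-/

set_option autoImplicit false

namespace Pool.Agent.A54.Dyn

open MeasureTheory Filter Topology Set
open scoped ComplexConjugate UpperHalfPlane MatrixGroups ENNReal

namespace ZeroM

noncomputable section

lemma cheb {μ : Measure G} {s t : Set G} {f : G → ℝ≥0∞} {c d : ℝ} (hc : 0 < c)
    (hst : s ⊆ t) (hs : MeasurableSet s) (hf : ∀ v ∈ s, ENNReal.ofReal c ≤ f v)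
    (hint : ∫⁻ v in t, f v ∂μ ≤ ENNReal.ofReal (c * d)) : μ s ≤ ENNReal.ofReal d := by
  have h1 : ENNReal.ofReal c * μ s ≤ ENNReal.ofReal c * ENNReal.ofReal d := by
    rw [← ENNReal.ofReal_mul hc.le]
    refine le_trans ?_ hint
    rw [← setLIntegral_const]
    exact (setLIntegral_mono' hs hf).trans (lintegral_mono_set hst)
  have h0 : ENNReal.ofReal c ≠ 0 := (ENNReal.ofReal_pos.2 hc).ne'
  exact (ENNReal.mul_le_mul_iff_right h0 ENNReal.ofReal_ne_top).1 h1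

lemma scale_ge {r x : ℝ} (hr : 0 < r) {T : ℝ≥0∞} (h : ENNReal.ofReal (r * x) ≤ T) :
    ENNReal.ofReal x ≤ ENNReal.ofReal r⁻¹ * T := by
  calc ENNReal.ofReal x = ENNReal.ofReal (r⁻¹ * (r * x)) := by
        rw [← mul_assoc, inv_mul_cancel₀ hr.ne', one_mul]
    _ = ENNReal.ofReal r⁻¹ * ENNReal.ofReal (r * x) := ENNReal.ofReal_mul (inv_pos.2 hr).le
    _ ≤ _ := mul_le_mul_right h _

lemma scale_le {r x : ℝ} (hr : 0 < r) {T : ℝ≥0∞} (h : T ≤ ENNReal.ofReal (r * x)) :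
    ENNReal.ofReal r⁻¹ * T ≤ ENNReal.ofReal x := by
  calc ENNReal.ofReal r⁻¹ * T ≤ ENNReal.ofReal r⁻¹ * ENNReal.ofReal (r * x) := mul_le_mul_right h _
    _ = ENNReal.ofReal (r⁻¹ * (r * x)) := (ENNReal.ofReal_mul (inv_pos.2 hr).le).symm
    _ = _ := by rw [← mul_assoc, inv_mul_cancel₀ hr.ne', one_mul]

/-- rescaling -/
def sc (r : ℝ) (p : ℝ × ℝ) : ℝ × ℝ := (p.1 / r, p.2 / r)

lemma measurable_sc (r : ℝ) : Measurable (sc r) :=
  (measurable_fst.div_const r).prodMk (measurable_snd.div_const r)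

lemma measurableSet_Sq2 (L : ℝ) : MeasurableSet (Sq2 L) :=
  (measurableSet_lt measurable_fst.abs measurable_const).inter
    (measurableSet_lt measurable_snd.abs measurable_const)

lemma measurableSet_Sc (L : ℝ) : MeasurableSet (Sc L) :=
  (measurableSet_le measurable_fst.abs measurable_const).inter
    (measurableSet_le measurable_snd.abs measurable_const)

lemma measurableSet_strip (a b : ℝ) :
    MeasurableSet {p : ℝ × ℝ | a ≤ p.1 + p.2 ∧ p.1 + p.2 < b} :=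
  (measurableSet_le measurable_const (measurable_fst.add measurable_snd)).inter
    (measurableSet_lt (measurable_fst.add measurable_snd) measurable_const)

lemma measurableSet_rect (a b c d : ℝ) :
    MeasurableSet {p : ℝ × ℝ | |p.1 - a| < b ∧ |p.2 - c| < d} :=
  (measurableSet_lt (measurable_fst.sub_const a).abs measurable_const).inter
    (measurableSet_lt (measurable_snd.sub_const c).abs measurable_const)

lemma measurableSet_cell (N : ℕ) (k l : ℤ) : MeasurableSet (cell N k l) :=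
  (measurableSet_le measurable_const measurable_fst).inter
    ((measurableSet_lt measurable_fst measurable_const).inter
      ((measurableSet_le measurable_const measurable_snd).inter
        (measurableSet_lt measurable_snd measurable_const)))

lemma measurableSet_Cone (Λ : ℝ) : MeasurableSet (Cone Λ) :=
  (measurableSet_lt (measurable_fst.mul measurable_snd) measurable_const).inter
    ((measurableSet_le measurable_fst.abs (measurable_const.mul measurable_snd.abs)).inter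
      (measurableSet_le measurable_snd.abs (measurable_const.mul measurable_fst.abs)))

lemma sc_Sq2 {r : ℝ} (hr : 0 < r) (L : ℝ) : sc r ⁻¹' Sq2 L = Sq2 (L * r) := by
  ext p
  simp only [sc, mem_preimage, Sq2, mem_ofPred_eq, abs_div, abs_of_pos hr, div_lt_iff₀ hr]

lemma sc_strip {r : ℝ} (hr : 0 < r) (a b L : ℝ) :
    sc r ⁻¹' ({p : ℝ × ℝ | a ≤ p.1 + p.2 ∧ p.1 + p.2 < b} ∩ Sq2 L) =
      {p : ℝ × ℝ | r * a ≤ p.1 + p.2 ∧ p.1 + p.2 < r * b} ∩ Sq2 (L * r) := by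
  rw [preimage_inter, sc_Sq2 hr]
  congr 1
  ext p
  simp only [sc, mem_preimage, mem_ofPred_eq, ← add_div, div_lt_iff₀ hr, le_div_iff₀ hr,
    mul_comm r]

lemma sc_rect {r : ℝ} (hr : 0 < r) (a b c d : ℝ) :
    sc r ⁻¹' {p : ℝ × ℝ | |p.1 - a| < b ∧ |p.2 - c| < d} =
      {p : ℝ × ℝ | |p.1 - r * a| < b * r ∧ |p.2 - r * c| < d * r} := by
  have h : ∀ x a : ℝ, |x / r - a| = |x - r * a| / r := by
    intro x a
    rw [← abs_of_pos hr, ← abs_div, abs_of_pos hr]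
    congr 1
    field_simp
  ext p
  simp only [sc, mem_preimage, mem_ofPred_eq, h, div_lt_iff₀ hr]

instance : Countable SL(2, ℤ) :=
  have : Countable (Matrix (Fin 2) (Fin 2) ℤ) := inferInstanceAs (Countable (Fin 2 → Fin 2 → ℤ))
  inferInstanceAs (Countable {A : Matrix (Fin 2) (Fin 2) ℤ // A.det = 1})

lemma measurable_move (γ : SL(2, ℤ)) (t : ℝ) : Measurable (fun v : G => io γ * v * fl t) :=
  ((continuous_const.mul continuous_id).mul continuous_const).measurable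

/-- return sets are measurable -/
lemma measurableSet_ret (j₀ J : ℕ) (T : ℝ) (D : ℕ → Set G) (hD : ∀ j, MeasurableSet (D j)) :
    MeasurableSet {v : G | ∃ j, j₀ ≤ j ∧ j ≤ J ∧ ∃ γ : SL(2, ℤ), io γ * v * fl (j * T) ∈ D j} := by
  have : {v : G | ∃ j, j₀ ≤ j ∧ j ≤ J ∧ ∃ γ : SL(2, ℤ), io γ * v * fl (j * T) ∈ D j} =
      ⋃ j : ℕ, ⋃ _ : j₀ ≤ j, ⋃ _ : j ≤ J, ⋃ γ : SL(2, ℤ),
        (fun v : G => io γ * v * fl (j * T)) ⁻¹' D j := by
    ext v
    simp only [mem_ofPred_eq, mem_iUnion, mem_preimage, exists_prop]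
  rw [this]
  exact MeasurableSet.iUnion fun j => MeasurableSet.iUnion fun _ => MeasurableSet.iUnion fun _ =>
    MeasurableSet.iUnion fun γ => measurable_move γ _ (hD j)

/-- the main step -/
lemma core (hF : StmtF1) (hE : StmtE) (hT : StmtTau) (hS : StmtSel) (hR : StmtRec)
    (hC : StmtComb) (h4 : StmtTc4) (h5 : StmtTc5) (h3 : StmtN3)
    (V : Set ℍ) (ρ : ℤ → ℍ → ℂ) (μ : Measure G) (hI : Inv μ) (hM : Mod V ρ μ)
    (hinj : ∀ (γ : SL(2, ℤ)) (z : ℍ), z ∈ V → γ • z ∈ V → γ = 1 ∨ γ = -1)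
    (ham : Measurable (aa ρ))
    (K : Set ℍ) (hK : IsCompact K) (hKV : K ⊆ V) (a₁ a₂ : ℝ) (ha₁ : 0 < a₁) (ha₂ : a₁ ≤ a₂)
    (A : Set G) (hA : A = {v | v ∈ base ⁻¹' K ∧ a₁ ≤ aa ρ v ∧ aa ρ v ≤ a₂})
    (hpos : 0 < μ A) : False := by
  have := hI.fin
  have hτ := hT μ hI
  have hAm : MeasurableSet A := by
    rw [hA]
    exact (measurable_base hK.isClosed.measurableSet).inter
      ((measurableSet_le measurable_const ham).inter (measurableSet_le ham measurable_const))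
  have hAK : A ⊆ base ⁻¹' K := by
    rw [hA]
    exact fun v hv => hv.1
  have hAa : ∀ v ∈ A, a₁ ≤ aa ρ v ∧ aa ρ v ≤ a₂ := by
    rw [hA]
    exact fun v hv => hv.2
  have hAV : A ⊆ base ⁻¹' V := fun v hv => hKV (hAK hv)
  have hAfin : μ A < ⊤ := (measure_mono hAK).trans_lt (isCompact_base hK).measure_lt_top
  obtain ⟨LF, hLF1, hF⟩ := hF V ρ μ hI hM K hK hKV
  obtain ⟨LS, hLS1, hS⟩ := hS V ρ μ hI hM K hK hKV A a₁ a₂ hAm hAK hpos ha₁ hAa
  obtain ⟨-, Λ', hΛ', hE⟩ := hE V ρ μ hI hM K hK hKV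
  set L : ℝ := max LS (LF * 3) with hL
  have hLS : LS ≤ L := le_max_left _ _
  have hLF : LF * 3 ≤ L := le_max_right _ _
  have hL1 : 1 ≤ L := hLS1.trans hLS
  have hL0 : 0 < L := by linarith
  have ha₂0 : 0 < a₂ := by linarith
  set Λ : ℝ := (1 + Λ') / 2 with hΛ
  have hC₀ : 0 < 16 * L * a₂ + 1 := by positivity
  obtain ⟨κ₆, hκ₆, hC⟩ := hC a₁ a₂ L Λ (16 * L * a₂ + 1) ha₁ ha₂ hL1 (by rw [hΛ]; linarith) hC₀
  obtain ⟨δ, hδ, hS⟩ := hS L hLS κ₆ hκ₆
  obtain ⟨S, hS0, hC⟩ := hC a₁ ha₁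
  obtain ⟨j₀, hj₀⟩ := exists_nat_ge (1 / S)
  have hexp : ∀ j : ℕ, j₀ ≤ j → Real.exp (-(j : ℝ)) ^ 2 ≤ S := by
    intro j hj
    have h1 : (1 : ℝ) / S ≤ j := hj₀.trans (by exact_mod_cast hj)
    have h2 : (j : ℝ) + 1 ≤ Real.exp j := Real.add_one_le_exp _
    have h3 : Real.exp (-(j : ℝ)) ≤ 1 := by
      rw [Real.exp_le_one_iff]
      simp
    have h4 : Real.exp (-(j : ℝ)) ≤ S := by
      rw [Real.exp_neg, inv_le_comm₀ (Real.exp_pos _) hS0, ← one_div]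
      linarith
    have h5 := (Real.exp_pos (-(j : ℝ))).le
    calc Real.exp (-(j : ℝ)) ^ 2 = Real.exp (-(j : ℝ)) * Real.exp (-(j : ℝ)) := by ring
      _ ≤ Real.exp (-(j : ℝ)) * 1 := mul_le_mul_of_nonneg_left h3 h5
      _ ≤ S := by rw [mul_one]; exact h4
  have hδ2 : 0 < δ / 2 := by linarith
  obtain ⟨J₁, hJ₁, δ₁, hδ₁, hR₁⟩ := hR μ hI V hM.isOpen hinj A hAm hAV hAfin 1 j₀ (δ / 2) hδ2
  obtain ⟨J₂, hJ₂, δ₂, hδ₂, hR₂⟩ := hR μ hI V hM.isOpen hinj A hAm hAV hAfin (-1) j₀ (δ / 2) hδ2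
  set J : ℕ := max J₁ J₂ with hJ
  set s₀ : ℝ := Real.exp (-(J : ℝ)) ^ 2 with hs₀
  have hs₀pos : 0 < s₀ := by positivity
  have hs₀S : s₀ ≤ S := hexp J (hJ₁.trans (le_max_left _ _))
  have hs₀j : ∀ j : ℕ, j ≤ J → s₀ ≤ Real.exp (-(j : ℝ)) ^ 2 := by
    intro j hj
    have h1 : (j : ℝ) ≤ J := by exact_mod_cast hj
    refine pow_le_pow_left₀ (Real.exp_pos _).le ?_ 2
    exact Real.exp_le_exp.2 (by linarith)
  obtain ⟨N, κ, hN, hκ, hC⟩ := hC s₀ hs₀pos hs₀S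
  -- the sets
  set Dr : ℝ → Set G := fun x => {v | v ∈ A ∧ ENNReal.ofReal (a₁ * x) ≤ tau μ v (Sq2 (L * x))}
    with hDr
  have hDm : ∀ x, MeasurableSet (Dr x) := fun x =>
    hAm.inter (measurableSet_le measurable_const
      ((Measure.measurable_coe (measurableSet_Sq2 _)).comp hτ.meas))
  set 𝒜 : ℝ → Set G := fun r => A ∩
    ({v : G | ∃ j, j₀ ≤ j ∧ j ≤ J₁ ∧ ∃ γ : SL(2, ℤ), io γ * v * fl (j * 1) ∈
      Dr (r * Real.exp (-(j : ℝ)))} ∩
    {v : G | ∃ j, j₀ ≤ j ∧ j ≤ J₂ ∧ ∃ γ : SL(2, ℤ), io γ * v * fl (j * (-1)) ∈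
      Dr (r * Real.exp (-(j : ℝ)))}) with h𝒜
  have h𝒜m : ∀ r, MeasurableSet (𝒜 r) ∧ 𝒜 r ⊆ A := fun r =>
    ⟨hAm.inter ((measurableSet_ret j₀ J₁ 1 (fun j => Dr (r * Real.exp (-(j : ℝ))))
      fun j => hDm _).inter
      (measurableSet_ret j₀ J₂ (-1) (fun j => Dr (r * Real.exp (-(j : ℝ)))) fun j => hDm _)),
      inter_subset_left⟩
  have hchebD : ∀ d : ℝ, 0 < d → ∃ r₁ : ℝ, 0 < r₁ ∧ ∀ x : ℝ, 0 < x → x < r₁ →
      μ (A \ Dr x) ≤ ENNReal.ofReal d := by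
    intro d hd
    obtain ⟨r₁, hr₁, hF⟩ := hF (-1) 1 L (by norm_num)
      (by rw [abs_neg, abs_one]; linarith) (a₁ * d) (by positivity)
    refine ⟨r₁, hr₁, fun x hx hxr => ?_⟩
    have hFx := hF x hx hxr
    have hax : 0 < a₁ * x := by positivity
    refine cheb hax (sdiff_subset.trans hAK) (hAm.diff (hDm x)) ?_
      (hFx.trans (le_of_eq (by congr 1; ring)))
    intro v hv
    have h1 : ¬ ENNReal.ofReal (a₁ * x) ≤ tau μ v (Sq2 (L * x)) := fun h => hv.2 ⟨hv.1, h⟩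
    rw [not_le] at h1
    have h2 : tau μ v ({p | x * -1 ≤ p.1 + p.2 ∧ p.1 + p.2 < x * 1} ∩ Sq2 (L * x)) ≤
        ENNReal.ofReal (a₁ * x) := (measure_mono inter_subset_right).trans h1.le
    have h3 : (tau μ v ({p | x * -1 ≤ p.1 + p.2 ∧ p.1 + p.2 < x * 1} ∩
        Sq2 (L * x))).toReal ≤ a₁ * x := by
      have := ENNReal.toReal_mono ENNReal.ofReal_ne_top h2
      rwa [ENNReal.toReal_ofReal hax.le] at this
    have h4 := (hAa v hv.1).1
    have h5 : a₁ * x ≤ aa ρ v * x := mul_le_mul_of_nonneg_right h4 hx.le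
    rw [← ofReal_norm]
    refine ENNReal.ofReal_le_ofReal ?_
    rw [Real.norm_eq_abs, abs_sub_comm]
    refine le_trans ?_ (le_abs_self _)
    have h6 : aa ρ v * (x * (1 - -1)) = 2 * (aa ρ v * x) := by ring
    rw [h6]
    linarith
  have h𝒜s : ∃ r₂ : ℝ, 0 < r₂ ∧ ∀ r : ℝ, 0 < r → r < r₂ → μ (A \ 𝒜 r) ≤ ENNReal.ofReal δ := by
    obtain ⟨r₁, hr₁, hc₁⟩ := hchebD δ₁ hδ₁
    obtain ⟨r₂, hr₂, hc₂⟩ := hchebD δ₂ hδ₂
    refine ⟨min r₁ r₂, lt_min hr₁ hr₂, fun r hr hrr => ?_⟩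
    have hlt : ∀ j : ℕ, 0 < r * Real.exp (-(j : ℝ)) ∧ r * Real.exp (-(j : ℝ)) ≤ r := by
      intro j
      refine ⟨by positivity, ?_⟩
      have : Real.exp (-(j : ℝ)) ≤ 1 := by
        rw [Real.exp_le_one_iff]
        simp
      calc r * Real.exp (-(j : ℝ)) ≤ r * 1 := mul_le_mul_of_nonneg_left this hr.le
        _ = r := mul_one r
    have e1 := hR₁ (fun j => Dr (r * Real.exp (-(j : ℝ)))) fun j _ _ =>
      ⟨hDm _, fun v hv => hv.1,
        hc₁ _ (hlt j).1 ((hlt j).2.trans_lt (hrr.trans_le (min_le_left _ _)))⟩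
    have e2 := hR₂ (fun j => Dr (r * Real.exp (-(j : ℝ)))) fun j _ _ =>
      ⟨hDm _, fun v hv => hv.1,
        hc₂ _ (hlt j).1 ((hlt j).2.trans_lt (hrr.trans_le (min_le_right _ _)))⟩
    have hsub : A \ 𝒜 r ⊆
        {v | v ∈ A ∧ ¬ ∃ j, j₀ ≤ j ∧ j ≤ J₁ ∧ ∃ γ : SL(2, ℤ), io γ * v * fl (j * 1) ∈
          Dr (r * Real.exp (-(j : ℝ)))} ∪
        {v | v ∈ A ∧ ¬ ∃ j, j₀ ≤ j ∧ j ≤ J₂ ∧ ∃ γ : SL(2, ℤ), io γ * v * fl (j * (-1)) ∈
          Dr (r * Real.exp (-(j : ℝ)))} := by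
      intro v hv
      by_contra hcon
      rw [mem_union, not_or] at hcon
      apply hv.2
      refine ⟨hv.1, ?_, ?_⟩
      · by_contra h
        exact hcon.1 ⟨hv.1, h⟩
      · by_contra h
        exact hcon.2 ⟨hv.1, h⟩
    calc μ (A \ 𝒜 r) ≤ _ := measure_mono hsub
      _ ≤ _ := measure_union_le _ _
      _ ≤ ENNReal.ofReal (δ / 2) + ENNReal.ofReal (δ / 2) := add_le_add e1 e2
      _ = ENNReal.ofReal δ := by
        rw [← ENNReal.ofReal_add hδ2.le hδ2.le]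
        congr 1
        ring
  set ℬ : ℝ → Set G := fun r =>
    {v | v ∈ A ∧ ENNReal.ofReal (κ * r) ≤ tau μ v (Cone Λ' ∩ Sc (8 * L * r))} with hℬ
  have hℬm : ∀ r, MeasurableSet (ℬ r) ∧ ℬ r ⊆ A := fun r =>
    ⟨hAm.inter (measurableSet_le measurable_const
      ((Measure.measurable_coe ((measurableSet_Cone _).inter (measurableSet_Sc _))).comp hτ.meas)),
      fun v hv => hv.1⟩
  have hℬt : Tendsto (fun r => μ (ℬ r)) (𝓝[>] 0) (𝓝 0) := by
    rw [ENNReal.tendsto_nhds_zero]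
    intro ε hε
    obtain ⟨d, hd, hdε⟩ : ∃ d : ℝ, 0 < d ∧ ENNReal.ofReal d ≤ ε := by
      rcases eq_or_ne ε ⊤ with h | h
      · exact ⟨1, one_pos, by rw [h]; exact le_top⟩
      · exact ⟨ε.toReal, ENNReal.toReal_pos hε.ne' h, by rw [ENNReal.ofReal_toReal h]⟩
    obtain ⟨r₁, hr₁, hE⟩ := hE (κ * d / (8 * L)) (by positivity)
    have hr₁' : 0 < r₁ / (8 * L) := by positivity
    filter_upwards [Ioo_mem_nhdsGT hr₁'] with r hr
    refine le_trans ?_ hdε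
    have hr0 : 0 < r := hr.1
    have h8 : 8 * L * r < r₁ := by
      have := (lt_div_iff₀ (by positivity : (0 : ℝ) < 8 * L)).1 hr.2
      linarith
    have hEr := hE (8 * L * r) (by positivity) h8
    refine cheb (c := κ * r) (by positivity) ((hℬm r).2.trans hAK) (hℬm r).1
      (fun v hv => hv.2) (hEr.trans (le_of_eq ?_))
    congr 1
    field_simp
  obtain ⟨r₁, hr₁, hS⟩ := hS 𝒜 h𝒜m h𝒜s ℬ hℬm hℬt N κ hN hκ
  obtain ⟨r₂, hr₂, h4⟩ := h4 μ hI Λ Λ' L κ N (by rw [hΛ]; linarith) (by rw [hΛ]; linarith) hL1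
    hκ hN
  obtain ⟨r₃, hr₃, h5⟩ := h5 μ hI L J hL1
  -- the scale
  obtain ⟨r, hr, hrr₁, hrr₂, hrr₃, hrL⟩ : ∃ r : ℝ, 0 < r ∧ r < r₁ ∧ r < r₂ ∧ r < r₃ ∧
      L * r ≤ 1 / 2 := by
    refine ⟨min (min (r₁ / 2) (r₂ / 2)) (min (r₃ / 2) (1 / (2 * L))), by positivity, ?_, ?_, ?_,
      ?_⟩
    · exact ((min_le_left _ _).trans (min_le_left _ _)).trans_lt (by linarith)
    · exact ((min_le_left _ _).trans (min_le_right _ _)).trans_lt (by linarith)
    · exact ((min_le_right _ _).trans (min_le_left _ _)).trans_lt (by linarith)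
    · have h := (min_le_right (min (r₁ / 2) (r₂ / 2)) (min (r₃ / 2) (1 / (2 * L)))).trans
        (min_le_right _ _)
      calc L * min (min (r₁ / 2) (r₂ / 2)) (min (r₃ / 2) (1 / (2 * L))) ≤ L * (1 / (2 * L)) :=
            mul_le_mul_of_nonneg_left h hL0.le
        _ = 1 / 2 := by field_simp
  obtain ⟨w, hwA, w1, w2, w3, w4, w5⟩ := hS r hr hrr₁
  have h4r := h4 r hr hrr₂ w A w4 w5
  obtain ⟨𝒩, h𝒩m, h𝒩s, h𝒩τ, h𝒩⟩ := h3 μ hI w L r (𝒜 r) hr hL0 hrL (h𝒜m r).1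
  have h𝒩2 : tau μ w 𝒩 ≤ ENNReal.ofReal (r * κ₆) := by
    have e1 : μ ({v | w⁻¹ * v ∈ Bx (L * r) r} \ 𝒜 r) ≤ ENNReal.ofReal (κ₆ * r ^ 2) := by
      refine (measure_mono ?_).trans w3
      refine sdiff_subset_sdiff_left ?_
      intro v hv
      obtain ⟨h1, h2, h3⟩ := hv
      refine ⟨h1, ⟨h2.1.trans_le ?_, h2.2.trans_le ?_⟩, h3⟩
      · have : 0 < L * r := by positivity
        linarith
      · have : 0 < L * r := by positivity
        linarith
    have e2 := h𝒩τ.trans e1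
    have e3 : ENNReal.ofReal (κ₆ * r ^ 2) ≤ ENNReal.ofReal (2 * r) * ENNReal.ofReal (r * κ₆) := by
      rw [← ENNReal.ofReal_mul (by positivity)]
      refine ENNReal.ofReal_le_ofReal ?_
      nlinarith [mul_pos hκ₆ (mul_pos hr hr)]
    exact (ENNReal.mul_le_mul_iff_right (ENNReal.ofReal_pos.2 (by positivity)).ne'
      ENNReal.ofReal_ne_top).1 (e2.trans e3)
  -- the measure in the plane
  set τ : Measure (ℝ × ℝ) := (ENNReal.ofReal r⁻¹ • tau μ w).map (sc r) with hτdef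
  have hτa : ∀ B : Set (ℝ × ℝ), MeasurableSet B →
      τ B = ENNReal.ofReal r⁻¹ * tau μ w (sc r ⁻¹' B) := by
    intro B hB
    rw [hτdef, Measure.map_apply (measurable_sc r) hB, Measure.smul_apply, smul_eq_mul]
  have hwa := hAa w hwA
  refine hC τ (aa ρ w) ((fun p : ℝ × ℝ => (r * p.1, r * p.2)) ⁻¹' 𝒩) hwa.1 hwa.2 ?_ ?_ ?_ ?_ ?_ ?_
  · exact ((measurable_const.mul measurable_fst).prodMk
      (measurable_const.mul measurable_snd)) h𝒩m
  · intro k hk1 hk2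
    rw [hτa _ ((measurableSet_strip _ _).inter (measurableSet_Sq2 _)), sc_strip hr]
    exact scale_ge hr (w1 k hk1 hk2)
  · rw [hτa _ (measurableSet_Sq2 _), sc_Sq2 hr]
    refine scale_le hr (w2.trans (le_of_eq ?_))
    congr 1
    ring
  · have hm : MeasurableSet ((fun p : ℝ × ℝ => (r * p.1, r * p.2)) ⁻¹' 𝒩) :=
      ((measurable_const.mul measurable_fst).prodMk
        (measurable_const.mul measurable_snd)) h𝒩m
    rw [hτa _ hm]
    have : sc r ⁻¹' ((fun p : ℝ × ℝ => (r * p.1, r * p.2)) ⁻¹' 𝒩) = 𝒩 := by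
      ext p
      simp only [sc, mem_preimage, mul_div_cancel₀ _ hr.ne']
    rw [this]
    exact scale_le hr h𝒩2
  · intro k l k' l' hk hk' hcone
    rw [hτa _ (measurableSet_cell _ _ _), hτa _ (measurableSet_cell _ _ _)]
    rcases h4r k l k' l' hk hk' hcone with h | h
    · left
      exact scale_le hr (h.trans (le_of_eq (by congr 1; ring)))
    · right
      exact scale_le hr (h.trans (le_of_eq (by congr 1; ring)))
  · intro p hp
    have hq : ((r * p.1, r * p.2) : ℝ × ℝ) ∈ Sq2 (L * r) \ 𝒩 := by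
      refine ⟨?_, hp.2⟩
      have h1 := hp.1
      simp only [Sq2, mem_ofPred_eq] at h1 ⊢
      rw [abs_mul, abs_mul, abs_of_pos hr, mul_comm r, mul_comm r]
      exact ⟨mul_lt_mul_of_pos_right h1.1 hr, mul_lt_mul_of_pos_right h1.2 hr⟩
    obtain ⟨v, hv, hdom, hcP, hcU⟩ := h𝒩 _ hq
    have hcPm : cP (w⁻¹ * v) ∈ Sq2 (L * r) := by
      rw [hcP]
      exact hq.1
    have hcX : cX (w⁻¹ * v) = r * p.1 := congrArg Prod.fst hcP
    have hcY : cY (w⁻¹ * v) = r * p.2 := congrArg Prod.snd hcP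
    obtain ⟨-, hv1, hv2⟩ := hv
    constructor
    · obtain ⟨j, hj1, hj2, γ, hjγ⟩ := hv1
      have hjJ : j ≤ J := hj2.trans (le_max_left _ _)
      refine ⟨Real.exp (-(j : ℝ)) ^ 2, hs₀j j hjJ, hexp j hj1, ?_⟩
      have e := (h5 r hr hrr₃ w v γ j hjJ hdom hcPm hcU).1
      rw [Real.sqrt_sq (Real.exp_pos _).le, hτa _ (measurableSet_rect _ _ _ _), sc_rect hr]
      refine scale_ge hr ?_
      rw [hcX, hcY] at e
      refine le_trans (le_of_eq ?_) (hjγ.2.trans (e.trans (measure_mono ?_)))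
      · congr 1
        ring
      · intro q hq
        exact hq
    · obtain ⟨j, hj1, hj2, γ, hjγ⟩ := hv2
      have hjJ : j ≤ J := hj2.trans (le_max_right _ _)
      refine ⟨Real.exp (-(j : ℝ)) ^ 2, hs₀j j hjJ, hexp j hj1, ?_⟩
      have e := (h5 r hr hrr₃ w v γ j hjJ hdom hcPm hcU).2
      rw [Real.sqrt_sq (Real.exp_pos _).le, hτa _ (measurableSet_rect _ _ _ _), sc_rect hr]
      refine scale_ge hr ?_
      rw [hcX, hcY] at e
      refine le_trans (le_of_eq ?_) (hjγ.2.trans (e.trans (measure_mono ?_)))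
      · congr 1
        ring
      · intro q hq
        exact hq

end

end ZeroM

theorem stmtZero (hH : StmtHH) (hF : StmtF1) (hE : StmtE) (hT : StmtTau) (hS : StmtSel)
    (hR : StmtRec) (hC : StmtComb) (h4 : StmtTc4) (h5 : StmtTc5) (h3 : StmtN3) : StmtZero := by
  intro V ρ μ hI hM hinj
  obtain ⟨-, ham, -, hae, -⟩ := hH V ρ μ hI hM
  have : LocallyCompactSpace V := hM.isOpen.locallyCompactSpace
  have : SigmaCompactSpace V := inferInstance
  set Kn : ℕ → Set ℍ := fun n => Subtype.val '' (compactCovering V n) with hKn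
  have hKc : ∀ n, IsCompact (Kn n) := fun n =>
    (isCompact_compactCovering V n).image continuous_subtype_val
  have hKV : ∀ n, Kn n ⊆ V := by
    intro n z hz
    obtain ⟨y, _, rfl⟩ := hz
    exact y.2
  have hKu : ∀ z ∈ V, ∃ n, z ∈ Kn n := by
    intro z hz
    have : (⟨z, hz⟩ : V) ∈ ⋃ n, compactCovering V n := by
      rw [iUnion_compactCovering]
      exact mem_univ _
    obtain ⟨n, hn⟩ := mem_iUnion.1 this
    exact ⟨n, ⟨z, hz⟩, hn, rfl⟩
  have hnull : ∀ n m : ℕ, μ {v | v ∈ base ⁻¹' (Kn n) ∧ 1 / ((m : ℝ) + 1) ≤ aa ρ v ∧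
      aa ρ v ≤ (m : ℝ) + 1} = 0 := by
    intro n m
    by_contra hne
    have hm1 : (1 : ℝ) ≤ (m : ℝ) + 1 := by
      have : (0 : ℝ) ≤ m := Nat.cast_nonneg m
      linarith
    refine ZeroM.core hF hE hT hS hR hC h4 h5 h3 V ρ μ hI hM hinj ham (Kn n) (hKc n) (hKV n)
      (1 / ((m : ℝ) + 1)) ((m : ℝ) + 1) (by positivity) ?_ _ rfl (pos_iff_ne_zero.2 hne)
    exact ((div_le_one (by linarith)).2 hm1).trans hm1
  have hall : ∀ᵐ v ∂(μ.restrict (base ⁻¹' V)), ∀ n m : ℕ,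
      ¬ (v ∈ base ⁻¹' (Kn n) ∧ 1 / ((m : ℝ) + 1) ≤ aa ρ v ∧ aa ρ v ≤ (m : ℝ) + 1) := by
    rw [ae_all_iff]
    intro n
    rw [ae_all_iff]
    intro m
    refine ae_restrict_of_ae ?_
    rw [ae_iff]
    simpa using hnull n m
  have hmem : ∀ᵐ v ∂(μ.restrict (base ⁻¹' V)), v ∈ base ⁻¹' V :=
    ae_restrict_mem (measurable_base hM.isOpen.measurableSet)
  filter_upwards [hall, hae, hmem] with v h1 h2 h3
  by_contra hne
  have hpos : 0 < aa ρ v := lt_of_le_of_ne h2.1 (Ne.symm hne)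
  obtain ⟨n, hn⟩ := hKu _ h3
  obtain ⟨m, hm⟩ := exists_nat_ge (max (1 / aa ρ v) (aa ρ v))
  refine h1 n m ⟨hn, ?_, ?_⟩
  · have := (le_max_left _ _).trans hm
    rw [div_le_iff₀ (by positivity)]
    rw [div_le_iff₀ hpos] at this
    nlinarith
  · have := (le_max_right _ _).trans hm
    linarith

end Pool.Agent.A54.Dyn
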