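import Pool.Agent.Lib.MP_a54f13_nt.Dyn.Spec

/-!
Small sets have small density in most boxes (`StmtZone`).
-/

set_option autoImplicit false

namespace Pool.Agent.A54.Dyn.ZoneM

open MeasureTheory Filter Topology Set
open scoped ComplexConjugate UpperHalfPlane MatrixGroups ENNReal ContDiff

noncomputable section

/-- oscillation of `q` on the ball of radius `R` -/
def EE (q : ℍ → ℂ) (R : ℝ) (z : ℍ) : ℝ≥0∞ :=
  ∫⁻ z' in Metric.closedBall z R, ‖q z' - q z‖ₑ

lemma measurable_EE {q : ℍ → ℂ} (hq : Measurable q) (R : ℝ) : Measurable (EE q R) := by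
  have hS : MeasurableSet {x : ℍ × ℍ | dist x.2 x.1 ≤ R} :=
    (isClosed_le (continuous_snd.dist continuous_fst) continuous_const).measurableSet
  have h1 : Measurable (fun x : ℍ × ℍ => {x : ℍ × ℍ | dist x.2 x.1 ≤ R}.indicator
      (fun x : ℍ × ℍ => ‖q x.2 - q x.1‖ₑ) x) := by
    apply Measurable.indicator _ hS
    exact ((hq.comp measurable_snd).sub (hq.comp measurable_fst)).enorm
  have h2 := h1.lintegral_prod_right' (ν := (volume : Measure ℍ))
  have h3 : EE q R = fun z => ∫⁻ z' : ℍ, {x : ℍ × ℍ | dist x.2 x.1 ≤ R}.indicator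
      (fun x : ℍ × ℍ => ‖q x.2 - q x.1‖ₑ) (z, z') := by
    funext z
    unfold EE
    rw [← lintegral_indicator Metric.isClosed_closedBall.measurableSet]
    rfl
  rw [h3]
  exact h2

/-- integrals over `base ⁻¹' K` -/
lemma push {V : Set ℍ} {ρ : ℤ → ℍ → ℂ} {μ : Measure G} (hx : Ext V ρ μ)
    (hρ : Measurable (ρ 0)) {K : Set ℍ} (hK : MeasurableSet K) (hKV : K ⊆ V)
    {F : ℍ → ℝ≥0∞} (hF : Measurable F) :
    ∫⁻ w in base ⁻¹' K, F (base w) ∂μ = ∫⁻ z in K, ENNReal.ofReal (ρ 0 z).re * F z := by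
  have hd : Measurable (fun z => ENNReal.ofReal (ρ 0 z).re) :=
    (Complex.measurable_re.comp hρ).ennreal_ofReal
  have h1 : (μ.map base).restrict K =
      (volume.restrict K).withDensity (fun z => ENNReal.ofReal (ρ 0 z).re) := by
    ext S hS
    rw [Measure.restrict_apply hS, withDensity_apply _ hS, Measure.restrict_restrict hS,
      Measure.map_apply measurable_base (hS.inter hK)]
    exact hx.proj _ (hS.inter hK) (inter_subset_right.trans hKV)
  rw [← setLIntegral_map hK hF measurable_base, h1, lintegral_withDensity_eq_lintegral_mul _ hd hF]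
  rfl

lemma mass_le {V : Set ℍ} {ρ : ℤ → ℍ → ℂ} {μ : Measure G} (hx : Ext V ρ μ) {CB : ℝ}
    (hCB : ∀ (z : ℍ) (r : ℝ), 0 < r → r ≤ 1 →
      volume (Metric.closedBall z r) ≤ ENNReal.ofReal (CB * r ^ 2))
    {z : ℍ} {R : ℝ} (hR : 0 < R) (hR1 : R ≤ 1) (hV : Metric.closedBall z R ⊆ V) :
    μ (base ⁻¹' Metric.closedBall z R) ≤ EE (ρ 0) R z + ‖ρ 0 z‖ₑ * ENNReal.ofReal (CB * R ^ 2) := by
  rw [hx.proj _ Metric.isClosed_closedBall.measurableSet hV]
  calc ∫⁻ z' in Metric.closedBall z R, ENNReal.ofReal (ρ 0 z').re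
      ≤ ∫⁻ z' in Metric.closedBall z R, (‖ρ 0 z' - ρ 0 z‖ₑ + ‖ρ 0 z‖ₑ) := by
        apply lintegral_mono
        intro z'
        have h1 : ENNReal.ofReal (ρ 0 z').re ≤ ‖ρ 0 z'‖ₑ := by
          rw [← ofReal_norm]
          exact ENNReal.ofReal_le_ofReal ((le_abs_self _).trans (Complex.abs_re_le_norm _))
        refine h1.trans ?_
        calc ‖ρ 0 z'‖ₑ = ‖(ρ 0 z' - ρ 0 z) + ρ 0 z‖ₑ := by rw [sub_add_cancel]
          _ ≤ _ := enorm_add_le _ _
    _ = EE (ρ 0) R z + ‖ρ 0 z‖ₑ * volume (Metric.closedBall z R) := by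
        rw [lintegral_add_right _ measurable_const, setLIntegral_const]
        rfl
    _ ≤ _ := by
        gcongr
        exact hCB z R hR hR1

lemma box_sub {C c : ℝ} (hg : ∀ (g : G) (δ : ℝ), g ∈ dom → |cX g| ≤ δ →
    |cY g| ≤ δ → |cU g| ≤ δ → δ ≤ c →
    |(base g).re - (cX g + cY g)| ≤ C * δ ^ 2 ∧ |Real.log (base g).im - cU g| ≤ C * δ ^ 2 ∧
      ‖ze g - 1‖ ≤ C * δ ∧ dist (base g) UpperHalfPlane.I ≤ C * δ)
    {w v : G} {s : ℝ} (hs : s ≤ c) (hv : w⁻¹ * v ∈ Bx s s) :
    dist (base v) (base w) ≤ C * s := by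
  obtain ⟨h1, ⟨h2, h3⟩, h4⟩ := hv
  have h5 := (hg (w⁻¹ * v) s h1 h2.le h3.le h4.le hs).2.2.2
  have h6 : base v = w • base (w⁻¹ * v) := by rw [← base_mul, mul_inv_cancel_left]
  have h7 : base w = w • UpperHalfPlane.I := rfl
  rw [h6, h7, dist_smul]
  exact h5

lemma isOpen_dom : IsOpen dom := by
  unfold dom
  exact (isOpen_lt continuous_const (continuous_entry 0 0)).inter
    (isOpen_lt continuous_const (continuous_entry 1 1))

lemma measurable_cX : Measurable cX := by
  unfold cX
  exact (continuous_entry 0 1).measurable.div (continuous_entry 1 1).measurable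

lemma measurable_cY : Measurable cY := by
  unfold cY
  exact (continuous_entry 1 0).measurable.div (continuous_entry 0 0).measurable

lemma measurable_cU : Measurable cU := by
  unfold cU
  exact ((continuous_entry 0 0).measurable.div (continuous_entry 1 1).measurable).log

end

end Pool.Agent.A54.Dyn.ZoneM

namespace Pool.Agent.A54.Dyn

open MeasureTheory Filter Topology Set
open scoped ComplexConjugate UpperHalfPlane MatrixGroups ENNReal ContDiff
open ZoneM

theorem stmtZone (hB : StmtBall) (hE : StmtExt) (hA : StmtAvg) (hG : StmtGeo4) : StmtZone := by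
  intro V ρ μ hμ hm K hK hKV M ε hM hε
  obtain ⟨CB, hCB0, hCB⟩ := hB
  obtain ⟨CG, c, hCG0, hc, hgeo⟩ := hG
  have hx := hE V ρ μ hμ hm
  have := hμ.fin
  have hρ := hm.meas 0
  -- the compact neighbourhood of `K` in `V`
  obtain ⟨R₀, hR₀, hR₀V⟩ := hK.exists_cthickening_subset_open hm.isOpen hKV
  -- the density is square integrable
  have hKm : MeasurableSet K := hK.isClosed.measurableSet
  have hfin : ∫⁻ w in base ⁻¹' K, ‖ρ 0 (base w)‖ₑ ∂μ ≠ ⊤ := by
    rw [push hx hρ hKm hKV hρ.enorm]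
    have h2 := (hm.loc 0 K hK hKV).2
    have h3 : ∫⁻ z in K, ENNReal.ofReal (ρ 0 z).re * ‖ρ 0 z‖ₑ ≤ ∫⁻ z in K, ‖ρ 0 z‖ₑ ^ (2 : ℝ) := by
      apply lintegral_mono
      intro z
      have h1 : ENNReal.ofReal (ρ 0 z).re ≤ ‖ρ 0 z‖ₑ := by
        rw [← ofReal_norm]
        exact ENNReal.ofReal_le_ofReal ((le_abs_self _).trans (Complex.abs_re_le_norm _))
      calc ENNReal.ofReal (ρ 0 z).re * ‖ρ 0 z‖ₑ ≤ ‖ρ 0 z‖ₑ * ‖ρ 0 z‖ₑ := by gcongr
        _ = ‖ρ 0 z‖ₑ ^ (2 : ℝ) := by
          rw [show (2 : ℝ) = ((2 : ℕ) : ℝ) by norm_num, ENNReal.rpow_natCast, sq]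
    refine ne_top_of_le_ne_top ?_ h3
    have h4 := lintegral_rpow_enorm_lt_top_of_eLpNorm_lt_top (p := (2 : ℝ≥0∞)) (by norm_num)
      (by norm_num) h2
    simpa using h4.ne
  -- constants
  set C₁ : ℝ := (CG * M) ^ 2 with hC₁
  have hC₁0 : 0 < C₁ := by positivity
  set ε₁ : ℝ := ε / (2 * C₁) with hε₁
  have hε₁0 : 0 < ε₁ := by positivity
  obtain ⟨r₁, hr₁, hav⟩ := hA V hm.isOpen (ρ 0) (ρ 0) hρ hρ
    (fun K' hK' hKV' => ⟨hm.loc 0 K' hK' hKV', hm.loc 0 K' hK' hKV'⟩) K hK hKV ε₁ hε₁0
  set ε₂ : ℝ := ε / (2 * (CB * C₁)) with hε₂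
  have hε₂0 : 0 < ε₂ := by positivity
  obtain ⟨δ, hδ, hδs⟩ := exists_pos_setLIntegral_lt_of_measure_lt hfin
    (ε := ENNReal.ofReal ε₂) (by simpa using hε₂0)
  obtain ⟨δ', hδ'0, hδ'⟩ : ∃ δ' : ℝ, 0 < δ' ∧ ENNReal.ofReal δ' < δ := by
    obtain ⟨q, hq0, hq⟩ := ENNReal.lt_iff_exists_nnreal_btwn.mp hδ
    exact ⟨q, by exact_mod_cast hq0, by simpa using hq⟩
  -- the radius
  refine ⟨δ', min (c / M) (min (R₀ / (CG * M)) (min (1 / (CG * M)) (r₁ / (CG * M)))), hδ'0,
    by positivity, ?_⟩
  intro B hBm hBK hBδ r hr hrr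
  rw [lt_min_iff, lt_min_iff, lt_min_iff] at hrr
  obtain ⟨hrc, hrR₀, hr1, hrr₁⟩ := hrr
  have hCM : 0 < CG * M := by positivity
  rw [lt_div_iff₀ hM] at hrc
  rw [lt_div_iff₀ hCM] at hrR₀ hr1 hrr₁
  set R : ℝ := CG * (M * r) with hRdef
  have hR : 0 < R := by positivity
  have hR2 : R = r * (CG * M) := by rw [hRdef]; ring
  rw [← hR2] at hrR₀ hr1 hrr₁
  have hMr : M * r ≤ c := by linarith [mul_comm M r]
  -- the main estimate
  have key : ∫⁻ w in B, μ (base ⁻¹' Metric.closedBall (base w) R) ∂μ ≤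
      ENNReal.ofReal (ε * r ^ 2) := by
    calc ∫⁻ w in B, μ (base ⁻¹' Metric.closedBall (base w) R) ∂μ
        ≤ ∫⁻ w in B, (EE (ρ 0) R (base w) +
            ‖ρ 0 (base w)‖ₑ * ENNReal.ofReal (CB * R ^ 2)) ∂μ := by
          apply setLIntegral_mono' hBm
          intro w hw
          refine mass_le hx (fun z r h1 h2 => (hCB z r h1 h2).1) hR hr1.le ?_
          refine Subset.trans ?_ hR₀V
          refine Subset.trans (Metric.closedBall_subset_closedBall hrR₀.le) ?_
          exact Metric.closedBall_subset_cthickening (show base w ∈ K from hBK hw) R₀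
      _ = ∫⁻ w in B, EE (ρ 0) R (base w) ∂μ +
            (∫⁻ w in B, ‖ρ 0 (base w)‖ₑ ∂μ) * ENNReal.ofReal (CB * R ^ 2) := by
          have m1 : Measurable (fun w => EE (ρ 0) R (base w)) :=
            (measurable_EE hρ R).comp measurable_base
          have m2 : Measurable (fun w => ‖ρ 0 (base w)‖ₑ) := hρ.enorm.comp measurable_base
          rw [lintegral_add_left m1, lintegral_mul_const _ m2]
      _ ≤ ENNReal.ofReal (ε₁ * R ^ 2) + ENNReal.ofReal ε₂ * ENNReal.ofReal (CB * R ^ 2) := by
          gcongr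
          · calc ∫⁻ w in B, EE (ρ 0) R (base w) ∂μ ≤ ∫⁻ w in base ⁻¹' K, EE (ρ 0) R (base w) ∂μ :=
                  lintegral_mono_set hBK
              _ = ∫⁻ z in K, ENNReal.ofReal (ρ 0 z).re * EE (ρ 0) R z :=
                  push hx hρ hKm hKV (measurable_EE hρ R)
              _ ≤ ∫⁻ z in K, ‖ρ 0 z‖ₑ * EE (ρ 0) R z := by
                  apply lintegral_mono
                  intro z
                  have h1 : ENNReal.ofReal (ρ 0 z).re ≤ ‖ρ 0 z‖ₑ := by
                    rw [← ofReal_norm]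
                    exact ENNReal.ofReal_le_ofReal ((le_abs_self _).trans (Complex.abs_re_le_norm _))
                  exact mul_le_mul_left h1 _
              _ ≤ _ := hav R hR hrr₁
          · calc ∫⁻ w in B, ‖ρ 0 (base w)‖ₑ ∂μ
                = ∫⁻ w in B, ‖ρ 0 (base w)‖ₑ ∂(μ.restrict (base ⁻¹' K)) := by
                  rw [Measure.restrict_restrict hBm, inter_eq_left.mpr hBK]
              _ ≤ ENNReal.ofReal ε₂ := by
                  refine (hδs B ?_).le
                  refine lt_of_le_of_lt (Measure.restrict_apply_le _ _) ?_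
                  exact hBδ.trans_lt hδ'
      _ = ENNReal.ofReal (ε * r ^ 2) := by
          rw [← ENNReal.ofReal_mul hε₂0.le, ← ENNReal.ofReal_add (by positivity) (by positivity)]
          congr 1
          rw [hR2, hε₁, hε₂, hC₁]
          field_simp
          ring
  constructor
  · refine le_trans ?_ key
    apply lintegral_mono
    intro w
    apply measure_mono
    intro v hv
    exact Metric.mem_closedBall.mpr (box_sub hgeo hMr hv)
  · refine le_trans ?_ key
    have hT : MeasurableSet {x : G × G | dist (base x.2) (base x.1) ≤ R} := by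
      apply IsClosed.measurableSet
      exact isClosed_le ((continuous_base.comp continuous_snd).dist
        (continuous_base.comp continuous_fst)) continuous_const
    calc ∫⁻ w in base ⁻¹' K, μ (B ∩ {v | w⁻¹ * v ∈ Bx (M * r) (M * r)}) ∂μ
        ≤ ∫⁻ w, μ (B ∩ {v | w⁻¹ * v ∈ Bx (M * r) (M * r)}) ∂μ := setLIntegral_le_lintegral _ _
      _ ≤ ∫⁻ w, ∫⁻ v in B, {x : G × G | dist (base x.2) (base x.1) ≤ R}.indicator 1 (w, v)
            ∂μ ∂μ := by
          apply lintegral_mono
          intro w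
          calc μ (B ∩ {v | w⁻¹ * v ∈ Bx (M * r) (M * r)})
              ≤ μ ({v | dist (base v) (base w) ≤ R} ∩ B) := by
                apply measure_mono
                intro v hv
                exact ⟨box_sub hgeo hMr hv.2, hv.1⟩
            _ = ∫⁻ v in B, {v | dist (base v) (base w) ≤ R}.indicator 1 v ∂μ := by
                have hm1 : MeasurableSet {v | dist (base v) (base w) ≤ R} :=
                  (isClosed_le (continuous_base.dist continuous_const)
                    continuous_const).measurableSet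
                rw [lintegral_indicator_one hm1, Measure.restrict_apply hm1]
      _ = ∫⁻ v in B, ∫⁻ w, {x : G × G | dist (base x.2) (base x.1) ≤ R}.indicator 1 (w, v)
            ∂μ ∂μ := by
          rw [lintegral_lintegral_swap]
          exact (measurable_one.indicator hT).aemeasurable
      _ = ∫⁻ w in B, μ (base ⁻¹' Metric.closedBall (base w) R) ∂μ := by
          apply lintegral_congr
          intro v
          have e1 : (fun w : G => {x : G × G | dist (base x.2) (base x.1) ≤ R}.indicator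
              (1 : G × G → ℝ≥0∞) (w, v)) =
              (base ⁻¹' Metric.closedBall (base v) R).indicator 1 := by
            funext w
            by_cases h : dist (base v) (base w) ≤ R
            · rw [indicator_of_mem (show (w, v) ∈ {x : G × G | dist (base x.2) (base x.1) ≤ R} from h),
                indicator_of_mem]
              · rfl
              · rw [mem_preimage, Metric.mem_closedBall, dist_comm]; exact h
            · rw [indicator_of_notMem (show (w, v) ∉ {x : G × G | dist (base x.2) (base x.1) ≤ R}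
                from h), indicator_of_notMem]
              rw [mem_preimage, Metric.mem_closedBall, dist_comm]; exact h
          rw [e1, lintegral_indicator_one]
          exact Metric.isClosed_closedBall.measurableSet.preimage measurable_base

end Pool.Agent.A54.Dyn
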