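import Pool.Agent.Lib.MP_a54f13_nt.Main
import Pool.Agent.Lib.MP_a54f13_nt.Dyn.Vol
import Pool.Agent.Lib.MP_a54f13_nt.Dyn.ExtM
import Pool.Agent.Lib.MP_a54f13_nt.Dyn.Avg
import Pool.Agent.Lib.MP_a54f13_nt.Dyn.Win
import Pool.Agent.Lib.MP_a54f13_nt.Dyn.HHm
import Pool.Agent.Lib.MP_a54f13_nt.Dyn.Prod
import Pool.Agent.Lib.MP_a54f13_nt.Dyn.Tau
import Pool.Agent.Lib.MP_a54f13_nt.Dyn.Trans
import Pool.Agent.Lib.MP_a54f13_nt.Dyn.Geo14
import Pool.Agent.Lib.MP_a54f13_nt.Dyn.Geo23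
import Pool.Agent.Lib.MP_a54f13_nt.Dyn.L2up
import Pool.Agent.Lib.MP_a54f13_nt.Dyn.Cross
import Pool.Agent.Lib.MP_a54f13_nt.Dyn.E
import Pool.Agent.Lib.MP_a54f13_nt.Dyn.Det
import Pool.Agent.Lib.MP_a54f13_nt.Dyn.F1
import Pool.Agent.Lib.MP_a54f13_nt.Dyn.Zone
import Pool.Agent.Lib.MP_a54f13_nt.Dyn.Zbox
import Pool.Agent.Lib.MP_a54f13_nt.Dyn.Sel
import Pool.Agent.Lib.MP_a54f13_nt.Dyn.Rec
import Pool.Agent.Lib.MP_a54f13_nt.Dyn.VitPath
import Pool.Agent.Lib.MP_a54f13_nt.Dyn.Comb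
import Pool.Agent.Lib.MP_a54f13_nt.Dyn.Tc4
import Pool.Agent.Lib.MP_a54f13_nt.Dyn.Tc5
import Pool.Agent.Lib.MP_a54f13_nt.Dyn.N3
import Pool.Agent.Lib.MP_a54f13_nt.Dyn.Zero
import Pool.Agent.Lib.MP_a54f13_nt.Dyn.BinCes
import Pool.Agent.Lib.MP_a54f13_nt.Dyn.NA
import Pool.Agent.Lib.MP_a54f13_nt.Dyn.Move
import Pool.Agent.Lib.MP_a54f13_nt.Dyn.Err2
import Pool.Agent.Lib.MP_a54f13_nt.Dyn.FT
import Pool.Agent.Lib.MP_a54f13_nt.Dyn.LB
import Pool.Agent.Lib.MP_a54f13_nt.Dyn.SgB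
import Pool.Agent.Lib.MP_a54f13_nt.Dyn.A1
import Pool.Agent.Lib.MP_a54f13_nt.Dyn.A2
import Pool.Agent.Lib.MP_a54f13_nt.Dyn.A3
import Pool.Agent.Lib.MP_a54f13_nt.Dyn.Lift
import Pool.Agent.Lib.MP_a54f13_nt.Dyn.XdDens
import Pool.Agent.Lib.MP_a54f13_nt.Dyn.Fej
import Pool.Agent.Lib.MP_a54f13_nt.Dyn.FlowLeft
import Pool.Agent.Lib.MP_a54f13_nt.Dyn.Lim
import Pool.Agent.Lib.MP_a54f13_nt.Dyn.SC
import Pool.Agent.Lib.MP_a54f13_nt.Dyn.NAf
import Pool.Agent.Lib.MP_a54f13_nt.Dyn.CubicS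
import Pool.Agent.Lib.MP_a54f13_nt.Dyn.RatioS
import Pool.Agent.Lib.MP_a54f13_nt.Dyn.CubeS
import Pool.Agent.Lib.MP_a54f13_nt.Dyn.Half3
import Pool.Agent.Lib.MP_a54f13_nt.Dyn.X3

/-!
Assembly of package 2.
-/

set_option autoImplicit false

namespace Pool.Agent.A54.Dyn

open MeasureTheory Filter Topology Set
open scoped ContDiff ComplexConjugate UpperHalfPlane MatrixGroups

/-! ### Part II: no directional atoms -/

theorem pExt : StmtExt := stmtExt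

theorem pAvg : StmtAvg := stmtAvg stmtBall

theorem pWin : StmtWin := stmtWin stmtBall pExt pAvg

theorem pHH : StmtHH := stmtHH stmtBall pExt pWin

theorem pTau : StmtTau := stmtTau stmtProd

theorem pTrans : StmtTrans := stmtTrans stmtProd

theorem pL2up : StmtL2up := stmtL2up stmtBall pExt stmtProd stmtGeo1

theorem pE : StmtE := stmtE pL2up pTau stmtCross

theorem pDet : StmtDet := stmtDet stmtProd pTau stmtGeo2 stmtGeo3 stmtGeo4

theorem pF1 : StmtF1 := stmtF1 stmtVol pExt pWin pHH pE pDet pTau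

theorem pZone : StmtZone := stmtZone stmtBall pExt pAvg stmtGeo4

theorem pZbox : StmtZbox := stmtZbox pZone

theorem pSel : StmtSel := stmtSel pF1 pZone pZbox pTau

theorem pComb : StmtComb := stmtComb stmtVit stmtPath

theorem pZero : StmtZero :=
  stmtZero pHH pF1 pE pTau pSel stmtRec pComb (stmtTc4 stmtProd pTau pTrans)
    (stmtTc5 pTau pTrans) (stmtN3 stmtProd)

theorem pNA : StmtNA := stmtNA pExt pZero (stmtCes pExt pHH stmtBin)

/-! ### Part I: the limiting measure -/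

theorem pMove : StmtMove := stmtMove pErrZ (stmtCacc stmtErr)

theorem pFT : StmtFT := stmtFT stmtErr2 pMove

theorem pLB : StmtLB := stmtLB stmtInt

theorem pSgB : StmtSgB := stmtSgB stmtInt stmtLap pMove pLB

theorem pFej : StmtFej := stmtFej stmtXd

theorem pLim : StmtLim := stmtLim pLB pSgB (stmtA1 stmtInt stmtLap pMove pLB)
  (stmtA2 stmtInt stmtLap pFT pLB) (stmtA3 pSgB) stmtLift (stmtFlow pFej stmtDens)
  (stmtLeft pFej stmtDens)

theorem pNAf : StmtNAf := stmtNAf (stmtSC pLim) pNA stmtInt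

/-! ### Part III: conclusion -/

theorem pRatioS : StmtRatioS := stmtRatioS pLocGen (stmtComp pL4) pIneq

theorem pCubeS : StmtCubeS :=
  stmtCubeS pRel pOdd pOddLim (stmtCubicS pErrZ pL4) (stmtComp pL4) pIneq

variable {f : ℕ → ℍ → ℝ} {t : ℕ → ℝ}

/-- sharp lower bounds for all even moments, for every sequence of Hecke–Maass forms -/
theorem finalSharp (hf : ∀ i, IsHeckeMaass (f i) (t i)) (ht : Tendsto t atTop atTop) :
    FinalSharp f :=
  stmtX3 f t hf (stmtHalf3 stmtInt stmtLap pRatioS pCubeS pNAf f t ⟨hf, ht⟩).1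

/-- the third moment, for every sequence of Hecke–Maass forms with locally bounded fourth moments -/
theorem finalCube (hf : ∀ i, IsHeckeMaass (f i) (t i)) (ht : Tendsto t atTop atTop) :
    FinalCube f :=
  X.finalCube f t hf (stmtHalf3 stmtInt stmtLap pRatioS pCubeS pNAf f t ⟨hf, ht⟩).2

end Pool.Agent.A54.Dyn
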