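import Pool.Agent.Lib.MP_a54f13_nt.Dyn.Spec1

/-!
Part III: unconditional sharp lower bounds.
-/

set_option autoImplicit false

namespace Pool.Agent.A54.Dyn

open MeasureTheory Filter Topology Set
open scoped ComplexConjugate UpperHalfPlane MatrixGroups ENNReal ContDiff
open Pool.Agent.A54.Half (H0 qq ff hh)

noncomputable section

/-- the limits `p_n` tend to zero in the mean, for all open subsets and subsequences -/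
def NAloc (V : Set ℂ) (q : ℂ → ℝ) (h : ℕ → ℝ) (f : ℕ → ℂ → ℝ) : Prop :=
  ∀ (V' : Set ℂ) (τ : ℕ → ℕ) (r : ℕ → ℂ → ℂ), V' ⊆ V → StrictMono τ →
    Sm V' q (fun i => h (τ i)) (fun i => f (τ i)) r → ∀ w : ℂ → ℝ, TestR V' w → (∀ z, 0 ≤ w z) →
      Tendsto (fun N : ℕ => (∑ n ∈ Finset.range N, ∫ z, w z * pp q r n z) / N) atTop (𝓝 0)

/-- `StmtCubic` without ergodicity: copy Cubic.lean, replacing `Sq` by `Seq` (`Sq.que` is not used) -/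
def StmtCubicS : Prop := ∀ (V : Set ℂ) (q : ℂ → ℝ) (h : ℕ → ℝ) (f : ℕ → ℂ → ℝ), Seq V q h f →
  L4Bdd V f → ∀ (n : ℕ) (φ : ℂ → ℂ), Test V φ →
    Tendsto (fun i => (∫ z, φ z * (ss q (h i) (f i) 0 z * ss q (h i) (f i) n z *
        ss q (h i) (f i) (-n) z)) -
      (if 3 ∣ n then 1 else -(1 / 2 : ℂ)) * ∫ z, φ z * (f i z : ℂ) ^ 3) atTop (𝓝 0)

/-- sharp constant; adapt Ratio.lean: `pairSum p N ≤ 4 N ∑_{k ≤ 2N} p_k`, so for `M` large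
`∫ w dens q r M ≥ 3 ∫ w p_0 - small` -/
def StmtRatioS : Prop := ∀ (V : Set ℂ) (q : ℂ → ℝ) (h : ℕ → ℝ) (f : ℕ → ℂ → ℝ), Seq V q h f →
  L2Bdd V f → NAloc V q h f → ∀ φ : ℂ → ℝ, TestR V φ → (∀ z, 0 ≤ φ z) → ∀ ε : ℝ, 0 < ε →
    ∀ᶠ i in atTop, 3 * (∫ z, φ z * f i z ^ 2) ^ 2 - ε ≤ (∫ z, φ z) * ∫ z, φ z * f i z ^ 4

/-- third moment; adapt the second half of Loc.lean (`cube_nonneg`): with the weights `cc`,
`(3 M)² (∫ φ f³)² ≤ (∫ φ f²) (∑∑ cc cc LL(PP) + o(1))`, `∑∑ cc cc (-2 PP 0) = 0` (`sum_cc`) and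
`∑∑_{n,m ≤ 6M} (PP (n+m) + PP |n-m|) ≤ 24 M ∑_{k ≤ 12M} PP k = o(M²)`; subsequences by `StmtComp` -/
def StmtCubeS : Prop := ∀ (V : Set ℂ) (q : ℂ → ℝ) (h : ℕ → ℝ) (f : ℕ → ℂ → ℝ), Seq V q h f →
  L4Bdd V f → NAloc V q h f → ∀ φ : ℂ → ℝ, TestR V φ →
    Tendsto (fun i => ∫ z, φ z * f i z ^ 3) atTop (𝓝 0)

/-- the fourth moment against test functions with support in the open fundamental domain -/
def HalfRatioS (f : ℕ → ℍ → ℝ) : Prop :=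
  ∀ φ : ℂ → ℝ, TestR Ofd φ → (∀ z, 0 ≤ φ z) → ∀ ε : ℝ, 0 < ε → ∀ᶠ i in atTop,
    3 * (∫ z : ℍ, φ z * f i z ^ 2) ^ 2 - ε ≤ (∫ z : ℍ, φ z) * ∫ z : ℍ, φ z * f i z ^ 4

/-- sharp lower bounds for the even moments, for all sequences: `C_4 = 3`, and
`(∫ ψ)^{k-1} ∫ ψ f^{2k} ≥ 3^{k-1} (∫ ψ f²)^k - o(1)` -/
def FinalSharp (f : ℕ → ℍ → ℝ) : Prop :=
  ∀ ψ : ℍ → ℝ, TestX ψ → (∀ z, 0 ≤ ψ z) → ∀ k : ℕ, 2 ≤ k → ∀ ε : ℝ, 0 < ε → ∀ᶠ i in atTop,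
    3 ^ (k - 1) * (∫ z in ModularGroup.fdo, ψ z * f i z ^ 2) ^ k - ε ≤
      (∫ z in ModularGroup.fdo, ψ z) ^ (k - 1) *
        ∫ z in ModularGroup.fdo, ψ z * f i z ^ (2 * k)

/-- model: Half2.lean (second part), Half.lean (`l4`); `NAloc` from `StmtNAf` applied to the sequences
`i ↦ f (τ i + N)` (which are again `HM`) -/
def StmtHalf3 : Prop := StmtRatioS → StmtCubeS → StmtNAf → ∀ (f : ℕ → ℍ → ℝ) (t : ℕ → ℝ),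
  HM f t → HalfRatioS f ∧ HalfCube f

/-- model: X2.lean, `finalRatio` (replace `3/2` by `3`) for `k = 2`; then for `k ≥ 3`, with
`M_k = ∫ ψ f^{2k}`, log-convexity (Cauchy–Schwarz) `M_k² ≤ M_{k-1} M_{k+1}` gives
`M_k M_1^{k-2} ≥ M_2^{k-1}` and `M_1^{k-2} M_0^{k-1} M_k ≥ (M_0 M_2)^{k-1} ≥ (3 M_1² - ε)^{k-1}`;
`M_1` is bounded (normalisation); small `M_1` is trivial. -/
def StmtX3 : Prop := ∀ (f : ℕ → ℍ → ℝ) (t : ℕ → ℝ), (∀ i, IsHeckeMaass (f i) (t i)) →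
  HalfRatioS f → FinalSharp f

end

end Pool.Agent.A54.Dyn
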