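import Mathlib

/-!
The group `SL(2, ℝ)`, its action on the upper half-plane, the geodesic flow (right multiplication by
`fl t`) and coordinates near the identity.  For MP_a54f13_nt.
-/

set_option autoImplicit false

namespace Pool.Agent.A54.Dyn

open MeasureTheory Filter Topology Set
open scoped ComplexConjugate UpperHalfPlane MatrixGroups ENNReal

noncomputable section

/-- `SL(2, ℝ)` -/
abbrev G := Matrix.SpecialLinearGroup (Fin 2) ℝ

instance instMS : MeasurableSpace G := borel G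
instance instBS : BorelSpace G := ⟨rfl⟩

instance instLC : LocallyCompactSpace G :=
  have : LocallyCompactSpace (Matrix (Fin 2) (Fin 2) ℝ) :=
    inferInstanceAs (LocallyCompactSpace (Fin 2 → Fin 2 → ℝ))
  Matrix.SpecialLinearGroup.isClosedEmbedding_val.locallyCompactSpace

instance instSC : SecondCountableTopology G :=
  have : SecondCountableTopology (Matrix (Fin 2) (Fin 2) ℝ) :=
    inferInstanceAs (SecondCountableTopology (Fin 2 → Fin 2 → ℝ))
  Matrix.SpecialLinearGroup.isClosedEmbedding_val.isEmbedding.secondCountableTopology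

/-- the element with entries `a b c d` -/
def mk4 (a b c d : ℝ) (h : a * d - b * c = 1) : G := ⟨!![a, b; c, d], by
  rw [Matrix.det_fin_two_of]; exact h⟩

/-- the geodesic flow is right multiplication by `fl t` -/
def fl (t : ℝ) : G := mk4 (Real.exp (t / 2)) 0 0 (Real.exp (-t / 2)) (by
  rw [← Real.exp_add, show t / 2 + -t / 2 = 0 by ring]; simp)

/-- the base point of a unit tangent vector -/
def base (g : G) : ℍ := g • UpperHalfPlane.I

/-- the direction of a unit tangent vector -/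
def ze (g : G) : ℂ := ((g 1 1 : ℂ) - Complex.I * (g 1 0 : ℂ)) / ((g 1 1 : ℂ) + Complex.I * (g 1 0 : ℂ))

/-- the embedding of `SL(2, ℤ)` -/
def io (γ : SL(2, ℤ)) : G := Matrix.SpecialLinearGroup.map (Int.castRingHom ℝ) γ

/-! ### Coordinates near the identity -/

/-- domain of the coordinates -/
def dom : Set G := {g | 0 < g 0 0 ∧ 0 < g 1 1}

/-- first coordinate: the starting point of the geodesic -/
def cX (g : G) : ℝ := g 0 1 / g 1 1

/-- second coordinate: the inverse of the end point of the geodesic -/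
def cY (g : G) : ℝ := g 1 0 / g 0 0

/-- third coordinate: time -/
def cU (g : G) : ℝ := Real.log (g 0 0 / g 1 1)

/-- the pair of transversal coordinates -/
def cP (g : G) : ℝ × ℝ := (cX g, cY g)

/-- action of the flow on the transversal coordinates -/
def ph (t : ℝ) (p : ℝ × ℝ) : ℝ × ℝ := (Real.exp (-t) * p.1, Real.exp t * p.2)

/-- transversal coordinates relative to another point (with coordinates `a`, time coordinate `u`) -/
def rel (a : ℝ × ℝ) (u : ℝ) (p : ℝ × ℝ) : ℝ × ℝ :=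
  (Real.exp (-u) * (p.1 - a.1) / (1 - a.2 * p.1), Real.exp u * (p.2 - a.2) / (1 - a.1 * p.2))

/-- squares -/
def Sq2 (L : ℝ) : Set (ℝ × ℝ) := {p | |p.1| < L ∧ |p.2| < L}

/-- closed squares -/
def Sc (L : ℝ) : Set (ℝ × ℝ) := {p | |p.1| ≤ L ∧ |p.2| ≤ L}

/-- boxes in the group -/
def Bx (L r : ℝ) : Set G := {g | g ∈ dom ∧ cP g ∈ Sq2 L ∧ |cU g| < r}

/-- the transversal measure at `v`: measure of `v • {cP ∈ R, 0 ≤ cU < 1}`, for `R ⊆ [-1/2, 1/2]²` -/
def tau (μ : Measure G) (v : G) : Measure (ℝ × ℝ) :=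
  ((μ.map (fun g => v⁻¹ * g)).restrict
    {g | g ∈ dom ∧ cP g ∈ Sc (1 / 2) ∧ cU g ∈ Ico (0 : ℝ) 1}).map cP

/-! ### Basic facts -/

lemma mk4_00 {a b c d : ℝ} {h : a * d - b * c = 1} : (mk4 a b c d h) 0 0 = a := rfl
lemma mk4_01 {a b c d : ℝ} {h : a * d - b * c = 1} : (mk4 a b c d h) 0 1 = b := rfl
lemma mk4_10 {a b c d : ℝ} {h : a * d - b * c = 1} : (mk4 a b c d h) 1 0 = c := rfl
lemma mk4_11 {a b c d : ℝ} {h : a * d - b * c = 1} : (mk4 a b c d h) 1 1 = d := rfl

lemma det_eq (g : G) : g 0 0 * g 1 1 - g 0 1 * g 1 0 = 1 := by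
  have := g.det_coe
  rw [Matrix.det_fin_two] at this
  exact this

lemma G_ext {g h : G} (h00 : g 0 0 = h 0 0) (h01 : g 0 1 = h 0 1) (h10 : g 1 0 = h 1 0)
    (h11 : g 1 1 = h 1 1) : g = h := by
  ext i j
  fin_cases i <;> fin_cases j <;> assumption

lemma mul_00 (g h : G) : (g * h) 0 0 = g 0 0 * h 0 0 + g 0 1 * h 1 0 := by
  rw [Matrix.SpecialLinearGroup.coe_mul, Matrix.mul_apply, Fin.sum_univ_two]
lemma mul_01 (g h : G) : (g * h) 0 1 = g 0 0 * h 0 1 + g 0 1 * h 1 1 := by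
  rw [Matrix.SpecialLinearGroup.coe_mul, Matrix.mul_apply, Fin.sum_univ_two]
lemma mul_10 (g h : G) : (g * h) 1 0 = g 1 0 * h 0 0 + g 1 1 * h 1 0 := by
  rw [Matrix.SpecialLinearGroup.coe_mul, Matrix.mul_apply, Fin.sum_univ_two]
lemma mul_11 (g h : G) : (g * h) 1 1 = g 1 0 * h 0 1 + g 1 1 * h 1 1 := by
  rw [Matrix.SpecialLinearGroup.coe_mul, Matrix.mul_apply, Fin.sum_univ_two]

lemma inv_eq (g : G) : g⁻¹ = mk4 (g 1 1) (-g 0 1) (-g 1 0) (g 0 0) (by
    have := det_eq g; linarith) := by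
  rw [inv_eq_iff_mul_eq_one]
  have := det_eq g
  apply G_ext
  · rw [mul_00, mk4_00, mk4_10]; simp; linarith
  · rw [mul_01, mk4_01, mk4_11]; simp; ring
  · rw [mul_10, mk4_00, mk4_10]; simp; ring
  · rw [mul_11, mk4_01, mk4_11]; simp; linarith

lemma inv_00 (g : G) : g⁻¹ 0 0 = g 1 1 := by rw [inv_eq]; rfl
lemma inv_01 (g : G) : g⁻¹ 0 1 = -g 0 1 := by rw [inv_eq]; rfl
lemma inv_10 (g : G) : g⁻¹ 1 0 = -g 1 0 := by rw [inv_eq]; rfl
lemma inv_11 (g : G) : g⁻¹ 1 1 = g 0 0 := by rw [inv_eq]; rfl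

lemma fl_00 (t : ℝ) : fl t 0 0 = Real.exp (t / 2) := rfl
lemma fl_01 (t : ℝ) : fl t 0 1 = 0 := rfl
lemma fl_10 (t : ℝ) : fl t 1 0 = 0 := rfl
lemma fl_11 (t : ℝ) : fl t 1 1 = Real.exp (-t / 2) := rfl

lemma fl_zero : fl 0 = 1 := by
  apply G_ext
  · rw [fl_00]; simp
  · rw [fl_01]; simp
  · rw [fl_10]; simp
  · rw [fl_11]; simp

lemma fl_add (s t : ℝ) : fl (s + t) = fl s * fl t := by
  apply G_ext
  · rw [mul_00, fl_00, fl_00, fl_00, fl_01, fl_10, ← Real.exp_add]; ring_nf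
  · rw [mul_01, fl_01, fl_01, fl_01]; ring
  · rw [mul_10, fl_10, fl_10, fl_10]; ring
  · rw [mul_11, fl_11, fl_11, fl_11, fl_01, fl_10, ← Real.exp_add]; ring_nf

lemma fl_neg (t : ℝ) : fl (-t) = (fl t)⁻¹ := by
  rw [eq_comm, inv_eq_iff_mul_eq_one, ← fl_add]; simp [fl_zero]

lemma continuous_entry (i j : Fin 2) : Continuous (fun g : G => g i j) := by
  have := Matrix.SpecialLinearGroup.continuous_apply (n := Fin 2) (R := ℝ) (fun g : G => g)
    continuous_id i
  exact (continuous_apply j).comp this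

lemma continuous_fl : Continuous fl := by
  apply continuous_induced_rng.mpr
  apply continuous_matrix
  intro i j
  fin_cases i <;> fin_cases j
  · exact Real.continuous_exp.comp (continuous_id.div_const 2)
  · exact continuous_const
  · exact continuous_const
  · exact Real.continuous_exp.comp (continuous_neg.div_const 2)

lemma base_mul (v g : G) : base (v * g) = v • base g := by
  unfold base; rw [mul_smul]

lemma continuous_base : Continuous base := by
  unfold base; fun_prop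

lemma measurable_base : Measurable base := continuous_base.measurable

/-- `base` is proper -/
lemma isCompact_base {K : Set ℍ} (hK : IsCompact K) : IsCompact (base ⁻¹' K) :=
  UpperHalfPlane.isProperMap_smul_I.isCompact_preimage hK

lemma smul_coe (g : G) (z : ℍ) : ((g • z : ℍ) : ℂ) =
    ((g 0 0 : ℂ) * z + g 0 1) / ((g 1 0 : ℂ) * z + g 1 1) := by
  rw [UpperHalfPlane.coe_specialLinearGroup_apply]
  simp

lemma denom_ne (g : G) (z : ℍ) : (g 1 0 : ℂ) * z + g 1 1 ≠ 0 := by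
  have := UpperHalfPlane.denom_ne_zero (g : GL (Fin 2) ℝ) z
  simpa [UpperHalfPlane.denom] using this

lemma base_coe (g : G) : ((base g : ℍ) : ℂ) =
    ((g 0 0 : ℂ) * Complex.I + g 0 1) / ((g 1 0 : ℂ) * Complex.I + g 1 1) := by
  unfold base; rw [smul_coe]; rfl

lemma im_smul (g : G) (z : ℍ) : (g • z : ℍ).im =
    z.im / Complex.normSq ((g 1 0 : ℂ) * z + g 1 1) := by
  have h1 := det_eq g
  have h2 := denom_ne g z
  have h3 : ((g • z : ℍ) : ℂ).im = z.im / Complex.normSq ((g 1 0 : ℂ) * z + g 1 1) := by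
    rw [smul_coe, Complex.div_im, ← sub_div]
    congr 1
    simp only [Complex.add_im, Complex.add_re, Complex.mul_im, Complex.mul_re, Complex.ofReal_re,
      Complex.ofReal_im, UpperHalfPlane.coe_re, UpperHalfPlane.coe_im]
    linear_combination (z.im) * h1
  exact h3

lemma denI_ne (g : G) : (g 1 1 : ℂ) + Complex.I * (g 1 0 : ℂ) ≠ 0 := by
  have := denom_ne g UpperHalfPlane.I
  intro h
  apply this
  rw [← h]
  simp [mul_comm, add_comm]

lemma norm_ze (g : G) : ‖ze g‖ = 1 := by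
  unfold ze
  have h : (g 1 1 : ℂ) - Complex.I * (g 1 0 : ℂ) = conj ((g 1 1 : ℂ) + Complex.I * (g 1 0 : ℂ)) := by
    simp [sub_eq_add_neg]
  rw [norm_div, h, RCLike.norm_conj, div_self]
  exact norm_ne_zero_iff.mpr (denI_ne g)

lemma ze_ne (g : G) : ze g ≠ 0 := by
  intro h
  have := norm_ze g
  rw [h] at this
  simp at this

lemma continuous_ze : Continuous ze := by
  unfold ze
  have h0 := Complex.continuous_ofReal.comp (continuous_entry 1 0)
  have h1 := Complex.continuous_ofReal.comp (continuous_entry 1 1)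
  exact (h1.sub (continuous_const.mul h0)).div (h1.add (continuous_const.mul h0)) denI_ne

lemma coe_im_ne (z : ℍ) : (z.im : ℂ) ≠ 0 := by exact_mod_cast z.im_pos.ne'

/-- the direction of a translate -/
lemma ze_mul (v g : G) : ze (v * g) = ze g *
    (((v 1 0 : ℂ) * conj (base g : ℂ) + v 1 1) / ((v 1 0 : ℂ) * (base g : ℂ) + v 1 1)) := by
  have hd := denI_ne g
  have hd' : (g 1 1 : ℂ) - Complex.I * (g 1 0 : ℂ) ≠ 0 := by
    have h : (g 1 1 : ℂ) - Complex.I * (g 1 0 : ℂ) =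
        conj ((g 1 1 : ℂ) + Complex.I * (g 1 0 : ℂ)) := by simp [sub_eq_add_neg]
    rw [h]
    exact (map_ne_zero _).mpr hd
  have hv := denom_ne v (base g)
  have hvg := denI_ne (v * g)
  have e1 : ((base g : ℍ) : ℂ) = ((g 0 0 : ℂ) * Complex.I + g 0 1) /
      ((g 1 1 : ℂ) + Complex.I * g 1 0) := by
    rw [base_coe]; congr 1; ring
  have e2 : conj ((base g : ℍ) : ℂ) = (-(g 0 0 : ℂ) * Complex.I + g 0 1) /
      ((g 1 1 : ℂ) - Complex.I * g 1 0) := by
    rw [e1, map_div₀]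
    simp [sub_eq_add_neg]
  unfold ze at *
  rw [mul_11, mul_10] at *
  rw [e1] at hv
  rw [e2, e1]
  have h3 : ((v 1 0 : ℂ) * (((g 0 0 : ℂ) * Complex.I + g 0 1) / ((g 1 1 : ℂ) + Complex.I * g 1 0)) +
      v 1 1) = (((v 1 0 * g 0 1 + v 1 1 * g 1 1 : ℝ) : ℂ) + Complex.I *
        ((v 1 0 * g 0 0 + v 1 1 * g 1 0 : ℝ) : ℂ)) / ((g 1 1 : ℂ) + Complex.I * g 1 0) := by
    field_simp
    push_cast
    ring
  have h4 : ((v 1 0 : ℂ) * ((-(g 0 0 : ℂ) * Complex.I + g 0 1) / ((g 1 1 : ℂ) - Complex.I * g 1 0)) +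
      v 1 1) = (((v 1 0 * g 0 1 + v 1 1 * g 1 1 : ℝ) : ℂ) - Complex.I *
        ((v 1 0 * g 0 0 + v 1 1 * g 1 0 : ℝ) : ℂ)) / ((g 1 1 : ℂ) - Complex.I * g 1 0) := by
    field_simp
    push_cast
    ring
  rw [h3, h4]
  field_simp

lemma ze_neg (g : G) : ze (-g) = ze g := by
  unfold ze
  have h0 : (-g) 1 0 = -(g 1 0) := rfl
  have h1 : (-g) 1 1 = -(g 1 1) := rfl
  rw [h0, h1]
  push_cast
  have hd := denI_ne g
  have : -(g 1 1 : ℂ) + Complex.I * -(g 1 0 : ℂ) ≠ 0 := by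
    intro h; apply hd; linear_combination -h
  rw [div_eq_div_iff this hd]
  ring

lemma base_neg (g : G) : base (-g) = base g := by
  apply UpperHalfPlane.ext
  rw [base_coe, base_coe]
  have h0 : (-g) 1 0 = -(g 1 0) := rfl
  have h1 : (-g) 1 1 = -(g 1 1) := rfl
  have h2 : (-g) 0 0 = -(g 0 0) := rfl
  have h3 : (-g) 0 1 = -(g 0 1) := rfl
  have hd := denom_ne g UpperHalfPlane.I
  rw [h0, h1, h2, h3]
  push_cast
  have hd1 : (g 1 0 : ℂ) * Complex.I + g 1 1 ≠ 0 := hd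
  have : -(g 1 0 : ℂ) * Complex.I + -(g 1 1 : ℂ) ≠ 0 := by
    intro h; apply hd1; linear_combination -h
  rw [div_eq_div_iff this hd1]
  ring

/-- the flow moves the base point by the distance `|t|` -/
lemma dist_base_fl (v : G) (t : ℝ) : dist (base (v * fl t)) (base v) = |t| := by
  rw [base_mul]
  unfold base
  rw [dist_smul]
  have h1 : ((fl t • UpperHalfPlane.I : ℍ) : ℂ) = Real.exp t * Complex.I := by
    rw [smul_coe, fl_00, fl_01, fl_10, fl_11]
    have : Real.exp (t / 2) = Real.exp t * Real.exp (-t / 2) := by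
      rw [← Real.exp_add]; ring_nf
    rw [this]
    have h2 : (Real.exp (-t / 2) : ℂ) ≠ 0 := by exact_mod_cast (Real.exp_pos _).ne'
    push_cast
    simp only [zero_mul, zero_add, add_zero]
    field_simp
  have hre : (fl t • UpperHalfPlane.I : ℍ).re = UpperHalfPlane.I.re := by
    have := congrArg Complex.re h1
    simpa using this
  have him : (fl t • UpperHalfPlane.I : ℍ).im = Real.exp t := by
    have := congrArg Complex.im h1
    rw [Complex.im_ofReal_mul, Complex.I_im, mul_one] at this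
    exact this
  rw [UpperHalfPlane.dist_of_re_eq hre, him, Real.log_exp]
  simp

/-! ### Coordinates of products and inverses -/

lemma one_sub_mul {g : G} (hg : g ∈ dom) : 1 - cX g * cY g = 1 / (g 0 0 * g 1 1) := by
  have h0 := hg.1
  have h1 := hg.2
  have := det_eq g
  unfold cX cY
  field_simp
  linarith

lemma one_sub_pos {g : G} (hg : g ∈ dom) : 0 < 1 - cX g * cY g := by
  rw [one_sub_mul hg]
  exact one_div_pos.mpr (mul_pos hg.1 hg.2)

lemma exp_cU {g : G} (hg : g ∈ dom) : Real.exp (cU g) = g 0 0 / g 1 1 :=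
  Real.exp_log (div_pos hg.1 hg.2)

lemma exp_neg_cU {g : G} (hg : g ∈ dom) : Real.exp (-cU g) = g 1 1 / g 0 0 := by
  rw [Real.exp_neg, exp_cU hg, inv_div]

lemma sq_00 {g : G} (hg : g ∈ dom) : g 0 0 ^ 2 = Real.exp (cU g) / (1 - cX g * cY g) := by
  have h0 := hg.1
  have h1 := hg.2
  rw [one_sub_mul hg, exp_cU hg]
  field_simp

lemma sq_11 {g : G} (hg : g ∈ dom) : g 1 1 ^ 2 = Real.exp (-cU g) / (1 - cX g * cY g) := by
  have h0 := hg.1
  have h1 := hg.2
  rw [one_sub_mul hg, exp_neg_cU hg]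
  field_simp

lemma inv_mem_dom {g : G} (hg : g ∈ dom) : g⁻¹ ∈ dom := by
  unfold dom
  rw [mem_ofPred_eq, inv_00, inv_11]
  exact ⟨hg.2, hg.1⟩

lemma cX_inv {g : G} (hg : g ∈ dom) : cX g⁻¹ = -(Real.exp (-cU g) * cX g) := by
  have h0 := hg.1
  have h1 := hg.2
  rw [exp_neg_cU hg]
  unfold cX
  rw [inv_01, inv_11]
  field_simp

lemma cY_inv {g : G} (hg : g ∈ dom) : cY g⁻¹ = -(Real.exp (cU g) * cY g) := by
  have h0 := hg.1
  have h1 := hg.2
  rw [exp_cU hg]
  unfold cY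
  rw [inv_10, inv_00]
  field_simp

lemma cU_inv (g : G) : cU g⁻¹ = -cU g := by
  unfold cU
  rw [inv_00, inv_11, ← Real.log_inv, inv_div]

/-- coordinates of a product -/
lemma cX_mul {g h : G} (hg : g ∈ dom) (hh : h ∈ dom) : cX (g * h) =
    (cX g + Real.exp (cU g) * cX h) / (1 + Real.exp (cU g) * cY g * cX h) := by
  have h0 := hg.1
  have h1 := hg.2
  have h2 := hh.1
  have h3 := hh.2
  rw [exp_cU hg]
  unfold cX cY
  rw [mul_01, mul_11]
  have e1 : g 0 0 * h 0 1 + g 0 1 * h 1 1 = (g 1 1 * h 1 1) * (g 0 1 / g 1 1 +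
      g 0 0 / g 1 1 * (h 0 1 / h 1 1)) := by field_simp; ring
  have e2 : g 1 0 * h 0 1 + g 1 1 * h 1 1 = (g 1 1 * h 1 1) * (1 +
      g 0 0 / g 1 1 * (g 1 0 / g 0 0) * (h 0 1 / h 1 1)) := by field_simp; ring
  rw [e1, e2, mul_div_mul_left _ _ (mul_pos h1 h3).ne']

lemma cY_mul {g h : G} (hg : g ∈ dom) (hh : h ∈ dom) : cY (g * h) =
    (cY g + Real.exp (-cU g) * cY h) / (1 + Real.exp (-cU g) * cX g * cY h) := by
  have h0 := hg.1
  have h1 := hg.2
  have h2 := hh.1
  have h3 := hh.2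
  rw [exp_neg_cU hg]
  unfold cX cY
  rw [mul_00, mul_10]
  have e1 : g 1 0 * h 0 0 + g 1 1 * h 1 0 = (g 0 0 * h 0 0) * (g 1 0 / g 0 0 +
      g 1 1 / g 0 0 * (h 1 0 / h 0 0)) := by field_simp
  have e2 : g 0 0 * h 0 0 + g 0 1 * h 1 0 = (g 0 0 * h 0 0) * (1 +
      g 1 1 / g 0 0 * (g 0 1 / g 1 1) * (h 1 0 / h 0 0)) := by field_simp
  rw [e1, e2, mul_div_mul_left _ _ (mul_pos h0 h2).ne']

lemma mul_mem_dom {g h : G} (hg : g ∈ dom) (hh : h ∈ dom)
    (h1 : 0 < 1 + Real.exp (cU g) * cY g * cX h) (h2 : 0 < 1 + Real.exp (-cU g) * cX g * cY h) :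
    g * h ∈ dom := by
  have g0 := hg.1
  have g1 := hg.2
  have g2 := hh.1
  have g3 := hh.2
  rw [exp_cU hg] at h1
  rw [exp_neg_cU hg] at h2
  unfold cX cY at h1 h2
  refine ⟨?_, ?_⟩
  · rw [mul_00]
    have e : g 0 0 * h 0 0 + g 0 1 * h 1 0 = (g 0 0 * h 0 0) * (1 +
      g 1 1 / g 0 0 * (g 0 1 / g 1 1) * (h 1 0 / h 0 0)) := by field_simp
    rw [e]
    exact mul_pos (mul_pos g0 g2) h2
  · rw [mul_11]
    have e : g 1 0 * h 0 1 + g 1 1 * h 1 1 = (g 1 1 * h 1 1) * (1 +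
      g 0 0 / g 1 1 * (g 1 0 / g 0 0) * (h 0 1 / h 1 1)) := by field_simp; ring
    rw [e]
    exact mul_pos (mul_pos g1 g3) h1

lemma cU_mul {g h : G} (hg : g ∈ dom) (hh : h ∈ dom)
    (h1 : 0 < 1 + Real.exp (cU g) * cY g * cX h) (h2 : 0 < 1 + Real.exp (-cU g) * cX g * cY h) :
    cU (g * h) = cU g + cU h + Real.log ((1 + Real.exp (-cU g) * cX g * cY h) /
      (1 + Real.exp (cU g) * cY g * cX h)) := by
  have g0 := hg.1
  have g1 := hg.2
  have g2 := hh.1
  have g3 := hh.2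
  have e1 : (g * h) 0 0 = (g 0 0 * h 0 0) * (1 + Real.exp (-cU g) * cX g * cY h) := by
    rw [exp_neg_cU hg, mul_00]; unfold cX cY; field_simp
  have e2 : (g * h) 1 1 = (g 1 1 * h 1 1) * (1 + Real.exp (cU g) * cY g * cX h) := by
    rw [exp_cU hg, mul_11]; unfold cX cY; field_simp; ring
  have e3 : cU (g * h) = Real.log ((g * h) 0 0 / (g * h) 1 1) := rfl
  have e4 : cU g = Real.log (g 0 0 / g 1 1) := rfl
  have e5 : cU h = Real.log (h 0 0 / h 1 1) := rfl
  rw [e3, e1, e2]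
  set P := 1 + Real.exp (-cU g) * cX g * cY h with hP
  set Q := 1 + Real.exp (cU g) * cY g * cX h with hQ
  rw [e4, e5, ← Real.log_mul (div_pos g0 g1).ne' (div_pos g2 g3).ne',
    ← Real.log_mul (mul_pos (div_pos g0 g1) (div_pos g2 g3)).ne' (div_pos h2 h1).ne']
  congr 1
  field_simp

/-- left multiplication by the flow -/
lemma fl_mul_mem {g : G} {t : ℝ} : fl t * g ∈ dom ↔ g ∈ dom := by
  unfold dom
  rw [mem_ofPred_eq, mem_ofPred_eq, mul_00, mul_11, fl_00, fl_01, fl_10, fl_11]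
  have h1 := Real.exp_pos (t / 2)
  have h2 := Real.exp_pos (-t / 2)
  simp only [zero_mul, add_zero, zero_add, mul_pos_iff_of_pos_left h1, mul_pos_iff_of_pos_left h2]

lemma cX_fl_mul (t : ℝ) (g : G) : cX (fl t * g) = Real.exp t * cX g := by
  unfold cX
  rw [mul_01, mul_11, fl_00, fl_01, fl_10, fl_11]
  have : Real.exp (t / 2) = Real.exp t * Real.exp (-t / 2) := by rw [← Real.exp_add]; ring_nf
  rw [this, zero_mul, zero_mul, add_zero, zero_add]
  have h2 := (Real.exp_pos (-t / 2)).ne'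
  rw [mul_right_comm, mul_comm (Real.exp t * g 0 1), mul_div_mul_left _ _ h2, mul_div_assoc]

lemma cY_fl_mul (t : ℝ) (g : G) : cY (fl t * g) = Real.exp (-t) * cY g := by
  unfold cY
  rw [mul_00, mul_10, fl_00, fl_01, fl_10, fl_11]
  have : Real.exp (-t / 2) = Real.exp (-t) * Real.exp (t / 2) := by rw [← Real.exp_add]; ring_nf
  rw [this, zero_mul, zero_mul, add_zero, zero_add]
  have h2 := (Real.exp_pos (t / 2)).ne'
  rw [mul_right_comm, mul_comm (Real.exp (-t) * g 1 0), mul_div_mul_left _ _ h2, mul_div_assoc]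

lemma cU_fl_mul {g : G} (hg : g ∈ dom) (t : ℝ) : cU (fl t * g) = t + cU g := by
  have h0 := hg.1
  have h1 := hg.2
  unfold cU
  rw [mul_00, mul_11, fl_00, fl_01, fl_10, fl_11]
  have : Real.exp (t / 2) = Real.exp t * Real.exp (-t / 2) := by rw [← Real.exp_add]; ring_nf
  rw [this, zero_mul, zero_mul, add_zero, zero_add]
  have h2 := (Real.exp_pos (-t / 2)).ne'
  have e : Real.exp t * Real.exp (-t / 2) * g 0 0 / (Real.exp (-t / 2) * g 1 1) =
      Real.exp t * (g 0 0 / g 1 1) := by field_simp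
  rw [e, Real.log_mul (Real.exp_pos t).ne' (by positivity), Real.log_exp]

/-- right multiplication by the flow -/
lemma mul_fl_mem {g : G} {t : ℝ} : g * fl t ∈ dom ↔ g ∈ dom := by
  unfold dom
  rw [mem_ofPred_eq, mem_ofPred_eq, mul_00, mul_11, fl_00, fl_01, fl_10, fl_11]
  have h1 := Real.exp_pos (t / 2)
  have h2 := Real.exp_pos (-t / 2)
  simp only [mul_zero, add_zero, zero_add, mul_pos_iff_of_pos_right h1,
    mul_pos_iff_of_pos_right h2]

lemma cX_mul_fl (t : ℝ) (g : G) : cX (g * fl t) = cX g := by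
  unfold cX
  rw [mul_01, mul_11, fl_01, fl_11, mul_zero, mul_zero, zero_add, zero_add,
    mul_div_mul_right _ _ (Real.exp_pos _).ne']

lemma cY_mul_fl (t : ℝ) (g : G) : cY (g * fl t) = cY g := by
  unfold cY
  rw [mul_00, mul_10, fl_00, fl_10, mul_zero, mul_zero, add_zero, add_zero,
    mul_div_mul_right _ _ (Real.exp_pos _).ne']

lemma cU_mul_fl {g : G} (hg : g ∈ dom) (t : ℝ) : cU (g * fl t) = cU g + t := by
  have h0 := hg.1
  have h1 := hg.2
  unfold cU
  rw [mul_00, mul_11, fl_00, fl_01, fl_10, fl_11]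
  have : Real.exp (t / 2) = Real.exp t * Real.exp (-t / 2) := by rw [← Real.exp_add]; ring_nf
  rw [this, mul_zero, mul_zero, add_zero, zero_add]
  have e : g 0 0 * (Real.exp t * Real.exp (-t / 2)) / (g 1 1 * Real.exp (-t / 2)) =
      (g 0 0 / g 1 1) * Real.exp t := by
    have h2 := (Real.exp_pos (-t / 2)).ne'
    field_simp
  rw [e, Real.log_mul (by positivity) (Real.exp_pos t).ne', Real.log_exp]

/-- the element with given coordinates -/
def ch (p : ℝ × ℝ) (u : ℝ) (hp : p.1 * p.2 < 1) : G :=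
  mk4 (Real.exp (u / 2) / Real.sqrt (1 - p.1 * p.2))
    (p.1 * (Real.exp (-u / 2) / Real.sqrt (1 - p.1 * p.2)))
    (p.2 * (Real.exp (u / 2) / Real.sqrt (1 - p.1 * p.2)))
    (Real.exp (-u / 2) / Real.sqrt (1 - p.1 * p.2)) (by
      have h1 : 0 < 1 - p.1 * p.2 := by linarith
      have h2 := Real.mul_self_sqrt h1.le
      have h3 := (Real.sqrt_pos.mpr h1).ne'
      have h4 : Real.exp (u / 2) * Real.exp (-u / 2) = 1 := by
        rw [← Real.exp_add, show u / 2 + -u / 2 = 0 by ring]; simp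
      set E := Real.exp (u / 2)
      set F := Real.exp (-u / 2)
      set s := Real.sqrt (1 - p.1 * p.2)
      have e : E / s * (F / s) - p.1 * (F / s) * (p.2 * (E / s)) =
          (E * F) * (1 - p.1 * p.2) / (s * s) := by field_simp
      rw [e, h4, h2, one_mul, div_self h1.ne'])

lemma ch_mem {p : ℝ × ℝ} {u : ℝ} {hp : p.1 * p.2 < 1} : ch p u hp ∈ dom := by
  have h1 : 0 < 1 - p.1 * p.2 := by linarith
  have h3 := Real.sqrt_pos.mpr h1
  exact ⟨div_pos (Real.exp_pos _) h3, div_pos (Real.exp_pos _) h3⟩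

lemma cX_ch {p : ℝ × ℝ} {u : ℝ} {hp : p.1 * p.2 < 1} : cX (ch p u hp) = p.1 := by
  have h1 : 0 < 1 - p.1 * p.2 := by linarith
  have h3 := Real.sqrt_pos.mpr h1
  unfold cX
  change p.1 * (Real.exp (-u / 2) / Real.sqrt (1 - p.1 * p.2)) /
    (Real.exp (-u / 2) / Real.sqrt (1 - p.1 * p.2)) = p.1
  rw [mul_div_assoc, div_self (div_pos (Real.exp_pos (-u / 2)) h3).ne', mul_one]

lemma cY_ch {p : ℝ × ℝ} {u : ℝ} {hp : p.1 * p.2 < 1} : cY (ch p u hp) = p.2 := by
  have h1 : 0 < 1 - p.1 * p.2 := by linarith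
  have h3 := Real.sqrt_pos.mpr h1
  unfold cY
  change p.2 * (Real.exp (u / 2) / Real.sqrt (1 - p.1 * p.2)) /
    (Real.exp (u / 2) / Real.sqrt (1 - p.1 * p.2)) = p.2
  rw [mul_div_assoc, div_self (div_pos (Real.exp_pos (u / 2)) h3).ne', mul_one]

lemma cU_ch {p : ℝ × ℝ} {u : ℝ} {hp : p.1 * p.2 < 1} : cU (ch p u hp) = u := by
  have h1 : 0 < 1 - p.1 * p.2 := by linarith
  have h3 := Real.sqrt_pos.mpr h1
  unfold cU
  change Real.log ((Real.exp (u / 2) / Real.sqrt (1 - p.1 * p.2)) /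
    (Real.exp (-u / 2) / Real.sqrt (1 - p.1 * p.2))) = u
  have e : (Real.exp (u / 2) / Real.sqrt (1 - p.1 * p.2)) /
    (Real.exp (-u / 2) / Real.sqrt (1 - p.1 * p.2)) = Real.exp u := by
    have e2 : Real.exp (u / 2) = Real.exp u * Real.exp (-u / 2) := by
      rw [← Real.exp_add]; ring_nf
    rw [e2, div_div_div_cancel_right₀ h3.ne', mul_div_assoc,
      div_self (Real.exp_pos (-u / 2)).ne', mul_one]
  rw [e, Real.log_exp]

/-- elements of `dom` are determined by their coordinates -/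
lemma dom_ext {g h : G} (hg : g ∈ dom) (hh : h ∈ dom) (hX : cX g = cX h) (hY : cY g = cY h)
    (hU : cU g = cU h) : g = h := by
  have e00 : g 0 0 = h 0 0 := by
    have h1 := sq_00 hg
    rw [hX, hY, hU, ← sq_00 hh] at h1
    exact (pow_left_inj₀ hg.1.le hh.1.le (by norm_num)).mp h1
  have e11 : g 1 1 = h 1 1 := by
    have h1 := sq_11 hg
    rw [hX, hY, hU, ← sq_11 hh] at h1
    exact (pow_left_inj₀ hg.2.le hh.2.le (by norm_num)).mp h1
  have g0 := hg.1
  have g1 := hg.2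
  have g2 := hh.1
  have g3 := hh.2
  unfold cX at hX
  unfold cY at hY
  rw [e11, div_left_inj' g3.ne'] at hX
  rw [e00, div_left_inj' g2.ne'] at hY
  exact G_ext e00 hX hY e11

end

end Pool.Agent.A54.Dyn
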