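import Pool.Agent.Lib.MP_a54f13_nt.Dyn.Spec

/-! The combinatorial contradiction. -/

set_option autoImplicit false

namespace Pool.Agent.A54.Dyn

open MeasureTheory Filter Topology Set
open scoped ENNReal

namespace CombM

/-! ### Elementary geometry -/

lemma cone_aux {Λ : ℝ} (hΛ : 1 < Λ) {u w : ℝ} (h : (u, w) ∉ Cone Λ) :
    |u| ≤ Λ / (Λ - 1) * |u + w| ∧ |w| ≤ Λ / (Λ - 1) * |u + w| := by
  have h0 : 0 < Λ - 1 := by linarith
  have hC : 1 ≤ Λ / (Λ - 1) := by rw [le_div_iff₀ h0]; linarith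
  have key : ∀ a b : ℝ, Λ * |b| < |a| →
      |a| ≤ Λ / (Λ - 1) * |a + b| ∧ |b| ≤ Λ / (Λ - 1) * |a + b| := by
    intro a b hab
    have h1 : |a| - |b| ≤ |a + b| := by
      have := abs_sub_abs_le_abs_sub a (-b)
      rw [abs_neg, sub_neg_eq_add] at this
      exact this
    have h2 : |a| ≤ Λ / (Λ - 1) * |a + b| := by
      rw [div_mul_eq_mul_div, le_div_iff₀ h0]
      nlinarith
    refine ⟨h2, le_trans ?_ h2⟩
    nlinarith [abs_nonneg b]
  by_cases h1 : u * w < 0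
  · by_cases h2 : |u| ≤ Λ * |w|
    · by_cases h3 : |w| ≤ Λ * |u|
      · exact absurd ⟨h1, h2, h3⟩ h
      · have := key w u (not_le.mp h3)
        rw [add_comm w u] at this
        exact ⟨this.2, this.1⟩
    · exact key u w (not_le.mp h2)
  · have h2 : |u + w| = |u| + |w| := by
      rw [not_lt] at h1
      rcases mul_nonneg_iff.mp h1 with h3 | h3
      · rw [abs_of_nonneg h3.1, abs_of_nonneg h3.2, abs_of_nonneg (add_nonneg h3.1 h3.2)]
      · rw [abs_of_nonpos h3.1, abs_of_nonpos h3.2, abs_of_nonpos (add_nonpos h3.1 h3.2)]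
        ring
    rw [h2]
    have h3 : 0 ≤ |u| := abs_nonneg u
    have h4 : 0 ≤ |w| := abs_nonneg w
    have h5 : |u| + |w| ≤ Λ / (Λ - 1) * (|u| + |w|) := by nlinarith
    constructor <;> linarith

lemma cell_diff {N : ℕ} {k l : ℤ} {p q : ℝ × ℝ} (hp : p ∈ cell N k l)
    (hq : q ∈ cell N k l) : |p.1 - q.1| ≤ 1 / N ∧ |p.2 - q.2| ≤ 1 / N := by
  obtain ⟨h1, h2, h3, h4⟩ := hp
  obtain ⟨h5, h6, h7, h8⟩ := hq
  rw [add_div] at h2 h4 h6 h8
  constructor <;> rw [abs_le] <;> constructor <;> linarith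

/-- Two cells whose displacements are not all in the cone. -/
lemma close_of_not_cone {Λ : ℝ} (hΛ : 1 < Λ) {N : ℕ} {k l k' l' : ℤ}
    (h : ¬ ∀ p ∈ cell N k l, ∀ p' ∈ cell N k' l', (p'.1 - p.1, p'.2 - p.2) ∈ Cone Λ)
    {p p' : ℝ × ℝ} (hp : p ∈ cell N k l) (hp' : p' ∈ cell N k' l') :
    |p'.1 - p.1| ≤ Λ / (Λ - 1) * (|(p'.1 + p'.2) - (p.1 + p.2)| + 6 / N) ∧
    |p'.2 - p.2| ≤ Λ / (Λ - 1) * (|(p'.1 + p'.2) - (p.1 + p.2)| + 6 / N) := by
  push Not at h
  obtain ⟨q, hq, q', hq', hcone⟩ := h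
  obtain ⟨c1, c2⟩ := cone_aux hΛ hcone
  obtain ⟨d1, d2⟩ := cell_diff hp hq
  obtain ⟨d3, d4⟩ := cell_diff hp' hq'
  have h0 : 0 < Λ - 1 := by linarith
  have hC : 1 ≤ Λ / (Λ - 1) := by rw [le_div_iff₀ h0]; linarith
  set C := Λ / (Λ - 1) with hCdef
  have hN' : (0 : ℝ) ≤ 1 / N := by positivity
  have e6 : (6 : ℝ) / N = 6 * (1 / N) := by ring
  have h1 : |q'.1 - q.1 + (q'.2 - q.2)| ≤ |(p'.1 + p'.2) - (p.1 + p.2)| + 4 * (1 / N) := by
    rw [abs_le] at d1 d2 d3 d4 ⊢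
    have h5 := neg_abs_le ((p'.1 + p'.2) - (p.1 + p.2))
    have h6 := le_abs_self ((p'.1 + p'.2) - (p.1 + p.2))
    constructor <;> linarith
  have h2 : C * |q'.1 - q.1 + (q'.2 - q.2)| ≤
      C * (|(p'.1 + p'.2) - (p.1 + p.2)| + 4 * (1 / N)) :=
    mul_le_mul_of_nonneg_left h1 (by linarith)
  have h3 : 2 * (1 / N) ≤ C * (2 * (1 / (N : ℝ))) := by nlinarith
  rw [e6]
  constructor
  · have h4 : |p'.1 - p.1| ≤ |q'.1 - q.1| + 2 * (1 / N) := by
      rw [abs_le] at d1 d3 ⊢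
      have h5 := neg_abs_le (q'.1 - q.1)
      have h6 := le_abs_self (q'.1 - q.1)
      constructor <;> linarith
    calc |p'.1 - p.1| ≤ |q'.1 - q.1| + 2 * (1 / N) := h4
      _ ≤ C * (|(p'.1 + p'.2) - (p.1 + p.2)| + 4 * (1 / N)) + C * (2 * (1 / (N : ℝ))) := by
        linarith
      _ = C * (|(p'.1 + p'.2) - (p.1 + p.2)| + 6 * (1 / N)) := by ring
  · have h4 : |p'.2 - p.2| ≤ |q'.2 - q.2| + 2 * (1 / N) := by
      rw [abs_le] at d2 d4 ⊢
      have h5 := neg_abs_le (q'.2 - q.2)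
      have h6 := le_abs_self (q'.2 - q.2)
      constructor <;> linarith
    calc |p'.2 - p.2| ≤ |q'.2 - q.2| + 2 * (1 / N) := h4
      _ ≤ C * (|(p'.1 + p'.2) - (p.1 + p.2)| + 4 * (1 / N)) + C * (2 * (1 / (N : ℝ))) := by
        linarith
      _ = C * (|(p'.1 + p'.2) - (p.1 + p.2)| + 6 * (1 / N)) := by ring

/-! ### One coordinate -/

/-- the path of one coordinate moves by at most `1/4` -/
lemma coord (hV : StmtVit) (hP : StmtPath) {L C₀ a₀ s₀ S δ : ℝ} (hL : 0 < L) (hC₀ : 0 < C₀)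
    (ha₀ : 0 < a₀) (hs₀ : 0 < s₀) (hS : s₀ ≤ S) (hδ : 0 ≤ δ) (hδ2 : δ ≤ s₀ * L)
    (hSv : 100 * L * Real.sqrt S * C₀ / a₀ ≤ 1 / 8) (ν : Measure ℝ)
    (hν : ν univ ≤ ENNReal.ofReal C₀) (n : ℕ) (z : ℕ → ℝ) (bad : Finset ℕ)
    (hstep : ∀ k < n, |z (k + 1) - z k| ≤ δ)
    (hgood : ∀ j ≤ n, j ∉ bad → ∃ s : ℝ, s₀ ≤ s ∧ s ≤ S ∧
      ENNReal.ofReal (a₀ * Real.sqrt s) ≤ ν (Metric.ball (z j) (2 * s * L)))
    (hbad : (bad.card : ℝ) * (2 * δ) ≤ 1 / 8) : |z n - z 0| ≤ 1 / 4 := by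
  classical
  set good : Finset ℕ := (Finset.range (n + 1)).filter (fun j => j ∉ bad) with hgooddef
  set T : Set ℝ := (⋃ y ∈ good.image z, Metric.closedBall y (s₀ * L)) ∪
    ⋃ j ∈ bad, Metric.closedBall (z j) δ with hT
  have h1 := hV L C₀ a₀ s₀ S hL hC₀ ha₀ hs₀ hS ν hν (good.image z) (by
    intro y hy
    obtain ⟨j, hj, rfl⟩ := Finset.mem_image.mp hy
    rw [hgooddef, Finset.mem_filter, Finset.mem_range] at hj
    exact hgood j (by omega) hj.2)
  have h2 : volume (⋃ j ∈ bad, Metric.closedBall (z j) δ) ≤ ENNReal.ofReal (1 / 8) := by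
    refine (measure_biUnion_finset_le _ _).trans ?_
    have e : ∀ j ∈ bad, volume (Metric.closedBall (z j) δ) = ENNReal.ofReal (2 * δ) := by
      intro j _
      rw [Real.volume_closedBall]
    rw [Finset.sum_congr rfl e, Finset.sum_const, nsmul_eq_mul, ← ENNReal.ofReal_natCast,
      ← ENNReal.ofReal_mul (Nat.cast_nonneg _)]
    exact ENNReal.ofReal_le_ofReal hbad
  have h3 := hP n z δ T hstep (by
    intro k hk
    by_cases hkb : k ∈ bad
    · refine subset_union_of_subset_right ?_ _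
      exact fun y hy => mem_iUnion₂.mpr ⟨k, hkb, hy⟩
    · refine subset_union_of_subset_left (subset_iUnion₂_of_subset (z k) ?_
        (Metric.closedBall_subset_closedBall hδ2)) _
      exact Finset.mem_image_of_mem z (Finset.mem_filter.mpr
        ⟨Finset.mem_range.mpr (by omega), hkb⟩))
  have h4 : volume T ≤ ENNReal.ofReal (1 / 4) := by
    calc volume T ≤ ENNReal.ofReal (100 * L * Real.sqrt S * C₀ / a₀) + ENNReal.ofReal (1 / 8) :=
        (measure_union_le _ _).trans (add_le_add h1 h2)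
      _ ≤ ENNReal.ofReal (1 / 8) + ENNReal.ofReal (1 / 8) :=
        add_le_add (ENNReal.ofReal_le_ofReal hSv) le_rfl
      _ = ENNReal.ofReal (1 / 4) := by
        rw [← ENNReal.ofReal_add (by norm_num) (by norm_num)]
        norm_num
  exact (ENNReal.ofReal_le_ofReal_iff (by norm_num)).mp (h3.trans h4)

/-! ### Heavy cells -/

/-- the indices of the cells meeting the square -/
noncomputable def idx (M : ℕ) : Finset (ℤ × ℤ) :=
  Finset.Icc (-(M : ℤ)) M ×ˢ Finset.Icc (-(M : ℤ)) M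

lemma cell_meas (N : ℕ) (k l : ℤ) : MeasurableSet (cell N k l) := by
  have e : cell N k l = (Ico ((k : ℝ) / N) (((k : ℝ) + 1) / N)) ×ˢ
      (Ico ((l : ℝ) / N) (((l : ℝ) + 1) / N)) := by
    ext p
    constructor
    · rintro ⟨h1, h2, h3, h4⟩
      exact ⟨⟨h1, h2⟩, ⟨h3, h4⟩⟩
    · rintro ⟨⟨h1, h2⟩, ⟨h3, h4⟩⟩
      exact ⟨h1, h2, h3, h4⟩
  rw [e]
  exact measurableSet_Ico.prod measurableSet_Ico

/-- the union of the heavy cells -/
def hv (τ : Measure (ℝ × ℝ)) (N M : ℕ) (κ : ℝ) : Set (ℝ × ℝ) :=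
  ⋃ i ∈ (idx M : Set (ℤ × ℤ)) ∩ {i | ENNReal.ofReal κ < τ (cell N i.1 i.2)}, cell N i.1 i.2

lemma hv_meas (τ : Measure (ℝ × ℝ)) (N M : ℕ) (κ : ℝ) : MeasurableSet (hv τ N M κ) :=
  Set.Finite.measurableSet_biUnion ((idx M).finite_toSet.subset inter_subset_left)
    fun i _ => cell_meas N i.1 i.2

lemma mem_hv {τ : Measure (ℝ × ℝ)} {N M : ℕ} {κ : ℝ} {p : ℝ × ℝ} (h : p ∈ hv τ N M κ) :
    ∃ k l : ℤ, ENNReal.ofReal κ < τ (cell N k l) ∧ p ∈ cell N k l := by
  unfold hv at h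
  rw [mem_iUnion₂] at h
  obtain ⟨i, hi, hp⟩ := h
  exact ⟨i.1, i.2, hi.2, hp⟩

lemma cell_cover {L : ℝ} {N M : ℕ} (hN : 1 ≤ N) (hM : L * N ≤ M) {p : ℝ × ℝ}
    (hp : p ∈ Sq2 L) : ∃ i ∈ idx M, p ∈ cell N i.1 i.2 := by
  have hN0 : (0 : ℝ) < N := by exact_mod_cast hN
  obtain ⟨h1, h2⟩ := hp
  have key : ∀ x : ℝ, |x| < L → -(M : ℤ) ≤ ⌊x * N⌋ ∧ ⌊x * N⌋ ≤ M ∧
      (⌊x * N⌋ : ℝ) / N ≤ x ∧ x < ((⌊x * N⌋ : ℝ) + 1) / N := by
    intro x hx
    rw [abs_lt] at hx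
    refine ⟨?_, ?_, ?_, ?_⟩
    · rw [Int.le_floor]
      push_cast
      nlinarith
    · have h3 : x * N < (M : ℤ) + 1 := by
        push_cast
        nlinarith
      have h4 : (⌊x * N⌋ : ℝ) ≤ x * N := Int.floor_le _
      have h5 : (⌊x * N⌋ : ℝ) < ((M : ℤ) + 1 : ℤ) := by
        push_cast
        push_cast at h3
        linarith
      have h6 : ⌊x * N⌋ < (M : ℤ) + 1 := by exact_mod_cast h5
      omega
    · rw [div_le_iff₀ hN0]
      exact Int.floor_le _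
    · rw [lt_div_iff₀ hN0]
      exact Int.lt_floor_add_one _
  obtain ⟨a1, a2, a3, a4⟩ := key p.1 h1
  obtain ⟨b1, b2, b3, b4⟩ := key p.2 h2
  refine ⟨(⌊p.1 * N⌋, ⌊p.2 * N⌋), ?_, a3, a4, b3, b4⟩
  unfold idx
  rw [Finset.mem_product, Finset.mem_Icc, Finset.mem_Icc]
  exact ⟨⟨a1, a2⟩, ⟨b1, b2⟩⟩

/-- the light part of the square has small mass -/
lemma light_le (τ : Measure (ℝ × ℝ)) {L : ℝ} {N M : ℕ} (hN : 1 ≤ N) (hM : L * N ≤ M) (κ : ℝ) :
    τ (Sq2 L \ hv τ N M κ) ≤ (idx M).card * ENNReal.ofReal κ := by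
  classical
  have h1 : Sq2 L \ hv τ N M κ ⊆
      ⋃ i ∈ (idx M).filter (fun i => τ (cell N i.1 i.2) ≤ ENNReal.ofReal κ), cell N i.1 i.2 := by
    rintro p ⟨hp, hnp⟩
    obtain ⟨i, hi, hpi⟩ := cell_cover hN hM hp
    rw [mem_iUnion₂]
    refine ⟨i, ?_, hpi⟩
    rw [Finset.mem_filter]
    refine ⟨hi, ?_⟩
    by_contra hlt
    rw [not_le] at hlt
    apply hnp
    unfold hv
    rw [mem_iUnion₂]
    exact ⟨i, ⟨hi, hlt⟩, hpi⟩
  calc τ (Sq2 L \ hv τ N M κ) ≤ _ := measure_mono h1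
    _ ≤ ∑ i ∈ (idx M).filter (fun i => τ (cell N i.1 i.2) ≤ ENNReal.ofReal κ),
        τ (cell N i.1 i.2) := measure_biUnion_finset_le _ _
    _ ≤ ∑ _i ∈ (idx M).filter (fun i => τ (cell N i.1 i.2) ≤ ENNReal.ofReal κ),
        ENNReal.ofReal κ := Finset.sum_le_sum fun i hi => (Finset.mem_filter.mp hi).2
    _ = ((idx M).filter (fun i => τ (cell N i.1 i.2) ≤ ENNReal.ofReal κ)).card *
        ENNReal.ofReal κ := by rw [Finset.sum_const, nsmul_eq_mul]
    _ ≤ (idx M).card * ENNReal.ofReal κ := by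
      refine mul_le_mul' ?_ le_rfl
      exact_mod_cast Finset.card_filter_le _ _

/-- the strips -/
def strip (N : ℕ) (L : ℝ) (k : ℤ) : Set (ℝ × ℝ) :=
  {p | (k : ℝ) / N ≤ p.1 + p.2 ∧ p.1 + p.2 < (k + 1) / N} ∩ Sq2 L

lemma sq2_meas (L : ℝ) : MeasurableSet (Sq2 L) := by
  have e : Sq2 L = {p : ℝ × ℝ | |p.1| < L} ∩ {p : ℝ × ℝ | |p.2| < L} := rfl
  rw [e]
  exact (measurableSet_lt (f := fun p : ℝ × ℝ => |p.1|) (by fun_prop) measurable_const).inter
    (measurableSet_lt (f := fun p : ℝ × ℝ => |p.2|) (by fun_prop) measurable_const)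

lemma strip_meas (N : ℕ) (L : ℝ) (k : ℤ) : MeasurableSet (strip N L k) := by
  unfold strip
  refine MeasurableSet.inter ?_ (sq2_meas L)
  exact (measurableSet_le (g := fun p : ℝ × ℝ => p.1 + p.2) measurable_const
    (by fun_prop)).inter
    (measurableSet_lt (f := fun p : ℝ × ℝ => p.1 + p.2) (by fun_prop) measurable_const)

/-- a strip has much heavy mass -/
lemma strip_heavy {τ : Measure (ℝ × ℝ)} {L : ℝ} {N M : ℕ} (hN : 1 ≤ N) (hM : L * N ≤ M)
    {κ a₁ a : ℝ} (ha₁ : 0 < a₁) (haa : a₁ ≤ a) (hκ : 0 < κ)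
    (hκ2 : κ * (8 * N * ((idx M).card + 1)) ≤ a₁) {k : ℤ}
    (hc1 : ENNReal.ofReal ((a - κ) / N) ≤ τ (strip N L k)) :
    ENNReal.ofReal (a₁ / (2 * N)) ≤ τ (strip N L k ∩ hv τ N M κ) := by
  have hN0 : (0 : ℝ) < N := by exact_mod_cast hN
  have hN1 : (1 : ℝ) ≤ N := by exact_mod_cast hN
  set I : ℝ := ((idx M).card : ℝ) with hI
  have hI0 : 0 ≤ I := Nat.cast_nonneg _
  have h1 : τ (strip N L k) ≤ τ (strip N L k ∩ hv τ N M κ) + ENNReal.ofReal (I * κ) := by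
    refine (measure_le_inter_add_sdiff τ (strip N L k) (hv τ N M κ)).trans ?_
    refine add_le_add le_rfl ?_
    have h2 : strip N L k \ hv τ N M κ ⊆ Sq2 L \ hv τ N M κ :=
      sdiff_subset_sdiff_left inter_subset_right
    refine (measure_mono h2).trans ((light_le τ hN hM κ).trans (le_of_eq ?_))
    rw [ENNReal.ofReal_mul hI0, hI, ENNReal.ofReal_natCast]
  have h3 : a₁ / (2 * N) + I * κ ≤ (a - κ) / N := by
    rw [div_add' _ _ _ (by positivity), div_le_div_iff₀ (by positivity) hN0]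
    have h4 : κ * (8 * N * I) + κ * (8 * N) ≤ a₁ := by
      calc κ * (8 * N * I) + κ * (8 * N) = κ * (8 * N * (I + 1)) := by ring
        _ ≤ a₁ := hκ2
    have h5 : 0 ≤ κ * I := mul_nonneg hκ.le hI0
    have h6 : κ * 1 ≤ κ * N := mul_le_mul_of_nonneg_left hN1 hκ.le
    have h7 : (a₁ + I * κ * (2 * N)) ≤ (a - κ) * 2 := by nlinarith
    calc (a₁ + I * κ * (2 * N)) * N ≤ ((a - κ) * 2) * N := mul_le_mul_of_nonneg_right h7 hN0.le
      _ = (a - κ) * (2 * N) := by ring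
  have h8 : ENNReal.ofReal (a₁ / (2 * N)) + ENNReal.ofReal (I * κ) ≤
      τ (strip N L k ∩ hv τ N M κ) + ENNReal.ofReal (I * κ) := by
    rw [← ENNReal.ofReal_add (by positivity) (by positivity)]
    exact (ENNReal.ofReal_le_ofReal h3).trans (hc1.trans h1)
  exact (ENNReal.add_le_add_iff_right ENNReal.ofReal_ne_top).mp h8

end CombM

open CombM in
theorem stmtComb (hV : StmtVit) (hP : StmtPath) : StmtComb := by
  classical
  intro a₁ a₂ L Λ C₀ ha₁ _ hL hΛ hC₀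
  have h0 : 0 < Λ - 1 := by linarith
  have hC : 1 ≤ Λ / (Λ - 1) := by rw [le_div_iff₀ h0]; linarith
  set C := Λ / (Λ - 1) with hCdef
  have hL0 : 0 < L := by linarith
  refine ⟨a₁ / (256 * C), by positivity, fun a₀ ha₀ => ?_⟩
  set rS : ℝ := min 1 (a₀ / (800 * L * C₀)) with hrS
  have hrS0 : 0 < rS := lt_min zero_lt_one (by positivity)
  have hrS1 : rS ≤ 1 := min_le_left _ _
  have hrS2 : rS ≤ a₀ / (800 * L * C₀) := min_le_right _ _
  refine ⟨rS ^ 2, by positivity, fun s₀ hs₀ hs₀S => ?_⟩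
  have hsqrt : Real.sqrt (rS ^ 2) = rS := Real.sqrt_sq hrS0.le
  have hS1 : rS ^ 2 ≤ 1 := by nlinarith
  set N : ℕ := ⌈8 * C / (s₀ * L)⌉₊ + 2 with hNdef
  have hN2 : 2 ≤ N := by omega
  have hN1 : 1 ≤ N := by omega
  have hNr : (2 : ℝ) ≤ N := by exact_mod_cast hN2
  have hN0 : (0 : ℝ) < N := by linarith
  set M : ℕ := ⌈L * N⌉₊ with hMdef
  have hM : L * N ≤ M := Nat.le_ceil _
  set κ : ℝ := a₁ / (8 * N * ((idx M).card + 1)) with hκdef
  have hκ0 : 0 < κ := by positivity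
  have hκ2 : κ * (8 * N * ((idx M).card + 1)) ≤ a₁ := by
    rw [hκdef, div_mul_cancel₀]
    positivity
  refine ⟨N, κ, hN1, hκ0, ?_⟩
  intro τ a 𝒩 haa _ h𝒩 c1 c2 c3 c4 c5
  set δ : ℝ := 8 * C / N with hδdef
  have hδ0 : 0 ≤ δ := by positivity
  have hδ2 : δ ≤ s₀ * L := by
    rw [hδdef, div_le_iff₀ hN0]
    have h1 : 8 * C / (s₀ * L) ≤ N := by
      rw [hNdef]
      push_cast
      have := Nat.le_ceil (8 * C / (s₀ * L))
      linarith
    rw [div_le_iff₀ (by positivity)] at h1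
    linarith
  have hSv : 100 * L * Real.sqrt (rS ^ 2) * C₀ / a₀ ≤ 1 / 8 := by
    rw [hsqrt, div_le_iff₀ ha₀]
    rw [le_div_iff₀ (by positivity)] at hrS2
    linarith
  -- the index of the strip
  set kk : ℕ → ℤ := fun j => (j : ℤ) - N with hkk
  have hkr : ∀ j < 2 * N, -(N : ℤ) ≤ kk j ∧ kk j < N := by
    intro j hj
    rw [hkk]
    dsimp only
    omega
  have hheavy : ∀ j < 2 * N,
      ENNReal.ofReal (a₁ / (2 * N)) ≤ τ (strip N L (kk j) ∩ hv τ N M κ) := fun j hj =>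
    strip_heavy hN1 hM ha₁ haa hκ0 hκ2 (c1 (kk j) (hkr j hj).1 (hkr j hj).2)
  have hpick : ∀ j < 2 * N, ∃ q : ℝ × ℝ, q ∈ strip N L (kk j) ∩ hv τ N M κ ∧
      (q ∈ 𝒩 → strip N L (kk j) ∩ hv τ N M κ ⊆ 𝒩) := by
    intro j hj
    by_cases h : strip N L (kk j) ∩ hv τ N M κ ⊆ 𝒩
    · have hne : (strip N L (kk j) ∩ hv τ N M κ).Nonempty := by
        rw [nonempty_iff_ne_empty]
        intro he
        have h1 := hheavy j hj
        rw [he, measure_empty, nonpos_iff_eq_zero, ENNReal.ofReal_eq_zero] at h1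
        have h2 : 0 < a₁ / (2 * N) := by positivity
        linarith
      obtain ⟨q, hq⟩ := hne
      exact ⟨q, hq, fun _ => h⟩
    · obtain ⟨q, hq, hqN⟩ := not_subset.mp h
      exact ⟨q, hq, fun h2 => absurd h2 hqN⟩
  choose! q hq hqN using hpick
  -- steps
  have hclose : ∀ i < 2 * N, ∀ j < 2 * N,
      |(q j).1 - (q i).1| ≤ C * (|((q j).1 + (q j).2) - ((q i).1 + (q i).2)| + 6 / N) ∧
      |(q j).2 - (q i).2| ≤ C * (|((q j).1 + (q j).2) - ((q i).1 + (q i).2)| + 6 / N) := by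
    intro i hi j hj
    obtain ⟨⟨_, hs1⟩, hh1⟩ := hq i hi
    obtain ⟨⟨_, hs2⟩, hh2⟩ := hq j hj
    obtain ⟨k, l, hk, hkm⟩ := mem_hv hh1
    obtain ⟨k', l', hk', hkm'⟩ := mem_hv hh2
    refine close_of_not_cone hΛ (fun hall => ?_) hkm hkm'
    rcases c4 k l k' l' ⟨_, hkm, hs1⟩ ⟨_, hkm', hs2⟩ hall with h | h
    · exact absurd hk (not_lt.mpr h)
    · exact absurd hk' (not_lt.mpr h)
  have hsig : ∀ j < 2 * N, ((kk j : ℤ) : ℝ) / N ≤ (q j).1 + (q j).2 ∧
      (q j).1 + (q j).2 < ((kk j : ℤ) + 1 : ℝ) / N := fun j hj => (hq j hj).1.1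
  have hstep : ∀ j < 2 * N - 1, |(q (j + 1)).1 - (q j).1| ≤ δ ∧
      |(q (j + 1)).2 - (q j).2| ≤ δ := by
    intro j hj
    have h1 := hclose j (by omega) (j + 1) (by omega)
    have h2 := hsig j (by omega)
    have h3 := hsig (j + 1) (by omega)
    have e1 : ((kk (j + 1) : ℤ) : ℝ) = ((kk j : ℤ) : ℝ) + 1 := by
      rw [hkk]
      push_cast
      ring
    rw [e1] at h3
    have h4 : |((q (j + 1)).1 + (q (j + 1)).2) - ((q j).1 + (q j).2)| ≤ 2 / N := by
      obtain ⟨h5, h6⟩ := h2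
      obtain ⟨h7, h8⟩ := h3
      rw [add_div] at h6 h7
      rw [add_div, add_div] at h8
      have e2 : (2 : ℝ) / N = 1 / N + 1 / N := by ring
      have h9 : (0 : ℝ) ≤ 1 / N := by positivity
      rw [e2, abs_le]
      constructor <;> linarith
    have h5 : C * (|((q (j + 1)).1 + (q (j + 1)).2) - ((q j).1 + (q j).2)| + 6 / N) ≤ δ := by
      have h6 : C * (|((q (j + 1)).1 + (q (j + 1)).2) - ((q j).1 + (q j).2)| + 6 / N) ≤
          C * (2 / N + 6 / N) := mul_le_mul_of_nonneg_left (by linarith) (by linarith)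
      refine h6.trans (le_of_eq ?_)
      rw [hδdef]
      ring
    exact ⟨h1.1.trans h5, h1.2.trans h5⟩
  -- bad strips
  set bad : Finset ℕ := (Finset.range (2 * N)).filter (fun j => q j ∈ 𝒩) with hbaddef
  have hbadcard : (bad.card : ℝ) * (2 * δ) ≤ 1 / 8 := by
    have h1 : ∑ j ∈ bad, τ (strip N L (kk j) ∩ hv τ N M κ) ≤ τ 𝒩 := by
      rw [← measure_biUnion_finset]
      · refine measure_mono (iUnion₂_subset fun j hj => ?_)
        rw [hbaddef, Finset.mem_filter, Finset.mem_range] at hj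
        exact hqN j hj.1 hj.2
      · intro i _ j _ hij
        refine Set.disjoint_left.mpr ?_
        rintro p ⟨⟨hp1, _⟩, _⟩ ⟨⟨hp2, _⟩, _⟩
        apply hij
        obtain ⟨h2, h3⟩ := hp1
        obtain ⟨h4, h5⟩ := hp2
        have h6 : ((kk i : ℤ) : ℝ) < (kk j : ℤ) + 1 := by
          have := h2.trans_lt h5
          rwa [div_lt_div_iff_of_pos_right hN0] at this
        have h7 : ((kk j : ℤ) : ℝ) < (kk i : ℤ) + 1 := by
          have := h4.trans_lt h3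
          rwa [div_lt_div_iff_of_pos_right hN0] at this
        have h8 : kk i < kk j + 1 := by exact_mod_cast h6
        have h9 : kk j < kk i + 1 := by exact_mod_cast h7
        rw [hkk] at h8 h9
        dsimp only at h8 h9
        omega
      · intro j _
        exact (strip_meas N L (kk j)).inter (hv_meas τ N M κ)
    have h2 : (bad.card : ℝ≥0∞) * ENNReal.ofReal (a₁ / (2 * N)) ≤
        ENNReal.ofReal (a₁ / (256 * C)) := by
      refine le_trans ?_ (h1.trans c3)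
      rw [← nsmul_eq_mul, ← Finset.sum_const]
      refine Finset.sum_le_sum fun j hj => hheavy j ?_
      rw [hbaddef, Finset.mem_filter, Finset.mem_range] at hj
      exact hj.1
    rw [← ENNReal.ofReal_natCast, ← ENNReal.ofReal_mul (Nat.cast_nonneg _),
      ENNReal.ofReal_le_ofReal_iff (by positivity)] at h2
    have h3 : (bad.card : ℝ) * (2 * δ) = ((bad.card : ℝ) * (a₁ / (2 * N))) * (32 * C / a₁) := by
      rw [hδdef]
      field_simp
      ring
    rw [h3]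
    calc ((bad.card : ℝ) * (a₁ / (2 * N))) * (32 * C / a₁) ≤
        (a₁ / (256 * C)) * (32 * C / a₁) := mul_le_mul_of_nonneg_right h2 (by positivity)
      _ = 1 / 8 := by
        field_simp
        norm_num
  -- the measures on the line
  have hgood : ∀ j ≤ 2 * N - 1, j ∉ bad → q j ∈ Sq2 L \ 𝒩 := by
    intro j hj hjb
    have hj2 : j < 2 * N := by omega
    refine ⟨(hq j hj2).1.2, fun h => hjb ?_⟩
    rw [hbaddef, Finset.mem_filter, Finset.mem_range]
    exact ⟨hj2, h⟩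
  have hy := coord hV hP hL0 hC₀ ha₀ hs₀ hs₀S hδ0 hδ2 hSv
    ((τ.restrict (Sq2 (4 * L))).map Prod.snd) (by
      rw [Measure.map_apply measurable_snd MeasurableSet.univ, preimage_univ,
        Measure.restrict_apply_univ]
      exact c2) (2 * N - 1) (fun j => (q j).2) bad (fun j hj => (hstep j hj).2) (by
      intro j hj hjb
      have hqg := hgood j hj hjb
      obtain ⟨s, hs1, hs2, hs3⟩ := (c5 (q j) hqg).1
      refine ⟨s, hs1, hs2, hs3.trans ?_⟩
      rw [Measure.map_apply measurable_snd Metric.isOpen_ball.measurableSet,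
        Measure.restrict_apply (measurable_snd Metric.isOpen_ball.measurableSet)]
      refine measure_mono ?_
      rintro p ⟨h1, h2⟩
      obtain ⟨⟨h3, h4⟩, _⟩ := hqg
      refine ⟨?_, ?_, ?_⟩
      · change p.2 ∈ Metric.ball (q j).2 (2 * s * L)
        rw [Metric.mem_ball, Real.dist_eq]
        exact h2
      · rw [abs_lt] at h1 h3 ⊢
        constructor <;> linarith
      · have h5 : 2 * s * L ≤ 2 * L := by nlinarith
        rw [abs_lt] at h2 h4 ⊢
        constructor <;> linarith) hbadcard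
  have hx := coord hV hP hL0 hC₀ ha₀ hs₀ hs₀S hδ0 hδ2 hSv
    ((τ.restrict (Sq2 (4 * L))).map Prod.fst) (by
      rw [Measure.map_apply measurable_fst MeasurableSet.univ, preimage_univ,
        Measure.restrict_apply_univ]
      exact c2) (2 * N - 1) (fun j => (q j).1) bad (fun j hj => (hstep j hj).1) (by
      intro j hj hjb
      have hqg := hgood j hj hjb
      obtain ⟨s, hs1, hs2, hs3⟩ := (c5 (q j) hqg).2
      refine ⟨s, hs1, hs2, hs3.trans ?_⟩
      rw [Measure.map_apply measurable_fst Metric.isOpen_ball.measurableSet,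
        Measure.restrict_apply (measurable_fst Metric.isOpen_ball.measurableSet)]
      refine measure_mono ?_
      rintro p ⟨h1, h2⟩
      obtain ⟨⟨h3, h4⟩, _⟩ := hqg
      refine ⟨?_, ?_, ?_⟩
      · change p.1 ∈ Metric.ball (q j).1 (2 * s * L)
        rw [Metric.mem_ball, Real.dist_eq]
        exact h1
      · have h5 : 2 * s * L ≤ 2 * L := by nlinarith
        rw [abs_lt] at h1 h3 ⊢
        constructor <;> linarith
      · rw [abs_lt] at h2 h4 ⊢
        constructor <;> linarith) hbadcard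
  have hs1 := (hsig 0 (by omega)).2
  have hs2 := (hsig (2 * N - 1) (by omega)).1
  have e0 : ((kk 0 : ℤ) : ℝ) = -N := by
    rw [hkk]
    push_cast
    ring
  have e1 : ((kk (2 * N - 1) : ℤ) : ℝ) = N - 1 := by
    rw [hkk]
    dsimp only
    have : ((2 * N - 1 : ℕ) : ℤ) - N = (N : ℤ) - 1 := by omega
    rw [this]
    push_cast
    ring
  rw [e0] at hs1
  rw [e1] at hs2
  have h1 : ((N : ℝ) - 1) / N = 1 - 1 / N := by
    field_simp
  have h2 : (-(N : ℝ) + 1) / N = -1 + 1 / N := by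
    field_simp
  have h3 : (1 : ℝ) / N ≤ 1 / 2 := by
    rw [div_le_div_iff₀ hN0 (by norm_num)]
    linarith
  rw [h2] at hs1
  rw [h1] at hs2
  rw [abs_le] at hx hy
  linarith [hx.2, hy.2]

end Pool.Agent.A54.Dyn
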