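import Pool.Agent.Lib.MP_a54f13_nt.Dyn.Spec3

/-!
Cubic moments, with no ergodicity assumption.
-/

set_option autoImplicit false

namespace Pool.Agent.A54

open MeasureTheory Filter Topology Set
open scoped ContDiff ComplexConjugate

noncomputable section

namespace CubicSM

variable {V : Set ℂ} {q : ℂ → ℝ}

lemma contDiff_ss (hP : Pot V q) {f : ℂ → ℝ} (hf : ContDiff ℝ ∞ f) (h : ℝ) (a : ℤ) :
    ContDiff ℝ ∞ (ss q h f a) := by
  cases a with
  | ofNat n => exact contDiff_gg hf h n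
  | negSucc n =>
    have h1 : ContDiff ℝ ∞ (fun z => conj (gg h f (n + 1) z)) := contDiff_conj (contDiff_gg hf h _)
    have h2 : ContDiff ℝ ∞ (fun z => (q z : ℂ) ^ (n + 1)) := (contDiff_ofReal hP.smooth).pow _
    have h3 : ContDiff ℝ ∞ (fun z => ((-1 : ℂ) ^ (n + 1) * conj (gg h f (n + 1) z)) *
        ((q z : ℂ) ^ (n + 1))⁻¹) := (contDiff_const.mul h1).mul (h2.inv fun z => pow_ne_zero _ (by
      exact_mod_cast (hP.pos z).ne'))
    exact h3

lemma contDiff_sm_cont {f : ℂ → ℝ} (hf : ContDiff ℝ ∞ f) (h : ℝ) (N : ℕ) :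
    Continuous (sm h f N) := by
  unfold sm
  exact continuous_finsetSum _ fun j _ => (contDiff_gg hf h j).continuous.norm

lemma sm_nonneg (h : ℝ) (f : ℂ → ℝ) (N : ℕ) (z : ℂ) : 0 ≤ sm h f N z :=
  Finset.sum_nonneg fun _ _ => norm_nonneg _

lemma sm_mono (h : ℝ) (f : ℂ → ℝ) {m N : ℕ} (hmN : m ≤ N) (z : ℂ) : sm h f m z ≤ sm h f N z :=
  Finset.sum_le_sum_of_subset_of_nonneg (Finset.range_mono (by omega))
    fun _ _ _ => norm_nonneg _

lemma gg_le_sm (h : ℝ) (f : ℂ → ℝ) {m N : ℕ} (hmN : m ≤ N) (z : ℂ) :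
    ‖gg h f m z‖ ≤ sm h f N z :=
  Finset.single_le_sum (f := fun j => ‖gg h f j z‖) (fun _ _ => norm_nonneg _)
    (Finset.mem_range.2 (by omega))

lemma ss_bound (hP : Pot V q) {K : Set ℂ} (hK : IsCompact K) (a : ℤ) {N : ℕ}
    (hN : a.natAbs ≤ N) : ∃ C : ℝ, 0 ≤ C ∧ ∀ (h : ℝ) (f : ℂ → ℝ), ∀ z ∈ K,
      ‖ss q h f a z‖ ≤ C * sm h f N z := by
  cases a with
  | ofNat n =>
    refine ⟨1, zero_le_one, fun h f z _ => ?_⟩
    rw [one_mul]
    exact gg_le_sm h f (by simpa using hN) z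
  | negSucc n =>
    have hc : ContinuousOn (fun z => ((q z) ^ (n + 1))⁻¹) K :=
      ((hP.smooth.continuous.pow _).inv₀ fun z => pow_ne_zero _ (hP.pos z).ne').continuousOn
    obtain ⟨C, hC⟩ := hK.exists_bound_of_continuousOn hc
    refine ⟨|C|, abs_nonneg _, fun h f z hz => ?_⟩
    have h1 : ‖ss q h f (Int.negSucc n) z‖ = ((q z) ^ (n + 1))⁻¹ * ‖gg h f (n + 1) z‖ := by
      simp only [ss]
      rw [norm_div, norm_mul, norm_pow, norm_neg, norm_one, one_pow, one_mul, norm_pow,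
        Complex.norm_real, Real.norm_of_nonneg (hP.pos z).le, RCLike.norm_conj]
      rw [div_eq_inv_mul]
    rw [h1]
    have h2 := hC z hz
    rw [Real.norm_of_nonneg (by have := hP.pos z; positivity)] at h2
    exact mul_le_mul (h2.trans (le_abs_self C)) (gg_le_sm h f (by simpa using hN) z)
      (norm_nonneg _) (abs_nonneg _)

/-- Uniform bound of the cubic integrals. -/
lemma bdd (hL : StmtL4) {h : ℕ → ℝ} {f : ℕ → ℂ → ℝ} (hS : Seq V q h f) (hB : L4Bdd V f)
    {φ : ℂ → ℂ} (hφ : Test V φ) (N : ℕ) :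
    ∃ B : ℝ, ∀ i, ∫ z, ‖φ z‖ * sm (h i) (f i) N z ^ 3 ≤ B := by
  obtain ⟨ζ, hζ, hζ01, hζ1⟩ := exists_cutoff hφ.cpt hS.pot.isOpen hφ.sub
  have hζ1' : ∀ z ∈ tsupport φ, ζ z = 1 := fun z hz => hζ1.self_of_nhdsSet z hz
  obtain ⟨M, hM⟩ := hφ.cpt.exists_bound_of_continuous hφ.smooth.continuous
  have hM0 : 0 ≤ M := (norm_nonneg _).trans (hM 0)
  choose ζ' C' hζ' hC'0 hC' using fun n : ℕ => hL V q hS.pot n ζ hζ
  choose B' hB' using fun n : ℕ => hB (ζ' n) (hζ' n)
  have hint4 : ∀ i j, Integrable (fun z => ζ z ^ 4 * ‖gg (h i) (f i) j z‖ ^ 4) := by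
    intro i j
    refine Continuous.integrable_of_hasCompactSupport ?_ ?_
    · exact (hζ.smooth.continuous.pow 4).mul
        ((contDiff_gg (hS.sol i).smooth (h i) j).continuous.norm.pow 4)
    · exact HasCompactSupport.mul_right (hζ.cpt.comp_left (g := fun x : ℝ => x ^ 4) (by simp))
  have hintζ : Integrable (fun z => ζ z ^ 4) := by
    refine Continuous.integrable_of_hasCompactSupport (hζ.smooth.continuous.pow 4) ?_
    exact hζ.cpt.comp_left (g := fun x : ℝ => x ^ 4) (by simp)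
  refine ⟨M * (∫ z, ζ z ^ 4) + M * ((N + 1 : ℕ) : ℝ) ^ 3 *
    ∑ j ∈ Finset.range (N + 1), |C' j| * |B' j|, fun i => ?_⟩
  have hint : Integrable (fun z => ‖φ z‖ * sm (h i) (f i) N z ^ 3) := by
    refine Continuous.integrable_of_hasCompactSupport ?_ ?_
    · exact hφ.smooth.continuous.norm.mul ((contDiff_sm_cont (hS.sol i).smooth (h i) N).pow 3)
    · exact HasCompactSupport.mul_right hφ.cpt.norm
  have hpt : ∀ z, ‖φ z‖ * sm (h i) (f i) N z ^ 3 ≤ M * ζ z ^ 4 +
      M * ((N + 1 : ℕ) : ℝ) ^ 3 *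
        ∑ j ∈ Finset.range (N + 1), ζ z ^ 4 * ‖gg (h i) (f i) j z‖ ^ 4 := by
    intro z
    by_cases hz : z ∈ tsupport φ
    · rw [hζ1' z hz]
      simp only [one_pow, one_mul, mul_one]
      set s := sm (h i) (f i) N z with hs
      have hs0 : 0 ≤ s := sm_nonneg _ _ _ _
      have h1 : s ^ 3 ≤ 1 + s ^ 4 := by nlinarith [sq_nonneg (s ^ 2 - s), sq_nonneg (s - 1), sq_nonneg s]
      have h2 : s ^ 2 ≤ ((N + 1 : ℕ) : ℝ) * ∑ j ∈ Finset.range (N + 1),
          ‖gg (h i) (f i) j z‖ ^ 2 := by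
        have := sq_sum_le_card_mul_sum_sq (s := Finset.range (N + 1))
          (f := fun j => ‖gg (h i) (f i) j z‖)
        rwa [Finset.card_range] at this
      have h3 : (∑ j ∈ Finset.range (N + 1), ‖gg (h i) (f i) j z‖ ^ 2) ^ 2 ≤
          ((N + 1 : ℕ) : ℝ) * ∑ j ∈ Finset.range (N + 1), ‖gg (h i) (f i) j z‖ ^ 4 := by
        have := sq_sum_le_card_mul_sum_sq (s := Finset.range (N + 1))
          (f := fun j => ‖gg (h i) (f i) j z‖ ^ 2)
        rw [Finset.card_range] at this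
        refine this.trans (le_of_eq ?_)
        congr 1
        exact Finset.sum_congr rfl fun j _ => by ring
      set S2 := ∑ j ∈ Finset.range (N + 1), ‖gg (h i) (f i) j z‖ ^ 2 with hS2
      set S4 := ∑ j ∈ Finset.range (N + 1), ‖gg (h i) (f i) j z‖ ^ 4 with hS4
      have hS20 : 0 ≤ S2 := Finset.sum_nonneg fun _ _ => by positivity
      have hN0 : (0 : ℝ) ≤ ((N + 1 : ℕ) : ℝ) := Nat.cast_nonneg _
      have h4 : s ^ 4 ≤ ((N + 1 : ℕ) : ℝ) ^ 3 * S4 := by
        calc s ^ 4 = (s ^ 2) ^ 2 := by ring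
          _ ≤ (((N + 1 : ℕ) : ℝ) * S2) ^ 2 := by gcongr
          _ = ((N + 1 : ℕ) : ℝ) ^ 2 * S2 ^ 2 := by ring
          _ ≤ ((N + 1 : ℕ) : ℝ) ^ 2 * (((N + 1 : ℕ) : ℝ) * S4) := by gcongr
          _ = _ := by ring
      calc ‖φ z‖ * s ^ 3 ≤ M * (1 + s ^ 4) := by
            apply mul_le_mul (hM z) h1 (by positivity) hM0
        _ ≤ M * (1 + ((N + 1 : ℕ) : ℝ) ^ 3 * S4) := by gcongr
        _ = _ := by ring
    · rw [image_eq_zero_of_notMem_tsupport hz, norm_zero, zero_mul]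
      have : 0 ≤ ∑ j ∈ Finset.range (N + 1), ζ z ^ 4 * ‖gg (h i) (f i) j z‖ ^ 4 :=
        Finset.sum_nonneg fun _ _ => by positivity
      positivity
  have hint2 : Integrable (fun z => ∑ j ∈ Finset.range (N + 1),
      ζ z ^ 4 * ‖gg (h i) (f i) j z‖ ^ 4) := integrable_finsetSum _ fun j _ => hint4 i j
  calc ∫ z, ‖φ z‖ * sm (h i) (f i) N z ^ 3
      ≤ ∫ z, (M * ζ z ^ 4 + M * ((N + 1 : ℕ) : ℝ) ^ 3 *
        ∑ j ∈ Finset.range (N + 1), ζ z ^ 4 * ‖gg (h i) (f i) j z‖ ^ 4) :=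
        integral_mono hint ((hintζ.const_mul M).add (hint2.const_mul _)) hpt
    _ = M * (∫ z, ζ z ^ 4) + M * ((N + 1 : ℕ) : ℝ) ^ 3 *
        ∑ j ∈ Finset.range (N + 1), ∫ z, ζ z ^ 4 * ‖gg (h i) (f i) j z‖ ^ 4 := by
        rw [integral_add (hintζ.const_mul M) (hint2.const_mul _), integral_const_mul,
          integral_const_mul, integral_finsetSum _ fun j _ => hint4 i j]
    _ ≤ _ := by
        gcongr with j hj
        refine (hC' j (h i) (f i) (hS.sol i)).trans ?_
        have h5 := hB' j i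
        have h6 : (0 : ℝ) ≤ ∫ z, ζ' j z ^ 4 * f i z ^ 4 :=
          integral_nonneg fun z => by positivity
        exact mul_le_mul (le_abs_self _) (h5.trans (le_abs_self _)) h6 (abs_nonneg _)

/-- Integrals of small functions. -/
lemma small (hL : StmtL4) {h : ℕ → ℝ} {f : ℕ → ℂ → ℝ} (hS : Seq V q h f) (hB : L4Bdd V f)
    {φ : ℂ → ℂ} (hφ : Test V φ) (N : ℕ) {C : ℝ} (hC : 0 ≤ C) (F : ℕ → ℂ → ℂ)
    (hF : ∀ i z, ‖F i z‖ ≤ h i * (C * (‖φ z‖ * sm (h i) (f i) N z ^ 3))) :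
    Tendsto (fun i => ∫ z, F i z) atTop (𝓝 0) := by
  obtain ⟨B, hB'⟩ := bdd hL hS hB hφ N
  rw [tendsto_zero_iff_norm_tendsto_zero]
  have h1 : Tendsto (fun i => h i * (C * B)) atTop (𝓝 0) := by
    simpa using hS.lim.mul_const (C * B)
  refine squeeze_zero (fun i => norm_nonneg _) (fun i => ?_) h1
  have hint : Integrable (fun z => h i * (C * (‖φ z‖ * sm (h i) (f i) N z ^ 3))) := by
    refine (Integrable.const_mul ?_ _).const_mul _
    refine Continuous.integrable_of_hasCompactSupport ?_ ?_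
    · exact hφ.smooth.continuous.norm.mul ((contDiff_sm_cont (hS.sol i).smooth (h i) N).pow 3)
    · exact HasCompactSupport.mul_right hφ.cpt.norm
  refine (norm_integral_le_of_norm_le hint (Eventually.of_forall (hF i))).trans ?_
  rw [integral_const_mul, integral_const_mul]
  have := (hS.sol i).hpos
  exact mul_le_mul_of_nonneg_left (mul_le_mul_of_nonneg_left (hB' i) hC) this.le

/-- The cubic integrals. -/
def TT (q : ℂ → ℝ) (h : ℕ → ℝ) (f : ℕ → ℂ → ℝ) (φ : ℂ → ℂ) (a b c : ℤ) (i : ℕ) : ℂ :=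
  ∫ z, φ z * (ss q (h i) (f i) a z * ss q (h i) (f i) b z * ss q (h i) (f i) c z)

lemma tt_comm1 (h : ℕ → ℝ) (f : ℕ → ℂ → ℝ) (φ : ℂ → ℂ) (a b c : ℤ) (i : ℕ) :
    TT q h f φ a b c i = TT q h f φ b a c i := by
  unfold TT
  congr 1
  ext z
  ring

lemma tt_comm2 (h : ℕ → ℝ) (f : ℕ → ℂ → ℝ) (φ : ℂ → ℂ) (a b c : ℤ) (i : ℕ) :
    TT q h f φ a b c i = TT q h f φ a c b i := by
  unfold TT
  congr 1
  ext z
  ring

lemma tt_integrable (hP : Pot V q) {h : ℝ} {f : ℂ → ℝ} (hf : ContDiff ℝ ∞ f) {φ : ℂ → ℂ}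
    (hφ : Test V φ) (a b c : ℤ) :
    Integrable (fun z => φ z * (ss q h f a z * ss q h f b z * ss q h f c z)) :=
  (hφ.mul_right (((contDiff_ss hP hf h a).mul (contDiff_ss hP hf h b)).mul
    (contDiff_ss hP hf h c))).integrable

/-- bound of a triple product with one error factor -/
lemma triple_bound {x y w : ℂ} {X Y W m e : ℝ} (hm : 0 ≤ m) (hX : 0 ≤ X) (hY : 0 ≤ Y)
    (hx : ‖x‖ ≤ X * m) (hy : ‖y‖ ≤ Y * m) (hw : ‖w‖ ≤ e * (W * m)) :
    ‖x * y * w‖ ≤ e * (X * Y * W * m ^ 3) := by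
  rw [norm_mul, norm_mul]
  calc ‖x‖ * ‖y‖ * ‖w‖ ≤ (X * m) * (Y * m) * (e * (W * m)) := by gcongr
    _ = _ := by ring

lemma int_sub4 {F P A B C : ℂ → ℂ} (hP : Integrable P) (hA : Integrable A) (hB : Integrable B)
    (hC : Integrable C) (hF : ∀ z, F z = P z - (A z + B z + C z)) :
    ∫ z, F z = (∫ z, P z) - ((∫ z, A z) + (∫ z, B z) + ∫ z, C z) := by
  have e1 : ∫ z, F z = ∫ z, (P z - (A z + B z + C z)) := by
    congr 1
    ext z
    exact hF z
  have hAB : Integrable (fun z => A z + B z) := hA.add hB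
  have hABC : Integrable (fun z => A z + B z + C z) := hAB.add hC
  rw [e1, integral_sub hP hABC, integral_add hAB hC, integral_add hA hB]

lemma int_add4 {F P A B C : ℂ → ℂ} (hP : Integrable P) (hA : Integrable A) (hB : Integrable B)
    (hC : Integrable C) (hF : ∀ z, F z = P z + (A z + B z + C z)) :
    ∫ z, F z = (∫ z, P z) + ((∫ z, A z) + (∫ z, B z) + ∫ z, C z) := by
  have e1 : ∫ z, F z = ∫ z, (P z + (A z + B z + C z)) := by
    congr 1
    ext z
    exact hF z
  have hAB : Integrable (fun z => A z + B z) := hA.add hB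
  have hABC : Integrable (fun z => A z + B z + C z) := hAB.add hC
  rw [e1, integral_add hP hABC, integral_add hAB hC, integral_add hA hB]

/-- first relation -/
lemma rel1 (hZ : StmtErrZ) (hL : StmtL4) {h : ℕ → ℝ} {f : ℕ → ℂ → ℝ} (hS : Seq V q h f)
    (hB : L4Bdd V f) {φ : ℂ → ℂ} (hφ : Test V φ) (a b c : ℤ) :
    Tendsto (fun i => TT q h f φ (a + 1) b c i + TT q h f φ a (b + 1) c i +
      TT q h f φ a b (c + 1) i) atTop (𝓝 0) := by
  have hP := hS.pot
  set N := max (a.natAbs + 1) (max (b.natAbs + 1) (c.natAbs + 1)) with hN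
  have hNa : a.natAbs + 1 ≤ N := le_max_left _ _
  have hNb : b.natAbs + 1 ≤ N := (le_max_left _ _).trans (le_max_right _ _)
  have hNc : c.natAbs + 1 ≤ N := (le_max_right _ _).trans (le_max_right _ _)
  set K := tsupport φ with hKdef
  have hK : IsCompact K := hφ.cpt
  obtain ⟨Ca, hCa0, hCa⟩ := ss_bound hP hK a (N := N) (by omega)
  obtain ⟨Cb, hCb0, hCb⟩ := ss_bound hP hK b (N := N) (by omega)
  obtain ⟨Cc, hCc0, hCc⟩ := ss_bound hP hK c (N := N) (by omega)
  obtain ⟨Ea, hEa0, hEa⟩ := hZ V q hP a K hK hφ.sub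
  obtain ⟨Eb, hEb0, hEb⟩ := hZ V q hP b K hK hφ.sub
  obtain ⟨Ec, hEc0, hEc⟩ := hZ V q hP c K hK hφ.sub
  -- error terms
  let e : ℤ → ℕ → ℂ → ℂ := fun a i z =>
    (h i : ℂ) * dz (ss q (h i) (f i) a) z - ss q (h i) (f i) (a + 1) z
  let F1 : ℕ → ℂ → ℂ := fun i z => dz φ z * ((h i : ℂ) * (ss q (h i) (f i) a z *
    ss q (h i) (f i) b z * ss q (h i) (f i) c z))
  let F2 : ℕ → ℂ → ℂ := fun i z => φ z * (ss q (h i) (f i) b z * ss q (h i) (f i) c z * e a i z +
    ss q (h i) (f i) a z * ss q (h i) (f i) c z * e b i z +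
    ss q (h i) (f i) a z * ss q (h i) (f i) b z * e c i z)
  have hKz : ∀ z, z ∉ K → φ z = 0 := fun z hz => image_eq_zero_of_notMem_tsupport hz
  have hF1 : Tendsto (fun i => ∫ z, F1 i z) atTop (𝓝 0) := by
    refine small hL hS hB hφ.dz N (C := Ca * Cb * Cc) (by positivity) F1 fun i z => ?_
    have hh := (hS.sol i).hpos
    by_cases hz : z ∈ K
    · have hs0 := sm_nonneg (h i) (f i) N z
      simp only [F1]
      rw [norm_mul, norm_mul, norm_mul, norm_mul, Complex.norm_real, Real.norm_of_nonneg hh.le]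
      calc _ ≤ ‖dz φ z‖ * (h i * ((Ca * sm (h i) (f i) N z) * (Cb * sm (h i) (f i) N z) *
            (Cc * sm (h i) (f i) N z))) := by
            gcongr
            · exact hCa _ _ z hz
            · exact hCb _ _ z hz
            · exact hCc _ _ z hz
        _ = _ := by ring
    · have : dz φ z = 0 := dz_eq_zero_of_notMem hz
      simp only [F1]
      rw [this, zero_mul, norm_zero, zero_mul, mul_zero, mul_zero]
  have hF2 : Tendsto (fun i => ∫ z, F2 i z) atTop (𝓝 0) := by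
    refine small hL hS hB hφ N (C := Cb * Cc * Ea + Ca * Cc * Eb + Ca * Cb * Ec) (by positivity)
      F2 fun i z => ?_
    have hh := (hS.sol i).hpos
    by_cases hz : z ∈ K
    · have hs0 := sm_nonneg (h i) (f i) N z
      have hea : ‖e a i z‖ ≤ h i * (Ea * sm (h i) (f i) N z) :=
        ((hEa _ _ (hS.sol i) z hz).1).trans (by gcongr; exact sm_mono _ _ hNa z)
      have heb : ‖e b i z‖ ≤ h i * (Eb * sm (h i) (f i) N z) :=
        ((hEb _ _ (hS.sol i) z hz).1).trans (by gcongr; exact sm_mono _ _ hNb z)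
      have hec : ‖e c i z‖ ≤ h i * (Ec * sm (h i) (f i) N z) :=
        ((hEc _ _ (hS.sol i) z hz).1).trans (by gcongr; exact sm_mono _ _ hNc z)
      have t1 := triple_bound hs0 hCb0 hCc0 (hCb (h i) (f i) z hz)
        (hCc (h i) (f i) z hz) hea
      have t2 := triple_bound hs0 hCa0 hCc0 (hCa (h i) (f i) z hz)
        (hCc (h i) (f i) z hz) heb
      have t3 := triple_bound hs0 hCa0 hCb0 (hCa (h i) (f i) z hz)
        (hCb (h i) (f i) z hz) hec
      simp only [F2]
      rw [norm_mul]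
      calc _ ≤ ‖φ z‖ * (h i * (Cb * Cc * Ea * sm (h i) (f i) N z ^ 3) +
            h i * (Ca * Cc * Eb * sm (h i) (f i) N z ^ 3) +
            h i * (Ca * Cb * Ec * sm (h i) (f i) N z ^ 3)) := by
            gcongr
            exact (norm_add₃_le).trans (add_le_add (add_le_add t1 t2) t3)
        _ = _ := by ring
    · simp only [F2]
      rw [hKz z hz, zero_mul, norm_zero, zero_mul, mul_zero, mul_zero]
  have hkey : ∀ i, TT q h f φ (a + 1) b c i + TT q h f φ a (b + 1) c i +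
      TT q h f φ a b (c + 1) i = -(∫ z, F1 i z) - ∫ z, F2 i z := by
    intro i
    have hf := (hS.sol i).smooth
    have sa := contDiff_ss hP hf (h i) a
    have sb := contDiff_ss hP hf (h i) b
    have sc := contDiff_ss hP hf (h i) c
    have hp : ContDiff ℝ ∞ (fun z => (h i : ℂ) * (ss q (h i) (f i) a z *
      ss q (h i) (f i) b z * ss q (h i) (f i) c z)) := contDiff_const.mul ((sa.mul sb).mul sc)
    have hibp := integral_mul_dz hφ.smooth hp (Or.inl hφ.cpt)
    have hdz : ∀ z, dz (fun z => (h i : ℂ) * (ss q (h i) (f i) a z *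
      ss q (h i) (f i) b z * ss q (h i) (f i) c z)) z =
      (h i : ℂ) * ((dz (ss q (h i) (f i) a) z * ss q (h i) (f i) b z +
        ss q (h i) (f i) a z * dz (ss q (h i) (f i) b) z) * ss q (h i) (f i) c z +
        ss q (h i) (f i) a z * ss q (h i) (f i) b z * dz (ss q (h i) (f i) c) z) := by
      intro z
      rw [dz_const_mul _ ((sa.mul sb).mul sc), dz_mul (sa.mul sb) sc, dz_mul sa sb]
    have hI0 : ∫ z, F1 i z = -∫ z, φ z * dz (fun z => (h i : ℂ) * (ss q (h i) (f i) a z *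
      ss q (h i) (f i) b z * ss q (h i) (f i) c z)) z := by
      rw [hibp, neg_neg]
    have hintp : Integrable (fun z => φ z * dz (fun z => (h i : ℂ) * (ss q (h i) (f i) a z *
      ss q (h i) (f i) b z * ss q (h i) (f i) c z)) z) :=
      (hφ.mul_right (contDiff_dz hp)).integrable
    have i1 := tt_integrable hP (h := h i) hf hφ (a + 1) b c
    have i2 := tt_integrable hP (h := h i) hf hφ a (b + 1) c
    have i3 := tt_integrable hP (h := h i) hf hφ a b (c + 1)
    have hsum : (∫ z, F2 i z) = (∫ z, φ z * dz (fun z => (h i : ℂ) * (ss q (h i) (f i) a z *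
      ss q (h i) (f i) b z * ss q (h i) (f i) c z)) z) -
      (TT q h f φ (a + 1) b c i + TT q h f φ a (b + 1) c i + TT q h f φ a b (c + 1) i) := by
      refine int_sub4 hintp i1 i2 i3 fun z => ?_
      simp only [F2, e]
      rw [hdz z]
      ring
    rw [hI0, hsum]
    ring
  simp_rw [hkey]
  simpa using hF1.neg.sub hF2

/-- second relation -/
lemma rel2 (hZ : StmtErrZ) (hL : StmtL4) {h : ℕ → ℝ} {f : ℕ → ℂ → ℝ} (hS : Seq V q h f)
    (hB : L4Bdd V f) {φ' : ℂ → ℂ} (hφ' : Test V φ') (a b c : ℤ) :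
    Tendsto (fun i => TT q h f φ' (a - 1) b c i + TT q h f φ' a (b - 1) c i +
      TT q h f φ' a b (c - 1) i) atTop (𝓝 0) := by
  have hP := hS.pot
  -- divide the test function by `q`
  have hq0 : ∀ z, (q z : ℂ) ≠ 0 := fun z => by exact_mod_cast (hP.pos z).ne'
  have hqi : ContDiff ℝ ∞ (fun z => ((q z : ℂ))⁻¹) := (contDiff_ofReal hP.smooth).inv hq0
  have hφ := hφ'.mul_right hqi
  set φ : ℂ → ℂ := fun z => φ' z * ((q z : ℂ))⁻¹ with hφdef
  have hφq : ∀ z, φ z * (q z : ℂ) = φ' z := fun z => by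
    simp only [hφdef]
    rw [mul_assoc, inv_mul_cancel₀ (hq0 z), mul_one]
  set N := max (a.natAbs + 1) (max (b.natAbs + 1) (c.natAbs + 1)) with hN
  have hNa : a.natAbs + 1 ≤ N := le_max_left _ _
  have hNb : b.natAbs + 1 ≤ N := (le_max_left _ _).trans (le_max_right _ _)
  have hNc : c.natAbs + 1 ≤ N := (le_max_right _ _).trans (le_max_right _ _)
  set K := tsupport φ with hKdef
  have hK : IsCompact K := hφ.cpt
  obtain ⟨Ca, hCa0, hCa⟩ := ss_bound hP hK a (N := N) (by omega)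
  obtain ⟨Cb, hCb0, hCb⟩ := ss_bound hP hK b (N := N) (by omega)
  obtain ⟨Cc, hCc0, hCc⟩ := ss_bound hP hK c (N := N) (by omega)
  obtain ⟨Ea, hEa0, hEa⟩ := hZ V q hP a K hK hφ.sub
  obtain ⟨Eb, hEb0, hEb⟩ := hZ V q hP b K hK hφ.sub
  obtain ⟨Ec, hEc0, hEc⟩ := hZ V q hP c K hK hφ.sub
  let e : ℤ → ℕ → ℂ → ℂ := fun a i z =>
    (h i : ℂ) * dzb (ss q (h i) (f i) a) z + (q z : ℂ) * ss q (h i) (f i) (a - 1) z
  let F1 : ℕ → ℂ → ℂ := fun i z => dzb φ z * ((h i : ℂ) * (ss q (h i) (f i) a z *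
    ss q (h i) (f i) b z * ss q (h i) (f i) c z))
  let F2 : ℕ → ℂ → ℂ := fun i z => φ z * (ss q (h i) (f i) b z * ss q (h i) (f i) c z * e a i z +
    ss q (h i) (f i) a z * ss q (h i) (f i) c z * e b i z +
    ss q (h i) (f i) a z * ss q (h i) (f i) b z * e c i z)
  have hKz : ∀ z, z ∉ K → φ z = 0 := fun z hz => image_eq_zero_of_notMem_tsupport hz
  have hF1 : Tendsto (fun i => ∫ z, F1 i z) atTop (𝓝 0) := by
    refine small hL hS hB hφ.dzb N (C := Ca * Cb * Cc) (by positivity) F1 fun i z => ?_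
    have hh := (hS.sol i).hpos
    by_cases hz : z ∈ K
    · have hs0 := sm_nonneg (h i) (f i) N z
      simp only [F1]
      rw [norm_mul, norm_mul, norm_mul, norm_mul, Complex.norm_real, Real.norm_of_nonneg hh.le]
      calc _ ≤ ‖dzb φ z‖ * (h i * ((Ca * sm (h i) (f i) N z) * (Cb * sm (h i) (f i) N z) *
            (Cc * sm (h i) (f i) N z))) := by
            gcongr
            · exact hCa _ _ z hz
            · exact hCb _ _ z hz
            · exact hCc _ _ z hz
        _ = _ := by ring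
    · have : dzb φ z = 0 := dzb_eq_zero_of_notMem hz
      simp only [F1]
      rw [this, zero_mul, norm_zero, zero_mul, mul_zero, mul_zero]
  have hF2 : Tendsto (fun i => ∫ z, F2 i z) atTop (𝓝 0) := by
    refine small hL hS hB hφ N (C := Cb * Cc * Ea + Ca * Cc * Eb + Ca * Cb * Ec) (by positivity)
      F2 fun i z => ?_
    have hh := (hS.sol i).hpos
    by_cases hz : z ∈ K
    · have hs0 := sm_nonneg (h i) (f i) N z
      have hea : ‖e a i z‖ ≤ h i * (Ea * sm (h i) (f i) N z) :=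
        ((hEa _ _ (hS.sol i) z hz).2).trans (by gcongr; exact sm_mono _ _ hNa z)
      have heb : ‖e b i z‖ ≤ h i * (Eb * sm (h i) (f i) N z) :=
        ((hEb _ _ (hS.sol i) z hz).2).trans (by gcongr; exact sm_mono _ _ hNb z)
      have hec : ‖e c i z‖ ≤ h i * (Ec * sm (h i) (f i) N z) :=
        ((hEc _ _ (hS.sol i) z hz).2).trans (by gcongr; exact sm_mono _ _ hNc z)
      have t1 := triple_bound hs0 hCb0 hCc0 (hCb (h i) (f i) z hz)
        (hCc (h i) (f i) z hz) hea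
      have t2 := triple_bound hs0 hCa0 hCc0 (hCa (h i) (f i) z hz)
        (hCc (h i) (f i) z hz) heb
      have t3 := triple_bound hs0 hCa0 hCb0 (hCa (h i) (f i) z hz)
        (hCb (h i) (f i) z hz) hec
      simp only [F2]
      rw [norm_mul]
      calc _ ≤ ‖φ z‖ * (h i * (Cb * Cc * Ea * sm (h i) (f i) N z ^ 3) +
            h i * (Ca * Cc * Eb * sm (h i) (f i) N z ^ 3) +
            h i * (Ca * Cb * Ec * sm (h i) (f i) N z ^ 3)) := by
            gcongr
            exact (norm_add₃_le).trans (add_le_add (add_le_add t1 t2) t3)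
        _ = _ := by ring
    · simp only [F2]
      rw [hKz z hz, zero_mul, norm_zero, zero_mul, mul_zero, mul_zero]
  have hkey : ∀ i, TT q h f φ' (a - 1) b c i + TT q h f φ' a (b - 1) c i +
      TT q h f φ' a b (c - 1) i = (∫ z, F1 i z) + ∫ z, F2 i z := by
    intro i
    have hf := (hS.sol i).smooth
    have sa := contDiff_ss hP hf (h i) a
    have sb := contDiff_ss hP hf (h i) b
    have sc := contDiff_ss hP hf (h i) c
    have hp : ContDiff ℝ ∞ (fun z => (h i : ℂ) * (ss q (h i) (f i) a z *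
      ss q (h i) (f i) b z * ss q (h i) (f i) c z)) := contDiff_const.mul ((sa.mul sb).mul sc)
    have hibp := integral_mul_dzb hφ.smooth hp (Or.inl hφ.cpt)
    have hdz : ∀ z, dzb (fun z => (h i : ℂ) * (ss q (h i) (f i) a z *
      ss q (h i) (f i) b z * ss q (h i) (f i) c z)) z =
      (h i : ℂ) * ((dzb (ss q (h i) (f i) a) z * ss q (h i) (f i) b z +
        ss q (h i) (f i) a z * dzb (ss q (h i) (f i) b) z) * ss q (h i) (f i) c z +
        ss q (h i) (f i) a z * ss q (h i) (f i) b z * dzb (ss q (h i) (f i) c) z) := by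
      intro z
      rw [dzb_const_mul _ ((sa.mul sb).mul sc), dzb_mul (sa.mul sb) sc, dzb_mul sa sb]
    have hI0 : ∫ z, F1 i z = -∫ z, φ z * dzb (fun z => (h i : ℂ) * (ss q (h i) (f i) a z *
      ss q (h i) (f i) b z * ss q (h i) (f i) c z)) z := by
      rw [hibp, neg_neg]
    have hintp : Integrable (fun z => φ z * dzb (fun z => (h i : ℂ) * (ss q (h i) (f i) a z *
      ss q (h i) (f i) b z * ss q (h i) (f i) c z)) z) :=
      (hφ.mul_right (contDiff_dzb hp)).integrable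
    have i1 := tt_integrable hP (h := h i) hf hφ' (a - 1) b c
    have i2 := tt_integrable hP (h := h i) hf hφ' a (b - 1) c
    have i3 := tt_integrable hP (h := h i) hf hφ' a b (c - 1)
    have hsum : (∫ z, F2 i z) = (∫ z, φ z * dzb (fun z => (h i : ℂ) * (ss q (h i) (f i) a z *
      ss q (h i) (f i) b z * ss q (h i) (f i) c z)) z) +
      (TT q h f φ' (a - 1) b c i + TT q h f φ' a (b - 1) c i + TT q h f φ' a b (c - 1) i) := by
      refine int_add4 hintp i1 i2 i3 fun z => ?_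
      simp only [F2, e]
      rw [hdz z, ← hφq z]
      ring
    rw [hI0, hsum]
    ring
  simp_rw [hkey]
  simpa using hF1.add hF2

/-- shift relation -/
lemma shift (hZ : StmtErrZ) (hL : StmtL4) {h : ℕ → ℝ} {f : ℕ → ℂ → ℝ} (hS : Seq V q h f)
    (hB : L4Bdd V f) {φ : ℂ → ℂ} (hφ : Test V φ) (a b c : ℤ) :
    Tendsto (fun i => TT q h f φ a b c i - TT q h f φ (a - 1) (b + 2) (c - 1) i)
      atTop (𝓝 0) := by
  have h1 := rel2 hZ hL hS hB hφ a (b + 1) c
  have h2 := rel1 hZ hL hS hB hφ (a - 1) (b + 1) (c - 1)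
  have h3 := h1.sub h2
  rw [sub_zero] at h3
  refine h3.congr fun i => ?_
  have e1 : b + 1 - 1 = b := by ring
  have e2 : a - 1 + 1 = a := by ring
  have e3 : b + 1 + 1 = b + 2 := by ring
  have e4 : c - 1 + 1 = c := by ring
  rw [e1, e2, e3, e4]
  ring

lemma step3 (hZ : StmtErrZ) (hL : StmtL4) {h : ℕ → ℝ} {f : ℕ → ℂ → ℝ} (hS : Seq V q h f)
    (hB : L4Bdd V f) {φ : ℂ → ℂ} (hφ : Test V φ) (n : ℤ) :
    Tendsto (fun i => TT q h f φ 0 n (-n) i - TT q h f φ 0 (n + 3) (-(n + 3)) i)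
      atTop (𝓝 0) := by
  have h1 := shift hZ hL hS hB hφ 0 n (-n)
  have h2 := shift hZ hL hS hB hφ 0 (-(n + 3)) (n + 3)
  have h3 := h1.sub h2
  rw [sub_zero] at h3
  refine h3.congr fun i => ?_
  have e1 : (0 : ℤ) - 1 = -1 := by ring
  have e2 : -n - 1 = -(n + 3) + 2 := by ring
  have e3 : n + 3 - 1 = n + 2 := by ring
  rw [e1, e2, e3, tt_comm2 h f φ (-1) (-(n + 3) + 2) (n + 2), tt_comm2 h f φ 0 (-(n + 3)) (n + 3)]
  ring

end CubicSM

open _root_.Pool.Agent.A54.CubicSM in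
theorem Dyn.stmtCubicS (hZ : StmtErrZ) (hL : StmtL4) : Dyn.StmtCubicS := by
  intro V q h f hS hB n φ hφ
  have h000 : ∀ i, TT q h f φ 0 0 0 i = ∫ z, φ z * (f i z : ℂ) ^ 3 := by
    intro i
    unfold TT
    congr 1
    ext z
    change φ z * ((f i z : ℂ) * (f i z : ℂ) * (f i z : ℂ)) = _
    ring
  have key : ∀ n : ℕ, Tendsto (fun i => TT q h f φ 0 n (-n) i -
      (if 3 ∣ n then 1 else -(1 / 2 : ℂ)) * TT q h f φ 0 0 0 i) atTop (𝓝 0) := by
    have h1 : Tendsto (fun i => TT q h f φ 0 1 (-1) i -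
        -(1 / 2 : ℂ) * TT q h f φ 0 0 0 i) atTop (𝓝 0) := by
      have h2 := rel2 hZ hL hS hB hφ 0 1 0
      have h3 := h2.const_mul (1 / 2 : ℂ)
      rw [mul_zero] at h3
      refine h3.congr fun i => ?_
      have e1 : (0 : ℤ) - 1 = -1 := by ring
      have e2 : (1 : ℤ) - 1 = 0 := by ring
      have e3 : TT q h f φ (-1) 1 0 i = TT q h f φ 0 1 (-1) i := by
        rw [tt_comm2, tt_comm1, tt_comm2]
      rw [e1, e2, e3]
      ring
    intro n
    induction n using Nat.strong_induction_on with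
    | _ n ih =>
      match n with
      | 0 => simp
      | 1 => simpa using h1
      | 2 =>
        have h4 := step3 hZ hL hS hB hφ (-1)
        have h5 := h1.sub h4
        rw [sub_zero] at h5
        refine h5.congr fun i => ?_
        have e1 : (-1 : ℤ) + 3 = 2 := by ring
        have e2 : (-(-1) : ℤ) = 1 := by ring
        rw [e1, e2, tt_comm2 h f φ 0 (-1) 1]
        norm_num
        ring
      | m + 3 =>
        have h4 := step3 hZ hL hS hB hφ (m : ℤ)
        have h5 := (ih m (by omega)).sub h4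
        rw [sub_zero] at h5
        refine h5.congr fun i => ?_
        have e1 : (3 ∣ m + 3) ↔ 3 ∣ m := by omega
        simp only [e1]
        push_cast
        ring
  have := key n
  simp_rw [h000] at this
  exact this

end

end Pool.Agent.A54
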