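import Pool.Agent.Lib.MP_a54f13_nt.Dyn.Spec

/-!
Geometry near the identity: `StmtGeo2` and `StmtGeo3`.  For MP_a54f13_nt.
-/

set_option autoImplicit false

namespace Pool.Agent.A54.Dyn

open MeasureTheory Filter Topology Set
open scoped ComplexConjugate UpperHalfPlane MatrixGroups ENNReal

namespace Geo23M

/-- Euclidean distance to `I` -/
lemma coe_dist_le {z : ℍ} (h : dist z UpperHalfPlane.I ≤ 1) :
    ‖(z : ℂ) - Complex.I‖ ≤ 3 * dist z UpperHalfPlane.I := by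
  set d := dist z UpperHalfPlane.I with hd
  have hd0 : 0 ≤ d := dist_nonneg
  have h1 := UpperHalfPlane.cosh_dist z UpperHalfPlane.I
  rw [← hd] at h1
  have hI : (UpperHalfPlane.I : ℍ).im = 1 := UpperHalfPlane.I_im
  have hIc : ((UpperHalfPlane.I : ℍ) : ℂ) = Complex.I := rfl
  rw [hI, hIc, Complex.dist_eq] at h1
  have hz := z.im_pos
  have h2 : ‖(z : ℂ) - Complex.I‖ ^ 2 = 2 * z.im * (Real.cosh d - 1) := by
    rw [h1]; field_simp; ring
  have h3 : Real.cosh d - 1 ≤ d ^ 2 := by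
    have h4 := Real.cosh_le_exp_half_sq d
    have h5 : d ^ 2 / 2 ≤ 1 := by nlinarith
    have h6 : 0 ≤ d ^ 2 / 2 := by positivity
    have h7 := Real.abs_exp_sub_one_le (x := d ^ 2 / 2) (by rw [abs_of_nonneg h6]; exact h5)
    rw [abs_of_nonneg h6] at h7
    have h8 := le_abs_self (Real.exp (d ^ 2 / 2) - 1)
    linarith
  have h4 : z.im ≤ 3 := by
    have h5 := UpperHalfPlane.dist_log_im_le z UpperHalfPlane.I
    rw [hI, Real.log_one, Real.dist_eq, sub_zero, ← hd] at h5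
    have h6 : Real.log z.im ≤ 1 := (le_abs_self _).trans (h5.trans h)
    have h7 : z.im ≤ Real.exp 1 := by
      rw [← Real.exp_log hz]
      exact Real.exp_le_exp.mpr h6
    have h8 := Real.exp_one_lt_d9
    linarith
  have h5 : ‖(z : ℂ) - Complex.I‖ ^ 2 ≤ (3 * d) ^ 2 := by
    rw [h2]
    have h6 : 0 ≤ Real.cosh d - 1 := by linarith [Real.one_le_cosh d]
    nlinarith
  exact (pow_le_pow_iff_left₀ (norm_nonneg _) (by positivity) two_ne_zero).mp h5

lemma re_le {z : ℍ} (h : dist z UpperHalfPlane.I ≤ 1) :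
    |z.re| ≤ 3 * dist z UpperHalfPlane.I := by
  refine le_trans ?_ (coe_dist_le h)
  have h1 := Complex.abs_re_le_norm ((z : ℂ) - Complex.I)
  simpa using h1

lemma im_le {z : ℍ} (h : dist z UpperHalfPlane.I ≤ 1) :
    |z.im - 1| ≤ 3 * dist z UpperHalfPlane.I := by
  refine le_trans ?_ (coe_dist_le h)
  have h1 := Complex.abs_im_le_norm ((z : ℂ) - Complex.I)
  simpa using h1

/-- the factor `conj w / w` -/
lemma ratio_sub_one {η : ℂ} (h : ‖η‖ ≤ 1 / 2) : ‖conj (1 + η) / (1 + η) - 1‖ ≤ 4 * ‖η‖ := by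
  have h1 : 1 / 2 ≤ ‖1 + η‖ := by
    have h2 := norm_sub_norm_le (1 : ℂ) (-η)
    rw [norm_one, norm_neg, sub_neg_eq_add] at h2
    linarith
  have h2 : (1 + η) ≠ 0 := by
    intro h3
    rw [h3, norm_zero] at h1
    norm_num at h1
  have h3 : conj (1 + η) / (1 + η) - 1 = (conj η - η) / (1 + η) := by
    rw [map_add, map_one]
    field_simp
    ring
  rw [h3, norm_div, div_le_iff₀ (by linarith)]
  have h4 : ‖conj η - η‖ ≤ 2 * ‖η‖ := by
    refine (norm_sub_le _ _).trans ?_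
    rw [RCLike.norm_conj]
    linarith
  nlinarith [norm_nonneg η]

end Geo23M

open Geo23M

theorem stmtGeo2 : StmtGeo2 := by
  refine ⟨12, 1 / 6, by norm_num, by norm_num, fun v g hg => ?_⟩
  set d := dist (base g) UpperHalfPlane.I with hd
  have hd0 : 0 ≤ d := dist_nonneg
  set b : ℂ := (base g : ℂ) with hb
  have hbI : ‖b - Complex.I‖ ≤ 3 * d := coe_dist_le (by rw [← hd]; linarith)
  set w0 : ℂ := (v 1 1 : ℂ) + Complex.I * (v 1 0 : ℂ) with hw0
  have hw0ne : w0 ≠ 0 := denI_ne v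
  set η : ℂ := (v 1 0 : ℂ) * (b - Complex.I) / w0 with hη
  have hηle : ‖η‖ ≤ 3 * d := by
    rw [hη, norm_div, norm_mul, div_le_iff₀ (norm_pos_iff.mpr hw0ne)]
    have h1 : ‖(v 1 0 : ℂ)‖ ≤ ‖w0‖ := by
      have h2 := Complex.abs_im_le_norm w0
      have h3 : w0.im = v 1 0 := by rw [hw0]; simp
      rw [h3] at h2
      rwa [Complex.norm_real, Real.norm_eq_abs]
    calc ‖(v 1 0 : ℂ)‖ * ‖b - Complex.I‖ ≤ ‖w0‖ * (3 * d) :=
          mul_le_mul h1 hbI (norm_nonneg _) (norm_nonneg _)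
      _ = 3 * d * ‖w0‖ := by ring
  have hw : (v 1 0 : ℂ) * b + v 1 1 = w0 * (1 + η) := by
    rw [mul_add, mul_one, hη, mul_div_cancel₀ _ hw0ne, hw0]
    ring
  have hcw : (v 1 0 : ℂ) * conj b + v 1 1 = conj w0 * conj (1 + η) := by
    rw [← map_mul, ← hw]
    simp
  have hzv : ze v = conj w0 / w0 := by
    unfold ze
    congr 1
    rw [hw0]
    simp [sub_eq_add_neg]
  have h1 : ze (v * g) = ze g * ze v * (conj (1 + η) / (1 + η)) := by
    rw [ze_mul, ← hb, hcw, hw, hzv]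
    rw [mul_div_mul_comm]
    ring
  have hη2 : ‖η‖ ≤ 1 / 2 := by linarith
  have h2 := ratio_sub_one hη2
  have h3 : ‖ze (v * g) - ze g * ze v‖ ≤ 12 * d := by
    have h4 : ze (v * g) - ze g * ze v = ze g * ze v * (conj (1 + η) / (1 + η) - 1) := by
      rw [h1]; ring
    rw [h4, norm_mul, norm_mul, norm_ze, norm_ze, one_mul, one_mul]
    linarith
  have h4 : ‖ze g * ze v - ze v‖ = ‖ze g - 1‖ := by
    have h5 : ze g * ze v - ze v = (ze g - 1) * ze v := by ring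
    rw [h5, norm_mul, norm_ze, mul_one]
  rw [← h4]
  have h5 := abs_norm_sub_norm_le (ze (v * g) - ze v) (ze g * ze v - ze v)
  have h6 : ze (v * g) - ze v - (ze g * ze v - ze v) = ze (v * g) - ze g * ze v := by ring
  rw [h6] at h5
  exact h5.trans h3

namespace Geo23M

lemma base_re_im (g : G) : g 0 1 = (base g).re * g 1 1 - (base g).im * g 1 0 ∧
    g 0 0 = (base g).re * g 1 0 + (base g).im * g 1 1 := by
  have h1 := base_coe g
  have h2 := denom_ne g UpperHalfPlane.I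
  have h2' : (g 1 0 : ℂ) * Complex.I + g 1 1 ≠ 0 := h2
  rw [eq_div_iff h2'] at h1
  have h3 := congrArg Complex.re h1
  have h4 := congrArg Complex.im h1
  simp only [Complex.mul_re, Complex.mul_im, Complex.add_re, Complex.add_im, Complex.ofReal_re,
    Complex.ofReal_im, Complex.I_re, Complex.I_im, UpperHalfPlane.coe_re,
    UpperHalfPlane.coe_im] at h3 h4
  constructor <;> linarith

lemma norm_ze_sub_one (g : G) : ‖ze g - 1‖ ^ 2 * (g 1 1 ^ 2 + g 1 0 ^ 2) = 4 * g 1 0 ^ 2 := by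
  set w : ℂ := (g 1 1 : ℂ) + Complex.I * (g 1 0 : ℂ) with hw
  have hwne : w ≠ 0 := denI_ne g
  have h1 : ze g - 1 = (-2 * Complex.I * (g 1 0 : ℂ)) / w := by
    unfold ze
    rw [← hw]
    field_simp
    rw [hw]
    ring
  have h2 : ‖w‖ ^ 2 = g 1 1 ^ 2 + g 1 0 ^ 2 := by
    rw [Complex.sq_norm, Complex.normSq_apply, hw]
    simp
    ring
  have h3 : 0 < ‖w‖ := norm_pos_iff.mpr hwne
  rw [← h2, h1, norm_div, norm_mul, norm_mul, Complex.norm_I, Complex.norm_real, norm_neg,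
    Real.norm_eq_abs, div_pow]
  have h4 : ‖(2 : ℂ)‖ = 2 := by norm_num
  rw [h4, mul_one, mul_pow, sq_abs]
  field_simp
  ring

lemma abs_log_le {t : ℝ} (h : |t - 1| ≤ 1 / 2) : |Real.log t| ≤ 2 * |t - 1| := by
  have h1 := abs_le.mp h
  have ht : 0 < t := by linarith
  rw [abs_le]
  constructor
  · have h2 := Real.one_sub_inv_le_log_of_pos ht
    have h3 : 1 - t⁻¹ = (t - 1) / t := by field_simp
    rw [h3] at h2
    refine le_trans ?_ h2
    rw [le_div_iff₀ ht]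
    have h4 := neg_abs_le (t - 1)
    have h5 := abs_nonneg (t - 1)
    nlinarith
  · have h2 := Real.log_le_sub_one_of_pos ht
    have h4 := le_abs_self (t - 1)
    have h5 := abs_nonneg (t - 1)
    linarith

lemma geo3_aux {g : G} (h11 : 0 < g 1 1) {ρ δ : ℝ} (hρ : dist (base g) UpperHalfPlane.I ≤ ρ)
    (hρc : ρ ≤ 1 / 100) (hδ : ‖ze g - 1‖ ≤ δ) (hδc : δ ≤ 1 / 100) :
    g ∈ dom ∧ |cX g + cY g| ≤ 40 * ρ ∧ |cU g| ≤ 40 * ρ ∧
      |cX g| ≤ 40 * (ρ + δ) ∧ |cY g| ≤ 40 * (ρ + δ) := by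
  have hρ0 : 0 ≤ ρ := dist_nonneg.trans hρ
  have hδ0 : 0 ≤ δ := (norm_nonneg _).trans hδ
  obtain ⟨e01, e00⟩ := base_re_im g
  have hx : |(base g).re| ≤ 3 * ρ := (re_le (by linarith)).trans (by linarith)
  have hy : |(base g).im - 1| ≤ 3 * ρ := (im_le (by linarith)).trans (by linarith)
  set x := (base g).re with hxdef
  set y := (base g).im with hydef
  set s := g 1 0 / g 1 1 with hs
  have hs10 : g 1 0 = s * g 1 1 := by rw [hs]; field_simp
  have hs1 : |s| ≤ δ := by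
    have h1 := norm_ze_sub_one g
    have h2 : ‖ze g - 1‖ ^ 2 ≤ δ ^ 2 := pow_le_pow_left₀ (norm_nonneg _) hδ 2
    have h3 : 4 * g 1 0 ^ 2 ≤ δ ^ 2 * (g 1 1 ^ 2 + g 1 0 ^ 2) := by
      rw [← h1]
      exact mul_le_mul_of_nonneg_right h2 (by positivity)
    rw [hs10] at h3
    have h4 : 0 < g 1 1 ^ 2 := by positivity
    have h5 : 4 * s ^ 2 ≤ δ ^ 2 * (1 + s ^ 2) := by
      have h6 : g 1 1 ^ 2 * (4 * s ^ 2) ≤ g 1 1 ^ 2 * (δ ^ 2 * (1 + s ^ 2)) := by linarith
      exact le_of_mul_le_mul_left h6 h4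
    have h6 : δ ^ 2 ≤ 1 := by nlinarith
    have h7 : s ^ 2 ≤ δ ^ 2 := by nlinarith [sq_nonneg s, sq_nonneg δ]
    have h8 := Real.abs_le_sqrt h7
    rwa [Real.sqrt_sq hδ0] at h8
  have hs2 : |s| ≤ 1 / 100 := hs1.trans hδc
  obtain ⟨hx1, hx2⟩ := abs_le.mp hx
  obtain ⟨hy1, hy2⟩ := abs_le.mp hy
  obtain ⟨hsa, hsb⟩ := abs_le.mp hs2
  have hxs : |x * s| ≤ 3 * ρ * |s| := by
    rw [abs_mul]
    exact mul_le_mul_of_nonneg_right hx (abs_nonneg _)
  have hxs' : |x * s| ≤ ρ := by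
    refine hxs.trans ?_
    have h1 : 3 * ρ * |s| ≤ 3 * ρ * (1 / 100) := mul_le_mul_of_nonneg_left hs2 (by linarith)
    linarith
  obtain ⟨hxs1, hxs2⟩ := abs_le.mp hxs'
  set D := x * s + y with hD
  have hD1 : |D - 1| ≤ 4 * ρ := by
    have h1 : D - 1 = x * s + (y - 1) := by rw [hD]; ring
    rw [h1]
    exact (abs_add_le _ _).trans (by linarith)
  obtain ⟨hD2, hD3⟩ := abs_le.mp hD1
  have hDpos : 1 / 2 ≤ D := by linarith
  have hg00 : g 0 0 = D * g 1 1 := by rw [e00, hs10, hD]; ring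
  have hdom : g ∈ dom := ⟨by rw [hg00]; positivity, h11⟩
  have hX : cX g = x - y * s := by
    unfold cX
    rw [e01, hs10]
    field_simp
  have hY : cY g = s / D := by
    unfold cY
    rw [hg00, hs10]
    have : D ≠ 0 := by linarith
    field_simp
  have hU : cU g = Real.log D := by
    unfold cU
    rw [hg00, mul_div_cancel_right₀ _ h11.ne']
  have hDne : D ≠ 0 := by linarith
  have hYle : |cY g| ≤ 2 * |s| := by
    have hDp : 0 < D := by linarith
    rw [hY, abs_div, abs_of_pos hDp, div_le_iff₀ hDp]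
    have h1 : |s| * (1 / 2) ≤ |s| * D := mul_le_mul_of_nonneg_left hDpos (abs_nonneg s)
    linarith
  refine ⟨hdom, ?_, ?_, ?_, ?_⟩
  · have h1 : cX g + cY g = x + s * (1 - y * D) / D := by
      rw [hX, hY]; field_simp; ring
    have h2 : |1 - y * D| ≤ 10 * ρ := by
      have h3 : 1 - y * D = -(y - 1) * D + (1 - D) := by ring
      rw [h3]
      refine (abs_add_le _ _).trans ?_
      rw [abs_mul, abs_neg, abs_of_pos (by linarith : 0 < D), abs_sub_comm 1 D]
      have h4 : |y - 1| * D ≤ 3 * ρ * 2 :=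
        mul_le_mul hy (by linarith) (by linarith) (by linarith)
      linarith
    rw [h1]
    refine (abs_add_le _ _).trans ?_
    rw [abs_div, abs_mul, abs_of_pos (by linarith : 0 < D)]
    have h3 : |s| * |1 - y * D| / D ≤ ρ := by
      rw [div_le_iff₀ (by linarith)]
      have h4 : |s| * |1 - y * D| ≤ (1 / 100) * (10 * ρ) :=
        mul_le_mul hs2 h2 (abs_nonneg _) (by norm_num)
      have h5 : ρ * (1 / 2) ≤ ρ * D := mul_le_mul_of_nonneg_left hDpos hρ0
      linarith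
    linarith
  · rw [hU]
    refine (abs_log_le (by linarith)).trans ?_
    linarith
  · rw [hX]
    refine (abs_sub _ _).trans ?_
    rw [abs_mul]
    have h1 : |y| ≤ 2 := by rw [abs_le]; constructor <;> linarith
    have h2 : |y| * |s| ≤ 2 * δ := mul_le_mul h1 hs1 (abs_nonneg _) (by norm_num)
    linarith
  · linarith

end Geo23M

theorem stmtGeo3 : StmtGeo3 := by
  refine ⟨40, 1 / 100, by norm_num, by norm_num, fun g ρ δ hρ hρc hδ hδc => ?_⟩
  have hne : g 1 1 ≠ 0 := by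
    intro h0
    have h1 := norm_ze_sub_one g
    rw [h0] at h1
    have h2 : g 1 0 ≠ 0 := by
      intro h3
      have := det_eq g
      rw [h0, h3] at this
      norm_num at this
    have h3 : 0 < g 1 0 ^ 2 := by positivity
    have h4 : ‖ze g - 1‖ ^ 2 ≤ (1 / 100) ^ 2 :=
      pow_le_pow_left₀ (norm_nonneg _) (hδ.trans hδc) 2
    nlinarith
  rcases lt_or_gt_of_ne hne with h | h
  · have h1 : 0 < (-g) 1 1 := by
      change 0 < -(g 1 1)
      linarith
    have h2 := geo3_aux (g := -g) h1 (by rwa [base_neg]) hρc (by rwa [ze_neg]) hδc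
    exact ⟨-g, Or.inr rfl, h2⟩
  · exact ⟨g, Or.inl rfl, geo3_aux h hρ hρc hδ hδc⟩

end Pool.Agent.A54.Dyn
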