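import Pool.Agent.Lib.MP_a54f13_nt.Dyn.Spec1

/-!
Continuity and local bounds of the normalised derivatives `sg` of Hecke–Maass forms.
-/

set_option autoImplicit false

namespace Pool.Agent.A54.Dyn

open MeasureTheory Filter Topology Set
open scoped ComplexConjugate UpperHalfPlane MatrixGroups ENNReal ContDiff
open Pool.Agent.A54.Half (H0 qq ff hh)

noncomputable section

namespace SgBM

lemma contDiffOn_dz {g : ℂ → ℂ} (hg : ContDiffOn ℝ ∞ g H0) : ContDiffOn ℝ ∞ (dz g) H0 := by
  have h1 : ContDiffOn ℝ ∞ (fderiv ℝ g) H0 :=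
    hg.fderiv_of_isOpen Half.isOpen_H0 (by simp)
  have h2 : ∀ v : ℂ, ContDiffOn ℝ ∞ (fun z => fderiv ℝ g z v) H0 := fun v =>
    h1.clm_apply contDiffOn_const
  exact (h2 1).sub (contDiffOn_const.mul (h2 Complex.I))

lemma contDiffOn_iter {g : ℂ → ℂ} (hg : ContDiffOn ℝ ∞ g H0) (n : ℕ) :
    ContDiffOn ℝ ∞ (dz^[n] g) H0 := by
  induction n with
  | zero => exact hg
  | succ n ih =>
    rw [Function.iterate_succ']
    exact contDiffOn_dz ih

lemma continuous_sg {f : ℍ → ℝ} {t : ℝ} (hf : IsHeckeMaass f t) (n : ℕ) :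
    Continuous (sg f t n) := by
  have h1 : ContDiffOn ℝ ∞ (fun w => (ext f w : ℂ)) H0 :=
    Complex.ofRealCLM.contDiff.comp_contDiffOn hf.smooth
  have h2 : Continuous (fun z : ℍ => (dz^[n] (fun w => (ext f w : ℂ))) (z : ℂ)) :=
    (contDiffOn_iter h1 n).continuousOn.comp_continuous UpperHalfPlane.continuous_coe
      (fun z => z.im_pos)
  unfold sg
  have h3 : Continuous (fun z : ℍ => (z.im : ℂ)) :=
    Complex.continuous_ofReal.comp UpperHalfPlane.continuous_im
  exact continuous_const.mul ((h3.pow n).mul h2)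

/-- `sg` in terms of the localised form -/
lemma sg_eq {χ : ℂ → ℝ} (hχ : TestR H0 χ) {V : Set ℂ} (hV : IsOpen V)
    (h1 : ∀ z ∈ V, χ z = 1) {f : ℍ → ℝ} {t : ℝ} (hf : IsHeckeMaass f t) (n : ℕ) (z : ℍ)
    (hz : (z : ℂ) ∈ V) : sg f t n z = (z.im : ℂ) ^ n * gg (hh t) (ff χ f) n (z : ℂ) := by
  have hc : ∀ w ∈ V, (ff χ f w : ℂ) = (ext f w : ℂ) := by
    intro w hw
    unfold ff
    rw [h1 w hw, one_mul]
  have e3 := Half.iter_congr hV hc n z hz
  rw [Half.gg_eq (Half.ff_smooth hχ hf.smooth), e3]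
  unfold sg hh
  push_cast
  ring

lemma isCompact_pre' {K : Set ℂ} (hK : IsCompact K) (hKH : K ⊆ H0) :
    IsCompact (UpperHalfPlane.coe ⁻¹' K) := Half2.isCompact_pre hK hKH

/-- the comparison of the integrals -/
lemma comp (hI : StmtInt) {χ : ℂ → ℝ} (hχ : TestR H0 χ) {V : Set ℂ} (hV : IsOpen V)
    (hVH : V ⊆ H0) (h1 : ∀ z ∈ V, χ z = 1) {ζ : ℂ → ℝ} (hζ : TestR V ζ)
    {K : Set ℍ} (hK : IsCompact K) (hone : ∀ z ∈ K, ζ (z : ℂ) = 1) (n : ℕ) :
    ∃ M : ℝ, 0 ≤ M ∧ ∀ (f : ℍ → ℝ) (t : ℝ), IsHeckeMaass f t →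
      ∫ z in K, ‖sg f t n z‖ ^ 2 ≤ M * ∫ z, ζ z ^ 2 * ‖gg (hh t) (ff χ f) n z‖ ^ 2 := by
  have hsub : tsupport ζ ⊆ H0 := hζ.sub.trans hVH
  have hwc : ContinuousOn (fun z : ℂ => z.im ^ (2 * n) * (z.im⁻¹) ^ 2) (tsupport ζ) := by
    refine (Complex.continuous_im.continuousOn.pow _).mul ((Complex.continuous_im.continuousOn.inv₀
      ?_).pow 2)
    intro z hz
    exact ne_of_gt (hsub hz)
  obtain ⟨M, hM⟩ := hζ.cpt.isCompact.exists_bound_of_continuousOn hwc
  refine ⟨max M 0, le_max_right _ _, fun f t hf => ?_⟩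
  have hKm : MeasurableSet K := hK.isClosed.measurableSet
  set F : ℂ → ℝ := fun z => ζ z ^ 2 * (z.im ^ (2 * n) * ‖gg (hh t) (ff χ f) n z‖ ^ 2) with hF
  have hgc : Continuous (gg (hh t) (ff χ f) n) :=
    (contDiff_gg (Half.ff_smooth hχ hf.smooth) _ n).continuous
  have hFc : Continuous F :=
    (hζ.smooth.continuous.pow 2).mul ((Complex.continuous_im.pow _).mul (hgc.norm.pow 2))
  have hz2 : HasCompactSupport (fun z : ℂ => ζ z ^ 2) := by
    have := hζ.cpt.comp_left (g := fun x : ℝ => x ^ 2) (by simp)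
    exact this
  have hF0 : ∀ z : ℂ, z.im ≤ 0 → F z = 0 := by
    intro z hz
    simp only [hF]
    rw [hζ.eq_zero (fun h => (not_lt.mpr hz) (hVH h))]
    simp
  have e1 := hI.1 F hF0
  have hFs : HasCompactSupport (fun z : ℍ => F z) := by
    refine HasCompactSupport.intro (isCompact_pre' hζ.cpt.isCompact hsub) ?_
    intro z hz
    have : ζ (z : ℂ) = 0 := image_eq_zero_of_notMem_tsupport hz
    simp only [hF, this]
    simp
  have hFi : Integrable (fun z : ℍ => F z) :=
    (hFc.comp UpperHalfPlane.continuous_coe).integrable_of_hasCompactSupport hFs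
  have hRi : Integrable (fun z : ℂ => ζ z ^ 2 * ‖gg (hh t) (ff χ f) n z‖ ^ 2) :=
    ((hζ.smooth.continuous.pow 2).mul (hgc.norm.pow 2)).integrable_of_hasCompactSupport
      hz2.mul_right
  calc ∫ z in K, ‖sg f t n z‖ ^ 2 = ∫ z : ℍ, K.indicator (fun z => ‖sg f t n z‖ ^ 2) z := by
        rw [integral_indicator hKm]
    _ ≤ ∫ z : ℍ, F z := by
        apply integral_mono_of_nonneg
        · refine Filter.Eventually.of_forall fun z => ?_
          exact Set.indicator_nonneg (fun _ _ => sq_nonneg _) z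
        · exact hFi
        · refine Filter.Eventually.of_forall fun z => ?_
          simp only
          by_cases hz : z ∈ K
          · rw [Set.indicator_of_mem hz]
            have hzV : (z : ℂ) ∈ V := by
              by_contra hn
              have := hζ.eq_zero hn
              rw [hone z hz] at this
              exact one_ne_zero this
            rw [sg_eq hχ hV h1 hf n z hzV, norm_mul, norm_pow, Complex.norm_real,
              Real.norm_eq_abs, abs_of_pos z.im_pos, mul_pow, ← pow_mul, mul_comm n 2]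
            simp only [hF, hone z hz, UpperHalfPlane.coe_im]
            simp
          · rw [Set.indicator_of_notMem hz]
            simp only [hF]
            have : 0 < (z : ℂ).im := z.im_pos
            positivity
    _ = ∫ z : ℂ, F z / z.im ^ 2 := e1
    _ ≤ ∫ z : ℂ, max M 0 * (ζ z ^ 2 * ‖gg (hh t) (ff χ f) n z‖ ^ 2) := by
        apply integral_mono_of_nonneg
        · refine Filter.Eventually.of_forall fun z => ?_
          simp only [hF, Pi.zero_apply]
          rw [show (2 * n) = n * 2 by ring, pow_mul]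
          positivity
        · exact hRi.const_mul _
        · refine Filter.Eventually.of_forall fun z => ?_
          simp only [hF]
          by_cases hz : z ∈ tsupport ζ
          · have hb := (Real.le_norm_self _).trans (hM z hz)
            have hb' : z.im ^ (2 * n) * (z.im⁻¹) ^ 2 ≤ max M 0 := hb.trans (le_max_left _ _)
            calc ζ z ^ 2 * (z.im ^ (2 * n) * ‖gg (hh t) (ff χ f) n z‖ ^ 2) / z.im ^ 2
                = (z.im ^ (2 * n) * (z.im⁻¹) ^ 2) *
                    (ζ z ^ 2 * ‖gg (hh t) (ff χ f) n z‖ ^ 2) := by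
                  rw [div_eq_mul_inv, inv_pow]; ring
              _ ≤ _ := mul_le_mul_of_nonneg_right hb' (by positivity)
          · have : ζ z = 0 := image_eq_zero_of_notMem_tsupport hz
            simp [this]
    _ = _ := integral_const_mul _ _

end SgBM

theorem stmtSgB (hI : StmtInt) (hL : StmtLap) (hM : StmtMove) (hLB : StmtLB) : StmtSgB := by
  intro f t hm
  refine ⟨fun i n => SgBM.continuous_sg (hm.form i) n, fun n K hK => ?_⟩
  set K' : Set ℂ := UpperHalfPlane.coe '' K with hK'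
  have hK'c : IsCompact K' := hK.image UpperHalfPlane.continuous_coe
  have hK'H : K' ⊆ H0 := by
    rintro _ ⟨z, -, rfl⟩
    exact z.im_pos
  obtain ⟨ζ, hζ, -, hev⟩ := exists_cutoff hK'c Half.isOpen_H0 hK'H
  have hone : ∀ z ∈ K, ζ (z : ℂ) = 1 := fun z hz =>
    subset_of_mem_nhdsSet hev (mem_image_of_mem _ hz)
  obtain ⟨χ, V, hχ, h01, hV, hVH, h1, hsub⟩ := Half.setup hζ
  have hζV : TestR V ζ := ⟨hζ.smooth, hζ.cpt, hsub⟩
  obtain ⟨N, hN⟩ := Half.exists_N hm.lim
  have hS := Half2.seq hL hχ h01 hV hVH h1 hm.form hm.lim hN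
  have hb : L2Bdd V (fun i => ff χ (f (i + N))) :=
    hLB.2.2 χ V hχ hV hVH h1 (fun i => f (i + N)) (fun i => t (i + N))
      (fun i => hm.form (i + N))
  obtain ⟨C, hC⟩ := (hM V _ _ _ hS hb).2 n ζ hζV
  obtain ⟨M, hM0, hMM⟩ := SgBM.comp hI hχ hV hVH h1 hζV hK hone n
  refine ⟨(∑ j ∈ Finset.range N, ∫ z in K, ‖sg (f j) (t j) n z‖ ^ 2) + |M * C|, fun i => ?_⟩
  have hnn : ∀ j, 0 ≤ ∫ z in K, ‖sg (f j) (t j) n z‖ ^ 2 := fun j =>
    integral_nonneg fun _ => sq_nonneg _
  by_cases hi : i < N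
  · have := Finset.single_le_sum (f := fun j => ∫ z in K, ‖sg (f j) (t j) n z‖ ^ 2)
      (fun j _ => hnn j) (Finset.mem_range.2 hi)
    have h2 := abs_nonneg (M * C)
    linarith
  · obtain ⟨k, rfl⟩ : ∃ k, i = k + N := ⟨i - N, by omega⟩
    have h2 := hMM (f (k + N)) (t (k + N)) (hm.form (k + N))
    have h3 := mul_le_mul_of_nonneg_left (hC k) hM0
    have h4 := le_abs_self (M * C)
    have h5 := Finset.sum_nonneg (s := Finset.range N) fun j _ => hnn j
    linarith

end

end Pool.Agent.A54.Dyn
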