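import Pool.Agent.Lib.MP_a54f13_nt.Dyn.Base
import Pool.Agent.Lib.MP_a54f13_nt.Spec2

/-!
No directional atoms.  `μ` is a measure on `G = SL(2, ℝ)`, invariant under `SL(2, ℤ)` on the left and
under the geodesic flow on the right, such that over the open set `V` all its Fourier modes in the
direction variable are `L²_loc` functions.  Then the measures on the fibres have no atoms, in the
form `StmtNA`: the modes tend to `0` in the mean.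

Structure of the proof.  `m_z` = the fibre measure at `z` (`ρ_n(z) = ∫ ζ^{-n} dm_z`), `2 aa(v)` = mass
of the atom of `m_{base v}` in the direction of `v`.  `tau μ v` = the transversal measure near `v`
(a measure on pairs of end points (x, y) of geodesics, relative to `v`); the pencil of geodesics
through the base point of `v` is the line `x + y = 0`.
-/

set_option autoImplicit false

namespace Pool.Agent.A54.Dyn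

open MeasureTheory Filter Topology Set
open scoped ComplexConjugate UpperHalfPlane MatrixGroups ENNReal ContDiff

noncomputable section

/-- invariant measures on `SL(2, ℝ)` -/
structure Inv (μ : Measure G) : Prop where
  fin : IsFiniteMeasureOnCompacts μ
  right : ∀ t : ℝ, μ.map (fun g => g * fl t) = μ
  left : ∀ γ : SL(2, ℤ), μ.map (fun g => io γ * g) = μ
  mass : μ (base ⁻¹' ModularGroup.fd) < ⊤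

/-- over `V` the Fourier modes of `μ` are the `L²_loc` functions `ρ n` -/
structure Mod (V : Set ℍ) (ρ : ℤ → ℍ → ℂ) (μ : Measure G) : Prop where
  isOpen : IsOpen V
  meas : ∀ n, Measurable (ρ n)
  loc : ∀ (n : ℤ) (K : Set ℍ), IsCompact K → K ⊆ V → MemLp (ρ n) 2 (volume.restrict K)
  mode : ∀ (n : ℤ) (φ : ℂ → ℂ), Test (UpperHalfPlane.coe '' V) φ →
    ∫ g, φ (base g) * ze g ^ (-n) ∂μ = ∫ z : ℍ, φ z * ρ n z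

/-! ### Basic analysis -/

/-- volumes of balls: Euclidean up to constants (homogeneity: enough at `I`) -/
def StmtBall : Prop := ∃ C : ℝ, 0 < C ∧ ∀ (z : ℍ) (r : ℝ), 0 < r → r ≤ 1 →
  volume (Metric.closedBall z r) ≤ ENNReal.ofReal (C * r ^ 2) ∧
    ENNReal.ofReal (r ^ 2 / C) ≤ volume (Metric.closedBall z r)

/-- volumes of boxes -/
def StmtVol : Prop := ∀ a b α β : ℝ, a ≤ b → α ≤ β →
  volume {z : ℍ | a ≤ z.re ∧ z.re < b ∧ α ≤ Real.log z.im ∧ Real.log z.im < β} =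
    ENNReal.ofReal ((b - a) * (Real.exp (-α) - Real.exp (-β)))

/-- consequences of `Mod` -/
structure Ext (V : Set ℍ) (ρ : ℤ → ℍ → ℂ) (μ : Measure G) : Prop where
  real : ∀ᵐ z ∂(volume.restrict V), ρ 0 z = ((ρ 0 z).re : ℂ) ∧ 0 ≤ (ρ 0 z).re
  bound : ∀ n : ℤ, ∀ᵐ z ∂(volume.restrict V), ‖ρ n z‖ ≤ (ρ 0 z).re
  cj : ∀ n : ℤ, ∀ᵐ z ∂(volume.restrict V), ρ (-n) z = conj (ρ n z)
  proj : ∀ S : Set ℍ, MeasurableSet S → S ⊆ V →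
    μ (base ⁻¹' S) = ∫⁻ z in S, ENNReal.ofReal (ρ 0 z).re
  int : ∀ (n : ℤ) (K : Set ℍ) (ψ : ℍ → ℂ), IsCompact K → K ⊆ V → Measurable ψ →
    (∀ z, z ∉ K → ψ z = 0) → MemLp ψ 2 volume →
    Integrable (fun g => ψ (base g) * ze g ^ (-n)) μ ∧ Integrable (fun z => ψ z * ρ n z) ∧
      ∫ g, ψ (base g) * ze g ^ (-n) ∂μ = ∫ z, ψ z * ρ n z

/-- Order of proof: positivity of `ρ 0` (test against `φ ≥ 0`), equality of the measures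
`map base μ` and `ρ_0 vol` on `V` (two locally finite measures agreeing on smooth test functions:
approximate indicators of compact sets from above by test functions), `|∫ ψ ρ_n| ≤ ∫ |ψ| ρ_0` hence
`‖ρ_n‖ ≤ ρ_0`, conjugation (`conj (ze g) = ze g ^ (-1)`), extension of the mode formula from test
functions to `ψ ∈ L²` with compact support (density, `∫ |ψ(base)| dμ = ∫ |ψ| ρ_0 < ∞`). -/
def StmtExt : Prop := ∀ (V : Set ℍ) (ρ : ℤ → ℍ → ℂ) (μ : Measure G), Inv μ → Mod V ρ μ →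
  Ext V ρ μ

/-- continuity of averages.  Approximate `q` by a continuous function with compact support in
`L²(K')`, and `∫∫_{dist z z' ≤ r, z ∈ K} p(z) e(z') ≤ (1/2) ∫∫ (δ p(z)² + e(z')²/δ)` with
`StmtBall` (also for the measure of balls centered at `z'`). -/
def StmtAvg : Prop := ∀ (V : Set ℍ), IsOpen V → ∀ (p q : ℍ → ℂ), Measurable p → Measurable q →
  (∀ K : Set ℍ, IsCompact K → K ⊆ V →
    MemLp p 2 (volume.restrict K) ∧ MemLp q 2 (volume.restrict K)) →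
  ∀ K : Set ℍ, IsCompact K → K ⊆ V → ∀ ε : ℝ, 0 < ε → ∃ r₁ : ℝ, 0 < r₁ ∧ ∀ r : ℝ, 0 < r → r < r₁ →
    ∫⁻ z in K, ‖p z‖ₑ * ∫⁻ z' in Metric.closedBall z r, ‖q z' - q z‖ₑ ≤ ENNReal.ofReal (ε * r ^ 2)

/-! ### Atoms of the fibre measures -/

/-- peak function: `((2 + 2 Re (ζ / ζ')) / 4)^m` -/
def FF (m : ℕ) (v v' : G) : ℝ := (‖ze v + ze v'‖ ^ 2 / 4) ^ m

/-- `∫ FF m v · dm_{base v}` in terms of the modes -/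
def HH (ρ : ℤ → ℍ → ℂ) (m : ℕ) (v : G) : ℝ :=
  (∑ j ∈ Finset.range (2 * m + 1), ((Nat.choose (2 * m) j : ℂ) / 4 ^ m) *
    ze v ^ ((j : ℤ) - m) * ρ ((j : ℤ) - m) (base v)).re

/-- half of the mass of the atom of the fibre measure in the direction of `v` -/
def aa (ρ : ℤ → ℍ → ℂ) (v : G) : ℝ := (⨅ m, HH ρ m v) / 2

/-- window averages.  `FF m v v' = ∑_j C(2m,j) 4^{-m} (ze v)^{j-m} (ze v')^{-(j-m)}`, so by `Ext.int`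
the inner integral is `Re ∑_j C(2m,j) 4^{-m} (ze v)^{j-m} ∫_{v • S} ρ_{j-m}`, and
`vol (v • S) = vol S`, `v • S ⊆ closedBall (base v) r`; then `Ext.proj` and `StmtAvg`. -/
def StmtWin : Prop := ∀ (V : Set ℍ) (ρ : ℤ → ℍ → ℂ) (μ : Measure G), Inv μ → Mod V ρ μ →
  ∀ K : Set ℍ, IsCompact K → K ⊆ V → ∀ (m : ℕ) (ε : ℝ), 0 < ε →
  ∃ r₁ : ℝ, 0 < r₁ ∧ ∀ r : ℝ, 0 < r → r < r₁ → ∀ S : Set ℍ, MeasurableSet S →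
    S ⊆ Metric.closedBall UpperHalfPlane.I r →
    ∫⁻ v in base ⁻¹' K, ‖(∫ v' in {v' | base (v⁻¹ * v') ∈ S}, FF m v v' ∂μ) -
      HH ρ m v * (volume S).toReal‖ₑ ∂μ ≤ ENNReal.ofReal (ε * r ^ 2)

/-- By `StmtWin` with `S = closedBall I r`, `r → 0`, `HH m` is the `L¹`-limit of averages of
`FF m v ·`, and `0 ≤ FF (m+1) ≤ FF m ≤ 1 = FF 0`, `HH 0 v = Re ρ_0 (base v)`.  Integrability:
`∫_{base⁻¹ K} Re ρ_0 (base v) dμ = ∫_K ρ_0² < ∞`.  Last part: dominated convergence. -/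
def StmtHH : Prop := ∀ (V : Set ℍ) (ρ : ℤ → ℍ → ℂ) (μ : Measure G), Inv μ → Mod V ρ μ →
  (∀ m, Measurable (HH ρ m)) ∧ Measurable (aa ρ) ∧
  (∀ m, ∀ᵐ v ∂(μ.restrict (base ⁻¹' V)), 0 ≤ HH ρ m v ∧ HH ρ (m + 1) v ≤ HH ρ m v ∧
    HH ρ m v ≤ (ρ 0 (base v)).re) ∧
  (∀ᵐ v ∂(μ.restrict (base ⁻¹' V)), 0 ≤ aa ρ v ∧ aa ρ v ≤ (ρ 0 (base v)).re ∧
    Tendsto (fun m => HH ρ m v) atTop (𝓝 (2 * aa ρ v))) ∧
  ∀ K : Set ℍ, IsCompact K → K ⊆ V →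
    ∫⁻ v in base ⁻¹' K, ENNReal.ofReal (ρ 0 (base v)).re ∂μ < ⊤ ∧
    Tendsto (fun m => ∫⁻ v in base ⁻¹' K, ‖HH ρ m v - 2 * aa ρ v‖ₑ ∂μ) atTop (𝓝 0)

/-! ### The transversal measures -/

/-- local product structure: by invariance under the flow (`cX_mul_fl`, `cY_mul_fl`, `cU_mul_fl`)
the image of `μ` under `g ↦ (cP (v⁻¹ g), cU (v⁻¹ g))`, over `Sc (1/2)`, is invariant under
translations of the second variable (and finite on compact sets), hence a product. -/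
def StmtProd : Prop := ∀ μ : Measure G, Inv μ → ∀ (v : G) (S : Set ((ℝ × ℝ) × ℝ)),
  MeasurableSet S → (∀ p ∈ S, p.1 ∈ Sc (1 / 2)) →
    μ {g | v⁻¹ * g ∈ dom ∧ (cP (v⁻¹ * g), cU (v⁻¹ * g)) ∈ S} = ((tau μ v).prod volume) S

/-- properties of the transversal measures -/
structure TauP (μ : Measure G) : Prop where
  fin : ∀ v, tau μ v univ < ⊤
  sub : ∀ v, tau μ v (Sc (1 / 2))ᶜ = 0
  meas : Measurable (tau μ)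
  left : ∀ (γ : SL(2, ℤ)) (v : G), tau μ (io γ * v) = tau μ v
  flow : ∀ (v : G) (t : ℝ) (R : Set (ℝ × ℝ)), MeasurableSet R → R ⊆ Sc (1 / 2) →
    ph t ⁻¹' R ⊆ Sc (1 / 2) → tau μ (v * fl t) R = tau μ v (ph t ⁻¹' R)

/-- `{g ∈ dom | cP g ∈ Sc (1/2), cU g ∈ [0, 1]}` is compact; `flow` follows from `StmtProd` and
`cX_fl_mul`, `cY_fl_mul`, `cU_fl_mul`. -/
def StmtTau : Prop := ∀ μ : Measure G, Inv μ → TauP μ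

/-- change of the reference point.  `cP (g⁻¹ * h) = rel (cP g) (cU g) (cP h)` (`cX_mul`, `cX_inv`, …)
and `cU (g⁻¹ * h) = cU h + (a function of cP h)`; use `StmtProd`. -/
def StmtTrans : Prop := ∀ μ : Measure G, Inv μ → ∀ (v g : G) (R : Set (ℝ × ℝ)), MeasurableSet R →
  R ⊆ Sc (1 / 10) → g ∈ dom → cP g ∈ Sc (1 / 100) → |cU g| ≤ 1 / 100 →
    tau μ (v * g) R = tau μ v {p | p ∈ Sc (1 / 2) ∧ rel (cP g) (cU g) p ∈ R}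

/-! ### Geometry near the identity

`re (base g) = (X e^{-U} + Y e^U) / (Y² e^U + e^{-U})`, `im (base g) = (1 - XY) / (Y² e^U + e^{-U})`. -/

def StmtGeo1 : Prop := ∃ C c : ℝ, 0 < C ∧ 0 < c ∧ ∀ (g : G) (ρ : ℝ), g ∈ dom → |cX g| ≤ 1 / 8 →
  |cY g| ≤ 1 / 8 → ρ ≤ c → |cX g + cY g| ≤ ρ → |cU g| ≤ ρ →
    dist (base g) UpperHalfPlane.I ≤ C * ρ

/-- from `ze_mul` -/
def StmtGeo2 : Prop := ∃ C c : ℝ, 0 < C ∧ 0 < c ∧ ∀ (v g : G),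
  dist (base g) UpperHalfPlane.I ≤ c →
    |‖ze (v * g) - ze v‖ - ‖ze g - 1‖| ≤ C * dist (base g) UpperHalfPlane.I

/-- converse: `g = ± n(x) a(y) k(θ)` with `x + iy = base g`, `e^{-2iθ}` or `e^{2iθ}` `= ze g`. -/
def StmtGeo3 : Prop := ∃ C c : ℝ, 0 < C ∧ 0 < c ∧ ∀ (g : G) (ρ δ : ℝ),
  dist (base g) UpperHalfPlane.I ≤ ρ → ρ ≤ c → ‖ze g - 1‖ ≤ δ → δ ≤ c →
    ∃ g' : G, (g' = g ∨ g' = -g) ∧ g' ∈ dom ∧ |cX g' + cY g'| ≤ C * ρ ∧ |cU g'| ≤ C * ρ ∧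
      |cX g'| ≤ C * (ρ + δ) ∧ |cY g'| ≤ C * (ρ + δ)

def StmtGeo4 : Prop := ∃ C c : ℝ, 0 < C ∧ 0 < c ∧ ∀ (g : G) (δ : ℝ), g ∈ dom → |cX g| ≤ δ →
  |cY g| ≤ δ → |cU g| ≤ δ → δ ≤ c →
    |(base g).re - (cX g + cY g)| ≤ C * δ ^ 2 ∧ |Real.log (base g).im - cU g| ≤ C * δ ^ 2 ∧
      ‖ze g - 1‖ ≤ C * δ ∧ dist (base g) UpperHalfPlane.I ≤ C * δ

/-! ### The mass of strips -/

/-- `2 r * tau μ v R = μ {v' | v⁻¹ v' ∈ dom, cP ∈ R, |cU| < r}` (`StmtProd`)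
`≤ μ (base ⁻¹' closedBall (base v) (C r))` (`StmtGeo1`) `= ∫_{closedBall} ρ_0`; integrate over
`v ∈ base ⁻¹' K`, and use Cauchy-Schwarz, `StmtBall`. -/
def StmtL2up : Prop := ∀ (V : Set ℍ) (ρ : ℤ → ℍ → ℂ) (μ : Measure G), Inv μ → Mod V ρ μ →
  ∀ K : Set ℍ, IsCompact K → K ⊆ V → ∃ C r₁ : ℝ, 0 < C ∧ 0 < r₁ ∧ ∀ r : ℝ, 0 < r → r < r₁ →
    ∫⁻ v in base ⁻¹' K, tau μ v ({p | |p.1 + p.2| < r} ∩ Sc (1 / 8)) ∂μ ≤ ENNReal.ofReal (C * r)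

/-- cones around the line `x + y = 0` -/
def Cone (Λ : ℝ) : Set (ℝ × ℝ) :=
  {p | p.1 * p.2 < 0 ∧ |p.1| ≤ Λ * |p.2| ∧ |p.2| ≤ Λ * |p.1|}

/-- Pure measure theory in the plane.  Put `P_i = {4^{-i-1} ≤ -xy < 4^{-i}}` (invariant under `ph t`)
and `Ω_h = {|log |y/x|| ≤ h}`; `ph t` shifts `log |y/x|` by `2t`.
(1) Averaging over `|t| ≤ t₀`: for `h_i ≤ h₀ := min t₀ 1 / 2` (say),
`∑_i h_i / (2 t₀) * J₁ (P_i ∩ Ω_{h₀}) ≤ sup_t J₁ (ph t ⁻¹' ⋃_i (P_i ∩ Ω_{h_i})) ≤ J₂ (⋃_i …)`; with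
`h_i = c r 2^i` the union is in `{|x + y| < r}`, so `∑_i 2^i J₁ (P_i ∩ Ω_{h₀}) < ∞` (`i ≥ i₀`).
(2) Same trick the other way: `J₀ (P_i ∩ Ω_h) ≤ C h J₁ (P_i ∩ Ω_{h₀})` for `h ≤ h₀ / 2`.
(3) `{|x+y| < r, L₁ r ≤ |x-y| ≤ η} ⊆ ⋃_{i ≥ i(η)} P_i ∩ Ω_{C r 2^i}` (where `C r 2^i ≤ h₀ / 2` if `L₁`
is large), so its `J₀`-measure is `≤ C' r` times a tail of the convergent series.
(4) `Cone Λ ∩ Sc r ⊆ ⋃_{4^{-i-1} ≤ r²} P_i ∩ Ω_{log Λ}`: tail again. -/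
def StmtCross : Prop := ∀ (J₀ J₁ J₂ : Measure (ℝ × ℝ)) (t₀ C r₀ : ℝ), 0 < t₀ → 0 < C → 0 < r₀ →
  J₀ univ < ⊤ → J₁ univ < ⊤ → J₂ univ < ⊤ →
  (∀ t : ℝ, |t| ≤ t₀ → ∀ R : Set (ℝ × ℝ), MeasurableSet R → R ⊆ Sc (1 / 8) →
    ph t ⁻¹' R ⊆ Sc (1 / 8) → J₀ (ph t ⁻¹' R) ≤ J₁ R ∧ J₁ (ph t ⁻¹' R) ≤ J₂ R) →
  (∀ r : ℝ, 0 < r → r < r₀ →
    J₂ ({p | |p.1 + p.2| < r} ∩ Sc (1 / 8)) ≤ ENNReal.ofReal (C * r)) →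
  (∃ L₁ : ℝ, 0 < L₁ ∧ ∀ ε : ℝ, 0 < ε → ∃ η r₁ : ℝ, 0 < η ∧ 0 < r₁ ∧ ∀ r : ℝ, 0 < r → r < r₁ →
    J₀ {p | |p.1 + p.2| < r ∧ L₁ * r ≤ |p.1 - p.2| ∧ |p.1 - p.2| ≤ η} ≤
      ENNReal.ofReal (ε * r)) ∧
  (∃ Λ : ℝ, 1 < Λ ∧ ∀ ε : ℝ, 0 < ε → ∃ r₁ : ℝ, 0 < r₁ ∧ ∀ r : ℝ, 0 < r → r < r₁ →
    J₀ (Cone Λ ∩ Sc r) ≤ ENNReal.ofReal (ε * r))

/-- From `StmtL2up`, `StmtTau`, `StmtCross` with `J_i R = ∫⁻ v in base ⁻¹' K_i, tau μ v R ∂μ`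
(`Measure.bind`), `K = K_0 ⊆ K_1 ⊆ K_2` compact in `V`, `K_{i+1}` a `t₀`-neighbourhood of `K_i`
(`dist_base_fl`), `Inv.right` and `TauP.flow`. -/
def StmtE : Prop := ∀ (V : Set ℍ) (ρ : ℤ → ℍ → ℂ) (μ : Measure G), Inv μ → Mod V ρ μ →
  ∀ K : Set ℍ, IsCompact K → K ⊆ V →
  (∃ L₁ : ℝ, 0 < L₁ ∧ ∀ ε : ℝ, 0 < ε → ∃ η r₁ : ℝ, 0 < η ∧ 0 < r₁ ∧ ∀ r : ℝ, 0 < r → r < r₁ →
    ∫⁻ v in base ⁻¹' K, tau μ v {p | |p.1 + p.2| < r ∧ L₁ * r ≤ |p.1 - p.2| ∧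
      |p.1 - p.2| ≤ η} ∂μ ≤ ENNReal.ofReal (ε * r)) ∧
  (∃ Λ : ℝ, 1 < Λ ∧ ∀ ε : ℝ, 0 < ε → ∃ r₁ : ℝ, 0 < r₁ ∧ ∀ r : ℝ, 0 < r → r < r₁ →
    ∫⁻ v in base ⁻¹' K, tau μ v (Cone Λ ∩ Sc r) ∂μ ≤ ENNReal.ofReal (ε * r))

/-- small boxes in the half-plane -/
def SS (i₁ i₂ r : ℝ) : Set ℍ := {z | r * i₁ ≤ z.re ∧ z.re < r * i₂ ∧ |Real.log z.im| < r}

/-- neighbourhood of the boundary of a small box -/
def NN (i₁ i₂ L C r : ℝ) : Set ℍ := {z | dist z UpperHalfPlane.I ≤ C * L * r ∧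
  (|z.re - r * i₁| ≤ C * L ^ 2 * r ^ 2 ∨ |z.re - r * i₂| ≤ C * L ^ 2 * r ^ 2 ∨
    |(|Real.log z.im|) - r| ≤ C * L ^ 2 * r ^ 2)}

/-- Deterministic comparison, `M = 1 + |i₁| + |i₂|`.  `4 r * tau μ v R` is the `μ`-measure of
`{v' | ± v⁻¹ v' ∈ dom, cP ∈ R, |cU| < r}` (`StmtProd`; the part with `-` by `Inv.left` for `γ = -1`).
Split `{v' | base (v⁻¹ v') ∈ SS i₁ i₂ r}` into
near: `g' = ± v⁻¹ v' ∈ dom` with `cP g' ∈ Sq2 (L r)`: by `StmtGeo4` it agrees with the previous set up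
to `{base (v⁻¹ v') ∈ NN}`, and `FF ≥ 1 - m ‖ze v - ze v'‖² / 4 ≥ 1 - C m L² r²`;
middle: not near and `‖ze v' - ze v‖ ≤ δ₀`: by `StmtGeo2/3`, `|X+Y|, |U| < C M r`,
`L r ≤ |X - Y| ≤ C δ₀` (for small `r`);
far: `‖ze v' - ze v‖ > δ₀`: `FF ≤ (1 - δ₀²/4)^m`  (`‖ζ+ζ'‖² + ‖ζ-ζ'‖² = 4`). -/
def StmtDet : Prop := ∃ C : ℝ, 1 < C ∧ ∀ μ : Measure G, Inv μ → ∀ i₁ i₂ L δ₀ : ℝ, i₁ < i₂ →
  C * (1 + |i₁| + |i₂|) ≤ L → 0 < δ₀ → δ₀ ≤ 1 / C → ∃ r₁ : ℝ, 0 < r₁ ∧ ∀ r : ℝ, 0 < r → r < r₁ →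
  ∀ (m : ℕ) (v : G),
    |4 * r * (tau μ v ({p | r * i₁ ≤ p.1 + p.2 ∧ p.1 + p.2 < r * i₂} ∩ Sq2 (L * r))).toReal -
      ∫ v' in {v' | base (v⁻¹ * v') ∈ SS i₁ i₂ r}, FF m v v' ∂μ| ≤
    (μ {v' | base (v⁻¹ * v') ∈ NN i₁ i₂ L C r}).toReal +
    (C * m * L ^ 2 * r ^ 2 + (1 - δ₀ ^ 2 / 4) ^ m) *
      (μ {v' | base (v⁻¹ * v') ∈ SS i₁ i₂ r}).toReal +
    4 * C * (1 + |i₁| + |i₂|) * r *
      (tau μ v {p | |p.1 + p.2| < C * (1 + |i₁| + |i₂|) * r ∧ L * r ≤ |p.1 - p.2| ∧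
        |p.1 - p.2| ≤ C * δ₀}).toReal

/-- Masses of strips near `v` are given by the atom.  From `StmtDet`, `StmtWin` (for `m` large and
for `m = 0`: `FF 0 = 1`, `HH 0 v = Re ρ_0 (base v)`), `StmtHH`, `StmtE` (first part), `StmtVol` (so
`vol (SS i₁ i₂ r) = r (i₂-i₁) (e^r - e^{-r})`, `vol (NN …) ≤ C' r³`).  Order: `ε`, then `η` of `StmtE`,
then `δ₀`, then `m`, then `r₁`. -/
def StmtF1 : Prop := ∀ (V : Set ℍ) (ρ : ℤ → ℍ → ℂ) (μ : Measure G), Inv μ → Mod V ρ μ →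
  ∀ K : Set ℍ, IsCompact K → K ⊆ V → ∃ L₀ : ℝ, 1 ≤ L₀ ∧ ∀ i₁ i₂ L : ℝ, i₁ < i₂ →
  L₀ * (1 + |i₁| + |i₂|) ≤ L → ∀ ε : ℝ, 0 < ε → ∃ r₁ : ℝ, 0 < r₁ ∧ ∀ r : ℝ, 0 < r → r < r₁ →
    ∫⁻ v in base ⁻¹' K, ‖(tau μ v ({p | r * i₁ ≤ p.1 + p.2 ∧ p.1 + p.2 < r * i₂} ∩
      Sq2 (L * r))).toReal - aa ρ v * (r * (i₂ - i₁))‖ₑ ∂μ ≤ ENNReal.ofReal (ε * r)

/-! ### Density points -/

/-- Small sets have small density in most boxes.  `{v | w⁻¹ v ∈ Bx (M r) (M r)} ⊆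
base ⁻¹' closedBall (base w) (C M r)` and symmetrically, so by Tonelli both integrals are
`≤ ∫_B (∫_{closedBall (base v) (C M r)} ρ_0) dμ(v)`, then `StmtAvg`, `StmtBall`, and absolute
continuity of the integral of `Re ρ_0 (base v)` (integrable over `base ⁻¹' K`). -/
def StmtZone : Prop := ∀ (V : Set ℍ) (ρ : ℤ → ℍ → ℂ) (μ : Measure G), Inv μ → Mod V ρ μ →
  ∀ K : Set ℍ, IsCompact K → K ⊆ V → ∀ M ε : ℝ, 0 < M → 0 < ε →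
  ∃ δ r₁ : ℝ, 0 < δ ∧ 0 < r₁ ∧ ∀ B : Set G, MeasurableSet B → B ⊆ base ⁻¹' K →
    μ B ≤ ENNReal.ofReal δ → ∀ r : ℝ, 0 < r → r < r₁ →
      ∫⁻ w in B, μ {v | w⁻¹ * v ∈ Bx (M * r) (M * r)} ∂μ ≤ ENNReal.ofReal (ε * r ^ 2) ∧
      ∫⁻ w in base ⁻¹' K, μ (B ∩ {v | w⁻¹ * v ∈ Bx (M * r) (M * r)}) ∂μ ≤
        ENNReal.ofReal (ε * r ^ 2)

/-- From `StmtZone` (for a slightly larger compact set): choose `K₁ ⊆ A ⊆ O` with `K₁` compact, `O`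
open and `μ (O \ K₁)` small (near `base ⁻¹' K`).  For `w ∈ K₁` and `r` small the box is in `O`. -/
def StmtZbox : Prop := ∀ (V : Set ℍ) (ρ : ℤ → ℍ → ℂ) (μ : Measure G), Inv μ → Mod V ρ μ →
  ∀ K : Set ℍ, IsCompact K → K ⊆ V → ∀ A : Set G, MeasurableSet A → A ⊆ base ⁻¹' K →
  ∀ M ε : ℝ, 0 < M → 0 < ε → ∃ r₁ : ℝ, 0 < r₁ ∧ ∀ r : ℝ, 0 < r → r < r₁ →
    ∫⁻ w in A, μ ({v | w⁻¹ * v ∈ Bx (M * r) (M * r)} \ A) ∂μ ≤ ENNReal.ofReal (ε * r ^ 2)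

/-- Choice of a good point `w` at scale `r`: Chebyshev's inequality for `StmtF1` (for the finitely many
cells, and for `i = ∓ 8 L` with a larger `L`: `Sq2 (4 L r) ⊆ {|x+y| < 8 L r}`), `StmtZone` applied to
`A \ 𝒜 r` and `ℬ r`, `StmtZbox`.  (`Bx (2 L r) r ⊆ Bx (2 L r) (2 L r)`.) -/
def StmtSel : Prop := ∀ (V : Set ℍ) (ρ : ℤ → ℍ → ℂ) (μ : Measure G), Inv μ → Mod V ρ μ →
  ∀ K : Set ℍ, IsCompact K → K ⊆ V → ∀ (A : Set G) (a₁ a₂ : ℝ), MeasurableSet A →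
  A ⊆ base ⁻¹' K → 0 < μ A → 0 < a₁ → (∀ v ∈ A, a₁ ≤ aa ρ v ∧ aa ρ v ≤ a₂) →
  ∃ L₀ : ℝ, 1 ≤ L₀ ∧ ∀ L : ℝ, L₀ ≤ L → ∀ κ₆ : ℝ, 0 < κ₆ → ∃ δ : ℝ, 0 < δ ∧
  ∀ 𝒜 : ℝ → Set G, (∀ r, MeasurableSet (𝒜 r) ∧ 𝒜 r ⊆ A) →
  (∃ r₂ : ℝ, 0 < r₂ ∧ ∀ r : ℝ, 0 < r → r < r₂ → μ (A \ 𝒜 r) ≤ ENNReal.ofReal δ) →
  ∀ ℬ : ℝ → Set G, (∀ r, MeasurableSet (ℬ r) ∧ ℬ r ⊆ A) →
  Tendsto (fun r => μ (ℬ r)) (𝓝[>] 0) (𝓝 0) → ∀ (N : ℕ) (κ : ℝ), 1 ≤ N → 0 < κ →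
  ∃ r₁ : ℝ, 0 < r₁ ∧ ∀ r : ℝ, 0 < r → r < r₁ → ∃ w ∈ A,
    (∀ k : ℤ, -(N : ℤ) ≤ k → k < N → ENNReal.ofReal (r * ((aa ρ w - κ) / N)) ≤
      tau μ w ({p | r * (k / N) ≤ p.1 + p.2 ∧ p.1 + p.2 < r * ((k + 1) / N)} ∩ Sq2 (L * r))) ∧
    tau μ w (Sq2 (4 * L * r)) ≤ ENNReal.ofReal ((16 * L * a₂ + 1) * r) ∧
    μ ({v | w⁻¹ * v ∈ Bx (2 * L * r) r} \ 𝒜 r) ≤ ENNReal.ofReal (κ₆ * r ^ 2) ∧
    μ ({v | w⁻¹ * v ∈ Bx (2 * L * r) r} ∩ ℬ r) ≤ ENNReal.ofReal (κ * r ^ 2) ∧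
    μ ({v | w⁻¹ * v ∈ Bx (2 * L * r) r} \ A) ≤ ENNReal.ofReal (κ * r ^ 2)

/-! ### Recurrence -/

/-- Poincaré recurrence.  For `D ⊆ A` measurable such that `v fl(jT) ∉ Γ A` for all `v ∈ D`, `j ≥ j₀`
(take `j₀ ≥ 1`): with `D_i = D fl(i j₀ T)` the sets `Γ D_i` are disjoint, and
`μ D = μ D_i ≤ ∑_γ μ (γ⁻¹ D_i ∩ base ⁻¹' fd) ≤ 2 μ (⋃_γ γ⁻¹ D_i ∩ base ⁻¹' fd)`, the sum over `i` is
`≤ 2 μ (base ⁻¹' fd) < ∞`; so `μ D = 0`.  Continuity of measures gives `J`.  Finally for `B ⊆ A`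
`μ {v ∈ A | ∃ γ, io γ * v * fl t ∈ B} ≤ ∑_γ μ (γ A fl t ∩ B) ≤ 2 μ B`. -/
def StmtRec : Prop := ∀ μ : Measure G, Inv μ → ∀ V : Set ℍ, IsOpen V →
  (∀ (γ : SL(2, ℤ)) (z : ℍ), z ∈ V → γ • z ∈ V → γ = 1 ∨ γ = -1) →
  ∀ A : Set G, MeasurableSet A → A ⊆ base ⁻¹' V → μ A < ⊤ → ∀ (T : ℝ) (j₀ : ℕ) (δ : ℝ), 0 < δ →
  ∃ J : ℕ, j₀ ≤ J ∧ ∃ δ' : ℝ, 0 < δ' ∧ ∀ D : ℕ → Set G,
    (∀ j, j₀ ≤ j → j ≤ J → MeasurableSet (D j) ∧ D j ⊆ A ∧ μ (A \ D j) ≤ ENNReal.ofReal δ') →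
    μ {v | v ∈ A ∧ ¬ ∃ j, j₀ ≤ j ∧ j ≤ J ∧ ∃ γ : SL(2, ℤ), io γ * v * fl (j * T) ∈ D j} ≤
      ENNReal.ofReal δ

/-! ### Combinatorics -/

/-- cells of side `1/N` -/
def cell (N : ℕ) (k l : ℤ) : Set (ℝ × ℝ) :=
  {p | (k : ℝ) / N ≤ p.1 ∧ p.1 < (k + 1) / N ∧ (l : ℝ) / N ≤ p.2 ∧ p.2 < (l + 1) / N}

/-- Vitali covering for finitely many intervals: choose a disjoint subfamily of the intervals
`ball y (2 s L)` (greedily, largest first) whose enlargements cover; `∑ s ≤ √S ∑ √s ≤ √S C₀ / a₀`. -/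
def StmtVit : Prop := ∀ L C₀ a₀ s₀ S : ℝ, 0 < L → 0 < C₀ → 0 < a₀ → 0 < s₀ → s₀ ≤ S →
  ∀ ν : Measure ℝ, ν univ ≤ ENNReal.ofReal C₀ → ∀ P : Finset ℝ,
  (∀ y ∈ P, ∃ s : ℝ, s₀ ≤ s ∧ s ≤ S ∧
    ENNReal.ofReal (a₀ * Real.sqrt s) ≤ ν (Metric.ball y (2 * s * L))) →
  volume (⋃ y ∈ P, Metric.closedBall y (s₀ * L)) ≤
    ENNReal.ofReal (100 * L * Real.sqrt S * C₀ / a₀)

/-- a discrete path with small steps fills the interval between its end points -/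
def StmtPath : Prop := ∀ (n : ℕ) (x : ℕ → ℝ) (δ : ℝ) (T : Set ℝ),
  (∀ k < n, |x (k + 1) - x k| ≤ δ) → (∀ k ≤ n, Metric.closedBall (x k) δ ⊆ T) →
    ENNReal.ofReal |x n - x 0| ≤ volume T

/-- Elementary (finite) statement about a measure in the plane.  Write `σ = x + y`.  A cell is heavy if
its mass is `> κ`.  If `κ` is small (`κ ≤ a₁ / (100 L N²)` or so) every strip
`{k/N ≤ σ < (k+1)/N} ∩ Sq2 L`, `-N ≤ k < N`, meets a heavy cell, and the light cells meeting it have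
total mass `≤ a₁ / (8 N)`.  By (c4) two heavy cells at distance `≥ C/N` have displacement outside a
slightly smaller cone, so `|Δx|, |Δy| ≤ C (|Δσ| + 1/N)`, `C = C(Λ)`.  Choose a heavy cell for each
`k`: a path `(x_k, y_k)` with steps `≤ C/N`, `x_k + y_k = k/N + O(1/N)`, and every heavy cell of the
strip `k` is `C/N`-close to it.  By (c3) all but `≤ 4 κ₆ N / a₁` of the strips contain a point
`p_k ∉ 𝒩` in a heavy cell.  By (c5) (first part) and Vitali covering in the line (disjoint subfamily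
of the intervals `|y - y(p_k)| < 2 s_k L`, whose masses `≥ a₀ √s_k` add up to `≤ C₀`, (c2)) the set
`{y(p_k)}` is covered by intervals of total length `≤ C L √S C₀ / a₀`; `1/N` is much smaller than
`s₀`.  Hence the path `y_k` stays in a set of length `≤ C L √S C₀/a₀ + C κ₆/a₁ < 1/4`; the same for
`x_k`; but `x_k + y_k` moves by `2 - O(1/N)`. -/
def StmtComb : Prop := ∀ a₁ a₂ L Λ C₀ : ℝ, 0 < a₁ → a₁ ≤ a₂ → 1 ≤ L → 1 < Λ → 0 < C₀ →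
  ∃ κ₆ : ℝ, 0 < κ₆ ∧ ∀ a₀ : ℝ, 0 < a₀ → ∃ S : ℝ, 0 < S ∧ ∀ s₀ : ℝ, 0 < s₀ → s₀ ≤ S →
  ∃ (N : ℕ) (κ : ℝ), 1 ≤ N ∧ 0 < κ ∧ ∀ (τ : Measure (ℝ × ℝ)) (a : ℝ) (𝒩 : Set (ℝ × ℝ)),
  a₁ ≤ a → a ≤ a₂ → MeasurableSet 𝒩 →
  -- (c1)
  (∀ k : ℤ, -(N : ℤ) ≤ k → k < N → ENNReal.ofReal ((a - κ) / N) ≤
    τ ({p | (k : ℝ) / N ≤ p.1 + p.2 ∧ p.1 + p.2 < (k + 1) / N} ∩ Sq2 L)) →
  -- (c2)
  τ (Sq2 (4 * L)) ≤ ENNReal.ofReal C₀ →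
  -- (c3)
  τ 𝒩 ≤ ENNReal.ofReal κ₆ →
  -- (c4)
  (∀ k l k' l' : ℤ, (cell N k l ∩ Sq2 L).Nonempty → (cell N k' l' ∩ Sq2 L).Nonempty →
    (∀ p ∈ cell N k l, ∀ p' ∈ cell N k' l', (p'.1 - p.1, p'.2 - p.2) ∈ Cone Λ) →
      τ (cell N k l) ≤ ENNReal.ofReal κ ∨ τ (cell N k' l') ≤ ENNReal.ofReal κ) →
  -- (c5)
  (∀ p ∈ Sq2 L \ 𝒩,
    (∃ s : ℝ, s₀ ≤ s ∧ s ≤ S ∧ ENNReal.ofReal (a₀ * Real.sqrt s) ≤
      τ {p' | |p'.1 - p.1| < 2 * L ∧ |p'.2 - p.2| < 2 * s * L}) ∧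
    (∃ s : ℝ, s₀ ≤ s ∧ s ≤ S ∧ ENNReal.ofReal (a₀ * Real.sqrt s) ≤
      τ {p' | |p'.1 - p.1| < 2 * s * L ∧ |p'.2 - p.2| < 2 * L})) →
  False

/-! ### From the group to the combinatorial statement -/

/-- cells at scale `r` -/
def scell (r : ℝ) (N : ℕ) (k l : ℤ) : Set (ℝ × ℝ) := {p | (p.1 / r, p.2 / r) ∈ cell N k l}

/-- If `tau μ w (scell …) > κ r` then (`StmtProd`) `μ {v | w⁻¹ v ∈ dom, cP ∈ scell, |cU| < r} > 2 κ r²`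
so it contains `v ∈ A` with `tau μ v (Cone Λ' ∩ Sc (8 L r)) < κ r`, and by `StmtTrans` (for `r` small)
the left side is `≥ tau μ w (scell' …)`. -/
def StmtTc4 : Prop := ∀ μ : Measure G, Inv μ → ∀ (Λ Λ' L κ : ℝ) (N : ℕ), 1 < Λ → Λ < Λ' → 1 ≤ L →
  0 < κ → 1 ≤ N → ∃ r₁ : ℝ, 0 < r₁ ∧ ∀ r : ℝ, 0 < r → r < r₁ → ∀ (w : G) (A : Set G),
    μ ({v | w⁻¹ * v ∈ Bx (2 * L * r) r} ∩
      {v | v ∈ A ∧ ENNReal.ofReal (κ * r) ≤ tau μ v (Cone Λ' ∩ Sc (8 * L * r))}) ≤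
        ENNReal.ofReal (κ * r ^ 2) →
    μ ({v | w⁻¹ * v ∈ Bx (2 * L * r) r} \ A) ≤ ENNReal.ofReal (κ * r ^ 2) →
    ∀ k l k' l' : ℤ, (cell N k l ∩ Sq2 L).Nonempty → (cell N k' l' ∩ Sq2 L).Nonempty →
      (∀ p ∈ cell N k l, ∀ p' ∈ cell N k' l', (p'.1 - p.1, p'.2 - p.2) ∈ Cone Λ) →
        tau μ w (scell r N k l) ≤ ENNReal.ofReal (κ * r) ∨
        tau μ w (scell r N k' l') ≤ ENNReal.ofReal (κ * r)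

/-- `TauP.left`, `TauP.flow`: with `ρ = r e^{-j}`, `tau μ (io γ * v * fl j) (Sq2 (L ρ)) =
tau μ v {|x| < L r, |y| < L r e^{-2j}}`, then `StmtTrans` from `v = w * g` to `w` (`r` small).
Second part: the same with `fl (-j)`. -/
def StmtTc5 : Prop := ∀ μ : Measure G, Inv μ → ∀ (L : ℝ) (J : ℕ), 1 ≤ L →
  ∃ r₁ : ℝ, 0 < r₁ ∧ ∀ r : ℝ, 0 < r → r < r₁ → ∀ (w v : G) (γ : SL(2, ℤ)) (j : ℕ), j ≤ J →
    w⁻¹ * v ∈ dom → cP (w⁻¹ * v) ∈ Sq2 (L * r) → |cU (w⁻¹ * v)| < r →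
    tau μ (io γ * v * fl (j * 1)) (Sq2 (L * (r * Real.exp (-j)))) ≤
      tau μ w {p | |p.1 - cX (w⁻¹ * v)| < 2 * L * r ∧
        |p.2 - cY (w⁻¹ * v)| < 2 * Real.exp (-j) ^ 2 * L * r} ∧
    tau μ (io γ * v * fl (j * (-1))) (Sq2 (L * (r * Real.exp (-j)))) ≤
      tau μ w {p | |p.1 - cX (w⁻¹ * v)| < 2 * Real.exp (-j) ^ 2 * L * r ∧
        |p.2 - cY (w⁻¹ * v)| < 2 * L * r}

/-- Fubini.  `𝒩` = set of `p ∈ Sq2 (L r)` such that `w * ch p u ∉ 𝒜` for almost every `|u| < r`. -/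
def StmtN3 : Prop := ∀ μ : Measure G, Inv μ → ∀ (w : G) (L r : ℝ) (𝒜 : Set G), 0 < r → 0 < L →
  L * r ≤ 1 / 2 → MeasurableSet 𝒜 → ∃ 𝒩 : Set (ℝ × ℝ), MeasurableSet 𝒩 ∧ 𝒩 ⊆ Sq2 (L * r) ∧
    ENNReal.ofReal (2 * r) * tau μ w 𝒩 ≤ μ ({v | w⁻¹ * v ∈ Bx (L * r) r} \ 𝒜) ∧
    ∀ p ∈ Sq2 (L * r) \ 𝒩, ∃ v ∈ 𝒜, w⁻¹ * v ∈ dom ∧ cP (w⁻¹ * v) = p ∧ |cU (w⁻¹ * v)| < r

/-- no atoms over sets `V` on which the quotient map is injective.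
From `StmtHH`, `StmtF1`, `StmtE` (second part), `StmtTau`, `StmtSel`, `StmtRec`, `StmtComb`,
`StmtTc4`, `StmtTc5`, `StmtN3`.  If not, there are `K` compact in `V`, `0 < a₁ ≤ a₂` such that
`A = {v ∈ base ⁻¹' K | a₁ ≤ aa v ≤ a₂}` has positive (finite) measure.  `L` large for `StmtSel` and
`StmtF1` (with `i = ∓1`), `Λ' ` from `StmtE`, `Λ = (1 + Λ')/2`, `C₀ = 16 L a₂ + 1`.  `StmtComb` gives
`κ₆'`; `StmtSel` with `κ₆ = κ₆'` gives `δ`; `a₀ = a₁`; `S`; `j₀` with `e^{-2 j₀} ≤ S`; `StmtRec` for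
`T = ±1` and `δ/2` gives `J_±`, `δ'_±`; `s₀ = e^{-2J}`; `N, κ`.
`D_ρ = {v ∈ A | a₁ ρ ≤ tau μ v (Sq2 (L ρ))}`: by `StmtF1` and Chebyshev `μ (A \ D_ρ) → 0` as `ρ → 0`.
`𝒜 r` = set of `v ∈ A` such that for both signs there are `j₀ ≤ j ≤ J`, `γ` with
`io γ * v * fl (± j) ∈ D_{r e^{-j}}`; `ℬ r = {v ∈ A | κ r ≤ tau μ v (Cone Λ' ∩ Sc (8 L r))}`.
For `w` from `StmtSel` apply `StmtComb` to the image of `r⁻¹ • tau μ w` under `p ↦ p / r`. -/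
def StmtZero : Prop := ∀ (V : Set ℍ) (ρ : ℤ → ℍ → ℂ) (μ : Measure G), Inv μ → Mod V ρ μ →
  (∀ (γ : SL(2, ℤ)) (z : ℍ), z ∈ V → γ • z ∈ V → γ = 1 ∨ γ = -1) →
    ∀ᵐ v ∂(μ.restrict (base ⁻¹' V)), aa ρ v = 0

/-- From `StmtZero` applied to `V ∩ γ • fdo` (`fdo` = the open fundamental domain; the union of its
translates has full measure in `ℍ`, and `map base μ ≪ vol` on `V` by `Ext.proj`), `StmtHH`: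
`aa = 0` a.e. over `V`, so `∫_{base⁻¹ K} HH m dμ → 0`; and
`∫_{base⁻¹ K} HH m dμ = ∑_j C(2m,j) 4^{-m} ∫_K ‖ρ_{j-m}‖²` (`Ext.int`, `Ext.cj`) while
`C(2m, m+k) 4^{-m} ≥ c / √m` for `|k| ≤ √m`. -/
def StmtNA : Prop := ∀ (V : Set ℍ) (ρ : ℤ → ℍ → ℂ) (μ : Measure G), Inv μ → Mod V ρ μ →
  ∀ K : Set ℍ, IsCompact K → K ⊆ V →
    Tendsto (fun N : ℕ => (∑ n ∈ Finset.range N, ∫ z in K, ‖ρ n z‖ ^ 2) / N) atTop (𝓝 0)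

/-- the last step of `StmtNA` -/
def StmtCes : Prop := ∀ (V : Set ℍ) (ρ : ℤ → ℍ → ℂ) (μ : Measure G), Inv μ → Mod V ρ μ →
  (∀ᵐ v ∂(μ.restrict (base ⁻¹' V)), aa ρ v = 0) → ∀ K : Set ℍ, IsCompact K → K ⊆ V →
    Tendsto (fun N : ℕ => (∑ n ∈ Finset.range N, ∫ z in K, ‖ρ n z‖ ^ 2) / N) atTop (𝓝 0)

/-- binomial coefficients near the centre -/
def StmtBin : Prop := ∃ c : ℝ, 0 < c ∧ ∀ m k : ℕ, 1 ≤ m → k ^ 2 ≤ m →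
  c / Real.sqrt m ≤ (Nat.choose (2 * m) (m + k) : ℝ) / 4 ^ m

end

end Pool.Agent.A54.Dyn
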