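import Pool.Agent.Lib.MP_a54f13_nt.Dyn.Spec
import Pool.Agent.Lib.MP_a54f13_nt.Half2

/-!
Existence of the limiting measure (microlocal lift) on `SL(2, ℝ)` for a sequence of Hecke–Maass
forms with `t → ∞`: statements of the modules.
-/

set_option autoImplicit false

namespace Pool.Agent.A54.Dyn

open MeasureTheory Filter Topology Set
open scoped ComplexConjugate UpperHalfPlane MatrixGroups ENNReal ContDiff
open Pool.Agent.A54.Half (H0 qq ff hh)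

noncomputable section

/-! ### Flat statements (see `Spec.lean`, `Spec2.lean` for `Seq`, `Sol`, `L2Bdd`, `ss`, `gg`) -/

/-- moving derivatives; copy `Weak2.bd_gg, bd_sm, bd_ss, step, move` (file Weak2.lean), replacing the
hypothesis `Sm` by `Seq` and `L2Bdd` (the bounds for the second moments are now a hypothesis) -/
def StmtMove : Prop := ∀ (V : Set ℂ) (q : ℂ → ℝ) (h : ℕ → ℝ) (f : ℕ → ℂ → ℝ), Seq V q h f →
  L2Bdd V f →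
  (∀ (a b : ℤ) (φ : ℂ → ℂ), Test V φ →
    Tendsto (fun i => (∫ z, φ z * (ss q (h i) (f i) (a + 1) z * ss q (h i) (f i) b z)) +
      ∫ z, φ z * (ss q (h i) (f i) a z * ss q (h i) (f i) (b + 1) z)) atTop (𝓝 0)) ∧
  (∀ (n : ℕ) (ζ : ℂ → ℝ), TestR V ζ → ∃ C : ℝ, ∀ i,
    ∫ z, ζ z ^ 2 * ‖gg (h i) (f i) n z‖ ^ 2 ≤ C)

/-- second order error term: `D̄ g_{n+2} = - q g_{n+1} - (n+1) h (∂q) g_n + O(h²)`; see Err.lean -/
def StmtErr2 : Prop := ∀ (V : Set ℂ) (q : ℂ → ℝ), Pot V q → ∀ (n : ℕ) (K : Set ℂ), IsCompact K →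
  K ⊆ V → ∃ C : ℝ, 0 ≤ C ∧ ∀ (h : ℝ) (f : ℂ → ℝ), Sol V q h f → ∀ z ∈ K,
    ‖(h : ℂ) * dzb (gg h f (n + 2)) z + (q z : ℂ) * gg h f (n + 1) z +
      (h : ℂ) * (n + 1) * dz (fun w => (q w : ℂ)) z * gg h f n z‖ ≤
      h ^ 2 * (C * ∑ j ∈ Finset.range (n + 1), ‖gg h f j z‖)

/-- transport equation, `m = n + 1`:  `0 = ∫ ∂̄ (φ f g_{m+1})
= ∫ ∂̄φ f g_{m+1} + h⁻¹ φ (D̄f) g_{m+1} + h⁻¹ φ f D̄ g_{m+1}` and
`0 = ∫ ∂ (φ (D̄f) g_m) = ∫ ∂φ (D̄f) g_m + h⁻¹ φ (D D̄ f) g_m + h⁻¹ φ (D̄f) g_{m+1}`, where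
`D D̄ f = D̄ D f = - q f`; subtract, use `StmtErr2` for `D̄ g_{m+1}` (the terms `h⁻¹ φ q f g_m` cancel)
and `∫ ∂φ (D̄f) g_m = ∫ (q ∂φ) f g_{m-1} + o(1)` (`D̄ f = - q s_{-1}` and `StmtMove`:
`s_{-1} s_m ~ - s_0 s_{m-1}`). -/
def StmtFT : Prop := ∀ (V : Set ℂ) (q : ℂ → ℝ) (h : ℕ → ℝ) (f : ℕ → ℂ → ℝ), Seq V q h f →
  L2Bdd V f → ∀ (n : ℕ) (φ : ℂ → ℂ), Test V φ →
    Tendsto (fun i => ∫ z, (-(dzb φ z) * ((f i z : ℂ) * gg (h i) (f i) (n + 2) z) +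
      ((q z : ℂ) * dz φ z + (n + 1) * dz (fun w => (q w : ℂ)) z * φ z) *
        ((f i z : ℂ) * gg (h i) (f i) n z))) atTop (𝓝 0)

/-! ### Hecke–Maass forms on the half-plane -/

/-- `y^n (h ∂)^n f` with `h = (1/4 + t²)^{-1/2}` -/
def sg (f : ℍ → ℝ) (t : ℝ) (n : ℕ) (z : ℍ) : ℂ :=
  ((Real.sqrt (1 / 4 + t ^ 2) : ℝ) : ℂ)⁻¹ ^ n *
    ((z.im : ℂ) ^ n * (dz^[n] (fun w => (ext f w : ℂ))) z)

/-- sequences of Hecke–Maass forms with `t → ∞` -/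
structure HM (f : ℕ → ℍ → ℝ) (t : ℕ → ℝ) : Prop where
  form : ∀ i, IsHeckeMaass (f i) (t i)
  lim : Tendsto t atTop atTop

/-- Uniform bounds of second moments, over compact sets and over a neighbourhood of the fundamental
domain.  A compact set meets only finitely many translates of (a compact part of) `fd`.  For the
second part: `{|x| < 1, y > 2}` is covered by 3 translates, `{|x| ≤ 1, 1/2 ≤ y ≤ 2}` is compact.
(`∫_{γ fd} f² = ∫_{fd} f² = ∫_{fdo} f² = π/3`, the boundary of `fd` is a null set.)  Third part: in the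
flat setting. -/
def StmtLB : Prop :=
  (∀ K : Set ℍ, IsCompact K → ∃ C : ℝ, ∀ (f : ℍ → ℝ) (t : ℝ), IsHeckeMaass f t →
    ∫ z in K, f z ^ 2 ≤ C) ∧
  (∃ C : ℝ, ∀ (f : ℍ → ℝ) (t : ℝ), IsHeckeMaass f t →
    ∫⁻ z in {z : ℍ | |z.re| < 1 ∧ 1 / 2 < z.im}, ENNReal.ofReal (f z ^ 2) ≤ ENNReal.ofReal C) ∧
  ∀ (χ : ℂ → ℝ) (V : Set ℂ), TestR H0 χ → IsOpen V → V ⊆ H0 → (∀ z ∈ V, χ z = 1) →
    ∀ (f : ℕ → ℍ → ℝ) (t : ℕ → ℝ), (∀ i, IsHeckeMaass (f i) (t i)) →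
      L2Bdd V (fun i => ff χ (f i))

/-- bounds for `sg` (from `StmtMove`, second part, and `StmtLB`, third part; `Half2.seq`, `Half.setup`,
and `sg f t n z = y^n gg (hh t) (ff χ f) n z` where `χ = 1`; for the finitely many `i` with `t i < 1`
use continuity) -/
def StmtSgB : Prop := ∀ (f : ℕ → ℍ → ℝ) (t : ℕ → ℝ), HM f t →
  (∀ i n, Continuous (sg (f i) (t i) n)) ∧
  ∀ (n : ℕ) (K : Set ℍ), IsCompact K → ∃ C : ℝ, ∀ i, ∫ z in K, ‖sg (f i) (t i) n z‖ ^ 2 ≤ C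

/-- From `StmtMove`: `sg_k conj sg_j = (-1)^j y^{k-j} s_k s_{-j}` (`s = ss`), and `(a, b) = (k, -j-1)`;
second part: `s_0 s_n ~ (-1)^n s_n s_0`. -/
def StmtA1 : Prop := ∀ (f : ℕ → ℍ → ℝ) (t : ℕ → ℝ), HM f t → ∀ φ : ℂ → ℂ, Test H0 φ →
  (∀ k j : ℕ, Tendsto (fun i =>
    (∫ z : ℍ, φ z * (sg (f i) (t i) (k + 1) z * conj (sg (f i) (t i) (j + 1) z))) -
    ∫ z : ℍ, φ z * (sg (f i) (t i) k z * conj (sg (f i) (t i) j z))) atTop (𝓝 0)) ∧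
  (∀ n : ℕ, Odd n → Tendsto (fun i => ∫ z : ℍ, φ z * (f i z * sg (f i) (t i) n z)) atTop (𝓝 0))

/-- From `StmtFT` with the test function `i y^{n+1} φ` and `q = y⁻²`
(`∂ y = -i`, `∂̄ y = i`, `dvol = y⁻² dx dy`). -/
def StmtA2 : Prop := ∀ (f : ℕ → ℍ → ℝ) (t : ℕ → ℝ), HM f t → ∀ (n : ℕ) (φ : ℂ → ℂ), Test H0 φ →
  Tendsto (fun i => ∫ z : ℍ,
    ((Complex.I * z.im * dz φ z - (n + 1) * φ z) * (f i z * sg (f i) (t i) n z) +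
      (-(Complex.I * z.im * dzb φ z) + (n + 1) * φ z) * (f i z * sg (f i) (t i) (n + 2) z)))
    atTop (𝓝 0)

/-- Left quasi-invariance.  With `j = c z + d`: `sg_n (γ z) = ∑_{k ≤ n} h^{n-k} a_{n,k}(z) sg_k(z)` with
`a_{n,k}` smooth on the half-plane, not depending on `f, t`, and `a_{n,n} = (j / conj j)^n`
(induction: `sg_{n+1} = h (y ∂ sg_n + i n sg_n)`, `∂ (F ∘ γ) = (∂F ∘ γ) γ'`, `γ' = j⁻²`, `γ` is
holomorphic, so `(y ∂F)(γ z) = y (j / conj j) ∂(F ∘ γ)(z)`).  Then substitute `z → γ z` in the first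
integral (`f ∘ γ = f`) and use the bounds of `StmtSgB`. -/
def StmtA3 : Prop := ∀ (f : ℕ → ℍ → ℝ) (t : ℕ → ℝ), HM f t → ∀ (γ : SL(2, ℤ)) (n : ℕ)
  (φ : ℂ → ℂ), Test H0 φ →
  Tendsto (fun i => (∫ z : ℍ, φ z * (f i z * sg (f i) (t i) n z)) -
    ∫ z : ℍ, φ ((γ • z : ℍ) : ℂ) *
      ((((γ 1 0 : ℂ) * z + (γ 1 1 : ℂ)) / ((γ 1 0 : ℂ) * conj (z : ℂ) + (γ 1 1 : ℂ))) ^ n *
        (f i z * sg (f i) (t i) n z))) atTop (𝓝 0)

/-! ### Construction of the measure -/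

/-- Abstract construction.  For `F ∈ C_c(G)` put, with `k_θ` = rotation, `z.toSL2R • I = z`,
`Λ_{i,N}(F) = 1/N ∫_ℍ (1/2π) ∫_0^{2π} F(z.toSL2R * k_θ) |∑_{k < N} ζ(θ)^k s_{i,k}(z)|² dθ dvol(z)`,
where `ζ(θ) = ze (z.toSL2R * k_θ) = ze k_θ = e^{±2iθ}`.  If `F = φ(base) ze^{-n}` this is
`1/N ∑_{k-j=n} ∫ φ s_{i,k} conj s_{i,j}`.  Let `i → ∞`, then `N → ∞` along the hyperfilter: positive
linear functional, bounded by `C_K sup |F|` if `F` is supported in `base ⁻¹' K` (`rel` with `φ` a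
cutoff); Riesz–Markov–Kakutani (`RealRMK.rieszMeasure`).  `-1` is a rotation, so the measure is
invariant under `g ↦ -g`. -/
def StmtLift : Prop := ∀ s : ℕ → ℕ → ℍ → ℂ, (∀ i k, Continuous (s i k)) →
  (∀ (k : ℕ) (K : Set ℍ), IsCompact K → ∃ C : ℝ, ∀ i, ∫ z in K, ‖s i k z‖ ^ 2 ≤ C) →
  (∀ (k j : ℕ) (φ : ℂ → ℂ), Test H0 φ → Tendsto (fun i =>
    (∫ z : ℍ, φ z * (s i (k + 1) z * conj (s i (j + 1) z))) -
      ∫ z : ℍ, φ z * (s i k z * conj (s i j z))) atTop (𝓝 0)) →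
  ∃ μ : Measure G, IsFiniteMeasureOnCompacts μ ∧ μ.map (fun g => -g) = μ ∧
    ∀ (n : ℕ) (φ : ℂ → ℂ), Test H0 φ →
      Tendsto (fun i => ∫ z : ℍ, φ z * (s i n z * conj (s i 0 z))) (hyperfilter ℕ : Filter ℕ)
        (𝓝 (∫ g, φ (base g) * ze g ^ (-(n : ℤ)) ∂μ))

/-- derivative of `φ(base g) (ze g)^n` along the flow -/
def Xf (φ : ℂ → ℂ) (n : ℤ) (g : G) : ℂ :=
  1 / 2 * ((base g).im : ℂ) * (Complex.I * ze g * dz φ (base g) -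
    Complex.I * (ze g)⁻¹ * dzb φ (base g)) * ze g ^ n +
  (n : ℂ) / 2 * φ (base g) * (ze g ^ (n + 1) - ze g ^ (n - 1))

/-- `d/dt base (g fl t) = i y ζ`, `d/dt ζ = (ζ² - 1)/2` at `t = 0`; first for `g = 1` or by direct
computation from `base_coe` and the definition of `ze` -/
def StmtXd : Prop := ∀ (φ : ℂ → ℂ) (n : ℤ) (g : G), ContDiff ℝ ∞ φ →
  HasDerivAt (fun t : ℝ => φ (base (g * fl t)) * ze (g * fl t) ^ n) (Xf φ n g) 0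

/-- the entries of a group element as a vector -/
def ent (g : G) : Fin 2 → Fin 2 → ℝ := fun i j => g i j

/-- derivative of the entries along the flow -/
def xd (g : G) : Fin 2 → Fin 2 → ℝ := fun i j => if j = 0 then g i 0 / 2 else -(g i 1) / 2

/-- Density.  `F(g) = (Φ(ent g) + Φ(-ent g))/2`, `F_N(g) = (1/2π) ∫_0^{2π} F(g k_θ) K_N(θ) dθ` with the
Fejér kernel in the variable `2θ` (`k_θ` has period `π` modulo `±1`).  `F_N = ∑_{|n| ≤ N} φ_n(base g)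
(ze g)^n` where `φ_n(z) = (1/2π) ∫ F(z.toSL2R k_θ) (1 - |n|/(N+1)) (ze k_θ)^{-n} dθ` is smooth with
compact support.  Both `F` and its derivative along the flow
`g ↦ d/dt F(g fl t k_θ)` (continuous in `(g, θ)` with compact support) are uniformly continuous, so the
Fejér means converge uniformly (to the value at `θ = 0`).  The derivative of `F_N` along the flow is
`∑ Xf φ_n n` (`StmtXd`). -/
def StmtFej : Prop := ∀ Φ : (Fin 2 → Fin 2 → ℝ) → ℝ, ContDiff ℝ ∞ Φ → HasCompactSupport Φ →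
  ∃ K : Set ℍ, IsCompact K ∧ ∀ ε : ℝ, 0 < ε → ∃ (N : ℕ) (φ : ℤ → ℂ → ℂ), (∀ n, Test H0 (φ n)) ∧
    (∀ (n : ℤ) (z : ℍ), z ∉ K → φ n z = 0) ∧ ∀ g : G,
    ‖(∑ n ∈ Finset.Icc (-(N : ℤ)) N, φ n (base g) * ze g ^ n) -
      (((Φ (ent g) + Φ (-ent g)) / 2 : ℝ) : ℂ)‖ ≤ ε ∧
    ‖(∑ n ∈ Finset.Icc (-(N : ℤ)) N, Xf (φ n) n g) -
      (((fderiv ℝ Φ (ent g) (xd g) + fderiv ℝ Φ (-ent g) (-xd g)) / 2 : ℝ) : ℂ)‖ ≤ ε

/-- smooth functions of the entries determine measures on the group (push forward to `ℝ⁴`, the group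
is closed) -/
def StmtDens : Prop := ∀ μ ν : Measure G, IsFiniteMeasureOnCompacts μ →
  IsFiniteMeasureOnCompacts ν → (∀ Φ : (Fin 2 → Fin 2 → ℝ) → ℝ, ContDiff ℝ ∞ Φ →
    HasCompactSupport Φ → ∫ g, Φ (ent g) ∂μ = ∫ g, Φ (ent g) ∂ν) → μ = ν

/-- From `StmtFej`, `StmtDens`: `I(t) = ∫ Φ(ent (g fl t)) dμ` has derivative
`∫ fderiv Φ_t (ent g) (xd g) dμ = 0`, `Φ_t(M) = Φ(M fl t)`. -/
def StmtFlow : Prop := ∀ μ : Measure G, IsFiniteMeasureOnCompacts μ →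
  μ.map (fun g => -g) = μ → (∀ (n : ℤ) (φ : ℂ → ℂ), Test H0 φ → ∫ g, Xf φ n g ∂μ = 0) →
    ∀ t : ℝ, μ.map (fun g => g * fl t) = μ

/-- From `StmtFej`, `StmtDens`. -/
def StmtLeft : Prop := ∀ μ : Measure G, IsFiniteMeasureOnCompacts μ →
  μ.map (fun g => -g) = μ → ∀ γ : SL(2, ℤ), (∀ (n : ℤ) (φ : ℂ → ℂ), Test H0 φ →
    ∫ g, φ (base (io γ * g)) * ze (io γ * g) ^ n ∂μ = ∫ g, φ (base g) * ze g ^ n ∂μ) →
    μ.map (fun g => io γ * g) = μ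

/-- Assembly.  `μ` from `StmtLift` with `s i k = sg (f i) (t i) k` (`StmtSgB`, `StmtA1`).
Modes on `V`: the hyperfilter limit is the limit; negative `n` by conjugation; `ρ'` = measurable
versions, `ρ'_{-n} = conj ρ'_n`.  `Inv.right`: `StmtFlow`; `∫ Xf φ m dμ = 0` for `m = -(n+1)` by
`StmtA2`, for `m ≥ 1` by conjugation (`conj (Xf φ m) = Xf (conj φ) (-m)`), for `m = 0` by `StmtA1`
(second part, `n = 1`).  `Inv.left`: `StmtLeft`, `StmtA3`, `ze_mul`, `base_mul`.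
`Inv.mass`: `∫ φ(base g) dμ = lim ∫ φ f² ≤ C` for test functions `0 ≤ φ ≤ 1` supported in
`{|x| < 1, y > 1/2} ⊇ fd` (`StmtLB`, second part). -/
def StmtSC : Prop := ∀ (f : ℕ → ℍ → ℝ) (t : ℕ → ℝ), HM f t → ∀ V : Set ℍ, IsOpen V →
  ∀ ρ : ℕ → ℍ → ℂ, (∀ (n : ℕ) (K : Set ℍ), IsCompact K → K ⊆ V →
    MemLp (ρ n) 2 (volume.restrict K)) →
  (∀ (n : ℕ) (φ : ℂ → ℂ), Test (UpperHalfPlane.coe '' V) φ →
    Tendsto (fun i => ∫ z : ℍ, φ z * (f i z * sg (f i) (t i) n z)) atTop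
      (𝓝 (∫ z : ℍ, φ z * ρ n z))) →
  ∃ (μ : Measure G) (ρ' : ℤ → ℍ → ℂ), Inv μ ∧ Mod V ρ' μ ∧
    ∀ n : ℕ, ∀ᵐ z ∂(volume.restrict V), ρ' n z = ρ n z

/-- first half of the assembly: the measure with all its properties (`Inv`, and the modes as
hyperfilter limits) -/
def StmtLim : Prop := ∀ (f : ℕ → ℍ → ℝ) (t : ℕ → ℝ), HM f t → ∃ μ : Measure G, Inv μ ∧
  ∀ (n : ℕ) (φ : ℂ → ℂ), Test H0 φ →
    Tendsto (fun i => ∫ z : ℍ, φ z * (f i z * sg (f i) (t i) n z)) (hyperfilter ℕ : Filter ℕ)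
      (𝓝 (∫ g, φ (base g) * ze g ^ (-(n : ℤ)) ∂μ))

/-! ### Conclusion for sequences of Hecke–Maass forms, in the flat setting -/

/-- From `StmtSC` (or `StmtLim`) and `StmtNA`.  If the localised forms `ff χ (f i)` converge on `V`
(`Sm V (qq χ) …`, `χ = 1` on `V`), then `ρ_n(z) = y^n r_n(z)` are the modes over
`{z : ℍ | (z : ℂ) ∈ V}`, `pp (qq χ) r n = |ρ_n|²` on `V`, and `dvol = y⁻² dx dy`. -/
def StmtNAf : Prop := ∀ (f : ℕ → ℍ → ℝ) (t : ℕ → ℝ), HM f t → ∀ (χ : ℂ → ℝ) (V : Set ℂ),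
  TestR H0 χ → V ⊆ H0 → (∀ z ∈ V, χ z = 1) → ∀ r : ℕ → ℂ → ℂ,
  Sm V (qq χ) (fun i => hh (t i)) (fun i => ff χ (f i)) r →
  ∀ w : ℂ → ℝ, TestR V w → (∀ z, 0 ≤ w z) →
    Tendsto (fun N : ℕ => (∑ n ∈ Finset.range N, ∫ z, w z * pp (qq χ) r n z) / N) atTop (𝓝 0)

end

end Pool.Agent.A54.Dyn
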